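import Mathlib

/-! Abstract calculus of transitions. -/

namespace Pool.Agent.P.MP_7bb7e1_gt

open scoped commutatorElement

/-- a group `Γ` inside `P` with left and right trivial subgroups -/
structure AbsD (P : Type*) [Group P] where
  Γ : Subgroup P
  SL : Subgroup P
  SR : Subgroup P
  hL : SL ≤ Γ
  hR : SR ≤ Γ
  nL : ∀ g ∈ Γ, ∀ k ∈ SL, g * k * g⁻¹ ∈ SL
  nR : ∀ g ∈ Γ, ∀ k ∈ SR, g * k * g⁻¹ ∈ SR
  split : ∀ g ∈ Γ, ∃ k ∈ SL, k⁻¹ * g ∈ SR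
  loc : ∀ g ∈ Γ, ∀ e ∈ SL ⊓ SR, ⁅g, e⁆ ∈ ⁅SL ⊓ SR, SL ⊓ SR⁆

namespace AbsD

variable {P : Type*} [Group P] (A : AbsD P)

def N : Subgroup P := ⁅A.SL ⊓ A.SR, A.SL ⊓ A.SR⁆

/-- `k` is a transition from the identity to `Ω` -/
def Trs (k Ω : P) : Prop := k ∈ A.SL ∧ Ω ∈ A.Γ ∧ k⁻¹ * Ω ∈ A.SR

/-- congruence modulo `N` -/
def Cg (x y : P) : Prop := x * y⁻¹ ∈ A.N

variable {A} {k k' Ω Ω' s s' x y z g : P}

theorem Cg.refl (x : P) : A.Cg x x := by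
  unfold Cg
  rw [mul_inv_cancel]
  exact A.N.one_mem

theorem Cg.symm (h : A.Cg x y) : A.Cg y x := by
  unfold Cg at *
  have e : y * x⁻¹ = (x * y⁻¹)⁻¹ := by group
  rw [e]
  exact A.N.inv_mem h

theorem Cg.trans (h : A.Cg x y) (h' : A.Cg y z) : A.Cg x z := by
  unfold Cg at *
  have e : x * z⁻¹ = (x * y⁻¹) * (y * z⁻¹) := by group
  rw [e]
  exact A.N.mul_mem h h'

theorem Cg.mem (h : A.Cg x y) (hy : y ∈ A.N) : x ∈ A.N := by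
  unfold Cg at h
  have e : x = (x * y⁻¹) * y := by group
  rw [e]
  exact A.N.mul_mem h hy

theorem abs_N_le : A.N ≤ A.SL ⊓ A.SR := by
  unfold N
  rw [Subgroup.commutator_le]
  intro a ha b hb
  rw [commutatorElement_def]
  exact mul_mem (mul_mem (mul_mem ha hb) (inv_mem ha)) (inv_mem hb)

theorem abs_S_le : A.SL ⊓ A.SR ≤ A.Γ := inf_le_left.trans A.hL

theorem conj_N (hg : g ∈ A.Γ) (hx : x ∈ A.N) : g * x * g⁻¹ ∈ A.N := by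
  have e : g * x * g⁻¹ = ⁅g, x⁆ * x := by
    rw [commutatorElement_def]
    group
  rw [e]
  exact A.N.mul_mem (A.loc g hg x (abs_N_le hx)) hx

theorem cg_conj (hg : g ∈ A.Γ) (hx : x ∈ A.SL ⊓ A.SR) : A.Cg (g * x * g⁻¹) x := by
  have h := A.loc g hg x hx
  rw [commutatorElement_def] at h
  exact h

theorem abs_cg_mul {x' y' : P} (hx : x ∈ A.Γ) (h : A.Cg x x') (h' : A.Cg y y') :
    A.Cg (x * y) (x' * y') := by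
  unfold Cg at *
  have e : x * y * (x' * y')⁻¹ = (x * (y * y'⁻¹) * x⁻¹) * (x * x'⁻¹) := by group
  rw [e]
  exact A.N.mul_mem (conj_N hx h') h

theorem abs_cg_pow (hx : x ∈ A.Γ) (h : A.Cg x y) (n : ℕ) : A.Cg (x ^ n) (y ^ n) := by
  induction n with
  | zero => simpa using Cg.refl (A := A) 1
  | succ n ih =>
    rw [pow_succ, pow_succ]
    exact abs_cg_mul (pow_mem hx n) ih h

theorem Trs.comm_mem (h : A.Trs k Ω) (hs : s ∈ A.Γ) (hc : Ω * s = s * Ω) :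
    ⁅k, s⁆ ∈ A.SL ⊓ A.SR := by
  obtain ⟨hk, hΩ, hr⟩ := h
  refine ⟨?_, ?_⟩
  · have e : ⁅k, s⁆ = k * (s * k⁻¹ * s⁻¹) := by
      rw [commutatorElement_def]
      group
    rw [e]
    exact A.SL.mul_mem hk (A.nL s hs _ (inv_mem hk))
  · have hc' : s * Ω⁻¹ = Ω⁻¹ * s := by
      calc s * Ω⁻¹ = Ω⁻¹ * (Ω * s) * Ω⁻¹ := by group
        _ = Ω⁻¹ * (s * Ω) * Ω⁻¹ := by rw [hc]
        _ = Ω⁻¹ * s := by group
    have e : ⁅k, s⁆ = Ω * ((k⁻¹ * Ω)⁻¹ * (s * (k⁻¹ * Ω) * s⁻¹)) * Ω⁻¹ := by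
      rw [commutatorElement_def]
      calc k * s * k⁻¹ * s⁻¹ = k * s * k⁻¹ * Ω * s⁻¹ * (s * Ω⁻¹) * s⁻¹ := by group
        _ = k * s * k⁻¹ * Ω * s⁻¹ * (Ω⁻¹ * s) * s⁻¹ := by rw [hc']
        _ = _ := by group
    rw [e]
    exact A.nR Ω hΩ _ (A.SR.mul_mem (inv_mem hr) (A.nR s hs _ hr))

theorem abs_comm_mul (a b c : P) : ⁅a * b, c⁆ = a * ⁅b, c⁆ * a⁻¹ * ⁅a, c⁆ := by
  simp only [commutatorElement_def]
  group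

theorem abs_comm_mul' (a b c : P) : ⁅a, b * c⁆ = ⁅a, b⁆ * (b * ⁅a, c⁆ * b⁻¹) := by
  simp only [commutatorElement_def]
  group

theorem Trs.indep (h : A.Trs k Ω) (h' : A.Trs k' Ω) (hs : s ∈ A.Γ) (hc : Ω * s = s * Ω) :
    A.Cg ⁅k, s⁆ ⁅k', s⁆ := by
  have _ := hc
  obtain ⟨hk, -, hr⟩ := h
  obtain ⟨hk', -, hr'⟩ := h'
  have he : k⁻¹ * k' ∈ A.SL ⊓ A.SR := by
    refine ⟨A.SL.mul_mem (inv_mem hk) hk', ?_⟩
    have e : k⁻¹ * k' = (k⁻¹ * Ω) * (k'⁻¹ * Ω)⁻¹ := by group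
    rw [e]
    exact A.SR.mul_mem hr (inv_mem hr')
  have hN : ⁅s, k⁻¹ * k'⁆ ∈ A.N := A.loc s hs _ he
  apply Cg.symm
  unfold Cg
  have e : ⁅k', s⁆ * ⁅k, s⁆⁻¹ = k * ⁅s, k⁻¹ * k'⁆⁻¹ * k⁻¹ := by
    simp only [commutatorElement_def]
    group
  rw [e]
  exact conj_N (A.hL hk) (inv_mem hN)

theorem Trs.mul (h : A.Trs k Ω) (h' : A.Trs k' Ω') : A.Trs (k * k') (Ω * Ω') := by
  obtain ⟨hk, hΩ, hr⟩ := h
  obtain ⟨hk', hΩ', hr'⟩ := h'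
  refine ⟨A.SL.mul_mem hk hk', A.Γ.mul_mem hΩ hΩ', ?_⟩
  have e : (k * k')⁻¹ * (Ω * Ω') = (k'⁻¹ * (k⁻¹ * Ω) * k'⁻¹⁻¹) * (k'⁻¹ * Ω') := by group
  rw [e]
  exact A.SR.mul_mem (A.nR _ (inv_mem (A.hL hk')) _ hr) hr'

theorem Trs.inv (h : A.Trs k Ω) : A.Trs k⁻¹ Ω⁻¹ := by
  obtain ⟨hk, hΩ, hr⟩ := h
  refine ⟨inv_mem hk, inv_mem hΩ, ?_⟩
  have e : k⁻¹⁻¹ * Ω⁻¹ = k * (k⁻¹ * Ω)⁻¹ * k⁻¹ := by group
  rw [e]
  exact A.nR _ (A.hL hk) _ (inv_mem hr)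

theorem abs_trs_pow (h : A.Trs k Ω) (n : ℕ) : A.Trs (k ^ n) (Ω ^ n) := by
  induction n with
  | zero =>
    refine ⟨?_, ?_, ?_⟩
    · rw [pow_zero]; exact one_mem _
    · rw [pow_zero]; exact one_mem _
    · rw [pow_zero, pow_zero, inv_one, one_mul]; exact one_mem _
  | succ n ih =>
    rw [pow_succ, pow_succ]
    exact ih.mul h

theorem abs_left_pow (h : A.Trs k Ω) (hs : s ∈ A.Γ) (hc : Ω * s = s * Ω) (n : ℕ) :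
    A.Cg ⁅k ^ n, s⁆ (⁅k, s⁆ ^ n) := by
  induction n with
  | zero => simpa using Cg.refl (A := A) 1
  | succ n ih =>
    rw [pow_succ, abs_comm_mul, pow_succ']
    have hS := h.comm_mem hs hc
    have hkn : k ^ n ∈ A.Γ := pow_mem (A.hL h.1) n
    exact abs_cg_mul (mul_mem (mul_mem hkn (abs_S_le hS)) (inv_mem hkn)) (cg_conj hkn hS) ih

theorem abs_right_pow (h : A.Trs k Ω) (hs : s ∈ A.Γ) (hc : Ω * s = s * Ω) (n : ℕ) :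
    A.Cg ⁅k, s ^ n⁆ (⁅k, s⁆ ^ n) := by
  induction n with
  | zero => simpa using Cg.refl (A := A) 1
  | succ n ih =>
    rw [pow_succ, abs_comm_mul', pow_succ]
    have hS := h.comm_mem hs hc
    have hsn : s ^ n ∈ A.Γ := pow_mem hs n
    have hc' : Ω * s ^ n = s ^ n * Ω := (Commute.pow_right (a := Ω) (b := s) hc n)
    exact abs_cg_mul (abs_S_le (h.comm_mem hsn hc')) ih (cg_conj hsn hS)

variable (A) in
/-- the class of `(Ω, s)` vanishes -/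
def Triv (Ω s : P) : Prop := ∃ k, A.Trs k Ω ∧ ⁅k, s⁆ ∈ A.N

theorem Triv.comm_mem (h : A.Triv Ω s) (hk : A.Trs k Ω) (hs : s ∈ A.Γ) (hc : Ω * s = s * Ω) :
    ⁅k, s⁆ ∈ A.N := by
  obtain ⟨k₁, h₁, hN⟩ := h
  exact (hk.indep h₁ hs hc).mem hN

/-- the class is multiplicative in each variable, with values in the commutative group `S / N` -/
theorem triv_pow {t : P} {D : ℕ} (hD : 1 ≤ D) (h : A.Trs k t) (h' : A.Trs k' (t ^ D)) (hs : s ∈ A.Γ)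
    (hc : t * s = s * t) (e : A.Cg ⁅k, s⁆ ⁅k', s ^ D⁆) : A.Triv (t ^ (D ^ 2 - 1)) s := by
  have hcD : t ^ D * s = s * t ^ D := (Commute.pow_left (a := t) (b := s) hc D)
  have hS := h.comm_mem hs hc
  have h1 : A.Cg ⁅k', s⁆ (⁅k, s⁆ ^ D) :=
    (h'.indep (abs_trs_pow h D) hs hcD).trans (abs_left_pow h hs hc D)
  have h2 : A.Cg ⁅k', s ^ D⁆ ((⁅k, s⁆ ^ D) ^ D) :=
    (abs_right_pow h' hs hcD D).trans (abs_cg_pow (abs_S_le (h'.comm_mem hs hcD)) h1 D)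
  have h3 : A.Cg ((⁅k, s⁆ ^ D) ^ D) ⁅k, s⁆ := (e.trans h2).symm
  have hD2 : D * D = (D ^ 2 - 1) + 1 := by
    have : 1 ≤ D ^ 2 := Nat.one_le_pow _ _ hD
    rw [Nat.sub_add_cancel this, sq]
  have h4 : ⁅k, s⁆ ^ (D ^ 2 - 1) ∈ A.N := by
    unfold Cg at h3
    rw [← pow_mul, hD2, pow_succ, mul_inv_cancel_right] at h3
    exact h3
  exact ⟨k ^ (D ^ 2 - 1), abs_trs_pow h _, (abs_left_pow h hs hc _).mem h4⟩

theorem triv_main {t t' Ω₀ Ω₁ Ωb κ kb : P} (hs : s ∈ A.Γ) (h₀ : Ω₀ ∈ A.Γ)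
    (ht : A.Triv t s) (ht' : A.Triv t' s) (c₀ : Ω₀ * s = s * Ω₀) (cb : Ωb * s = s * Ωb)
    (ct : t * s = s * t) (ct' : t' * s = s * t') (h₁ : A.Trs κ Ω₁) (hb : A.Trs kb Ωb)
    (e₁ : Ω₁ = t⁻¹ * Ωb * Ω₀) (e : A.Cg ⁅κ, s⁆ ⁅kb, s⁆) : A.Triv (t' * Ω₀) s := by
  have _ := ct'
  obtain ⟨kt, hkt, hNt⟩ := ht
  obtain ⟨kt', hkt', hNt'⟩ := ht'
  obtain ⟨k₀, hk₀, hr₀⟩ := A.split Ω₀ h₀
  have hT₀ : A.Trs k₀ Ω₀ := ⟨hk₀, h₀, hr₀⟩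
  have hT₁ : A.Trs (kt⁻¹ * kb * k₀) Ω₁ := by
    rw [e₁]
    exact (hkt.inv.mul hb).mul hT₀
  have c₁ : Ω₁ * s = s * Ω₁ := by
    rw [e₁]
    have a1 : Commute t s := ct
    have a2 : Commute Ωb s := cb
    have a3 : Commute Ω₀ s := c₀
    exact (a1.inv_left.mul_left a2).mul_left a3
  have hktΓ : kt⁻¹ ∈ A.Γ := inv_mem (A.hL hkt.1)
  have hkbΓ : kb ∈ A.Γ := A.hL hb.1
  have hSb := hb.comm_mem hs cb
  have hinv : ⁅kt⁻¹, s⁆ ∈ A.N := by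
    have e' : ⁅kt⁻¹, s⁆ = kt⁻¹ * ⁅kt, s⁆⁻¹ * kt⁻¹⁻¹ := by
      simp only [commutatorElement_def]
      group
    rw [e']
    exact conj_N hktΓ (inv_mem hNt)
  have h1 : A.Cg ⁅kt⁻¹ * kb, s⁆ ⁅kb, s⁆ := by
    rw [abs_comm_mul]
    have h2 : A.Cg ⁅kt⁻¹, s⁆ 1 := by
      unfold Cg
      rw [inv_one, mul_one]
      exact hinv
    have h3 := abs_cg_mul (mul_mem (mul_mem hktΓ (abs_S_le hSb)) (inv_mem hktΓ))
      (cg_conj hktΓ hSb) h2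
    rwa [mul_one] at h3
  have h4 : A.Cg ⁅kt⁻¹ * kb * k₀, s⁆ ⁅kt⁻¹ * kb, s⁆ :=
    ((hT₁.indep h₁ hs c₁).trans e).trans h1.symm
  have h5 : ⁅k₀, s⁆ ∈ A.N := by
    unfold Cg at h4
    rw [abs_comm_mul (kt⁻¹ * kb) k₀ s, mul_inv_cancel_right] at h4
    have h6 := conj_N (inv_mem (mul_mem hktΓ hkbΓ)) h4
    have e' : (kt⁻¹ * kb)⁻¹ * (kt⁻¹ * kb * ⁅k₀, s⁆ * (kt⁻¹ * kb)⁻¹) * (kt⁻¹ * kb)⁻¹⁻¹ = ⁅k₀, s⁆ := by
      group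
    rwa [e'] at h6
  refine ⟨kt' * k₀, hkt'.mul hT₀, ?_⟩
  rw [abs_comm_mul]
  exact A.N.mul_mem (conj_N (A.hL hkt'.1) h5) hNt'

end AbsD

end Pool.Agent.P.MP_7bb7e1_gt
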