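import Pool.Agent.P.MP_7bb7e1_gt.Inv

/-! Affine conjugation; realising an affine map on an interval by an element of `Gc`. -/

namespace Pool.Agent.P.MP_7bb7e1_gt

open scoped ContDiff

variable {e : Pm} {a b l m : ℝ}

theorem aff_one (c : ℝ) : aff 1 c = tr c := by
  ext x; rw [aff_apply one_ne_zero]; simp

theorem aff_mul {l' : ℝ} (hl : l ≠ 0) (hl' : l' ≠ 0) (m m' : ℝ) :
    aff l m * aff l' m' = aff (l * l') (l * m' + m) := by
  ext x
  rw [Equiv.Perm.mul_apply, aff_apply hl, aff_apply hl', aff_apply (mul_ne_zero hl hl')]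
  ring

theorem aff_inv (hl : l ≠ 0) (m : ℝ) : (aff l m)⁻¹ = aff l⁻¹ (-m / l) := by
  ext x
  rw [aff_inv_apply hl, aff_apply (inv_ne_zero hl)]
  field_simp
  ring

theorem aff_conj_tr (hl : l ≠ 0) (m c : ℝ) : aff l m * tr c * (aff l m)⁻¹ = tr (l * c) := by
  ext x
  rw [Equiv.Perm.mul_apply, Equiv.Perm.mul_apply, aff_inv_apply hl, aff_apply hl, tr_apply,
    tr_apply]
  field_simp
  ring

theorem dp_conj_aff (hl : l ≠ 0) (m : ℝ) (e : Pm) :
    dp (aff l m * e * (aff l m)⁻¹) = fun x => l * dp e (l⁻¹ * x + -m / l) := by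
  ext x
  have h : (x - m) / l = l⁻¹ * x + -m / l := by field_simp; ring
  simp only [dp]
  rw [Equiv.Perm.mul_apply, Equiv.Perm.mul_apply, aff_inv_apply hl, aff_apply hl, h]
  field_simp
  ring

theorem aff_zero (m : ℝ) : aff 0 m = 1 := by simp [aff]

theorem sm_conj_aff (he : Sm (dp e)) (l m : ℝ) : Sm (dp (aff l m * e * (aff l m)⁻¹)) := by
  by_cases hl : l = 0
  · subst hl
    simpa [aff_zero] using he
  · rw [dp_conj_aff hl]
    exact (he.comp_aff _ _).const_mul l

theorem sn_conj_aff (he : Sm (dp e)) (hl : 0 < l) (m : ℝ) (r : ℕ) :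
    sn r (dp (aff l m * e * (aff l m)⁻¹)) = l / l ^ r * sn r (dp e) := by
  rw [dp_conj_aff hl.ne', sn_const_mul (he.comp_aff _ _), sn_comp_aff he (inv_ne_zero hl.ne'),
    abs_of_pos hl, abs_of_pos (inv_pos.2 hl), inv_pow, div_eq_mul_inv, mul_assoc]

theorem Fix.conj_aff (h : Fix a b e) (hl : 0 < l) (m : ℝ) :
    Fix (l * a + m) (l * b + m) (aff l m * e * (aff l m)⁻¹) := by
  intro x hx
  have h1 : e ((x - m) / l) = (x - m) / l := by
    refine h _ (hx.imp (fun h => ?_) fun h => ?_)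
    · rw [div_le_iff₀ hl]; linarith
    · rw [le_div_iff₀ hl]; linarith
  rw [Equiv.Perm.mul_apply, Equiv.Perm.mul_apply, aff_inv_apply hl.ne', aff_apply hl.ne', h1]
  field_simp
  ring

theorem dp_conj_tr (c : ℝ) (e : Pm) :
    dp (tr c * e * (tr c)⁻¹) = fun x => dp e (x + -c) := by
  ext x
  simp only [dp]
  rw [Equiv.Perm.mul_apply, Equiv.Perm.mul_apply, tr_inv_apply, tr_apply, sub_eq_add_neg x c]
  ring

theorem sm_conj_tr (he : Sm (dp e)) (c : ℝ) : Sm (dp (tr c * e * (tr c)⁻¹)) := by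
  rw [dp_conj_tr]; exact he.comp_add _

theorem sn_conj_tr (c : ℝ) (e : Pm) (r : ℕ) :
    sn r (dp (tr c * e * (tr c)⁻¹)) = sn r (dp e) := by
  rw [dp_conj_tr, sn_comp_add]

theorem commute_tr_iff (e : Pm) (η : ℝ) :
    e * tr η = tr η * e ↔ ∀ x, dp e (x + η) = dp e x := by
  rw [Equiv.ext_iff]
  refine forall_congr' fun x => ?_
  simp only [dp, Equiv.Perm.mul_apply, tr_apply]
  constructor <;> intro h <;> linarith

theorem conj_aff_mem (l m : ℝ) (he : e ∈ Gc) : aff l m * e * (aff l m)⁻¹ ∈ Gc := by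
  by_cases hl : l = 0
  · subst hl
    simpa [aff_zero] using he
  have key : ∀ u : Pm, ContDiff ℝ ∞ (fun x => u x) →
      ContDiff ℝ ∞ fun x => (aff l m * u * (aff l m)⁻¹) x := by
    intro u hu
    have : (fun x => (aff l m * u * (aff l m)⁻¹) x) = fun x => l * u ((x - m) / l) + m := by
      ext x
      rw [Equiv.Perm.mul_apply, Equiv.Perm.mul_apply, aff_inv_apply hl, aff_apply hl]
    rw [this]
    exact (contDiff_const.mul (hu.comp ((contDiff_id.sub contDiff_const).div_const l))).add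
      contDiff_const
  obtain ⟨h1, h2, M, h3⟩ := he
  refine ⟨key e h1, ?_, |l| * M + |m|, fun x hx => ?_⟩
  · have : (aff l m * e * (aff l m)⁻¹)⁻¹ = aff l m * e⁻¹ * (aff l m)⁻¹ := by group
    rw [this]
    exact key e⁻¹ h2
  · have h4 : M ≤ |(x - m) / l| := by
      rw [abs_div, le_div_iff₀ (abs_pos.2 hl)]
      have := abs_sub_abs_le_abs_sub x m
      linarith
    rw [Equiv.Perm.mul_apply, Equiv.Perm.mul_apply, aff_inv_apply hl, aff_apply hl, h3 _ h4]
    field_simp
    ring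

/-- conjugation by an affine map -/
noncomputable def cG (l m : ℝ) : Gc →* Gc where
  toFun g := ⟨aff l m * g * (aff l m)⁻¹, conj_aff_mem l m g.2⟩
  map_one' := by ext1; simp
  map_mul' g h := by ext1; simp [mul_assoc]

theorem coe_cG (l m : ℝ) (g : Gc) : (cG l m g : Pm) = aff l m * g * (aff l m)⁻¹ := rfl

theorem cG_cG {l' : ℝ} (hl : l ≠ 0) (hl' : l' ≠ 0) (m m' : ℝ) (g : Gc) :
    cG l m (cG l' m' g) = cG (l * l') (l * m' + m) g := by
  ext1
  rw [coe_cG, coe_cG, coe_cG, ← aff_mul hl hl']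
  group

theorem cG_one (g : Gc) : cG 1 0 g = g := by
  ext1
  rw [coe_cG, aff_one, tr_zero]
  simp

/-- two permutations that agree on the support conjugate in the same way: apply
`commute_of_fix` to `ψ⁻¹ * φ` -/
theorem conj_eq_of_agree {φ ψ : Pm} (h : Fix a b e) (hφ : ∀ x, a ≤ x → x ≤ b → φ x = ψ x) :
    φ * e * φ⁻¹ = ψ * e * ψ⁻¹ := by
  have h1 : ψ⁻¹ * φ * e = e * (ψ⁻¹ * φ) := by
    refine commute_of_fix (s := Set.Icc a b) (fun x hx => ?_) fun x hx => h x ?_
    · rw [Equiv.Perm.mul_apply, hφ x hx.1 hx.2]; simp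
    · by_contra hc
      rw [not_or, not_le, not_le] at hc
      exact hx ⟨hc.1.le, hc.2.le⟩
  calc φ * e * φ⁻¹ = ψ * (ψ⁻¹ * φ * e) * φ⁻¹ := by group
    _ = ψ * (e * (ψ⁻¹ * φ)) * φ⁻¹ := by rw [h1]
    _ = ψ * e * ψ⁻¹ := by group

/-- a smooth ramp: the primitive of the standard step function, rescaled -/
theorem aff_aux_ramp : ∃ (κ : ℝ) (R : ℝ → ℝ → ℝ → ℝ), 0 ≤ κ ∧ κ ≤ 1 ∧ ∀ δ t : ℝ, 0 < δ →
    ContDiff ℝ ∞ (R δ t) ∧ (∀ x, x ≤ t → R δ t x = 0) ∧
      (∀ x, t + δ ≤ x → R δ t x = x - t - δ * κ) ∧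
      ∀ x, HasDerivAt (R δ t) (Real.smoothTransition ((x - t) / δ)) x := by
  have hc := Real.smoothTransition.continuous
  set S : ℝ → ℝ := fun x => ∫ u in (0 : ℝ)..x, Real.smoothTransition u with hS
  have hd : ∀ x, HasDerivAt S (Real.smoothTransition x) x := fun x =>
    (hc.integral_hasStrictDerivAt 0 x).hasDerivAt
  have hsm : ContDiff ℝ ∞ S := by
    rw [contDiff_infty_iff_deriv]
    refine ⟨fun x => (hd x).differentiableAt, ?_⟩
    have : deriv S = Real.smoothTransition := funext fun x => (hd x).deriv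
    rw [this]
    exact Real.smoothTransition.contDiff
  have h0 : ∀ x, x ≤ 0 → S x = 0 := by
    intro x hx
    have : S x = ∫ _ in (0 : ℝ)..x, (0 : ℝ) := by
      refine intervalIntegral.integral_congr fun u hu => ?_
      rw [Set.uIcc_of_ge hx] at hu
      exact Real.smoothTransition.zero_of_nonpos hu.2
    rw [this]; simp
  have h1 : ∀ x, 1 ≤ x → S x = x - (1 - S 1) := by
    intro x hx
    have e1 : S x = S 1 + ∫ u in (1 : ℝ)..x, Real.smoothTransition u :=
      (intervalIntegral.integral_add_adjacent_intervals (hc.intervalIntegrable _ _)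
        (hc.intervalIntegrable _ _)).symm
    have e2 : (∫ u in (1 : ℝ)..x, Real.smoothTransition u) = ∫ _ in (1 : ℝ)..x, (1 : ℝ) := by
      refine intervalIntegral.integral_congr fun u hu => ?_
      rw [Set.uIcc_of_le hx] at hu
      exact Real.smoothTransition.one_of_one_le hu.1
    rw [e1, e2]; simp; ring
  have h2 : 0 ≤ S 1 :=
    intervalIntegral.integral_nonneg zero_le_one fun u _ => Real.smoothTransition.nonneg u
  have h3 : S 1 ≤ 1 := by
    have : S 1 ≤ ∫ _ in (0 : ℝ)..1, (1 : ℝ) :=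
      intervalIntegral.integral_mono_on zero_le_one (hc.intervalIntegrable _ _)
        (continuous_const.intervalIntegrable _ _) fun u _ => Real.smoothTransition.le_one u
    simpa using this
  refine ⟨1 - S 1, fun δ t x => δ * S ((x - t) / δ), by linarith, by linarith,
    fun δ t hδ => ⟨?_, fun x hx => ?_, fun x hx => ?_, fun x => ?_⟩⟩
  · exact contDiff_const.mul (hsm.comp ((contDiff_id.sub contDiff_const).div_const δ))
  · have : (x - t) / δ ≤ 0 := div_nonpos_of_nonpos_of_nonneg (by linarith) hδ.le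
    simp only [h0 _ this, mul_zero]
  · have : 1 ≤ (x - t) / δ := by rw [le_div_iff₀ hδ]; linarith
    simp only [h1 _ this]
    field_simp
  · have e : HasDerivAt (fun y : ℝ => (y - t) / δ) (1 / δ) x :=
      ((hasDerivAt_id x).sub_const t).div_const δ
    have e2 := ((hd ((x - t) / δ)).comp x e).const_mul δ
    have e3 : δ * (Real.smoothTransition ((x - t) / δ) * (1 / δ)) =
        Real.smoothTransition ((x - t) / δ) := by field_simp
    rw [e3] at e2
    exact e2

theorem aff_aux_pos {c d l u v w z : ℝ} (hc : 0 < c) (hd : 0 < d) (hl : 0 < l) (h1 : u ≤ 1)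
    (h2 : v ≤ u) (h3 : w ≤ v) (h4 : z ≤ w) (h5 : 0 ≤ z) :
    0 < 1 + ((c - 1) * u + (l - c) * v + (d - l) * w + (1 - d) * z) := by
  obtain ⟨μ, hμ, m1, m2, m3, m4⟩ : ∃ μ : ℝ, 0 < μ ∧ μ ≤ 1 ∧ μ ≤ c ∧ μ ≤ l ∧ μ ≤ d :=
    ⟨min (min 1 c) (min l d), by positivity, (min_le_left _ _).trans (min_le_left _ _),
      (min_le_left _ _).trans (min_le_right _ _), (min_le_right _ _).trans (min_le_left _ _),
      (min_le_right _ _).trans (min_le_right _ _)⟩
  have a1 := mul_le_mul_of_nonneg_right m1 (sub_nonneg.2 h1)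
  have a2 := mul_le_mul_of_nonneg_right m2 (sub_nonneg.2 h2)
  have a3 := mul_le_mul_of_nonneg_right m3 (sub_nonneg.2 h3)
  have a4 := mul_le_mul_of_nonneg_right m4 (sub_nonneg.2 h4)
  have a5 := mul_le_mul_of_nonneg_right m1 h5
  linarith

/-- The displacement is a combination of four smooth ramps: the map is a smoothing of a piecewise
affine map with slopes `1, c, l, d, 1`. -/
theorem exists_aff {α β : ℝ} (hl : 0 < l) (hab : a ≤ b) (h1 : α < a) (h2 : b < β)
    (h3 : α < l * a + m) (h4 : l * b + m < β) :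
    ∃ g : Gc, Fix α β (g : Pm) ∧ ∀ x, a ≤ x → x ≤ b → (g : Pm) x = l * x + m := by
  obtain ⟨κ, R, k0, k1, hR⟩ := aff_aux_ramp
  obtain ⟨δ, hδ, d1, d2, d3, d4⟩ : ∃ δ : ℝ, 0 < δ ∧ δ < a - α ∧ δ < β - b ∧
      δ * (1 + l) < l * a + m - α ∧ δ * (1 + l) < β - (l * b + m) := by
    have hp : 0 < 1 + l := by linarith
    have p1 : 0 < a - α := by linarith
    have p2 : 0 < β - b := by linarith
    have p3 : 0 < (l * a + m - α) / (1 + l) := div_pos (by linarith) hp
    have p4 : 0 < (β - (l * b + m)) / (1 + l) := div_pos (by linarith) hp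
    obtain ⟨δ, hδ, h⟩ := exists_between (lt_min (lt_min p1 p2) (lt_min p3 p4))
    rw [lt_min_iff, lt_min_iff, lt_min_iff, lt_div_iff₀ hp, lt_div_iff₀ hp] at h
    exact ⟨δ, hδ, h.1.1, h.1.2, h.2.1, h.2.2⟩
  have q1 : 0 < a - α - δ := by linarith
  have q2 : 0 < β - b - δ := by linarith
  have q3 : δ * κ + l * δ * (1 - κ) ≤ δ * (1 + l) := by
    have := mul_le_mul_of_nonneg_left k1 hδ.le
    have := mul_nonneg (mul_pos hl hδ).le k0
    linarith
  have q4 : l * δ * κ + δ * (1 - κ) ≤ δ * (1 + l) := by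
    have := mul_le_mul_of_nonneg_left k1 (mul_pos hl hδ).le
    have := mul_nonneg hδ.le k0
    linarith
  obtain ⟨c, hc, hc'⟩ : ∃ c : ℝ, 0 < c ∧
      c * (a - α - δ) = l * a + m - α - (δ * κ + l * δ * (1 - κ)) :=
    ⟨_, div_pos (by linarith) q1, div_mul_cancel₀ _ q1.ne'⟩
  obtain ⟨d, hd, hd'⟩ : ∃ d : ℝ, 0 < d ∧
      d * (β - b - δ) = β - (l * b + m) - (l * δ * κ + δ * (1 - κ)) :=
    ⟨_, div_pos (by linarith) q2, div_mul_cancel₀ _ q2.ne'⟩
  obtain ⟨s1, z1, r1, e1⟩ := hR δ α hδ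
  obtain ⟨s2, z2, r2, e2⟩ := hR δ (a - δ) hδ
  obtain ⟨s3, z3, r3, e3⟩ := hR δ b hδ
  obtain ⟨s4, z4, r4, e4⟩ := hR δ (β - δ) hδ
  obtain ⟨g, hg⟩ := mkG (a := α) (b := β) (f := fun x => (c - 1) * R δ α x +
      (l - c) * R δ (a - δ) x + (d - l) * R δ b x + (1 - d) * R δ (β - δ) x)
    ((((contDiff_const.mul s1).add (contDiff_const.mul s2)).add (contDiff_const.mul s3)).add
      (contDiff_const.mul s4))
    (by
      rintro x (hx | hx)
      · simp only [z1 x hx, z2 x (by linarith), z3 x (by linarith), z4 x (by linarith)]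
        ring
      · simp only [r1 x (by linarith), r2 x (by linarith), r3 x (by linarith), r4 x (by linarith)]
        linear_combination hc' + hd')
    (by
      intro x
      have e := ((((e1 x).const_mul (c - 1)).add ((e2 x).const_mul (l - c))).add
        ((e3 x).const_mul (d - l))).add ((e4 x).const_mul (1 - d))
      have e' := e.deriv
      have mono : ∀ s t : ℝ, s ≤ t → Real.smoothTransition ((x - t) / δ) ≤
          Real.smoothTransition ((x - s) / δ) := fun s t hst =>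
        Real.smoothTransition.monotone (div_le_div_of_nonneg_right (by linarith) hδ.le)
      have := aff_aux_pos hc hd hl (Real.smoothTransition.le_one ((x - α) / δ))
        (mono α (a - δ) (by linarith)) (mono (a - δ) b (by linarith))
        (mono b (β - δ) (by linarith)) (Real.smoothTransition.nonneg _)
      rw [← e'] at this
      exact this)
  refine ⟨g, fix_iff_van.2 ?_, fun x hx hx' => ?_⟩
  · rw [hg]
    rintro x (hx | hx)
    · simp only [z1 x hx, z2 x (by linarith), z3 x (by linarith), z4 x (by linarith)]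
      ring
    · simp only [r1 x (by linarith), r2 x (by linarith), r3 x (by linarith), r4 x (by linarith)]
      linear_combination hc' + hd'
  · rw [apply_eq_add_dp, hg]
    simp only [r1 x (by linarith), r2 x (by linarith), z3 x hx', z4 x (by linarith)]
    linear_combination hc'

end Pool.Agent.P.MP_7bb7e1_gt
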