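import Pool.Agent.P.MP_7bb7e1_gt.Aff

/-! The logarithm of the derivative and the cocycle identity. -/

namespace Pool.Agent.P.MP_7bb7e1_gt

open scoped ContDiff Topology
open MeasureTheory Filter

/-- the logarithm of the derivative -/
noncomputable def bt1_l (g : Gc) : ℝ → ℝ := fun x => Real.log (deriv (fun y => (g : Pm) y) x)

theorem bt1_cd (g : Gc) : ContDiff ℝ ∞ fun y => (g : Pm) y := g.2.1

theorem bt1_diff (g : Gc) : Differentiable ℝ fun y => (g : Pm) y :=
  (bt1_cd g).differentiable (by simp)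

theorem bt1_cd' (g : Gc) : ContDiff ℝ ∞ (deriv fun y => (g : Pm) y) :=
  (contDiff_infty_iff_deriv.1 (bt1_cd g)).2

theorem bt1_pos (g : Gc) (x : ℝ) : 0 < deriv (fun y => (g : Pm) y) x := by
  obtain ⟨m, hm, h⟩ := Gc.lower g
  rw [deriv_eq_one_add (Gc.sm g)]
  exact hm.trans_le (h x)

theorem bt1_l_cd (g : Gc) : ContDiff ℝ ∞ (bt1_l g) :=
  (bt1_cd' g).log fun x => (bt1_pos g x).ne'

theorem bt1_l_diff (g : Gc) : Differentiable ℝ (bt1_l g) :=
  (bt1_l_cd g).differentiable (by simp)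

theorem bt1_l_cont' (g : Gc) : Continuous (deriv (bt1_l g)) :=
  (contDiff_infty_iff_deriv.1 (bt1_l_cd g)).2.continuous

theorem bt1_l_deriv (g : Gc) (x : ℝ) : deriv (bt1_l g) x =
    deriv (deriv fun y => (g : Pm) y) x / deriv (fun y => (g : Pm) y) x :=
  (((bt1_cd' g).differentiable (by simp) x).hasDerivAt.log (bt1_pos g x).ne').deriv

theorem bt1_l_supp (g : Gc) : HasCompactSupport (bt1_l g) := by
  obtain ⟨M, h⟩ := g.2.2.2
  refine HasCompactSupport.intro (isCompact_closedBall (0 : ℝ) M) fun x hx => ?_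
  have hx' : M < |x| := by simpa using hx
  have h1 : (fun y => (g : Pm) y) =ᶠ[𝓝 x] id := by
    filter_upwards [continuous_abs.continuousAt.eventually (lt_mem_nhds hx')] with y hy
    exact h y hy.le
  simp [bt1_l, h1.deriv_eq]

theorem bt1_eq (g h : Gc) : bt g h = ∫ x, bt1_l g ((h : Pm) x) * deriv (bt1_l h) x := by
  simp only [bt, bt1_l_deriv]
  rfl

theorem bt1_deriv_mul (g h : Gc) (x : ℝ) : deriv (fun y => ((g * h : Gc) : Pm) y) x =
    deriv (fun y => (g : Pm) y) ((h : Pm) x) * deriv (fun y => (h : Pm) y) x :=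
  ((bt1_diff g _).hasDerivAt.comp x (bt1_diff h x).hasDerivAt).deriv

theorem bt1_l_mul (g h : Gc) : bt1_l (g * h) = fun x => bt1_l g ((h : Pm) x) + bt1_l h x := by
  funext x
  simp only [bt1_l]
  rw [bt1_deriv_mul, Real.log_mul (bt1_pos g _).ne' (bt1_pos h _).ne']

theorem bt1_l_mul' (g h : Gc) (x : ℝ) : deriv (bt1_l (g * h)) x =
    deriv (bt1_l g) ((h : Pm) x) * deriv (fun y => (h : Pm) y) x + deriv (bt1_l h) x := by
  rw [bt1_l_mul]
  exact (((bt1_l_diff g _).hasDerivAt.comp x (bt1_diff h x).hasDerivAt).add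
    (bt1_l_diff h x).hasDerivAt).deriv

theorem bt1_subst (k : Gc) (F : ℝ → ℝ) :
    ∫ x, F ((k : Pm) x) * deriv (fun y => (k : Pm) y) x = ∫ x, F x := by
  have h := integral_image_eq_integral_abs_deriv_smul (s := Set.univ) MeasurableSet.univ
    (f := fun y => (k : Pm) y) (f' := deriv fun y => (k : Pm) y)
    (fun x _ => (bt1_diff k x).hasDerivAt.hasDerivWithinAt)
    (fun x _ y _ hxy => (k : Pm).injective hxy) F
  rw [Set.image_univ_of_surjective (k : Pm).surjective, Measure.restrict_univ] at h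
  rw [h]
  refine integral_congr_ae (Eventually.of_forall fun x => ?_)
  simp only [abs_of_pos (bt1_pos k x), smul_eq_mul, mul_comm]

theorem bt1_int {F : ℝ → ℝ} (hF : Continuous F) (k : Gc) :
    Integrable fun x => F x * deriv (bt1_l k) x :=
  (hF.mul (bt1_l_cont' k)).integrable_of_hasCompactSupport (bt1_l_supp k).deriv.mul_left

theorem bt1_coc (g h k : Gc) : bt g h + bt (g * h) k = bt g (h * k) + bt h k := by
  have c1 : Continuous fun x => bt1_l g ((h : Pm) ((k : Pm) x)) :=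
    (bt1_l_cd g).continuous.comp ((bt1_cd h).continuous.comp (bt1_cd k).continuous)
  have c2 : Continuous fun x => bt1_l h ((k : Pm) x) :=
    (bt1_l_cd h).continuous.comp (bt1_cd k).continuous
  have e1 : bt (g * h) k =
      (∫ x, bt1_l g ((h : Pm) ((k : Pm) x)) * deriv (bt1_l k) x) + bt h k := by
    rw [bt1_eq, bt1_eq, ← integral_add (bt1_int c1 k) (bt1_int c2 k), bt1_l_mul]
    simp only [add_mul]
  have e2 : bt g h = bt g (h * k) -
      ∫ x, bt1_l g ((h : Pm) ((k : Pm) x)) * deriv (bt1_l k) x := by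
    rw [bt1_eq, bt1_eq, ← bt1_subst k]
    refine Eq.trans ?_ (integral_sub (bt1_int c1 (h * k)) (bt1_int c1 k))
    refine integral_congr_ae (Eventually.of_forall fun x => ?_)
    simp only [bt1_l_mul', Subgroup.coe_mul, Equiv.Perm.mul_apply]
    ring
  rw [e1, e2]
  ring

theorem bt1_l_one : bt1_l 1 = fun _ => 0 := by
  funext x
  simp [bt1_l]

theorem bt1_one_right (g : Gc) : bt g 1 = 0 := by
  simp [bt1_eq, bt1_l_one]

theorem bt1_one_left (g : Gc) : bt 1 g = 0 := by
  simp [bt1_eq, bt1_l_one]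

theorem bt1_eq' (g h : Gc) : bt g h = ∫ x : ℝ,
    Real.log (1 + deriv (dp (g : Pm)) ((h : Pm) x)) *
      (deriv (deriv (dp (h : Pm))) x / (1 + deriv (dp (h : Pm)) x)) := by
  simp only [bt, deriv_eq_one_add (Gc.sm g), deriv_eq_one_add (Gc.sm h), deriv_const_add']

theorem bt1_cG_apply {l : ℝ} (hl : 0 < l) (m : ℝ) (g : Gc) (x : ℝ) :
    (cG l m g : Pm) x = l * (g : Pm) ((x - m) / l) + m := by
  rw [coe_cG, Equiv.Perm.mul_apply, Equiv.Perm.mul_apply, aff_apply hl.ne', aff_inv_apply hl.ne']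

theorem bt1_lin (l m x : ℝ) : HasDerivAt (fun y : ℝ => (y - m) / l) (1 / l) x :=
  ((hasDerivAt_id x).sub_const m).div_const l

theorem bt1_l_cG {l : ℝ} (hl : 0 < l) (m : ℝ) (g : Gc) :
    bt1_l (cG l m g) = fun x => bt1_l g ((x - m) / l) := by
  funext x
  have h1 := ((((bt1_diff g ((x - m) / l)).hasDerivAt.comp x (bt1_lin l m x)).const_mul l).add_const
    m).deriv
  simp only [bt1_l, bt1_cG_apply hl]
  congr 1
  refine h1.trans ?_
  field_simp

theorem bt1_cG {l : ℝ} (hl : 0 < l) (m : ℝ) (g h : Gc) : bt (cG l m g) (cG l m h) = bt g h := by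
  have h1 : ∀ x, deriv (fun x => bt1_l h ((x - m) / l)) x =
      deriv (bt1_l h) ((x - m) / l) * (1 / l) := fun x => by
    have h3 := ((bt1_l_diff h ((x - m) / l)).hasDerivAt.comp x (bt1_lin l m x)).deriv
    exact h3
  have h2 : ∀ y : ℝ, (l * y + m - m) / l = y := fun y => by field_simp; ring
  rw [bt1_eq, bt1_eq]
  simp only [bt1_l_cG hl, bt1_cG_apply hl, h1, h2, ← mul_assoc]
  rw [integral_mul_const, integral_sub_right_eq_self
    (fun x => bt1_l g ((h : Pm) (x / l)) * deriv (bt1_l h) (x / l)) m,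
    Measure.integral_comp_div (fun x => bt1_l g ((h : Pm) x) * deriv (bt1_l h) x) l,
    abs_of_pos hl, smul_eq_mul]
  field_simp

end Pool.Agent.P.MP_7bb7e1_gt
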