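import Pool.Agent.P.MP_7bb7e1_gt.Aff
import Pool.Agent.P.MP_7bb7e1_gt.BTAux

/-! The Bott-Thurston cocycle and the Virasoro group. -/

namespace Pool.Agent.P.MP_7bb7e1_gt

open scoped commutatorElement

theorem bt_eq (g h : Gc) : bt g h = ∫ x : ℝ,
    Real.log (1 + deriv (dp (g : Pm)) ((h : Pm) x)) *
      (deriv (deriv (dp (h : Pm))) x / (1 + deriv (dp (h : Pm)) x)) := bt1_eq' g h

/-- With `ℓ g = log g'` one has `ℓ (g h) = ℓ g ∘ h + ℓ h` and `bt g h = ∫ (ℓ g ∘ h) (ℓ h)'`;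
use the change of variables `∫ (F ∘ k) k' = ∫ F` for continuous compactly supported `F`
(for instance `integral_image_eq_integral_abs_deriv_smul`, or a primitive of `F`). -/
theorem bt_coc (g h k : Gc) : bt g h + bt (g * h) k = bt g (h * k) + bt h k :=
  bt1_coc g h k

theorem bt_one_right (g : Gc) : bt g 1 = 0 := bt1_one_right g

theorem bt_one_left (g : Gc) : bt 1 g = 0 := bt1_one_left g

noncomputable def btc : Coc Gc ℝ := ⟨bt, bt_coc, bt_one_left 1⟩

@[simp] theorem btc_c : btc.c = bt := rfl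

/-- the Virasoro-Bott group -/
abbrev Vir := CE btc

/-- the standard lift -/
noncomputable abbrev vl : Gc → Vir := CE.sec btc

theorem bt_cG {l : ℝ} (hl : 0 < l) (m : ℝ) (g h : Gc) : bt (cG l m g) (cG l m h) = bt g h :=
  bt1_cG hl m g h

theorem bt2_log_sub {t : ℝ} (ht : |t| ≤ 1 / 2) : |Real.log (1 + t) - t| ≤ 2 * (|t| * |t|) := by
  obtain ⟨h1, h2⟩ := abs_le.1 ht
  have hp : 0 < 1 + t := by linarith
  have hu : Real.log (1 + t) ≤ t := by
    have := Real.log_le_sub_one_of_pos hp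
    linarith
  have hl : 1 - (1 + t)⁻¹ ≤ Real.log (1 + t) := Real.one_sub_inv_le_log_of_pos hp
  have hi : (1 + t)⁻¹ ≤ 1 - t + 2 * (t * t) := by
    rw [inv_le_iff_one_le_mul₀ hp]
    nlinarith [mul_self_nonneg t]
  rw [abs_mul_abs_self, abs_le]
  constructor <;> nlinarith [mul_self_nonneg t]

theorem bt2_log_le {t : ℝ} (ht : |t| ≤ 1 / 2) : |Real.log (1 + t)| ≤ 2 * |t| := by
  have h1 := bt2_log_sub ht
  have h2 : |Real.log (1 + t)| ≤ |Real.log (1 + t) - t| + |t| := by
    simpa using abs_add_le (Real.log (1 + t) - t) t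
  nlinarith [abs_nonneg t]

theorem bt2_inv_le {s : ℝ} (hs : |s| ≤ 1 / 2) : |(1 + s)⁻¹| ≤ 2 := by
  obtain ⟨h1, h2⟩ := abs_le.1 hs
  have hp : 0 < 1 + s := by linarith
  rw [abs_of_pos (inv_pos.2 hp), inv_le_comm₀ hp (by norm_num)]
  linarith

theorem bt2_dd_le {f : ℝ → ℝ} (hf : Sm f) (x : ℝ) : |deriv (deriv f) x| ≤ sn 2 f := by
  have := abs_deriv_le_sn_one hf.deriv x
  rwa [sn_deriv] at this

theorem bt2_van {h : Gc} {a b : ℝ} (hf : Fix a b (h : Pm)) :
    Van a b (deriv (deriv (dp (h : Pm)))) :=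
  ((fix_iff_van.1 hf).deriv (Gc.sm h).contDiff).deriv (Gc.sm h).deriv.contDiff

theorem bt2_cont (h : Gc) : Continuous fun x => (h : Pm) x := h.2.1.continuous

theorem abs_bt_le {g h : Gc} {a b : ℝ} (hab : a ≤ b) (hf : Fix a b (h : Pm))
    (hg : sn 1 (dp (g : Pm)) ≤ 1 / 2) (hh : sn 1 (dp (h : Pm)) ≤ 1 / 2) :
    |bt g h| ≤ 4 * (b - a) * (sn 1 (dp (g : Pm)) * sn 2 (dp (h : Pm))) := by
  rw [bt_eq]
  have hv : Van a b fun x => Real.log (1 + deriv (dp (g : Pm)) ((h : Pm) x)) *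
      (deriv (deriv (dp (h : Pm))) x / (1 + deriv (dp (h : Pm)) x)) := fun x hx => by
    simp [bt2_van hf x hx]
  refine (abs_integral_le hv hab (A := 4 * (sn 1 (dp (g : Pm)) * sn 2 (dp (h : Pm))))
    fun x => ?_).trans (le_of_eq (by ring))
  have h1 := abs_deriv_le_sn_one (Gc.sm g) ((h : Pm) x)
  have h2 := bt2_log_le (h1.trans hg)
  have h3 := bt2_inv_le ((abs_deriv_le_sn_one (Gc.sm h) x).trans hh)
  have h4 := bt2_dd_le (Gc.sm h) x
  rw [div_eq_mul_inv, abs_mul, abs_mul]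
  calc _ ≤ (2 * sn 1 (dp (g : Pm))) * (sn 2 (dp (h : Pm)) * 2) :=
        mul_le_mul (by linarith) (mul_le_mul h4 h3 (abs_nonneg _) (sn_nonneg _ _))
          (by positivity) (by have := sn_nonneg 1 (dp (g : Pm)); positivity)
    _ = _ := by ring

theorem abs_bt_sub_le {g h : Gc} {a b : ℝ} (hab : a ≤ b) (hf : Fix a b (h : Pm))
    (hg : sn 1 (dp (g : Pm)) ≤ 1 / 2) (hh : sn 1 (dp (h : Pm)) ≤ 1 / 2) :
    |bt g h - ∫ x, deriv (dp (g : Pm)) x * deriv (deriv (dp (h : Pm))) x| ≤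
      8 * (b - a) * ((sn 1 (dp (g : Pm)) * sn 1 (dp (g : Pm)) +
        sn 2 (dp (g : Pm)) * sn 0 (dp (h : Pm)) + sn 1 (dp (g : Pm)) * sn 1 (dp (h : Pm))) *
          sn 2 (dp (h : Pm))) := by
  have sg := Gc.sm g
  have sh := Gc.sm h
  have hv1 : Van a b fun x => Real.log (1 + deriv (dp (g : Pm)) ((h : Pm) x)) *
      (deriv (deriv (dp (h : Pm))) x / (1 + deriv (dp (h : Pm)) x)) := fun x hx => by
    simp [bt2_van hf x hx]
  have hv2 : Van a b fun x => deriv (dp (g : Pm)) x * deriv (deriv (dp (h : Pm))) x :=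
    fun x hx => by simp [bt2_van hf x hx]
  have hc1 : Continuous fun x => Real.log (1 + deriv (dp (g : Pm)) ((h : Pm) x)) *
      (deriv (deriv (dp (h : Pm))) x / (1 + deriv (dp (h : Pm)) x)) := by
    refine Continuous.mul (Continuous.log
      (continuous_const.add (sg.deriv.continuous.comp (bt2_cont h))) fun x => ?_)
      (sh.deriv.deriv.continuous.div (continuous_const.add sh.deriv.continuous) fun x => ?_)
    · have := lower_of_small sg hg ((h : Pm) x)
      linarith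
    · have := lower_of_small sh hh x
      intro h0
      have h0' : 1 + deriv (dp (h : Pm)) x = 0 := h0
      linarith
  have hc2 : Continuous fun x => deriv (dp (g : Pm)) x * deriv (deriv (dp (h : Pm))) x :=
    sg.deriv.continuous.mul sh.deriv.deriv.continuous
  rw [bt_eq, ← MeasureTheory.integral_sub (hv1.integrable hc1) (hv2.integrable hc2)]
  have hv : Van a b fun x => Real.log (1 + deriv (dp (g : Pm)) ((h : Pm) x)) *
      (deriv (deriv (dp (h : Pm))) x / (1 + deriv (dp (h : Pm)) x)) -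
        deriv (dp (g : Pm)) x * deriv (deriv (dp (h : Pm))) x := fun x hx => by
    simp [bt2_van hf x hx]
  refine (abs_integral_le hv hab (A := 8 * ((sn 1 (dp (g : Pm)) * sn 1 (dp (g : Pm)) +
        sn 2 (dp (g : Pm)) * sn 0 (dp (h : Pm)) + sn 1 (dp (g : Pm)) * sn 1 (dp (h : Pm))) *
          sn 2 (dp (h : Pm)))) fun x => ?_).trans (le_of_eq (by ring))
  have h1 := abs_deriv_le_sn_one sg ((h : Pm) x)
  have h2 := bt2_log_sub (h1.trans hg)
  have h5 := abs_deriv_le_sn_one sh x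
  have h3 := bt2_inv_le (h5.trans hh)
  have h4 := bt2_dd_le sh x
  have h6 : |deriv (dp (g : Pm)) ((h : Pm) x) - deriv (dp (g : Pm)) x| ≤
      sn 2 (dp (g : Pm)) * sn 0 (dp (h : Pm)) := by
    have h7 := abs_sub_le_sn sg.deriv ((h : Pm) x) x
    rw [sn_deriv] at h7
    exact h7.trans (mul_le_mul_of_nonneg_left (abs_le_sn_zero sh x) (sn_nonneg _ _))
  have hne : 1 + deriv (dp (h : Pm)) x ≠ 0 := by
    have := lower_of_small sh hh x
    linarith
  have g1 := sn_nonneg 1 (dp (g : Pm))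
  have g2 := sn_nonneg 2 (dp (g : Pm))
  have k0 := sn_nonneg 0 (dp (h : Pm))
  have k1 := sn_nonneg 1 (dp (h : Pm))
  have k2 := sn_nonneg 2 (dp (h : Pm))
  generalize deriv (dp (g : Pm)) ((h : Pm) x) = G at *
  generalize deriv (dp (g : Pm)) x = G0 at *
  generalize deriv (deriv (dp (h : Pm))) x = H at *
  generalize deriv (dp (h : Pm)) x = s at *
  generalize sn 1 (dp (g : Pm)) = A1 at *
  generalize sn 2 (dp (g : Pm)) = A2 at *
  generalize sn 0 (dp (h : Pm)) = B0 at *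
  generalize sn 1 (dp (h : Pm)) = B1 at *
  generalize sn 2 (dp (h : Pm)) = B2 at *
  have e : Real.log (1 + G) * (H / (1 + s)) - G0 * H =
      ((Real.log (1 + G) - G) * (1 + s)⁻¹ + (G - G0) + -(G * s * (1 + s)⁻¹)) * H := by
    field_simp
    ring
  have t1 : |(Real.log (1 + G) - G) * (1 + s)⁻¹| ≤ 4 * (A1 * A1) := by
    rw [abs_mul]
    have : |G| * |G| ≤ A1 * A1 := mul_le_mul h1 h1 (abs_nonneg _) g1
    calc _ ≤ (2 * (A1 * A1)) * 2 := mul_le_mul (by linarith) h3 (abs_nonneg _) (by positivity)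
      _ = _ := by ring
  have t3 : |-(G * s * (1 + s)⁻¹)| ≤ 2 * (A1 * B1) := by
    rw [abs_neg, abs_mul, abs_mul]
    calc _ ≤ (A1 * B1) * 2 :=
          mul_le_mul (mul_le_mul h1 h5 (abs_nonneg _) g1) h3 (abs_nonneg _) (by positivity)
      _ = _ := by ring
  have t4 := abs_add_three ((Real.log (1 + G) - G) * (1 + s)⁻¹) (G - G0) (-(G * s * (1 + s)⁻¹))
  rw [e, abs_mul]
  have p1 : 0 ≤ A1 * A1 := by positivity
  have p2 : 0 ≤ A2 * B0 := by positivity
  have p3 : 0 ≤ A1 * B1 := by positivity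
  calc _ ≤ (8 * (A1 * A1 + A2 * B0 + A1 * B1)) * B2 :=
        mul_le_mul (by linarith) h4 (abs_nonneg _) (by positivity)
    _ = _ := by ring

/-- the Gelfand-Fuks form is skew: the sum is the integral of the derivative of `g' h'` -/
theorem gf_skew (g h : Gc) : ∫ x, deriv (dp (h : Pm)) x * deriv (deriv (dp (g : Pm))) x =
    -∫ x, deriv (dp (g : Pm)) x * deriv (deriv (dp (h : Pm))) x := by
  have sg := Gc.sm g
  have sh := Gc.sm h
  obtain ⟨M, -, hM⟩ := Gc.fix h
  have v1 : Van (-M) M (deriv (dp (h : Pm))) := (fix_iff_van.1 hM).deriv sh.contDiff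
  have hv : Van (-M) M fun x => deriv (dp (g : Pm)) x * deriv (dp (h : Pm)) x :=
    fun x hx => by simp [v1 x hx]
  have h0 := integral_deriv_eq_zero hv (sg.deriv.mul sh.deriv).contDiff
  have hd : ∀ x, deriv (fun x => deriv (dp (g : Pm)) x * deriv (dp (h : Pm)) x) x =
      deriv (dp (h : Pm)) x * deriv (deriv (dp (g : Pm))) x +
        deriv (dp (g : Pm)) x * deriv (deriv (dp (h : Pm))) x := fun x => by
    rw [deriv_fun_mul (sg.deriv.differentiable x) (sh.deriv.differentiable x)]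
    ring
  have hv1 : Van (-M) M fun x => deriv (dp (h : Pm)) x * deriv (deriv (dp (g : Pm))) x :=
    fun x hx => by simp [v1 x hx]
  have hv2 : Van (-M) M fun x => deriv (dp (g : Pm)) x * deriv (deriv (dp (h : Pm))) x :=
    fun x hx => by simp [bt2_van hM x hx]
  simp_rw [hd] at h0
  rw [MeasureTheory.integral_add
    (hv1.integrable (sh.deriv.continuous.mul sg.deriv.deriv.continuous))
    (hv2.integrable (sg.deriv.continuous.mul sh.deriv.deriv.continuous))] at h0
  linarith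

/-- affine conjugation on the Virasoro group -/
noncomputable def cV {l : ℝ} (hl : 0 < l) (m : ℝ) : Vir →* Vir where
  toFun v := ⟨cG l m v.g, v.a⟩
  map_one' := by ext1 <;> simp
  map_mul' v w := by ext1 <;> simp [bt_cG hl]

theorem cV_g {l : ℝ} (hl : 0 < l) (m : ℝ) (v : Vir) : (cV hl m v).g = cG l m v.g := rfl

theorem cV_a {l : ℝ} (hl : 0 < l) (m : ℝ) (v : Vir) : (cV hl m v).a = v.a := rfl

theorem cV_PhiL {l : ℝ} (hl : 0 < l) (m : ℝ) (x : List (Gc × Gc)) :
    cV hl m (PhiL vl x) = PhiL vl (x.map (Prod.map (cG l m) (cG l m))) := by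
  simp only [PhiL, map_Phi, List.map_map]
  rfl

theorem comm_a (v w : Vir) :
    (⁅v, w⁆ : Vir).a = bt v.g w.g - bt w.g v.g - bt ⁅v.g, w.g⁆ (w.g * v.g) := by
  have h1 : (⁅v, w⁆ : Vir) * (w * v) = v * w := by
    simp only [commutatorElement_def]
    group
  have h2 : (⁅v, w⁆ : Vir).g = ⁅v.g, w.g⁆ := map_commutatorElement (CE.pr btc) v w
  have h3 := congrArg CE.a h1
  simp only [CE.mul_a, CE.mul_g, btc_c, h2] at h3
  linarith

section

variable {Γ A : Type*} [Group Γ] [AddCommGroup A] {c : Coc Γ A}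

theorem Phi_eq_PhiL (x : List (CE c × CE c)) :
    Phi x = PhiL (CE.sec c) (x.map (Prod.map CE.g CE.g)) := by
  refine Phi_congr_of_ker (CE.pr c) CE.central ?_
  simp only [List.map_map]
  rfl

theorem PhiL_g (x : List (Γ × Γ)) : (PhiL (CE.sec c) x).g = Phi x := by
  have h := map_Phi (CE.pr c) (x.map (Prod.map (CE.sec c) (CE.sec c)))
  rw [List.map_map] at h
  refine h.trans (congrArg Phi ?_)
  exact List.map_id'' (fun _ => rfl) x

end

section

variable {Γ E : Type*} [Group E]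

theorem PhiL_append (s : Γ → E) (x y : List (Γ × Γ)) :
    PhiL s (x ++ y) = PhiL s x * PhiL s y := by
  induction x with
  | nil => simp [PhiL]
  | cons p x ih =>
    simp only [PhiL, List.cons_append, List.map_cons, Phi_cons] at ih ⊢
    rw [ih, mul_assoc]

theorem PhiL_rev (s : Γ → E) (x : List (Γ × Γ)) :
    PhiL s (x.reverse.map Prod.swap) = (PhiL s x)⁻¹ := by
  rw [PhiL, PhiL, ← Phi_rev, ← List.map_reverse, List.map_map, List.map_map]
  rfl

theorem PhiL_replicate (s : Γ → E) (o : Γ) (n : ℕ) : PhiL s (List.replicate n (o, o)) = 1 := by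
  induction n with
  | zero => simp [PhiL]
  | succ n ih =>
    simp only [PhiL, List.replicate_succ, List.map_cons, Phi_cons] at ih ⊢
    rw [ih]
    simp

theorem map_PhiL [Group Γ] (π : E →* Γ) {s : Γ → E} (hs : ∀ g, π (s g) = g) (x : List (Γ × Γ)) :
    π (PhiL s x) = Phi x := by
  rw [PhiL, map_Phi, List.map_map]
  refine congrArg Phi (List.map_id'' (fun p => ?_) x)
  ext <;> simp [hs]

theorem PhiL_conj [Group Γ] (π : E →* Γ) (hc : ∀ e, π e = 1 → e ∈ Subgroup.center E) {s : Γ → E}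
    (hs : ∀ g, π (s g) = g) (k : Γ) (x : List (Γ × Γ)) :
    PhiL s (x.map (Prod.map (fun g => k * g * k⁻¹) fun g => k * g * k⁻¹)) =
      s k * PhiL s x * (s k)⁻¹ := by
  have h := map_Phi (MulAut.conj (s k)).toMonoidHom (x.map (Prod.map s s))
  refine Eq.trans ?_ h.symm
  refine Phi_congr_of_ker π hc ?_
  simp only [List.map_map]
  refine List.map_congr_left fun p _ => ?_
  ext <;> simp [hs]

end

end Pool.Agent.P.MP_7bb7e1_gt
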