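import Pool.Agent.P.MP_7bb7e1_gt.Inv

/-! Infinite products of diffeomorphisms with disjoint supports. -/

namespace Pool.Agent.P.MP_7bb7e1_gt

open Set
open scoped commutatorElement

variable {N : Type*} {a b : N → ℝ} {u v : N → Pm} {g h : Pm}

/-- `g` is the product of the `u w` -/
def IsDP (u : N → Pm) (g : Pm) : Prop :=
  (∀ w x, u w x ≠ x → g x = u w x) ∧ ∀ x, (∀ w, u w x = x) → g x = x

/-- pairwise disjoint closed intervals -/
def Sep (a b : N → ℝ) : Prop :=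
  Pairwise fun w w' => Disjoint (Icc (a w) (b w)) (Icc (a w') (b w'))

theorem disj_off {a b : ℝ} {e : Pm} (h : Fix a b e) {x : ℝ} (hx : x ∉ Icc a b) : e x = x := by
  refine h x ?_
  by_contra hc
  push Not at hc
  exact hx ⟨hc.1.le, hc.2.le⟩

theorem Fix.mapsTo {a b : ℝ} {e : Pm} (h : Fix a b e) : MapsTo e (Icc a b) (Icc a b) := by
  intro x hx
  by_contra hc
  have := e.injective (disj_off h hc)
  exact hc (this.symm ▸ hx)

theorem IsDP.unique (hg : IsDP u g) (hh : IsDP u h) : g = h := by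
  ext x
  by_cases hx : ∀ w, u w x = x
  · rw [hg.2 x hx, hh.2 x hx]
  · push Not at hx
    obtain ⟨w, hw⟩ := hx
    rw [hg.1 w x hw, hh.1 w x hw]

theorem IsDP.eq_on (hs : Sep a b) (hu : ∀ w, Fix (a w) (b w) (u w)) (hg : IsDP u g) (w : N)
    {x : ℝ} (hx : x ∈ Icc (a w) (b w)) : g x = u w x := by
  by_cases h1 : u w x = x
  · rw [h1]
    refine hg.2 x fun w' => ?_
    by_cases hw : w = w'
    · rw [← hw, h1]
    · exact disj_off (hu w') (Set.disjoint_left.1 (hs hw) hx)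
  · exact hg.1 w x h1

theorem IsDP.eq_off (hu : ∀ w, Fix (a w) (b w) (u w)) (hg : IsDP u g)
    {x : ℝ} (hx : ∀ w, x ∉ Icc (a w) (b w)) : g x = x :=
  hg.2 x fun w => disj_off (hu w) (hx w)

theorem isDP_of_eq (hu : ∀ w, Fix (a w) (b w) (u w))
    (h1 : ∀ w, ∀ x ∈ Icc (a w) (b w), g x = u w x)
    (h2 : ∀ x, (∀ w, x ∉ Icc (a w) (b w)) → g x = x) : IsDP u g := by
  refine ⟨fun w x hx => h1 w x ?_, fun x hx => ?_⟩
  · by_contra hc
    exact hx (disj_off (hu w) hc)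
  · by_cases hc : ∀ w, x ∉ Icc (a w) (b w)
    · exact h2 x hc
    · push Not at hc
      obtain ⟨w, hw⟩ := hc
      rw [h1 w x hw, hx w]

theorem isDP_one : IsDP (fun _ : N => (1 : Pm)) 1 :=
  ⟨fun _ _ _ => rfl, fun _ _ => rfl⟩

theorem IsDP.mul (hs : Sep a b) (hu : ∀ w, Fix (a w) (b w) (u w))
    (hv : ∀ w, Fix (a w) (b w) (v w)) (hg : IsDP u g) (hh : IsDP v h) :
    IsDP (fun w => u w * v w) (g * h) := by
  refine isDP_of_eq (a := a) (b := b)
    (fun w => (FixS (a w) (b w)).mul_mem (hu w) (hv w)) (fun w x hx => ?_) (fun x hx => ?_)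
  · rw [Equiv.Perm.mul_apply, Equiv.Perm.mul_apply, hh.eq_on hs hv w hx,
      hg.eq_on hs hu w ((hv w).mapsTo hx)]
  · rw [Equiv.Perm.mul_apply, hh.eq_off hv hx, hg.eq_off hu hx]

theorem IsDP.inv (hs : Sep a b) (hu : ∀ w, Fix (a w) (b w) (u w)) (hg : IsDP u g) :
    IsDP (fun w => (u w)⁻¹) g⁻¹ := by
  have hu' : ∀ w, Fix (a w) (b w) (u w)⁻¹ := fun w => (FixS (a w) (b w)).inv_mem (hu w)
  refine isDP_of_eq (a := a) (b := b) hu' (fun w x hx => ?_) (fun x hx => ?_)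
  · rw [Equiv.Perm.inv_eq_iff_eq, hg.eq_on hs hu w ((hu' w).mapsTo hx)]
    simp
  · rw [Equiv.Perm.inv_eq_iff_eq, hg.eq_off hu hx]

theorem IsDP.conj (hg : IsDP u g) (φ : Pm) :
    IsDP (fun w => φ * u w * φ⁻¹) (φ * g * φ⁻¹) := by
  refine ⟨fun w x hx => ?_, fun x hx => ?_⟩
  · simp only [Equiv.Perm.mul_apply] at hx ⊢
    rw [hg.1 w (φ⁻¹ x)]
    intro hc
    apply hx
    rw [hc]
    simp
  · simp only [Equiv.Perm.mul_apply] at hx ⊢
    rw [hg.2 (φ⁻¹ x)]
    · simp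
    · intro w
      apply φ.injective
      rw [hx w]
      simp

theorem IsDP.fix {α β : ℝ} (hu : ∀ w, Fix α β (u w)) (hg : IsDP u g) : Fix α β g :=
  fun x hx => hg.2 x fun w => hu w x hx

theorem disj_phi_fix {α β : ℝ} {n : ℕ} (y : Fin n → Gc × Gc)
    (hy : ∀ k, Fix α β ((y k).1 : Pm) ∧ Fix α β ((y k).2 : Pm)) :
    Fix α β ((Phi (List.ofFn y) : Gc) : Pm) := by
  have h : Phi (List.ofFn y) ∈ ⁅GI α β, GI α β⁆ := by
    refine Phi_mem fun p hp => ?_
    obtain ⟨k, rfl⟩ := List.mem_ofFn.1 hp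
    exact hy k
  refine mem_GI.1 (Subgroup.commutator_le.2 (fun g hg k hk => ?_) h)
  rw [commutatorElement_def]
  exact mul_mem (mul_mem (mul_mem hg hk) (inv_mem hg)) (inv_mem hk)

theorem IsDP.phi (hs : Sep a b) {n : ℕ} (x : N → Fin n → Gc × Gc) (X : Fin n → Gc × Gc)
    (hx : ∀ w k, Fix (a w) (b w) ((x w k).1 : Pm) ∧ Fix (a w) (b w) ((x w k).2 : Pm))
    (hX : ∀ k, IsDP (fun w => ((x w k).1 : Pm)) (X k).1 ∧
      IsDP (fun w => ((x w k).2 : Pm)) (X k).2) :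
    IsDP (fun w => ((Phi (List.ofFn (x w)) : Gc) : Pm)) ((Phi (List.ofFn X) : Gc) : Pm) := by
  induction n with
  | zero => simpa using isDP_one
  | succ n ih =>
    have ih' := ih (fun w k => x w k.succ) (fun k => X k.succ) (fun w k => hx w k.succ)
      (fun k => hX k.succ)
    have f1 : ∀ w, Fix (a w) (b w) ((x w 0).1 : Pm) := fun w => (hx w 0).1
    have f2 : ∀ w, Fix (a w) (b w) ((x w 0).2 : Pm) := fun w => (hx w 0).2
    have i1 : ∀ w, Fix (a w) (b w) ((x w 0).1 : Pm)⁻¹ :=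
      fun w => (FixS (a w) (b w)).inv_mem (f1 w)
    have i2 : ∀ w, Fix (a w) (b w) ((x w 0).2 : Pm)⁻¹ :=
      fun w => (FixS (a w) (b w)).inv_mem (f2 w)
    have m1 : ∀ w, Fix (a w) (b w) (((x w 0).1 : Pm) * (x w 0).2) :=
      fun w => (FixS (a w) (b w)).mul_mem (f1 w) (f2 w)
    have m2 : ∀ w, Fix (a w) (b w) (((x w 0).1 : Pm) * (x w 0).2 * ((x w 0).1 : Pm)⁻¹) :=
      fun w => (FixS (a w) (b w)).mul_mem (m1 w) (i1 w)
    have m3 : ∀ w, Fix (a w) (b w)
        (((x w 0).1 : Pm) * (x w 0).2 * ((x w 0).1 : Pm)⁻¹ * ((x w 0).2 : Pm)⁻¹) :=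
      fun w => (FixS (a w) (b w)).mul_mem (m2 w) (i2 w)
    have d1 := IsDP.mul hs f1 f2 (hX 0).1 (hX 0).2
    have d2 := IsDP.mul hs m1 i1 d1 ((hX 0).1.inv hs f1)
    have d3 := IsDP.mul hs m2 i2 d2 ((hX 0).2.inv hs f2)
    have d4 := IsDP.mul hs m3
      (fun w => disj_phi_fix (fun k => x w k.succ) (fun k => hx w k.succ)) d3 ih'
    simpa only [List.ofFn_succ, Phi_cons, commutatorElement_def, Subgroup.coe_mul,
      Subgroup.coe_inv] using d4

theorem disj_summable {f : N → ℝ → ℝ} (hf : ∀ w, Sm (f w)) (r : ℕ)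
    (hsum : Summable fun w => sn r (f w)) (x : ℝ) :
    Summable fun w => iteratedDeriv r (f w) x :=
  Summable.of_norm_bounded hsum fun w => le_sn (hf w) r x

theorem disj_iter {f : N → ℝ → ℝ} (hf : ∀ w, Sm (f w))
    (hsum : ∀ r, Summable fun w => sn r (f w)) (r : ℕ) :
    iteratedDeriv r (fun x => ∑' w, f w x) = fun x => ∑' w, iteratedDeriv r (f w) x := by
  induction r with
  | zero => simp
  | succ r ih =>
    rw [iteratedDeriv_succ, ih,
      deriv_tsum (u := fun w => sn (r + 1) (f w)) (y₀ := 0) (hsum (r + 1))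
        (fun w => ((hf w).iteratedDeriv r).differentiable)
        (fun w y => by rw [← iteratedDeriv_succ]; exact le_sn (hf w) (r + 1) y)
        (disj_summable hf r (hsum r) 0)]
    simp only [iteratedDeriv_succ]

theorem disj_tsum_on (hs : Sep a b) {f : N → ℝ → ℝ} (hv : ∀ w, Van (a w) (b w) (f w)) (w : N)
    {x : ℝ} (hx : x ∈ Icc (a w) (b w)) : ∑' w', f w' x = f w x := by
  refine tsum_eq_single w fun w' hw => hv w' x ?_
  by_contra hc
  push Not at hc
  exact Set.disjoint_left.1 (hs hw) ⟨hc.1.le, hc.2.le⟩ hx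

theorem disj_tsum_off {f : N → ℝ → ℝ} (hv : ∀ w, Van (a w) (b w) (f w))
    {x : ℝ} (hx : ∀ w, x ∉ Icc (a w) (b w)) : ∑' w', f w' x = 0 := by
  have : ∀ w, f w x = 0 := fun w => hv w x (by
    by_contra hc
    push Not at hc
    exact hx w ⟨hc.1.le, hc.2.le⟩)
  simp [this]

/-- The displacement is `∑' w, dp (u w)`, smooth by `contDiff_tsum`, differentiated term by term
(`iteratedFDeriv_tsum`, `deriv_tsum`); at each point at most one term of the series of
derivatives is nonzero (`Van.deriv`), so `1 + f' > 0` by `Gc.lower`, and `mkG` applies. -/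
theorem exists_DP (u : N → Gc) (hs : Sep a b) (hu : ∀ w, Fix (a w) (b w) (u w : Pm)) {R : ℝ}
    (hR : ∀ w, -R ≤ a w ∧ b w ≤ R) (hsum : ∀ r, Summable fun w => sn r (dp (u w : Pm))) :
    ∃ g : Gc, IsDP (fun w => (u w : Pm)) g ∧
      ∀ r, sn r (dp (g : Pm)) ≤ ∑' w, sn r (dp (u w : Pm)) := by
  have hf : ∀ w, Sm (dp (u w : Pm)) := fun w => Gc.sm (u w)
  have hv : ∀ w, Van (a w) (b w) (dp (u w : Pm)) := fun w => fix_iff_van.1 (hu w)
  have hc : ContDiff ℝ (⊤ : ℕ∞) fun x => ∑' w, dp (u w : Pm) x :=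
    contDiff_tsum (v := fun r w => sn r (dp (u w : Pm))) (fun w => (hf w).1)
      (fun r _ => hsum r) (fun r w x _ => by
        rw [norm_iteratedFDeriv_eq_norm_iteratedDeriv]; exact le_sn (hf w) r x)
  have hV : Van (-R) R fun x => ∑' w, dp (u w : Pm) x := by
    intro x hx
    have : ∀ w, dp (u w : Pm) x = 0 := fun w => (hv w).mono (hR w).1 (hR w).2 x hx
    simp [this]
  have hd : ∀ x, 0 < 1 + deriv (fun x => ∑' w, dp (u w : Pm) x) x := by
    intro x
    have e := congrFun (disj_iter hf hsum 1) x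
    simp only [iteratedDeriv_one] at e
    rw [e]
    have hv' : ∀ w, Van (a w) (b w) (deriv (dp (u w : Pm))) := fun w => (hv w).deriv (hf w).1
    by_cases hx : ∀ w, x ∉ Icc (a w) (b w)
    · rw [disj_tsum_off hv' hx]; norm_num
    · push Not at hx
      obtain ⟨w, hw⟩ := hx
      rw [disj_tsum_on hs hv' w hw]
      obtain ⟨m, hm, h⟩ := Gc.lower (u w)
      exact hm.trans_le (h x)
  obtain ⟨g, hg⟩ := mkG hc hV hd
  refine ⟨g, isDP_of_eq hu (fun w x hx => ?_) (fun x hx => ?_), fun r => ?_⟩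
  · rw [apply_eq_add_dp, hg, apply_eq_add_dp (u w : Pm)]
    beta_reduce
    rw [disj_tsum_on hs hv w hx]
  · rw [apply_eq_add_dp, hg]
    beta_reduce
    rw [disj_tsum_off hv hx, add_zero]
  · rw [hg]
    refine sn_le fun x => ?_
    rw [disj_iter hf hsum r]
    exact tsum_of_norm_bounded (f := fun w => iteratedDeriv r (dp (u w : Pm)) x)
      (hsum r).hasSum fun w => le_sn (hf w) r x

end Pool.Agent.P.MP_7bb7e1_gt
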