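import Pool.Agent.P.MP_7bb7e1_gt.BT
import Pool.Agent.P.MP_7bb7e1_gt.Disj

/-! Additivity of the cocycle for infinite disjoint products. -/

namespace Pool.Agent.P.MP_7bb7e1_gt

variable {a b : ℕ → ℝ}

theorem btsum_anti {i j : ℕ} (h : i < j) : 1 / ((j : ℝ) + 1) ≤ 1 / ((i : ℝ) + 2) := by
  have h1 : (i : ℝ) + 1 ≤ j := by exact_mod_cast h
  exact one_div_le_one_div_of_le (by positivity) (by linarith)

theorem btsum_disj : Pairwise (Function.onFun Disjoint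
    fun j : ℕ => Set.Ioo (1 / ((j : ℝ) + 2)) (1 / ((j : ℝ) + 1))) := by
  intro i j hij
  refine Set.disjoint_left.2 fun x h1 h2 => ?_
  rcases lt_or_gt_of_ne hij with h | h
  · have := btsum_anti h
    linarith [h1.1, h2.2]
  · have := btsum_anti h
    linarith [h1.2, h2.1]

theorem btsum_sub (ha : ∀ j : ℕ, 1 / ((j : ℝ) + 2) < a j) (hb : ∀ j : ℕ, b j < 1 / ((j : ℝ) + 1))
    (j : ℕ) : Set.Icc (a j) (b j) ⊆ Set.Ioo (1 / ((j : ℝ) + 2)) (1 / ((j : ℝ) + 1)) :=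
  Set.Icc_subset_Ioo (ha j) (hb j)

theorem sep_of_harm (ha : ∀ j : ℕ, 1 / ((j : ℝ) + 2) < a j) (hb : ∀ j : ℕ, b j < 1 / ((j : ℝ) + 1)) :
    Sep a b := fun i j hij =>
  Set.disjoint_of_subset (btsum_sub ha hb i) (btsum_sub ha hb j) (btsum_disj hij)

theorem btsum_l {g h : Gc} {O : Set ℝ} (hO : IsOpen O) (e : ∀ y ∈ O, (g : Pm) y = (h : Pm) y)
    {x : ℝ} (hx : x ∈ O) : bt1_l g x = bt1_l h x := by
  have : (fun y => (g : Pm) y) =ᶠ[nhds x] fun y => (h : Pm) y :=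
    Filter.eventually_of_mem (hO.mem_nhds hx) e
  simp only [bt1_l, this.deriv_eq]

theorem btsum_l' {g h : Gc} {O : Set ℝ} (hO : IsOpen O) (e : ∀ y ∈ O, (g : Pm) y = (h : Pm) y)
    {x : ℝ} (hx : x ∈ O) : deriv (bt1_l g) x = deriv (bt1_l h) x :=
  Filter.EventuallyEq.deriv_eq
    (Filter.eventually_of_mem (hO.mem_nhds hx) fun _ hy => btsum_l hO e hy)

theorem btsum_zero {g : Gc} {O : Set ℝ} (hO : IsOpen O) (e : ∀ y ∈ O, (g : Pm) y = y)
    {x : ℝ} (hx : x ∈ O) : deriv (bt1_l g) x = 0 := by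
  rw [btsum_l' (h := 1) hO e hx, bt1_l_one, deriv_const]

theorem btsum_on (ha : ∀ j : ℕ, 1 / ((j : ℝ) + 2) < a j) (hb : ∀ j : ℕ, b j < 1 / ((j : ℝ) + 1))
    {u : ℕ → Pm} {U : Pm} (hu : ∀ j, Fix (a j) (b j) (u j)) (hU : IsDP u U) (j : ℕ) :
    ∀ x ∈ Set.Ioo (1 / ((j : ℝ) + 2)) (1 / ((j : ℝ) + 1)), U x = u j x := by
  intro x hx
  by_cases h : u j x = x
  · rw [h]
    refine hU.2 x fun w => ?_
    by_cases hw : j = w
    · rw [← hw, h]
    · exact disj_off (hu w) fun h2 =>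
        Set.disjoint_left.1 (btsum_disj hw) hx (btsum_sub ha hb w h2)
  · exact hU.1 j x h

theorem btsum_cover {x : ℝ} (h0 : 0 < x) (h1 : x ≤ 1) :
    ∃ j : ℕ, 1 / ((j : ℝ) + 2) < x ∧ x ≤ 1 / ((j : ℝ) + 1) := by
  have h2 : 1 ≤ 1 / x := by rw [le_div_iff₀ h0]; linarith
  obtain ⟨j, hj⟩ : ∃ j, ⌊1 / x⌋₊ = j + 1 :=
    ⟨⌊1 / x⌋₊ - 1, by have := (Nat.one_le_floor_iff _).2 h2; omega⟩
  have h3 := Nat.floor_le (show 0 ≤ 1 / x by positivity)
  have h4 := Nat.lt_floor_add_one (1 / x)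
  rw [hj] at h3 h4
  push_cast at h3 h4
  refine ⟨j, ?_, ?_⟩
  · rw [div_lt_iff₀ h0] at h4
    rw [div_lt_iff₀ (by positivity)]
    linarith
  · rw [le_div_iff₀ h0] at h3
    rw [le_div_iff₀ (by positivity)]
    linarith

/-- On the open interval `(1/(j+2), 1/(j+1))` the maps `U, V` agree with `u j, v j`; off `[0, 1]`
they are locally the identity; the remaining points form a countable set. Use
`MeasureTheory.hasSum_integral_iUnion` and `bt_eq`. -/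
theorem hasSum_bt (ha : ∀ j : ℕ, 1 / ((j : ℝ) + 2) < a j) (hb : ∀ j : ℕ, b j < 1 / ((j : ℝ) + 1))
    (u v : ℕ → Gc) (U V : Gc) (hu : ∀ j, Fix (a j) (b j) (u j : Pm))
    (hv : ∀ j, Fix (a j) (b j) (v j : Pm)) (hU : IsDP (fun j => (u j : Pm)) U)
    (hV : IsDP (fun j => (v j : Pm)) V) : HasSum (fun j => bt (u j) (v j)) (bt U V) := by
  have hi : MeasureTheory.Integrable fun x => bt1_l U ((V : Pm) x) * deriv (bt1_l V) x :=
    bt1_int ((bt1_l_cd U).continuous.comp (bt2_cont V)) V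
  have h1 := MeasureTheory.hasSum_integral_iUnion (fun j : ℕ => measurableSet_Ioo) btsum_disj
    hi.integrableOn
  have hc : ({0} ∪ Set.range fun j : ℕ => 1 / ((j : ℝ) + 1) : Set ℝ).Countable :=
    (Set.countable_singleton _).union (Set.countable_range _)
  have hF : Fix 0 1 (V : Pm) := by
    refine hV.fix fun j => (hv j).mono ?_ ?_
    · exact le_trans (by positivity) (ha j).le
    · refine (hb j).le.trans ?_
      rw [div_le_one (by positivity)]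
      have : (0 : ℝ) ≤ j := Nat.cast_nonneg j
      linarith
  rw [MeasureTheory.setIntegral_eq_integral_of_ae_compl_eq_zero, ← bt1_eq] at h1
  · refine h1.congr_fun fun j => ?_
    rw [bt1_eq, ← MeasureTheory.setIntegral_eq_integral_of_forall_compl_eq_zero
      (s := Set.Ioo (1 / ((j : ℝ) + 2)) (1 / ((j : ℝ) + 1)))]
    · refine MeasureTheory.setIntegral_congr_fun measurableSet_Ioo fun x hx => ?_
      have e1 := btsum_on ha hb hu hU j
      have e2 := btsum_on ha hb hv hV j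
      have e3 : (v j : Pm) x ∈ Set.Ioo (1 / ((j : ℝ) + 2)) (1 / ((j : ℝ) + 1)) := by
        by_cases h : x ∈ Set.Icc (a j) (b j)
        · exact btsum_sub ha hb j ((hv j).mapsTo h)
        · rw [disj_off (hv j) h]; exact hx
      rw [btsum_l' isOpen_Ioo e2 hx, e2 x hx, btsum_l isOpen_Ioo e1 e3]
    · intro x hx
      rw [btsum_zero isClosed_Icc.isOpen_compl (fun y hy => disj_off (hv j) hy)
        fun h => hx (btsum_sub ha hb j h), mul_zero]
  · filter_upwards [hc.ae_notMem MeasureTheory.volume] with x hx hx'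
    have : x ∉ Set.Icc (0 : ℝ) 1 := by
      intro h
      have h0 : 0 < x := lt_of_le_of_ne h.1 fun e => hx (Or.inl e.symm)
      obtain ⟨j, j1, j2⟩ := btsum_cover h0 h.2
      exact hx' (Set.mem_iUnion.2 ⟨j, j1, lt_of_le_of_ne j2 fun e => hx (Or.inr ⟨j, e.symm⟩)⟩)
    rw [btsum_zero isClosed_Icc.isOpen_compl (fun y hy => disj_off hF hy) this, mul_zero]

/-- supports, disjoint product and sum of the central parts -/
def BtsumRel (a b : ℕ → ℝ) (v : ℕ → Vir) (V : Vir) : Prop :=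
  (∀ j, Fix (a j) (b j) ((v j).g : Pm)) ∧ IsDP (fun j => ((v j).g : Pm)) V.g ∧
    HasSum (fun j => (v j).a) V.a

theorem btsum_mul (ha : ∀ j : ℕ, 1 / ((j : ℝ) + 2) < a j) (hb : ∀ j : ℕ, b j < 1 / ((j : ℝ) + 1))
    {v w : ℕ → Vir} {V W : Vir} (h1 : BtsumRel a b v V) (h2 : BtsumRel a b w W) :
    BtsumRel a b (fun j => v j * w j) (V * W) :=
  ⟨fun j => (FixS (a j) (b j)).mul_mem (h1.1 j) (h2.1 j),
    IsDP.mul (sep_of_harm ha hb) h1.1 h2.1 h1.2.1 h2.2.1,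
    (h1.2.2.add h2.2.2).add (hasSum_bt ha hb _ _ _ _ h1.1 h2.1 h1.2.1 h2.2.1)⟩

theorem btsum_inv (ha : ∀ j : ℕ, 1 / ((j : ℝ) + 2) < a j) (hb : ∀ j : ℕ, b j < 1 / ((j : ℝ) + 1))
    {v : ℕ → Vir} {V : Vir} (h1 : BtsumRel a b v V) : BtsumRel a b (fun j => (v j)⁻¹) V⁻¹ :=
  ⟨fun j => (FixS (a j) (b j)).inv_mem (h1.1 j), IsDP.inv (sep_of_harm ha hb) h1.1 h1.2.1,
    h1.2.2.neg.sub (hasSum_bt ha hb (fun j => (v j).g) (fun j => (v j).g⁻¹) V.g V.g⁻¹ h1.1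
      (fun j => (FixS (a j) (b j)).inv_mem (h1.1 j)) h1.2.1
      (IsDP.inv (sep_of_harm ha hb) h1.1 h1.2.1))⟩

theorem btsum_phi (ha : ∀ j : ℕ, 1 / ((j : ℝ) + 2) < a j)
    (hb : ∀ j : ℕ, b j < 1 / ((j : ℝ) + 1)) {n : ℕ} (x : ℕ → Fin n → Gc × Gc)
    (X : Fin n → Gc × Gc)
    (hx : ∀ j k, Fix (a j) (b j) ((x j k).1 : Pm) ∧ Fix (a j) (b j) ((x j k).2 : Pm))
    (hX : ∀ k, IsDP (fun j => ((x j k).1 : Pm)) (X k).1 ∧
      IsDP (fun j => ((x j k).2 : Pm)) (X k).2) :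
    BtsumRel a b (fun j => PhiL vl (List.ofFn (x j))) (PhiL vl (List.ofFn X)) := by
  induction n with
  | zero =>
    simp only [List.ofFn_zero, PhiL, List.map_nil, Phi_nil]
    exact ⟨fun j => (FixS (a j) (b j)).one_mem, isDP_one, hasSum_zero⟩
  | succ n ih =>
    have ih' := ih (fun j k => x j k.succ) (fun k => X k.succ) (fun j k => hx j k.succ)
      (fun k => hX k.succ)
    have r1 : BtsumRel a b (fun j => vl (x j 0).1) (vl (X 0).1) :=
      ⟨fun j => (hx j 0).1, (hX 0).1, hasSum_zero⟩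
    have r2 : BtsumRel a b (fun j => vl (x j 0).2) (vl (X 0).2) :=
      ⟨fun j => (hx j 0).2, (hX 0).2, hasSum_zero⟩
    have r3 := btsum_mul ha hb (btsum_mul ha hb (btsum_mul ha hb (btsum_mul ha hb r1 r2)
      (btsum_inv ha hb r1)) (btsum_inv ha hb r2)) ih'
    simpa only [PhiL, List.ofFn_succ, List.map_cons, Phi_cons, commutatorElement_def,
      Prod.map_fst, Prod.map_snd] using r3

/-- the relation between `v : ℕ → Vir` and `V : Vir` given by supports, `IsDP` and `HasSum` of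
the central parts is stable under products and inverses -/
theorem hasSum_PhiL (ha : ∀ j : ℕ, 1 / ((j : ℝ) + 2) < a j)
    (hb : ∀ j : ℕ, b j < 1 / ((j : ℝ) + 1)) {n : ℕ} (x : ℕ → Fin n → Gc × Gc)
    (X : Fin n → Gc × Gc)
    (hx : ∀ j k, Fix (a j) (b j) ((x j k).1 : Pm) ∧ Fix (a j) (b j) ((x j k).2 : Pm))
    (hX : ∀ k, IsDP (fun j => ((x j k).1 : Pm)) (X k).1 ∧
      IsDP (fun j => ((x j k).2 : Pm)) (X k).2) :
    HasSum (fun j => (PhiL vl (List.ofFn (x j))).a) (PhiL vl (List.ofFn X)).a :=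
  (btsum_phi ha hb x X hx hX).2.2

end Pool.Agent.P.MP_7bb7e1_gt
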