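import Pool.Agent.P.MP_7bb7e1_gt.VS

/-! Short products of commutators and the local sections. -/

namespace Pool.Agent.P.MP_7bb7e1_gt

open Filter
open scoped commutatorElement

namespace Scale

namespace Ext

variable {S : Scale} {E : Type*} [Group E] (X : S.Ext E)

/-- a product of at most `n₀` commutators of elements of order seven near `c` -/
def Base1Rep (n₀ : ℕ) (c : ℝ) (s : E) : Prop := ∃ x : List (E × E), x.length ≤ n₀ ∧
  (∀ p ∈ x, p.1 ∈ X.EE 7 (c - 1 / 4) (c + 1 / 4) ∧ p.2 ∈ X.EE 7 (c - 1 / 4) (c + 1 / 4)) ∧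
    Phi x = s

variable {X} {n₀ : ℕ} {c : ℝ} {s : E}

theorem base1_one : X.Base1Rep n₀ c 1 := ⟨[], Nat.zero_le _, by simp, rfl⟩

theorem base1_inv (h : X.Base1Rep n₀ c s) : X.Base1Rep n₀ c s⁻¹ := by
  obtain ⟨x, h1, h2, rfl⟩ := h
  refine ⟨x.reverse.map Prod.swap, by simpa using h1, fun p hp => ?_, Phi_rev x⟩
  obtain ⟨p', hp', rfl⟩ := List.mem_map.1 hp
  exact (h2 p' (List.mem_reverse.1 hp')).symm

theorem base1_conj {a b : ℝ} {w : E} (hw : w ∈ X.EE 1 a b) (h : X.Base1Rep n₀ c s) :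
    X.Base1Rep n₀ c (w * s * w⁻¹) := by
  obtain ⟨x, h1, h2, rfl⟩ := h
  refine ⟨x.map (Prod.map (MulAut.conj w).toMonoidHom (MulAut.conj w).toMonoidHom),
    by simpa using h1, fun p hp => ?_, (map_Phi (MulAut.conj w).toMonoidHom x).symm⟩
  obtain ⟨p', hp', rfl⟩ := List.mem_map.1 hp
  exact ⟨conj_EE hw (h2 p' hp').1, conj_EE hw (h2 p' hp').2⟩

theorem base1_ex (h : VSpt n₀) {e : E} (he : e ∈ X.EV 21 (c - 1 / 16) (c + 1 / 16)) :
    ∃ s, X.Base1Rep n₀ c s ∧ X.q s = X.q e := by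
  obtain ⟨v, hv, hq⟩ := mem_EV.1 he
  obtain ⟨x, hx, hx'⟩ := Scale.vs_unif h (l := 1 / 16) (by norm_num) c hv
  have e1 : c - 4 * (1 / 16) = c - 1 / 4 := by ring
  have e2 : c + 4 * (1 / 16) = c + 1 / 4 := by ring
  rw [e1, e2] at hx
  choose f hf hf' using fun k => exists_lift (X := X) (hx k).1
  choose g hg hg' using fun k => exists_lift (X := X) (hx k).2
  refine ⟨_, ⟨List.ofFn fun k => (f k, g k), by simp, fun p hp => ?_, rfl⟩, ?_⟩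
  · obtain ⟨k, rfl⟩ := List.mem_ofFn.1 hp
    exact ⟨hf k, hg k⟩
  · rw [hq, ← gm_eq.2 hx', map_Phi, map_Phi, List.map_ofFn, List.map_ofFn]
    congr 2
    funext k
    exact Prod.ext (hf' k) (hg' k)

theorem base1_uniq (H : X.HH (3 * n₀)) {c' : ℝ} (hc : |c - c'| ≤ 1 / 16) {s₁ s₂ s₃ : E}
    (h₁ : X.Base1Rep n₀ c s₁) (h₂ : X.Base1Rep n₀ c s₂) (h₃ : X.Base1Rep n₀ c' s₃)
    (hq : X.q (s₁ * s₂) = X.q s₃) : s₁ * s₂ = s₃ := by
  obtain ⟨x, hx1, hx2, rfl⟩ := h₁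
  obtain ⟨y, hy1, hy2, rfl⟩ := h₂
  obtain ⟨z, hz1, hz2, hz⟩ := base1_inv h₃
  obtain ⟨k1, k2⟩ := abs_le.1 hc
  have m1 : X.EE 7 (c - 1 / 4) (c + 1 / 4) ≤ X.EE 7 (c - 1 / 2) (c + 1 / 2) :=
    EE_mono le_rfl (by linarith) (by linarith)
  have m2 : X.EE 7 (c' - 1 / 4) (c' + 1 / 4) ≤ X.EE 7 (c - 1 / 2) (c + 1 / 2) :=
    EE_mono le_rfl (by linarith) (by linarith)
  have := H c (x ++ y ++ z) (by simp only [List.length_append]; omega) (fun p hp => by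
    rcases List.mem_append.1 hp with hp | hp
    · rcases List.mem_append.1 hp with hp | hp
      · exact ⟨m1 (hx2 p hp).1, m1 (hx2 p hp).2⟩
      · exact ⟨m1 (hy2 p hp).1, m1 (hy2 p hp).2⟩
    · exact ⟨m2 (hz2 p hp).1, m2 (hz2 p hp).2⟩)
    (by rw [Phi_append, Phi_append, hz, map_mul, hq, map_inv, mul_inv_cancel])
  rw [Phi_append, Phi_append, hz] at this
  exact mul_inv_eq_one.1 this

/-- the local section near `c` -/
def base1T (h : VSpt n₀) (H : X.HH (3 * n₀)) (c : ℝ) : Subgroup E where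
  carrier := {s | s ∈ X.EV 21 (c - 1 / 16) (c + 1 / 16) ∧ X.Base1Rep n₀ c s}
  one_mem' := ⟨one_mem _, base1_one⟩
  mul_mem' := fun {s s'} hs hs' => by
    obtain ⟨u, hu, hq⟩ := base1_ex h (mul_mem hs.1 hs'.1)
    refine ⟨mul_mem hs.1 hs'.1, ?_⟩
    rw [base1_uniq H (by simp) hs.2 hs'.2 hu hq.symm]
    exact hu
  inv_mem' := fun hs => ⟨inv_mem hs.1, base1_inv hs.2⟩

theorem base1_loc (h : VSpt n₀) (H : X.HH (3 * n₀)) : ∃ T : ℝ → Subgroup E,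
    (∀ c, -43 ≤ c - 1 / 16 → c + 1 / 16 ≤ 43 → T c ≤ X.EV 21 (c - 1 / 16) (c + 1 / 16) ∧
      (∀ e ∈ X.EV 21 (c - 1 / 16) (c + 1 / 16), ∃ s ∈ T c, X.q s = X.q e) ∧
      (∀ s ∈ T c, X.q s = 1 → s = 1) ∧ ∀ w ∈ X.EE 1 (-43) 43, ∀ s ∈ T c, w * s * w⁻¹ ∈ T c) ∧
      ∀ c c', |c - c'| ≤ 1 / 16 → ∀ s ∈ T c, ∀ s' ∈ T c', X.q s = X.q s' → s = s' := by
  refine ⟨base1T h H, fun c h1 h2 => ⟨fun s hs => hs.1, fun e he => ?_, fun s hs hq => ?_,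
    fun w hw s hs => ⟨conj_EV (by norm_num) h1 h2 hw hs.1, base1_conj hw hs.2⟩⟩,
    fun c c' hc s hs s' hs' hq => ?_⟩
  · obtain ⟨s, hs, hq⟩ := base1_ex h he
    exact ⟨s, ⟨EV_congr he hq.symm, hs⟩, hq⟩
  · have := base1_uniq H (c' := c) (by simp) hs.2 base1_one base1_one (by simpa using hq)
    simpa using this
  · have := base1_uniq H hc hs.2 base1_one hs'.2 (by simpa using hq)
    simpa using this

end Ext

end Scale

end Pool.Agent.P.MP_7bb7e1_gt
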