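import Pool.Agent.P.MP_7bb7e1_gt.WAlg

/-! Application of the algebraic computation to the algebra `W`. -/

namespace Pool.Agent.P.MP_7bb7e1_gt

open Filter

section Alg

variable {W : Type*} [NonUnitalCommRing W] [Module ℝ W] [IsScalarTower ℝ W W]
  [SMulCommClass ℝ W W] {D X : W →ₗ[ℝ] W}

omit [IsScalarTower ℝ W W] [SMulCommClass ℝ W W] in
theorem brW_zero_of_mul (hD : ∀ f h, D (f * h) = D f * h + f * D h) {u h : W} (h1 : u * h = 0)
    (h2 : u * D h = 0) : brW D u h = 0 := by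
  have := hD u h
  rw [h1, h2, map_zero, add_zero] at this
  rw [brW, h2, ← this, sub_zero]

omit [IsScalarTower ℝ W W] [SMulCommClass ℝ W W] in
theorem brW_pow (hD : ∀ f h, D (f * h) = D f * h + f * D h) (hX : ∀ f h, X (f * h) = X f * h)
    (hDX : ∀ f, D (X f) = X (D f) + f) {C h : W} (h1 : C * h = h) (h2 : C * D h = D h) {k : ℕ}
    (hk : k ≤ 3) : brW D ((X ^ k) C) h = Lop D X k h := by
  have h3 : D C * h = 0 := by
    have := hD C h
    rw [h1, h2] at this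
    simpa using this
  interval_cases k <;>
    simp only [brW, Lop, pow_succ, pow_zero, Module.End.mul_apply, Module.End.one_apply, hDX,
      map_add, add_mul, ← hX, h1, h2, h3, map_zero, Nat.reduceSub, Nat.cast_ofNat, Nat.cast_zero,
      Nat.cast_one, Nat.sub_self] <;> module

omit [IsScalarTower ℝ W W] [SMulCommClass ℝ W W] in
theorem brW_pow_pow (hX : ∀ f h, X (f * h) = X f * h) (hDX : ∀ f, D (X f) = X (D f) + f) (C : W)
    {k l : ℕ} (hk : k ≤ 1) (hkl : k ≤ l) (hl : l ≤ 3) :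
    brW D ((X ^ k) C) ((X ^ l) C) = (l - k) • (X ^ (k + l - 1)) (C * C) := by
  have hX' : ∀ f h, f * X h = X (f * h) := fun f h => by rw [mul_comm, ← hX, mul_comm]
  interval_cases k <;> interval_cases l <;>
    simp only [brW, pow_succ, pow_zero, Module.End.mul_apply, Module.End.one_apply, hDX,
      map_add, add_mul, mul_add, ← hX, hX', Nat.reduceSub, Nat.reduceAdd, Nat.sub_self,
      mul_comm (D C) C, Nat.zero_add, Nat.sub_zero, Nat.zero_sub] <;> module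

omit [IsScalarTower ℝ W W] [SMulCommClass ℝ W W] in
theorem two_mul_eq_brW (hX : ∀ f h, X (f * h) = X f * h) (hDX : ∀ f, D (X f) = X (D f) + f)
    (T R : W) : brW D T (X R) - brW D (X T) R = T * R + T * R := by
  have hX' : ∀ f h, f * X h = X (f * h) := fun f h => by rw [mul_comm, ← hX, mul_comm]
  simp only [brW, hDX, add_mul, mul_add, ← hX, hX']
  abel

omit [IsScalarTower ℝ W W] [SMulCommClass ℝ W W] in
theorem pow_mul_left (hX : ∀ f h, X (f * h) = X f * h) (k : ℕ) (f h : W) :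
    (X ^ k) f * h = (X ^ k) (f * h) := by
  induction k with
  | zero => rfl
  | succ k ih => rw [pow_succ', Module.End.mul_apply, Module.End.mul_apply, ← hX, ih]

end Alg

namespace Scale

variable {S : Scale}

/-- Choose bumps `χ₀, χ, χ₂` (equal to one on `[-κ-1/8, κ+1/8]`, `[-κ-3/8, κ+3/8]`,
`[-κ-5/8, κ+5/8]`, vanishing off `[-κ-2/8, κ+2/8]`, `[-κ-4/8, κ+4/8]`, `[-κ-6/8, κ+6/8]`), put
`Λ k m h = Ω m (χ x^k) (inc h)` and `θ = χ₂ - χ₀`. For `h` in the small algebra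
`br (χ x^k) h = Lop k h`. One has `br (χ x^k) (χ x^l) = (l-k) χ x^(k+l-1) + r` with
`r = (l-k) (χ^2 - χ) x^(k+l-1) = -(br (θ x) r - br θ (x r)) / 2`, and the Jacobi rule gives
`Ω (m+m') (br u v) h = 0` when `br u h = br v h = 0`. Then `lie` and `exists_prim_add`. -/
theorem step2 {A : Type*} [AddCommGroup A] {κ : ℝ} (hκ : 0 < κ) {q : ℕ} (hq : 6 ≤ q)
    (Ω : ℕ → S.WA (κ + 3 / 4) →+ S.WA (κ + 3 / 4) →+ A)
    (kill : ∀ l f h, 1 ≤ l → l + 1 ≤ q → S.Od 1 h.1 → Ω l f h = 0)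
    (jac : ∀ l m u v w, 1 ≤ l → 1 ≤ m → l + m + 1 ≤ q →
      Ω (l + m) (brW (S.WD _) u v) w = Ω l u (brW (S.WD _) v w) - Ω m v (brW (S.WD _) u w))
    (hle : κ ≤ κ + 3 / 4) :
    ∃ s φ : S.WA κ →+ A, (∀ F, S.Od 1 F.1 → s F = 0) ∧
      (∀ F, (S.OdS 1 fun i => ∫ x, F.1 i x) → φ F = 0) ∧
      ∀ l, 1 ≤ l → l + 1 ≤ q → ∀ f h, Ω l (Winc hle f) (Winc hle h) =
        s (brW (S.WD κ) f h) + φ (S.WD κ f * S.WD κ (S.WD κ h)) := by
  obtain ⟨χ, hχ, -, hχv, hχ1⟩ := exists_bump (a := -(κ + 1 / 2)) (a' := -(κ + 1 / 4))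
    (b' := κ + 1 / 4) (b := κ + 1 / 2) (by linarith) (by linarith)
  obtain ⟨χ₀, hχ₀, -, hχ₀v, hχ₀1⟩ := exists_bump (a := -(κ + 1 / 4)) (a' := -κ)
    (b' := κ) (b := κ + 1 / 4) (by linarith) (by linarith)
  obtain ⟨χ₂, hχ₂, -, hχ₂v, hχ₂1⟩ := exists_bump (a := -(κ + 3 / 4)) (a' := -(κ + 1 / 2))
    (b' := κ + 1 / 2) (b := κ + 3 / 4) (by linarith) (by linarith)
  let C : S.WA (κ + 3 / 4) := ⟨fun _ => χ, inW_const hχ (hχv.mono (by linarith) (by linarith))⟩
  let T : S.WA (κ + 3 / 4) := ⟨fun _ x => χ₂ x - χ₀ x, inW_const (hχ₂.sub hχ₀) (by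
    intro x hx
    beta_reduce
    rw [hχ₂v x hx, hχ₀v x (hx.imp (fun h => by linarith) fun h => by linarith), sub_zero])⟩
  have hvan : ∀ (h : S.WA κ) i x, ¬(-κ ≤ x ∧ x ≤ κ) → h.1 i x = 0 := by
    intro h i x hx
    refine (h.2.1 i).2 x ?_
    by_contra hc
    push Not at hc
    exact hx ⟨hc.1.le, hc.2.le⟩
  have hC : ∀ h : S.WA κ, C * Winc hle h = Winc hle h := by
    intro h
    refine Subtype.ext (funext fun i => funext fun x => ?_)
    change χ x * h.1 i x = h.1 i x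
    by_cases hx : -κ ≤ x ∧ x ≤ κ
    · rw [hχ1 x (by linarith [hx.1]) (by linarith [hx.2]), one_mul]
    · rw [hvan h i x hx, mul_zero]
  have hT : ∀ h : S.WA κ, T * Winc hle h = 0 := by
    intro h
    refine Subtype.ext (funext fun i => funext fun x => ?_)
    change (χ₂ x - χ₀ x) * h.1 i x = 0
    by_cases hx : -κ ≤ x ∧ x ≤ κ
    · rw [hχ₂1 x (by linarith [hx.1]) (by linarith [hx.2]), hχ₀1 x hx.1 hx.2, sub_self, zero_mul]
    · rw [hvan h i x hx, mul_zero]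
  have hTC : (C * C - C) * T = C * C - C := by
    refine Subtype.ext (funext fun i => funext fun x => ?_)
    change (χ x * χ x - χ x) * (χ₂ x - χ₀ x) = χ x * χ x - χ x
    by_cases hx : -(κ + 1 / 4) ≤ x ∧ x ≤ κ + 1 / 4
    · rw [hχ1 x hx.1 hx.2]; ring
    · by_cases hx' : -(κ + 1 / 2) ≤ x ∧ x ≤ κ + 1 / 2
      · rw [hχ₂1 x hx'.1 hx'.2, hχ₀v x (by
          by_contra hc
          push Not at hc
          exact hx ⟨hc.1.le, hc.2.le⟩)]
        ring
      · rw [hχv x (by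
          by_contra hc
          push Not at hc
          exact hx' ⟨hc.1.le, hc.2.le⟩)]
        ring
  set D := S.WD (κ + 3 / 4) with hDdef
  set X := S.WX (κ + 3 / 4) with hXdef
  have hD : ∀ f h, D (f * h) = D f * h + f * D h := WD_mul
  have hX : ∀ f h, X (f * h) = X f * h := WX_mul
  have hDX : ∀ f, D (X f) = X (D f) + f := WD_WX
  have incD : ∀ h : S.WA κ, D (Winc hle h) = Winc hle (S.WD κ h) := fun _ => rfl
  have incbr : ∀ f h : S.WA κ, brW D (Winc hle f) (Winc hle h) = Winc hle (brW (S.WD κ) f h) :=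
    fun _ _ => rfl
  have incL : ∀ k, k ≤ 3 → ∀ h : S.WA κ,
      brW D ((X ^ k) C) (Winc hle h) = Winc hle (Lop (S.WD κ) (S.WX κ) k h) := by
    intro k hk h
    rw [brW_pow hD hX hDX (hC h) (by rw [incD, hC]) hk]
    refine Subtype.ext (funext fun i => funext fun x => ?_)
    rw [hDdef, hXdef, Lop_val, Winc_val, Winc_val, Lop_val]
  have zbr : ∀ u : S.WA (κ + 3 / 4), (∀ h : S.WA κ, u * Winc hle h = 0) →
      ∀ h : S.WA κ, brW D u (Winc hle h) = 0 :=
    fun u hu h => brW_zero_of_mul hD (hu h) (by rw [incD, hu])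
  have zX : ∀ u : S.WA (κ + 3 / 4), (∀ h : S.WA κ, u * Winc hle h = 0) →
      ∀ h : S.WA κ, X u * Winc hle h = 0 := fun u hu h => by rw [← hX, hu, map_zero]
  have defect : ∀ m m', 1 ≤ m → 1 ≤ m' → m + m' + 1 ≤ q → ∀ (j : ℕ) (h : S.WA κ),
      Ω (m + m') ((X ^ j) (C * C - C)) (Winc hle h) = 0 := by
    intro m m' hm hm' hq' j h
    set R := (1 / 2 : ℝ) • (X ^ j) (C * C - C) with hR
    have hR0 : ∀ h : S.WA κ, R * Winc hle h = 0 := by
      intro h
      rw [hR, smul_mul_assoc, pow_mul_left hX, sub_mul, mul_assoc, hC, hC, sub_self, map_zero,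
        smul_zero]
    have hTR : T * R = R := by
      rw [mul_comm, hR, smul_mul_assoc, pow_mul_left hX, hTC]
    have e : (X ^ j) (C * C - C) = brW D T (X R) - brW D (X T) R := by
      rw [two_mul_eq_brW hX hDX, hTR, hR]
      module
    rw [e, map_sub, AddMonoidHom.sub_apply, jac m m' _ _ _ hm hm' hq', jac m m' _ _ _ hm hm' hq',
      zbr _ (zX _ hR0), zbr _ hT, zbr _ hR0, zbr _ (zX _ hT)]
    simp
  let Ω' : ℕ → S.WA κ →+ S.WA κ →+ A := fun l =>
    ((Ω l).comp (Winc hle)).compl₂ (Winc hle)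
  have Ω'_apply : ∀ l f h, Ω' l f h = Ω l (Winc hle f) (Winc hle h) := fun _ _ _ => rfl
  let Λ : ℕ → ℕ → S.WA κ →+ A := fun k m => (Ω m ((X ^ k) C)).comp (Winc hle)
  have Λ_apply : ∀ k m h, Λ k m h = Ω m ((X ^ k) C) (Winc hle h) := fun _ _ _ => rfl
  obtain ⟨s, φ, hs, hφ, hφD, hΩ⟩ := lie (S.WD κ) (S.WX κ) WD_mul WX_mul WD_WX hq Ω' Λ
    (by
      intro k l m m' hk hkl hl hm hm' hq' h
      have a := jac m m' ((X ^ k) C) ((X ^ l) C) (Winc hle h) hm hm' hq'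
      have b := defect m m' hm hm' hq' (k + l - 1) h
      rw [incL l hl, incL k (by omega), brW_pow_pow hX hDX C hk hkl hl, map_nsmul,
        AddMonoidHom.nsmul_apply] at a
      rw [map_sub, map_sub, AddMonoidHom.sub_apply, sub_eq_zero] at b
      rw [← Nat.cast_sub hkl, Nat.cast_smul_eq_nsmul, map_nsmul, Λ_apply, Λ_apply, Λ_apply, ← a, b])
    (by
      intro k l m hk hl hm hq' f h
      have a := jac m l ((X ^ k) C) (Winc hle f) (Winc hle h) hm hl (by omega)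
      rw [incL k hk, incL k hk, incbr, Nat.add_comm] at a
      rw [Λ_apply, Ω'_apply, Ω'_apply, a, sub_add_cancel])
    (S.W1 κ) (fun f hf => WD_W1 hf) (fun f hf => WX_W1 hf)
    (fun k f hf => kill 1 _ _ le_rfl (by omega) hf)
  refine ⟨s, φ, hs, fun F hF => ?_, hΩ⟩
  obtain ⟨Y, Z, hZ, rfl⟩ := exists_prim_add hκ F hF
  rw [map_add, hφD, hφ Z hZ, add_zero]

end Scale

end Pool.Agent.P.MP_7bb7e1_gt
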