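import Pool.Agent.P.MP_7bb7e1_gt.Step1
import Pool.Agent.P.MP_7bb7e1_gt.Step2

/-! The descent step. -/

namespace Pool.Agent.P.MP_7bb7e1_gt

open Filter
open scoped commutatorElement

namespace Scale

variable {S : Scale}

theorem WA.integrable {κ : ℝ} (F : S.WA κ) (i : S.ι) : MeasureTheory.Integrable (F.1 i) :=
  (F.2.1 i).2.integrable (F.2.1 i).1.continuous

/-- the leading term of a family -/
theorem exists_lead {m : ℕ} {κ : ℝ} {v : S.ι → Vir} (hv : v ∈ S.VG m (-κ) κ) :
    ∃ f : S.WA κ, ∀ᶠ i in S.F, dp ((v i).g : Pm) = fun x => S.ε i ^ m * f.1 i x := by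
  have hB := (mem_VG.1 hv).1
  have h0 : S.Od (0 + m) (dpF (gp v)) := by rw [Nat.zero_add]; exact GB_od hB
  obtain ⟨f, hf, he⟩ := exists_inW (κ := κ) ((GB_tame hB).div_pow m) h0.div_pow (by
    filter_upwards [GF_fix (mem_VG.1 hv)] with i hi x hx
    have : dpF (gp v) i x = 0 := fix_iff_van.1 hi x hx
    simp only [this, zero_div])
  refine ⟨⟨f, hf⟩, ?_⟩
  filter_upwards [he] with i hi
  ext x
  have := (S.pos i).ne'
  simp only [hi, dpF, gp_apply]
  field_simp

/-- the set of elements whose class is computed by the two leading terms -/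
def Lead {E : Type*} [Group E] (X : S.Ext E) (q : ℕ) {A : Type*} [AddCommGroup A]
    (Val : E → A → Prop) (s φ : S.WA q →+ A) (e : E) : Prop :=
  ∃ F F' : S.WA q, ∃ v ∈ S.VF q (-q) q, X.q e = S.gm v ∧
    (S.Od (q + 1) fun i x => dp ((v i).g : Pm) x + S.ε i ^ q * F.1 i x) ∧
    (S.OdS (q + 1) fun i => (v i).a - 2 * (S.ε i ^ q * ∫ x, F'.1 i x)) ∧ Val e (s F + φ F')

section

variable {E : Type*} [Group E] {X : S.Ext E} {q : ℕ} {A : Type*} [AddCommGroup A]
  {Val : E → A → Prop} {s φ : S.WA q →+ A} {e e' : E}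

theorem Lead.mul (hq : 1 ≤ q) (hm : ∀ e a e' a', Val e a → Val e' a' → Val (e * e') (a + a'))
    (h : Lead X q Val s φ e) (h' : Lead X q Val s φ e') : Lead X q Val s φ (e * e') := by
  obtain ⟨F, F', v, hv, hq1, ho, hs, hV⟩ := h
  obtain ⟨G, G', w, hw, hq2, ho', hs', hV'⟩ := h'
  refine ⟨F + G, F' + G', v * w, mul_mem hv hw, by rw [map_mul, map_mul, hq1, hq2], ?_, ?_, ?_⟩
  · have h1 := (L1 (mem_VF.1 hv).1.1 (mem_VF.1 hw).1.1).mono (show q + 1 ≤ q + q by omega)
    refine ((h1.add ho).add ho').congr (Eventually.of_forall fun i => ?_)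
    ext x
    have : (F + G).1 i x = F.1 i x + G.1 i x := rfl
    simp only [gp_apply, Pi.mul_apply, CE.mul_g, Subgroup.coe_mul, this]
    ring
  · have h1 := (bt_od (g := fun i => (v i).g) (h := fun i => (w i).g) (mem_VF.1 hv).1.1
      (mem_VF.1 hw).1).mono (show q + 1 ≤ q + q by omega)
    refine ((h1.add hs).add hs').congr (Eventually.of_forall fun i => ?_)
    have : ∫ x, (F' + G').1 i x = (∫ x, F'.1 i x) + ∫ x, G'.1 i x :=
      MeasureTheory.integral_add (WA.integrable F' i) (WA.integrable G' i)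
    simp only [Pi.mul_apply, CE.mul_a, btc_c, this]
    ring
  · have := hm _ _ _ _ hV hV'
    rwa [show s F + φ F' + (s G + φ G') = s (F + G) + φ (F' + G') by
      rw [map_add, map_add]; abel] at this

theorem Lead.inv (hq : 1 ≤ q) (hi : ∀ e a, Val e a → Val e⁻¹ (-a))
    (h : Lead X q Val s φ e) : Lead X q Val s φ e⁻¹ := by
  obtain ⟨F, F', v, hv, hq1, ho, hs, hV⟩ := h
  refine ⟨-F, -F', v⁻¹, inv_mem hv, by rw [map_inv, map_inv, hq1], ?_, ?_, ?_⟩
  · have h1 := (L1_inv (mem_VF.1 hv).1.1).mono (show q + 1 ≤ q + q by omega)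
    refine (h1.sub ho).congr (Eventually.of_forall fun i => ?_)
    ext x
    have : (-F).1 i x = -F.1 i x := rfl
    simp only [gp_apply, Pi.inv_apply, CE.inv_g, Subgroup.coe_inv, this]
    ring
  · have h1 := (bt_od (g := fun i => (v i).g) (h := fun i => (v i).g⁻¹) (mem_VF.1 hv).1.1
      (mem_VF.1 (inv_mem hv)).1).mono (show q + 1 ≤ q + q by omega)
    refine (hs.neg.sub h1).congr (Eventually.of_forall fun i => ?_)
    have : ∫ x, (-F').1 i x = -∫ x, F'.1 i x := MeasureTheory.integral_neg _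
    simp only [Pi.inv_apply, CE.inv_a, btc_c, this]
    ring
  · have := hi _ _ hV
    rwa [show -(s F + φ F') = s (-F) + φ (-F') by rw [map_neg, map_neg]; abel] at this

theorem lead_of_high {v : S.ι → Vir} (hv : v ∈ S.VF (q + 1) (-q) q) (hq : X.q e = S.gm v)
    (hV : Val e 0) : Lead X q Val s φ e := by
  refine ⟨0, 0, v, VF_mono (Nat.le_succ q) le_rfl le_rfl hv, hq, ?_, ?_, ?_⟩
  · refine (GB_od (mem_VF.1 hv).1.1).congr (Eventually.of_forall fun i => ?_)
    ext x
    simp [dpF]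
  · refine (mem_VF.1 hv).2.congr (Eventually.of_forall fun i => ?_)
    simp
  · simpa using hV

end

/-- The elements `e` for which there are `F F' : S.WA q` and `v ∈ S.VF q (-q) q` with
`X.q e = gm v`, `dp v + ε^q F` of order `q+1`, `v.a - 2 ε^q ∫ F'` of order `q+1` and
`Val e (s F + φ F')` form a subgroup (`L1`, `L1_inv`, `bt_od`) that contains the generators of
`X.NN q (-q) q` (`exists_inW` applied to `dp v / ε^m`, `L2`, `L3`; when `m + n ≥ q + 1` take
`F = F' = 0`). If `X.q e = 1` then `s F = φ F' = 0`. -/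
theorem step {E : Type*} [Group E] (X : S.Ext E) {q : ℕ} (hq : 6 ≤ q) (h : X.PP (q + 1)) :
    X.PP q := by
  obtain ⟨A, iA, Val, Ω, vmul, vinv, v0, vcomm, kill, jac⟩ := step1 X q (by omega)
  have hq0 : (0 : ℝ) < q := by exact_mod_cast (show 0 < q by omega)
  have hle : (q : ℝ) ≤ q + 3 / 4 := by linarith
  have hle' : (q : ℝ) ≤ (q + 1 : ℕ) := by push_cast; linarith
  obtain ⟨s, φ, hs, hφ, hΩ⟩ := step2 hq0 hq Ω kill jac hle
  let H : Subgroup E :=
    { carrier := {e | Lead X q Val s φ e}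
      one_mem' := lead_of_high (one_mem _) (by rw [map_one, map_one]) ((v0 1).2 (one_mem _))
      mul_mem' := fun h h' => Lead.mul (by omega) vmul h h'
      inv_mem' := fun h => Lead.inv (by omega) vinv h }
  have hH : X.NN q (-q) q ≤ H := by
    refine Ext.NN_le fun m n hm hn hmn e he e' he' => ?_
    obtain ⟨v, hv, hq1⟩ := Ext.mem_EE.1 he
    obtain ⟨w, hw, hq2⟩ := Ext.mem_EE.1 he'
    have hq3 : X.q ⁅e, e'⁆ = S.gm ⁅v, w⁆ := by
      rw [map_commutatorElement, map_commutatorElement, hq1, hq2]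
    have hvw := comm_mem_VF hm hn hv hw
    rcases Nat.eq_or_lt_of_le hmn with hmn' | hmn'
    swap
    · exact lead_of_high (VF_mono hmn' le_rfl le_rfl hvw) hq3 ((v0 _).2 (Ext.comm_mem_NN hm hn hmn'
        (Ext.EE_mono le_rfl (neg_le_neg hle') hle' he)
        (Ext.EE_mono le_rfl (neg_le_neg hle') hle' he')))
    obtain ⟨f, hf⟩ := exists_lead hv
    obtain ⟨g, hg⟩ := exists_lead hw
    have r1 : X.Rp (q + 1 : ℕ) m (Winc hle f).1 e :=
      ⟨v, VG_mono le_rfl (neg_le_neg hle') hle' hv, hq1, od_zero.congr (by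
        filter_upwards [hf] with i hi
        ext x
        rw [hi, Winc_val, sub_self])⟩
    have r2 : X.Rp (q + 1 : ℕ) n (Winc hle g).1 e' :=
      ⟨w, VG_mono le_rfl (neg_le_neg hle') hle' hw, hq2, od_zero.congr (by
        filter_upwards [hg] with i hi
        ext x
        rw [hi, Winc_val, sub_self])⟩
    have hp : ∀ i, S.ε i ^ q = S.ε i ^ m * S.ε i ^ n := fun i => by rw [← pow_add, ← hmn']
    have hV := vcomm m n _ _ e e' hm hn hmn'.symm r1 r2
    rw [hΩ m hm (by omega)] at hV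
    refine ⟨_, _, ⁅v, w⁆, VF_mono hmn le_rfl le_rfl hvw, hq3, ?_, ?_, hV⟩
    · have h1 := L2 hm hn (mem_VG.1 hv).1 (mem_VG.1 hw).1
      rw [← hmn'] at h1
      refine h1.congr ?_
      filter_upwards [hf, hg] with i hi hi'
      ext x
      have e0 : ((⁅v, w⁆ i).g : Pm) = ⁅((v i).g : Pm), ((w i).g : Pm)⁆ := rfl
      rw [brW_val, e0, gp_apply, gp_apply, hi, hi', hp]
      simp only [br, deriv_const_mul_field]
      ring
    · have h1 := L3 hm hn hv hw
      rw [← hmn'] at h1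
      refine h1.congr ?_
      filter_upwards [hf, hg] with i hi hi'
      have e0 : ⁅v, w⁆ i = ⁅v i, w i⁆ := rfl
      have e1 : ∀ x, (S.WD q f * S.WD q (S.WD q g)).1 i x =
          deriv (f.1 i) x * deriv (deriv (g.1 i)) x := fun _ => rfl
      rw [e0, hi, hi', ← MeasureTheory.integral_const_mul (S.ε i ^ q)]
      simp only [e1, deriv_const_mul_field, deriv_const_mul_field']
      congr 3
      ext x
      rw [hp]
      ring
  intro e he h1
  obtain ⟨F, F', v, -, hq1, ho, hos, hV⟩ := hH he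
  have hv1 : ∀ᶠ i in S.F, v i = 1 := gm_eq_one.1 (by rw [← hq1, h1])
  have hF : S.Od 1 F.1 := by
    rw [Nat.add_comm] at ho
    refine Od.of_pow_mul (k := q) (ho.congr ?_)
    filter_upwards [hv1] with i hi
    ext x
    simp [hi]
  have hF' : S.OdS 1 fun i => ∫ x, F'.1 i x := by
    rw [Nat.add_comm] at hos
    refine OdS.of_pow_mul (k := q) ((hos.const_mul (-1 / 2)).congr ?_)
    filter_upwards [hv1] with i hi
    rw [hi, CE.one_a]
    ring
  rw [hs F hF, hφ F' hF', add_zero] at hV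
  exact h e ((v0 e).1 hV) h1

end Scale

end Pool.Agent.P.MP_7bb7e1_gt
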