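import Pool.Agent.P.MP_7bb7e1_gt.VS
import Pool.Agent.P.MP_7bb7e1_gt.Step3
import Pool.Agent.P.MP_7bb7e1_gt.BaseAux

/-! Sections over short intervals, gluing, and the main theorem on families. -/

namespace Pool.Agent.P.MP_7bb7e1_gt

open Filter
open scoped commutatorElement

namespace Scale

namespace Ext

variable {S : Scale} {E : Type*} [Group E] (X : S.Ext E)

/-- an equivariant homomorphic section over `(a, b)`, as a subgroup -/
def Sec (a b : ℝ) (T : Subgroup E) : Prop :=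
  T ≤ X.EV 21 a b ∧ (∀ e ∈ X.EV 21 a b, ∃ s ∈ T, X.q s = X.q e) ∧
    (∀ s ∈ T, X.q s = 1 → s = 1) ∧ ∀ w ∈ X.EE 1 (-43) 43, ∀ s ∈ T, w * s * w⁻¹ ∈ T

variable {X}

/-- `T c` consists of the products `Phi x` with at most `n₀` pairs in
`X.EE 7 (c - 1/4) (c + 1/4)` that lie in `X.EV 21 (c - 1/16) (c + 1/16)`; use `vs_unif` with
`l = 1/16`, `exists_lift`, `map_Phi`, `Phi_append`, `Phi_rev`, `conj_EE`, `conj_EV`. -/
theorem base_loc {n₀ : ℕ} (h : VSpt n₀) (H : X.HH (3 * n₀)) : ∃ T : ℝ → Subgroup E,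
    (∀ c, -43 ≤ c - 1 / 16 → c + 1 / 16 ≤ 43 → X.Sec (c - 1 / 16) (c + 1 / 16) (T c)) ∧
      ∀ c c', |c - c'| ≤ 1 / 16 → ∀ s ∈ T c, ∀ s' ∈ T c', X.q s = X.q s' → s = s' :=
  base1_loc h H

theorem base2_prod {T T' : Subgroup E} (hn : ∀ w ∈ T', ∀ s ∈ T, w * s * w⁻¹ ∈ T) {e : E}
    (he : e ∈ T ⊔ T') : ∃ s ∈ T, ∃ s' ∈ T', e = s * s' := by
  let P : Subgroup E :=
    { carrier := {e | ∃ s ∈ T, ∃ s' ∈ T', e = s * s'}
      one_mem' := ⟨1, one_mem _, 1, one_mem _, (one_mul 1).symm⟩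
      mul_mem' := by
        rintro _ _ ⟨s, hs, s', hs', rfl⟩ ⟨t, ht, t', ht', rfl⟩
        exact ⟨s * (s' * t * s'⁻¹), mul_mem hs (hn s' hs' t ht), s' * t', mul_mem hs' ht',
          by group⟩
      inv_mem' := by
        rintro _ ⟨s, hs, s', hs', rfl⟩
        exact ⟨s'⁻¹ * s⁻¹ * s'⁻¹⁻¹, hn _ (inv_mem hs') _ (inv_mem hs), s'⁻¹, inv_mem hs',
          by group⟩ }
  have key : T ⊔ T' ≤ P :=
    sup_le (fun s hs => ⟨s, hs, 1, one_mem _, (mul_one s).symm⟩)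
      (fun s hs => ⟨1, one_mem _, s, hs, (one_mul s).symm⟩)
  exact key he

/-- every element of `T ⊔ T'` is a product `s * s'` since `T'` normalises `T`; `frag_EV` -/
theorem glue {a b a' b' : ℝ} {T T' : Subgroup E} (h : X.Sec a b T) (h' : X.Sec a' b' T')
    (h0 : -43 ≤ a) (h1 : a ≤ a') (h2 : a' < b) (h3 : b ≤ b') (h4 : b' ≤ 43)
    (agree : ∀ s ∈ T, ∀ s' ∈ T', X.q s = X.q s' → s = s') : X.Sec a b' (T ⊔ T') := by
  have hn : ∀ w ∈ T', ∀ s ∈ T, w * s * w⁻¹ ∈ T := fun w hw s hs =>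
    h.2.2.2 w (EE_mono le_rfl (h0.trans h1) h4 (EE_le_one (EV_le_EE (h'.1 hw)))) s hs
  refine ⟨sup_le (h.1.trans (EV_mono le_rfl le_rfl h3)) (h'.1.trans (EV_mono le_rfl h1 le_rfl)),
    fun e he => ?_, fun e he hq => ?_, fun w hw e he => ?_⟩
  · obtain ⟨u, hu, u', hu', hq⟩ := frag_EV (by norm_num) h1 h2 h3 he
    obtain ⟨s, hs, hq1⟩ := h.2.1 u hu
    obtain ⟨s', hs', hq2⟩ := h'.2.1 u' hu'
    exact ⟨s * s', Subgroup.mul_mem_sup hs hs', by rw [hq, map_mul, map_mul, hq1, hq2]⟩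
  · obtain ⟨s, hs, s', hs', rfl⟩ := base2_prod hn he
    have h5 : s = s'⁻¹ := agree s hs s'⁻¹ (inv_mem hs')
      (by rw [map_inv]; exact eq_inv_of_mul_eq_one_left (by rw [← map_mul, hq]))
    rw [h5, inv_mul_cancel]
  · obtain ⟨s, hs, s', hs', rfl⟩ := base2_prod hn he
    have h5 : w * (s * s') * w⁻¹ = (w * s * w⁻¹) * (w * s' * w⁻¹) := by group
    rw [h5]
    exact Subgroup.mul_mem_sup (h.2.2.2 w hw s hs) (h'.2.2.2 w hw s' hs')

/-- induction on `j`: a section over `(-42, -42 + (j+2)/16)` containing `T (-42 + (j+1)/16)`;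
`EV_inter` locates the overlap in the last short interval -/
theorem exists_sec {n₀ : ℕ} (h : VSpt n₀) (H : X.HH (3 * n₀)) : ∃ T, X.Sec (-42) 42 T := by
  obtain ⟨T, hT, hag⟩ := base_loc h H
  have key : ∀ j : ℕ, j ≤ 1342 → ∃ U, X.Sec (-42) (-42 + ((j : ℝ) + 1) / 16 + 1 / 16) U ∧
      T (-42 + ((j : ℝ) + 1) / 16) ≤ U := by
    intro j
    induction j with
    | zero =>
      intro _
      have h1 := hT (-42 + (((0 : ℕ) : ℝ) + 1) / 16) (by norm_num) (by norm_num)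
      have e1 : -42 + (((0 : ℕ) : ℝ) + 1) / 16 - 1 / 16 = -42 := by norm_num
      rw [e1] at h1
      exact ⟨_, h1, le_rfl⟩
    | succ j ih =>
      intro hj
      obtain ⟨U, hU, hTU⟩ := ih (by omega)
      have hj' : (j : ℝ) + 1 ≤ 1342 := by exact_mod_cast hj
      have hj0 : (0 : ℝ) ≤ j := Nat.cast_nonneg j
      have e0 : ((j + 1 : ℕ) : ℝ) = (j : ℝ) + 1 := Nat.cast_succ j
      rw [e0]
      have h1 := hT (-42 + ((j : ℝ) + 1) / 16) (by linarith) (by linarith)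
      have h2 := hT (-42 + ((j : ℝ) + 1 + 1) / 16) (by linarith) (by linarith)
      refine ⟨U ⊔ T (-42 + ((j : ℝ) + 1 + 1) / 16), glue hU h2 (by norm_num) (by linarith)
        (by linarith) (by linarith) (by linarith) fun s hs s' hs' hq => ?_, le_sup_right⟩
      have h3 := EV_inter (hU.1 hs) (EV_congr (h2.1 hs') hq.symm)
      obtain ⟨t, ht, hqt⟩ := h1.2.1 s (EV_mono le_rfl (by linarith) le_rfl h3)
      have h4 : t⁻¹ * s = 1 := hU.2.2.1 _ (mul_mem (inv_mem (hTU ht)) hs)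
        (by rw [map_mul, map_inv, hqt, inv_mul_cancel])
      rw [← inv_mul_eq_one.1 h4]
      refine hag _ _ ?_ t ht s' hs' (hqt.trans hq)
      rw [abs_le]
      constructor <;> linarith
  obtain ⟨U, hU, -⟩ := key 1342 le_rfl
  have e1 : -42 + (((1342 : ℕ) : ℝ) + 1) / 16 + 1 / 16 = 42 := by norm_num
  rw [e1] at hU
  exact ⟨U, hU⟩

theorem base2_comm {T : Subgroup E} (hT : X.Sec (-42) 42 T) {m n : ℕ} (hn : 21 ≤ n) {e e' : E}
    (he : e ∈ X.EE m (-42) 42) (he' : e' ∈ X.EE n (-42) 42) : ⁅e, e'⁆ ∈ T := by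
  obtain ⟨v, hv, hq⟩ := mem_EE.1 (EE_mono hn le_rfl le_rfl he')
  obtain ⟨u, hu, -, hg⟩ := exists_Vir (mem_VG.1 hv)
  obtain ⟨f, -, hf⟩ := exists_lift (X := X) hu.1
  obtain ⟨s, hs, hqs⟩ := hT.2.1 f (mem_EV.2 ⟨u, hu, hf⟩)
  have hc : s⁻¹ * e' ∈ Subgroup.center E :=
    central_of_g (hqs.trans hf) hq (hg.mono fun i hi => Subtype.ext hi)
  have e1 : ⁅e, e'⁆ = e * s * e⁻¹ * (e * (s⁻¹ * e') * e⁻¹) * e'⁻¹ := by
    rw [commutatorElement_def]; group
  have e2 : e * s * e⁻¹ * (s⁻¹ * e') * e'⁻¹ = e * s * e⁻¹ * s⁻¹ := by group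
  rw [e1, conj_of_center hc, e2]
  exact mul_mem (hT.2.2.2 e (EE_mono le_rfl (by norm_num) (by norm_num) (EE_le_one he)) s hs)
    (inv_mem hs)

/-- one of the two orders is at least `21`; `central_of_g` -/
theorem base {n₀ : ℕ} (h : VSpt n₀) (H : X.HH (3 * n₀)) : X.PP 42 := by
  obtain ⟨T, hT⟩ := exists_sec h H
  have key : X.NN 42 (-42) 42 ≤ T := by
    refine NN_le fun m n _ _ hmn e he e' he' => ?_
    by_cases hn : 21 ≤ n
    · exact base2_comm hT hn he he'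
    · rw [← commutatorElement_inv]
      exact inv_mem (base2_comm hT (by omega) he' he)
  intro e he hq
  have e1 : ((42 : ℕ) : ℝ) = 42 := by norm_num
  rw [e1] at he
  exact hT.2.2.1 e (key he) hq

theorem main {n₀ : ℕ} (h : VSpt n₀) (H : X.HH (3 * n₀)) (x : List (E × E))
    (hx : ∀ p ∈ x, p.1 ∈ X.EE 3 (-6) 6 ∧ p.2 ∈ X.EE 3 (-6) 6) (hq : X.q (Phi x) = 1) :
    Phi x = 1 := by
  have key : ∀ j : ℕ, j ≤ 36 → X.PP (42 - j) := by
    intro j
    induction j with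
    | zero => exact fun _ => base h H
    | succ j ih =>
      intro hj
      refine step X (by omega) ?_
      have e1 : 42 - (j + 1) + 1 = 42 - j := by omega
      rw [e1]
      exact ih (by omega)
  have h6 : X.PP 6 := key 36 le_rfl
  have hm : ∀ y : List (E × E), (∀ p ∈ y, p.1 ∈ X.EE 3 (-6) 6 ∧ p.2 ∈ X.EE 3 (-6) 6) →
      Phi y ∈ X.NN 6 (-6) 6 := by
    intro y
    induction y with
    | nil => exact fun _ => one_mem _
    | cons p y ih =>
      intro hy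
      rw [Phi_cons]
      exact mul_mem (comm_mem_NN (by norm_num) (by norm_num) (by norm_num) (hy p (by simp)).1
        (hy p (by simp)).2) (ih fun p' hp' => hy p' (by simp [hp']))
  refine h6 _ ?_ hq
  have e1 : ((6 : ℕ) : ℝ) = 6 := by norm_num
  rw [e1]
  exact hm x hx

end Ext

end Scale

end Pool.Agent.P.MP_7bb7e1_gt
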