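import Pool.Agent.P.MP_7bb7e1_gt.Stmt

/-! Basic definitions: displacements, sup norms of derivatives, affine maps, products of
commutators, central extensions given by a cocycle. -/

namespace Pool.Agent.P.MP_7bb7e1_gt

open scoped ContDiff commutatorElement

abbrev Pm := Equiv.Perm ℝ

/-- displacement -/
def dp (e : Pm) : ℝ → ℝ := fun x => e x - x

/-- smooth with all derivatives bounded -/
def Sm (f : ℝ → ℝ) : Prop :=
  ContDiff ℝ ∞ f ∧ ∀ r : ℕ, ∃ C : ℝ, ∀ x, |iteratedDeriv r f x| ≤ C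

/-- sup norm of the `r`-th derivative -/
noncomputable def sn (r : ℕ) (f : ℝ → ℝ) : ℝ := ⨆ x, |iteratedDeriv r f x|

noncomputable def nm (r : ℕ) (f : ℝ → ℝ) : ℝ := ∑ j ∈ Finset.range (r + 1), sn j f

noncomputable def md (r : ℕ) (f : ℝ → ℝ) : ℝ := ∑ j ∈ Finset.Ico 2 r, sn j f

/-- translation -/
def tr (c : ℝ) : Pm := Equiv.addRight c

/-- the affine map `x ↦ l * x + m` -/
noncomputable def aff (l m : ℝ) : Pm :=
  if h : l = 0 then 1 else
    { toFun := fun x => l * x + m
      invFun := fun y => (y - m) / l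
      left_inv := fun x => by field_simp; ring
      right_inv := fun y => by field_simp; ring }

/-- support in `[a, b]` -/
def Fix (a b : ℝ) (e : Pm) : Prop := ∀ x, x ≤ a ∨ b ≤ x → e x = x

def Van (a b : ℝ) (f : ℝ → ℝ) : Prop := ∀ x, x ≤ a ∨ b ≤ x → f x = 0

/-- bracket of vector fields -/
noncomputable def br (f h : ℝ → ℝ) : ℝ → ℝ := fun x => f x * deriv h x - deriv f x * h x

@[simp] theorem tr_apply (c x : ℝ) : tr c x = x + c := rfl

@[simp] theorem tr_inv_apply (c x : ℝ) : (tr c)⁻¹ x = x - c := by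
  rw [Equiv.Perm.inv_eq_iff_eq]; simp

theorem tr_add (c d : ℝ) : tr (c + d) = tr c * tr d := by
  ext x; simp; ring

@[simp] theorem tr_zero : tr 0 = 1 := by ext x; simp

theorem tr_neg (c : ℝ) : tr (-c) = (tr c)⁻¹ := by
  ext x; simp; ring

theorem tr_pow (c : ℝ) (n : ℕ) : tr c ^ n = tr (n * c) := by
  induction n with
  | zero => simp
  | succ n ih => rw [pow_succ, ih, ← tr_add]; congr 1; push_cast; ring

theorem aff_apply {l : ℝ} (hl : l ≠ 0) (m x : ℝ) : aff l m x = l * x + m := by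
  simp [aff, hl]

theorem aff_inv_apply {l : ℝ} (hl : l ≠ 0) (m x : ℝ) : (aff l m)⁻¹ x = (x - m) / l := by
  rw [Equiv.Perm.inv_eq_iff_eq, aff_apply hl]; field_simp; ring

theorem apply_eq_add_dp (e : Pm) (x : ℝ) : e x = x + dp e x := by simp [dp]

@[simp] theorem dp_one : dp 1 = fun _ => 0 := by ext x; simp [dp]

theorem dp_tr (c : ℝ) : dp (tr c) = fun _ => c := by ext x; simp [dp]

theorem dp_mul (e e' : Pm) : dp (e * e') = fun x => dp e (x + dp e' x) + dp e' x := by
  ext x; simp [dp]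

theorem dp_inv (e : Pm) : dp e⁻¹ = fun x => -dp e (x + dp e⁻¹ x) := by
  ext x; simp [dp]

theorem ext_dp {e e' : Pm} (h : dp e = dp e') : e = e' := by
  ext x; rw [apply_eq_add_dp, apply_eq_add_dp e', h]

theorem fix_iff_van {a b : ℝ} {e : Pm} : Fix a b e ↔ Van a b (dp e) := by
  simp [Fix, Van, dp, sub_eq_zero]

theorem Fix.mono {a b a' b' : ℝ} {e : Pm} (h : Fix a b e) (ha : a' ≤ a) (hb : b ≤ b') :
    Fix a' b' e := fun x hx => h x (hx.imp (fun h => h.trans ha) (fun h => hb.trans h))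

theorem Van.mono {a b a' b' : ℝ} {f : ℝ → ℝ} (h : Van a b f) (ha : a' ≤ a) (hb : b ≤ b') :
    Van a' b' f := fun x hx => h x (hx.imp (fun h => h.trans ha) (fun h => hb.trans h))

/-- permutations with support in `[a, b]` -/
def FixS (a b : ℝ) : Subgroup Pm where
  carrier := {e | Fix a b e}
  one_mem' := fun _ _ => rfl
  mul_mem' := fun {e e'} h h' x hx => by rw [Equiv.Perm.mul_apply, h' x hx, h x hx]
  inv_mem' := fun {e} h x hx => by rw [Equiv.Perm.inv_eq_iff_eq, h x hx]

/-- elements of `Gc` with support in `[a, b]` -/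
def GI (a b : ℝ) : Subgroup Gc := (FixS a b).comap Gc.subtype

theorem mem_GI {a b : ℝ} {g : Gc} : g ∈ GI a b ↔ Fix a b (g : Pm) := Iff.rfl

/-- a permutation fixing pointwise a set off which `e` is the identity commutes with `e` -/
theorem commute_of_fix {φ e : Pm} {s : Set ℝ} (h1 : ∀ x ∈ s, φ x = x) (h2 : ∀ x, x ∉ s → e x = x) :
    φ * e = e * φ := by
  ext x
  simp only [Equiv.Perm.mul_apply]
  by_cases hx : x ∈ s
  · rw [h1 x hx]
    by_cases hy : e x ∈ s
    · exact h1 _ hy
    · have := e.injective (h2 _ hy)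
      exact absurd (this.symm ▸ hx) hy
  · rw [h2 x hx]
    by_cases hy : φ x ∈ s
    · have := φ.injective (h1 _ hy)
      exact absurd (this ▸ hy) hx
    · exact (h2 _ hy).symm

section Phi

variable {Γ E : Type*} [Group Γ] [Group E]

/-- product of the commutators of a list of pairs -/
def Phi (x : List (Γ × Γ)) : Γ := (x.map fun p => ⁅p.1, p.2⁆).prod

/-- product of the commutators of the lifts -/
def PhiL (s : Γ → E) (x : List (Γ × Γ)) : E := Phi (x.map (Prod.map s s))

@[simp] theorem Phi_nil : Phi ([] : List (Γ × Γ)) = 1 := rfl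

@[simp] theorem Phi_cons (p : Γ × Γ) (x : List (Γ × Γ)) : Phi (p :: x) = ⁅p.1, p.2⁆ * Phi x := by
  simp [Phi]

theorem Phi_append (x y : List (Γ × Γ)) : Phi (x ++ y) = Phi x * Phi y := by
  simp [Phi]

theorem Phi_rev (x : List (Γ × Γ)) : Phi (x.reverse.map Prod.swap) = (Phi x)⁻¹ := by
  induction x with
  | nil => simp
  | cons p x ih =>
    rw [List.reverse_cons, List.map_append, Phi_append, ih]
    simp

theorem map_Phi (f : Γ →* E) (x : List (Γ × Γ)) : f (Phi x) = Phi (x.map (Prod.map f f)) := by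
  induction x with
  | nil => simp
  | cons p x ih => simp [ih, map_commutatorElement]

theorem Phi_mem {H : Subgroup Γ} {x : List (Γ × Γ)} (h : ∀ p ∈ x, p.1 ∈ H ∧ p.2 ∈ H) :
    Phi x ∈ ⁅H, H⁆ := by
  induction x with
  | nil => simp
  | cons p x ih =>
    rw [Phi_cons]
    exact mul_mem (Subgroup.commutator_mem_commutator (h p (by simp)).1 (h p (by simp)).2)
      (ih fun p' hp' => h p' (by simp [hp']))

theorem exists_Phi_of_mem {H : Subgroup Γ} {g : Γ} (hg : g ∈ ⁅H, H⁆) :
    ∃ x : List (Γ × Γ), (∀ p ∈ x, p.1 ∈ H ∧ p.2 ∈ H) ∧ Phi x = g := by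
  rw [Subgroup.commutator_def] at hg
  induction hg using Subgroup.closure_induction with
  | mem g hg =>
    obtain ⟨a, ha, b, hb, rfl⟩ := hg
    exact ⟨[(a, b)], by simp [ha, hb], by simp⟩
  | one => exact ⟨[], by simp, rfl⟩
  | mul g g' _ _ ih ih' =>
    obtain ⟨x, hx, rfl⟩ := ih
    obtain ⟨y, hy, rfl⟩ := ih'
    refine ⟨x ++ y, fun p hp => ?_, Phi_append x y⟩
    rcases List.mem_append.1 hp with h | h
    exacts [hx p h, hy p h]
  | inv g _ ih =>
    obtain ⟨x, hx, rfl⟩ := ih
    refine ⟨_, fun p hp => ?_, Phi_rev x⟩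
    obtain ⟨p', hp', rfl⟩ := List.mem_map.1 hp
    exact (hx p' (List.mem_reverse.1 hp')).symm

/-- commutators do not see central factors -/
theorem comm_congr_of_ker (π : E →* Γ) (hc : ∀ e, π e = 1 → e ∈ Subgroup.center E)
    {a a' b b' : E} (ha : π a = π a') (hb : π b = π b') : ⁅a, b⁆ = ⁅a', b'⁆ := by
  have h1 := Subgroup.mem_center_iff.1 (hc (a'⁻¹ * a) (by simp [ha]))
  have h2 := Subgroup.mem_center_iff.1 (hc (b'⁻¹ * b) (by simp [hb]))
  obtain ⟨z, rfl⟩ : ∃ z, a = a' * z := ⟨a'⁻¹ * a, by group⟩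
  obtain ⟨w, rfl⟩ : ∃ w, b = b' * w := ⟨b'⁻¹ * b, by group⟩
  simp only [inv_mul_cancel_left] at h1 h2
  simp only [commutatorElement_def, mul_inv_rev]
  calc a' * z * (b' * w) * (z⁻¹ * a'⁻¹) * (w⁻¹ * b'⁻¹)
      = a' * (z * (b' * w)) * z⁻¹ * a'⁻¹ * w⁻¹ * b'⁻¹ := by group
    _ = a' * ((b' * w) * z) * z⁻¹ * a'⁻¹ * w⁻¹ * b'⁻¹ := by rw [h1]
    _ = a' * b' * (w * a'⁻¹) * w⁻¹ * b'⁻¹ := by group
    _ = a' * b' * (a'⁻¹ * w) * w⁻¹ * b'⁻¹ := by rw [h2]
    _ = a' * b' * a'⁻¹ * b'⁻¹ := by group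

/-- the product of commutators depends only on the images in the quotient -/
theorem Phi_congr_of_ker (π : E →* Γ) (hc : ∀ e, π e = 1 → e ∈ Subgroup.center E)
    {x y : List (E × E)} (h : x.map (Prod.map π π) = y.map (Prod.map π π)) : Phi x = Phi y := by
  induction x generalizing y with
  | nil =>
    have : y = [] := by simpa using h.symm
    rw [this]
  | cons p x ih =>
    cases y with
    | nil => simp at h
    | cons p' y =>
      simp only [List.map_cons, List.cons.injEq, Prod.ext_iff, Prod.map_fst, Prod.map_snd] at h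
      rw [Phi_cons, Phi_cons, ih h.2, comm_congr_of_ker π hc h.1.1 h.1.2]

/-- padding a short list to a tuple of fixed length -/
theorem exists_tuple_of_length_le {α : Type*} (P : α → Prop) (o : α) (ho : P o) {n : ℕ}
    (x : List α) (hl : x.length ≤ n) (hx : ∀ p ∈ x, P p) :
    ∃ y : Fin n → α, (∀ j, P (y j)) ∧ List.ofFn y = x ++ List.replicate (n - x.length) o := by
  have hlen : (x ++ List.replicate (n - x.length) o).length = n := by simp; omega
  refine ⟨fun j => (x ++ List.replicate (n - x.length) o).get (j.cast hlen.symm), fun j => ?_, ?_⟩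
  · have := List.get_mem (x ++ List.replicate (n - x.length) o) (j.cast hlen.symm)
    rcases List.mem_append.1 this with h | h
    · exact hx _ h
    · have h' := List.eq_of_mem_replicate h
      beta_reduce
      rw [h']; exact ho
  · apply List.ext_get (by simp; omega)
    intro k h1 h2
    simp

theorem Phi_replicate_one (n : ℕ) : Phi (List.replicate n ((1 : Γ), (1 : Γ))) = 1 := by
  induction n with
  | zero => simp
  | succ n ih => simp [List.replicate_succ, ih]

end Phi

/-- a normalised 2-cocycle -/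
structure Coc (Γ A : Type*) [Group Γ] [AddCommGroup A] where
  c : Γ → Γ → A
  coc : ∀ g h k, c g h + c (g * h) k = c g (h * k) + c h k
  one_one : c 1 1 = 0

section CE

variable {Γ A : Type*} [Group Γ] [AddCommGroup A]

theorem Coc.one_left (c : Coc Γ A) (g : Γ) : c.c 1 g = 0 := by
  have := c.coc 1 1 g
  simpa [c.one_one] using this

theorem Coc.one_right (c : Coc Γ A) (g : Γ) : c.c g 1 = 0 := by
  have := c.coc g 1 1
  simpa [c.one_one] using this

theorem Coc.inv_self (c : Coc Γ A) (g : Γ) : c.c g⁻¹ g = c.c g g⁻¹ := by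
  have := c.coc g g⁻¹ g
  simpa [c.one_left, c.one_right] using this.symm

/-- the central extension defined by a cocycle -/
@[ext] structure CE (c : Coc Γ A) where
  g : Γ
  a : A

variable {c : Coc Γ A}

instance : Mul (CE c) := ⟨fun u v => ⟨u.g * v.g, u.a + v.a + c.c u.g v.g⟩⟩
instance : One (CE c) := ⟨⟨1, 0⟩⟩
instance : Inv (CE c) := ⟨fun u => ⟨u.g⁻¹, -u.a - c.c u.g u.g⁻¹⟩⟩

@[simp] theorem CE.mul_g (u v : CE c) : (u * v).g = u.g * v.g := rfl
@[simp] theorem CE.mul_a (u v : CE c) : (u * v).a = u.a + v.a + c.c u.g v.g := rfl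
@[simp] theorem CE.one_g : (1 : CE c).g = 1 := rfl
@[simp] theorem CE.one_a : (1 : CE c).a = 0 := rfl
@[simp] theorem CE.inv_g (u : CE c) : u⁻¹.g = u.g⁻¹ := rfl
@[simp] theorem CE.inv_a (u : CE c) : u⁻¹.a = -u.a - c.c u.g u.g⁻¹ := rfl

instance : Group (CE c) := Group.ofLeftAxioms
  (fun u v w => by
    ext
    · simp [mul_assoc]
    · have := c.coc u.g v.g w.g
      simp only [CE.mul_a, CE.mul_g]
      linear_combination (norm := abel) this)
  (fun u => by ext <;> simp [c.one_left])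
  (fun u => by
    ext
    · simp
    · simp only [CE.mul_a, CE.inv_a, CE.inv_g, CE.one_a, c.inv_self]
      abel)

/-- the projection -/
def CE.pr (c : Coc Γ A) : CE c →* Γ where
  toFun u := u.g
  map_one' := rfl
  map_mul' _ _ := rfl

@[simp] theorem CE.pr_apply (u : CE c) : CE.pr c u = u.g := rfl

/-- the standard set-theoretic section -/
def CE.sec (c : Coc Γ A) (g : Γ) : CE c := ⟨g, 0⟩

theorem CE.central (u : CE c) (h : CE.pr c u = 1) : u ∈ Subgroup.center (CE c) := by
  rw [Subgroup.mem_center_iff]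
  intro v
  have h' : u.g = 1 := h
  ext <;> simp [h', c.one_left, c.one_right, add_comm]

end CE

end Pool.Agent.P.MP_7bb7e1_gt
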