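import Pool.Agent.P.MP_7bb7e1_gt.Aff

/-! Affine paths and triangles in the group of diffeomorphisms. -/

namespace Pool.Agent.P.MP_7bb7e1_gt

open Classical in
/-- the point at time `s` of the straight path from the identity to `g` -/
noncomputable def rad (g : Gc) (s : ℝ) : Gc :=
  if h : ∃ u : Gc, dp (u : Pm) = fun x => s * dp (g : Pm) x then h.choose else 1

theorem tri_sm (g h : Gc) (s t : ℝ) : Sm fun x => s * dp (g : Pm) x + t * dp (h : Pm) x :=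
  ((Gc.sm g).const_mul s).add ((Gc.sm h).const_mul t)

theorem tri_deriv (g h : Gc) (s t x : ℝ) :
    deriv (fun x => s * dp (g : Pm) x + t * dp (h : Pm) x) x =
      s * deriv (dp (g : Pm)) x + t * deriv (dp (h : Pm)) x :=
  ((((Gc.sm g).differentiable x).hasDerivAt.const_mul s).add
    (((Gc.sm h).differentiable x).hasDerivAt.const_mul t)).deriv

theorem tri_lower (g h : Gc) : ∃ m : ℝ, 0 < m ∧ ∀ s t : ℝ, 0 ≤ s → 0 ≤ t → s + t ≤ 1 → ∀ x,
    m ≤ 1 + deriv (fun x => s * dp (g : Pm) x + t * dp (h : Pm) x) x := by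
  obtain ⟨m1, p1, q1⟩ := Gc.lower g
  obtain ⟨m2, p2, q2⟩ := Gc.lower h
  refine ⟨min 1 (min m1 m2), lt_min one_pos (lt_min p1 p2), fun s t hs ht hst x => ?_⟩
  have a0 : min 1 (min m1 m2) ≤ 1 := min_le_left _ _
  have a1 := ((min_le_right 1 _).trans (min_le_left m1 m2)).trans (q1 x)
  have a2 := ((min_le_right 1 _).trans (min_le_right m1 m2)).trans (q2 x)
  rw [tri_deriv]
  nlinarith [mul_le_mul_of_nonneg_left a0 (sub_nonneg.2 hst), mul_le_mul_of_nonneg_left a1 hs,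
    mul_le_mul_of_nonneg_left a2 ht]

theorem tri_van {a b : ℝ} {g h : Pm} (hg : Fix a b g) (hh : Fix a b h) (s t : ℝ) :
    Van a b fun x => s * dp g x + t * dp h x := fun x hx => by
  beta_reduce
  rw [fix_iff_van.1 hg x hx, fix_iff_van.1 hh x hx]
  ring

theorem tri_mk (g h : Gc) {s t : ℝ} (hs : 0 ≤ s) (ht : 0 ≤ t) (hst : s + t ≤ 1) :
    ∃ u : Gc, dp (u : Pm) = fun x => s * dp (g : Pm) x + t * dp (h : Pm) x := by
  obtain ⟨M1, -, f1⟩ := Gc.fix g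
  obtain ⟨M2, -, f2⟩ := Gc.fix h
  obtain ⟨m, hm, hl⟩ := tri_lower g h
  exact mkG (a := -max M1 M2) (b := max M1 M2) (tri_sm g h s t).1
    (tri_van (f1.mono (neg_le_neg (le_max_left _ _)) (le_max_left _ _))
      (f2.mono (neg_le_neg (le_max_right _ _)) (le_max_right _ _)) s t)
    fun x => hm.trans_le (hl s t hs ht hst x)

theorem tri_nm (g h : Gc) (s t : ℝ) (r : ℕ) :
    nm r (fun x => s * dp (g : Pm) x + t * dp (h : Pm) x) ≤
      |s| * nm r (dp (g : Pm)) + |t| * nm r (dp (h : Pm)) := by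
  rw [← nm_const_mul (Gc.sm g), ← nm_const_mul (Gc.sm h)]
  exact nm_add_le ((Gc.sm g).const_mul s) ((Gc.sm h).const_mul t) r

theorem tri_dp_div (e e' : Pm) : dp (e' * e⁻¹) = fun x => (fun y => dp e' y - dp e y) (e⁻¹ x) := by
  ext x
  simp [dp]

theorem dp_rad (g : Gc) {s : ℝ} (h0 : 0 ≤ s) (h1 : s ≤ 1) :
    dp (rad g s : Pm) = fun x => s * dp (g : Pm) x := by
  have h : ∃ u : Gc, dp (u : Pm) = fun x => s * dp (g : Pm) x := by
    simpa only [zero_mul, add_zero] using tri_mk g g h0 le_rfl (by rwa [add_zero])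
  rw [rad, dif_pos h]
  exact h.choose_spec

theorem rad_zero (g : Gc) : rad g 0 = 1 := by
  refine Subtype.ext (ext_dp ?_)
  rw [dp_rad g le_rfl zero_le_one]
  simp

theorem rad_one (g : Gc) : rad g 1 = g := by
  refine Subtype.ext (ext_dp ?_)
  rw [dp_rad g zero_le_one le_rfl]
  simp

theorem rad_mem {a b : ℝ} {g : Gc} (hg : g ∈ GI a b) (s : ℝ) : rad g s ∈ GI a b := by
  rw [rad]
  split_ifs with h
  · rw [mem_GI, fix_iff_van, h.choose_spec]
    intro x hx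
    beta_reduce
    rw [fix_iff_van.1 (mem_GI.1 hg) x hx, mul_zero]
  · exact one_mem _

def Tri : Set (ℝ × ℝ) := {p | 0 ≤ p.2 ∧ p.2 ≤ p.1 ∧ p.1 ≤ 1}

/-- `Γ (a, b)` has displacement `a * dp w + b * (dp v ∘ w)`, a convex combination of the
displacements of `1`, `w`, `v * w` (`mkG`, `Gc.lower`). The displacement of `Γ p' * (Γ p)⁻¹` is
`(dp (Γ p') - dp (Γ p)) ∘ (Γ p)⁻¹`; use `nm_comp_inv_le`. -/
theorem exists_tri {a b : ℝ} {v w : Gc} (hv : v ∈ GI a b) (hw : w ∈ GI a b) :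
    ∃ Γ : ℝ × ℝ → Gc, (∀ p, Γ p ∈ GI a b) ∧ (∀ s, 0 ≤ s → s ≤ 1 → Γ (s, 0) = rad w s) ∧
      (∀ s, 0 ≤ s → s ≤ 1 → Γ (1, s) = rad v s * w) ∧
      (∀ s, 0 ≤ s → s ≤ 1 → Γ (s, s) = rad (v * w) s) ∧
      ∀ (R : ℕ) (e : ℝ), 0 < e → ∃ η : ℝ, 0 < η ∧ ∀ p ∈ Tri, ∀ p' ∈ Tri, dist p p' < η →
        nm R (dp ((Γ p' * (Γ p)⁻¹ : Gc) : Pm)) ≤ e := by
  classical
  have hex : ∀ p : ℝ × ℝ, ∃ u : Gc, u ∈ GI a b ∧ (p ∈ Tri → dp (u : Pm) =
      fun x => (p.1 - p.2) * dp (w : Pm) x + p.2 * dp ((v * w : Gc) : Pm) x) := fun p => by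
    by_cases hp : p ∈ Tri
    · obtain ⟨u, hu⟩ := tri_mk w (v * w) (sub_nonneg.2 hp.2.1) hp.1 (by linarith [hp.2.2])
      refine ⟨u, ?_, fun _ => hu⟩
      rw [mem_GI, fix_iff_van, hu]
      exact tri_van (mem_GI.1 hw) (mem_GI.1 (mul_mem hv hw)) _ _
    · exact ⟨1, one_mem _, fun h => (hp h).elim⟩
  choose Γ hm hΓ using hex
  refine ⟨Γ, hm, fun s h0 h1 => ?_, fun s h0 h1 => ?_, fun s h0 h1 => ?_, fun R e he => ?_⟩
  · refine Subtype.ext (ext_dp ?_)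
    rw [hΓ (s, 0) ⟨le_rfl, h0, h1⟩, dp_rad w h0 h1]
    simp
  · refine Subtype.ext (ext_dp ?_)
    rw [hΓ (1, s) ⟨h0, h1, le_rfl⟩, Subgroup.coe_mul, Subgroup.coe_mul, dp_mul, dp_mul,
      dp_rad v h0 h1]
    ext x
    ring
  · refine Subtype.ext (ext_dp ?_)
    rw [hΓ (s, s) ⟨h0, le_rfl, h1⟩, dp_rad _ h0 h1]
    simp
  obtain ⟨m, m0, hl⟩ := tri_lower w (v * w)
  obtain ⟨C, C0, hC⟩ := nm_comp_inv_le R
    (nm (R + 1) (dp (w : Pm)) + nm (R + 1) (dp ((v * w : Gc) : Pm))) m m0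
  have n1 := nm_nonneg R (dp (w : Pm))
  have n2 := nm_nonneg R (dp ((v * w : Gc) : Pm))
  set K := C * (2 * nm R (dp (w : Pm)) + nm R (dp ((v * w : Gc) : Pm))) with hK
  have K0 : 0 ≤ K := by positivity
  refine ⟨e / (K + 1), by positivity, fun p hp p' hp' hd => ?_⟩
  have d1 : |p'.1 - p.1| ≤ e / (K + 1) := by
    rw [abs_sub_comm, ← Real.dist_eq]
    exact ((le_max_left _ _).trans_eq Prod.dist_eq.symm).trans hd.le
  have d2 : |p'.2 - p.2| ≤ e / (K + 1) := by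
    rw [abs_sub_comm, ← Real.dist_eq]
    exact ((le_max_right _ _).trans_eq Prod.dist_eq.symm).trans hd.le
  have d3 : |p'.1 - p'.2 - (p.1 - p.2)| ≤ 2 * (e / (K + 1)) := by
    rw [abs_le] at d1 d2 ⊢
    constructor <;> linarith [d1.1, d1.2, d2.1, d2.2]
  have e1 : (fun y => dp (Γ p' : Pm) y - dp (Γ p : Pm) y) = fun y =>
      (p'.1 - p'.2 - (p.1 - p.2)) * dp (w : Pm) y + (p'.2 - p.2) * dp ((v * w : Gc) : Pm) y := by
    rw [hΓ p hp, hΓ p' hp']
    ext y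
    ring
  have b1 : nm (R + 1) (dp (Γ p : Pm)) ≤
      nm (R + 1) (dp (w : Pm)) + nm (R + 1) (dp ((v * w : Gc) : Pm)) := by
    rw [hΓ p hp]
    refine (tri_nm _ _ _ _ _).trans (add_le_add ?_ ?_)
    · refine mul_le_of_le_one_left (nm_nonneg _ _) ?_
      rw [abs_of_nonneg (sub_nonneg.2 hp.2.1)]
      linarith [hp.1, hp.2.2]
    · refine mul_le_of_le_one_left (nm_nonneg _ _) ?_
      rw [abs_of_nonneg hp.1]
      exact hp.2.1.trans hp.2.2
  have b2 : ∀ x, m ≤ 1 + deriv (dp (Γ p : Pm)) x := by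
    rw [hΓ p hp]
    exact hl _ _ (sub_nonneg.2 hp.2.1) hp.1 (by linarith [hp.2.2])
  rw [Subgroup.coe_mul, Subgroup.coe_inv, tri_dp_div, e1]
  refine (hC _ _ (Gc.sm _) b1 b2 (tri_sm _ _ _ _)).2.trans ?_
  refine (mul_le_mul_of_nonneg_left ((tri_nm _ _ _ _ _).trans (add_le_add
    (mul_le_mul_of_nonneg_right d3 n1) (mul_le_mul_of_nonneg_right d2 n2))) C0).trans ?_
  have e2 : C * (2 * (e / (K + 1)) * nm R (dp (w : Pm)) +
      e / (K + 1) * nm R (dp ((v * w : Gc) : Pm))) = e * (K / (K + 1)) := by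
    rw [hK]
    ring
  rw [e2]
  exact mul_le_of_le_one_right he.le (div_le_one_of_le₀ (by linarith) (by linarith))

/-- a subgroup containing the small elements of `GI a b` contains `GI a b` -/
theorem GI_le_of_small {a b : ℝ} {H : Subgroup Gc} {R : ℕ} {e : ℝ} (he : 0 < e)
    (h : ∀ g ∈ GI a b, nm R (dp (g : Pm)) ≤ e → g ∈ H) : GI a b ≤ H := by
  intro g hg
  obtain ⟨Γ, hm, h1, -, -, h2⟩ := exists_tri (one_mem (GI a b)) hg
  obtain ⟨η, η0, h3⟩ := h2 R e he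
  obtain ⟨N, hN⟩ := exists_nat_one_div_lt η0
  have N0 : (0 : ℝ) < N + 1 := by positivity
  have hT : ∀ k : ℕ, k ≤ N + 1 → ((k : ℝ) / (N + 1), (0 : ℝ)) ∈ Tri := fun k hk =>
    ⟨le_rfl, by positivity, div_le_one_of_le₀ (by exact_mod_cast hk) N0.le⟩
  have key : ∀ k : ℕ, k ≤ N + 1 → Γ ((k : ℝ) / (N + 1), 0) ∈ H := fun k => by
    induction k with
    | zero =>
      intro _
      rw [Nat.cast_zero, zero_div, h1 0 le_rfl zero_le_one, rad_zero]
      exact one_mem _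
    | succ k ih =>
      intro hk
      have h4 := h _ (mul_mem (hm _) (inv_mem (hm _)))
        (h3 _ (hT k (by omega)) _ (hT (k + 1) hk) (by
          rw [Prod.dist_eq, dist_self, max_eq_left dist_nonneg, Real.dist_eq, ← sub_div,
            abs_div, abs_of_pos N0]
          push_cast
          rwa [show (k : ℝ) - (k + 1) = -1 by ring, abs_neg, abs_one]))
      simpa using mul_mem h4 (ih (by omega))
  have := key (N + 1) le_rfl
  rwa [Nat.cast_add, Nat.cast_one, div_self N0.ne', h1 1 zero_le_one le_rfl, rad_one] at this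

end Pool.Agent.P.MP_7bb7e1_gt
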