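import Pool.Agent.P.MP_7bb7e1_gt.VS
import Pool.Agent.P.MP_7bb7e1_gt.Tri

/-! Lifts of diffeomorphisms with disjoint supports commute. -/

namespace Pool.Agent.P.MP_7bb7e1_gt

open Set
open scoped commutatorElement

variable {n₀ : ℕ}

/-- `GI_le_of_small`, `vs_small`, `PhiL_g`, `Phi_mem` -/
theorem perf (h : VSpt n₀) : GI (-1) 1 ≤ ⁅GI (-3) 3, GI (-3) 3⁆ := by
  obtain ⟨R', e', he', H⟩ := vs_small h 0 one_pos
  refine GI_le_of_small (R := R') he' fun g hg hn => ?_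
  obtain ⟨x, hx, hv⟩ := H (vl g) hg hn (by
    have : (vl g).a = 0 := rfl
    rw [this, abs_zero]
    exact he'.le)
  have h1 : Phi (List.ofFn x) = g := by
    rw [← PhiL_g (c := btc), hv]
    rfl
  rw [← h1]
  refine Phi_mem fun p hp => ?_
  obtain ⟨k, rfl⟩ := List.mem_ofFn.1 hp
  exact ⟨(hx k).1.1, (hx k).2.1⟩

theorem comm1_small (h : VSpt n₀) {l : ℝ} (hl : 0 < l) (m : ℝ) :
    GI (m - l) (m + l) ≤ ⁅GI (m - 3 * l) (m + 3 * l), GI (m - 3 * l) (m + 3 * l)⁆ := by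
  intro u hu
  have h1 : cG l⁻¹ (-m / l) u ∈ GI (-1) 1 := by
    have := Fix.conj_aff (mem_GI.1 hu) (inv_pos.2 hl) (-m / l)
    refine mem_GI.2 (this.mono (le_of_eq ?_) (le_of_eq ?_)) <;> field_simp <;> ring
  have h2 : (GI (-3) 3).map (cG l m) ≤ GI (m - 3 * l) (m + 3 * l) := by
    rintro _ ⟨v, hv, rfl⟩
    have := Fix.conj_aff (mem_GI.1 hv) hl m
    refine mem_GI.2 (this.mono (le_of_eq ?_) (le_of_eq ?_)) <;> ring
  have h3 : cG l m (cG l⁻¹ (-m / l) u) = u := by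
    rw [cG_cG hl.ne' (inv_ne_zero hl.ne'), mul_inv_cancel₀ hl.ne',
      show l * (-m / l) + m = 0 by field_simp; ring, cG_one]
  have h4 := Subgroup.mem_map_of_mem (cG l m) (perf h h1)
  rw [h3, Subgroup.map_commutator] at h4
  exact Subgroup.commutator_mono h2 h2 h4

/-- shrink `[a, b]` by `exists_aff` inside `[a - ρ, b + ρ]`, and transport `perf` by `cG` -/
theorem perf' (h : VSpt n₀) {a b ρ : ℝ} (hρ : 0 < ρ) :
    GI a b ≤ ⁅GI (a - ρ) (b + ρ), GI (a - ρ) (b + ρ)⁆ := by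
  intro g hg
  have hg' : Fix a b (g : Pm) := hg
  rcases lt_or_ge b a with hab | hab
  · have : g = 1 := by
      ext x
      have := hg' x ((le_or_gt x a).imp id fun h' => by linarith)
      simpa using this
    rw [this]
    exact one_mem _
  obtain ⟨t, ht, ht'⟩ : ∃ t : ℝ, 0 < t ∧ t * (b - a) ≤ ρ / 4 := by
    have hp : 0 < b - a + 1 := by linarith
    refine ⟨ρ / 4 / (b - a + 1), by positivity, ?_⟩
    rw [div_mul_eq_mul_div, div_le_iff₀ hp]
    nlinarith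
  obtain ⟨φ, hφ, hφ'⟩ := exists_aff (a := a) (b := b) (l := t) (m := a - t * a) (α := a - ρ)
    (β := b + ρ) ht hab (by linarith) (by linarith) (by linarith) (by linarith)
  have h1 : φ * g * φ⁻¹ ∈ GI (a - ρ / 4) (a + ρ / 4) := by
    have e1 : ((φ * g * φ⁻¹ : Gc) : Pm) = aff t (a - t * a) * g * (aff t (a - t * a))⁻¹ :=
      conj_eq_of_agree hg' fun x hx hx' => by rw [hφ' x hx hx', aff_apply ht.ne']
    rw [mem_GI, e1]
    exact (hg'.conj_aff ht _).mono (by linarith) (by linarith)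
  have h2 : GI (a - 3 * (ρ / 4)) (a + 3 * (ρ / 4)) ≤ GI (a - ρ) (b + ρ) := fun v hv =>
    mem_GI.2 ((mem_GI.1 hv).mono (by linarith) (by linarith))
  have h3 := Subgroup.commutator_mono h2 h2 (comm1_small h (l := ρ / 4) (by linarith) a h1)
  have h4 : ⁅φ, g⁆ ∈ ⁅GI (a - ρ) (b + ρ), GI (a - ρ) (b + ρ)⁆ :=
    Subgroup.commutator_mem_commutator (mem_GI.2 hφ)
      (mem_GI.2 (hg'.mono (by linarith) (by linarith)))
  have h5 : g = ⁅φ, g⁆⁻¹ * (φ * g * φ⁻¹) := by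
    rw [commutatorElement_def]; group
  rw [h5]
  exact mul_mem (inv_mem h4) h3

variable {E : Type*} [Group E] {π : E →* Gc} {s : Gc → E}

/-- for fixed `e'` the map `u ↦ ⁅s u, e'⁆` on `GI (a - ρ) (b + ρ)` is multiplicative with central
values, hence kills commutators -/
theorem comm_lift (h : VSpt n₀) (hc : ∀ e, π e = 1 → e ∈ Subgroup.center E)
    (hs : ∀ g, π (s g) = g) {a b a' b' : ℝ} (hb : b < a') {e e' : E} (he : π e ∈ GI a b)
    (he' : π e' ∈ GI a' b') : e * e' = e' * e := by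
  have hρ : 0 < a' - b := by linarith
  have hcomm : ∀ u ∈ GI (a - (a' - b)) (b + (a' - b)), π (e' * s u * e'⁻¹) = π (s u) := by
    intro u hu
    have h1 : (u : Pm) * (π e' : Pm) = (π e' : Pm) * u :=
      commute_of_fix (s := Ici a') (fun x hx => mem_GI.1 hu x (Or.inr (by
        have : a' ≤ x := hx
        linarith))) fun x hx => mem_GI.1 he' x (Or.inl (not_le.1 hx).le)
    have h2 : u * π e' = π e' * u := Subtype.ext h1
    rw [map_mul, map_mul, map_inv, hs, ← h2, mul_inv_cancel_right]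
  have hle : ⁅GI (a - (a' - b)) (b + (a' - b)), GI (a - (a' - b)) (b + (a' - b))⁆ ≤
      (Subgroup.centralizer {e'}).map π := by
    refine Subgroup.commutator_le.2 fun u hu v hv => ⟨⁅s u, s v⁆, ?_, ?_⟩
    · refine Subgroup.mem_centralizer_singleton_iff.2 ?_
      have h1 := comm_congr_of_ker π hc (hcomm u hu) (hcomm v hv)
      have h2 : ⁅e' * s u * e'⁻¹, e' * s v * e'⁻¹⁆ = e' * ⁅s u, s v⁆ * e'⁻¹ := by
        simp only [commutatorElement_def]; group
      rw [h2] at h1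
      exact (mul_inv_eq_iff_eq_mul.1 h1).symm
    · rw [map_commutatorElement, hs, hs]
  obtain ⟨c, hc1, hc2⟩ := hle (perf' h hρ he)
  have h1 : c * e' = e' * c := Subgroup.mem_centralizer_singleton_iff.1 hc1
  have h2 := Subgroup.mem_center_iff.1 (hc (c⁻¹ * e) (by simp [hc2])) e'
  calc e * e' = c * ((c⁻¹ * e) * e') := by group
    _ = c * (e' * (c⁻¹ * e)) := by rw [h2]
    _ = (c * e') * (c⁻¹ * e) := by group
    _ = e' * e := by rw [h1]; group

theorem comm2_aux1 {G : Type*} [Group G] {p p' r r' : G} (h1 : Commute p r) (h2 : Commute p r')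
    (h3 : Commute p' r) (h4 : Commute p' r') : ⁅p * r, p' * r'⁆ = ⁅p, p'⁆ * ⁅r, r'⁆ := by
  have e1 : r * p' = p' * r := h3.eq.symm
  have e2 : r * p⁻¹ = p⁻¹ * r := h1.inv_left.eq.symm
  have e3 : r' * p⁻¹ = p⁻¹ * r' := h2.inv_left.eq.symm
  have e4 : r⁻¹ * p⁻¹ = p⁻¹ * r⁻¹ := h1.inv_inv.eq.symm
  have e5 : ⁅r, r'⁆ * p'⁻¹ = p'⁻¹ * ⁅r, r'⁆ := by
    rw [commutatorElement_def]
    exact (((h3.mul_right h4).mul_right h3.inv_right).mul_right h4.inv_right).inv_left.eq.symm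
  calc ⁅p * r, p' * r'⁆ = p * (r * p') * r' * (r⁻¹ * p⁻¹) * r'⁻¹ * p'⁻¹ := by
        rw [commutatorElement_def]; group
    _ = p * p' * r * (r' * p⁻¹) * r⁻¹ * r'⁻¹ * p'⁻¹ := by rw [e1, e4]; group
    _ = p * p' * (r * p⁻¹) * r' * r⁻¹ * r'⁻¹ * p'⁻¹ := by rw [e3]; group
    _ = p * p' * p⁻¹ * (⁅r, r'⁆ * p'⁻¹) := by rw [e2, commutatorElement_def]; group
    _ = ⁅p, p'⁆ * ⁅r, r'⁆ := by rw [e5, commutatorElement_def p p']; group

theorem comm2_aux2 {a b : ℝ} {x : List (Gc × Gc)} (hx : ∀ p ∈ x, p.1 ∈ GI a b ∧ p.2 ∈ GI a b) :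
    Phi x ∈ GI a b := by
  induction x with
  | nil => simp
  | cons p x ih =>
    have h1 := hx p (by simp)
    rw [Phi_cons, commutatorElement_def]
    exact mul_mem (mul_mem (mul_mem (mul_mem h1.1 h1.2) (inv_mem h1.1)) (inv_mem h1.2))
      (ih fun p' hp' => hx p' (by simp [hp']))

theorem comm2_aux3 (s : Gc → E) (p : Gc × Gc) (x : List (Gc × Gc)) :
    PhiL s (p :: x) = ⁅s p.1, s p.2⁆ * PhiL s x := by
  simp [PhiL]

theorem split (h : VSpt n₀) (hc : ∀ e, π e = 1 → e ∈ Subgroup.center E)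
    (hs : ∀ g, π (s g) = g) {a b a' b' : ℝ} (hb : b < a') {n : ℕ} (x y : Fin n → Gc × Gc)
    (hx : ∀ k, (x k).1 ∈ GI a b ∧ (x k).2 ∈ GI a b)
    (hy : ∀ k, (y k).1 ∈ GI a' b' ∧ (y k).2 ∈ GI a' b') :
    PhiL s (List.ofFn fun k => x k * y k) = PhiL s (List.ofFn x) * PhiL s (List.ofFn y) := by
  induction n with
  | zero => simp [PhiL]
  | succ n ih =>
    have hcm : ∀ {u v : Gc}, u ∈ GI a b → v ∈ GI a' b' → Commute (s u) (s v) := fun hu hv =>
      comm_lift h hc hs hb (by rwa [hs]) (by rwa [hs])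
    rw [List.ofFn_succ, List.ofFn_succ, List.ofFn_succ, comm2_aux3, comm2_aux3, comm2_aux3,
      ih (fun k => x k.succ) (fun k => y k.succ) (fun k => hx _) fun k => hy _]
    have h1 : ⁅s (x 0 * y 0).1, s (x 0 * y 0).2⁆ =
        ⁅s (x 0).1, s (x 0).2⁆ * ⁅s (y 0).1, s (y 0).2⁆ := by
      rw [← comm2_aux1 (hcm (hx 0).1 (hy 0).1) (hcm (hx 0).1 (hy 0).2) (hcm (hx 0).2 (hy 0).1)
        (hcm (hx 0).2 (hy 0).2)]
      exact comm_congr_of_ker π hc (by simp [hs]) (by simp [hs])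
    have h2 : PhiL s (List.ofFn fun k : Fin n => x k.succ) * ⁅s (y 0).1, s (y 0).2⁆ =
        ⁅s (y 0).1, s (y 0).2⁆ * PhiL s (List.ofFn fun k : Fin n => x k.succ) := by
      refine comm_lift (a := a) (b' := b') h hc hs hb ?_ ?_
      · rw [map_PhiL π hs]
        refine comm2_aux2 fun p hp => ?_
        obtain ⟨k, rfl⟩ := List.mem_ofFn.1 hp
        exact hx _
      · rw [map_commutatorElement, hs, hs, commutatorElement_def]
        exact mul_mem (mul_mem (mul_mem (hy 0).1 (hy 0).2) (inv_mem (hy 0).1)) (inv_mem (hy 0).2)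
    rw [h1, mul_assoc, ← mul_assoc ⁅s (y 0).1, s (y 0).2⁆, ← h2]
    simp only [mul_assoc]

theorem comm2_mono {a b : ℕ → ℝ} (hab : ∀ j, a j ≤ b j) (hlt : ∀ j, b j < a (j + 1)) {i j : ℕ}
    (hij : i < j) : b i < a j := by
  induction j, hij using Nat.le_induction with
  | base => exact hlt i
  | succ j _ ih => exact (ih.trans_le (hab j)).trans (hlt j)

theorem comm2_off {a b : ℝ} {e : Pm} (h : Fix a b e) {x : ℝ} (hx : x ∉ Icc a b) : e x = x := by
  refine h x ?_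
  by_contra hc
  push Not at hc
  exact hx ⟨hc.1.le, hc.2.le⟩

/-- removing the last piece -/
theorem comm2_cut {a b : ℕ → ℝ} (hab : ∀ j, a j ≤ b j) (hlt : ∀ j, b j < a (j + 1)) {L : ℕ}
    {c : ℝ} (hc : ∀ j < L, b j ≤ c) {X : Gc} {u : Fin (L + 1) → Gc}
    (hu : ∀ j : Fin (L + 1), u j ∈ GI (a j) (b j))
    (hon : ∀ j : Fin (L + 1), ∀ x ∈ Icc (a j) (b j), (X : Pm) x = (u j : Pm) x)
    (hoff : ∀ x, (∀ j : Fin (L + 1), x ∉ Icc (a j) (b j)) → (X : Pm) x = x) :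
    (∀ j : Fin L, ∀ x ∈ Icc (a j) (b j),
      ((X * (u (Fin.last L))⁻¹ : Gc) : Pm) x = (u j.castSucc : Pm) x) ∧
    (∀ x, (∀ j : Fin L, x ∉ Icc (a j) (b j)) → ((X * (u (Fin.last L))⁻¹ : Gc) : Pm) x = x) ∧
    X * (u (Fin.last L))⁻¹ ∈ GI (a 0) c := by
  have hl : Fix (a L) (b L) ((u (Fin.last L) : Pm))⁻¹ := (FixS _ _).inv_mem (hu (Fin.last L))
  have e : ∀ x, ((X * (u (Fin.last L))⁻¹ : Gc) : Pm) x = (X : Pm) ((u (Fin.last L) : Pm)⁻¹ x) :=
    fun x => rfl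
  have h1 : ∀ j : Fin L, ∀ x ∈ Icc (a j) (b j),
      ((X * (u (Fin.last L))⁻¹ : Gc) : Pm) x = (u j.castSucc : Pm) x := by
    intro j x hx
    rw [e, hl x (Or.inl (hx.2.trans (comm2_mono hab hlt j.2).le))]
    exact hon j.castSucc x hx
  have h2 : ∀ x, (∀ j : Fin L, x ∉ Icc (a j) (b j)) →
      ((X * (u (Fin.last L))⁻¹ : Gc) : Pm) x = x := by
    intro x hx
    rw [e]
    by_cases hm : (u (Fin.last L) : Pm)⁻¹ x ∈ Icc (a L) (b L)
    · rw [hon (Fin.last L) _ hm]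
      simp
    · have h3 : (u (Fin.last L) : Pm)⁻¹ x = x :=
        ((u (Fin.last L) : Pm)⁻¹).injective (comm2_off hl hm)
      rw [h3] at hm ⊢
      exact hoff x fun j => Fin.lastCases hm (fun j => hx j) j
  refine ⟨h1, h2, fun x hx => ?_⟩
  by_cases hm : ∀ j : Fin L, x ∉ Icc (a j) (b j)
  · exact h2 x hm
  · push Not at hm
    obtain ⟨j, hj⟩ := hm
    have h3 : a 0 ≤ a j := by
      rcases Nat.eq_zero_or_pos j with h0 | h0
      · exact le_of_eq (congrArg a h0.symm)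
      · exact (hab 0).trans (comm2_mono hab hlt h0).le
    exact (h1 j x hj).trans
      (hu j.castSucc x (hx.imp (fun hx => hx.trans h3) fun hx => (hc j j.2).trans hx))

/-- induction on `L`, removing the last piece -/
theorem pieces (h : VSpt n₀) (hc : ∀ e, π e = 1 → e ∈ Subgroup.center E)
    (hs : ∀ g, π (s g) = g) {a b : ℕ → ℝ} (hab : ∀ j, a j ≤ b j) (hlt : ∀ j, b j < a (j + 1))
    {n L : ℕ} (X : Fin n → Gc × Gc) (u : Fin L → Fin n → Gc × Gc)
    (hu : ∀ (j : Fin L) k, (u j k).1 ∈ GI (a j) (b j) ∧ (u j k).2 ∈ GI (a j) (b j))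
    (hon : ∀ (j : Fin L) k, ∀ x ∈ Icc (a j) (b j),
      ((X k).1 : Pm) x = ((u j k).1 : Pm) x ∧ ((X k).2 : Pm) x = ((u j k).2 : Pm) x)
    (hoff : ∀ k x, (∀ j : Fin L, x ∉ Icc (a j) (b j)) →
      ((X k).1 : Pm) x = x ∧ ((X k).2 : Pm) x = x) :
    PhiL s (List.ofFn X) = (List.ofFn fun j => PhiL s (List.ofFn (u j))).prod := by
  induction L generalizing X with
  | zero =>
    have h1 : X = fun _ => (1, 1) := by
      funext k
      refine Prod.ext (Subtype.ext (Equiv.ext fun x => ?_)) (Subtype.ext (Equiv.ext fun x => ?_))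
      exacts [(hoff k x fun j => j.elim0).1, (hoff k x fun j => j.elim0).2]
    rw [h1, List.ofFn_const, PhiL_replicate]
    simp
  | succ L ih =>
    obtain ⟨c, hc1, hc2⟩ : ∃ c, (∀ j < L, b j ≤ c) ∧ c < a L := by
      cases L with
      | zero => exact ⟨a 0 - 1, fun j hj => absurd hj (Nat.not_lt_zero j), sub_one_lt _⟩
      | succ L =>
        refine ⟨b L, fun j hj => ?_, hlt L⟩
        rcases (Nat.lt_succ_iff.1 hj).eq_or_lt with h0 | h0
        · rw [h0]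
        · exact (comm2_mono hab hlt h0).le.trans (hab L)
    have k1 := fun k => comm2_cut hab hlt hc1 (X := (X k).1) (u := fun j => (u j k).1)
      (fun j => (hu j k).1) (fun j x hx => (hon j k x hx).1) fun x hx => (hoff k x hx).1
    have k2 := fun k => comm2_cut hab hlt hc1 (X := (X k).2) (u := fun j => (u j k).2)
      (fun j => (hu j k).2) (fun j x hx => (hon j k x hx).2) fun x hx => (hoff k x hx).2
    have h1 := split h hc hs hc2 (fun k => X k * (u (Fin.last L) k)⁻¹) (u (Fin.last L))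
      (fun k => ⟨(k1 k).2.2, (k2 k).2.2⟩) fun k => hu (Fin.last L) k
    simp only [inv_mul_cancel_right] at h1
    rw [h1, ih (fun k => X k * (u (Fin.last L) k)⁻¹) (fun j => u j.castSucc)
      (fun j k => hu j.castSucc k) (fun j k x hx => ⟨(k1 k).1 j x hx, (k2 k).1 j x hx⟩)
      (fun k x hx => ⟨(k1 k).2.1 x hx, (k2 k).2.1 x hx⟩), List.ofFn_succ_last, List.prod_append]
    simp

end Pool.Agent.P.MP_7bb7e1_gt
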