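import Pool.Agent.P.MP_7bb7e1_gt.LK

/-! Composition estimates for `x ↦ f (x + g x)`. -/

namespace Pool.Agent.P.MP_7bb7e1_gt

open scoped ContDiff

variable {f g : ℝ → ℝ}

theorem CompL.hasDerivAt_u (hg : Sm g) (x : ℝ) :
    HasDerivAt (fun x => x + g x) (1 + deriv g x) x :=
  (hasDerivAt_id x).add (hg.differentiable x).hasDerivAt

theorem CompL.hasDerivAt_comp (hf : Sm f) (hg : Sm g) (x : ℝ) :
    HasDerivAt (fun x => f (x + g x)) (deriv f (x + g x) * (1 + deriv g x)) x :=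
  (hf.differentiable _).hasDerivAt.comp x (CompL.hasDerivAt_u hg x)

theorem deriv_comp_id_add (hf : Sm f) (hg : Sm g) :
    deriv (fun x => f (x + g x)) = fun x => deriv f (x + g x) * (1 + deriv g x) :=
  funext fun x => (CompL.hasDerivAt_comp hf hg x).deriv

theorem CompL.sm_u (hg : Sm g) : Sm fun x => 1 + deriv g x := (sm_const 1).add hg.deriv

theorem Sm.comp (hf : Sm f) (hg : Sm g) : Sm fun x => f (x + g x) := by
  have hu : ContDiff ℝ ∞ fun x => x + g x := contDiff_id.add hg.1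
  refine ⟨hf.1.comp hu, fun r => ⟨∑ c : OrderedFinpartition r, sn c.length f *
    ∏ j, sn (c.partSize j - 1) fun x => 1 + _root_.deriv g x, fun x => ?_⟩⟩
  have h := iteratedDeriv_comp_eq_sum_orderedFinpartition (g := f) (f := fun x => x + g x)
    (x := x) (i := r) hf.1.contDiffAt hu.contDiffAt (by exact_mod_cast le_top)
  have e : (fun x => f (x + g x)) = f ∘ fun x => x + g x := rfl
  rw [e, h]
  refine (Finset.abs_sum_le_sum_abs _ _).trans (Finset.sum_le_sum fun c _ => ?_)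
  rw [abs_mul, Finset.abs_prod]
  refine mul_le_mul (le_sn hf _ _) (Finset.prod_le_prod (fun _ _ => abs_nonneg _) fun j _ => ?_)
    (Finset.prod_nonneg fun _ _ => abs_nonneg _) (sn_nonneg _ _)
  obtain ⟨k, hk⟩ : ∃ k, c.partSize j = k + 1 := ⟨_, (Nat.sub_add_cancel (c.partSize_pos j)).symm⟩
  have e2 : _root_.deriv (fun x => x + g x) = fun x => 1 + _root_.deriv g x :=
    funext fun x => (CompL.hasDerivAt_u hg x).deriv
  rw [hk, iteratedDeriv_succ', e2, Nat.add_sub_cancel]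
  exact le_sn (CompL.sm_u hg) k x

theorem sn_comp_zero (hf : Sm f) (g : ℝ → ℝ) : sn 0 (fun x => f (x + g x)) ≤ sn 0 f :=
  sn_le fun x => by simpa using abs_le_sn_zero hf _

theorem CompL.abs_u (hg : Sm g) (x : ℝ) : |1 + deriv g x| ≤ 1 + sn 1 g :=
  (abs_add_le _ _).trans (by rw [abs_one]; linarith [abs_deriv_le_sn_one hg x])

theorem sn_comp_one (hf : Sm f) (hg : Sm g) :
    sn 1 (fun x => f (x + g x)) ≤ sn 1 f * (1 + sn 1 g) :=
  sn_le fun x => by
    rw [iteratedDeriv_one, deriv_comp_id_add hf hg, abs_mul]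
    exact mul_le_mul (abs_deriv_le_sn_one hf _) (CompL.abs_u hg x) (abs_nonneg _) (sn_nonneg _ _)

namespace CompL

/-- weighted bounds for the first `n` derivatives -/
def Wt (l : ℝ) (n w : ℕ) (A : ℝ) (h : ℝ → ℝ) : Prop :=
  Sm h ∧ ∀ s, s ≤ n → sn s h ≤ A * l ^ (w + s)

variable {l A B : ℝ} {n w v : ℕ} {h k : ℝ → ℝ}

theorem Wt.mono (H : Wt l n w A h) {m : ℕ} (hm : m ≤ n) : Wt l m w A h :=
  ⟨H.1, fun s hs => H.2 s (hs.trans hm)⟩

theorem Wt.le (H : Wt l n w A h) (hl : 0 < l) (hA : A ≤ B) : Wt l n w B h :=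
  ⟨H.1, fun s hs => (H.2 s hs).trans (mul_le_mul_of_nonneg_right hA (by positivity))⟩

theorem Wt.nonneg (H : Wt l n w A h) (hl : 0 < l) : 0 ≤ A :=
  nonneg_of_mul_nonneg_left ((sn_nonneg _ _).trans (H.2 0 n.zero_le)) (by positivity)

theorem Wt.add (H : Wt l n w A h) (K : Wt l n w B k) :
    Wt l n w (A + B) fun x => h x + k x :=
  ⟨H.1.add K.1, fun s hs => (sn_add_le H.1 K.1 s).trans (by linarith [H.2 s hs, K.2 s hs])⟩

theorem Wt.mul (H : Wt l n w A h) (K : Wt l n v B k) (hl : 0 < l) :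
    Wt l n (w + v) (2 ^ n * (A * B)) fun x => h x * k x := by
  refine ⟨H.1.mul K.1, fun s hs => (sn_mul_le H.1 K.1 s).trans ?_⟩
  have hA := H.nonneg hl
  have hB := K.nonneg hl
  have h1 : ∀ j ∈ Finset.range (s + 1), (s.choose j : ℝ) * (sn j h * sn (s - j) k) ≤
      (s.choose j : ℝ) * (A * B * l ^ (w + v + s)) := by
    intro j hj
    have hj' : j ≤ s := Nat.lt_succ_iff.1 (Finset.mem_range.1 hj)
    refine mul_le_mul_of_nonneg_left ?_ (Nat.cast_nonneg _)
    refine (mul_le_mul (H.2 j (hj'.trans hs)) (K.2 (s - j) (by omega)) (sn_nonneg _ _)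
      (by positivity)).trans (le_of_eq ?_)
    rw [show w + v + s = (w + j) + (v + (s - j)) by omega, pow_add l (w + j)]
    ring
  refine (Finset.sum_le_sum h1).trans ?_
  rw [← Finset.sum_mul, ← Nat.cast_sum, Nat.sum_range_choose, mul_assoc (2 ^ n : ℝ)]
  refine mul_le_mul_of_nonneg_right ?_ (by positivity)
  push_cast
  exact pow_le_pow_right₀ one_le_two hs

theorem Wt.iter {m : ℕ} (H : Wt l (m + n) w A h) : Wt l n (w + m) A (iteratedDeriv m h) :=
  ⟨H.1.iteratedDeriv m, fun s hs => by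
    rw [sn_iteratedDeriv, show w + m + s = w + (s + m) by omega]
    exact H.2 _ (by omega)⟩

theorem Wt.deriv (H : Wt l (n + 1) w A h) : Wt l n (w + 1) A (deriv h) :=
  ⟨H.1.deriv, fun s hs => by
    rw [sn_deriv, show w + 1 + s = w + (s + 1) by omega]
    exact H.2 _ (by omega)⟩

theorem wt_const {c : ℝ} (hc : 0 ≤ c) (hl : 0 < l) : Wt l n 0 c fun _ => c :=
  ⟨sm_const c, fun s _ => by
    cases s with
    | zero => simp [sn_const_zero, abs_of_nonneg hc]
    | succ s => rw [sn_const_succ]; positivity⟩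

theorem Wt.pow (H : Wt l n 0 A h) (hl : 0 < l) (p : ℕ) :
    Wt l n 0 ((2 ^ n * A) ^ p) fun x => h x ^ p := by
  induction p with
  | zero => simpa using wt_const (n := n) zero_le_one hl
  | succ p ih =>
    have := ih.mul H hl
    simp only [← pow_succ, add_zero] at this
    exact this.le hl (le_of_eq (by ring))

theorem wt_comp (U : ℝ) (n : ℕ) : ∃ C : ℝ, 1 ≤ C ∧ ∀ (l A : ℝ) (w : ℕ) (F g : ℝ → ℝ), 0 < l →
    Sm g → (∀ s, s < n → sn s (fun x => 1 + deriv g x) ≤ U * l ^ s) → Wt l n w A F →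
      Wt l n w (C * A) fun x => F (x + g x) := by
  induction n with
  | zero =>
    refine ⟨1, le_rfl, fun l A w F g _ hg _ H => ⟨H.1.comp hg, fun s hs => ?_⟩⟩
    obtain rfl := Nat.le_zero.1 hs
    rw [one_mul]
    exact (sn_comp_zero H.1 g).trans (H.2 0 le_rfl)
  | succ n ih =>
    obtain ⟨C, hC, ih⟩ := ih
    have h2 : (1 : ℝ) ≤ 2 ^ n := one_le_pow₀ one_le_two
    have h3 : 1 ≤ 2 ^ n * (C * max U 1) :=
      one_le_mul_of_one_le_of_one_le h2 (one_le_mul_of_one_le_of_one_le hC (le_max_right _ _))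
    refine ⟨2 ^ n * (C * max U 1), h3, fun l A w F g hl hg hU H => ⟨H.1.comp hg, fun s hs => ?_⟩⟩
    have hA := H.nonneg hl
    cases s with
    | zero =>
      refine (sn_comp_zero H.1 g).trans ((H.2 0 hs).trans ?_)
      exact mul_le_mul_of_nonneg_right (le_mul_of_one_le_left hA h3) (by positivity)
    | succ s =>
      have hu : Wt l n 0 (max U 1) fun x => 1 + deriv g x :=
        ⟨sm_u hg, fun s hs => (hU s (by omega)).trans (by
          rw [zero_add]
          exact mul_le_mul_of_nonneg_right (le_max_left _ _) (by positivity))⟩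
      have := ((ih l A (w + 1) _ g hl hg (fun s hs => hU s (by omega)) H.deriv).mul hu hl).2 s
        (by omega)
      rw [← sn_deriv, deriv_comp_id_add H.1 hg]
      refine this.trans (le_of_eq ?_)
      rw [show w + 1 + 0 + s = w + (s + 1) by omega]
      ring

/-- the remainder in the chain rule of order `m + 2` -/
noncomputable def Rm (f g : ℝ → ℝ) (m : ℕ) : ℝ → ℝ := fun x =>
  iteratedDeriv (m + 2) (fun x => f (x + g x)) x -
    iteratedDeriv (m + 2) f (x + g x) * (1 + deriv g x) ^ (m + 2) -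
    deriv f (x + g x) * iteratedDeriv (m + 2) g x

theorem Rm_zero (hf : Sm f) (hg : Sm g) : Rm f g 0 = fun _ => 0 := by
  funext x
  have h := ((hasDerivAt_comp hf.deriv hg x).mul
    ((hg.deriv.differentiable x).hasDerivAt.const_add 1)).deriv
  have e : ∀ F : ℝ → ℝ, iteratedDeriv (0 + 2) F = deriv (deriv F) := fun F => by
    rw [zero_add, iteratedDeriv_succ, iteratedDeriv_one]
  simp only [Rm, e]
  rw [deriv_comp_id_add hf hg]
  have e2 : (fun x => deriv f (x + g x) * (1 + deriv g x)) =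
      (fun x => deriv f (x + g x)) * fun x => 1 + deriv g x := rfl
  rw [e2, h]
  ring

theorem Rm_succ (hf : Sm f) (hg : Sm g) (m : ℕ) : Rm f g (m + 1) = fun x => deriv (Rm f g m) x +
    (((m : ℝ) + 2) * (iteratedDeriv m (iteratedDeriv 2 f) (x + g x) *
      ((1 + deriv g x) ^ (m + 1) * iteratedDeriv 2 g x)) +
    iteratedDeriv 2 f (x + g x) * (1 + deriv g x) * iteratedDeriv m (iteratedDeriv 2 g) x) := by
  funext x
  have e : ∀ F : ℝ → ℝ, iteratedDeriv 2 F = deriv (deriv F) := fun F => by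
    rw [iteratedDeriv_succ, iteratedDeriv_one]
  have e1 : ∀ F : ℝ → ℝ, iteratedDeriv m (iteratedDeriv 2 F) = iteratedDeriv (m + 2) F := fun F => by
    rw [e, iteratedDeriv_succ', iteratedDeriv_succ']
  have h1 := (((hf.comp hg).iteratedDeriv (m + 2)).differentiable x).hasDerivAt
  have h2 := (hasDerivAt_comp (hf.iteratedDeriv (m + 2)) hg x).mul
    (((hg.deriv.differentiable x).hasDerivAt.const_add 1).pow (m + 2))
  have h3 := (hasDerivAt_comp hf.deriv hg x).mul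
    ((hg.iteratedDeriv (m + 2)).differentiable x).hasDerivAt
  have h : deriv (Rm f g m) x = _ := ((h1.sub h2).sub h3).deriv
  rw [h, e1, e1, e f, e g]
  simp only [Rm, Pi.pow_apply]
  rw [show m + 1 + 2 = m + 2 + 1 from rfl, iteratedDeriv_succ (n := m + 2),
    iteratedDeriv_succ (n := m + 2), iteratedDeriv_succ (n := m + 2),
    show m + 2 - 1 = m + 1 from rfl]
  push_cast
  ring

theorem extra (U : ℝ) (m n : ℕ) : ∃ C : ℝ, 0 ≤ C ∧ ∀ (l a b : ℝ) (f g : ℝ → ℝ), 0 < l → Sm g →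
    Wt l (m + n) 0 a (iteratedDeriv 2 f) → Wt l (m + n) 0 b (iteratedDeriv 2 g) →
    Wt l (m + n) 0 U (fun x => 1 + deriv g x) → Wt l n m (C * (a * b)) fun x =>
      (((m : ℝ) + 2) * (iteratedDeriv m (iteratedDeriv 2 f) (x + g x) *
        ((1 + deriv g x) ^ (m + 1) * iteratedDeriv 2 g x)) +
      iteratedDeriv 2 f (x + g x) * (1 + deriv g x) * iteratedDeriv m (iteratedDeriv 2 g) x) := by
  obtain ⟨C, hC, hc⟩ := wt_comp U n
  refine ⟨2 ^ n * ((m + 2) * (2 ^ n * (C * (2 ^ n * (2 ^ n * |U|) ^ (m + 1))))) +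
    2 ^ n * (2 ^ n * (C * |U|)), by positivity, fun l a b f g hl hg Hf Hg Hu => ?_⟩
  have Hu' := Hu.mono (Nat.le_add_left n m)
  rw [abs_of_nonneg (Hu.nonneg hl)]
  have hU : ∀ s, s < n → sn s (fun x => 1 + deriv g x) ≤ U * l ^ s := fun s hs => by
    simpa using Hu'.2 s hs.le
  have a1 := hc l a _ _ g hl hg hU Hf.iter
  have a2 := (wt_const (c := (m : ℝ) + 2) (by positivity) hl).mul
    (a1.mul ((Hu'.pow hl (m + 1)).mul (Hg.mono (Nat.le_add_left n m)) hl) hl) hl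
  have a3 := ((hc l a _ _ g hl hg hU (Hf.mono (Nat.le_add_left n m))).mul Hu' hl).mul Hg.iter hl
  simp only [zero_add, add_zero] at a2 a3
  exact (a2.add a3).le hl (le_of_eq (by ring))

theorem rem (U : ℝ) (m : ℕ) : ∀ n : ℕ, ∃ C : ℝ, 0 ≤ C ∧ ∀ (l a b : ℝ) (f g : ℝ → ℝ), 0 < l →
    Sm f → Sm g → Wt l (m + n) 0 a (iteratedDeriv 2 f) → Wt l (m + n) 0 b (iteratedDeriv 2 g) →
    Wt l (m + n) 0 U (fun x => 1 + deriv g x) → Wt l n m (C * (a * b)) (Rm f g (m + 1)) := by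
  induction m with
  | zero =>
    intro n
    obtain ⟨C, hC, h⟩ := extra U 0 n
    refine ⟨C, hC, fun l a b f g hl hf hg Hf Hg Hu => ?_⟩
    have := h l a b f g hl hg Hf Hg Hu
    rw [Rm_succ hf hg, Rm_zero hf hg]
    simpa using this
  | succ m ih =>
    intro n
    obtain ⟨C, hC, h⟩ := extra U (m + 1) n
    obtain ⟨C', hC', h'⟩ := ih (n + 1)
    refine ⟨C' + C, by positivity, fun l a b f g hl hf hg Hf Hg Hu => ?_⟩
    have e : m + (n + 1) = m + 1 + n := by omega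
    rw [Rm_succ hf hg]
    exact ((h' l a b f g hl hf hg (e ▸ Hf) (e ▸ Hg) (e ▸ Hu)).deriv.add
      (h l a b f g hl hg Hf Hg Hu)).le hl (le_of_eq (by ring))

theorem main_le (hf : Sm f) (hg : Sm g) (m : ℕ) {B : ℝ} (h : ∀ x, |Rm f g m x| ≤ B) :
    sn (m + 2) (fun x => f (x + g x)) ≤
      sn (m + 2) f * (1 + sn 1 g) ^ (m + 2) + sn 1 f * sn (m + 2) g + B := by
  refine sn_le fun x => ?_
  have a1 : |iteratedDeriv (m + 2) f (x + g x) * (1 + deriv g x) ^ (m + 2)| ≤
      sn (m + 2) f * (1 + sn 1 g) ^ (m + 2) := by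
    rw [abs_mul, abs_pow]
    exact mul_le_mul (le_sn hf _ _) (pow_le_pow_left₀ (abs_nonneg _) (abs_u hg x) _)
      (by positivity) (sn_nonneg _ _)
  have a2 : |deriv f (x + g x) * iteratedDeriv (m + 2) g x| ≤ sn 1 f * sn (m + 2) g := by
    rw [abs_mul]
    exact mul_le_mul (abs_deriv_le_sn_one hf _) (le_sn hg _ _) (abs_nonneg _) (sn_nonneg _ _)
  have a3 := h x
  unfold Rm at a3
  rw [abs_le] at a1 a2 a3 ⊢
  constructor <;> linarith [a1.1, a1.2, a2.1, a2.2, a3.1, a3.2]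

theorem ratio (hf : Sm f) (N : ℕ) {T : ℝ} (hT : sn N f / sn 0 f ≤ T) : sn N f ≤ sn 0 f * T := by
  rcases (sn_nonneg 0 f).eq_or_lt with h | h
  · have e : f = fun _ => 0 := funext fun x =>
      abs_nonpos_iff.1 ((abs_le_sn_zero hf x).trans h.ge)
    rw [← h, zero_mul, e, sn_zero_fun]
  · rwa [div_le_iff₀' h] at hT

theorem exists_scale (hf : Sm f) (hg : Sm g) (N : ℕ) : ∃ l : ℝ, 1 ≤ l ∧
    sn N f ≤ sn 0 f * l ^ N ∧ sn N g ≤ sn 0 g * l ^ N ∧
      sn 0 f * sn 0 g * l ^ N ≤ sn 0 f * sn 0 g + sn N f * sn 0 g + sn 0 f * sn N g := by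
  have a0 := sn_nonneg 0 f
  have b0 := sn_nonneg 0 g
  have a1 := sn_nonneg N f
  have b1 := sn_nonneg N g
  rcases Nat.eq_zero_or_pos N with rfl | hN
  · exact ⟨1, le_rfl, by simp, by simp, by nlinarith [mul_nonneg a0 b0]⟩
  have p1 : 0 ≤ sn N f / sn 0 f := by positivity
  have p2 : 0 ≤ sn N g / sn 0 g := by positivity
  set T : ℝ := 1 + sn N f / sn 0 f + sn N g / sn 0 g with hT
  have hT1 : 1 ≤ T := by linarith
  have e : (T ^ ((N : ℝ)⁻¹)) ^ N = T := Real.rpow_inv_natCast_pow (by linarith) hN.ne'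
  refine ⟨T ^ ((N : ℝ)⁻¹), Real.one_le_rpow hT1 (by positivity), ?_, ?_, ?_⟩ <;> rw [e]
  · exact ratio hf N (by linarith)
  · exact ratio hg N (by linarith)
  · have q : ∀ x y : ℝ, 0 ≤ y → x * (y / x) ≤ y := fun x y hy => by
      rcases eq_or_ne x 0 with rfl | hx
      · simpa using hy
      · rw [mul_div_cancel₀ _ hx]
    have q1 := q (sn 0 f) _ a1
    have q2 := q (sn 0 g) _ b1
    have q3 := mul_le_mul_of_nonneg_right q1 b0
    have q4 := mul_le_mul_of_nonneg_left q2 a0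
    rw [hT]
    nlinarith

theorem t3_one (r : ℕ) : ∃ C : ℝ, 0 ≤ C ∧ (2 ≤ r → ∀ f g : ℝ → ℝ, Sm f → Sm g →
    sn 1 g ≤ 1 → sn 2 g ≤ 1 → sn r (fun x => f (x + g x)) ≤
      sn r f * (1 + sn 1 g) ^ r + sn 1 f * sn r g +
        C * (md r f * sn 2 g + sn 2 f * md r g)) := by
  match r with
  | 0 => exact ⟨0, le_rfl, fun h => absurd h (by omega)⟩
  | 1 => exact ⟨0, le_rfl, fun h => absurd h (by omega)⟩
  | 2 =>
    refine ⟨0, le_rfl, fun _ f g hf hg _ _ => ?_⟩
    rw [zero_mul]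
    exact main_le hf hg 0 fun x => by rw [Rm_zero hf hg, abs_zero]
  | N + 3 =>
    obtain ⟨K, hK, hlk⟩ := lk N
    obtain ⟨C, hC, h⟩ := rem (K + 2) N 0
    refine ⟨2 * (C * K ^ 2), by positivity, fun _ f g hf hg g1 g2 => main_le hf hg (N + 1) ?_⟩
    obtain ⟨l, hl, s1, s2, s3⟩ := exists_scale (hf.iteratedDeriv 2) (hg.iteratedDeriv 2) N
    have hl0 : 0 < l := by linarith
    have Hf : Wt l (N + 0) 0 (K * sn 0 (iteratedDeriv 2 f)) (iteratedDeriv 2 f) :=
      ⟨hf.iteratedDeriv 2, fun s hs => by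
        rw [zero_add]
        exact hlk _ _ l (hf.iteratedDeriv 2) hl0 le_rfl s1 s hs⟩
    have Hg : Wt l (N + 0) 0 (K * sn 0 (iteratedDeriv 2 g)) (iteratedDeriv 2 g) :=
      ⟨hg.iteratedDeriv 2, fun s hs => by
        rw [zero_add]
        exact hlk _ _ l (hg.iteratedDeriv 2) hl0 le_rfl s2 s hs⟩
    have Hu : Wt l (N + 0) 0 (K + 2) fun x => 1 + deriv g x := by
      refine ⟨sm_u hg, fun s hs => ?_⟩
      cases s with
      | zero =>
        refine (sn_le fun x => by simpa using abs_u hg x).trans ?_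
        simp only [add_zero, pow_zero, mul_one]
        linarith
      | succ s =>
        have b1 := Hg.2 s (by omega)
        have b2 : (fun x => 1 + deriv g x) = fun x => deriv g x + 1 := funext fun x => add_comm _ _
        rw [sn_iteratedDeriv, sn_iteratedDeriv, zero_add, zero_add] at b1
        rw [b2, sn_add_const, sn_deriv, zero_add]
        refine b1.trans (mul_le_mul ?_ (pow_le_pow_right₀ hl (by omega)) (by positivity)
          (by linarith))
        nlinarith [sn_nonneg 2 g]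
    have H := h l _ _ f g hl0 hf hg Hf Hg Hu
    intro x
    refine (abs_le_sn_zero H.1 x).trans ((H.2 0 le_rfl).trans ?_)
    simp only [sn_iteratedDeriv, zero_add, add_zero] at s3 ⊢
    have c1 : sn 2 f ≤ md (N + 3) f := sn_le_md le_rfl (by omega) f
    have c2 : sn (N + 2) f ≤ md (N + 3) f := sn_le_md (by omega) (by omega) f
    have c3 : sn (N + 2) g ≤ md (N + 3) g := sn_le_md (by omega) (by omega) g
    have c4 := mul_le_mul_of_nonneg_right c1 (sn_nonneg 2 g)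
    have c5 := mul_le_mul_of_nonneg_right c2 (sn_nonneg 2 g)
    have c6 := mul_le_mul_of_nonneg_left c3 (sn_nonneg 2 f)
    have c7 := mul_nonneg (sn_nonneg 2 f) (md_nonneg (N + 3) g)
    have c8 : sn 2 f * sn 2 g * l ^ N ≤
        2 * (md (N + 3) f * sn 2 g + sn 2 f * md (N + 3) g) := by linarith
    have c9 := mul_le_mul_of_nonneg_left c8 (by positivity : 0 ≤ C * K ^ 2)
    refine le_trans (le_of_eq ?_) (c9.trans (le_of_eq ?_)) <;> ring

end CompL

theorem nm_comp_le (r : ℕ) (M : ℝ) : ∃ C : ℝ, 0 ≤ C ∧ ∀ f g : ℝ → ℝ, Sm f → Sm g →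
    nm r g ≤ M → nm r (fun x => f (x + g x)) ≤ C * nm r f := by
  obtain ⟨C, hC, h⟩ := CompL.wt_comp (1 + M) r
  refine ⟨(r + 1) * C, by positivity, fun f g hf hg hM => ?_⟩
  have H := h 1 (nm r f) 0 f g one_pos hg (fun s hs => by
    have b1 := sn_add_le (sm_const 1) hg.deriv s
    have b2 : sn s (fun _ => (1 : ℝ)) ≤ 1 := by
      cases s with
      | zero => simp [sn_const_zero]
      | succ s => simp [sn_const_succ]
    have b3 := sn_le_nm (Nat.succ_le_of_lt hs) g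
    rw [sn_deriv] at b1
    rw [one_pow, mul_one]
    linarith) ⟨hf, fun s hs => by simpa using sn_le_nm hs f⟩
  rw [mul_assoc]
  exact nm_le_of_sn_le fun j hj => by simpa using H.2 j hj

/-- Sharp top order composition estimate. -/
theorem t3 : ∃ C : ℕ → ℝ, (∀ r, 0 ≤ C r) ∧ ∀ r, 2 ≤ r → ∀ f g : ℝ → ℝ, Sm f → Sm g →
    sn 1 g ≤ 1 → sn 2 g ≤ 1 → sn r (fun x => f (x + g x)) ≤
      sn r f * (1 + sn 1 g) ^ r + sn 1 f * sn r g +
        C r * (md r f * sn 2 g + sn 2 f * md r g) := by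
  choose C h1 h2 using CompL.t3_one
  exact ⟨C, h1, h2⟩

theorem t3_crude (r : ℕ) : ∃ C : ℝ, 0 ≤ C ∧ ∀ f g : ℝ → ℝ, Sm f → Sm g →
    sn 1 g ≤ 1 → sn 2 g ≤ 1 → sn r (fun x => f (x + g x)) ≤ C * (nm r f + nm 2 f * nm r g) := by
  obtain ⟨C, hC, h⟩ := CompL.t3_one r
  refine ⟨2 ^ r + 2 + C, by positivity, fun f g hf hg g1 g2 => ?_⟩
  have n1 := nm_nonneg r f
  have n2 := mul_nonneg (nm_nonneg 2 f) (nm_nonneg r g)
  have n3 := sn_le_nm (le_refl r) f
  have p2 : (0 : ℝ) < 2 ^ r := by positivity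
  rcases lt_or_ge r 2 with hr | hr
  · have a : sn r (fun x => f (x + g x)) ≤ 2 * nm r f := by
      interval_cases r
      · linarith [sn_comp_zero hf g]
      · nlinarith [sn_comp_one hf hg, sn_nonneg 1 f]
    nlinarith [mul_nonneg p2.le n1, mul_nonneg hC n1, mul_nonneg p2.le n2, mul_nonneg hC n2]
  · have a1 : sn r f * (1 + sn 1 g) ^ r ≤ nm r f * 2 ^ r :=
      mul_le_mul n3 (pow_le_pow_left₀ (by linarith [sn_nonneg 1 g]) (by linarith) r)
        (pow_nonneg (by linarith [sn_nonneg 1 g]) r) n1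
    have a2 : sn 1 f * sn r g ≤ nm 2 f * nm r g :=
      mul_le_mul (sn_le_nm (by omega) f) (sn_le_nm le_rfl g) (sn_nonneg _ _) (nm_nonneg _ _)
    have a3 : md r f * sn 2 g ≤ nm r f * 1 :=
      mul_le_mul (md_le_nm r f) g2 (sn_nonneg _ _) n1
    have a4 : sn 2 f * md r g ≤ nm 2 f * nm r g :=
      mul_le_mul (sn_le_nm le_rfl f) (md_le_nm r g) (md_nonneg _ _) (nm_nonneg _ _)
    have a5 := mul_le_mul_of_nonneg_left (add_le_add a3 a4) hC
    have a6 := h hr f g hf hg g1 g2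
    nlinarith [mul_nonneg p2.le n2]

end Pool.Agent.P.MP_7bb7e1_gt
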