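import Pool.Agent.P.MP_7bb7e1_gt.Extract
import Pool.Agent.P.MP_7bb7e1_gt.Disj

/-! Configurations of disjointly placed members of a family. -/

namespace Pool.Agent.P.MP_7bb7e1_gt

open Filter

/-- nodes with an index and an affine placement -/
structure Config (S : Scale) where
  N : Type
  idx : N → S.ι
  sl : N → ℝ
  ct : N → ℝ

namespace Config

variable {S : Scale} (C : Config S)

def Adm : Prop := (∀ w, 0 < C.sl w ∧ C.sl w ≤ 1) ∧ (∃ R : ℝ, ∀ w, |C.ct w| ≤ R) ∧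
  (∃ K : ℕ, ∀ r, ∃ B : ℝ, ∀ w, S.H r (C.idx w) ≤ B / S.ε (C.idx w) ^ K) ∧
  ∀ r : ℕ, Summable fun w => √(S.ε (C.idx w)) / C.sl w ^ r

def lo (M : ℝ) (w : C.N) : ℝ := C.sl w * -M + C.ct w

def hi (M : ℝ) (w : C.N) : ℝ := C.sl w * M + C.ct w

def In (A : Set S.ι) (M : ℝ) : Prop := C.Adm ∧ (∀ w, C.idx w ∈ A) ∧ Sep (C.lo M) (C.hi M)

theorem In.mono {C : Config S} {A A' : Set S.ι} {M M' : ℝ} (h : C.In A M) (hA : A ⊆ A')
    (hM : M' ≤ M) : C.In A' M' := by
  refine ⟨h.1, fun w => hA (h.2.1 w), fun w w' hw => ?_⟩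
  have key : ∀ v, Set.Icc (C.lo M' v) (C.hi M' v) ⊆ Set.Icc (C.lo M v) (C.hi M v) := by
    intro v
    have := mul_le_mul_of_nonneg_left hM (h.1.1 v).1.le
    refine Set.Icc_subset_Icc ?_ ?_
    · unfold lo; linarith
    · unfold hi; linarith
  exact (h.2.2 hw).mono (key w) (key w')

/-- the member at a node, placed -/
noncomputable def place (t : S.ι → Gc) (w : C.N) : Gc := cG (C.sl w) (C.ct w) (t (C.idx w))

open Classical in
/-- the product of the placed members, when it exists -/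
noncomputable def PC (t : S.ι → Gc) : Gc :=
  if h : ∃ g : Gc, IsDP (fun w => (C.place t w : Pm)) g then h.choose else 1

theorem config_aux_dp {t : S.ι → Gc} (h : ∃ g : Gc, IsDP (fun w => (C.place t w : Pm)) g) :
    IsDP (fun w => (C.place t w : Pm)) (C.PC t) := by
  unfold PC
  rw [dif_pos h]
  exact h.choose_spec

theorem config_aux_eq {t : S.ι → Gc} {g : Gc} (h : IsDP (fun w => (C.place t w : Pm)) g) :
    C.PC t = g := Subtype.ext ((C.config_aux_dp ⟨g, h⟩).unique h)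

end Config

namespace Scale

variable (S : Scale)

/-- the filter of configurations -/
def KF : Filter (Config S) where
  sets := {B | ∃ A ∈ S.F, ∃ M : ℝ, ∀ C : Config S, C.In A M → C ∈ B}
  univ_sets := ⟨Set.univ, univ_mem, 0, fun _ _ => trivial⟩
  sets_of_superset := by
    rintro B B' ⟨A, hA, M, h⟩ hB
    exact ⟨A, hA, M, fun C hC => hB (h C hC)⟩
  inter_sets := by
    rintro B B' ⟨A, hA, M, h⟩ ⟨A', hA', M', h'⟩
    exact ⟨A ∩ A', inter_mem hA hA', max M M', fun C hC =>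
      ⟨h C (hC.mono Set.inter_subset_left (le_max_left _ _)),
        h' C (hC.mono Set.inter_subset_right (le_max_right _ _))⟩⟩

variable {S}

theorem eventually_KF {p : Config S → Prop} :
    (∀ᶠ C in S.KF, p C) ↔ ∃ A ∈ S.F, ∃ M : ℝ, ∀ C : Config S, C.In A M → p C := Iff.rfl

/-- `extract` (or directly the definitions), `interp` with `a = 1` for each `r`, `sn_conj_aff`,
`exists_DP` -/
theorem PC_spec {t : S.ι → Gc} {a b : ℝ} (ht : cF t ∈ S.GF 1 a b) : ∃ M₀ : ℝ, ∀ M, M₀ ≤ M →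
    ∀ᶠ C in S.KF, Sep (C.lo M) (C.hi M) ∧ (∀ w, Fix (C.lo M w) (C.hi M w) (C.place t w : Pm)) ∧
      IsDP (fun w => (C.place t w : Pm)) (C.PC t) := by
  obtain ⟨⟨⟨K, A, hA, -, hT⟩, h1, -⟩, ⟨a', ha, hl⟩, ⟨b', hb, hr⟩⟩ := ht
  obtain ⟨C₀, -, h0⟩ := odS_iff.1 (h1.2 0)
  refine ⟨max |a| |b|, fun M hM => ?_⟩
  have hMa : -M ≤ a' := by
    have := neg_abs_le a
    have := le_max_left |a| |b|
    linarith
  have hMb : b' ≤ M := by
    have := le_abs_self b
    have := le_max_right |a| |b|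
    linarith
  have hM0 : 0 ≤ M := (abs_nonneg a).trans ((le_max_left _ _).trans hM)
  refine eventually_KF.2 ⟨_, inter_mem hA (h0.and (hl.and hr)), M, fun C hC => ?_⟩
  obtain ⟨⟨hsl, ⟨R, hR⟩, ⟨K', hK'⟩, hsum⟩, hin, hsep⟩ := hC
  have hfix : ∀ w, Fix (C.lo M w) (C.hi M w) (C.place t w : Pm) := by
    intro w
    have h2 : Fix (-M) M (t (C.idx w) : Pm) := by
      rintro x (hx | hx)
      · exact (hin w).2.2.1 x (hx.trans hMa)
      · exact (hin w).2.2.2 x (hMb.trans hx)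
    exact h2.conj_aff (hsl w).1 (C.ct w)
  refine ⟨hsep, hfix, C.config_aux_dp ?_⟩
  have hbd : ∀ w, -(M + R) ≤ C.lo M w ∧ C.hi M w ≤ M + R := by
    intro w
    have h2 := mul_le_mul_of_nonneg_right (hsl w).2 hM0
    have h3 := abs_le.1 (hR w)
    unfold Config.lo Config.hi
    constructor <;> linarith [h3.1, h3.2]
  have hs : ∀ r, Summable fun w => sn r (dp (C.place t w : Pm)) := by
    intro r
    obtain ⟨Q, -, hQ⟩ := interp r 1 (K + K')
    obtain ⟨D, hD⟩ := hT Q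
    obtain ⟨B, hB⟩ := hK' Q
    obtain ⟨E, hE0, hE⟩ := hQ C₀ (max D 0 * B)
    refine Summable.of_nonneg_of_le (fun w => sn_nonneg _ _) (fun w => ?_) ((hsum r).mul_left E)
    have hε := S.pos (C.idx w)
    have hε1 : S.ε (C.idx w) ≤ 1 := (S.le_half _).trans (by norm_num)
    have hH : 0 ≤ S.H Q (C.idx w) := zero_le_one.trans (S.one_le _ _)
    have e0 : sn 0 (dp (t (C.idx w) : Pm)) ≤ C₀ * S.ε (C.idx w) ^ 1 :=
      (le_abs_self _).trans (hin w).2.1
    have eQ : sn Q (dp (t (C.idx w) : Pm)) ≤ max D 0 * B / S.ε (C.idx w) ^ (K + K') := by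
      calc sn Q (dp (t (C.idx w) : Pm)) ≤ D * S.H Q (C.idx w) / S.ε (C.idx w) ^ K :=
            hD _ (hin w).1
        _ ≤ max D 0 * (B / S.ε (C.idx w) ^ K') / S.ε (C.idx w) ^ K := by
            refine div_le_div_of_nonneg_right ?_ (pow_pos hε _).le
            exact mul_le_mul (le_max_left _ _) (hB w) hH (le_max_right _ _)
        _ = max D 0 * B / S.ε (C.idx w) ^ (K + K') := by
            rw [pow_add]; field_simp
    have e1 := hE _ _ hε hε1 (Gc.sm _) e0 eQ
    have e2 : E * S.ε (C.idx w) ^ 1 / √(S.ε (C.idx w)) = E * √(S.ε (C.idx w)) := by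
      rw [pow_one, mul_div_assoc, Real.div_sqrt]
    have e3 : sn r (dp (t (C.idx w) : Pm)) ≤ E * √(S.ε (C.idx w)) :=
      (sn_le_nm le_rfl _).trans (e2 ▸ e1)
    have hp : 0 < C.sl w ^ r := pow_pos (hsl w).1 r
    calc sn r (dp (C.place t w : Pm))
        = C.sl w / C.sl w ^ r * sn r (dp (t (C.idx w) : Pm)) :=
          sn_conj_aff (Gc.sm _) (hsl w).1 (C.ct w) r
      _ ≤ 1 / C.sl w ^ r * (E * √(S.ε (C.idx w))) :=
          mul_le_mul (div_le_div_of_nonneg_right (hsl w).2 hp.le) e3 (sn_nonneg _ _)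
            (by positivity)
      _ = E * (√(S.ε (C.idx w)) / C.sl w ^ r) := by ring
  obtain ⟨g, hg, -⟩ := exists_DP (C.place t) hsep hfix hbd hs
  exact ⟨g, hg⟩

theorem PC_congr {t t' : S.ι → Gc} (h : ∀ᶠ i in S.F, t i = t' i) :
    ∀ᶠ C in S.KF, C.PC t = C.PC t' := by
  refine eventually_KF.2 ⟨_, h, 0, fun C hC => ?_⟩
  have : C.place t = C.place t' := by
    funext w
    unfold Config.place
    rw [show t (C.idx w) = t' (C.idx w) from hC.2.1 w]
  unfold Config.PC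
  rw [this]

theorem PC_one (C : Config S) : C.PC 1 = 1 := by
  refine C.config_aux_eq ?_
  have : (fun w => (C.place 1 w : Pm)) = fun _ => 1 := by
    funext w
    simp [Config.place]
  rw [this]
  exact isDP_one

theorem PC_mul {t t' : S.ι → Gc} {a b a' b' : ℝ} (ht : cF t ∈ S.GF 1 a b)
    (ht' : cF t' ∈ S.GF 1 a' b') : ∀ᶠ C in S.KF, C.PC (t * t') = C.PC t * C.PC t' := by
  obtain ⟨M, hM⟩ := PC_spec ht
  obtain ⟨M', hM'⟩ := PC_spec ht'
  filter_upwards [hM _ (le_max_left M M'), hM' _ (le_max_right M M')] with C h h'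
  refine C.config_aux_eq ?_
  have : (fun w => (C.place (t * t') w : Pm)) =
      fun w => (C.place t w : Pm) * (C.place t' w : Pm) := by
    funext w
    simp [Config.place]
  rw [this]
  exact IsDP.mul h.1 h.2.1 h'.2.1 h.2.2 h'.2.2

theorem PC_inv {t : S.ι → Gc} {a b : ℝ} (ht : cF t ∈ S.GF 1 a b) :
    ∀ᶠ C in S.KF, C.PC t⁻¹ = (C.PC t)⁻¹ := by
  obtain ⟨M, hM⟩ := PC_spec ht
  filter_upwards [hM _ le_rfl] with C h
  refine C.config_aux_eq ?_
  have : (fun w => (C.place t⁻¹ w : Pm)) = fun w => (C.place t w : Pm)⁻¹ := by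
    funext w
    simp [Config.place]
  rw [this]
  exact IsDP.inv h.1 h.2.1 h.2.2

end Scale

/-- apply `PC` to all entries of a tuple -/
noncomputable def Config.PT {S : Scale} (C : Config S) {n : ℕ}
    (x : Fin n → (S.ι → Gc) × (S.ι → Gc)) : Fin n → Gc × Gc :=
  fun k => (C.PC (x k).1, C.PC (x k).2)

end Pool.Agent.P.MP_7bb7e1_gt
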