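import Pool.Agent.P.MP_7bb7e1_gt.Grp2
import Pool.Agent.P.MP_7bb7e1_gt.Abs

/-! Translation and dilation invariance of the class of a transition. -/

namespace Pool.Agent.P.MP_7bb7e1_gt

open Filter
open scoped commutatorElement

namespace Scale

variable {S : Scale} {β : ℕ} {k Ω g h : S.ι → Pm} {σ : S.ι → ℝ}

variable (S) in
noncomputable def gP : (S.ι → Pm) →* Germ S.F Pm := Germ.coeMulHom S.F

theorem gP_eq : S.gP g = S.gP h ↔ ∀ᶠ i in S.F, g i = h i := Germ.coe_eq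

theorem mem_map_GB : S.gP g ∈ (S.GB β).map S.gP ↔ g ∈ S.GB β :=
  ⟨fun ⟨_, h1, e⟩ => GB_congr h1 (gP_eq.1 e), fun h1 => Subgroup.mem_map_of_mem _ h1⟩

theorem mem_map_L {a : ℝ} :
    S.gP g ∈ (S.GB β ⊓ S.GLe a).map S.gP ↔ g ∈ S.GB β ∧ g ∈ S.GLe a :=
  ⟨fun ⟨_, h1, e⟩ => ⟨GB_congr h1.1 (gP_eq.1 e), GL_congr h1.2 (gP_eq.1 e)⟩,
    fun h1 => Subgroup.mem_map_of_mem _ (Subgroup.mem_inf.2 h1)⟩

theorem mem_map_R {b : ℝ} :
    S.gP g ∈ (S.GB β ⊓ S.GRi b).map S.gP ↔ g ∈ S.GB β ∧ g ∈ S.GRi b :=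
  ⟨fun ⟨_, h1, e⟩ => ⟨GB_congr h1.1 (gP_eq.1 e), GR_congr h1.2 (gP_eq.1 e)⟩,
    fun h1 => Subgroup.mem_map_of_mem _ (Subgroup.mem_inf.2 h1)⟩

theorem map_inf_eq {a b : ℝ} : (S.GB β ⊓ S.GLe a).map S.gP ⊓ (S.GB β ⊓ S.GRi b).map S.gP =
    (S.GF β a b).map S.gP := by
  apply le_antisymm
  · rintro x ⟨⟨g, hg, rfl⟩, h2⟩
    exact Subgroup.mem_map_of_mem _ (mem_GF.2 ⟨hg.1, hg.2, (mem_map_R.1 h2).2⟩)
  · rintro x ⟨g, hg, rfl⟩
    have hg' := mem_GF.1 hg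
    exact ⟨mem_map_L.2 ⟨hg'.1, hg'.2.1⟩, mem_map_R.2 ⟨hg'.1, hg'.2.2⟩⟩

theorem abs_nL : ∀ g ∈ (S.GB β).map S.gP, ∀ k ∈ (S.GB β ⊓ S.GLe (-3)).map S.gP,
    g * k * g⁻¹ ∈ (S.GB β ⊓ S.GLe (-3)).map S.gP := by
  rintro _ ⟨g, hg, rfl⟩ _ ⟨k, hk, rfl⟩
  rw [← map_inv, ← map_mul, ← map_mul]
  exact mem_map_L.2 ⟨conj_GB (GB_le_one hg) hk.1, conj_GL (GB_le_one hg) hk.2⟩

theorem abs_nR : ∀ g ∈ (S.GB β).map S.gP, ∀ k ∈ (S.GB β ⊓ S.GRi 3).map S.gP,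
    g * k * g⁻¹ ∈ (S.GB β ⊓ S.GRi 3).map S.gP := by
  rintro _ ⟨g, hg, rfl⟩ _ ⟨k, hk, rfl⟩
  rw [← map_inv, ← map_mul, ← map_mul]
  exact mem_map_R.2 ⟨conj_GB (GB_le_one hg) hk.1, conj_GR (GB_le_one hg) hk.2⟩

theorem dil1_right {b : ℝ} (hb : b < 3) (hk : k ∈ S.GB β) (hΩ : Ω ∈ S.GB β)
    (h : ∀ᶠ i in S.F, ∀ x, b ≤ x → k i x = Ω i x) :
    (S.gP k)⁻¹ * S.gP Ω ∈ (S.GB β ⊓ S.GRi 3).map S.gP := by
  rw [← map_inv, ← map_mul]
  refine mem_map_R.2 ⟨mul_mem (inv_mem hk) hΩ, b, hb, ?_⟩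
  filter_upwards [h] with i hi x hx
  rw [Pi.mul_apply, Equiv.Perm.mul_apply, Pi.inv_apply, Equiv.Perm.inv_eq_iff_eq, hi x hx]

theorem abs_split : ∀ g ∈ (S.GB β).map S.gP, ∃ k ∈ (S.GB β ⊓ S.GLe (-3)).map S.gP,
    k⁻¹ * g ∈ (S.GB β ⊓ S.GRi 3).map S.gP := by
  rintro _ ⟨g, hg, rfl⟩
  obtain ⟨k, hk, e⟩ := frag (a := -1) (b := 1) hg (by norm_num)
  refine ⟨S.gP k, mem_map_L.2 ⟨hk, -1, by norm_num, e.mono fun i hi => hi.1⟩, ?_⟩
  exact dil1_right (b := 1) (by norm_num) hk hg (e.mono fun i hi => hi.2.1)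

theorem abs_loc : ∀ g ∈ (S.GB β).map S.gP,
    ∀ e ∈ (S.GB β ⊓ S.GLe (-3)).map S.gP ⊓ (S.GB β ⊓ S.GRi 3).map S.gP,
    ⁅g, e⁆ ∈ ⁅(S.GB β ⊓ S.GLe (-3)).map S.gP ⊓ (S.GB β ⊓ S.GRi 3).map S.gP,
      (S.GB β ⊓ S.GLe (-3)).map S.gP ⊓ (S.GB β ⊓ S.GRi 3).map S.gP⁆ := by
  rw [map_inf_eq]
  rintro _ ⟨g, hg, rfl⟩ _ ⟨e, he, rfl⟩
  obtain ⟨k, hk, h⟩ := loc hg he
  have h1 : ⁅S.gP g, S.gP e⁆ = ⁅S.gP k, S.gP e⁆ := by
    rw [← map_commutatorElement, ← map_commutatorElement]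
    exact gP_eq.2 h
  rw [h1]
  exact Subgroup.commutator_mem_commutator (Subgroup.mem_map_of_mem _ hk)
    (Subgroup.mem_map_of_mem _ he)

variable (S β) in
/-- the data of the abstract calculus -/
noncomputable def AD : AbsD (Germ S.F Pm) where
  Γ := (S.GB β).map S.gP
  SL := (S.GB β ⊓ S.GLe (-3)).map S.gP
  SR := (S.GB β ⊓ S.GRi 3).map S.gP
  hL := Subgroup.map_mono inf_le_left
  hR := Subgroup.map_mono inf_le_left
  nL := abs_nL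
  nR := abs_nR
  split := abs_split
  loc := abs_loc

theorem mem_AD : S.gP g ∈ (S.AD β).Γ ↔ g ∈ S.GB β := mem_map_GB

theorem AD_N : (S.AD β).N = ⁅(S.GF β (-3) 3).map S.gP, (S.GF β (-3) 3).map S.gP⁆ := by
  rw [← map_inf_eq]; rfl

theorem trs_of {a b : ℝ} (ha : -3 < a) (hb : b < 3) (hk : k ∈ S.GB β) (hΩ : Ω ∈ S.GB β)
    (h : ∀ᶠ i in S.F, (∀ x, x ≤ a → k i x = x) ∧ ∀ x, b ≤ x → k i x = Ω i x) :
    (S.AD β).Trs (S.gP k) (S.gP Ω) :=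
  ⟨mem_map_L.2 ⟨hk, a, ha, h.mono fun _ hi => hi.1⟩, mem_map_GB.2 hΩ,
    dil1_right hb hk hΩ (h.mono fun _ hi => hi.2)⟩

/-- Write `1 = M i * σ i + ρ i` with `M i = ⌊1 / σ i⌋₊`. Conjugation of `k` by `tr (M σ)` is
again a transition for `Ω` (`conj_tr_GB`, `trs_of`, `Trs.indep`), and `tr ρ` lies in `GB β`
(`cg_conj`). -/
theorem transl (hβ : 1 ≤ β) (hσ : S.OdS β σ) (hpos : ∀ i, 0 < σ i) (hk : k ∈ S.GB β)
    (hΩ : Ω ∈ S.GB β) (hc : ∀ᶠ i in S.F, Ω i * tr (σ i) = tr (σ i) * Ω i)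
    (h : ∀ᶠ i in S.F, (∀ x, x ≤ -1 → k i x = x) ∧ ∀ x, 1 ≤ x → k i x = Ω i x) :
    (S.AD β).Cg (S.gP fun i => tr 1 * ⁅k i, tr (σ i)⁆ * (tr 1)⁻¹)
      (S.gP fun i => ⁅k i, tr (σ i)⁆) := by
  obtain ⟨M, hM⟩ : ∃ M : S.ι → ℕ, ∀ i, 0 ≤ (M i : ℝ) * σ i ∧ (M i : ℝ) * σ i ≤ 1 ∧
      1 - (M i : ℝ) * σ i ≤ σ i := by
    refine ⟨fun i => ⌊1 / σ i⌋₊, fun i => ⟨mul_nonneg (Nat.cast_nonneg _) (hpos i).le, ?_, ?_⟩⟩
    · have h1 := Nat.floor_le (one_div_pos.2 (hpos i)).le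
      rwa [le_div_iff₀ (hpos i)] at h1
    · have h1 := Nat.lt_floor_add_one (1 / σ i)
      rw [div_lt_iff₀ (hpos i)] at h1
      linarith
  have hs : (fun i => tr (σ i)) ∈ S.GB β := tr_mem hβ hσ
  have hρ : (fun i => tr (1 - (M i : ℝ) * σ i)) ∈ S.GB β := by
    refine tr_mem hβ (hσ.of_le 1 (Eventually.of_forall fun i => ?_))
    rw [one_mul, abs_of_pos (hpos i), abs_of_nonneg (by linarith [(hM i).2.1])]
    exact (hM i).2.2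
  have hk' : (fun i => tr ((M i : ℝ) * σ i) * k i * (tr ((M i : ℝ) * σ i))⁻¹) ∈ S.GB β :=
    conj_tr_GB hk _
  have hT : (S.AD β).Trs (S.gP k) (S.gP Ω) :=
    trs_of (a := -1) (b := 1) (by norm_num) (by norm_num) hk hΩ h
  have hT' : (S.AD β).Trs
      (S.gP fun i => tr ((M i : ℝ) * σ i) * k i * (tr ((M i : ℝ) * σ i))⁻¹) (S.gP Ω) := by
    refine trs_of (a := -1) (b := 2) (by norm_num) (by norm_num) hk' hΩ ?_
    filter_upwards [h, hc] with i hi hci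
    refine ⟨fun x hx => ?_, fun x hx => ?_⟩
    · rw [Equiv.Perm.mul_apply, Equiv.Perm.mul_apply, tr_inv_apply,
        hi.1 _ (by linarith [(hM i).1]), tr_apply, sub_add_cancel]
    · have h1 : Ω i * tr ((M i : ℝ) * σ i) = tr ((M i : ℝ) * σ i) * Ω i := by
        rw [← tr_pow]
        exact (Commute.pow_right (a := Ω i) (b := tr (σ i)) hci (M i))
      rw [Equiv.Perm.mul_apply, Equiv.Perm.mul_apply, tr_inv_apply,
        hi.2 _ (by linarith [(hM i).2.1]), ← Equiv.Perm.mul_apply, ← h1, Equiv.Perm.mul_apply,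
        tr_apply, sub_add_cancel]
  have hC : S.gP Ω * (S.gP fun i => tr (σ i)) = (S.gP fun i => tr (σ i)) * S.gP Ω := by
    rw [← map_mul, ← map_mul]
    exact gP_eq.2 hc
  have hE : (S.gP fun i => ⁅k i, tr (σ i)⁆) = ⁅S.gP k, S.gP fun i => tr (σ i)⁆ := by
    rw [← map_commutatorElement]
    exact gP_eq.2 (Eventually.of_forall fun i => by
      simp only [commutatorElement_def, Pi.mul_apply, Pi.inv_apply])
  have hE' : (S.gP fun i => tr 1 * ⁅k i, tr (σ i)⁆ * (tr 1)⁻¹) =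
      (S.gP fun i => tr (1 - (M i : ℝ) * σ i)) *
        ⁅S.gP fun i => tr ((M i : ℝ) * σ i) * k i * (tr ((M i : ℝ) * σ i))⁻¹,
          S.gP fun i => tr (σ i)⁆ * (S.gP fun i => tr (1 - (M i : ℝ) * σ i))⁻¹ := by
    rw [← map_commutatorElement, ← map_inv, ← map_mul, ← map_mul]
    refine gP_eq.2 (Eventually.of_forall fun i => ?_)
    have h1 : tr 1 = tr (1 - (M i : ℝ) * σ i) * tr ((M i : ℝ) * σ i) := by
      rw [← tr_add, sub_add_cancel]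
    have h2 : tr ((M i : ℝ) * σ i) * tr (σ i) * (tr ((M i : ℝ) * σ i))⁻¹ = tr (σ i) := by
      rw [← tr_add, add_comm, tr_add, mul_inv_cancel_right]
    have h3 : ⁅tr ((M i : ℝ) * σ i) * k i * (tr ((M i : ℝ) * σ i))⁻¹, tr (σ i)⁆ =
        tr ((M i : ℝ) * σ i) * ⁅k i, tr (σ i)⁆ * (tr ((M i : ℝ) * σ i))⁻¹ := by
      rw [conjugate_commutatorElement, h2]
    have h4 : ⁅(fun i => tr ((M i : ℝ) * σ i) * k i * (tr ((M i : ℝ) * σ i))⁻¹),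
        (fun i => tr (σ i))⁆ i =
        ⁅tr ((M i : ℝ) * σ i) * k i * (tr ((M i : ℝ) * σ i))⁻¹, tr (σ i)⁆ := by
      simp only [commutatorElement_def, Pi.mul_apply, Pi.inv_apply]
    rw [Pi.mul_apply, Pi.mul_apply, Pi.inv_apply, h4, h3, h1]
    group
  rw [hE, hE']
  exact (AbsD.cg_conj (mem_AD.2 hρ) (hT'.comm_mem (mem_AD.2 hs) hC)).trans
    (hT'.indep hT (mem_AD.2 hs) hC)

/-- conjugation by a fixed element of `Gc` supported inside `(-3, 3)` preserves `N` -/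
theorem conj_fix_N (ψ : Gc) {a b : ℝ} (ha : -3 < a) (hb : b < 3) (hψ : Fix a b (ψ : Pm))
    (hg : S.gP g ∈ (S.AD β).N) :
    S.gP (fun i => (ψ : Pm) * g i * (ψ : Pm)⁻¹) ∈ (S.AD β).N := by
  rw [AD_N] at hg ⊢
  have key : ∀ u : S.ι → Pm, (MulAut.conj (S.gP fun _ => (ψ : Pm))).toMonoidHom (S.gP u) =
      S.gP (fun i => (ψ : Pm) * u i * (ψ : Pm)⁻¹) := by
    intro u
    change (S.gP fun _ => (ψ : Pm)) * S.gP u * (S.gP fun _ => (ψ : Pm))⁻¹ = _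
    rw [← map_inv, ← map_mul, ← map_mul]
    rfl
  have hle : ((S.GF β (-3) 3).map S.gP).map (MulAut.conj (S.gP fun _ => (ψ : Pm))).toMonoidHom ≤
      (S.GF β (-3) 3).map S.gP := by
    rintro _ ⟨_, ⟨u, hu, rfl⟩, rfl⟩
    rw [key]
    exact Subgroup.mem_map_of_mem _ (conj_fix_GF hu ψ ha hb hψ)
  have h1 := Subgroup.mem_map_of_mem (MulAut.conj (S.gP fun _ => (ψ : Pm))).toMonoidHom hg
  rw [Subgroup.map_commutator, key] at h1
  exact Subgroup.commutator_mono hle hle h1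

theorem dil2_ai (e : Pm) (x : ℝ) : e (e⁻¹ x) = x := by simp

theorem dil2_fix {k Ω : Pm} {r σ : ℝ} (_hr : 0 < r) (hσ : 0 < σ) (hσr : σ ≤ r / 2)
    (h1 : ∀ x, x ≤ -r → k x = x) (h2 : ∀ x, r ≤ x → k x = Ω x) (hc : Ω * tr σ = tr σ * Ω)
    (h3 : ∀ x, |dp Ω⁻¹ x| ≤ r / 2) : Fix (-(2 * r)) (2 * r) ⁅k, tr σ⁆ := by
  intro x hx
  rw [commutatorElement_def, Equiv.Perm.mul_apply, Equiv.Perm.mul_apply, Equiv.Perm.mul_apply,
    tr_inv_apply, tr_apply]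
  rcases hx with hx | hx
  · have h4 : k⁻¹ (x - σ) = x - σ := by
      rw [Equiv.Perm.inv_eq_iff_eq, h1 _ (by linarith)]
    rw [h4, sub_add_cancel, h1 _ (by linarith)]
  · have h4 : r ≤ Ω⁻¹ (x - σ) := by
      rw [apply_eq_add_dp]
      linarith [(abs_le.1 (h3 (x - σ))).1]
    have h5 : k⁻¹ (x - σ) = Ω⁻¹ (x - σ) := by
      rw [Equiv.Perm.inv_eq_iff_eq, h2 _ h4, dil2_ai]
    rw [h5, h2 _ (by linarith), ← tr_apply σ, ← Equiv.Perm.mul_apply, hc, Equiv.Perm.mul_apply,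
      dil2_ai, tr_apply, sub_add_cancel]

theorem dil2_conj {e ψ : Pm} {l r : ℝ} (hl : 0 < l) (hr : r ≤ 1 / 8)
    (he : Fix (-(2 * r)) (2 * r) e) (hψ : Fix (1 / 2) (3 / 2) ψ)
    (hψe : ∀ x, 1 - 2 * r ≤ x → x ≤ 1 + 2 * r → ψ x = l * x + (1 - l)) :
    ψ * (tr 1 * e * (tr 1)⁻¹ * e⁻¹) * ψ⁻¹ =
      tr 1 * (aff l 0 * e * (aff l 0)⁻¹) * (tr 1)⁻¹ * e⁻¹ := by
  have h1 : ψ * e * ψ⁻¹ = e := by
    have h2 := conj_eq_of_agree (φ := ψ) (ψ := 1) he fun x _ hx => hψ x (Or.inl (by linarith))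
    simpa using h2
  have h2 : Fix (1 - 2 * r) (1 + 2 * r) (tr 1 * e * (tr 1)⁻¹) := by
    have h3 := he.conj_aff one_pos 1
    rw [aff_one] at h3
    exact h3.mono (by linarith) (by linarith)
  have h3 : ψ * (tr 1 * e * (tr 1)⁻¹) * ψ⁻¹ =
      tr 1 * aff l 0 * (tr 1)⁻¹ * (tr 1 * e * (tr 1)⁻¹) * (tr 1 * aff l 0 * (tr 1)⁻¹)⁻¹ := by
    refine conj_eq_of_agree h2 fun x hx hx' => ?_
    rw [hψe x hx hx', Equiv.Perm.mul_apply, Equiv.Perm.mul_apply, tr_inv_apply, aff_apply hl.ne',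
      tr_apply]
    ring
  calc ψ * (tr 1 * e * (tr 1)⁻¹ * e⁻¹) * ψ⁻¹
      = ψ * (tr 1 * e * (tr 1)⁻¹) * ψ⁻¹ * (ψ * e * ψ⁻¹)⁻¹ := by group
    _ = _ := by rw [h1, h3]; group

/-- Let `ρ = 1 / (8 D)`. The commutator `a` is eventually supported in `[-2ρ, 2ρ]`. Take `ψ` from
`exists_aff`, supported in `[1/2, 3/2]` and equal to `x ↦ D (x - 1) + 1` on `[1 - 2ρ, 1 + 2ρ]`;
conjugate `transl` by `ψ` (`conj_fix_N`, `conj_eq_of_agree`) and use `transl` again for the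
dilated data `(D k D⁻¹, D Ω D⁻¹, D σ)`. -/
theorem dil (hβ : 1 ≤ β) {D : ℕ} (hD : 1 ≤ D) (hσ : S.OdS β σ) (hpos : ∀ i, 0 < σ i)
    (hk : k ∈ S.GB β) (hΩ : Ω ∈ S.GB β) (hc : ∀ᶠ i in S.F, Ω i * tr (σ i) = tr (σ i) * Ω i)
    (h : ∀ᶠ i in S.F, (∀ x, x ≤ -(1 / (8 * D) : ℝ) → k i x = x) ∧
      ∀ x, (1 / (8 * D) : ℝ) ≤ x → k i x = Ω i x) :
    (S.AD β).Cg (S.gP fun i => ⁅k i, tr (σ i)⁆)
      (S.gP fun i => aff D 0 * ⁅k i, tr (σ i)⁆ * (aff D 0)⁻¹) := by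
  have hD1 : (1 : ℝ) ≤ D := by exact_mod_cast hD
  have hD0 : (0 : ℝ) < D := by linarith
  obtain ⟨r, hr, hrD⟩ : ∃ r : ℝ, r = 1 / (8 * D) ∧ (D : ℝ) * r = 1 / 8 :=
    ⟨_, rfl, by field_simp⟩
  rw [← hr] at h
  have hr0 : 0 < r := by rw [hr]; positivity
  have hr1 : r ≤ 1 / 8 := by nlinarith
  have hσs : ∀ᶠ i in S.F, σ i ≤ r / 2 := by
    have h1 := (OdS.mono (m := 0 + 1) hσ hβ).small (δ := r / 2) (by positivity)
    filter_upwards [h1] with i hi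
    rw [pow_zero, mul_one] at hi
    exact (le_abs_self _).trans hi
  have hfix : ∀ᶠ i in S.F, Fix (-(2 * r)) (2 * r) ⁅k i, tr (σ i)⁆ := by
    filter_upwards [h, hc, hσs, GB_small (inv_mem hΩ) 0 (δ := r / 2) (by positivity)]
      with i hi hci hσi hsm
    refine dil2_fix hr0 (hpos i) hσi hi.1 hi.2 hci fun x => ?_
    have h1 := abs_le_sn_zero hsm.1 x
    have h2 : nm 0 (dp (Ω⁻¹ i)) = sn 0 (dp (Ω⁻¹ i)) := by simp [nm]
    rw [← h2] at h1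
    exact h1.trans hsm.2
  obtain ⟨ψ, hψ, hψe⟩ := exists_aff (l := D) (m := 1 - D) (a := 1 - 2 * r) (b := 1 + 2 * r)
    (α := 1 / 2) (β := 3 / 2) hD0 (by linarith) (by linarith) (by linarith) (by linarith)
    (by linarith)
  have h1 := transl hβ hσ hpos hk hΩ hc (by
    filter_upwards [h] with i hi
    exact ⟨fun x hx => hi.1 x (by linarith), fun x hx => hi.2 x (by linarith)⟩)
  have h2 := transl (k := fun i => aff D 0 * k i * (aff D 0)⁻¹)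
    (Ω := fun i => aff D 0 * Ω i * (aff D 0)⁻¹) (σ := fun i => (D : ℝ) * σ i) hβ
    (hσ.const_mul D) (fun i => mul_pos hD0 (hpos i)) (conj_aff_GB hk hD0 0)
    (conj_aff_GB hΩ hD0 0) (by
      filter_upwards [hc] with i hi
      rw [← aff_conj_tr hD0.ne' 0 (σ i)]
      calc aff D 0 * Ω i * (aff D 0)⁻¹ * (aff D 0 * tr (σ i) * (aff D 0)⁻¹)
          = aff D 0 * (Ω i * tr (σ i)) * (aff D 0)⁻¹ := by group
        _ = aff D 0 * (tr (σ i) * Ω i) * (aff D 0)⁻¹ := by rw [hi]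
        _ = _ := by group) (by
      filter_upwards [h] with i hi
      refine ⟨fun x hx => ?_, fun x hx => ?_⟩
      · have h3 : (x - 0) / (D : ℝ) ≤ -r := by
          rw [div_le_iff₀ hD0]
          linarith
        rw [Equiv.Perm.mul_apply, Equiv.Perm.mul_apply, aff_inv_apply hD0.ne', hi.1 _ h3,
          ← aff_inv_apply hD0.ne', dil2_ai]
      · have h3 : r ≤ (x - 0) / (D : ℝ) := by
          rw [le_div_iff₀ hD0]
          linarith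
        rw [Equiv.Perm.mul_apply, Equiv.Perm.mul_apply, Equiv.Perm.mul_apply,
          Equiv.Perm.mul_apply, aff_inv_apply hD0.ne', hi.2 _ h3])
  have e1 : ∀ i, ⁅aff D 0 * k i * (aff D 0)⁻¹, tr ((D : ℝ) * σ i)⁆ =
      aff D 0 * ⁅k i, tr (σ i)⁆ * (aff D 0)⁻¹ := fun i => by
    rw [conjugate_commutatorElement, aff_conj_tr hD0.ne']
  simp only [e1] at h2
  refine AbsD.Cg.trans (AbsD.Cg.symm ?_) h2
  unfold AbsD.Cg at h1 ⊢
  rw [← map_inv, ← map_mul] at h1 ⊢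
  have h3 := conj_fix_N ψ (a := 1 / 2) (b := 3 / 2) (by norm_num) (by norm_num) hψ h1
  refine (gP_eq.2 ?_) ▸ h3
  filter_upwards [hfix] with i hi
  rw [Pi.mul_apply, Pi.mul_apply, Pi.inv_apply]
  exact dil2_conj hD0 hr1 hi hψ hψe

theorem dil1_comm_apply (u v : S.ι → Pm) (i : S.ι) : ⁅u, v⁆ i = ⁅u i, v i⁆ := by
  simp only [commutatorElement_def, Pi.mul_apply, Pi.inv_apply]

/-- `frag`, `dil` with `D = 2`, `triv_pow` applied to `t = tr (c / 3)` -/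
theorem triv_tr (hβ : 1 ≤ β) (hσ : S.OdS β σ) (hpos : ∀ i, 0 < σ i) {c : S.ι → ℝ}
    (hc : S.OdS β c) : (S.AD β).Triv (S.gP fun i => tr (c i)) (S.gP fun i => tr (σ i)) := by
  have h2 : ((2 : ℕ) : ℝ) = 2 := Nat.cast_ofNat
  have h20 : (2 : ℝ) ≠ 0 := two_ne_zero
  have ht : (fun i => tr (3⁻¹ * c i)) ∈ S.GB β := tr_mem hβ (hc.const_mul 3⁻¹)
  have hs : (fun i => tr (σ i)) ∈ S.GB β := tr_mem hβ hσ
  obtain ⟨k, hk, e⟩ := frag (a := -(1 / 16)) (b := 1 / 16) ht (by norm_num)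
  have hcm : ∀ i, tr (3⁻¹ * c i) * tr (σ i) = tr (σ i) * tr (3⁻¹ * c i) := by
    intro i
    rw [← tr_add, ← tr_add, add_comm]
  have hd := dil (k := k) (Ω := fun i => tr (3⁻¹ * c i)) hβ (D := 2) (by norm_num) hσ hpos hk ht
    (Eventually.of_forall hcm) (by
      filter_upwards [e] with i hi
      rw [h2]
      refine ⟨fun x hx => hi.1 x (hx.trans (by norm_num)), fun x hx => hi.2.1 x ?_⟩
      exact le_trans (by norm_num) hx)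
  rw [h2] at hd
  have hT : (S.AD β).Trs (S.gP k) (S.gP fun i => tr (3⁻¹ * c i)) :=
    trs_of (a := -(1 / 16)) (b := 1 / 16) (by norm_num) (by norm_num) hk ht
      (e.mono fun i hi => ⟨hi.1, hi.2.1⟩)
  have hk' : (fun i => aff 2 0 * k i * (aff 2 0)⁻¹) ∈ S.GB β := conj_aff_GB hk two_pos 0
  have hT' : (S.AD β).Trs (S.gP fun i => aff 2 0 * k i * (aff 2 0)⁻¹)
      ((S.gP fun i => tr (3⁻¹ * c i)) ^ 2) := by
    rw [← map_pow]
    refine trs_of (a := -(1 / 8)) (b := 1 / 8) (by norm_num) (by norm_num) hk' (pow_mem ht 2) ?_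
    filter_upwards [e] with i hi
    refine ⟨fun x hx => ?_, fun x hx => ?_⟩
    · rw [Equiv.Perm.mul_apply, Equiv.Perm.mul_apply, aff_inv_apply h20,
        hi.1 _ (by linarith), aff_apply h20]
      ring
    · rw [Equiv.Perm.mul_apply, Equiv.Perm.mul_apply, aff_inv_apply h20,
        hi.2.1 _ (by linarith), aff_apply h20, Pi.pow_apply, tr_pow, h2, tr_apply, tr_apply]
      ring
  have hE : (S.gP fun i => aff 2 0 * ⁅k i, tr (σ i)⁆ * (aff 2 0)⁻¹) =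
      ⁅S.gP fun i => aff 2 0 * k i * (aff 2 0)⁻¹, (S.gP fun i => tr (σ i)) ^ 2⁆ := by
    rw [← map_pow, ← map_commutatorElement]
    refine gP_eq.2 (Eventually.of_forall fun i => ?_)
    rw [dil1_comm_apply, Pi.pow_apply, tr_pow, h2, ← aff_conj_tr h20 0 (σ i),
      conjugate_commutatorElement]
  have hE' : (S.gP fun i => ⁅k i, tr (σ i)⁆) = ⁅S.gP k, S.gP fun i => tr (σ i)⁆ := by
    rw [← map_commutatorElement]
    exact gP_eq.2 (Eventually.of_forall fun i => (dil1_comm_apply k (fun i => tr (σ i)) i).symm)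
  rw [hE, hE'] at hd
  have hC : (S.gP fun i => tr (3⁻¹ * c i)) * (S.gP fun i => tr (σ i)) =
      (S.gP fun i => tr (σ i)) * S.gP fun i => tr (3⁻¹ * c i) := by
    rw [← map_mul, ← map_mul]
    exact gP_eq.2 (Eventually.of_forall hcm)
  have hres := AbsD.triv_pow (D := 2) (by norm_num) hT hT' (mem_AD.2 hs) hC hd
  have hP : (S.gP fun i => tr (3⁻¹ * c i)) ^ (2 ^ 2 - 1) = S.gP fun i => tr (c i) := by
    rw [← map_pow]
    refine gP_eq.2 (Eventually.of_forall fun i => ?_)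
    have h3 : ((2 ^ 2 - 1 : ℕ) : ℝ) * (3⁻¹ * c i) = c i := by
      norm_num
      ring
    rw [Pi.pow_apply, tr_pow, h3]
  rwa [hP] at hres

end Scale

end Pool.Agent.P.MP_7bb7e1_gt
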