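import Pool.Agent.P.MP_7bb7e1_gt.VirF

/-! Passing between families and pointwise statements. -/

namespace Pool.Agent.P.MP_7bb7e1_gt

open Filter

/-- support, sup bound and bounds for all derivatives -/
def Ctl (a b A₀ : ℝ) (B : ℕ → ℝ) (u : Gc) : Prop :=
  Fix a b (u : Pm) ∧ sn 0 (dp (u : Pm)) ≤ A₀ ∧ ∀ r, sn r (dp (u : Pm)) ≤ B r

def Sml (a b : ℝ) (B : ℕ → ℝ) (u : Gc) : Prop :=
  Fix a b (u : Pm) ∧ ∀ r, sn r (dp (u : Pm)) ≤ B r

/-- evaluation of a tuple of pairs of families -/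
def evT {ι Γ : Type*} {n : ℕ} (y : Fin n → (ι → Γ) × (ι → Γ)) (i : ι) : Fin n → Γ × Γ :=
  fun k => ((y k).1 i, (y k).2 i)

/-- a family of tuples as a tuple of pairs of Virasoro families -/
noncomputable def lfT {ι : Type*} {n : ℕ} (x : ι → Fin n → Gc × Gc) :
    Fin n → (ι → Vir) × (ι → Vir) :=
  fun k => (fun i => vl (x i k).1, fun i => vl (x i k).2)

theorem Phi_lfT {ι : Type*} {n : ℕ} (x : ι → Fin n → Gc × Gc) (i : ι) :
    Phi (List.ofFn (lfT x)) i = PhiL vl (List.ofFn (x i)) := by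
  have h := map_Phi (Pi.evalMonoidHom (fun _ : ι => Vir) i) (List.ofFn (lfT x))
  rw [Pi.evalMonoidHom_apply] at h
  rw [h, PhiL, List.map_ofFn, List.map_ofFn]
  rfl

theorem extract_mono {a b A₀ A₁ : ℝ} {B B' : ℕ → ℝ} {u : Gc} (h : Ctl a b A₀ B u) (h0 : A₀ ≤ A₁)
    (h1 : ∀ r, B r ≤ B' r) : Ctl a b A₁ B' u :=
  ⟨h.1, h.2.1.trans h0, fun r => (h.2.2 r).trans (h1 r)⟩

namespace Scale

variable {S : Scale} {n : ℕ}

theorem extract_up {a b : ℝ} {K K' : ℕ} {C C' : ℕ → ℝ} {u : Gc} {i : S.ι} (hK : K ≤ K')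
    (hC : ∀ r, 0 ≤ C r) (hC' : ∀ r, C r ≤ C' r)
    (h : Ctl a b (C 0 * S.ε i ^ n) (fun r => C r * S.H r i / S.ε i ^ K) u) :
    Ctl a b (C' 0 * S.ε i ^ n) (fun r => C' r * S.H r i / S.ε i ^ K') u := by
  have he := S.pos i
  refine extract_mono h (mul_le_mul_of_nonneg_right (hC' 0) (pow_pos he n).le) fun r => ?_
  have hH : 0 ≤ S.H r i := zero_le_one.trans (S.one_le r i)
  refine div_le_div₀ (mul_nonneg ((hC r).trans (hC' r)) hH)
    (mul_le_mul_of_nonneg_right (hC' r) hH) (pow_pos he K') ?_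
  exact pow_le_pow_of_le_one he.le ((S.le_half i).trans (by norm_num)) hK

theorem extract_one {a b : ℝ} {t : S.ι → Gc} (ht : cF t ∈ S.GF n a b) :
    ∃ A ∈ S.F, ∃ (K : ℕ) (C : ℕ → ℝ), (∀ r, 0 ≤ C r) ∧ ∀ i ∈ A,
      Ctl a b (C 0 * S.ε i ^ n) (fun r => C r * S.H r i / S.ε i ^ K) (t i) := by
  obtain ⟨K, A, hA, -, hC⟩ := GB_tame (mem_GF.1 ht).1
  choose C hC using hC
  obtain ⟨C₀, h0, e0⟩ := odS_iff.1 ((GB_od (mem_GF.1 ht).1).odS_sn 0)
  have e1 := GF_fix ht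
  refine ⟨_, inter_mem hA (e0.and e1), K, fun r => max (C r) C₀,
    fun r => h0.trans (le_max_right _ _), fun i hi => ⟨hi.2.2, ?_, fun r => ?_⟩⟩
  · refine (le_abs_self _).trans (hi.2.1.trans ?_)
    exact mul_le_mul_of_nonneg_right (le_max_right _ _) (pow_pos (S.pos i) n).le
  · refine (hC r i hi.1).trans ?_
    exact div_le_div_of_nonneg_right (mul_le_mul_of_nonneg_right (le_max_left _ _)
      (zero_le_one.trans (S.one_le r i))) (pow_pos (S.pos i) K).le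

theorem extract {N : Type*} [Finite N] {a b : N → ℝ} (x : N → (S.ι → Gc) × (S.ι → Gc))
    (hx : ∀ k, cF (x k).1 ∈ S.GF n (a k) (b k) ∧ cF (x k).2 ∈ S.GF n (a k) (b k)) :
    ∃ A ∈ S.F, ∃ (K : ℕ) (C : ℕ → ℝ), (∀ r, 0 ≤ C r) ∧ ∀ i ∈ A, ∀ k,
      Ctl (a k) (b k) (C 0 * S.ε i ^ n) (fun r => C r * S.H r i / S.ε i ^ K) ((x k).1 i) ∧
      Ctl (a k) (b k) (C 0 * S.ε i ^ n) (fun r => C r * S.H r i / S.ε i ^ K) ((x k).2 i) := by
  choose A hA K C hC h using fun k => extract_one (hx k).1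
  choose A' hA' K' C' hC' h' using fun k => extract_one (hx k).2
  have := Fintype.ofFinite N
  have hs : ∀ r k, C k r + C' k r ≤ ∑ j, (C j r + C' j r) := fun r k =>
    Finset.single_le_sum (f := fun j => C j r + C' j r)
      (fun j _ => add_nonneg (hC j r) (hC' j r)) (Finset.mem_univ k)
  have hk : ∀ k, K k + K' k ≤ ∑ j, (K j + K' j) := fun k =>
    Finset.single_le_sum (f := fun j => K j + K' j) (fun j _ => Nat.zero_le _) (Finset.mem_univ k)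
  refine ⟨⋂ k, (A k ∩ A' k), iInter_mem.2 fun k => inter_mem (hA k) (hA' k), ∑ j, (K j + K' j),
    fun r => ∑ j, (C j r + C' j r),
    fun r => Finset.sum_nonneg fun j _ => add_nonneg (hC j r) (hC' j r), fun i hi k => ?_⟩
  have hi' := Set.mem_iInter.1 hi k
  exact ⟨extract_up (C' := fun r => ∑ j, (C j r + C' j r)) ((Nat.le_add_right _ _).trans (hk k))
      (hC k) (fun r => (le_add_of_nonneg_right (hC' k r)).trans (hs r k)) (h k i hi'.1),
    extract_up (C' := fun r => ∑ j, (C j r + C' j r)) ((Nat.le_add_left _ _).trans (hk k))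
      (hC' k) (fun r => (le_add_of_nonneg_left (hC k r)).trans (hs r k)) (h' k i hi'.2)⟩

/-- `Phi_eq_PhiL`, `map_Phi` with `Pi.evalMonoidHom` -/
theorem exists_tuple {a b : ℝ} (x : List ((S.ι → Vir) × (S.ι → Vir)))
    (hx : ∀ p ∈ x, p.1 ∈ S.VG n a b ∧ p.2 ∈ S.VG n a b) :
    ∃ y : Fin x.length → (S.ι → Gc) × (S.ι → Gc),
      (∀ k, cF (y k).1 ∈ S.GF n a b ∧ cF (y k).2 ∈ S.GF n a b) ∧
        ∀ i, PhiL vl (List.ofFn (evT y i)) = Phi x i := by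
  refine ⟨fun k => (fun i => ((x.get k).1 i).g, fun i => ((x.get k).2 i).g),
    fun k => hx _ (List.get_mem x k), fun i => ?_⟩
  have h := map_Phi (Pi.evalMonoidHom (fun _ : S.ι => Vir) i) x
  rw [Pi.evalMonoidHom_apply] at h
  rw [h, Phi_eq_PhiL, List.map_map]
  congr 1
  conv_rhs => rw [← List.ofFn_get x, List.map_ofFn]
  rfl

/-- uniformly small families are tame -/
theorem mem_GF_of_sml (hn : 1 ≤ n) {a b a' b' : ℝ} (ha : a' < a) (hb : b < b') {t : S.ι → Gc}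
    {C : ℕ → ℝ} (h : ∀ᶠ i in S.F, Sml a b (fun r => C r * S.ε i ^ n) (t i)) :
    cF t ∈ S.GF n a' b' := by
  refine mem_GF_iff.2 ⟨mem_GB_of hn ⟨0, _, h, fun i _ => Gc.sm (t i), fun r => ⟨|C r|, ?_⟩⟩
    ⟨Eventually.of_forall fun i => Gc.sm (t i), fun r => odS_iff.2 ⟨|C r|, abs_nonneg _, ?_⟩⟩,
    a, b, ha, hb, h.mono fun i hi => hi.1⟩
  · intro i hi
    refine (hi.2 r).trans ?_
    have h1 : S.ε i ^ n ≤ S.H r i :=
      (pow_le_one₀ (S.pos i).le ((S.le_half i).trans (by norm_num))).trans (S.one_le r i)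
    rw [pow_zero, div_one]
    exact mul_le_mul (le_abs_self _) h1 (pow_pos (S.pos i) n).le (abs_nonneg _)
  · filter_upwards [h] with i hi
    rw [abs_of_nonneg (sn_nonneg _ _)]
    exact (hi.2 r).trans (mul_le_mul_of_nonneg_right (le_abs_self _) (pow_pos (S.pos i) n).le)

/-- `Tame.of_le` and `Tame.od` -/
theorem mem_GF_of_ctl (hn : 1 ≤ n) {a b a' b' : ℝ} (ha : a' < a) (hb : b < b') {t : S.ι → Gc}
    {f : S.ι → ℝ → ℝ} (hf : S.Tame f) {K : ℕ} {C : ℕ → ℝ}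
    (h : ∀ᶠ i in S.F, Ctl a b (C 0 * S.ε i ^ (n + 1))
      (fun r => C r * (1 + nm r (f i)) / S.ε i ^ K) (t i)) : cF t ∈ S.GF n a' b' := by
  have ht : S.Tame (dpF (cF t)) := by
    refine hf.of_le K 0 h (fun i _ => Gc.sm (t i)) fun r => ⟨C r, fun i hi => ?_⟩
    rw [Nat.max_zero]
    exact hi.2.2 r
  refine mem_GF_iff.2 ⟨mem_GB_of hn ht (ht.od (odS_iff.2 ⟨|C 0|, abs_nonneg _, ?_⟩)),
    a, b, ha, hb, h.mono fun i hi => hi.1⟩
  filter_upwards [h] with i hi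
  rw [abs_of_nonneg (sn_nonneg _ _)]
  exact hi.2.1.trans (mul_le_mul_of_nonneg_right (le_abs_self _) (pow_pos (S.pos i) _).le)

end Scale

end Pool.Agent.P.MP_7bb7e1_gt
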