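import Mathlib

/-! The commutator pairing in the top weight of a filtered group. -/

namespace Pool.Agent.P.MP_7bb7e1_gt

open scoped commutatorElement

section Aux

variable {Γ : Type*} [Group Γ]

theorem comm_mul_left' (x x' y : Γ) : ⁅x * x', y⁆ = x * ⁅x', y⁆ * x⁻¹ * ⁅x, y⁆ := by
  simp only [commutatorElement_def]; group

theorem comm_mul_right' (x y y' : Γ) : ⁅x, y * y'⁆ = ⁅x, y⁆ * (y * ⁅x, y'⁆ * y⁻¹) := by
  simp only [commutatorElement_def]; group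

theorem hall_witt' (x y z : Γ) :
    ⁅⁅x, y⁆, y * z * y⁻¹⁆ * ⁅⁅y, z⁆, z * x * z⁻¹⁆ * ⁅⁅z, x⁆, x * y * x⁻¹⁆ = 1 := by
  simp only [commutatorElement_def]; group

theorem conj_of_center {c : Γ} (hc : c ∈ Subgroup.center Γ) (x : Γ) : x * c * x⁻¹ = c := by
  rw [Subgroup.mem_center_iff.1 hc x, mul_inv_cancel_right]

end Aux

/-- For `l + n = q` commutators of `G l` with `G n` lie in `G q`, which is central by `nil`;
the pairing is bimultiplicative and only depends on classes modulo `G (l+1)`, `G (n+1)`.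
The Hall-Witt identity `⁅⁅x,y⁆, y z y⁻¹⁆ ⁅⁅y,z⁆, z x z⁻¹⁆ ⁅⁅z,x⁆, x y x⁻¹⁆ = 1` gives Jacobi.
Take `A = Additive (Subgroup.center Γ)` (open scoped IsMulCommutative). -/
theorem filt_pairing.{u} {Γ : Type u} {V : Type*} [Group Γ] [AddCommGroup V] (G : ℕ → Subgroup Γ) (q : ℕ)
    (top : ∀ x, x ∈ G 1) (anti : ∀ m n, m ≤ n → G n ≤ G m)
    (comm : ∀ m n, 1 ≤ m → 1 ≤ n → ∀ x ∈ G m, ∀ y ∈ G n, ⁅x, y⁆ ∈ G (m + n))
    (nil : ∀ m n, 1 ≤ m → 1 ≤ n → q + 1 ≤ m + n → ∀ x ∈ G m, ∀ y ∈ G n, ⁅x, y⁆ = 1)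
    (β : V → V → V) (Rep : ℕ → V → Γ → Prop)
    (ex : ∀ l, 1 ≤ l → ∀ f, ∃ x, Rep l f x)
    (mem : ∀ l f x, 1 ≤ l → Rep l f x → x ∈ G l)
    (uniq : ∀ l f x x', 1 ≤ l → Rep l f x → Rep l f x' → x' * x⁻¹ ∈ G (l + 1))
    (add : ∀ l f f' x x', 1 ≤ l → Rep l f x → Rep l f' x' → Rep l (f + f') (x * x'))
    (skew : ∀ f h, β f h = -β h f)
    (brk : ∀ l m f h x y, 1 ≤ l → 1 ≤ m → Rep l f x → Rep m h y → Rep (l + m) (β h f) ⁅x, y⁆) :
    ∃ (A : Type u) (_ : AddCommGroup A) (val : A → Γ) (Ω : ℕ → V →+ V →+ A),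
      val 0 = 1 ∧ (∀ a a', val (a + a') = val a * val a') ∧ Function.Injective val ∧
      (∀ l n f h x y, 1 ≤ l → 1 ≤ n → l + n = q → Rep l f x → Rep n h y →
        val (Ω l f h) = ⁅x, y⁆) ∧
      ∀ l m u v w, 1 ≤ l → 1 ≤ m → l + m + 1 ≤ q →
        Ω (l + m) (β u v) w = Ω l u (β v w) - Ω m v (β u w) := by
  classical
  have cen : ∀ l n, 1 ≤ l → 1 ≤ n → l + n = q → ∀ x ∈ G l, ∀ y ∈ G n,
      ⁅x, y⁆ ∈ Subgroup.center Γ := by
    intro l n hl hn hq x hx y hy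
    rw [Subgroup.mem_center_iff]
    intro g
    have := nil 1 (l + n) le_rfl (by omega) (by omega) g (top g) _ (comm l n hl hn x hx y hy)
    exact (commutatorElement_eq_one_iff_mul_comm).1 this
  have mulL : ∀ l n, 1 ≤ l → 1 ≤ n → l + n = q → ∀ x ∈ G l, ∀ x' ∈ G l, ∀ y ∈ G n,
      ⁅x * x', y⁆ = ⁅x, y⁆ * ⁅x', y⁆ := by
    intro l n hl hn hq x hx x' hx' y hy
    rw [comm_mul_left', conj_of_center (cen l n hl hn hq x' hx' y hy),
      Subgroup.mem_center_iff.1 (cen l n hl hn hq x' hx' y hy)]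
  have mulR : ∀ l n, 1 ≤ l → 1 ≤ n → l + n = q → ∀ x ∈ G l, ∀ y ∈ G n, ∀ y' ∈ G n,
      ⁅x, y * y'⁆ = ⁅x, y⁆ * ⁅x, y'⁆ := by
    intro l n hl hn hq x hx y hy y' hy'
    rw [comm_mul_right', conj_of_center (cen l n hl hn hq x hx y' hy')]
  have wdL : ∀ l n, 1 ≤ l → 1 ≤ n → l + n = q → ∀ x ∈ G l, ∀ x', x' * x⁻¹ ∈ G (l + 1) →
      ∀ y ∈ G n, ⁅x', y⁆ = ⁅x, y⁆ := by
    intro l n hl hn hq x hx x' hx' y hy
    have e : x' = x' * x⁻¹ * x := by group
    rw [e, mulL l n hl hn hq _ (anti _ _ (Nat.le_succ l) hx') x hx y hy,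
      nil (l + 1) n (by omega) hn (by omega) _ hx' y hy, one_mul]
  have wdR : ∀ l n, 1 ≤ l → 1 ≤ n → l + n = q → ∀ x ∈ G l, ∀ y ∈ G n, ∀ y',
      y' * y⁻¹ ∈ G (n + 1) → ⁅x, y'⁆ = ⁅x, y⁆ := by
    intro l n hl hn hq x hx y hy y' hy'
    have e : y' = y' * y⁻¹ * y := by group
    rw [e, mulR l n hl hn hq x hx _ (anti _ _ (Nat.le_succ n) hy') y hy,
      nil l (n + 1) hl (by omega) (by omega) x hx _ hy', one_mul]
  have wd : ∀ l n, 1 ≤ l → 1 ≤ n → l + n = q → ∀ f h x x' y y', Rep l f x → Rep l f x' →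
      Rep n h y → Rep n h y' → ⁅x', y'⁆ = ⁅x, y⁆ := by
    intro l n hl hn hq f h x x' y y' hx hx' hy hy'
    rw [wdL l n hl hn hq x (mem l f x hl hx) x' (uniq l f x x' hl hx hx') y' (mem n h y' hn hy'),
      wdR l n hl hn hq x (mem l f x hl hx) y (mem n h y hn hy) y' (uniq n h y y' hn hy hy')]
  have jac : ∀ l m n, 1 ≤ l → 1 ≤ m → 1 ≤ n → l + m + n = q → ∀ x ∈ G l, ∀ y ∈ G m, ∀ z ∈ G n,
      ⁅⁅x, y⁆, z⁆ * ⁅⁅y, z⁆, x⁆ * ⁅⁅z, x⁆, y⁆ = 1 := by
    intro l m n hl hm hn hq x hx y hy z hz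
    have key : ∀ l m n, 1 ≤ l → 1 ≤ m → 1 ≤ n → l + m + n = q → ∀ x ∈ G l, ∀ y ∈ G m, ∀ z ∈ G n,
        ⁅⁅x, y⁆, y * z * y⁻¹⁆ = ⁅⁅x, y⁆, z⁆ := by
      intro l m n hl hm hn hq x hx y hy z hz
      exact wdR (l + m) n (by omega) hn hq _ (comm l m hl hm x hx y hy) z hz _
        (anti _ _ (by omega) (comm m n hm hn y hy z hz))
    rw [← key l m n hl hm hn hq x hx y hy z hz, ← key m n l hm hn hl (by omega) y hy z hz x hx,
      ← key n l m hn hl hm (by omega) z hz x hx y hy]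
    exact hall_witt' x y z
  choose! rp hrp using ex
  let _ : CommGroup (Subgroup.center Γ) :=
    { (inferInstance : Group (Subgroup.center Γ)) with
      mul_comm := fun a b => Subtype.ext (Subgroup.mem_center_iff.1 b.2 a.1) }
  let val : Additive (Subgroup.center Γ) → Γ := fun a => (a.toMul : Γ)
  have hval : Function.Injective val := fun a b h => Additive.toMul.injective (Subtype.ext h)
  have hadd : ∀ a a', val (a + a') = val a * val a' := fun _ _ => rfl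
  let ω : ∀ l, 1 ≤ l ∧ l + 1 ≤ q → V → V → Additive (Subgroup.center Γ) := fun l hl f h =>
    Additive.ofMul ⟨⁅rp l f, rp (q - l) h⁆, cen l (q - l) hl.1 (by omega) (by omega) _
      (mem l f _ hl.1 (hrp l hl.1 f)) _ (mem (q - l) h _ (by omega) (hrp (q - l) (by omega) h))⟩
  have hω : ∀ l hl f h x y, Rep l f x → Rep (q - l) h y → val (ω l hl f h) = ⁅x, y⁆ := by
    intro l hl f h x y hx hy
    exact wd l (q - l) hl.1 (by omega) (by omega) f h x _ y _ hx (hrp l hl.1 f) hy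
      (hrp (q - l) (by omega) h)
  let Ω : ℕ → V →+ V →+ Additive (Subgroup.center Γ) := fun l =>
    if hl : 1 ≤ l ∧ l + 1 ≤ q then
      AddMonoidHom.mk' (fun f => AddMonoidHom.mk' (fun h => ω l hl f h) (by
        intro h h'
        apply hval
        have h1 := hrp (q - l) (by omega) h
        have h2 := hrp (q - l) (by omega) h'
        rw [hadd, hω l hl f _ _ _ (hrp l hl.1 f) (add _ _ _ _ _ (by omega) h1 h2),
          hω l hl f _ _ _ (hrp l hl.1 f) h1, hω l hl f _ _ _ (hrp l hl.1 f) h2]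
        exact mulR l (q - l) hl.1 (by omega) (by omega) _ (mem l f _ hl.1 (hrp l hl.1 f)) _
          (mem _ _ _ (by omega) h1) _ (mem _ _ _ (by omega) h2))) (by
        intro f f'
        refine AddMonoidHom.ext fun h => ?_
        apply hval
        have h0 := hrp (q - l) (by omega) h
        have h1 := hrp l hl.1 f
        have h2 := hrp l hl.1 f'
        simp only [AddMonoidHom.mk'_apply, AddMonoidHom.add_apply]
        rw [hadd, hω l hl _ h _ _ (add _ _ _ _ _ hl.1 h1 h2) h0, hω l hl _ h _ _ h1 h0,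
          hω l hl _ h _ _ h2 h0]
        exact mulL l (q - l) hl.1 (by omega) (by omega) _ (mem _ _ _ hl.1 h1) _
          (mem _ _ _ hl.1 h2) _ (mem _ _ _ (by omega) h0))
    else 0
  have hΩ : ∀ l n f h x y, 1 ≤ l → 1 ≤ n → l + n = q → Rep l f x → Rep n h y →
      val (Ω l f h) = ⁅x, y⁆ := by
    intro l n f h x y hl hn hq hx hy
    have hl' : 1 ≤ l ∧ l + 1 ≤ q := ⟨hl, by omega⟩
    obtain rfl : n = q - l := by omega
    simp only [Ω, dif_pos hl', AddMonoidHom.mk'_apply]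
    exact hω l hl' f h x y hx hy
  refine ⟨Additive (Subgroup.center Γ), inferInstance, val, Ω, rfl, hadd, hval, hΩ, ?_⟩
  intro l m u v w hl hm hq
  obtain ⟨n, hn, hq'⟩ : ∃ n, 1 ≤ n ∧ l + m + n = q := ⟨q - l - m, by omega, by omega⟩
  have hx := hrp l hl u
  have hy := hrp m hm v
  have hz := hrp n hn w
  set x := rp l u
  set y := rp m v
  set z := rp n w
  have mx := mem _ _ _ hl hx
  have my := mem _ _ _ hm hy
  have mz := mem _ _ _ hn hz
  rw [eq_sub_iff_add_eq]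
  apply hval
  have r1 := brk m l v u y x hm hl hy hx
  rw [Nat.add_comm] at r1
  rw [hadd, hΩ (l + m) n _ _ _ _ (by omega) hn hq' r1 hz,
    hΩ l (n + m) _ _ _ _ hl (by omega) (by omega) hx (brk n m w v z y hn hm hz hy),
    hΩ m (n + l) _ _ _ _ hm (by omega) (by omega) hy (brk n l w u z x hn hl hz hx)]
  have J := jac m l n hm hl hn (by omega) y my x mx z mz
  have e1 : ⁅⁅x, z⁆, y⁆ * ⁅⁅z, x⁆, y⁆ = 1 := by
    rw [← mulL (l + n) m (by omega) hm (by omega) _ (comm l n hl hn x mx z mz) _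
      (by rw [Nat.add_comm]; exact comm n l hn hl z mz x mx) y my,
      ← commutatorElement_inv z x, inv_mul_cancel, commutatorElement_one_left]
  rw [← commutatorElement_inv ⁅z, x⁆ y, ← commutatorElement_inv ⁅z, y⁆ x,
    ← eq_inv_of_mul_eq_one_left e1, eq_inv_of_mul_eq_one_left J]

end Pool.Agent.P.MP_7bb7e1_gt
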