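import Pool.Agent.P.MP_7bb7e1_gt.Basic

/-! Integral 2-chains of a group, evaluation of cochains, the universal cocycle. -/

namespace Pool.Agent.P.MP_7bb7e1_gt

namespace FinA

open groupHomology

variable {Γ : Type} [Group Γ] {A : Type*} [AddCommGroup A]

/-- evaluation of a cochain on an integral chain -/
noncomputable def ev {ι : Type} (c : ι → A) : (ι →₀ ℤ) →+ A :=
  Finsupp.liftAddHom fun p => zmultiplesHom A (c p)

theorem ev_single {ι : Type} (c : ι → A) (p : ι) (n : ℤ) : ev c (Finsupp.single p n) = n • c p := by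
  simp [ev]

theorem ev_apply {ι : Type} (c : ι → A) (z : ι →₀ ℤ) : ev c z = z.sum fun p n => n • c p := by
  rw [ev, Finsupp.liftAddHom_apply]
  rfl

theorem ev_congr {ι : Type} {c c' : ι → A} {z : ι →₀ ℤ} (h : ∀ p ∈ z.support, c p = c' p) :
    ev c z = ev c' z := by
  rw [ev_apply, ev_apply]
  exact Finsupp.sum_congr fun p hp => by rw [h p hp]

theorem ev_add {ι : Type} (c c' : ι → A) (z : ι →₀ ℤ) :
    ev (fun p => c p + c' p) z = ev c z + ev c' z := by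
  have : ev (fun p => c p + c' p) = ev c + ev c' := by
    refine Finsupp.addHom_ext fun p n => ?_
    simp [ev_single]
  rw [this]; rfl

theorem ev_map {ι : Type} {B : Type*} [AddCommGroup B] (φ : B →+ A) (c : ι → B) (z : ι →₀ ℤ) :
    ev (fun p => φ (c p)) z = φ (ev c z) := by
  have : ev (fun p => φ (c p)) = φ.comp (ev c) := by
    refine Finsupp.addHom_ext fun p n => ?_
    simp [ev_single]
  rw [this]; rfl

variable (Γ) in
/-- the boundary of 2-chains -/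
noncomputable def d2 : (Γ × Γ →₀ ℤ) →+ (Γ →₀ ℤ) :=
  (d₂₁ (Rep.trivial ℤ Γ ℤ)).hom.toAddMonoidHom

variable (Γ) in
/-- the boundary of 3-chains -/
noncomputable def d3 : (Γ × Γ × Γ →₀ ℤ) →+ (Γ × Γ →₀ ℤ) :=
  (d₃₂ (Rep.trivial ℤ Γ ℤ)).hom.toAddMonoidHom

theorem d2_single (g h : Γ) (n : ℤ) : d2 Γ (Finsupp.single (g, h) n) =
    Finsupp.single h n - Finsupp.single (g * h) n + Finsupp.single g n :=
  d₂₁_single (A := Rep.trivial ℤ Γ ℤ) (g, h) n

theorem d3_single (g h k : Γ) (n : ℤ) : d3 Γ (Finsupp.single (g, h, k) n) =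
    Finsupp.single (h, k) n - Finsupp.single (g * h, k) n + Finsupp.single (g, h * k) n -
      Finsupp.single (g, h) n :=
  d₃₂_single (A := Rep.trivial ℤ Γ ℤ) (g, h, k) n

theorem mem_cyc {z : Γ × Γ →₀ ℤ} : z ∈ cycles₂ (Rep.trivial ℤ Γ ℤ) ↔ d2 Γ z = 0 := Iff.rfl

theorem mem_bd {z : Γ × Γ →₀ ℤ} : z ∈ boundaries₂ (Rep.trivial ℤ Γ ℤ) ↔ z ∈ (d3 Γ).range :=
  Iff.rfl

theorem d2_d3 (y : Γ × Γ × Γ →₀ ℤ) : d2 Γ (d3 Γ y) = 0 :=
  mem_cyc.1 (d₃₂_apply_mem_cycles₂ (A := Rep.trivial ℤ Γ ℤ) y)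

theorem ev_cob (β : Γ → A) (z : Γ × Γ →₀ ℤ) :
    ev (fun p : Γ × Γ => β p.1 + β p.2 - β (p.1 * p.2)) z = ev β (d2 Γ z) := by
  have : ev (fun p : Γ × Γ => β p.1 + β p.2 - β (p.1 * p.2)) = (ev β).comp (d2 Γ) := by
    refine Finsupp.addHom_ext fun p n => ?_
    obtain ⟨g, h⟩ := p
    rw [AddMonoidHom.comp_apply, d2_single, map_add, map_sub, ev_single, ev_single, ev_single,
      ev_single]
    simp only [smul_add, smul_sub]
    abel
  rw [this]; rfl

theorem ev_d3 (c : Coc Γ A) (y : Γ × Γ × Γ →₀ ℤ) :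
    ev (fun p : Γ × Γ => c.c p.1 p.2) (d3 Γ y) = 0 := by
  have : (ev (fun p : Γ × Γ => c.c p.1 p.2)).comp (d3 Γ) = 0 := by
    refine Finsupp.addHom_ext fun p n => ?_
    obtain ⟨g, h, k⟩ := p
    rw [AddMonoidHom.comp_apply, d3_single, map_sub, map_add, map_sub, ev_single, ev_single,
      ev_single, ev_single, AddMonoidHom.zero_apply, ← smul_sub, ← smul_add, ← smul_sub]
    have h1 := c.coc g h k
    have h2 : c.c h k - c.c (g * h) k + c.c g (h * k) - c.c g h = 0 := by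
      linear_combination (norm := abel) -h1
    rw [h2, smul_zero]
  exact DFunLike.congr_fun this y

variable (Γ) in
/-- 2-chains modulo boundaries -/
abbrev Qt := (Γ × Γ →₀ ℤ) ⧸ (d3 Γ).range

variable (Γ) in
/-- the class of a 2-chain -/
noncomputable def mk : (Γ × Γ →₀ ℤ) →+ Qt Γ := QuotientAddGroup.mk' _

theorem mk_eq_zero {z : Γ × Γ →₀ ℤ} : mk Γ z = 0 ↔ z ∈ (d3 Γ).range :=
  QuotientAddGroup.eq_zero_iff z

theorem mk_surj (a : Qt Γ) : ∃ z, mk Γ z = a := QuotientAddGroup.mk'_surjective _ a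

variable (Γ) in
/-- the universal cocycle -/
noncomputable def uc : Coc Γ (Qt Γ) where
  c g h := mk Γ (Finsupp.single (g, h) 1) - mk Γ (Finsupp.single (1, 1) 1)
  coc g h k := by
    have h1 : mk Γ (d3 Γ (Finsupp.single (g, h, k) 1)) = 0 := mk_eq_zero.2 ⟨_, rfl⟩
    rw [d3_single, map_sub, map_add, map_sub] at h1
    linear_combination (norm := abel) -h1
  one_one := sub_self _

theorem ev_mk (z : Γ × Γ →₀ ℤ) : ev (fun p : Γ × Γ => mk Γ (Finsupp.single p 1)) z = mk Γ z := by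
  have : ev (fun p : Γ × Γ => mk Γ (Finsupp.single p 1)) = mk Γ := by
    refine Finsupp.addHom_ext fun p n => ?_
    rw [ev_single, ← map_zsmul, Finsupp.smul_single, smul_eq_mul, mul_one]
  rw [this]

/-- a cycle on whose support the universal cocycle is `φ ∘ b` up to a coboundary -/
theorem mk_eq_of {B : Type*} [AddCommGroup B] (b : Γ → Γ → B) (φ : B →+ Qt Γ) (β : Γ → Qt Γ)
    {z : Γ × Γ →₀ ℤ} (hz : d2 Γ z = 0) (h : ∀ p ∈ z.support,
      (uc Γ).c p.1 p.2 = φ (b p.1 p.2) + (β p.1 + β p.2 - β (p.1 * p.2))) :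
    mk Γ z = φ (ev (fun p : Γ × Γ => b p.1 p.2) z) := by
  set u := mk Γ (Finsupp.single (1, 1) 1) with hu
  have h1 : ev (fun p : Γ × Γ => mk Γ (Finsupp.single p 1)) z =
      ev (fun p : Γ × Γ => φ (b p.1 p.2) +
        ((β p.1 + u) + (β p.2 + u) - (β (p.1 * p.2) + u))) z := by
    refine ev_congr fun p hp => ?_
    have h2 : mk Γ (Finsupp.single (p.1, p.2) 1) - u = _ := h p hp
    have h3 : mk Γ (Finsupp.single p 1) = mk Γ (Finsupp.single (p.1, p.2) 1) := rfl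
    rw [h3]
    linear_combination (norm := abel) h2
  rw [← ev_mk, h1, ev_add, ev_map φ (fun p : Γ × Γ => b p.1 p.2),
    ev_cob (fun g => β g + u), hz, map_zero, add_zero]

/-- evaluation of a cocycle on classes -/
noncomputable def evQ (c : Coc Γ A) : Qt Γ →+ A :=
  QuotientAddGroup.lift _ (ev fun p : Γ × Γ => c.c p.1 p.2) (by
    rintro _ ⟨y, rfl⟩
    exact ev_d3 c y)

theorem evQ_mk (c : Coc Γ A) (z : Γ × Γ →₀ ℤ) :
    evQ c (mk Γ z) = ev (fun p : Γ × Γ => c.c p.1 p.2) z := rfl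

variable (Γ) in
/-- the boundary on classes -/
noncomputable def dQ : Qt Γ →+ (Γ →₀ ℤ) :=
  QuotientAddGroup.lift _ (d2 Γ) (by
    rintro _ ⟨y, rfl⟩
    exact d2_d3 y)

theorem dQ_mk (z : Γ × Γ →₀ ℤ) : dQ Γ (mk Γ z) = d2 Γ z := rfl

/-- the map from the universal extension to the extension of `c` -/
noncomputable def toCE (c : Coc Γ A) : CE (uc Γ) →* CE c where
  toFun v := ⟨v.g, evQ c v.a⟩
  map_one' := by ext1 <;> simp
  map_mul' v w := by
    ext1
    · rfl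
    · have h : evQ c ((uc Γ).c v.g w.g) = c.c v.g w.g := by
        change evQ c (mk Γ _ - mk Γ _) = _
        rw [map_sub, evQ_mk, evQ_mk, ev_single, ev_single, one_smul, one_smul, c.one_one, sub_zero]
      simp only [CE.mul_a, map_add, h]

variable (Γ) in
/-- an additive character of the universal extension -/
noncomputable def toAb : CE (uc Γ) →* Multiplicative (Γ →₀ ℤ) where
  toFun v := Multiplicative.ofAdd (dQ Γ v.a + Finsupp.single v.g 1 - Finsupp.single 1 1)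
  map_one' := by simp
  map_mul' v w := by
    have h : dQ Γ ((uc Γ).c v.g w.g) = Finsupp.single w.g 1 - Finsupp.single (v.g * w.g) 1 +
        Finsupp.single v.g 1 - Finsupp.single 1 1 := by
      change dQ Γ (mk Γ _ - mk Γ _) = _
      rw [map_sub, dQ_mk, dQ_mk, d2_single, d2_single, mul_one]
      abel
    rw [← ofAdd_add]
    congr 1
    simp only [CE.mul_a, CE.mul_g, map_add, h]
    abel

theorem Phi_comm {G : Type*} [CommGroup G] (x : List (G × G)) : Phi x = 1 := by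
  induction x with
  | nil => rfl
  | cons p x ih =>
    rw [Phi_cons, ih, mul_one]
    exact commutatorElement_eq_one_iff_mul_comm.2 (mul_comm _ _)

/-- the central element given by a product of commutators is the value on a cycle -/
theorem exists_cycle (c : Coc Γ A) (x : List (Γ × Γ)) (t : A) (h : PhiL (CE.sec c) x = ⟨1, t⟩) :
    ∃ z : Γ × Γ →₀ ℤ, d2 Γ z = 0 ∧ ev (fun p : Γ × Γ => c.c p.1 p.2) z = t := by
  have h1 : toCE c (PhiL (CE.sec (uc Γ)) x) = PhiL (CE.sec c) x := by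
    rw [PhiL, map_Phi, PhiL, List.map_map]
    refine congrArg Phi (List.map_congr_left fun p _ => ?_)
    have e : ∀ g, toCE c (CE.sec (uc Γ) g) = CE.sec c g := fun g => by
      ext1
      · rfl
      · exact map_zero (evQ c)
    exact Prod.ext (e p.1) (e p.2)
  have h2 : toAb Γ (PhiL (CE.sec (uc Γ)) x) = 1 := by
    rw [PhiL, map_Phi, Phi_comm]
  generalize PhiL (CE.sec (uc Γ)) x = v at h1 h2
  rw [h] at h1
  have hg : v.g = 1 := congrArg CE.g h1
  have ha : evQ c v.a = t := congrArg CE.a h1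
  have h3 : dQ Γ v.a + Finsupp.single v.g 1 - Finsupp.single 1 1 = 0 := h2
  rw [hg, add_sub_cancel_right] at h3
  obtain ⟨z, hz⟩ := mk_surj v.a
  rw [← hz] at ha h3
  exact ⟨z, h3, ha⟩

/-- an additive function on cycles, onto, with kernel the boundaries -/
theorem exists_iso (f : (Γ × Γ →₀ ℤ) →+ A)
    (h1 : ∀ z ∈ boundaries₂ (Rep.trivial ℤ Γ ℤ), f z = 0)
    (h2 : ∀ z ∈ cycles₂ (Rep.trivial ℤ Γ ℤ), f z = 0 → z ∈ boundaries₂ (Rep.trivial ℤ Γ ℤ))
    (h3 : ∀ t, ∃ z ∈ cycles₂ (Rep.trivial ℤ Γ ℤ), f z = t) :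
    ∃ Ψ : H2 (Rep.trivial ℤ Γ ℤ) ≃+ A,
      ∀ z : cycles₂ (Rep.trivial ℤ Γ ℤ), Ψ (H2π (Rep.trivial ℤ Γ ℤ) z) = f z.1 := by
  let p : cycles₂ (Rep.trivial ℤ Γ ℤ) →+ H2 (Rep.trivial ℤ Γ ℤ) :=
    (H2π (Rep.trivial ℤ Γ ℤ)).hom.toAddMonoidHom
  have hp : ∀ z, p z = H2π (Rep.trivial ℤ Γ ℤ) z := fun _ => rfl
  have hs : Function.Surjective p := fun y =>
    H2_induction_on (C := fun y => ∃ z, p z = y) y fun z => ⟨z, rfl⟩
  let g : cycles₂ (Rep.trivial ℤ Γ ℤ) →+ A :=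
    f.comp (cycles₂ (Rep.trivial ℤ Γ ℤ)).subtype.toAddMonoidHom
  have hg : ∀ z, g z = f z.1 := fun _ => rfl
  have hk : p.ker ≤ g.ker := fun z hz => by
    rw [AddMonoidHom.mem_ker, hp, H2π_eq_zero_iff] at hz
    exact h1 _ hz
  let Ψ := p.liftOfSurjective hs ⟨g, hk⟩
  have hΨ : ∀ z, Ψ (p z) = g z := fun z => p.liftOfRightInverse_comp_apply _ _ _ z
  refine ⟨AddEquiv.ofBijective Ψ ⟨?_, fun t => ?_⟩, fun z => hΨ z⟩
  · rw [injective_iff_map_eq_zero]
    intro y hy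
    obtain ⟨z, rfl⟩ := hs y
    rw [hΨ] at hy
    rw [hp, H2π_eq_zero_iff]
    exact h2 _ z.2 hy
  · obtain ⟨z, hz, rfl⟩ := h3 t
    exact ⟨p ⟨z, hz⟩, hΨ _⟩

end FinA

end Pool.Agent.P.MP_7bb7e1_gt
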