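import Pool.Agent.P.MP_7bb7e1_gt.PartC
import Pool.Agent.P.MP_7bb7e1_gt.FinalAux

/-! The second homology group. -/

namespace Pool.Agent.P.MP_7bb7e1_gt

open groupHomology

/-- `gv` as an additive map -/
noncomputable def gvHom : (Gc × Gc →₀ ℤ) →+ ℝ :=
  Finsupp.liftAddHom fun p => (AddMonoidHom.mulRight (bt p.1 p.2)).comp (Int.castAddHom ℝ)

theorem gvHom_apply (z : Gc × Gc →₀ ℤ) : gvHom z = gv z := by
  rw [gvHom, Finsupp.liftAddHom_apply]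
  rfl

theorem final_ev (z : Gc × Gc →₀ ℤ) : FinA.ev (fun p : Gc × Gc => bt p.1 p.2) z = gv z := by
  rw [FinA.ev_apply, gv]
  exact Finsupp.sum_congr fun p _ => zsmul_eq_mul _ _

theorem gv_boundary {z : Gc × Gc →₀ ℤ} (hz : z ∈ boundaries₂ (Rep.trivial ℤ Gc ℤ)) : gv z = 0 := by
  obtain ⟨y, rfl⟩ := FinA.mem_bd.1 hz
  rw [← final_ev]
  exact FinA.ev_d3 btc y

theorem final_supp (s : Finset (Gc × Gc)) :
    ∃ M : ℝ, 0 < M ∧ ∀ p ∈ s, p.1 ∈ GI (-M) M ∧ p.2 ∈ GI (-M) M := by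
  classical
  induction s using Finset.induction_on with
  | empty => exact ⟨1, one_pos, by simp⟩
  | insert q s _ ih =>
    obtain ⟨M, hM, h⟩ := ih
    obtain ⟨M₁, -, h₁⟩ := Gc.fix q.1
    obtain ⟨M₂, -, h₂⟩ := Gc.fix q.2
    have e0 : M ≤ max M (max M₁ M₂) := le_max_left _ _
    have e1 : M₁ ≤ max M (max M₁ M₂) := (le_max_left _ _).trans (le_max_right _ _)
    have e2 : M₂ ≤ max M (max M₁ M₂) := (le_max_right _ _).trans (le_max_right _ _)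
    refine ⟨max M (max M₁ M₂), hM.trans_le e0, fun p hp => ?_⟩
    rcases Finset.mem_insert.1 hp with rfl | hp
    · exact ⟨mem_GI.2 (h₁.mono (neg_le_neg e1) e1), mem_GI.2 (h₂.mono (neg_le_neg e2) e2)⟩
    · exact ⟨mem_GI.2 ((mem_GI.1 (h p hp).1).mono (neg_le_neg e0) e0),
        mem_GI.2 ((mem_GI.1 (h p hp).2).mono (neg_le_neg e0) e0)⟩

/-- the universal cocycle `(g, h) ↦ [single (g, h) 1] - [single (1, 1) 1]` with values in the
quotient of the 2-chains by the boundaries, and `cob_on'` -/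
theorem mem_boundaries {z : Gc × Gc →₀ ℤ} (hz : z ∈ cycles₂ (Rep.trivial ℤ Gc ℤ)) (h : gv z = 0) :
    z ∈ boundaries₂ (Rep.trivial ℤ Gc ℤ) := by
  obtain ⟨M, hM, hs⟩ := final_supp z.support
  obtain ⟨φ, β, hβ⟩ := cob_on' (FinA.uc Gc) hM
  have h1 := FinA.mk_eq_of bt φ β (FinA.mem_cyc.1 hz)
    fun p hp => hβ p.1 (hs p hp).1 p.2 (hs p hp).2
  rw [final_ev, h, map_zero] at h1
  exact FinA.mem_bd.2 (FinA.mk_eq_zero.1 h1)

/-- For a list `x` with `PhiL vl x = ⟨1, t⟩` (`st_pt`), the second component of `PhiL` in the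
universal extension is the class of a cycle with `gv = t`; small `t` generate `ℝ`. -/
theorem gv_surj (t : ℝ) : ∃ z ∈ cycles₂ (Rep.trivial ℤ Gc ℤ), gv z = t := by
  obtain ⟨n₁, e₀, C, he, h⟩ := st_pt (β := 1) le_rfl
  have hδ : 0 < e₀ ^ (2 * 1 + 3) := pow_pos he _
  obtain ⟨n, hn⟩ := exists_nat_gt (|t| / e₀ ^ (2 * 1 + 3))
  have hn0 : (0 : ℝ) < n := (div_nonneg (abs_nonneg t) hδ.le).trans_lt hn
  have hs : |t / n| ≤ e₀ ^ (2 * 1 + 3) := by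
    rw [abs_div, abs_of_pos hn0, div_le_iff₀ hn0]
    rw [div_lt_iff₀ hδ] at hn
    linarith
  obtain ⟨x, -, hx⟩ := h e₀ (t / n) he le_rfl hs
  obtain ⟨z, hz, hzt⟩ := FinA.exists_cycle btc _ _ hx
  refine ⟨n • z, FinA.mem_cyc.2 (by rw [map_nsmul, hz, smul_zero]), ?_⟩
  have h2 : FinA.ev (fun p : Gc × Gc => bt p.1 p.2) z = t / n := hzt
  rw [← final_ev, map_nsmul, h2, nsmul_eq_mul]
  field_simp

theorem gv_iso : ∃ Ψ : H2 (Rep.trivial ℤ Gc ℤ) ≃+ ℝ,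
    ∀ z : cycles₂ (Rep.trivial ℤ Gc ℤ), Ψ (H2π (Rep.trivial ℤ Gc ℤ) z) = gv z.1 := by
  obtain ⟨Ψ, hΨ⟩ := FinA.exists_iso gvHom
    (fun z hz => (gvHom_apply z).trans (gv_boundary hz))
    (fun z hz h => mem_boundaries hz ((gvHom_apply z).symm.trans h))
    (fun t => by
      obtain ⟨z, hz, h⟩ := gv_surj t
      exact ⟨z, hz, (gvHom_apply z).trans h⟩)
  exact ⟨Ψ, fun z => (hΨ z).trans (gvHom_apply _)⟩

end Pool.Agent.P.MP_7bb7e1_gt
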