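import Pool.Agent.P.MP_7bb7e1_gt.Tame
import Pool.Agent.P.MP_7bb7e1_gt.Aff

/-! Groups of tame families of small diffeomorphisms. -/

namespace Pool.Agent.P.MP_7bb7e1_gt

open Filter
open scoped commutatorElement

namespace Scale

variable {S : Scale} {m n : ℕ} {g h k w : S.ι → Pm} {a b : ℝ}

/-- displacements of a family -/
def dpF (g : S.ι → Pm) : S.ι → ℝ → ℝ := fun i => dp (g i)

theorem grp_aux_mul (g h : S.ι → Pm) :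
    dpF (g * h) = fun i x => dpF g i (x + dpF h i x) + dpF h i x := by
  funext i
  exact dp_mul (g i) (h i)

theorem grp_aux_small {f : S.ι → ℝ → ℝ} (h1 : S.Od 1 f) (r : ℕ) {δ : ℝ} (hδ : 0 < δ) :
    ∀ᶠ i in S.F, Sm (f i) ∧ nm r (f i) ≤ δ := by
  filter_upwards [h1.sm, Od.small (n := 0) h1 r hδ] with i h2 h3
  exact ⟨h2, by simpa using h3⟩

theorem grp_aux_inv {f : S.ι → ℝ → ℝ} (h1 : S.Od 1 f) :
    ∀ᶠ i in S.F, Sm (f i) ∧ sn 1 (f i) ≤ 1 / 2 ∧ sn 2 (f i) ≤ 1 / 8 := by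
  filter_upwards [grp_aux_small h1 2 (δ := 1 / 8) (by norm_num)] with i hi
  have h2 := sn_le_nm (show 1 ≤ 2 by norm_num) (f i)
  have h3 := sn_le_nm (le_refl 2) (f i)
  exact ⟨hi.1, by linarith [hi.2], by linarith [hi.2]⟩

theorem tame_mul (hg : S.Tame (dpF g)) (hh : S.Tame (dpF h)) (h1 : S.Od 1 (dpF h)) :
    S.Tame (dpF (g * h)) := by
  rw [grp_aux_mul]
  exact (hg.comp hh h1).add hh

theorem od_mul (hg : S.Od n (dpF g)) (hh : S.Od n (dpF h)) : S.Od n (dpF (g * h)) := by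
  rw [grp_aux_mul]
  exact (hg.comp (hh.mono (Nat.zero_le n))).add hh

/-- `inv_crude` and `Tame.of_le` -/
theorem tame_inv (hg : S.Tame (dpF g)) (h1 : S.Od 1 (dpF g)) : S.Tame (dpF g⁻¹) := by
  refine hg.of_le 0 0 (grp_aux_inv h1) (fun i hi => sm_inv_small hi.1 hi.2.1) fun r => ?_
  obtain ⟨C, hC, h⟩ := inv_crude r
  refine ⟨C, fun i hi => ?_⟩
  have h2 := h (g i) hi.1 hi.2.1 hi.2.2
  rw [pow_zero, div_one, max_eq_left (Nat.zero_le r), mul_add, mul_one]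
  exact h2.trans (le_add_of_nonneg_left hC)

theorem od_inv (hg : S.Od n (dpF g)) (h1 : S.Od 1 (dpF g)) : S.Od n (dpF g⁻¹) := by
  refine hg.of_le ((grp_aux_inv h1).mono fun i hi => sm_inv_small hi.1 hi.2.1) fun r => ?_
  obtain ⟨C, -, h⟩ := inv_crude r
  exact ⟨r, C, (grp_aux_inv h1).mono fun i hi => h (g i) hi.1 hi.2.1 hi.2.2⟩

theorem dpF_one : dpF (1 : S.ι → Pm) = fun _ _ => 0 := by
  ext i x; simp [dpF]

variable (S) in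
/-- tame families of order `n` (and at least one) -/
def GB (n : ℕ) : Subgroup (S.ι → Pm) where
  carrier := {g | S.Tame (dpF g) ∧ S.Od 1 (dpF g) ∧ S.Od n (dpF g)}
  one_mem' := by
    refine ⟨?_, ?_, ?_⟩ <;> rw [dpF_one]
    exacts [tame_zero, od_zero, od_zero]
  mul_mem' := fun hg hh => ⟨tame_mul hg.1 hh.1 hh.2.1, od_mul hg.2.1 hh.2.1, od_mul hg.2.2 hh.2.2⟩
  inv_mem' := fun hg => ⟨tame_inv hg.1 hg.2.1, od_inv hg.2.1 hg.2.1, od_inv hg.2.2 hg.2.1⟩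

variable (S) in
/-- eventually the identity on a half line containing `(-∞, a]` with room -/
def GLe (a : ℝ) : Subgroup (S.ι → Pm) where
  carrier := {g | ∃ a', a < a' ∧ ∀ᶠ i in S.F, ∀ x, x ≤ a' → g i x = x}
  one_mem' := ⟨a + 1, lt_add_one a, Eventually.of_forall fun _ _ _ => rfl⟩
  mul_mem' := by
    rintro g h ⟨a₁, h₁, e₁⟩ ⟨a₂, h₂, e₂⟩
    refine ⟨min a₁ a₂, lt_min h₁ h₂, ?_⟩
    filter_upwards [e₁, e₂] with i e₁ e₂ x hx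
    rw [Pi.mul_apply, Equiv.Perm.mul_apply, e₂ x (hx.trans (min_le_right _ _)),
      e₁ x (hx.trans (min_le_left _ _))]
  inv_mem' := by
    rintro g ⟨a₁, h₁, e₁⟩
    refine ⟨a₁, h₁, ?_⟩
    filter_upwards [e₁] with i e₁ x hx
    rw [Pi.inv_apply, Equiv.Perm.inv_eq_iff_eq, e₁ x hx]

variable (S) in
def GRi (b : ℝ) : Subgroup (S.ι → Pm) where
  carrier := {g | ∃ b', b' < b ∧ ∀ᶠ i in S.F, ∀ x, b' ≤ x → g i x = x}
  one_mem' := ⟨b - 1, sub_one_lt b, Eventually.of_forall fun _ _ _ => rfl⟩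
  mul_mem' := by
    rintro g h ⟨a₁, h₁, e₁⟩ ⟨a₂, h₂, e₂⟩
    refine ⟨max a₁ a₂, max_lt h₁ h₂, ?_⟩
    filter_upwards [e₁, e₂] with i e₁ e₂ x hx
    rw [Pi.mul_apply, Equiv.Perm.mul_apply, e₂ x ((le_max_right _ _).trans hx),
      e₁ x ((le_max_left _ _).trans hx)]
  inv_mem' := by
    rintro g ⟨a₁, h₁, e₁⟩
    refine ⟨a₁, h₁, ?_⟩
    filter_upwards [e₁] with i e₁ x hx
    rw [Pi.inv_apply, Equiv.Perm.inv_eq_iff_eq, e₁ x hx]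

variable (S) in
/-- tame families of order `n` with support in a compact subset of `(a, b)` -/
def GF (n : ℕ) (a b : ℝ) : Subgroup (S.ι → Pm) := S.GB n ⊓ (S.GLe a ⊓ S.GRi b)

theorem mem_GB_of (hn : 1 ≤ n) (ht : S.Tame (dpF g)) (ho : S.Od n (dpF g)) : g ∈ S.GB n :=
  ⟨ht, ho.mono hn, ho⟩

theorem GB_tame (h : g ∈ S.GB n) : S.Tame (dpF g) := h.1

theorem GB_od1 (h : g ∈ S.GB n) : S.Od 1 (dpF g) := h.2.1

theorem GB_od (h : g ∈ S.GB n) : S.Od n (dpF g) := h.2.2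

theorem mem_GL : g ∈ S.GLe a ↔ ∃ a', a < a' ∧ ∀ᶠ i in S.F, ∀ x, x ≤ a' → g i x = x := Iff.rfl

theorem mem_GR : g ∈ S.GRi b ↔ ∃ b', b' < b ∧ ∀ᶠ i in S.F, ∀ x, b' ≤ x → g i x = x := Iff.rfl

theorem mem_GF : g ∈ S.GF n a b ↔ g ∈ S.GB n ∧ g ∈ S.GLe a ∧ g ∈ S.GRi b := Iff.rfl

theorem mem_GF_iff : g ∈ S.GF n a b ↔
    g ∈ S.GB n ∧ ∃ a' b', a < a' ∧ b' < b ∧ ∀ᶠ i in S.F, Fix a' b' (g i) := by
  constructor
  · rintro ⟨h, ⟨a', ha, e₁⟩, b', hb, e₂⟩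
    refine ⟨h, a', b', ha, hb, ?_⟩
    filter_upwards [e₁, e₂] with i e₁ e₂ x hx
    exact hx.elim (e₁ x) (e₂ x)
  · rintro ⟨h, a', b', ha, hb, e⟩
    exact ⟨h, ⟨a', ha, e.mono fun i hi x hx => hi x (Or.inl hx)⟩,
      b', hb, e.mono fun i hi x hx => hi x (Or.inr hx)⟩

theorem GF_fix (h : g ∈ S.GF n a b) : ∀ᶠ i in S.F, Fix a b (g i) := by
  obtain ⟨-, a', b', ha, hb, e⟩ := mem_GF_iff.1 h
  exact e.mono fun i hi => hi.mono ha.le hb.le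

theorem GB_congr (hg : g ∈ S.GB n) (e : ∀ᶠ i in S.F, g i = h i) : h ∈ S.GB n := by
  have e' : ∀ᶠ i in S.F, dpF g i = dpF h i := e.mono fun i hi => by simp only [dpF, hi]
  exact ⟨hg.1.congr e', hg.2.1.congr e', hg.2.2.congr e'⟩

theorem GL_congr (hg : g ∈ S.GLe a) (e : ∀ᶠ i in S.F, g i = h i) : h ∈ S.GLe a := by
  obtain ⟨a', ha, e₁⟩ := hg
  refine ⟨a', ha, ?_⟩
  filter_upwards [e, e₁] with i e e₁
  rwa [← e]

theorem GR_congr (hg : g ∈ S.GRi b) (e : ∀ᶠ i in S.F, g i = h i) : h ∈ S.GRi b := by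
  obtain ⟨b', hb, e₁⟩ := hg
  refine ⟨b', hb, ?_⟩
  filter_upwards [e, e₁] with i e e₁
  rwa [← e]

theorem GF_congr (hg : g ∈ S.GF n a b) (e : ∀ᶠ i in S.F, g i = h i) : h ∈ S.GF n a b :=
  ⟨GB_congr hg.1 e, GL_congr hg.2.1 e, GR_congr hg.2.2 e⟩

theorem GB_anti (hmn : m ≤ n) : S.GB n ≤ S.GB m :=
  fun _ hg => ⟨hg.1, hg.2.1, hg.2.2.mono hmn⟩

theorem GB_le_one : S.GB n ≤ S.GB 1 := fun _ hg => ⟨hg.1, hg.2.1, hg.2.1⟩

theorem GL_anti {a' : ℝ} (h : a' ≤ a) : S.GLe a ≤ S.GLe a' :=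
  fun _ ⟨c, hc, e⟩ => ⟨c, h.trans_lt hc, e⟩

theorem GR_mono {b' : ℝ} (h : b ≤ b') : S.GRi b ≤ S.GRi b' :=
  fun _ ⟨c, hc, e⟩ => ⟨c, hc.trans_le h, e⟩

theorem GF_mono {a' b' : ℝ} (hmn : m ≤ n) (ha : a' ≤ a) (hb : b ≤ b') :
    S.GF n a b ≤ S.GF m a' b' :=
  fun _ hg => ⟨GB_anti hmn hg.1, GL_anti ha hg.2.1, GR_mono hb hg.2.2⟩

theorem GB_small (hg : g ∈ S.GB n) (r : ℕ) {δ : ℝ} (hδ : 0 < δ) :
    ∀ᶠ i in S.F, Sm (dp (g i)) ∧ nm r (dp (g i)) ≤ δ :=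
  grp_aux_small (GB_od1 hg) r hδ

/-- take `mkp (f i)` -/
theorem exists_GB (hn : 1 ≤ n) {f : S.ι → ℝ → ℝ} (ht : S.Tame f) (ho : S.Od n f) :
    ∃ g ∈ S.GB n, ∀ᶠ i in S.F, dp (g i) = f i := by
  have e : ∀ᶠ i in S.F, dp (mkp (f i)) = f i :=
    (grp_aux_inv (ho.mono hn)).mono fun i hi => dp_mkp hi.1 hi.2.1
  have e' : ∀ᶠ i in S.F, f i = dpF (fun i => mkp (f i)) i := e.mono fun i hi => hi.symm
  exact ⟨fun i => mkp (f i), mem_GB_of hn (ht.congr e') (ho.congr e'), e⟩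

theorem cut (hk : k ∈ S.GB n) {χ : ℝ → ℝ} (hχ : Sm χ) :
    ∃ k' ∈ S.GB n, ∀ᶠ i in S.F, dp (k' i) = fun x => χ x * dp (k i) x := by
  obtain ⟨k', hk', e⟩ := exists_GB le_rfl ((GB_tame hk).fix_mul hχ) ((GB_od1 hk).fix_mul hχ)
  exact ⟨k', ⟨hk'.1, hk'.2.1, ((GB_od hk).fix_mul hχ).congr (e.mono fun i hi => hi.symm)⟩, e⟩

theorem tr_mem (hn : 1 ≤ n) {c : S.ι → ℝ} (hc : S.OdS n c) : (fun i => tr (c i)) ∈ S.GB n := by
  have e : dpF (fun i => tr (c i)) = fun i _ => c i := by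
    funext i
    exact dp_tr (c i)
  refine mem_GB_of hn ?_ ?_ <;> rw [e]
  exacts [hc.tame_cst, hc.od_cst]

/-- coercion of a family in `Gc` -/
def cF : (S.ι → Gc) →* (S.ι → Pm) where
  toFun g := fun i => g i
  map_one' := rfl
  map_mul' _ _ := rfl

@[simp] theorem cF_apply (g : S.ι → Gc) (i : S.ι) : cF g i = (g i : Pm) := rfl

theorem exists_Gc (hg : g ∈ S.GF n a b) : ∃ g' : S.ι → Gc, ∀ᶠ i in S.F, (g' i : Pm) = g i := by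
  classical
  refine ⟨fun i => if h : g i ∈ Gc then ⟨g i, h⟩ else 1, ?_⟩
  filter_upwards [grp_aux_inv (GB_od1 hg.1), GF_fix hg] with i h1 h2
  rw [dif_pos (mem_Gc_small h1.1 h1.2.1 h2)]

end Scale

end Pool.Agent.P.MP_7bb7e1_gt
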