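import Pool.Agent.P.MP_7bb7e1_gt.Grp

/-! Leading order computations and conjugation invariance. -/

namespace Pool.Agent.P.MP_7bb7e1_gt

open Filter
open scoped commutatorElement

theorem grp2_aux_add (e : Pm) (x : ℝ) : x + dp e x = e x := (apply_eq_add_dp e x).symm

theorem grp2_aux_div (e e' : Pm) :
    dp (e' * e⁻¹) = fun x => dp e' (x + dp e⁻¹ x) - dp e (x + dp e⁻¹ x) := by
  funext x
  rw [grp2_aux_add]
  simp [dp]

theorem grp2_aux_conj (w e : Pm) : dp (w * e * w⁻¹) = fun x =>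
    (fun y => dp e y + (dp w (y + dp e y) - dp w y)) (x + dp w⁻¹ x) := by
  funext x
  simp only [grp2_aux_add]
  simp [dp]
  ring

theorem grp2_aux_comm (e e' : Pm) : dp ⁅e, e'⁆ = fun x =>
    (fun y => (dp e (y + dp e' y) - dp e y) - (dp e' (y + dp e y) - dp e' y))
      (x + dp (e' * e)⁻¹ x) := by
  funext x
  simp only [grp2_aux_add]
  simp [dp, commutatorElement_def]
  ring

namespace Scale

variable {S : Scale} {m n : ℕ} {g h k w : S.ι → Pm} {a b : ℝ}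

/-- `Od.comp_sub` -/
theorem L1 (hg : g ∈ S.GB m) (hh : h ∈ S.GB n) :
    S.Od (m + n) fun i x => dp (g i * h i) x - dp (g i) x - dp (h i) x := by
  refine ((GB_od hg).comp_sub (GB_od hh)).congr (Eventually.of_forall fun i => ?_)
  funext x
  simp only [dpF, dp_mul]
  ring

theorem L1_inv (hg : g ∈ S.GB m) : S.Od (m + m) fun i x => dp (g i)⁻¹ x + dp (g i) x := by
  refine ((GB_od hg).comp_sub (GB_od (inv_mem hg))).neg.congr (Eventually.of_forall fun i => ?_)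
  funext x
  have := congrFun (dp_inv (g i)) x
  simp only [dpF, Pi.inv_apply]
  linarith

/-- the displacement of `h * g⁻¹` is `(dp h - dp g) ∘ g⁻¹` -/
theorem L1' (hg : g ∈ S.GB 1) (hh : h ∈ S.GB 1)
    (e : S.Od n fun i x => dp (h i) x - dp (g i) x) : h * g⁻¹ ∈ S.GB n := by
  have h1 : h * g⁻¹ ∈ S.GB 1 := mul_mem hh (inv_mem hg)
  refine ⟨h1.1, h1.2.1, ?_⟩
  refine (e.comp ((GB_od1 (inv_mem hg)).mono (Nat.zero_le 1))).congr
    (Eventually.of_forall fun i => ?_)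
  exact (grp2_aux_div (g i) (h i)).symm

/-- With `k = ⁅g, h⁆` one has `k * (h * g) = g * h`, so `dp k ∘ (h g)` is
`(dp g ∘ h - dp g) - (dp h ∘ g - dp h)`; use `Od.comp_sub_two`, then compose with `(h g)⁻¹` and
use `Od.comp_sub`. -/
theorem L2 (hm : 1 ≤ m) (hn : 1 ≤ n) (hg : g ∈ S.GB m) (hh : h ∈ S.GB n) :
    S.Od (m + n + 1) fun i x => dp ⁅g i, h i⁆ x + br (dp (g i)) (dp (h i)) x := by
  have hu : (h * g)⁻¹ ∈ S.GB 1 := inv_mem (mul_mem (GB_le_one hh) (GB_le_one hg))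
  have hA := ((GB_od hg).comp_sub_two (GB_od hh)).mono (show m + n + 1 ≤ m + 2 * n by omega)
  have hB := ((GB_od hh).comp_sub_two (GB_od hg)).mono (show m + n + 1 ≤ n + 2 * m by omega)
  have h1 := (hA.sub hB).comp ((GB_od1 hu).mono (Nat.zero_le 1))
  have h2 := ((GB_od hg).br (GB_od hh)).comp_sub (GB_od1 hu)
  refine (h1.sub h2).congr (Eventually.of_forall fun i => ?_)
  funext x
  rw [grp2_aux_comm]
  simp only [dpF, br, Pi.inv_apply, Pi.mul_apply]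
  ring

theorem comm_mem_GB (hm : 1 ≤ m) (hn : 1 ≤ n) (hg : g ∈ S.GB m) (hh : h ∈ S.GB n) :
    ⁅g, h⁆ ∈ S.GB (m + n) := by
  have h1 : ⁅g, h⁆ ∈ S.GB 1 := by
    rw [commutatorElement_def]
    exact mul_mem (mul_mem (mul_mem (GB_le_one hg) (GB_le_one hh)) (inv_mem (GB_le_one hg)))
      (inv_mem (GB_le_one hh))
  refine ⟨h1.1, h1.2.1, ?_⟩
  refine (((L2 hm hn hg hh).mono (Nat.le_succ _)).sub ((GB_od hg).br (GB_od hh))).congr
    (Eventually.of_forall fun i => ?_)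
  funext x
  have e : ⁅g, h⁆ i = ⁅g i, h i⁆ := rfl
  simp only [dpF, e]
  ring

theorem conj_GB (hw : w ∈ S.GB 1) (hg : g ∈ S.GB n) : w * g * w⁻¹ ∈ S.GB n := by
  have h1 : w * g * w⁻¹ ∈ S.GB 1 := mul_mem (mul_mem hw (GB_le_one hg)) (inv_mem hw)
  refine ⟨h1.1, h1.2.1, ?_⟩
  have h2 := ((GB_od1 hw).comp_sub (GB_od hg)).mono (Nat.le_add_left n 1)
  refine (((GB_od hg).add h2).comp ((GB_od1 (inv_mem hw)).mono (Nat.zero_le 1))).congr
    (Eventually.of_forall fun i => ?_)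
  exact (grp2_aux_conj (w i) (g i)).symm

theorem grp2_aux_near (hw : w ∈ S.GB 1) {δ : ℝ} (hδ : 0 < δ) :
    ∀ᶠ i in S.F, ∀ x, |(w i)⁻¹ x - x| ≤ δ := by
  filter_upwards [GB_small (inv_mem hw) 0 hδ] with i hi x
  exact (abs_le_sn_zero hi.1 x).trans ((sn_le_nm le_rfl _).trans hi.2)

/-- the displacement of `w⁻¹` is eventually smaller than the room -/
theorem conj_GL (hw : w ∈ S.GB 1) (hg : g ∈ S.GLe a) : w * g * w⁻¹ ∈ S.GLe a := by
  obtain ⟨a', ha, e⟩ := hg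
  refine ⟨(a + a') / 2, by linarith, ?_⟩
  filter_upwards [e, grp2_aux_near hw (δ := (a' - a) / 2) (by linarith)] with i e hi x hx
  have h1 := (abs_le.1 (hi x)).2
  have h2 := e ((w i)⁻¹ x) (by linarith)
  simp only [Pi.mul_apply, Pi.inv_apply, Equiv.Perm.mul_apply]
  rw [h2]
  simp

theorem conj_GR (hw : w ∈ S.GB 1) (hg : g ∈ S.GRi b) : w * g * w⁻¹ ∈ S.GRi b := by
  obtain ⟨b', hb, e⟩ := hg
  refine ⟨(b + b') / 2, by linarith, ?_⟩
  filter_upwards [e, grp2_aux_near hw (δ := (b - b') / 2) (by linarith)] with i e hi x hx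
  have h1 := (abs_le.1 (hi x)).1
  have h2 := e ((w i)⁻¹ x) (by linarith)
  simp only [Pi.mul_apply, Pi.inv_apply, Equiv.Perm.mul_apply]
  rw [h2]
  simp

theorem conj_GF (hw : w ∈ S.GB 1) (hg : g ∈ S.GF n a b) : w * g * w⁻¹ ∈ S.GF n a b :=
  ⟨conj_GB hw hg.1, conj_GL hw hg.2.1, conj_GR hw hg.2.2⟩

theorem comm_mem_GF (hm : 1 ≤ m) (hn : 1 ≤ n) (hg : g ∈ S.GB m) (hh : h ∈ S.GF n a b) :
    ⁅g, h⁆ ∈ S.GF (m + n) a b := by
  obtain ⟨h1, h2, h3⟩ := mem_GF.1 hh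
  refine mem_GF.2 ⟨comm_mem_GB hm hn hg h1, ?_, ?_⟩
  · rw [commutatorElement_def]
    exact mul_mem (conj_GL (GB_le_one hg) h2) (inv_mem h2)
  · rw [commutatorElement_def]
    exact mul_mem (conj_GR (GB_le_one hg) h3) (inv_mem h3)

theorem conj_tr_GB (hg : g ∈ S.GB n) (c : S.ι → ℝ) :
    (fun i => tr (c i) * g i * (tr (c i))⁻¹) ∈ S.GB n := by
  have e : dpF (fun i => tr (c i) * g i * (tr (c i))⁻¹) =
      fun i x => dpF g i (x + (fun i => -c i) i) := by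
    funext i
    exact dp_conj_tr (c i) (g i)
  refine ⟨?_, ?_, ?_⟩ <;> rw [e]
  exacts [(GB_tame hg).comp_add _, (GB_od1 hg).comp_add _, (GB_od hg).comp_add _]

theorem conj_aff_GB (hg : g ∈ S.GB n) {l : ℝ} (hl : 0 < l) (p : ℝ) :
    (fun i => aff l p * g i * (aff l p)⁻¹) ∈ S.GB n := by
  have e : dpF (fun i => aff l p * g i * (aff l p)⁻¹) =
      fun i x => l * dpF g i (l⁻¹ * x + -p / l) := by
    funext i
    exact dp_conj_aff hl.ne' p (g i)
  refine ⟨?_, ?_, ?_⟩ <;> rw [e]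
  exacts [((GB_tame hg).comp_aff _ _).const_mul l, ((GB_od1 hg).comp_aff _ _).const_mul l,
    ((GB_od hg).comp_aff _ _).const_mul l]

theorem conj_aff_GF (hg : g ∈ S.GF n a b) {l : ℝ} (hl : 0 < l) (p : ℝ) :
    (fun i => aff l p * g i * (aff l p)⁻¹) ∈ S.GF n (l * a + p) (l * b + p) := by
  obtain ⟨h1, a', b', ha, hb, e⟩ := mem_GF_iff.1 hg
  refine mem_GF_iff.2 ⟨conj_aff_GB h1 hl p, l * a' + p, l * b' + p, ?_, ?_,
    e.mono fun i hi => hi.conj_aff hl p⟩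
  · have := mul_lt_mul_of_pos_left ha hl
    linarith
  · have := mul_lt_mul_of_pos_left hb hl
    linarith

/-- the displacement is `(dp g + (dp ψ ∘ g - dp ψ)) ∘ ψ⁻¹` -/
theorem conj_fix_GB (hg : g ∈ S.GB n) (ψ : Gc) :
    (fun i => (ψ : Pm) * g i * (ψ : Pm)⁻¹) ∈ S.GB n := by
  have s1 : Sm (dp (ψ : Pm)) := Gc.sm ψ
  have s2 : Sm (dp (ψ : Pm)⁻¹) := Gc.sm ψ⁻¹
  have e : dpF (fun i => (ψ : Pm) * g i * (ψ : Pm)⁻¹) = fun i x =>
      (fun i y => dpF g i y + (dp (ψ : Pm) (y + dpF g i y) - dp (ψ : Pm) y)) i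
        (x + dp (ψ : Pm)⁻¹ x) := by
    funext i
    exact grp2_aux_conj _ (g i)
  have ho : ∀ j, S.Od j (dpF g) → S.Od j (dpF fun i => (ψ : Pm) * g i * (ψ : Pm)⁻¹) := by
    intro j hj
    rw [e]
    have h2 := ((od_const (S := S) s1).comp_sub hj).mono (Nat.le_add_left j 0)
    exact (hj.add h2).comp (od_const s2)
  refine ⟨?_, ho 1 (GB_od1 hg), ho n (GB_od hg)⟩
  rw [e]
  exact ((GB_tame hg).add (((tame_const s1).comp (GB_tame hg) (GB_od1 hg)).sub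
    (tame_const s1))).comp_fix s2

theorem conj_fix_GF (hg : g ∈ S.GF n a b) (ψ : Gc) {a' b' : ℝ} (ha : a < a') (hb : b' < b)
    (hψ : Fix a' b' (ψ : Pm)) : (fun i => (ψ : Pm) * g i * (ψ : Pm)⁻¹) ∈ S.GF n a b := by
  obtain ⟨h1, a₁, b₁, ha₁, hb₁, e⟩ := mem_GF_iff.1 hg
  refine mem_GF_iff.2 ⟨conj_fix_GB h1 ψ, min a' a₁, max b' b₁, lt_min ha ha₁, max_lt hb hb₁,
    e.mono fun i hi x hx => ?_⟩
  have h2 : (ψ : Pm) x = x := hψ.mono (min_le_left a' a₁) (le_max_left b' b₁) x hx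
  have h3 : g i x = x := hi.mono (min_le_right a' a₁) (le_max_right b' b₁) x hx
  have h4 : (ψ : Pm)⁻¹ x = x := by rw [Equiv.Perm.inv_eq_iff_eq, h2]
  rw [Equiv.Perm.mul_apply, Equiv.Perm.mul_apply, h4, h3, h2]

/-- fragmentation by a step function -/
theorem frag (hk : k ∈ S.GB n) (hab : a < b) : ∃ k' ∈ S.GB n,
    ∀ᶠ i in S.F, (∀ x, x ≤ a → k' i x = x) ∧ (∀ x, b ≤ x → k' i x = k i x) ∧
      ∀ x, k i x = x → k' i x = x := by
  obtain ⟨χ, hχ, -, h0, h1⟩ := exists_step hab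
  obtain ⟨k', hk', e⟩ := cut hk hχ
  refine ⟨k', hk', e.mono fun i hi => ⟨fun x hx => ?_, fun x hx => ?_, fun x hx => ?_⟩⟩
  · rw [apply_eq_add_dp, hi]
    simp [h0 x hx]
  · rw [apply_eq_add_dp, hi, apply_eq_add_dp (k i) x]
    simp [h1 x hx]
  · rw [apply_eq_add_dp, hi]
    simp [dp, hx]

/-- localisation: `k` acts on a compactly supported family like a compactly supported family -/
theorem loc (hk : k ∈ S.GB n) (hg : g ∈ S.GF m a b) :
    ∃ k' ∈ S.GF n a b, ∀ᶠ i in S.F, ⁅k i, g i⁆ = ⁅k' i, g i⁆ := by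
  obtain ⟨-, a', b', ha, hb, e⟩ := mem_GF_iff.1 hg
  obtain ⟨χ, hχ, -, h0, h1⟩ := exists_bump (a := (a + a') / 2) (b := (b + b') / 2) (a' := a')
    (b' := b') (by linarith) (by linarith)
  obtain ⟨k', hk', e'⟩ := cut hk hχ
  refine ⟨k', mem_GF_iff.2 ⟨hk', (a + a') / 2, (b + b') / 2, by linarith, by linarith,
    e'.mono fun i hi x hx => ?_⟩, ?_⟩
  · rw [apply_eq_add_dp, hi]
    simp [h0 x hx]
  · filter_upwards [e, e'] with i hi hi'
    rw [commutatorElement_def, commutatorElement_def,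
      conj_eq_of_agree (φ := k i) (ψ := k' i) hi fun x hx hx' => ?_]
    rw [apply_eq_add_dp (k' i), hi', apply_eq_add_dp (k i) x]
    simp [h1 x hx hx']

end Scale

end Pool.Agent.P.MP_7bb7e1_gt
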