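import Pool.Agent.P.MP_7bb7e1_gt.Norm

/-! Compact support, cut-off functions, integrals, Poincare inequalities. -/

namespace Pool.Agent.P.MP_7bb7e1_gt

open scoped ContDiff Topology
open Filter Set

variable {f g : ℝ → ℝ} {a b : ℝ}

theorem norm2_deriv_zero {s : Set ℝ} {x c : ℝ} (hf : DifferentiableAt ℝ f x)
    (hs : UniqueDiffWithinAt ℝ s x) (hx : x ∈ s) (h : ∀ y ∈ s, f y = c) : deriv f x = 0 :=
  hs.eq_deriv s hf.hasDerivAt.hasDerivWithinAt
    ((hasDerivWithinAt_const x s c).congr h (h x hx))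

theorem norm2_supp (h : Van a b f) {x : ℝ} (hx : b ≤ x) : Function.support f ⊆ Ioc a x := by
  intro y hy
  by_contra hc
  rw [mem_Ioc, not_and_or, not_lt, not_le] at hc
  exact hy (h y (hc.imp id fun h1 => hx.trans h1.le))

/-- at the two end points use continuity of the derivative -/
theorem Van.deriv (h : Van a b f) (hf : ContDiff ℝ ∞ f) : Van a b (deriv f) := by
  intro x hx
  have hd : DifferentiableAt ℝ f x := hf.differentiable (by simp) x
  rcases hx with hx | hx
  · exact norm2_deriv_zero hd (uniqueDiffOn_Iic a x hx) hx fun y hy => h y (Or.inl hy)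
  · exact norm2_deriv_zero hd (uniqueDiffOn_Ici b x hx) hx fun y hy => h y (Or.inr hy)

theorem Van.iteratedDeriv (h : Van a b f) (hf : ContDiff ℝ ∞ f) (r : ℕ) :
    Van a b (iteratedDeriv r f) := by
  induction r generalizing f with
  | zero => simpa using h
  | succ r ih =>
    rw [iteratedDeriv_succ']
    exact ih (h.deriv hf) (contDiff_infty_iff_deriv.1 hf).2

theorem Van.hasCompactSupport (h : Van a b f) : HasCompactSupport f := by
  refine HasCompactSupport.intro (isCompact_Icc (a := a) (b := b)) fun x hx => h x ?_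
  rw [mem_Icc, not_and_or, not_le, not_le] at hx
  exact hx.imp le_of_lt le_of_lt

theorem sm_of_van (hf : ContDiff ℝ ∞ f) (h : Van a b f) : Sm f :=
  ⟨hf, fun r => Continuous.bounded_above_of_compact_support
    (hf.continuous_iteratedDeriv r (by exact_mod_cast le_top))
    (h.iteratedDeriv hf r).hasCompactSupport⟩

theorem Van.integrable (h : Van a b f) (hf : Continuous f) : MeasureTheory.Integrable f :=
  hf.integrable_of_hasCompactSupport h.hasCompactSupport

theorem abs_integral_le (h : Van a b f) (hab : a ≤ b) {A : ℝ}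
    (hA : ∀ x, |f x| ≤ A) : |∫ x, f x| ≤ (b - a) * A := by
  rw [← intervalIntegral.integral_eq_integral_of_support_subset (norm2_supp h le_rfl)]
  have h1 := intervalIntegral.norm_integral_le_of_norm_le_const (f := f) (a := a) (b := b)
    (C := A) (fun x _ => hA x)
  rw [abs_of_nonneg (sub_nonneg.2 hab), mul_comm] at h1
  exact h1

theorem integral_deriv_eq_zero (h : Van a b f) (hf : ContDiff ℝ ∞ f) : ∫ x, deriv f x = 0 := by
  rw [← intervalIntegral.integral_eq_integral_of_support_subset (norm2_supp (h.deriv hf) le_rfl),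
    intervalIntegral.integral_deriv_eq_sub (fun x _ => hf.differentiable (by simp) x)
      ((contDiff_infty_iff_deriv.1 hf).2.continuous.intervalIntegrable _ _),
    h a (Or.inl le_rfl), h b (Or.inr le_rfl), sub_zero]

/-- primitive of a compactly supported function of mean zero -/
theorem prim_spec (h : Van a b f) (hab : a ≤ b) (hf : ContDiff ℝ ∞ f) (h0 : ∫ x, f x = 0) :
    ContDiff ℝ ∞ (fun x => ∫ t in a..x, f t) ∧ Van a b (fun x => ∫ t in a..x, f t) ∧
      deriv (fun x => ∫ t in a..x, f t) = f ∧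
      sn 0 (fun x => ∫ t in a..x, f t) ≤ (b - a) * sn 0 f := by
  have hd : deriv (fun x => ∫ t in a..x, f t) = f :=
    funext fun x => hf.continuous.deriv_integral f a x
  have hv : Van a b (fun x => ∫ t in a..x, f t) := by
    intro x hx
    rcases hx with hx | hx
    · have h1 : ∫ t in a..x, f t = ∫ _t in a..x, (0 : ℝ) := by
        refine intervalIntegral.integral_congr fun t ht => h t (Or.inl ?_)
        rw [uIcc_of_ge hx] at ht
        exact ht.2
      simpa using h1
    · exact (intervalIntegral.integral_eq_integral_of_support_subset (norm2_supp h hx)).trans h0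
  refine ⟨contDiff_infty_iff_deriv.2
    ⟨intervalIntegral.differentiable_integral_of_continuous hf.continuous, hd.symm ▸ hf⟩,
    hv, hd, sn_le fun x => ?_⟩
  rw [iteratedDeriv_zero]
  have hn := sn_nonneg 0 f
  by_cases hx : x ≤ a ∨ b ≤ x
  · rw [show ∫ t in a..x, f t = 0 from hv x hx, abs_zero]
    exact mul_nonneg (sub_nonneg.2 hab) hn
  · rw [not_or, not_le, not_le] at hx
    have h1 := intervalIntegral.norm_integral_le_of_norm_le_const (f := f) (a := a) (b := x)
      (C := sn 0 f) (fun t _ => abs_le_sn_zero (sm_of_van hf h) t)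
    rw [abs_of_nonneg (sub_nonneg.2 hx.1.le)] at h1
    refine le_trans h1 ?_
    rw [mul_comm]
    exact mul_le_mul_of_nonneg_right (by linarith [hx.2]) hn

/-- the standard step function -/
noncomputable def chi : ℝ → ℝ := Real.smoothTransition

theorem sm_chi : Sm chi := by
  have hc : ContDiff ℝ ∞ chi := Real.smoothTransition.contDiff
  have hd : Differentiable ℝ chi := hc.differentiable (by simp)
  refine sm_of_deriv hd ⟨1, fun x => ?_⟩
    (sm_of_van (a := 0) (b := 1) (contDiff_infty_iff_deriv.1 hc).2 fun x hx => ?_)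
  · exact abs_le.2 ⟨by linarith [show 0 ≤ chi x from Real.smoothTransition.nonneg x],
      Real.smoothTransition.le_one x⟩
  · rcases hx with hx | hx
    · exact norm2_deriv_zero (hd x) (uniqueDiffOn_Iic 0 x hx) hx
        fun y hy => Real.smoothTransition.zero_of_nonpos hy
    · exact norm2_deriv_zero (hd x) (uniqueDiffOn_Ici 1 x hx) hx
        fun y hy => Real.smoothTransition.one_of_one_le hy

theorem chi_zero {x : ℝ} (h : x ≤ 0) : chi x = 0 := Real.smoothTransition.zero_of_nonpos h

theorem chi_one {x : ℝ} (h : 1 ≤ x) : chi x = 1 := Real.smoothTransition.one_of_one_le h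

theorem abs_chi_le (x : ℝ) : |chi x| ≤ 1 :=
  abs_le.2 ⟨by linarith [show 0 ≤ chi x from Real.smoothTransition.nonneg x],
    Real.smoothTransition.le_one x⟩

theorem exists_step (hab : a < b) : ∃ χ : ℝ → ℝ, Sm χ ∧ (∀ x, 0 ≤ χ x ∧ χ x ≤ 1) ∧
    (∀ x, x ≤ a → χ x = 0) ∧ ∀ x, b ≤ x → χ x = 1 := by
  have h0 : 0 < b - a := sub_pos.2 hab
  have he : ∀ x, (b - a)⁻¹ * x + -a / (b - a) = (x - a) / (b - a) := fun x => by ring
  refine ⟨fun x => chi ((b - a)⁻¹ * x + -a / (b - a)), sm_chi.comp_aff _ _,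
    fun x => ⟨Real.smoothTransition.nonneg _, Real.smoothTransition.le_one _⟩,
    fun x hx => chi_zero ?_, fun x hx => chi_one ?_⟩
  · rw [he]
    exact div_nonpos_of_nonpos_of_nonneg (by linarith) h0.le
  · rw [he, le_div_iff₀ h0]
    linarith

theorem exists_bump {a' b' : ℝ} (ha : a < a') (hb : b' < b) : ∃ χ : ℝ → ℝ, Sm χ ∧
    (∀ x, 0 ≤ χ x ∧ χ x ≤ 1) ∧ Van a b χ ∧ ∀ x, a' ≤ x → x ≤ b' → χ x = 1 := by
  obtain ⟨u, u1, u2, u3, u4⟩ := exists_step ha
  obtain ⟨v, v1, v2, v3, v4⟩ := exists_step hb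
  refine ⟨fun x => u x * (1 - v x), u1.mul ((sm_const 1).sub v1), fun x => ⟨?_, ?_⟩,
    fun x hx => ?_, fun x h1 h2 => ?_⟩
  · exact mul_nonneg (u2 x).1 (sub_nonneg.2 (v2 x).2)
  · exact mul_le_one₀ (u2 x).2 (sub_nonneg.2 (v2 x).2) (by linarith [(v2 x).1])
  · rcases hx with hx | hx
    · simp [u3 x hx]
    · simp [v4 x hx]
  · simp [u4 x h1, v3 x h2]

theorem exists_mass (hab : a < b) : ∃ ψ : ℝ → ℝ, Sm ψ ∧ Van a b ψ ∧ ∫ x, ψ x = 1 := by
  obtain ⟨u, u1, u2, u3, u4⟩ := exists_bump (a := a) (b := b) (a' := (a + b) / 2)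
    (b' := (a + b) / 2) (by linarith) (by linarith)
  have hp : 0 < ∫ x, u x :=
    u1.continuous.integral_pos_of_hasCompactSupport_nonneg_nonzero u3.hasCompactSupport
      (fun x => (u2 x).1) (x := (a + b) / 2) (by rw [u4 _ le_rfl le_rfl]; exact one_ne_zero)
  refine ⟨fun x => (∫ x, u x)⁻¹ * u x, u1.const_mul _, fun x hx => by simp [u3 x hx], ?_⟩
  rw [MeasureTheory.integral_const_mul, inv_mul_cancel₀ hp.ne']

/-- a compactly supported smooth function times a power of the variable -/
theorem Sm.mul_pow (hf : Sm f) (h : Van a b f) (k : ℕ) : Sm fun x => f x * x ^ k :=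
  sm_of_van (a := a) (b := b) (hf.1.mul (contDiff_id.pow k)) fun x hx => by simp [h x hx]

/-- each derivative of order at least one of a periodic function has a zero in each period -/
theorem poincare (hf : Sm f) {η : ℝ} (hη : 0 < η) (hp : ∀ x, f (x + η) = f x) {j : ℕ}
    (hj : 1 ≤ j) : sn j f ≤ η * sn (j + 1) f := by
  obtain ⟨k, rfl⟩ := Nat.exists_eq_add_of_le' hj
  refine sn_le fun x => ?_
  have hk : iteratedDeriv k f (x - η) = iteratedDeriv k f x := by
    have h1 := congrFun (iteratedDeriv_comp_add_const k f η) (x - η)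
    rw [funext hp, sub_add_cancel] at h1
    exact h1
  obtain ⟨c, hc, hc0⟩ := exists_deriv_eq_zero (show x - η < x by linarith)
    (hf.iteratedDeriv k).continuous.continuousOn hk
  rw [← iteratedDeriv_succ] at hc0
  have h2 := abs_sub_le_sn (hf.iteratedDeriv (k + 1)) x c
  rw [hc0, sub_zero, sn_iteratedDeriv, add_comm 1 (k + 1)] at h2
  refine h2.trans ?_
  rw [mul_comm]
  refine mul_le_mul_of_nonneg_right ?_ (sn_nonneg _ _)
  rw [abs_of_nonneg (by linarith [hc.2])]
  linarith [hc.1]

theorem poincare_zero (hf : Sm f) {η : ℝ} (hη : 0 < η) (hp : ∀ x, f (x + η) = f x)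
    (h0 : f 0 = 0) : sn 0 f ≤ η * sn 1 f := by
  refine sn_le fun x => ?_
  rw [iteratedDeriv_zero]
  obtain ⟨y, hy, he⟩ := (show Function.Periodic f η from hp).exists_mem_Ico₀ hη x
  have h2 := abs_sub_le_sn hf y 0
  rw [h0, sub_zero, sub_zero, abs_of_nonneg hy.1] at h2
  rw [he, mul_comm]
  exact h2.trans (mul_le_mul_of_nonneg_left hy.2.le (sn_nonneg _ _))

theorem poincare_one (hf : Sm f) (hp : ∀ x, f (x + 1) = f x) {j r : ℕ} (hj : 1 ≤ j)
    (hjr : j ≤ r) : sn j f ≤ sn r f := by
  induction r, hjr using Nat.le_induction with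
  | base => exact le_rfl
  | succ r hr ih =>
    have h1 := poincare hf one_pos hp (hj.trans hr)
    rw [one_mul] at h1
    exact ih.trans h1

theorem poincare_one_zero (hf : Sm f) (hp : ∀ x, f (x + 1) = f x) (h0 : f 0 = 0) {j r : ℕ}
    (hjr : j ≤ r) : sn j f ≤ sn r f := by
  rcases Nat.eq_zero_or_pos j with rfl | hj
  · rcases Nat.eq_zero_or_pos r with rfl | hr
    · exact le_rfl
    · have h1 := poincare_zero hf one_pos hp h0
      rw [one_mul] at h1
      exact h1.trans (poincare_one hf hp le_rfl hr)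
  · exact poincare_one hf hp hj hjr

end Pool.Agent.P.MP_7bb7e1_gt
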