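import Pool.Agent.P.MP_7bb7e1_gt.Comp
import Pool.Agent.P.MP_7bb7e1_gt.Norm2

/-! Construction of diffeomorphisms from displacements, inverses. -/

namespace Pool.Agent.P.MP_7bb7e1_gt

open scoped ContDiff

variable {f : ℝ → ℝ} {e e' : Pm} {a b : ℝ}

theorem sm_dp_mul (he : Sm (dp e)) (he' : Sm (dp e')) : Sm (dp (e * e')) := by
  rw [dp_mul]; exact (he.comp he').add he'

theorem sm_dp_tr (c : ℝ) : Sm (dp (tr c)) := by rw [dp_tr]; exact sm_const c

theorem inv_hasDerivAt_id_add (hf : Differentiable ℝ f) (x : ℝ) :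
    HasDerivAt (fun x => x + f x) (1 + deriv f x) x :=
  (hasDerivAt_id' x).add (hf x).hasDerivAt

theorem inv_coe_eq (e : Pm) : (fun x => e x) = fun x => x + dp e x := by
  ext x; exact apply_eq_add_dp e x

theorem inv_hasDerivAt (he : Sm (dp e)) (x : ℝ) :
    HasDerivAt (fun x => e x) (1 + deriv (dp e) x) x := by
  rw [inv_coe_eq]; exact inv_hasDerivAt_id_add he.differentiable x

theorem inv_contDiff (he : ContDiff ℝ ∞ (dp e)) : ContDiff ℝ ∞ fun x => e x := by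
  rw [inv_coe_eq]; exact contDiff_id.add he

/-- `id + f` is strictly increasing, continuous and at bounded distance from the identity -/
theorem mkP (hf : Sm f) (h : ∀ x, 0 < 1 + deriv f x) : ∃ e : Pm, dp e = f := by
  have hm : StrictMono fun x => x + f x :=
    strictMono_of_deriv_pos fun x => by
      rw [(inv_hasDerivAt_id_add hf.differentiable x).deriv]; exact h x
  have hc : Continuous fun x => x + f x := continuous_id.add hf.continuous
  have hs : Function.Surjective fun x => x + f x := by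
    intro p
    refine mem_range_of_exists_le_of_exists_ge hc ⟨p - sn 0 f, ?_⟩ ⟨p + sn 0 f, ?_⟩
    · have := (abs_le.1 (abs_le_sn_zero hf (p - sn 0 f))).2
      show p - sn 0 f + f (p - sn 0 f) ≤ p
      linarith
    · have := (abs_le.1 (abs_le_sn_zero hf (p + sn 0 f))).1
      show p ≤ p + sn 0 f + f (p + sn 0 f)
      linarith
  refine ⟨Equiv.ofBijective _ ⟨hm.injective, hs⟩, ?_⟩
  ext x
  show x + f x - x = f x
  ring

theorem strictMono_of_pos (he : Sm (dp e)) (h : ∀ x, 0 < 1 + deriv (dp e) x) :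
    StrictMono fun x => e x :=
  strictMono_of_deriv_pos fun x => by rw [(inv_hasDerivAt he x).deriv]; exact h x

/-- use `StrictMono.orderIsoOfSurjective`, `OrderIso.toHomeomorph`,
`Homeomorph.contDiff_symm_deriv` -/
theorem contDiff_inv (he : Sm (dp e)) (h : ∀ x, 0 < 1 + deriv (dp e) x) :
    ContDiff ℝ ∞ fun x => e⁻¹ x := by
  let o : ℝ ≃o ℝ := (strictMono_of_pos he h).orderIsoOfSurjective _ e.surjective
  have ho : (o.toHomeomorph : ℝ → ℝ) = fun x => e x := rfl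
  have hsymm : (o.toHomeomorph.symm : ℝ → ℝ) = fun x => e⁻¹ x := by
    ext x
    apply o.toHomeomorph.injective
    rw [Homeomorph.apply_symm_apply, ho]
    simp
  rw [← hsymm]
  refine o.toHomeomorph.contDiff_symm_deriv (f' := fun x => 1 + deriv (dp e) x)
    (fun x => (h x).ne') (fun x => ?_) ?_
  · rw [ho]; exact inv_hasDerivAt he x
  · rw [ho]; exact inv_contDiff he.contDiff

theorem inv_hasDerivAt_inv (he : Sm (dp e)) (h : ∀ x, 0 < 1 + deriv (dp e) x) (x : ℝ) :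
    HasDerivAt (fun x => e⁻¹ x) (1 + deriv (dp e) (e⁻¹ x))⁻¹ x := by
  have h1 : DifferentiableAt ℝ (fun x => e⁻¹ x) x :=
    (contDiff_inv he h).differentiable (by simp) x
  have h2 := (inv_hasDerivAt he (e⁻¹ x)).comp x h1.hasDerivAt
  have h3 : ((fun x => e x) ∘ fun x => e⁻¹ x) = id := by ext y; simp
  rw [h3] at h2
  have h4 := h2.unique (hasDerivAt_id x)
  have h5 : deriv (fun x => e⁻¹ x) x = (1 + deriv (dp e) (e⁻¹ x))⁻¹ :=
    (eq_inv_of_mul_eq_one_right h4)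
  rw [← h5]; exact h1.hasDerivAt

theorem inv_recip_contDiff (hf : Sm f) (h : ∀ x, 0 < 1 + deriv f x) :
    ContDiff ℝ ∞ fun x => (1 + deriv f x)⁻¹ :=
  (contDiff_const.add hf.deriv.contDiff).inv fun x => (h x).ne'

theorem inv_recip_hasDerivAt (hf : Sm f) (h : ∀ x, 0 < 1 + deriv f x) (x : ℝ) :
    HasDerivAt (fun x => (1 + deriv f x)⁻¹)
      (-deriv (deriv f) x * ((1 + deriv f x)⁻¹ * (1 + deriv f x)⁻¹)) x := by
  have h1 : HasDerivAt (fun x => 1 + deriv f x) (deriv (deriv f) x) x :=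
    (hf.deriv.differentiable x).hasDerivAt.const_add 1
  have h2 := h1.fun_inv (h x).ne'
  refine h2.congr_deriv ?_
  rw [div_eq_mul_inv, sq, mul_inv]

theorem inv_recip_abs_le {m : ℝ} (hm : 0 < m) (h : ∀ x, m ≤ 1 + deriv f x) (x : ℝ) :
    |(1 + deriv f x)⁻¹| ≤ m⁻¹ := by
  rw [abs_of_pos (inv_pos.2 (hm.trans_le (h x)))]
  exact inv_anti₀ hm (h x)

theorem inv_recip_bdd (hf : Sm f) {m : ℝ} (hm : 0 < m) (h : ∀ x, m ≤ 1 + deriv f x) (r : ℕ) :
    ∀ (k : ℕ) (g : ℝ → ℝ), Sm g →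
      ∃ C : ℝ, ∀ x, |iteratedDeriv r (fun x => g x * (1 + deriv f x)⁻¹ ^ k) x| ≤ C := by
  have hp : ∀ x, 0 < 1 + deriv f x := fun x => hm.trans_le (h x)
  induction r with
  | zero =>
    intro k g hg
    refine ⟨sn 0 g * m⁻¹ ^ k, fun x => ?_⟩
    rw [iteratedDeriv_zero, abs_mul, abs_pow]
    exact mul_le_mul (abs_le_sn_zero hg x)
      (pow_le_pow_left₀ (abs_nonneg _) (inv_recip_abs_le hm h x) k) (by positivity)
      (sn_nonneg 0 g)
  | succ r ih =>
    intro k g hg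
    have hg2 : Sm fun x => -(k : ℝ) * (g x * deriv (deriv f) x) :=
      (hg.mul hf.deriv.deriv).const_mul _
    obtain ⟨C₁, h₁⟩ := ih k _ hg.deriv
    obtain ⟨C₂, h₂⟩ := ih (k + 1) _ hg2
    have hd : deriv (fun x => g x * (1 + deriv f x)⁻¹ ^ k) =
        (fun x => deriv g x * (1 + deriv f x)⁻¹ ^ k) +
          fun x => -(k : ℝ) * (g x * deriv (deriv f) x) * (1 + deriv f x)⁻¹ ^ (k + 1) := by
      ext x
      have h1 := (hg.differentiable x).hasDerivAt.mul ((inv_recip_hasDerivAt hf hp x).pow k)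
      have h2 : (fun x => g x * (1 + deriv f x)⁻¹ ^ k) =
          g * (fun x => (1 + deriv f x)⁻¹) ^ k := by ext y; simp
      rw [h2, h1.deriv]
      simp only [Pi.add_apply, Pi.pow_apply]
      rcases k with _ | k
      · simp
      · simp only [Nat.add_sub_cancel]; ring
    refine ⟨C₁ + C₂, fun x => ?_⟩
    have hc := inv_recip_contDiff hf hp
    rw [iteratedDeriv_succ', hd, iteratedDeriv_add]
    · exact (abs_add_le _ _).trans (add_le_add (h₁ x) (h₂ x))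
    · exact ((hg.deriv.contDiff.mul (hc.pow k)).of_le (by exact_mod_cast le_top)).contDiffAt
    · exact ((hg2.contDiff.mul (hc.pow (k + 1))).of_le (by exact_mod_cast le_top)).contDiffAt

theorem inv_recip_sm (hf : Sm f) {m : ℝ} (hm : 0 < m) (h : ∀ x, m ≤ 1 + deriv f x) :
    Sm fun x => (1 + deriv f x)⁻¹ := by
  refine ⟨inv_recip_contDiff hf fun x => hm.trans_le (h x), fun r => ?_⟩
  simpa using inv_recip_bdd hf hm h r 1 _ (sm_const 1)

theorem inv_nm_neg (r : ℕ) (f : ℝ → ℝ) : nm r (fun x => -f x) = nm r f := by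
  simp only [nm, sn_neg]

theorem inv_nm_deriv_le (r : ℕ) (f : ℝ → ℝ) : nm r (deriv f) ≤ nm (r + 1) f := by
  rw [nm_succ]; linarith [sn_nonneg 0 f]

theorem inv_nm_zero (f : ℝ → ℝ) : nm 0 f = sn 0 f := by simp [nm]

/-- the reciprocal of `1 + f'`, with bounds: `ρ' = - f'' ρ ^ 2` -/
theorem nm_recip_le (r : ℕ) (M m : ℝ) (hm : 0 < m) : ∃ C : ℝ, 0 ≤ C ∧ ∀ f : ℝ → ℝ, Sm f →
    nm (r + 1) f ≤ M → (∀ x, m ≤ 1 + deriv f x) →
      Sm (fun x => (1 + deriv f x)⁻¹) ∧ nm r (fun x => (1 + deriv f x)⁻¹) ≤ C := by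
  have h0 : ∀ f : ℝ → ℝ, (∀ x, m ≤ 1 + deriv f x) → sn 0 (fun x => (1 + deriv f x)⁻¹) ≤ m⁻¹ :=
    fun f h => sn_le fun x => by rw [iteratedDeriv_zero]; exact inv_recip_abs_le hm h x
  induction r with
  | zero =>
    refine ⟨m⁻¹, by positivity, fun f hf _ h => ⟨inv_recip_sm hf hm h, ?_⟩⟩
    rw [inv_nm_zero]; exact h0 f h
  | succ r ih =>
    obtain ⟨C, hC, ih⟩ := ih
    set c : ℝ := (r + 1) * 2 ^ r with hc
    have hc0 : 0 ≤ c := by positivity
    refine ⟨m⁻¹ + c * (|M| * (c * (C * C))), by positivity, fun f hf hM h => ?_⟩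
    have hp : ∀ x, 0 < 1 + deriv f x := fun x => hm.trans_le (h x)
    obtain ⟨hs, hb⟩ := ih f hf ((nm_mono (by omega) f).trans hM) h
    refine ⟨hs, ?_⟩
    have hd : deriv (fun x => (1 + deriv f x)⁻¹) =
        fun x => -deriv (deriv f) x * ((1 + deriv f x)⁻¹ * (1 + deriv f x)⁻¹) := by
      ext x; exact (inv_recip_hasDerivAt hf hp x).deriv
    rw [nm_succ, hd]
    refine add_le_add (h0 f h) ((nm_mul_le hf.deriv.deriv.neg (hs.mul hs) r).trans ?_)
    refine mul_le_mul_of_nonneg_left (mul_le_mul ?_ ?_ (nm_nonneg _ _) (abs_nonneg _)) hc0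
    · rw [inv_nm_neg]
      exact (inv_nm_deriv_le _ _).trans ((inv_nm_deriv_le _ _).trans (hM.trans (le_abs_self _)))
    · exact (nm_mul_le hs hs r).trans
        (mul_le_mul_of_nonneg_left (mul_le_mul hb hb (nm_nonneg _ _) hC) hc0)

theorem inv_deriv_comp_inv (he : Sm (dp e)) (h : ∀ x, 0 < 1 + deriv (dp e) x) {F : ℝ → ℝ}
    (hF : Sm F) : deriv (fun x => F (e⁻¹ x)) =
      fun x => (fun y => deriv F y * (1 + deriv (dp e) y)⁻¹) (e⁻¹ x) := by
  ext x
  exact ((hF.differentiable (e⁻¹ x)).hasDerivAt.comp x (inv_hasDerivAt_inv he h x)).deriv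

theorem inv_comp_inv_sm (he : Sm (dp e)) {m : ℝ} (hm : 0 < m) (h : ∀ x, m ≤ 1 + deriv (dp e) x)
    {F : ℝ → ℝ} (hF : Sm F) : Sm fun x => F (e⁻¹ x) := by
  have hp : ∀ x, 0 < 1 + deriv (dp e) x := fun x => hm.trans_le (h x)
  refine ⟨hF.contDiff.comp (contDiff_inv he hp), fun r => ?_⟩
  induction r generalizing F with
  | zero => exact ⟨sn 0 F, fun x => by rw [iteratedDeriv_zero]; exact abs_le_sn_zero hF _⟩
  | succ r ih =>
    rw [iteratedDeriv_succ', inv_deriv_comp_inv he hp hF]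
    exact ih (hF.deriv.mul (inv_recip_sm he hm h))

/-- `(F ∘ e⁻¹)' = (F' ρ) ∘ e⁻¹` with `ρ` the reciprocal of `e'` -/
theorem nm_comp_inv_le (r : ℕ) (M m : ℝ) (hm : 0 < m) : ∃ C : ℝ, 0 ≤ C ∧ ∀ (e : Pm) (F : ℝ → ℝ),
    Sm (dp e) → nm (r + 1) (dp e) ≤ M → (∀ x, m ≤ 1 + deriv (dp e) x) → Sm F →
      Sm (fun x => F (e⁻¹ x)) ∧ nm r (fun x => F (e⁻¹ x)) ≤ C * nm r F := by
  have h0 : ∀ (e : Pm) (F : ℝ → ℝ), Sm F → sn 0 (fun x => F (e⁻¹ x)) ≤ sn 0 F :=
    fun e F hF => sn_le fun x => by rw [iteratedDeriv_zero]; exact abs_le_sn_zero hF _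
  induction r with
  | zero =>
    refine ⟨1, zero_le_one, fun e F he _ h hF => ⟨inv_comp_inv_sm he hm h hF, ?_⟩⟩
    rw [inv_nm_zero, inv_nm_zero, one_mul]; exact h0 e F hF
  | succ r ih =>
    obtain ⟨C, hC, ih⟩ := ih
    obtain ⟨D, hD, hρ⟩ := nm_recip_le r M m hm
    set c : ℝ := (r + 1) * 2 ^ r with hc
    have hc0 : 0 ≤ c := by positivity
    refine ⟨1 + C * (c * D), by positivity, fun e F he hM h hF =>
      ⟨inv_comp_inv_sm he hm h hF, ?_⟩⟩
    have hp : ∀ x, 0 < 1 + deriv (dp e) x := fun x => hm.trans_le (h x)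
    have hM' : nm (r + 1) (dp e) ≤ M := (nm_mono (by omega) _).trans hM
    obtain ⟨hs, hb⟩ := hρ _ he hM' h
    have h1 := (ih e _ he hM' h (hF.deriv.mul hs)).2
    have h2 : nm r (fun y => deriv F y * (1 + deriv (dp e) y)⁻¹) ≤ c * (nm (r + 1) F * D) :=
      (nm_mul_le hF.deriv hs r).trans (mul_le_mul_of_nonneg_left
        (mul_le_mul (inv_nm_deriv_le _ _) hb (nm_nonneg _ _) (nm_nonneg _ _)) hc0)
    have h3 : sn 0 F ≤ nm (r + 1) F := sn_le_nm (by omega) F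
    rw [nm_succ, inv_deriv_comp_inv he hp hF]
    have h4 := mul_le_mul_of_nonneg_left h2 hC
    have h5 := h0 e F hF
    calc _ ≤ nm (r + 1) F + C * (c * (nm (r + 1) F * D)) := add_le_add (h5.trans h3) (h1.trans h4)
      _ = _ := by ring

theorem sm_inv (he : Sm (dp e)) {m : ℝ} (hm : 0 < m) (h : ∀ x, m ≤ 1 + deriv (dp e) x) :
    Sm (dp e⁻¹) := by
  have : dp e⁻¹ = fun x => -dp e (e⁻¹ x) := by ext x; simp [dp]
  rw [this]
  exact (inv_comp_inv_sm he hm h he).neg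

theorem lower_of_small (hf : Sm f) (h : sn 1 f ≤ 1 / 2) (x : ℝ) : 1 / 2 ≤ 1 + deriv f x := by
  have := (abs_le.1 (abs_deriv_le_sn_one hf x)).1
  linarith

theorem sm_inv_small (he : Sm (dp e)) (h : sn 1 (dp e) ≤ 1 / 2) : Sm (dp e⁻¹) :=
  sm_inv he one_half_pos (lower_of_small he h)

open Classical in
/-- the permutation with a given displacement, when there is one -/
noncomputable def mkp (f : ℝ → ℝ) : Pm := if h : ∃ e : Pm, dp e = f then h.choose else 1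

theorem dp_mkp (hf : Sm f) (h : sn 1 f ≤ 1 / 2) : dp (mkp f) = f := by
  have hex : ∃ e : Pm, dp e = f := mkP hf fun x => one_half_pos.trans_le (lower_of_small hf h x)
  rw [mkp, dif_pos hex]
  exact hex.choose_spec

theorem inv_mem_Gc (he : ContDiff ℝ ∞ fun x => e x) (he' : ContDiff ℝ ∞ fun x => e⁻¹ x)
    (h : Fix a b e) : e ∈ Gc := by
  refine ⟨he, he', max |a| |b|, fun x hx => h x ?_⟩
  have h1 : |a| ≤ |x| := (le_max_left _ _).trans hx
  have h2 : |b| ≤ |x| := (le_max_right _ _).trans hx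
  rcases le_total 0 x with h0 | h0
  · rw [abs_of_nonneg h0] at h2
    exact Or.inr ((le_abs_self b).trans h2)
  · rw [abs_of_nonpos h0] at h1
    left
    linarith [neg_abs_le a]

theorem mem_Gc_of (he : Sm (dp e)) (he' : Sm (dp e⁻¹)) (h : Fix a b e) : e ∈ Gc :=
  inv_mem_Gc (inv_contDiff he.contDiff) (inv_contDiff he'.contDiff) h

theorem mem_Gc_small (he : Sm (dp e)) (h1 : sn 1 (dp e) ≤ 1 / 2) (h : Fix a b e) : e ∈ Gc :=
  mem_Gc_of he (sm_inv_small he h1) h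

theorem mkG (hf : ContDiff ℝ ∞ f) (hv : Van a b f) (h : ∀ x, 0 < 1 + deriv f x) :
    ∃ g : Gc, dp (g : Pm) = f := by
  have hs : Sm f := sm_of_van hf hv
  obtain ⟨e, rfl⟩ := mkP hs h
  exact ⟨⟨e, inv_mem_Gc (inv_contDiff hf) (contDiff_inv hs h) (fix_iff_van.2 hv)⟩, rfl⟩

theorem Gc.fix (g : Gc) : ∃ M : ℝ, 0 < M ∧ Fix (-M) M (g : Pm) := by
  obtain ⟨M, hM⟩ := g.2.2.2
  refine ⟨max M 1, lt_max_of_lt_right one_pos, fun x hx => hM x ?_⟩
  have h1 := le_max_left M 1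
  rcases hx with hx | hx
  · linarith [neg_le_abs x]
  · linarith [le_abs_self x]

theorem Gc.sm (g : Gc) : Sm (dp (g : Pm)) := by
  obtain ⟨M, -, hM⟩ := Gc.fix g
  exact sm_of_van (g.2.1.sub contDiff_id) (fix_iff_van.1 hM)

/-- the derivative never vanishes (chain rule with the inverse), is continuous, and equals one far
away -/
theorem Gc.lower (g : Gc) : ∃ m : ℝ, 0 < m ∧ ∀ x, m ≤ 1 + deriv (dp (g : Pm)) x := by
  obtain ⟨M, hM0, hM⟩ := Gc.fix g
  have hs := Gc.sm g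
  have hv : Van (-M) M (deriv (dp (g : Pm))) := (fix_iff_van.1 hM).deriv hs.contDiff
  have hc : Continuous fun x => 1 + deriv (dp (g : Pm)) x := continuous_const.add hs.deriv.continuous
  have hne : ∀ x, 1 + deriv (dp (g : Pm)) x ≠ 0 := by
    intro x
    have h1 : DifferentiableAt ℝ (fun y => (g : Pm)⁻¹ y) ((g : Pm) x) :=
      g.2.2.1.differentiable (by simp) _
    have h2 := h1.hasDerivAt.comp x (inv_hasDerivAt hs x)
    have h3 : ((fun y => (g : Pm)⁻¹ y) ∘ fun y => (g : Pm) y) = id := by ext y; simp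
    rw [h3] at h2
    have h4 := h2.unique (hasDerivAt_id x)
    exact right_ne_zero_of_mul_eq_one h4
  have hpos : ∀ x, 0 < 1 + deriv (dp (g : Pm)) x := by
    intro x
    by_contra hx
    have h1 : (0 : ℝ) ≤ 1 + deriv (dp (g : Pm)) M := by rw [hv M (Or.inr le_rfl)]; norm_num
    obtain ⟨y, hy⟩ := mem_range_of_exists_le_of_exists_ge hc ⟨x, not_lt.1 hx⟩ ⟨M, h1⟩
    exact hne y hy
  obtain ⟨y, -, hy⟩ := (isCompact_Icc (a := -M) (b := M)).exists_isMinOn
    ⟨M, by constructor <;> linarith⟩ hc.continuousOn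
  refine ⟨min 1 (1 + deriv (dp (g : Pm)) y), lt_min one_pos (hpos y), fun x => ?_⟩
  by_cases hx : x ∈ Set.Icc (-M) M
  · exact (min_le_right _ _).trans (hy hx)
  · have : x ≤ -M ∨ M ≤ x := by
      by_contra h
      push Not at h
      exact hx ⟨h.1.le, h.2.le⟩
    rw [hv x this, add_zero]
    exact min_le_left _ _

theorem deriv_eq_one_add (he : Sm (dp e)) : deriv (fun x => e x) = fun x => 1 + deriv (dp e) x :=
  funext fun x => (inv_hasDerivAt he x).deriv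

theorem inv2_sn_eq (e : Pm) (r : ℕ) :
    sn r (dp e⁻¹) = sn r fun x => dp e (x + dp e⁻¹ x) := by
  rw [← sn_neg r fun x => dp e (x + dp e⁻¹ x), ← dp_inv]

theorem sn_inv_zero (he : Sm (dp e)) : sn 0 (dp e⁻¹) ≤ sn 0 (dp e) := by
  rw [inv2_sn_eq]
  exact sn_comp_zero he _

theorem sn_inv_one (he : Sm (dp e)) (h : sn 1 (dp e) ≤ 1 / 2) :
    sn 1 (dp e⁻¹) ≤ 2 * sn 1 (dp e) := by
  have h1 := sn_comp_one he (sm_inv_small he h)
  rw [← inv2_sn_eq] at h1
  have h2 := mul_le_mul_of_nonneg_right h (sn_nonneg 1 (dp e⁻¹))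
  linarith

theorem inv2_pow_le (he : Sm (dp e)) (h : sn 1 (dp e) ≤ 1 / 2) (r : ℕ) :
    sn r (dp e) * (1 + sn 1 (dp e⁻¹)) ^ r ≤ 2 ^ r * sn r (dp e) := by
  have h1 := sn_inv_one he h
  have h2 : (1 + sn 1 (dp e⁻¹)) ^ r ≤ 2 ^ r :=
    pow_le_pow_left₀ (by linarith [sn_nonneg 1 (dp e⁻¹)]) (by linarith) r
  rw [mul_comm]
  exact mul_le_mul_of_nonneg_right h2 (sn_nonneg _ _)

theorem inv2_two (he : Sm (dp e)) (h : sn 1 (dp e) ≤ 1 / 2) (h2 : sn 2 (dp e) ≤ 1 / 8) :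
    sn 2 (dp e⁻¹) ≤ 1 := by
  have hi := sm_inv_small he h
  have h1 := CompL.main_le he hi 0 (B := 0) fun x => by rw [CompL.Rm_zero he hi, abs_zero]
  rw [zero_add, ← inv2_sn_eq] at h1
  have h3 := inv2_pow_le he h 2
  have h4 := mul_le_mul_of_nonneg_right h (sn_nonneg 2 (dp e⁻¹))
  linarith

theorem inv2_step : ∃ C : ℕ → ℝ, (∀ r, 0 ≤ C r) ∧ ∀ r, 2 ≤ r → ∀ e : Pm, Sm (dp e) →
    sn 1 (dp e) ≤ 1 / 2 → sn 2 (dp e) ≤ 1 / 8 →
      sn r (dp e⁻¹) ≤ 2 * 2 ^ r * sn r (dp e) + C r * (md r (dp e) + md r (dp e⁻¹)) := by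
  obtain ⟨C, hC, ht⟩ := t3
  refine ⟨fun r => 2 * C r, fun r => by linarith [hC r], fun r hr e he h1 h2 => ?_⟩
  have hi := sm_inv_small he h1
  have i1 : sn 1 (dp e⁻¹) ≤ 1 := by linarith [sn_inv_one he h1]
  have i2 := inv2_two he h1 h2
  have h3 := ht r hr _ _ he hi i1 i2
  rw [← inv2_sn_eq] at h3
  have h4 := inv2_pow_le he h1 r
  have h5 := mul_le_mul_of_nonneg_right h1 (sn_nonneg r (dp e⁻¹))
  have h6 := mul_le_mul_of_nonneg_left i2 (md_nonneg r (dp e))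
  have h7 := mul_le_mul_of_nonneg_right (h2.trans (by norm_num : (1 / 8 : ℝ) ≤ 1))
    (md_nonneg r (dp e⁻¹))
  have h8 := mul_le_mul_of_nonneg_left (add_le_add h6 h7) (hC r)
  linarith

theorem inv2_md (k : ℕ) : ∃ D : ℝ, 0 ≤ D ∧ ∀ e : Pm, Sm (dp e) →
    sn 1 (dp e) ≤ 1 / 2 → sn 2 (dp e) ≤ 1 / 8 → md (k + 2) (dp e⁻¹) ≤ D * md (k + 2) (dp e) := by
  obtain ⟨C, hC, hs⟩ := inv2_step
  induction k with
  | zero => exact ⟨0, le_rfl, fun e _ _ _ => by rw [zero_add, md_two, zero_mul]⟩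
  | succ k ih =>
    obtain ⟨D, hD, ih⟩ := ih
    have hc := hC (k + 2)
    have hp : (0 : ℝ) ≤ 2 * 2 ^ (k + 2) := by positivity
    have hq : 0 ≤ D + C (k + 2) * (1 + D) := by positivity
    refine ⟨2 * 2 ^ (k + 2) + (D + C (k + 2) * (1 + D)), by positivity, fun e he h1 h2 => ?_⟩
    have h3 := ih e he h1 h2
    have h4 := hs (k + 2) (by omega) e he h1 h2
    have h5 := mul_le_mul_of_nonneg_left h3 hc
    have h6 := mul_nonneg hp (md_nonneg (k + 2) (dp e))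
    have h7 := mul_nonneg hq (sn_nonneg (k + 2) (dp e))
    rw [show k + 1 + 2 = k + 2 + 1 from rfl, md_succ (r := k + 2) (by omega) (dp e),
      md_succ (r := k + 2) (by omega) (dp e⁻¹)]
    linarith

/-- Apply `t3` to `dp_inv` and absorb the term `sn 1 f * sn r h`; for `r = 2` this gives
`sn 2 h ≤ 8 sn 2 f ≤ 1` (do this case by hand first, since `t3` wants `sn 2 h ≤ 1`);
strong induction bounds `md r h` by a constant times `md r f`. -/
theorem inv_star : ∃ C : ℕ → ℝ, (∀ r, 0 ≤ C r) ∧ ∀ r, 2 ≤ r → ∀ e : Pm, Sm (dp e) →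
    sn 1 (dp e) ≤ 1 / 2 → sn 2 (dp e) ≤ 1 / 8 →
      sn r (dp e⁻¹) ≤ 2 * 2 ^ r * sn r (dp e) + C r * md r (dp e) := by
  obtain ⟨C, hC, hs⟩ := inv2_step
  choose D hD hm using inv2_md
  refine ⟨fun r => C r * (1 + D (r - 2)), fun r => mul_nonneg (hC r) (by linarith [hD (r - 2)]),
    fun r hr e he h1 h2 => ?_⟩
  have h3 := hm (r - 2) e he h1 h2
  rw [Nat.sub_add_cancel hr] at h3
  have h4 := hs r hr e he h1 h2
  have h5 := mul_le_mul_of_nonneg_left h3 (hC r)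
  linarith

theorem inv_crude (r : ℕ) : ∃ C : ℝ, 0 ≤ C ∧ ∀ e : Pm, Sm (dp e) →
    sn 1 (dp e) ≤ 1 / 2 → sn 2 (dp e) ≤ 1 / 8 → sn r (dp e⁻¹) ≤ C * nm r (dp e) := by
  obtain ⟨C, hC, hs⟩ := inv_star
  have hc := hC r
  have hp : (0 : ℝ) ≤ 2 * 2 ^ r := by positivity
  refine ⟨2 + 2 * 2 ^ r + C r, by positivity, fun e he h1 h2 => ?_⟩
  have n0 := nm_nonneg r (dp e)
  have n1 := sn_le_nm (le_refl r) (dp e)
  have n2 := mul_nonneg hp n0
  have n3 := mul_nonneg hc n0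
  match r with
  | 0 => linarith [sn_inv_zero he]
  | 1 => linarith [sn_inv_one he h1]
  | k + 2 =>
    have h3 := hs (k + 2) (by omega) e he h1 h2
    have h4 := mul_le_mul_of_nonneg_left n1 hp
    have h5 := mul_le_mul_of_nonneg_left (md_le_nm (k + 2) (dp e)) hc
    linarith

end Pool.Agent.P.MP_7bb7e1_gt
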