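import Pool.Agent.P.MP_7bb7e1_gt.Norm

/-! Landau-Kolmogorov interpolation and consequences. -/

namespace Pool.Agent.P.MP_7bb7e1_gt

open Filter Topology

theorem lk_aux1 {g : ℝ → ℝ} (hg : Sm g) : sn 1 g ^ 2 ≤ 8 * (sn 0 g * sn 2 g) := by
  have h0 := sn_nonneg 0 g
  have h1 := sn_nonneg 1 g
  have h2 := sn_nonneg 2 g
  have key : ∀ t : ℝ, 0 ≤ sn 2 g * (t * t) + (-sn 1 g) * t + 2 * sn 0 g := by
    intro t
    rcases le_or_gt t 0 with ht | ht
    · have a1 : 0 ≤ sn 2 g * (t * t) := mul_nonneg h2 (mul_self_nonneg t)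
      have a2 : 0 ≤ (-sn 1 g) * t := mul_nonneg_of_nonpos_of_nonpos (by linarith) ht
      linarith
    · have hb : sn 1 g ≤ (2 * sn 0 g + sn 2 g * (t * t)) / t := by
        apply sn_le
        intro x
        rw [iteratedDeriv_one, le_div_iff₀ ht]
        have a1 := taylor_two hg x t
        have a2 := abs_le_sn_zero hg (x + t)
        have a3 := abs_le_sn_zero hg x
        have a4 : |deriv g x| * t = |deriv g x * t| := by rw [abs_mul, abs_of_pos ht]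
        rw [a4]
        rw [abs_le] at a1 a2 a3 ⊢
        constructor <;> nlinarith [a1.1, a1.2, a2.1, a2.2, a3.1, a3.2]
      rw [le_div_iff₀ ht] at hb
      linarith
  have := discrim_le_zero key
  unfold discrim at this
  nlinarith

/-- From `taylor_two` at `x` with step `t`: `M₁ ≤ 2 M₀ / t + t M₂`, hence `M₁ ^ 2 ≤ 8 M₀ M₂`. -/
theorem landau {f : ℝ → ℝ} (hf : Sm f) (j : ℕ) :
    sn (j + 1) f ^ 2 ≤ 8 * (sn j f * sn (j + 2) f) := by
  have h := lk_aux1 (hf.iteratedDeriv j)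
  rw [sn_iteratedDeriv, sn_iteratedDeriv, sn_iteratedDeriv, zero_add, add_comm 1 j,
    add_comm 2 j] at h
  exact h

theorem lk_aux2 (b : ℕ → ℝ) (hb : ∀ j, 0 ≤ b j) (hc : ∀ j, 2 * b (j + 1) ^ 2 ≤ b j * b (j + 2))
    (R : ℕ) (M : ℝ) (h0 : b 0 ≤ M) (hR : b R ≤ M) : ∀ j, j ≤ R → b j ≤ M := by
  obtain ⟨k, hk, hmax⟩ := Finset.exists_max_image (Finset.range (R + 1)) b ⟨0, by simp⟩
  have hkR : k ≤ R := Nat.lt_succ_iff.1 (Finset.mem_range.1 hk)
  have hmax' : ∀ j, j ≤ R → b j ≤ b k := fun j hj =>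
    hmax j (Finset.mem_range.2 (Nat.lt_succ_iff.2 hj))
  suffices h : b k ≤ M from fun j hj => (hmax' j hj).trans h
  rcases Nat.eq_zero_or_pos k with rfl | hpos
  · exact h0
  rcases hkR.eq_or_lt with rfl | hlt
  · exact hR
  obtain ⟨i, rfl⟩ : ∃ i, k = i + 1 := ⟨k - 1, by omega⟩
  have a1 := hc i
  have a2 := hmax' i (by omega)
  have a3 := hmax' (i + 2) (by omega)
  have a4 : b i * b (i + 2) ≤ b (i + 1) * b (i + 1) :=
    mul_le_mul a2 a3 (hb _) (hb _)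
  have a5 : b (i + 1) ^ 2 ≤ 0 := by nlinarith
  have a6 : b (i + 1) = 0 := by
    have := le_antisymm a5 (sq_nonneg _)
    exact pow_eq_zero_iff (two_ne_zero) |>.1 this
  have a7 := hb 0
  linarith

/-- The sequence `b j = 4 ^ (j ^ 2) * sn j f / l ^ j` satisfies `b (j+1) ^ 2 ≤ b j * b (j+2)`, so
its maximum on `[0, R]` is attained at an end point (take the largest maximiser). -/
theorem lk (R : ℕ) : ∃ C : ℝ, 1 ≤ C ∧ ∀ (f : ℝ → ℝ) (A l : ℝ), Sm f → 0 < l → sn 0 f ≤ A →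
    sn R f ≤ A * l ^ R → ∀ j, j ≤ R → sn j f ≤ C * A * l ^ j := by
  have hC : ∀ n : ℕ, (1 : ℝ) ≤ 4 ^ n := fun n => one_le_pow₀ (by norm_num)
  refine ⟨4 ^ (R ^ 2), hC _, fun f A l hf hl h0 hR j hj => ?_⟩
  have hA : 0 ≤ A := (sn_nonneg 0 f).trans h0
  have hlp : ∀ n : ℕ, 0 < l ^ n := fun n => pow_pos hl n
  have h := lk_aux2 (fun j => 4 ^ (j ^ 2) * sn j f / l ^ j)
    (fun j => div_nonneg (mul_nonneg (by positivity) (sn_nonneg j f)) (hlp j).le)
    (fun j => by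
      have a1 := landau hf j
      have a2 : 0 ≤ sn j f * sn (j + 2) f := mul_nonneg (sn_nonneg _ _) (sn_nonneg _ _)
      have e1 : 2 * ((4 : ℝ) ^ ((j + 1) ^ 2) * sn (j + 1) f / l ^ (j + 1)) ^ 2
          = (4 ^ ((j + 1) ^ 2) / l ^ (j + 1)) ^ 2 * (2 * sn (j + 1) f ^ 2) := by ring
      have e2 : (4 : ℝ) ^ (j ^ 2) * sn j f / l ^ j * (4 ^ ((j + 2) ^ 2) * sn (j + 2) f / l ^ (j + 2))
          = (4 ^ ((j + 1) ^ 2) / l ^ (j + 1)) ^ 2 * (16 * (sn j f * sn (j + 2) f)) := by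
        have e3 : (4 : ℝ) ^ (j ^ 2) * 4 ^ ((j + 2) ^ 2) = (4 ^ ((j + 1) ^ 2)) ^ 2 * 16 := by
          rw [← pow_add, ← pow_mul, show (16 : ℝ) = 4 ^ 2 by norm_num, ← pow_add]
          congr 1
          ring
        have e4 : l ^ j * l ^ (j + 2) = (l ^ (j + 1)) ^ 2 := by ring
        rw [div_mul_div_comm, e4, div_pow]
        have : (4 : ℝ) ^ (j ^ 2) * sn j f * (4 ^ ((j + 2) ^ 2) * sn (j + 2) f)
            = (4 ^ (j ^ 2) * 4 ^ ((j + 2) ^ 2)) * (sn j f * sn (j + 2) f) := by ring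
        rw [this, e3]
        ring
      show 2 * ((4 : ℝ) ^ ((j + 1) ^ 2) * sn (j + 1) f / l ^ (j + 1)) ^ 2 ≤
        (4 : ℝ) ^ (j ^ 2) * sn j f / l ^ j * (4 ^ ((j + 2) ^ 2) * sn (j + 2) f / l ^ (j + 2))
      rw [e1, e2]
      exact mul_le_mul_of_nonneg_left (by linarith) (sq_nonneg _))
    R (4 ^ (R ^ 2) * A)
    (by
      have := hC (R ^ 2)
      simp only [pow_zero, div_one, ne_eq, OfNat.ofNat_ne_zero, not_false_eq_true, zero_pow,
        one_mul]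
      nlinarith)
    (by
      show (4 : ℝ) ^ (R ^ 2) * sn R f / l ^ R ≤ 4 ^ (R ^ 2) * A
      rw [div_le_iff₀ (hlp R), mul_assoc]
      exact mul_le_mul_of_nonneg_left hR (by positivity))
    j hj
  have h' : (4 : ℝ) ^ (j ^ 2) * sn j f / l ^ j ≤ 4 ^ (R ^ 2) * A := h
  rw [div_le_iff₀ (hlp j)] at h'
  have a1 := hC (j ^ 2)
  have a2 := sn_nonneg j f
  nlinarith

theorem lk_root {m : ℝ} (hm : 0 < m) {n : ℕ} (hn : n ≠ 0) : ∃ l : ℝ, 0 < l ∧ l ^ n = m :=
  ⟨m ^ ((n : ℝ)⁻¹), Real.rpow_pos_of_pos hm _, Real.rpow_inv_natCast_pow hm.le hn⟩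

/-- Interpolation between smallness in the sup norm and a polynomial bound on a high derivative.
Take `R = 2 (r+1) (K + a) + r + 1`, `A = max C₀ 1 * ε ^ a`, `l = max C₁ 1 * ε ^ (-1 / (2 (r+1)))`. -/
theorem interp (r a K : ℕ) : ∃ R : ℕ, r ≤ R ∧ ∀ C₀ C₁ : ℝ, ∃ C : ℝ, 0 ≤ C ∧
    ∀ (ε : ℝ) (f : ℝ → ℝ), 0 < ε → ε ≤ 1 → Sm f → sn 0 f ≤ C₀ * ε ^ a → sn R f ≤ C₁ / ε ^ K →
      nm r f ≤ C * ε ^ a / √ε := by
  refine ⟨2 * (r + 1) * (K + a) + (r + 1), by omega, fun C₀ C₁ => ?_⟩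
  obtain ⟨C, hC1, hC⟩ := lk (2 * (r + 1) * (K + a) + (r + 1))
  have hB1 : (1 : ℝ) ≤ max C₀ 1 := le_max_right _ _
  have hD1 : (1 : ℝ) ≤ max C₁ 1 := le_max_right _ _
  have hB0 : C₀ ≤ max C₀ 1 := le_max_left _ _
  have hD0 : C₁ ≤ max C₁ 1 := le_max_left _ _
  generalize max C₀ 1 = B at hB1 hB0
  generalize max C₁ 1 = D at hD1 hD0
  have hBp : 0 < B := by linarith
  have hDp : 0 < D := by linarith
  have hCp : 0 < C := by linarith
  refine ⟨(r + 1) * (C * B * D ^ (r + 1)), by positivity, fun ε f hε hε1 hf h0 hR => ?_⟩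
  obtain ⟨δ, hδ, rfl⟩ := lk_root hε (n := 2 * (r + 1)) (by omega)
  have hδ1 : δ ≤ 1 := by
    by_contra hcon
    have := one_lt_pow₀ (not_le.1 hcon) (n := 2 * (r + 1)) (by omega)
    linarith
  have hs : √(δ ^ (2 * (r + 1))) = δ ^ (r + 1) := by
    rw [mul_comm, pow_mul]
    exact Real.sqrt_sq (by positivity)
  have hl1 : 1 ≤ D / δ := by
    rw [le_div_iff₀ hδ]; linarith
  have hea : 0 < (δ ^ (2 * (r + 1))) ^ a := by positivity
  have h := hC f (B * (δ ^ (2 * (r + 1))) ^ a) (D / δ) hf (by positivity)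
    (h0.trans (mul_le_mul_of_nonneg_right hB0 hea.le))
    (hR.trans (by
      have e1 : B * (δ ^ (2 * (r + 1))) ^ a * (D / δ) ^ (2 * (r + 1) * (K + a) + (r + 1))
          = (B * D ^ (2 * (r + 1) * (K + a) + r) / δ ^ (r + 1)) * D / (δ ^ (2 * (r + 1))) ^ K := by
        have x1 : δ ^ (2 * (r + 1) * (K + a) + (r + 1))
            = (δ ^ (2 * (r + 1))) ^ K * (δ ^ (2 * (r + 1))) ^ a * δ ^ (r + 1) := by
          rw [← pow_add, ← pow_mul, ← pow_add]
        have x2 : D ^ (2 * (r + 1) * (K + a) + (r + 1)) = D ^ (2 * (r + 1) * (K + a) + r) * D := by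
          rw [← pow_succ, add_assoc]
        rw [div_pow, x1, x2]
        generalize δ ^ (2 * (r + 1)) = e at hε
        field_simp
      rw [e1]
      apply div_le_div_of_nonneg_right _ (by positivity)
      have a1 : 1 ≤ D ^ (2 * (r + 1) * (K + a) + r) := one_le_pow₀ hD1
      have a2 : δ ^ (r + 1) ≤ 1 := pow_le_one₀ hδ.le hδ1
      have a3 : 1 ≤ B * D ^ (2 * (r + 1) * (K + a) + r) / δ ^ (r + 1) := by
        rw [le_div_iff₀ (by positivity)]
        nlinarith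
      nlinarith))
  have hj : ∀ j, j ≤ r → sn j f ≤ C * (B * (δ ^ (2 * (r + 1))) ^ a) * (D / δ) ^ (r + 1) := by
    intro j hj
    refine (h j (by omega)).trans (mul_le_mul_of_nonneg_left ?_ (by positivity))
    exact pow_le_pow_right₀ hl1 (by omega)
  refine (nm_le_of_sn_le hj).trans (le_of_eq ?_)
  rw [hs, div_pow]
  field_simp

theorem lk_aux3 (r : ℕ) : ∃ C : ℝ, 0 ≤ C ∧ ∀ f g : ℝ → ℝ, Sm f → Sm g → ∀ j, j ≤ r →
    sn j f * sn (r - j) g ≤ C * (sn r f * sn 0 g + sn 0 f * sn r g) := by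
  rcases Nat.eq_zero_or_pos r with rfl | hr
  · refine ⟨1, zero_le_one, fun f g _ _ j hj => ?_⟩
    obtain rfl : j = 0 := by omega
    have := mul_nonneg (sn_nonneg 0 f) (sn_nonneg 0 g)
    simp only [Nat.sub_zero]
    linarith
  obtain ⟨C, hC1, hC⟩ := lk r
  have hCp : 0 < C := by linarith
  refine ⟨C ^ 2, by positivity, fun f g hf hg j hj => ?_⟩
  have f0 := sn_nonneg 0 f
  have g0 := sn_nonneg 0 g
  have fr := sn_nonneg r f
  have gr := sn_nonneg r g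
  have key : ∀ η : ℝ, 0 < η → sn j f * sn (r - j) g ≤
      C ^ 2 * (sn r f * (sn 0 g + η) + (sn 0 f + η) * sn r g
        + η * ((sn 0 f + η) * (sn 0 g + η))) := by
    intro η hη
    have hF : 0 < sn 0 f + η := by linarith
    have hG : 0 < sn 0 g + η := by linarith
    have q1 : 0 ≤ sn r f / (sn 0 f + η) := div_nonneg fr hF.le
    have q2 : 0 ≤ sn r g / (sn 0 g + η) := div_nonneg gr hG.le
    obtain ⟨l, hl, hlr⟩ := lk_root
      (m := sn r f / (sn 0 f + η) + sn r g / (sn 0 g + η) + η) (by linarith) (n := r) (by omega)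
    have a1 := hC f (sn 0 f + η) l hf hl (by linarith) (by
      rw [hlr, ← div_le_iff₀' hF]; linarith) j hj
    have a2 := hC g (sn 0 g + η) l hg hl (by linarith) (by
      rw [hlr, ← div_le_iff₀' hG]; linarith) (r - j) (by omega)
    have a3 := mul_le_mul a1 a2 (sn_nonneg _ _) (by positivity)
    refine a3.trans (le_of_eq ?_)
    have e1 : l ^ j * l ^ (r - j) = l ^ r := by
      rw [← pow_add]; congr 1; omega
    have e2 : C * (sn 0 f + η) * l ^ j * (C * (sn 0 g + η) * l ^ (r - j))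
        = C ^ 2 * ((sn 0 f + η) * (sn 0 g + η)) * (l ^ j * l ^ (r - j)) := by ring
    rw [e2, e1, hlr]
    field_simp
  have hcont : Continuous fun η : ℝ => C ^ 2 * (sn r f * (sn 0 g + η) + (sn 0 f + η) * sn r g
        + η * ((sn 0 f + η) * (sn 0 g + η))) := by fun_prop
  have ht := (hcont.tendsto 0).mono_left (nhdsWithin_le_nhds (s := Set.Ioi 0))
  have := ge_of_tendsto ht (eventually_mem_nhdsWithin.mono fun η hη => key η hη)
  simpa using this

/-- Tame product estimate: choose `l` with `l ^ r` the larger of the two ratios `sn r / sn 0`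
(perturb to avoid zero), and use `lk` and `sn_mul_le`. -/
theorem sn_mul_tame (r : ℕ) : ∃ C : ℝ, 0 ≤ C ∧ ∀ f g : ℝ → ℝ, Sm f → Sm g →
    sn r (fun x => f x * g x) ≤ C * (sn r f * sn 0 g + sn 0 f * sn r g) := by
  obtain ⟨C, hC0, hC⟩ := lk_aux3 r
  refine ⟨(∑ j ∈ Finset.range (r + 1), (r.choose j : ℝ)) * C, by positivity,
    fun f g hf hg => (sn_mul_le hf hg r).trans ?_⟩
  rw [mul_assoc, Finset.sum_mul]
  refine Finset.sum_le_sum fun j hj => mul_le_mul_of_nonneg_left ?_ (by positivity)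
  exact hC f g hf hg j (Nat.lt_succ_iff.1 (Finset.mem_range.1 hj))

end Pool.Agent.P.MP_7bb7e1_gt
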