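import Pool.Agent.P.MP_7bb7e1_gt.LieCore

/-! The algebraic Gelfand-Fuks computation in one weight. -/

namespace Pool.Agent.P.MP_7bb7e1_gt

variable {W A : Type*} [NonUnitalCommRing W] [Module ℝ W] [IsScalarTower ℝ W W]
  [SMulCommClass ℝ W W] [AddCommGroup A]

def brW (D : W →ₗ[ℝ] W) (f h : W) : W := f * D h - D f * h

/-- bracket with `x ^ k` -/
def Lop (D X : W →ₗ[ℝ] W) (k : ℕ) (f : W) : W := (X ^ k) (D f) - (k : ℝ) • (X ^ (k - 1)) f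

theorem lie (D X : W →ₗ[ℝ] W) (hD : ∀ f h, D (f * h) = D f * h + f * D h)
    (hX : ∀ f h, X (f * h) = X f * h) (hDX : ∀ f, D (X f) = X (D f) + f) {q : ℕ} (hq : 6 ≤ q)
    (Ω : ℕ → W →+ W →+ A) (Λ : ℕ → ℕ → W →+ A)
    (J1 : ∀ k l m m', k ≤ 1 → k ≤ l → l ≤ 3 → 1 ≤ m → 1 ≤ m' → m + m' + 1 ≤ q → ∀ h,
      Λ (k + l - 1) (m + m') (((l : ℝ) - k) • h) = Λ k m (Lop D X l h) - Λ l m' (Lop D X k h))
    (J2 : ∀ k l m, k ≤ 3 → 1 ≤ l → 1 ≤ m → l + m + 1 ≤ q → ∀ f h,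
      Λ k m (brW D f h) = Ω (l + m) (Lop D X k f) h + Ω l f (Lop D X k h))
    (W₁ : Submodule ℝ W) (hD₁ : ∀ f ∈ W₁, D f ∈ W₁) (hX₁ : ∀ f ∈ W₁, X f ∈ W₁)
    (hΛ : ∀ k, ∀ f ∈ W₁, Λ k 1 f = 0) :
    ∃ s φ : W →+ A, (∀ F ∈ W₁, s F = 0) ∧ (∀ F ∈ W₁, φ F = 0) ∧ (∀ F, φ (D F) = 0) ∧
      ∀ l, 1 ≤ l → l + 1 ≤ q → ∀ f h, Ω l f h = s (brW D f h) + φ (D f * D (D h)) := by
  let d : GVLie.Data W := ⟨D, X, hD, fun f h => (hX f h).symm, hDX⟩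
  have hL : ∀ k f, d.L k f = Lop D X k f := by
    intro k f
    simp only [GVLie.Data.L, Lop, LinearMap.sub_apply, LinearMap.comp_apply, LinearMap.smul_apply,
      Nat.cast_smul_eq_nsmul]
    rfl
  obtain ⟨h1, h2⟩ := GVLie.lie d q hq Ω Λ (by
      intro k l m m' hk hkl hl hm hm' hq' h
      rw [hL, hL, ← J1 k l m m' hk hkl hl hm hm' hq' h, ← Nat.cast_sub hkl, Nat.cast_smul_eq_nsmul,
        map_nsmul]) (by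
      intro k l m hk _ hl hm hq' f h
      rw [hL, hL]
      exact J2 k l m hk hl hm hq' f h)
  have hs : ∀ F ∈ W₁, GVLie.sMap d Λ F = 0 := by
    intro F hF
    rw [GVLie.sMap_apply, hΛ 0 _ (W₁.smul_mem _ (hX₁ F hF)), hΛ 1 _ (W₁.smul_mem _ hF), sub_zero]
  refine ⟨GVLie.sMap d Λ, GVLie.phiMap d Λ, hs, ?_, h1, h2⟩
  intro F hF
  have h3 : d.L 3 F ∈ W₁ := by
    rw [d.L3]
    exact W₁.sub_mem (hX₁ _ (hX₁ _ (hX₁ _ (hD₁ _ hF)))) (nsmul_mem (hX₁ _ (hX₁ _ hF)) 3)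
  rw [GVLie.phiMap_apply, hΛ 3 _ (W₁.smul_mem _ hF), hs _ (W₁.smul_mem _ h3), sub_zero]

end Pool.Agent.P.MP_7bb7e1_gt
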