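import Mathlib

/-!
Pure algebra: the graded second cohomology computation for vector fields on the line
(only the Gelfand-Fuks class survives).
-/

namespace GVLie

/-- A derivation `D` and a multiplier `X` with `D X = X D + 1`. -/
structure Data (W : Type*) [NonUnitalCommRing W] [Module ℝ W] where
  D : W →ₗ[ℝ] W
  X : W →ₗ[ℝ] W
  D_mul : ∀ f h, D (f * h) = D f * h + f * D h
  X_mul : ∀ f h, X f * h = X (f * h)
  D_X : ∀ f, D (X f) = X (D f) + f

variable {W : Type*} [NonUnitalCommRing W] [Module ℝ W] {A : Type*} [AddCommGroup A]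

namespace Data

variable (d : Data W)

/-- the bracket `f h' - f' h` -/
def br (f h : W) : W := f * d.D h - d.D f * h

/-- `L k f = br (x^k, f)` -/
def L (k : ℕ) : W →ₗ[ℝ] W := (d.X ^ k) ∘ₗ d.D - k • (d.X ^ (k - 1))

/-- the Gelfand-Fuks density -/
def GF (f h : W) : W := d.D f * d.D (d.D h)

theorem mul_X (f h : W) : f * d.X h = d.X (f * h) := by
  rw [mul_comm, d.X_mul, mul_comm]

theorem L0 (h : W) : d.L 0 h = d.D h := by simp [L]
theorem L1 (h : W) : d.L 1 h = d.X (d.D h) - h := by simp [L]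
theorem L2 (h : W) : d.L 2 h = d.X (d.X (d.D h)) - 2 • d.X h := by simp [L, pow_succ]
theorem L3 (h : W) : d.L 3 h = d.X (d.X (d.X (d.D h))) - 3 • d.X (d.X h) := by simp [L, pow_succ]

theorem L1' (h : W) : d.L 1 h = d.D (d.X h) - 2 • h := by
  rw [L1, d.D_X]; abel

theorem split (F : W) : F = d.L 0 ((1 / 2 : ℝ) • d.X F) + d.L 1 (-((1 / 2 : ℝ) • F)) := by
  rw [L0, L1', map_neg, map_neg, map_smul, map_smul, map_smul]
  module

theorem LL (k l : ℕ) (hk : k ≤ 1) (hkl : k ≤ l) (hl : l ≤ 3) (h : W) :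
    (l - k) • d.L (k + l - 1) h = d.L k (d.L l h) - d.L l (d.L k h) := by
  interval_cases k <;> interval_cases l <;>
    simp only [L0, L1, L2, L3, map_sub, map_add, map_nsmul, d.D_X, Nat.reduceAdd, Nat.reduceSub,
      Nat.sub_self, Nat.sub_zero, Nat.zero_add, Nat.add_one_sub_one, zero_smul, one_smul, sub_self,
      Nat.zero_sub] <;> abel

theorem L_br (k : ℕ) (hk : k ≤ 3) (f h : W) :
    d.L k (d.br f h) = d.br (d.L k f) h + d.br f (d.L k h) := by
  interval_cases k <;>
    simp only [br, L0, L1, L2, L3, map_sub, map_add, map_nsmul, d.D_X, d.D_mul, mul_sub, sub_mul,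
      mul_add, add_mul, d.X_mul, d.mul_X, smul_mul_assoc, mul_smul_comm] <;> abel

theorem GF0 (f h : W) : d.GF (d.L 0 f) h + d.GF f (d.L 0 h) = d.D (d.GF f h) := by
  simp only [GF, L0, d.D_mul]

theorem GF1 (f h : W) : d.GF (d.L 1 f) h + d.GF f (d.L 1 h) = d.D (d.X (d.GF f h)) := by
  simp only [GF, L1, map_sub, map_add, d.D_X, d.D_mul, mul_sub, sub_mul,
      mul_add, add_mul, d.X_mul, d.mul_X]
  abel

theorem GF3 (f h : W) : d.GF (d.L 3 f) h + d.GF f (d.L 3 h) =
    d.D (d.X (d.X (d.X (d.GF f h))) - 6 • d.X (f * d.D h)) + 6 • d.br f h := by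
  simp only [GF, br, L3, map_sub, map_add, map_nsmul, d.D_X, d.D_mul, mul_sub, sub_mul,
      mul_add, add_mul, d.X_mul, d.mul_X, smul_mul_assoc, mul_smul_comm]
  abel

end Data

theorem zero_of_nsmul (φ : W → A) (hφ : ∀ (n : ℕ) (x : W), φ (n • x) = n • φ x) (n : ℕ)
    (hn : n ≠ 0) (h : ∀ x, n • φ x = 0) (x : W) : φ x = 0 := by
  have hx : x = n • ((1 / n : ℝ) • x) := by
    rw [← Nat.cast_smul_eq_nsmul ℝ, smul_smul, mul_one_div_cancel (Nat.cast_ne_zero.2 hn), one_smul]
  rw [hx, hφ, h]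

/-- an invariant biadditive pairing vanishes -/
theorem inv_zero (d : Data W) (T : W →+ W →+ A)
    (h0 : ∀ f h, T (d.L 0 f) h + T f (d.L 0 h) = 0)
    (h1 : ∀ f h, T (d.L 1 f) h + T f (d.L 1 h) = 0)
    (h3 : ∀ f h, T (d.L 3 f) h + T f (d.L 3 h) = 0) (f h : W) : T f h = 0 := by
  have e0 : ∀ f h, T f (d.D h) = -T (d.D f) h := by
    intro f h
    have := h0 f h
    rw [d.L0, d.L0] at this
    linear_combination (norm := abel) this
  have e1 : ∀ f h, T (d.X (d.D f)) h - T (d.D f) (d.X h) = 3 • T f h := by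
    intro f h
    have a := h1 f h
    have b := e0 f (d.X h)
    rw [d.L1, d.L1] at a
    rw [d.D_X] at b
    simp only [map_sub, map_add, AddMonoidHom.sub_apply] at a b
    linear_combination (norm := abel) a - b
  have e2 : ∀ f h, 2 • (T (d.X (d.X f)) h - 2 • T (d.X f) (d.X h) + T f (d.X (d.X h))) = 0 := by
    intro f h
    have a := h3 f h
    have b := e0 f (d.X (d.X (d.X h)))
    have c1 := e1 (d.X (d.X f)) h
    have c2 := e1 (d.X f) (d.X h)
    have c3 := e1 f (d.X (d.X h))
    rw [d.L3, d.L3] at a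
    simp only [d.D_X, map_sub, map_add, map_nsmul, AddMonoidHom.sub_apply, AddMonoidHom.add_apply,
      AddMonoidHom.nsmul_apply] at a b c1 c2 c3
    linear_combination (norm := abel) c1 + c2 + c3 - a + b
  have e3 : ∀ f h, T (d.X (d.X f)) h - 2 • T (d.X f) (d.X h) + T f (d.X (d.X h)) = 0 := by
    intro f h
    refine zero_of_nsmul (fun f => T (d.X (d.X f)) h - 2 • T (d.X f) (d.X h) + T f (d.X (d.X h)))
      ?_ 2 two_ne_zero (fun f => e2 f h) f
    intro n x
    simp only [map_nsmul, AddMonoidHom.nsmul_apply]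
    module
  have e4 : ∀ f h, 2 • (T (d.X f) h - T f (d.X h)) = 0 := by
    intro f h
    have c1 := e1 (d.X f) h
    have c2 := e1 f (d.X h)
    have c3 := e3 (d.D f) h
    simp only [d.D_X, map_add, AddMonoidHom.add_apply] at c1 c2 c3
    linear_combination (norm := abel) c3 - c1 + c2
  have e5 : ∀ f h, T (d.X f) h - T f (d.X h) = 0 := by
    intro f h
    refine zero_of_nsmul (fun f => T (d.X f) h - T f (d.X h)) ?_ 2 two_ne_zero (fun f => e4 f h) f
    intro n x
    simp only [map_nsmul, AddMonoidHom.nsmul_apply]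
    module
  refine zero_of_nsmul (fun f => T f h) ?_ 3 three_ne_zero (fun f => ?_) f
  · intro n x
    simp only [map_nsmul, AddMonoidHom.nsmul_apply]
  · rw [← e1, e5]

theorem hom_zero_of_nsmul (φ : W →+ A) (n : ℕ) (hn : n ≠ 0) (h : ∀ x, n • φ x = 0) (x : W) :
    φ x = 0 :=
  zero_of_nsmul φ (fun n x => map_nsmul φ n x) n hn h x

/-- The normalised case: `La 0 1 ∘ X = La 1 1`. -/
theorem norm_case (d : Data W) (q : ℕ) (hq : 6 ≤ q) (La : ℕ → ℕ → W →+ A)
    (J1 : ∀ k l m m' : ℕ, k ≤ 1 → k ≤ l → l ≤ 3 → 1 ≤ m → 1 ≤ m' → m + m' + 1 ≤ q → ∀ h,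
      (l - k) • La (k + l - 1) (m + m') h = La k m (d.L l h) - La l m' (d.L k h))
    (hn : ∀ h, La 0 1 (d.X h) = La 1 1 h) :
    (∀ m, 1 ≤ m → m + 1 ≤ q → ∀ h, La 0 m h = 0) ∧ (∀ m, 1 ≤ m → m + 1 ≤ q → ∀ h, La 1 m h = 0) ∧
    (∀ m, 1 ≤ m → m + 1 ≤ q → ∀ h, La 3 m h = La 3 1 h) ∧ ∀ h, La 3 1 (d.D h) = 0 := by
  have J00 : ∀ m, 1 ≤ m → m + 2 ≤ q → ∀ h, La 0 m (d.D h) = La 0 1 (d.D h) := by
    intro m hm hmq h
    have := J1 0 0 m 1 (by omega) le_rfl (by omega) hm le_rfl (by omega) h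
    simp only [d.L0, Nat.sub_self, zero_smul] at this
    linear_combination (norm := abel) -this
  have J01 : ∀ m m', 1 ≤ m → 1 ≤ m' → m + m' + 1 ≤ q → ∀ h,
      La 0 (m + m') h = La 0 m (d.D (d.X h)) - 2 • La 0 m h - La 1 m' (d.D h) := by
    intro m m' hm hm' hmq h
    have := J1 0 1 m m' (by omega) (by omega) (by omega) hm hm' hmq h
    simpa only [d.L0, d.L1', Nat.sub_zero, one_smul, Nat.zero_add, Nat.sub_self, map_sub,
      map_nsmul] using this
  have rec0 : ∀ m, 1 ≤ m → m + 2 ≤ q → ∀ h, La 0 (m + 1) h = La 0 1 h - 2 • La 0 m h := by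
    intro m hm hmq h
    have a := J01 m 1 hm le_rfl (by omega) h
    rw [J00 m hm hmq, ← hn, d.D_X, map_add] at a
    linear_combination (norm := abel) a
  have a2 := rec0 1 le_rfl (by omega)
  have a3 := rec0 2 (by omega) (by omega)
  have a4 := rec0 3 (by omega) (by omega)
  have aD : ∀ h, La 0 1 (d.D h) = 0 := by
    intro h
    refine hom_zero_of_nsmul ((La 0 1).comp d.D.toAddMonoidHom) 2 two_ne_zero (fun x => ?_) h
    have b := J00 2 (by omega) (by omega) x
    have c : La 0 2 (d.D x) = _ := a2 (d.D x)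
    simp only [AddMonoidHom.comp_apply, LinearMap.toAddMonoidHom_coe]
    linear_combination (norm := abel) c - b
  have a1 : ∀ h, La 0 1 h = 0 := by
    refine hom_zero_of_nsmul (La 0 1) 12 (by norm_num) (fun x => ?_)
    have b1 := J01 1 2 le_rfl (by omega) (by omega) x
    have b2 := J01 2 2 (by omega) (by omega) (by omega) x
    rw [J00 2 (by omega) (by omega)] at b2
    have c2 := a2 x
    have c3 := a3 x
    have c4 := a4 x
    norm_num at b1 b2 c2 c3 c4
    linear_combination (norm := abel) -(b2 - b1 - c4 + 3 • c3 - 8 • c2)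
  have al : ∀ m, 1 ≤ m → m + 1 ≤ q → ∀ h, La 0 m h = 0 := by
    intro m hm
    induction m, hm using Nat.le_induction with
    | base => intro _ h; exact a1 h
    | succ m hm ih =>
      intro hmq h
      rw [rec0 m hm (by omega), a1, ih (by omega)]
      simp
  have b1 : ∀ h, La 1 1 h = 0 := fun h => by rw [← hn, a1]
  have bD : ∀ m, 1 ≤ m → m + 2 ≤ q → ∀ h, La 1 m (d.D h) = 0 := by
    intro m hm hmq h
    have := J01 1 m le_rfl hm (by omega) h
    rw [al _ (by omega) (by omega), a1, a1] at this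
    linear_combination (norm := abel) this
  have be' : ∀ m, 1 ≤ m → m + 2 ≤ q → ∀ h, La 1 m h = 0 := by
    intro m hm hmq h
    have b := J1 1 1 m 1 le_rfl le_rfl (by omega) hm le_rfl (by omega) (-((1 / 2 : ℝ) • h))
    rw [Nat.sub_self, zero_smul, b1, sub_zero] at b
    rw [d.split h, map_add, ← b, d.L0, bD m hm hmq, add_zero]
  have J02 : ∀ m m', 1 ≤ m → 1 ≤ m' → m + m' + 1 ≤ q → ∀ h,
      2 • La 1 (m + m') h = -La 2 m' (d.D h) := by
    intro m m' hm hm' hmq h
    have := J1 0 2 m m' (by omega) (by omega) (by omega) hm hm' hmq h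
    rw [al m hm (by omega), d.L0] at this
    simpa using this
  have be : ∀ m, 1 ≤ m → m + 1 ≤ q → ∀ h, La 1 m h = 0 := by
    intro m hm hmq
    by_cases hlt : m + 2 ≤ q
    · exact be' m hm hlt
    · refine hom_zero_of_nsmul (La 1 m) 2 two_ne_zero (fun x => ?_)
      have c1 := J02 2 (q - 3) (by omega) (by omega) (by omega) x
      have c2 := J02 1 (q - 3) (by omega) (by omega) (by omega) x
      rw [be' (1 + (q - 3)) (by omega) (by omega)] at c2
      rw [show 2 + (q - 3) = m by omega] at c1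
      rw [c1, ← c2, smul_zero]
  have nD : ∀ m, 1 ≤ m → m + 2 ≤ q → ∀ h, La 2 m (d.D h) = 0 := by
    intro m hm hmq h
    have c := J02 1 m le_rfl hm (by omega) h
    rw [be _ (by omega) (by omega), smul_zero] at c
    linear_combination (norm := abel) c
  have J12 : ∀ m m', 1 ≤ m → 1 ≤ m' → m + m' + 1 ≤ q → ∀ h,
      La 2 (m + m') h = 2 • La 2 m' h := by
    intro m m' hm hm' hmq h
    have := J1 1 2 m m' (by omega) (by omega) (by omega) hm hm' hmq h
    rw [be m hm (by omega), d.L1', map_sub, nD m' hm' (by omega), map_nsmul] at this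
    simpa using this
  have n1 : ∀ h, La 2 1 h = 0 := by
    refine hom_zero_of_nsmul (La 2 1) 2 two_ne_zero (fun x => ?_)
    have c1 := J12 1 1 le_rfl le_rfl (by omega) x
    have c2 := J12 2 1 (by omega) le_rfl (by omega) x
    have c3 := J12 1 2 le_rfl (by omega) (by omega) x
    norm_num at c1 c2 c3
    linear_combination (norm := abel) c2 - c3 - 2 • c1
  have xD : ∀ m, 1 ≤ m → m + 2 ≤ q → ∀ h, La 3 m (d.D h) = 0 := by
    intro m hm hmq h
    have c := J1 0 3 1 m (by omega) (by omega) le_rfl le_rfl hm (by omega) h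
    have c2 := J12 m 1 hm le_rfl (by omega) h
    rw [n1, smul_zero, Nat.add_comm] at c2
    rw [a1, d.L0] at c
    norm_num at c
    rw [c2, smul_zero] at c
    linear_combination (norm := abel) c
  refine ⟨al, be, ?_, xD 1 le_rfl (by omega)⟩
  intro m hm hmq
  rcases Nat.eq_or_lt_of_le hm with rfl | hm1
  · intro h; rfl
  · intro h
    have := hom_zero_of_nsmul (La 3 m - La 3 1) 2 two_ne_zero (fun x => ?_) h
    · simpa [sub_eq_zero] using this
    have c := J1 1 3 (m - 1) 1 le_rfl (by omega) le_rfl (by omega) le_rfl (by omega) x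
    rw [be _ (by omega) (by omega), d.L1', map_sub, xD 1 le_rfl (by omega), map_nsmul,
      show m - 1 + 1 = m by omega] at c
    norm_num at c
    simp only [AddMonoidHom.sub_apply]
    linear_combination (norm := abel) c

/-- the coboundary part -/
noncomputable def sMap (d : Data W) (La : ℕ → ℕ → W →+ A) : W →+ A :=
  (La 0 1).comp ((1 / 2 : ℝ) • d.X).toAddMonoidHom -
    (La 1 1).comp ((1 / 2 : ℝ) • (LinearMap.id : W →ₗ[ℝ] W)).toAddMonoidHom

theorem sMap_apply (d : Data W) (La : ℕ → ℕ → W →+ A) (F : W) :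
    sMap d La F = La 0 1 ((1 / 2 : ℝ) • d.X F) - La 1 1 ((1 / 2 : ℝ) • F) := rfl

/-- the Gelfand-Fuks part -/
noncomputable def phiMap (d : Data W) (La : ℕ → ℕ → W →+ A) : W →+ A :=
  (La 3 1).comp ((1 / 6 : ℝ) • (LinearMap.id : W →ₗ[ℝ] W)).toAddMonoidHom -
    (sMap d La).comp ((1 / 6 : ℝ) • d.L 3).toAddMonoidHom

theorem phiMap_apply (d : Data W) (La : ℕ → ℕ → W →+ A) (F : W) :
    phiMap d La F = La 3 1 ((1 / 6 : ℝ) • F) - sMap d La ((1 / 6 : ℝ) • d.L 3 F) := rfl

theorem br_add_left (d : Data W) (f g h : W) : d.br (f + g) h = d.br f h + d.br g h := by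
  simp only [Data.br, map_add, add_mul]; abel

theorem br_add_right (d : Data W) (f g h : W) : d.br f (g + h) = d.br f g + d.br f h := by
  simp only [Data.br, map_add, mul_add]; abel

theorem GF_add_left (d : Data W) (f g h : W) : d.GF (f + g) h = d.GF f h + d.GF g h := by
  simp only [Data.GF, map_add, add_mul]

theorem GF_add_right (d : Data W) (f g h : W) : d.GF f (g + h) = d.GF f g + d.GF f h := by
  simp only [Data.GF, map_add, mul_add]

/-- **LIE.** -/
theorem lie (d : Data W) (q : ℕ) (hq : 6 ≤ q) (Om : ℕ → W →+ W →+ A) (La : ℕ → ℕ → W →+ A)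
    (J1 : ∀ k l m m' : ℕ, k ≤ 1 → k ≤ l → l ≤ 3 → 1 ≤ m → 1 ≤ m' → m + m' + 1 ≤ q → ∀ h,
      (l - k) • La (k + l - 1) (m + m') h = La k m (d.L l h) - La l m' (d.L k h))
    (J2 : ∀ k l m : ℕ, k ≤ 3 → k ≠ 2 → 1 ≤ l → 1 ≤ m → l + m + 1 ≤ q → ∀ f h,
      La k m (d.br f h) = Om (l + m) (d.L k f) h + Om l f (d.L k h)) :
    (∀ F, phiMap d La (d.D F) = 0) ∧
    ∀ l, 1 ≤ l → l + 1 ≤ q → ∀ f h, Om l f h = sMap d La (d.br f h) + phiMap d La (d.GF f h) := by
  set s := sMap d La with hs
  set φ := phiMap d La with hφ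
  let La' : ℕ → ℕ → W →+ A := fun k m => La k m - s.comp (d.L k).toAddMonoidHom
  have La'_apply : ∀ k m h, La' k m h = La k m h - s (d.L k h) := fun _ _ _ => rfl
  obtain ⟨al, be, xi, xD⟩ := norm_case d q hq La' (by
      intro k l m m' hk hkl hl hm hm' hmq h
      have a := J1 k l m m' hk hkl hl hm hm' hmq h
      have b := congrArg s (d.LL k l hk hkl hl h)
      rw [map_nsmul, map_sub] at b
      simp only [La'_apply, smul_sub]
      rw [a, b]
      abel) (by
      intro h
      have e : d.L 0 (d.X h) - d.L 1 h = (2 : ℝ) • h := by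
        rw [d.L0, d.L1']; module
      have a : s (d.L 0 (d.X h)) - s (d.L 1 h) = La 0 1 (d.X h) - La 1 1 h := by
        rw [← map_sub, e, hs, sMap_apply, d.X.map_smul, smul_smul, smul_smul]
        norm_num
      simp only [La'_apply]
      linear_combination (norm := abel) -a)
  have φ6 : ∀ F, φ F = La' 3 1 ((1 / 6 : ℝ) • F) := by
    intro F
    rw [La'_apply, hφ, phiMap_apply, (d.L 3).map_smul]
  have φD : ∀ F, φ (d.D F) = 0 := by
    intro F
    rw [φ6, ← d.D.map_smul, xD]
  have φbr : ∀ F, φ (6 • F) = La' 3 1 F := by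
    intro F
    rw [φ6, ← Nat.cast_smul_eq_nsmul ℝ, smul_smul]
    norm_num
  refine ⟨φD, ?_⟩
  let T : ℕ → W →+ W →+ A := fun l => AddMonoidHom.mk'
    (fun f => AddMonoidHom.mk' (fun h => Om l f h - s (d.br f h) - φ (d.GF f h)) (by
      intro g h
      simp only [map_add, br_add_right, GF_add_right]
      abel)) (by
      intro f g
      ext h
      simp only [AddMonoidHom.mk'_apply, map_add, br_add_left, GF_add_left, AddMonoidHom.add_apply]
      abel)
  have T_apply : ∀ l f h, T l f h = Om l f h - s (d.br f h) - φ (d.GF f h) := fun _ _ _ => rfl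
  have hT : ∀ k l m : ℕ, k ≤ 3 → k ≠ 2 → 1 ≤ l → 1 ≤ m → l + m + 1 ≤ q → ∀ f h,
      T (l + m) (d.L k f) h + T l f (d.L k h) = 0 := by
    intro k l m hk hk2 hl hm hq' f h
    have a := J2 k l m hk hk2 hl hm hq' f h
    have b := congrArg s (d.L_br k hk f h)
    rw [map_add] at b
    have c : φ (d.GF (d.L k f) h) + φ (d.GF f (d.L k h)) = La' k m (d.br f h) := by
      rw [← map_add]
      interval_cases k
      · rw [d.GF0, φD, al m hm (by omega)]
      · rw [d.GF1, φD, be m hm (by omega)]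
      · exact absurd rfl hk2
      · rw [d.GF3, map_add, φD, φbr, zero_add, xi m hm (by omega)]
    rw [La'_apply] at c
    simp only [T_apply]
    linear_combination (norm := abel) b - a - c
  have hi : ∀ j, 2 ≤ j → j + 1 ≤ q → ∀ f h, T j f h = T 2 f h := by
    intro j hj hjq f h
    have key : ∀ k, k ≤ 1 → ∀ g, T j (d.L k g) h = T 2 (d.L k g) h := by
      intro k hk g
      have a := hT k 1 (j - 1) (by omega) (by omega) le_rfl (by omega) (by omega) g h
      have b := hT k 1 1 (by omega) (by omega) le_rfl le_rfl (by omega) g h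
      rw [show 1 + (j - 1) = j by omega] at a
      linear_combination (norm := abel) a - b
    rw [d.split f, map_add, map_add, AddMonoidHom.add_apply, AddMonoidHom.add_apply,
      key 0 (by omega), key 1 le_rfl]
  have lo : ∀ f h, T 1 f h = T 2 f h := by
    intro f h
    have key : ∀ k, k ≤ 1 → ∀ g, T 1 f (d.L k g) = T 2 f (d.L k g) := by
      intro k hk g
      have a := hT k 1 2 (by omega) (by omega) le_rfl (by omega) (by omega) f g
      have b := hT k 2 1 (by omega) (by omega) (by omega) le_rfl (by omega) f g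
      linear_combination (norm := abel) a - b
    rw [d.split h, map_add, map_add, key 0 (by omega), key 1 le_rfl]
  have inv : ∀ k, k ≤ 3 → k ≠ 2 → ∀ f h, T 2 (d.L k f) h + T 2 f (d.L k h) = 0 := by
    intro k hk hk2 f h
    have a := hT k 1 1 hk hk2 le_rfl le_rfl (by omega) f h
    rw [lo] at a
    exact a
  have T2 := inv_zero d (T 2) (inv 0 (by omega) (by omega)) (inv 1 (by omega) (by omega))
    (inv 3 le_rfl (by omega))
  intro l hl hlq f h
  have : T l f h = 0 := by
    rcases Nat.eq_or_lt_of_le hl with rfl | hl1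
    · rw [lo, T2]
    · rw [hi l hl1 hlq, T2]
  rw [T_apply] at this
  linear_combination (norm := abel) this

end GVLie
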