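import Pool.Agent.P.MP_7bb7e1_gt.Aff

/-! Products of many translates, and rolling up. -/

namespace Pool.Agent.P.MP_7bb7e1_gt

open scoped commutatorElement

/-- the product of the first `j` translates of `g` -/
def Wm (g : Pm) (η : ℝ) (j : ℕ) : Pm := (g * tr η) ^ j * (tr η)⁻¹ ^ j

theorem Wm_zero (g : Pm) (η : ℝ) : Wm g η 0 = 1 := by simp [Wm]

theorem Wm_succ (g : Pm) (η : ℝ) (j : ℕ) :
    Wm g η (j + 1) = Wm g η j * (tr (j * η) * g * (tr (j * η))⁻¹) := by
  rw [← tr_pow, Wm, Wm, pow_succ, pow_succ', inv_pow]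
  group

theorem many1_rec {a : ℕ → ℝ} {q B : ℝ} {N : ℕ} (hq : 1 ≤ q) (hB : 0 ≤ B) (h0 : a 0 ≤ 0)
    (h : ∀ j, j < N → a (j + 1) ≤ a j * q + B) : a N ≤ N * q ^ N * B := by
  induction N with
  | zero => simpa using h0
  | succ n ih =>
    have h1 := ih fun j hj => h j (by omega)
    have h2 := h n (by omega)
    have h3 : 1 ≤ q ^ (n + 1) := one_le_pow₀ hq
    have h4 := mul_le_mul_of_nonneg_right h1 (by linarith : 0 ≤ q)
    have h5 := mul_le_mul_of_nonneg_right h3 hB
    push_cast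
    calc a (n + 1) ≤ n * q ^ n * B * q + B := by linarith
      _ ≤ n * q ^ n * B * q + q ^ (n + 1) * B := by linarith
      _ = (n + 1) * q ^ (n + 1) * B := by ring

theorem many1_two {b : ℝ} {N : ℕ} (hb : 0 ≤ b) (h : N * b ≤ 1 / 16) : (1 + b) ^ N ≤ 2 := by
  have h1 : (1 + b) ^ N ≤ Real.exp b ^ N :=
    pow_le_pow_left₀ (by linarith) (by linarith [Real.add_one_le_exp b]) N
  rw [← Real.exp_nat_mul] at h1
  have h2 : Real.exp (N * b) ≤ Real.exp (1 / 16) := Real.exp_le_exp.2 h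
  have h3 := Real.exp_bound_div_one_sub_of_interval (x := 1 / 16) (by norm_num) (by norm_num)
  have h4 : (1 : ℝ) / (1 - 1 / 16) ≤ 2 := by norm_num
  linarith

theorem many1_dp (g : Pm) (η : ℝ) (j : ℕ) : dp (Wm g η (j + 1)) = fun x =>
    dp (Wm g η j) (x + dp (tr (j * η) * g * (tr (j * η))⁻¹) x) +
      dp (tr (j * η) * g * (tr (j * η))⁻¹) x := by
  rw [Wm_succ, dp_mul]

theorem many1_dp_zero (g : Pm) (η : ℝ) : dp (Wm g η 0) = fun _ => 0 := by
  ext x
  simp [Wm_zero, dp]

theorem many1_sm {g : Pm} (hg : Sm (dp g)) (η : ℝ) (j : ℕ) : Sm (dp (Wm g η j)) := by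
  induction j with
  | zero => rw [many1_dp_zero]; exact sm_const 0
  | succ j ih => rw [Wm_succ]; exact sm_dp_mul ih (sm_conj_tr hg _)

theorem many1_step {g : Pm} (hg : Sm (dp g)) (η : ℝ) (j r : ℕ) :
    sn r (dp (Wm g η (j + 1))) ≤
      sn r (fun x => dp (Wm g η j) (x + dp (tr (j * η) * g * (tr (j * η))⁻¹) x)) +
        sn r (dp g) := by
  rw [many1_dp, ← sn_conj_tr (j * η) g r]
  exact sn_add_le ((many1_sm hg η j).comp (sm_conj_tr hg _)) (sm_conj_tr hg _) r

theorem many1_zero {g : Pm} (hg : Sm (dp g)) (η : ℝ) (N : ℕ) :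
    sn 0 (dp (Wm g η N)) ≤ N * sn 0 (dp g) := by
  have h := many1_rec (a := fun j => sn 0 (dp (Wm g η j))) (q := 1) (B := sn 0 (dp g)) (N := N)
    le_rfl (sn_nonneg _ _) (by rw [many1_dp_zero, sn_zero_fun]) fun j _ => by
      have h1 := many1_step hg η j 0
      have h2 := sn_comp_zero (many1_sm hg η j) (dp (tr (j * η) * g * (tr (j * η))⁻¹))
      linarith
  simpa using h

theorem many1_one {g : Pm} (hg : Sm (dp g)) (η : ℝ) {N : ℕ} (h : N * sn 1 (dp g) ≤ 1 / 16) :
    sn 1 (dp (Wm g η N)) ≤ 2 * N * sn 1 (dp g) := by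
  have b1 := sn_nonneg 1 (dp g)
  have h0 := many1_rec (a := fun j => sn 1 (dp (Wm g η j))) (q := 1 + sn 1 (dp g))
    (B := sn 1 (dp g)) (N := N) (by linarith) b1 (by rw [many1_dp_zero, sn_zero_fun])
    fun j _ => by
      have h1 := many1_step hg η j 1
      have h2 := sn_comp_one (many1_sm hg η j) (sm_conj_tr hg (j * η))
      rw [sn_conj_tr] at h2
      linarith
  have h3 := many1_two b1 h
  have h4 : 0 ≤ (N : ℝ) * sn 1 (dp g) := by positivity
  calc sn 1 (dp (Wm g η N)) ≤ N * sn 1 (dp g) * (1 + sn 1 (dp g)) ^ N := by linarith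
    _ ≤ N * sn 1 (dp g) * 2 := mul_le_mul_of_nonneg_left h3 h4
    _ = 2 * N * sn 1 (dp g) := by ring

theorem many1_md_mono {s r : ℕ} (h : s ≤ r) (f : ℝ → ℝ) : md s f ≤ md r f :=
  Finset.sum_le_sum_of_subset_of_nonneg (Finset.Ico_subset_Ico_right h)
    fun _ _ _ => sn_nonneg _ _

theorem many1_md_conj (c : ℝ) (g : Pm) (r : ℕ) :
    md r (dp (tr c * g * (tr c)⁻¹)) = md r (dp g) := by
  simp only [md, sn_conj_tr]

theorem many1_all (r : ℕ) : ∃ K : ℝ, 0 ≤ K ∧ ∀ (g : Pm) (η δ : ℝ) (N : ℕ), Sm (dp g) →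
    N * nm 2 (dp g) ≤ δ → δ ≤ 1 / 16 → ∀ s, 2 ≤ s → s < r → sn s (dp (Wm g η N)) ≤
      2 * 2 ^ s * N * sn s (dp g) + K * δ * N * md s (dp g) := by
  induction r with
  | zero => exact ⟨0, le_rfl, fun _ _ _ _ _ _ _ s _ hs => absurd hs (by omega)⟩
  | succ r ih =>
    obtain ⟨K, hK, ih⟩ := ih
    obtain ⟨C, hC, ht⟩ := t3
    have hCr := hC r
    set L : ℝ := C r * (r * (2 * 2 ^ r + K) + 8) with hL
    have hL0 : 0 ≤ L := by positivity
    refine ⟨K + 2 ^ r * L, by positivity, fun g η δ N hg hN hδ s h2 hs => ?_⟩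
    have hn := nm_nonneg 2 (dp g)
    have hδ0 : 0 ≤ δ := le_trans (by positivity) hN
    have hm := md_nonneg s (dp g)
    rcases lt_or_eq_of_le (Nat.lt_succ_iff.1 hs) with hlt | rfl
    · have h1 := ih g η δ N hg hN hδ s h2 hlt
      have h3 : 0 ≤ 2 ^ r * L * δ * N * md s (dp g) := by positivity
      linarith
    rcases Nat.eq_zero_or_pos N with rfl | hN0
    · simp [many1_dp_zero, sn_zero_fun]
    have hN1 : (1 : ℝ) ≤ N := by exact_mod_cast hN0
    have b1 := sn_nonneg 1 (dp g)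
    have b2 := sn_nonneg 2 (dp g)
    have bs := sn_nonneg s (dp g)
    have n1 : N * sn 1 (dp g) ≤ δ :=
      (mul_le_mul_of_nonneg_left (sn_le_nm (by omega) _) (by positivity)).trans hN
    have n2 : N * sn 2 (dp g) ≤ δ :=
      (mul_le_mul_of_nonneg_left (sn_le_nm (by omega) _) (by positivity)).trans hN
    have g1 : sn 1 (dp g) ≤ 1 := by nlinarith
    have g2 : sn 2 (dp g) ≤ 1 := by nlinarith
    have hq : 1 ≤ (1 + sn 1 (dp g)) ^ s := one_le_pow₀ (by linarith)
    have h0 := many1_rec (a := fun j => sn s (dp (Wm g η j))) (q := (1 + sn 1 (dp g)) ^ s)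
      (B := 2 * sn s (dp g) + L * δ * md s (dp g)) (N := N) hq (by positivity)
      (by rw [many1_dp_zero, sn_zero_fun]) fun j hj => by
        have hjN : (j : ℝ) ≤ N := by exact_mod_cast hj.le
        have hj0 : (0 : ℝ) ≤ j := by positivity
        have hjδ : j * nm 2 (dp g) ≤ δ := (mul_le_mul_of_nonneg_right hjN hn).trans hN
        have j1 : j * sn 1 (dp g) ≤ δ := (mul_le_mul_of_nonneg_right hjN b1).trans n1
        have j2 : j * sn 2 (dp g) ≤ δ := (mul_le_mul_of_nonneg_right hjN b2).trans n2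
        have h1 := many1_step hg η j s
        have h3 := ht s h2 _ _ (many1_sm hg η j) (sm_conj_tr hg (j * η))
          (by rwa [sn_conj_tr]) (by rwa [sn_conj_tr])
        simp only [sn_conj_tr, many1_md_conj] at h3
        have a1 : sn 1 (dp (Wm g η j)) ≤ 1 := by
          have := many1_one hg η (j1.trans hδ)
          linarith
        have a2 : sn 2 (dp (Wm g η j)) * md s (dp g) ≤ 8 * δ * md s (dp g) := by
          rcases eq_or_lt_of_le h2 with rfl | h4
          · simp [md_two]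
          · have h5 := ih g η δ j hg hjδ hδ 2 le_rfl h4
            rw [md_two] at h5
            exact mul_le_mul_of_nonneg_right (by linarith) hm
        have a3 : md s (dp (Wm g η j)) ≤ s * ((2 * 2 ^ s + K) * j * md s (dp g)) := by
          refine md_le_of_sn_le (by positivity) fun t t2 ts => ?_
          have h5 := ih g η δ j hg hjδ hδ t t2 ts
          have h6 := sn_le_md t2 ts (dp g)
          have h7 := many1_md_mono ts.le (dp g)
          have h8 : (2 : ℝ) ^ t ≤ 2 ^ s := pow_le_pow_right₀ (by norm_num) ts.le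
          have h9 := md_nonneg t (dp g)
          have h10 := sn_nonneg t (dp g)
          have h11 : 2 * 2 ^ t * j * sn t (dp g) ≤ 2 * 2 ^ s * j * md s (dp g) := by gcongr
          have h12 : K * δ * j * md t (dp g) ≤ K * 1 * j * md s (dp g) := by
            gcongr
            linarith
          linarith
        have a4 : md s (dp (Wm g η j)) * sn 2 (dp g) ≤
            s * (2 * 2 ^ s + K) * δ * md s (dp g) := by
          calc md s (dp (Wm g η j)) * sn 2 (dp g)
              ≤ s * ((2 * 2 ^ s + K) * j * md s (dp g)) * sn 2 (dp g) :=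
                mul_le_mul_of_nonneg_right a3 b2
            _ = s * (2 * 2 ^ s + K) * (j * sn 2 (dp g)) * md s (dp g) := by ring
            _ ≤ s * (2 * 2 ^ s + K) * δ * md s (dp g) := by gcongr
        have a5 := mul_le_mul_of_nonneg_left (add_le_add a4 a2) hCr
        have a6 := mul_le_mul_of_nonneg_right a1 bs
        have a7 : C s * (s * (2 * 2 ^ s + K) * δ * md s (dp g) + 8 * δ * md s (dp g)) =
            L * δ * md s (dp g) := by rw [hL]; ring
        show sn s (dp (Wm g η (j + 1))) ≤ sn s (dp (Wm g η j)) * _ + _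
        linarith
    have h4 : ((1 + sn 1 (dp g)) ^ s) ^ N ≤ 2 ^ s := by
      rw [← pow_mul, mul_comm, pow_mul]
      exact pow_le_pow_left₀ (by positivity) (many1_two b1 (n1.trans hδ)) s
    have h5 : 0 ≤ K * δ * N * md s (dp g) := by positivity
    calc sn s (dp (Wm g η N))
        ≤ N * ((1 + sn 1 (dp g)) ^ s) ^ N * (2 * sn s (dp g) + L * δ * md s (dp g)) := h0
      _ ≤ N * 2 ^ s * (2 * sn s (dp g) + L * δ * md s (dp g)) := by gcongr
      _ = 2 * 2 ^ s * N * sn s (dp g) + 2 ^ s * L * δ * N * md s (dp g) := by ring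
      _ ≤ _ := by linarith

/-- `dp_mul`, `t3`, `sn_conj_tr`; the recursion `a (j+1) ≤ (1 + b₁)^r a j + B` gives
`a N ≤ 2^r N B` since `(1 + b₁)^N ≤ exp δ ≤ 2`; strong induction on `r`. -/
theorem many : ∃ C : ℕ → ℝ, (∀ r, 0 ≤ C r) ∧ ∀ (g : Pm) (η δ : ℝ) (N : ℕ), Sm (dp g) →
    N * nm 2 (dp g) ≤ δ → δ ≤ 1 / 16 →
      Sm (dp (Wm g η N)) ∧ sn 0 (dp (Wm g η N)) ≤ N * sn 0 (dp g) ∧
      sn 1 (dp (Wm g η N)) ≤ 2 * N * sn 1 (dp g) ∧
      ∀ r, 2 ≤ r → sn r (dp (Wm g η N)) ≤
        2 * 2 ^ r * N * sn r (dp g) + C r * δ * N * md r (dp g) := by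
  choose K hK h using many1_all
  refine ⟨fun r => K (r + 1), fun r => hK _, fun g η δ N hg hN hδ => ⟨many1_sm hg η N,
    many1_zero hg η N, many1_one hg η ?_, fun r hr => h _ g η δ N hg hN hδ r hr (by omega)⟩⟩
  exact ((mul_le_mul_of_nonneg_left (sn_le_nm (by omega) _) (by positivity)).trans hN).trans hδ

/-- periodic extension from the interval `[b, b + η)` -/
noncomputable def per (b η : ℝ) (w : ℝ → ℝ) : ℝ → ℝ :=
  fun x => w (b + η * Int.fract ((x - b) / η))

theorem per_add {η : ℝ} (hη : 0 < η) (b : ℝ) (w : ℝ → ℝ) (x : ℝ) :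
    per b η w (x + η) = per b η w x := by
  have e : (x + η - b) / η = (x - b) / η + 1 := by field_simp; ring
  simp only [per, e, Int.fract_add_one]

theorem many2_per_eq {η b : ℝ} (hη : 0 < η) {w : ℝ → ℝ}
    (hp : ∀ x, b - η ≤ x → x ≤ b + 2 * η → w (x + η) = w x) (x : ℝ) (h1 : b - η ≤ x)
    (h2 : x ≤ b + 3 * η) : per b η w x = w x := by
  have base : ∀ y, b ≤ y → y < b + η → per b η w y = w y := by
    intro y h3 h4
    have e : Int.fract ((y - b) / η) = (y - b) / η :=
      Int.fract_eq_self.2 ⟨div_nonneg (by linarith) hη.le, (div_lt_one hη).2 (by linarith)⟩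
    simp only [per, e]
    congr 1
    field_simp
    ring
  have step : ∀ c, c ≤ b + 2 * η → (∀ y, b ≤ y → y ≤ c → per b η w y = w y) →
      ∀ y, b ≤ y → y ≤ c + η → per b η w y = w y := by
    intro c hc ih y h3 h4
    rcases lt_or_ge y (b + η) with h5 | h5
    · exact base y h3 h5
    · have h6 := per_add hη b w (y - η)
      have h7 := hp (y - η) (by linarith) (by linarith)
      rw [sub_add_cancel] at h6 h7
      rw [h6, h7]
      exact ih _ (by linarith) (by linarith)
  have s0 : ∀ y, b ≤ y → y ≤ b → per b η w y = w y := fun y h3 h4 => base y h3 (by linarith)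
  have s3 := step _ (by linarith) (step _ (by linarith) (step _ (by linarith) s0))
  rcases le_or_gt b x with h | h
  · exact s3 x h (by linarith)
  · rw [← per_add hη, ← hp x h1 (by linarith)]
    exact base _ (by linarith) (by linarith)

/-- `sm_of_local` -/
theorem per_spec {η b : ℝ} (hη : 0 < η) {w : ℝ → ℝ} (hw : Sm w)
    (hp : ∀ x, b - η ≤ x → x ≤ b + 2 * η → w (x + η) = w x) :
    Sm (per b η w) ∧ (∀ r, sn r (per b η w) ≤ sn r w) ∧
      ∀ x, b - η ≤ x → x ≤ b + 3 * η → per b η w x = w x := by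
  have hP : Function.Periodic (per b η w) η := per_add hη b w
  have h := sm_of_local (f := per b η w) (B := fun r => sn r w) fun x => by
    set n : ℤ := ⌊(x - b) / η⌋ with hn
    have h1 : (n : ℝ) * η ≤ x - b := (le_div_iff₀ hη).1 (Int.floor_le _)
    have h2 : x - b < (n + 1) * η := (div_lt_iff₀ hη).1 (Int.lt_floor_add_one _)
    refine ⟨fun z => w (z + -(n * η)), hw.comp_add _, fun r => (sn_comp_add _ _ r).le, ?_⟩
    filter_upwards [Ioo_mem_nhds (show x - η < x by linarith) (show x < x + η by linarith)]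
      with z hz
    rw [← hP.sub_int_mul_eq n, sub_eq_add_neg]
    exact many2_per_eq hη hp _ (by linarith [hz.1]) (by linarith [hz.2])
  exact ⟨h.1, h.2, many2_per_eq hη hp⟩

theorem many2_step {g : Pm} {a l η : ℝ} (hf : Fix a (a + l) g) (j : ℕ) {y : ℝ}
    (hy : y ≤ a + j * η) : Wm g η (j + 1) y = Wm g η j y := by
  rw [Wm_succ]
  simp only [Equiv.Perm.mul_apply, tr_inv_apply, tr_apply]
  rw [hf _ (Or.inl (by linarith)), sub_add_cancel]

theorem many2_rec {g : Pm} {a l η : ℝ} (hf : Fix a (a + l) g) (j : ℕ) {x : ℝ}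
    (hx : x + η ≤ a + j * η) : Wm g η j (x + η) = g (Wm g η j x + η) := by
  have e : Wm g η (j + 1) = g * tr η * Wm g η j * (tr η)⁻¹ := by
    rw [Wm, Wm, pow_succ', pow_succ]
    simp only [mul_assoc]
  rw [← many2_step hf j hx, e]
  simp only [Equiv.Perm.mul_apply, tr_inv_apply, tr_apply, add_sub_cancel_right]

theorem many2_left {g : Pm} {a l η : ℝ} (hη : 0 < η) (hf : Fix a (a + l) g) (j : ℕ) {x : ℝ}
    (hx : x ≤ a) : Wm g η j x = x := by
  induction j with
  | zero => simp [Wm_zero]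
  | succ j ih => rw [many2_step hf j (hx.trans (le_add_of_nonneg_right (by positivity))), ih]

/-- With `W = Wm g η M` one has `W (x + η) = g (W x + η)` for `x + η ≤ a + M η`. The map `k` has
displacement `dp W` left of `b = a + l + δ` and `per b η (dp W)` right of `b`. -/
theorem roll {g : Pm} {a l η δ : ℝ} {M : ℕ} (hη : 0 < η) (hl : 0 ≤ l) (hf : Fix a (a + l) g)
    (hM : l + δ + 3 * η ≤ M * η) (hs : Sm (dp (Wm g η M))) (h0 : sn 0 (dp (Wm g η M)) ≤ δ)
    (h1 : sn 1 (dp (Wm g η M)) ≤ 1 / 2) :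
    ∃ k Ω : Pm, Sm (dp k) ∧ Sm (dp Ω) ∧ (∀ r, sn r (dp k) ≤ sn r (dp (Wm g η M))) ∧
      (∀ r, sn r (dp Ω) ≤ sn r (dp (Wm g η M))) ∧ g = ⁅k, tr η⁆ ∧ Ω * tr η = tr η * Ω ∧
      (∀ x, x ≤ a → k x = x) ∧ (∀ x, a + l + δ ≤ x → k x = Ω x) ∧
      dp Ω = per (a + l + δ) η (dp (Wm g η M)) := by
  have hδ : 0 ≤ δ := (sn_nonneg _ _).trans h0
  set b := a + l + δ with hb
  set w := dp (Wm g η M) with hw
  have hW : ∀ x, Wm g η M x = x + w x := apply_eq_add_dp _
  have hp : ∀ x, b - η ≤ x → x ≤ b + 2 * η → w (x + η) = w x := by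
    intro x h2 h3
    have h4 := many2_rec hf M (x := x) (η := η) (by linarith)
    have h5 := (abs_le.1 ((abs_le_sn_zero hs x).trans h0)).1
    rw [hW, hW, hf _ (Or.inr (by linarith))] at h4
    linarith
  obtain ⟨p1, p2, p3⟩ := per_spec hη hs hp
  set κ : ℝ → ℝ := fun x => if x ≤ b then w x else per b η w x with hκ
  have k1 : ∀ x, x ≤ b + 3 * η → κ x = w x := by
    intro x hx
    simp only [hκ]
    split_ifs with h
    · rfl
    · exact p3 x (by linarith [not_le.1 h]) hx
  have k2 : ∀ x, b - η ≤ x → κ x = per b η w x := by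
    intro x hx
    simp only [hκ]
    split_ifs with h
    · exact (p3 x hx (by linarith)).symm
    · rfl
  obtain ⟨q1, q2⟩ := sm_of_local (f := κ) (B := fun r => sn r w) fun x => by
    rcases le_or_gt x b with h | h
    · refine ⟨w, hs, fun _ => le_rfl, ?_⟩
      filter_upwards [Iio_mem_nhds (show x < b + 3 * η by linarith)] with z hz
      exact k1 z (le_of_lt hz)
    · refine ⟨per b η w, p1, p2, ?_⟩
      filter_upwards [Ioi_mem_nhds (show b - η < x by linarith)] with z hz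
      exact k2 z (le_of_lt hz)
  have dk := dp_mkp q1 ((q2 1).trans h1)
  have dΩ := dp_mkp p1 ((p2 1).trans h1)
  have ek : ∀ x, mkp κ x = x + κ x := fun x => by rw [apply_eq_add_dp, dk]
  refine ⟨mkp κ, mkp (per b η w), dk.symm ▸ q1, dΩ.symm ▸ p1, dk.symm ▸ q2, dΩ.symm ▸ p2, ?_,
    (commute_tr_iff _ _).2 (dΩ.symm ▸ per_add hη b w), fun x hx => ?_, fun x hx => ?_, dΩ⟩
  · have key : g * tr η * mkp κ = mkp κ * tr η := by
      ext x
      simp only [Equiv.Perm.mul_apply, tr_apply, ek]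
      rcases le_or_gt x b with h | h
      · rw [k1 x (by linarith), k1 _ (by linarith), ← hW, ← hW, many2_rec hf M (by linarith)]
      · have h5 := (abs_le.1 ((abs_le_sn_zero p1 x).trans ((p2 0).trans h0))).1
        rw [k2 x (by linarith), k2 _ (by linarith), per_add hη, hf _ (Or.inr (by linarith))]
        ring
    rw [commutatorElement_def, ← key]
    group
  · rw [ek, k1 x (by linarith), ← hW, many2_left hη hf M hx]
  · rw [ek, apply_eq_add_dp, dΩ, k2 x (by linarith)]

end Pool.Agent.P.MP_7bb7e1_gt
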