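import Pool.Agent.P.MP_7bb7e1_gt.MicroT

/-! The fixed point theorem of Mather type, at period one and at period `η`. -/

namespace Pool.Agent.P.MP_7bb7e1_gt

open scoped commutatorElement

/-- conclusion of the fixed point theorem at period `η` -/
def MicroAt (D : ℕ) (C : ℕ → ℝ) (η : ℝ) (Ω₀ : Pm) : Prop :=
  ∃ (κ k Ω₁ Ωb : Pm) (c : ℝ), Sm (dp κ) ∧ Sm (dp k) ∧ Sm (dp Ω₁) ∧ Sm (dp Ωb) ∧
    (∀ x, x ≤ 0 → κ x = x) ∧ (∀ x, η ≤ x → κ x = Ω₁ x) ∧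
    (∀ x, x ≤ 0 → k x = x) ∧ (∀ x, (2 * D + 1) * η ≤ x → k x = Ωb x) ∧
    Ω₁ * tr η = tr η * Ω₁ ∧ Ωb * tr η = tr η * Ωb ∧
    aff D 0 * ⁅κ, tr η⁆ * (aff D 0)⁻¹ = ⁅k, tr η⁆ ∧ Ω₁ = (tr c)⁻¹ * Ωb * Ω₀ ∧
    |c| ≤ C 0 * sn 3 (dp Ω₀) ∧ ∀ r, sn r (dp κ) ≤ C r * sn (max r 3) (dp Ω₀) ∧
      sn r (dp k) ≤ C r * sn (max r 3) (dp Ω₀) ∧ sn r (dp Ω₁) ≤ C r * sn (max r 3) (dp Ω₀) ∧
      sn r (dp Ωb) ≤ C r * sn (max r 3) (dp Ω₀)

/-- `microB`, `TP_mapsTo`, `TP_lip`, `fixed_PK`, `omb_spec`; `Ω₁ = mkp p` for the fixed point `p`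
and `c = omb D p 0`. -/
theorem micro_one : ∃ (D : ℕ) (e₀ : ℝ) (C : ℕ → ℝ), 2 ≤ D ∧ 0 < e₀ ∧ (∀ r, 0 ≤ C r) ∧
    ∀ Ω₀ : Pm, Pn (dp Ω₀) → sn 3 (dp Ω₀) ≤ e₀ → MicroAt D C 1 Ω₀ := by
  obtain ⟨D, e₂, C, hD, he, hC, h⟩ := microB
  obtain ⟨K, e₀, hK, he0, hKe, hT⟩ := TP_mapsTo he hC h
  obtain ⟨L, hL⟩ := TP_lip hD h
  refine ⟨D, e₀, fun r => (1 + C r + C 3) * K (max r 3), hD, he0,
    fun r => mul_nonneg (by linarith [hC r, hC 3]) (hK _), fun Ω₀ hω h3 => ?_⟩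
  have small : ∀ p ∈ PK (fun r => K r * sn r (dp Ω₀)), sn 3 p ≤ e₂ := fun p hp =>
    (hp.2 3 le_rfl).trans ((mul_le_mul_of_nonneg_left h3 (hK 3)).trans hKe)
  obtain ⟨p, hp, hfix⟩ := fixed_PK (fun r => mul_nonneg (hK r) (sn_nonneg r _)) (hT _ hω h3)
    (L := L) (fun p hp p' hp' d hd => hL _ p p' hp.1 (small p hp) hp'.1 (small p' hp') d hd)
  obtain ⟨a1, a2, -, a4, a5, -, -, -, -, -, -, a12, -, a14⟩ := h p hp.1 (small p hp)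
  obtain ⟨k, Ωb, b1, b2, b3, b4, b5, b6, b7, b8, b9⟩ := omb_spec h hp.1 (small p hp)
  have d1 : dp (mkp p) = p := dp_mkp hp.1.1 a4
  have top : ∀ r, sn (max r 3) p ≤ K (max r 3) * sn (max r 3) (dp Ω₀) :=
    fun r => hp.2 _ (le_max_right _ _)
  have low : ∀ r, sn r p ≤ sn (max r 3) p :=
    fun r => poincare_one_zero hp.1.1 hp.1.2.1 hp.1.2.2 (le_max_left _ _)
  have fin : ∀ r (x : ℝ), x ≤ (1 + C r + C 3) * sn (max r 3) p →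
      x ≤ (1 + C r + C 3) * K (max r 3) * sn (max r 3) (dp Ω₀) := fun r x hx => by
    rw [mul_assoc]
    exact hx.trans (mul_le_mul_of_nonneg_left (top r) (by linarith [hC r, hC 3]))
  have hW : ∀ r, sn r (dp (WP D p)) ≤ (1 + C r + C 3) * sn (max r 3) p := by
    intro r
    have n1 := sn_nonneg (max r 3) p
    rcases le_or_gt r 3 with hr | hr
    · have := a12 r hr
      rw [max_eq_right hr] at n1 ⊢
      nlinarith [hC r]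
    · have c1 := a14 r hr
      rw [max_eq_left hr.le] at n1 ⊢
      have c2 : sn (r - 1) p ≤ sn r p :=
        poincare_one_zero hp.1.1 hp.1.2.1 hp.1.2.2 (Nat.sub_le _ _)
      have c3 : sn r p / (2 * 2 ^ r) ≤ sn r p := by
        refine div_le_self n1 ?_
        have : (1 : ℝ) ≤ 2 ^ r := one_le_pow₀ (by norm_num)
        linarith
      have c4 := mul_le_mul_of_nonneg_left c2 (hC r)
      nlinarith [hC 3]
  refine ⟨kap p, k, mkp p, Ωb, omb D p 0, a2, b1, d1.symm ▸ hp.1.1, b2.symm ▸ b3,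
    fun x hx => ?_, fun x hx => ?_, b8, fun x hx => b9 x (by simpa using hx),
    (commute_tr_iff _ _).2 (d1.symm ▸ hp.1.2.1), (commute_tr_iff _ _).2 (b2.symm ▸ b4), b7,
    ?_, ?_, fun r => ⟨fin r _ ?_, fin r _ ((b5 r).trans (hW r)), fin r _ ?_,
      fin r _ (b2.symm ▸ (b6 r).trans (hW r))⟩⟩
  · rw [apply_eq_add_dp, a1]
    simp [chi_zero hx]
  · rw [apply_eq_add_dp, apply_eq_add_dp (mkp p), a1, d1]
    simp [chi_one hx]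
  · ext x
    have e := congrFun hfix x
    simp only [TP] at e
    rw [Equiv.Perm.mul_apply, Equiv.Perm.mul_apply, tr_inv_apply, apply_eq_add_dp (mkp p), d1,
      apply_eq_add_dp Ωb, b2, apply_eq_add_dp Ω₀]
    linarith
  · exact fin 0 _ ((abs_le_sn_zero b3 0).trans ((b6 0).trans (hW 0)))
  · have n1 := sn_nonneg (max r 3) p
    have := a5 r
    nlinarith [hC 3]
  · have n1 := sn_nonneg (max r 3) p
    have := low r
    rw [d1]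
    nlinarith [hC 3, hC r]

/-- conjugate by `aff η 0`; `sn_conj_aff`, `aff_conj_tr` -/
theorem micro : ∃ (D : ℕ) (e₀ : ℝ) (C : ℕ → ℝ), 2 ≤ D ∧ 0 < e₀ ∧ (∀ r, 0 ≤ C r) ∧
    ∀ (η : ℝ) (Ω₀ : Pm), 0 < η → η ≤ 1 → Sm (dp Ω₀) → Ω₀ * tr η = tr η * Ω₀ → Ω₀ 0 = 0 →
      sn 3 (dp Ω₀) ≤ e₀ → MicroAt D C η Ω₀ := by
  obtain ⟨D, e₀, C, hD, he, hC, h⟩ := micro_one
  refine ⟨D, e₀, C, hD, he, hC, fun η Ω₀ h0 h1 hs hc hz h3 => ?_⟩
  have n0 : η ≠ 0 := h0.ne'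
  have hD0 : (D : ℝ) ≠ 0 := by
    have : 0 < D := by omega
    positivity
  obtain ⟨A, hA⟩ : ∃ A, A = aff η 0 := ⟨_, rfl⟩
  have t1 : A * tr 1 * A⁻¹ = tr η := by rw [hA, aff_conj_tr n0, mul_one]
  have cD : aff D 0 * A = A * aff D 0 := by
    rw [hA, aff_mul hD0 n0, aff_mul n0 hD0, mul_comm]
    simp
  have app : ∀ (e : Pm) (x : ℝ), (A * e * A⁻¹) x = η * e (x / η) := fun e x => by
    rw [hA, Equiv.Perm.mul_apply, Equiv.Perm.mul_apply, aff_inv_apply n0, aff_apply n0]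
    simp
  have sms : ∀ e : Pm, Sm (dp e) → Sm (dp (A * e * A⁻¹)) := fun e he => hA ▸ sm_conj_aff he η 0
  have sns : ∀ e : Pm, Sm (dp e) → ∀ r, sn r (dp (A * e * A⁻¹)) = η / η ^ r * sn r (dp e) :=
    fun e he r => hA ▸ sn_conj_aff he h0 0 r
  obtain ⟨Ω, hΩ⟩ : ∃ Ω, Ω = A⁻¹ * Ω₀ * A := ⟨_, rfl⟩
  have e0 : Ω₀ = A * Ω * A⁻¹ := by rw [hΩ]; group
  have s0 : Sm (dp Ω) := by
    have := sm_conj_aff hs η⁻¹ (-0 / η)
    rw [← aff_inv n0, inv_inv, ← hA, ← hΩ] at this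
    exact this
  have q : ∀ r, sn r (dp Ω) = η ^ r / η * sn r (dp Ω₀) := fun r => by
    rw [e0, sns Ω s0]
    field_simp
  have pw : ∀ r : ℕ, η ^ r ≤ 1 := fun r => pow_le_one₀ h0.le h1
  have q3 : sn 3 (dp Ω) ≤ sn 3 (dp Ω₀) := by
    rw [q 3, show η ^ 3 / η = η ^ 2 by field_simp]
    exact mul_le_of_le_one_left (sn_nonneg _ _) (pw 2)
  have pn : Pn (dp Ω) := by
    refine ⟨s0, (commute_tr_iff _ _).1 ?_, ?_⟩
    · rw [← t1] at hc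
      rw [hΩ]
      calc A⁻¹ * Ω₀ * A * tr 1 = A⁻¹ * (Ω₀ * (A * tr 1 * A⁻¹)) * A := by group
        _ = A⁻¹ * (A * tr 1 * A⁻¹ * Ω₀) * A := by rw [hc]
        _ = tr 1 * (A⁻¹ * Ω₀ * A) := by group
    · have := app Ω 0
      rw [← e0, hz, zero_div] at this
      have z : Ω 0 = 0 := (mul_eq_zero.1 this.symm).resolve_left n0
      simp [dp, z]
  obtain ⟨κ, k, Ω₁, Ωb, c, a1, a2, a3, a4, a5, a6, a7, a8, a9, a10, a11, a12, a13, a14⟩ :=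
    h Ω pn (q3.trans h3)
  have cm : ∀ e : Pm, e * tr 1 = tr 1 * e → A * e * A⁻¹ * tr η = tr η * (A * e * A⁻¹) :=
    fun e he => by
      rw [← t1]
      calc A * e * A⁻¹ * (A * tr 1 * A⁻¹) = A * (e * tr 1) * A⁻¹ := by group
        _ = A * (tr 1 * e) * A⁻¹ := by rw [he]
        _ = A * tr 1 * A⁻¹ * (A * e * A⁻¹) := by group
  have cc : ∀ e : Pm, ⁅A * e * A⁻¹, tr η⁆ = A * ⁅e, tr 1⁆ * A⁻¹ := fun e => by
    rw [← t1]
    simp only [commutatorElement_def]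
    group
  have bd : ∀ (e : Pm) (r : ℕ), Sm (dp e) → sn r (dp e) ≤ C r * sn (max r 3) (dp Ω) →
      sn r (dp (A * e * A⁻¹)) ≤ C r * sn (max r 3) (dp Ω₀) := fun e r he hb => by
    rw [sns e he]
    refine (mul_le_mul_of_nonneg_left hb (by positivity)).trans ?_
    obtain ⟨j, hj⟩ : ∃ j, max r 3 = r + j := ⟨max r 3 - r, by omega⟩
    rw [q, show η / η ^ r * (C r * (η ^ max r 3 / η * sn (max r 3) (dp Ω₀))) =
      η ^ j * (C r * sn (max r 3) (dp Ω₀)) by rw [hj, pow_add]; field_simp]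
    exact mul_le_of_le_one_left (mul_nonneg (hC r) (sn_nonneg _ _)) (pw j)
  refine ⟨A * κ * A⁻¹, A * k * A⁻¹, A * Ω₁ * A⁻¹, A * Ωb * A⁻¹, η * c, sms _ a1, sms _ a2,
    sms _ a3, sms _ a4, fun x hx => ?_, fun x hx => ?_, fun x hx => ?_, fun x hx => ?_,
    cm _ a9, cm _ a10, ?_, ?_, ?_, fun r => ⟨bd _ r a1 (a14 r).1, bd _ r a2 (a14 r).2.1,
      bd _ r a3 (a14 r).2.2.1, bd _ r a4 (a14 r).2.2.2⟩⟩
  · rw [app, a5 _ (div_nonpos_of_nonpos_of_nonneg hx h0.le)]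
    field_simp
  · rw [app, app, a6 _ ((one_le_div h0).2 hx)]
  · rw [app, a7 _ (div_nonpos_of_nonpos_of_nonneg hx h0.le)]
    field_simp
  · rw [app, app, a8 _ (by rw [mul_one]; exact (le_div_iff₀ h0).2 hx)]
  · rw [cc, cc, ← a11]
    calc aff D 0 * (A * ⁅κ, tr 1⁆ * A⁻¹) * (aff D 0)⁻¹
        = (aff D 0 * A) * ⁅κ, tr 1⁆ * (aff D 0 * A)⁻¹ := by group
      _ = (A * aff D 0) * ⁅κ, tr 1⁆ * (A * aff D 0)⁻¹ := by rw [cD]
      _ = A * (aff D 0 * ⁅κ, tr 1⁆ * (aff D 0)⁻¹) * A⁻¹ := by group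
  · have t2 : A * tr c * A⁻¹ = tr (η * c) := by rw [hA, aff_conj_tr n0]
    rw [a12, ← t2, e0]
    group
  · rw [abs_mul, abs_of_pos h0]
    refine (mul_le_of_le_one_left (abs_nonneg c) h1).trans (a13.trans ?_)
    exact mul_le_mul_of_nonneg_left q3 (hC 0)

end Pool.Agent.P.MP_7bb7e1_gt
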