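import Pool.Agent.P.MP_7bb7e1_gt.Schauder
import Pool.Agent.P.MP_7bb7e1_gt.LK
import Pool.Agent.P.MP_7bb7e1_gt.Norm2

/-! A fixed point theorem for normalised periodic functions with bounded derivatives. -/

namespace Pool.Agent.P.MP_7bb7e1_gt

open Set

/-- smooth, periodic, vanishing at the origin -/
def Pn (p : ℝ → ℝ) : Prop := Sm p ∧ (∀ x, p (x + 1) = p x) ∧ p 0 = 0

def PK (M : ℕ → ℝ) : Set (ℝ → ℝ) := {p | Pn p ∧ ∀ r, 3 ≤ r → sn r p ≤ M r}

theorem pk_step {q : ℕ → ℝ → ℝ} {g : ℝ → ℝ} {C : ℝ} (hq : ∀ n, Sm (q n))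
    (hC : ∀ n, sn 2 (q n) ≤ C) (hl : TendstoUniformly q g Filter.atTop) :
    Differentiable ℝ g ∧ TendstoUniformly (fun n => deriv (q n)) (deriv g) Filter.atTop := by
  have hC0 : 0 ≤ C := (sn_nonneg 2 (q 0)).trans (hC 0)
  have hcau : UniformCauchySeqOn (fun n => deriv (q n)) Filter.atTop univ := by
    rw [Metric.uniformCauchySeqOn_iff]
    intro ε hε
    have hδ : 0 < ε ^ 2 / (64 * (C + 1)) := by positivity
    obtain ⟨N, hN⟩ := Filter.eventually_atTop.1 (Metric.tendstoUniformly_iff.1 hl _ hδ)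
    refine ⟨N, fun m hm n hn x _ => ?_⟩
    have hs : Sm fun y => q m y - q n y := (hq m).sub (hq n)
    have h0 : sn 0 (fun y => q m y - q n y) ≤ 2 * (ε ^ 2 / (64 * (C + 1))) := by
      refine sn_le fun y => ?_
      have h1 := hN m hm y
      have h2 := hN n hn y
      rw [Real.dist_eq] at h1 h2
      rw [iteratedDeriv_zero]
      have h3 : q m y - q n y = (g y - q n y) - (g y - q m y) := by ring
      rw [h3]
      have := abs_sub (g y - q n y) (g y - q m y)
      linarith
    have h2 : sn 2 (fun y => q m y - q n y) ≤ 2 * C := by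
      have := sn_sub_le (hq m) (hq n) 2
      linarith [hC m, hC n]
    have h1 := landau hs 0
    have h3 : sn 0 (fun y => q m y - q n y) * sn 2 (fun y => q m y - q n y) ≤
        2 * (ε ^ 2 / (64 * (C + 1))) * (2 * C) :=
      mul_le_mul h0 h2 (sn_nonneg _ _) (by positivity)
    have h4 : 8 * (2 * (ε ^ 2 / (64 * (C + 1))) * (2 * C)) < ε ^ 2 := by
      have : 8 * (2 * (ε ^ 2 / (64 * (C + 1))) * (2 * C)) = ε ^ 2 * (C / (2 * (C + 1))) := by
        field_simp; ring
      rw [this]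
      refine mul_lt_of_lt_one_right (by positivity) ?_
      rw [div_lt_one (by positivity)]
      linarith
    have h5 : sn 1 (fun y => q m y - q n y) < ε := by
      refine lt_of_pow_lt_pow_left₀ 2 hε.le ?_
      simp only [zero_add] at h1
      linarith
    have h6 := abs_deriv_le_sn_one hs x
    have h7 : deriv (fun y => q m y - q n y) x = deriv (q m) x - deriv (q n) x :=
      deriv_fun_sub ((hq m).differentiable x) ((hq n).differentiable x)
    rw [h7] at h6
    rw [Real.dist_eq]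
    exact lt_of_le_of_lt h6 h5
  have hex : ∀ x, ∃ y, Filter.Tendsto (fun n => deriv (q n) x) Filter.atTop (nhds y) :=
    fun x => cauchySeq_tendsto_of_complete (hcau.cauchySeq (mem_univ x))
  choose g' hg' using hex
  have hu : TendstoUniformly (fun n => deriv (q n)) g' Filter.atTop :=
    tendstoUniformlyOn_univ.1 (hcau.tendstoUniformlyOn_of_tendsto fun x _ => hg' x)
  have hd : ∀ x, HasDerivAt g (g' x) x :=
    hasDerivAt_of_tendstoUniformly hu
      (Filter.Eventually.of_forall fun n x => ((hq n).differentiable x).hasDerivAt)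
      (fun x => hl.tendsto_at x)
  have he : deriv g = g' := funext fun x => (hd x).deriv
  exact ⟨fun x => (hd x).differentiableAt, he ▸ hu⟩

/-- a uniform limit of smooth functions with uniformly bounded derivatives
(the derivatives are uniformly Cauchy by `lk` or `landau`) -/
theorem sm_of_limit {p : ℕ → ℝ → ℝ} {f : ℝ → ℝ} {B : ℕ → ℝ} (hp : ∀ n, Sm (p n))
    (hB : ∀ n r, sn r (p n) ≤ B r) (hl : TendstoUniformly p f Filter.atTop) :
    Sm f ∧ ∀ r, sn r f ≤ B r := by
  have key : ∀ r, TendstoUniformly (fun n => iteratedDeriv r (p n)) (iteratedDeriv r f)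
      Filter.atTop := by
    intro r
    induction r with
    | zero => simpa using hl
    | succ r ih =>
      have := (pk_step (C := B (2 + r)) (fun n => (hp n).iteratedDeriv r)
        (fun n => by rw [sn_iteratedDeriv]; exact hB n _) ih).2
      simpa only [iteratedDeriv_succ] using this
  have hdiff : ∀ r, Differentiable ℝ (iteratedDeriv r f) := fun r =>
    (pk_step (C := B (2 + r)) (fun n => (hp n).iteratedDeriv r)
      (fun n => by rw [sn_iteratedDeriv]; exact hB n _) (key r)).1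
  have hb : ∀ r x, |iteratedDeriv r f x| ≤ B r := fun r x =>
    le_of_tendsto' ((key r).tendsto_at x).abs fun n => (le_sn (hp n) r x).trans (hB n r)
  exact ⟨⟨contDiff_of_differentiable_iteratedDeriv fun m _ => hdiff m, fun r => ⟨B r, hb r⟩⟩,
    fun r => sn_le (hb r)⟩

theorem pk_bound {M : ℕ → ℝ} {p : ℝ → ℝ} (hp : p ∈ PK M) (r : ℕ) : sn r p ≤ M (max r 3) :=
  (poincare_one_zero hp.1.1 hp.1.2.1 hp.1.2.2 (le_max_left r 3)).trans (hp.2 _ (le_max_right r 3))

/-- the fractional part as a point of the unit interval -/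
noncomputable def pk_fr (x : ℝ) : Icc (0 : ℝ) 1 :=
  ⟨Int.fract x, Int.fract_nonneg x, (Int.fract_lt_one x).le⟩

theorem pk_per {p : ℝ → ℝ} (hp : ∀ x, p (x + 1) = p x) (x : ℝ) : p (pk_fr x) = p x := by
  have h : Function.Periodic p 1 := hp
  have := h.sub_int_mul_eq (x := x) ⌊x⌋
  rw [mul_one] at this
  exact this

open BoundedContinuousFunction in
/-- restriction to the unit interval -/
noncomputable def pk_res (p : ℝ → ℝ) (hp : Continuous p) : Icc (0 : ℝ) 1 →ᵇ ℝ :=
  BoundedContinuousFunction.mkOfCompact ⟨fun t => p t, hp.comp continuous_subtype_val⟩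

open BoundedContinuousFunction in
/-- restrictions of elements of `PK M` -/
def pk_K (M : ℕ → ℝ) : Set (Icc (0 : ℝ) 1 →ᵇ ℝ) := {u | ∃ p ∈ PK M, ∀ t, u t = p t}

open BoundedContinuousFunction in
theorem pk_ex {M : ℕ → ℝ} {u : Icc (0 : ℝ) 1 →ᵇ ℝ} (hu : u ∈ pk_K M) :
    (fun x => u (pk_fr x)) ∈ PK M ∧ ∀ t, u t = u (pk_fr t) := by
  obtain ⟨p, hp, h⟩ := hu
  have he : (fun x => u (pk_fr x)) = p := funext fun x => by rw [h, pk_per hp.1.2.1]
  refine ⟨he ▸ hp, fun t => ?_⟩
  rw [h, h, pk_per hp.1.2.1]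

theorem pk_closed (M : ℕ → ℝ) : IsClosed (pk_K M) := by
  refine IsSeqClosed.isClosed fun u v hu hv => ?_
  have hun : TendstoUniformly (fun n => (u n : Icc (0 : ℝ) 1 → ℝ)) v Filter.atTop :=
    BoundedContinuousFunction.tendsto_iff_tendstoUniformly.1 hv
  have hl : TendstoUniformly (fun n x => u n (pk_fr x)) (fun x => v (pk_fr x)) Filter.atTop :=
    hun.comp pk_fr
  have hs := sm_of_limit (B := fun r => M (max r 3)) (fun n => (pk_ex (hu n)).1.1.1)
    (fun n r => pk_bound (pk_ex (hu n)).1 r) hl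
  refine ⟨fun x => v (pk_fr x), ⟨⟨hs.1, fun x => ?_, ?_⟩, fun r hr => ?_⟩, fun t => ?_⟩
  · have : pk_fr (x + 1) = pk_fr x := Subtype.ext (Int.fract_add_one x)
    simp only [this]
  · have h1 := hl.tendsto_at 0
    have h2 : (fun n => u n (pk_fr 0)) = fun _ => (0 : ℝ) :=
      funext fun n => (pk_ex (hu n)).1.1.2.2
    rw [h2] at h1
    exact tendsto_nhds_unique h1 tendsto_const_nhds
  · have := hs.2 r
    rwa [max_eq_left hr] at this
  · have h1 := hl.tendsto_at (t : ℝ)
    have h2 : (fun n => u n (pk_fr t)) = fun n => u n t :=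
      funext fun n => ((pk_ex (hu n)).2 t).symm
    rw [h2] at h1
    exact tendsto_nhds_unique (hun.tendsto_at t) h1

theorem pk_compact (M : ℕ → ℝ) : IsCompact (pk_K M) := by
  refine BoundedContinuousFunction.arzela_ascoli₂ (Icc (-M 3) (M 3)) isCompact_Icc _
    (pk_closed M) ?_ ?_
  · rintro u t ⟨p, hp, h⟩
    rw [h]
    exact abs_le.1 ((abs_le_sn_zero hp.1.1 t).trans (pk_bound hp 0))
  · refine Metric.equicontinuous_of_continuity_modulus (fun d => M 3 * d) ?_ _ ?_
    · have : Continuous fun d : ℝ => M 3 * d := by fun_prop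
      simpa using this.tendsto 0
    · rintro x y ⟨u, p, hp, h⟩
      simp only [h, Subtype.dist_eq, Real.dist_eq]
      exact (abs_sub_le_sn hp.1.1 x y).trans
        (mul_le_mul_of_nonneg_right (pk_bound hp 1) (abs_nonneg _))

theorem pk_convex (M : ℕ → ℝ) : Convex ℝ (pk_K M) := by
  rintro u ⟨p, hp, h⟩ v ⟨q, hq, h'⟩ a b ha hb hab
  refine ⟨fun x => a * p x + b * q x, ⟨⟨(hp.1.1.const_mul a).add (hq.1.1.const_mul b),
    fun x => ?_, ?_⟩, fun r hr => ?_⟩, fun t => ?_⟩
  · simp only [hp.1.2.1 x, hq.1.2.1 x]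
  · simp only [hp.1.2.2, hq.1.2.2, mul_zero, add_zero]
  · have h1 := sn_add_le (hp.1.1.const_mul a) (hq.1.1.const_mul b) r
    rw [sn_const_mul hp.1.1, sn_const_mul hq.1.1, abs_of_nonneg ha, abs_of_nonneg hb] at h1
    have h2 := mul_le_mul_of_nonneg_left (hp.2 r hr) ha
    have h3 := mul_le_mul_of_nonneg_left (hq.2 r hr) hb
    have h4 : a * M r + b * M r = M r := by rw [← add_mul, hab, one_mul]
    linarith
  · simp [h, h']

/-- Work in bounded continuous functions on `ℝ`; the set is convex, closed (`sm_of_limit`,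
`poincare_one_zero`) and totally bounded (Arzela-Ascoli on `[0, 1]`, or a direct net argument). -/
theorem fixed_PK {M : ℕ → ℝ} (hM : ∀ r, 0 ≤ M r) {T : (ℝ → ℝ) → ℝ → ℝ}
    (hm : MapsTo T (PK M) (PK M)) {L : ℝ}
    (hL : ∀ p ∈ PK M, ∀ p' ∈ PK M, ∀ d : ℝ, (∀ x, |p x - p' x| ≤ d) →
      ∀ x, |T p x - T p' x| ≤ L * d) : ∃ p ∈ PK M, T p = p := by
  classical
  have hne : (pk_K M).Nonempty :=
    ⟨0, fun _ => 0, ⟨⟨sm_const 0, fun _ => rfl, rfl⟩, fun r _ => by
      rw [sn_zero_fun]; exact hM r⟩, fun _ => rfl⟩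
  let S : BoundedContinuousFunction (Icc (0 : ℝ) 1) ℝ → BoundedContinuousFunction (Icc (0 : ℝ) 1) ℝ :=
    fun u => if h : u ∈ pk_K M then pk_res (T fun x => u (pk_fr x)) (hm (pk_ex h).1).1.1.continuous
      else u
  have hS : ∀ u ∈ pk_K M, ∀ t, S u t = T (fun x => u (pk_fr x)) t := by
    intro u hu t
    simp only [S, dif_pos hu]
    rfl
  have hmaps : MapsTo S (pk_K M) (pk_K M) := fun u hu => ⟨_, hm (pk_ex hu).1, hS u hu⟩
  have hcont : ContinuousOn S (pk_K M) := by
    refine (LipschitzOnWith.of_dist_le' (K := L) fun u hu v hv => ?_).continuousOn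
    rw [BoundedContinuousFunction.dist_le_iff_of_nonempty]
    intro t
    rw [hS u hu, hS v hv, Real.dist_eq]
    refine hL _ (pk_ex hu).1 _ (pk_ex hv).1 _ (fun x => ?_) t
    rw [← Real.dist_eq]
    exact BoundedContinuousFunction.dist_coe_le_dist _
  obtain ⟨u, hu, hfix⟩ := schauder (pk_convex M) (pk_compact M) hne hcont hmaps
  refine ⟨_, (pk_ex hu).1, funext fun x => ?_⟩
  rw [← pk_per (hm (pk_ex hu).1).1.2.1 x, ← hS u hu, hfix]

end Pool.Agent.P.MP_7bb7e1_gt
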