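import Pool.Agent.P.MP_7bb7e1_gt.Many
import Pool.Agent.P.MP_7bb7e1_gt.PK

/-! Auxiliary estimates for the commutator of a small diffeomorphism with the unit translation. -/

namespace Pool.Agent.P.MP_7bb7e1_gt

open scoped commutatorElement

theorem microA_md_mono {j r : ℕ} (h : j ≤ r) (f : ℝ → ℝ) : md j f ≤ md r f :=
  Finset.sum_le_sum_of_subset_of_nonneg (Finset.Ico_subset_Ico_right h)
    fun _ _ _ => sn_nonneg _ _

theorem microA_comm_eq (e : Pm) : ⁅e, tr 1⁆ = e * (tr 1 * e⁻¹ * (tr 1)⁻¹) := by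
  rw [commutatorElement_def]; simp only [mul_assoc]

theorem microA_comm : ∃ B : ℕ → ℝ, (∀ r, 0 ≤ B r) ∧ ∀ e : Pm, Sm (dp e) →
    sn 1 (dp e) ≤ 1 / 8 → sn 2 (dp e) ≤ 1 / 8 →
      Sm (dp ⁅e, tr 1⁆) ∧ sn 0 (dp ⁅e, tr 1⁆) ≤ 2 * sn 0 (dp e) ∧
      sn 1 (dp ⁅e, tr 1⁆) ≤ 4 * sn 1 (dp e) ∧
      ∀ r, 2 ≤ r → sn r (dp ⁅e, tr 1⁆) ≤ 4 * 2 ^ r * sn r (dp e) + B r * md r (dp e) := by
  obtain ⟨I, hI, hinv⟩ := inv_star
  obtain ⟨T, hT, ht3⟩ := t3
  have hM : ∀ r, 0 ≤ ∑ j ∈ Finset.Ico 2 r, (2 * 2 ^ j + I j) := fun r =>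
    Finset.sum_nonneg fun j _ => add_nonneg (by positivity) (hI j)
  refine ⟨fun r => 2 * I r + T r * (1 + ∑ j ∈ Finset.Ico 2 r, (2 * 2 ^ j + I j)),
    fun r => add_nonneg (mul_nonneg zero_le_two (hI r))
      (mul_nonneg (hT r) (add_nonneg zero_le_one (hM r))), fun e he h1 h2 => ?_⟩
  have h1' : sn 1 (dp e) ≤ 1 / 2 := by linarith
  have hi : Sm (dp e⁻¹) := sm_inv_small he h1'
  obtain ⟨g, hg⟩ : ∃ g : Pm, g = tr 1 * e⁻¹ * (tr 1)⁻¹ := ⟨_, rfl⟩
  have hs : Sm (dp g) := hg ▸ sm_conj_tr hi 1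
  have hn : ∀ r, sn r (dp g) = sn r (dp e⁻¹) := fun r => hg ▸ sn_conj_tr 1 e⁻¹ r
  have g0 : sn 0 (dp g) ≤ sn 0 (dp e) := (hn 0).trans_le (sn_inv_zero he)
  have g1 : sn 1 (dp g) ≤ 2 * sn 1 (dp e) := (hn 1).trans_le (sn_inv_one he h1')
  have gr : ∀ r, 2 ≤ r → sn r (dp g) ≤ 2 * 2 ^ r * sn r (dp e) + I r * md r (dp e) :=
    fun r hr => (hn r).trans_le (hinv r hr e he h1' h2)
  have g2 : sn 2 (dp g) ≤ 1 := by
    have := gr 2 le_rfl
    rw [md_two] at this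
    linarith
  have hadd : ∀ r, sn r (dp ⁅e, tr 1⁆) ≤ sn r (fun x => dp e (x + dp g x)) + sn r (dp g) := by
    intro r
    rw [microA_comm_eq, ← hg, dp_mul]
    exact sn_add_le (he.comp hs) hs r
  have e1 := sn_nonneg 1 (dp e)
  refine ⟨by rw [microA_comm_eq, ← hg]; exact sm_dp_mul he hs, ?_, ?_, fun r hr => ?_⟩
  · linarith [hadd 0, sn_comp_zero he (dp g)]
  · have a := sn_comp_one he hs
    have b : sn 1 (dp e) * (1 + sn 1 (dp g)) ≤ sn 1 (dp e) * 2 :=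
      mul_le_mul_of_nonneg_left (by linarith) e1
    linarith [hadd 1]
  · have a := ht3 r hr (dp e) (dp g) he hs (by linarith) g2
    have m0 := md_nonneg r (dp e)
    have b1 : sn r (dp e) * (1 + sn 1 (dp g)) ^ r ≤ sn r (dp e) * 2 ^ r :=
      mul_le_mul_of_nonneg_left (pow_le_pow_left₀ (by linarith [sn_nonneg 1 (dp g)])
        (by linarith) r) (sn_nonneg _ _)
    have b2 : sn 1 (dp e) * sn r (dp g) ≤ 1 / 2 * sn r (dp g) :=
      mul_le_mul_of_nonneg_right h1' (sn_nonneg _ _)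
    have b3 : md r (dp g) ≤ (∑ j ∈ Finset.Ico 2 r, (2 * 2 ^ j + I j)) * md r (dp e) := by
      rw [Finset.sum_mul]
      refine Finset.sum_le_sum fun j hj => ?_
      obtain ⟨hj2, hjr⟩ := Finset.mem_Ico.1 hj
      have c1 : 2 * 2 ^ j * sn j (dp e) ≤ 2 * 2 ^ j * md r (dp e) :=
        mul_le_mul_of_nonneg_left (sn_le_md hj2 hjr _) (by positivity)
      have c2 : I j * md j (dp e) ≤ I j * md r (dp e) :=
        mul_le_mul_of_nonneg_left (microA_md_mono hjr.le _) (hI j)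
      linarith [gr j hj2]
    have b4 : md r (dp e) * sn 2 (dp g) ≤ md r (dp e) := mul_le_of_le_one_right m0 g2
    have b5 : sn 2 (dp e) * md r (dp g) ≤ md r (dp g) :=
      mul_le_of_le_one_left (md_nonneg _ _) (by linarith)
    have b6 : T r * (md r (dp e) * sn 2 (dp g) + sn 2 (dp e) * md r (dp g)) ≤
        T r * ((1 + ∑ j ∈ Finset.Ico 2 r, (2 * 2 ^ j + I j)) * md r (dp e)) :=
      mul_le_mul_of_nonneg_left (by linarith) (hT r)
    have b7 : 0 ≤ I r * md r (dp e) := mul_nonneg (hI r) m0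
    linarith [hadd r, gr r hr]

theorem microA_leib : ∃ K : ℕ → ℝ, (∀ r, 0 ≤ K r) ∧ ∀ p, Pn p →
    (∀ r, sn r (fun x => chi x * p x) ≤ K r * sn r p) ∧
      ∀ r, sn r (fun x => chi x * p x) ≤ sn r p + K r * sn (r - 1) p := by
  refine ⟨fun r => ∑ j ∈ Finset.range (r + 1), (r.choose j : ℝ) * sn j chi, fun r =>
    Finset.sum_nonneg fun j _ => mul_nonneg (Nat.cast_nonneg _) (sn_nonneg _ _),
    fun p hp => ⟨fun r => ?_, fun r => ?_⟩⟩
  · refine (sn_mul_le sm_chi hp.1 r).trans ?_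
    rw [Finset.sum_mul]
    refine Finset.sum_le_sum fun j _ => ?_
    rw [mul_assoc]
    exact mul_le_mul_of_nonneg_left (mul_le_mul_of_nonneg_left
      (poincare_one_zero hp.1 hp.2.1 hp.2.2 (Nat.sub_le r j)) (sn_nonneg _ _)) (Nat.cast_nonneg _)
  · refine (sn_mul_le sm_chi hp.1 r).trans ?_
    rw [Finset.sum_mul, Finset.sum_range_succ', Finset.sum_range_succ']
    have h0 : sn 0 chi ≤ 1 := sn_le fun x => by simpa using abs_chi_le x
    have a : ∑ j ∈ Finset.range r, (r.choose (j + 1) : ℝ) * (sn (j + 1) chi * sn (r - (j + 1)) p) ≤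
        ∑ j ∈ Finset.range r, (r.choose (j + 1) : ℝ) * sn (j + 1) chi * sn (r - 1) p := by
      refine Finset.sum_le_sum fun j _ => ?_
      rw [mul_assoc]
      exact mul_le_mul_of_nonneg_left (mul_le_mul_of_nonneg_left
        (poincare_one_zero hp.1 hp.2.1 hp.2.2 (by omega)) (sn_nonneg _ _)) (Nat.cast_nonneg _)
    have b : sn 0 chi * sn r p ≤ sn r p := mul_le_of_le_one_left (sn_nonneg _ _) h0
    have c : 0 ≤ sn 0 chi * sn (r - 1) p := mul_nonneg (sn_nonneg _ _) (sn_nonneg _ _)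
    simp only [Nat.choose_zero_right, Nat.cast_one, one_mul, Nat.sub_zero]
    linarith

theorem microA_fix {p : ℝ → ℝ} (hp : Pn p) {e : Pm} (he : dp e = fun x => chi x * p x)
    (hs : Sm (dp e)) (h1 : sn 1 (dp e) ≤ 1 / 2) : Fix 0 2 ⁅e, tr 1⁆ := by
  have hv : ∀ x, e x = x + chi x * p x := fun x => by rw [apply_eq_add_dp, he]
  have hm : StrictMono fun x => e x :=
    strictMono_of_pos hs fun x => by linarith [lower_of_small hs h1 x]
  have hz : ∀ x, x ≤ 0 → e x = x := fun x hx => by rw [hv, chi_zero hx]; ring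
  intro x hx
  rw [microA_comm_eq]
  simp only [Equiv.Perm.mul_apply, tr_apply, tr_inv_apply]
  rcases hx with hx | hx
  · have : e⁻¹ (x - 1) = x - 1 := by
      rw [Equiv.Perm.inv_eq_iff_eq, hz _ (by linarith)]
    rw [this, sub_add_cancel, hz x hx]
  · obtain ⟨y, hy⟩ : ∃ y, e y = x - 1 := e.surjective _
    have : e⁻¹ (x - 1) = y := by rw [Equiv.Perm.inv_eq_iff_eq, hy]
    have p1 : p 1 = 0 := by have := hp.2.1 0; rw [zero_add] at this; rw [this, hp.2.2]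
    have e1 : e 1 = 1 := by rw [hv, p1]; ring
    have y1 : 1 ≤ y := hm.le_iff_le.1 (show e 1 ≤ e y by rw [e1, hy]; linarith)
    rw [hv, chi_one y1] at hy
    rw [this, hv, chi_one (by linarith), hp.2.1]
    linarith

theorem microA_aux : ∃ (c e₁ : ℝ) (C : ℕ → ℝ), 1 ≤ c ∧ 0 < e₁ ∧ (∀ r, 0 ≤ C r) ∧
    ∀ p, Pn p → sn 3 p ≤ e₁ → ∀ e : Pm, e = mkp (fun x => chi x * p x) →
      dp e = (fun x => chi x * p x) ∧ Sm (dp e) ∧ sn 1 (dp e) ≤ 1 / 2 ∧
      sn 1 p ≤ 1 / 2 ∧ (∀ r, sn r (dp e) ≤ C r * sn (max r 3) p) ∧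
      Sm (dp ⁅e, tr 1⁆) ∧ Fix 0 2 ⁅e, tr 1⁆ ∧
      (∀ j, j ≤ 3 → sn j (dp ⁅e, tr 1⁆) ≤ C 3 * sn 3 p) ∧
      ∀ r, 4 ≤ r → sn r (dp ⁅e, tr 1⁆) ≤ c ^ r * sn r p + C r * sn (r - 1) p := by
  obtain ⟨B, hB, hc⟩ := microA_comm
  obtain ⟨K, hK, hl⟩ := microA_leib
  obtain ⟨A, hA⟩ : ∃ A, A = 1 + K 0 + K 1 + K 2 + K 3 := ⟨_, rfl⟩
  have k0 := hK 0
  have k1 := hK 1
  have k2 := hK 2
  have k3 := hK 3
  have A1 : 1 ≤ A := by linarith
  have hL : ∀ r, 0 ≤ ∑ j ∈ Finset.Ico 2 r, K j := fun r => Finset.sum_nonneg fun j _ => hK j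
  have hE : 0 ≤ (32 + 3 * (B 2 + B 3)) * A :=
    mul_nonneg (by linarith [hB 2, hB 3]) (by linarith)
  have hF : ∀ r, 0 ≤ 4 * 2 ^ r * K r + B r * ∑ j ∈ Finset.Ico 2 r, K j := fun r =>
    add_nonneg (mul_nonneg (by positivity) (hK r)) (mul_nonneg (hB r) (hL r))
  refine ⟨4, 1 / (8 * A), fun r => K r + (32 + 3 * (B 2 + B 3)) * A +
    (4 * 2 ^ r * K r + B r * ∑ j ∈ Finset.Ico 2 r, K j), by norm_num, by positivity,
    fun r => add_nonneg (add_nonneg (hK r) hE) (hF r), fun p hp hs e he => ?_⟩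
  obtain ⟨l1, l2⟩ := hl p hp
  have mono : ∀ {j r : ℕ}, j ≤ r → sn j p ≤ sn r p := fun h =>
    poincare_one_zero hp.1 hp.2.1 hp.2.2 h
  have s0 := sn_nonneg 3 p
  have hAs : A * sn 3 p ≤ 1 / 8 := by
    rw [le_div_iff₀ (by positivity)] at hs
    linarith
  have hq : Sm fun x => chi x * p x := sm_chi.mul hp.1
  have hj : ∀ j, j ≤ 3 → sn j (fun x => chi x * p x) ≤ A * sn 3 p := by
    intro j hj
    refine (l1 j).trans (mul_le_mul ?_ (mono hj) (sn_nonneg _ _) (by linarith))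
    interval_cases j <;> linarith
  have hd : dp e = fun x => chi x * p x := by
    rw [he]; exact dp_mkp hq (by linarith [hj 1 (by norm_num)])
  rw [← hd] at hq hj l1 l2
  have q1 : sn 1 (dp e) ≤ 1 / 8 := (hj 1 (by norm_num)).trans hAs
  obtain ⟨c1, c2, c3, c4⟩ := hc e hq q1 ((hj 2 (by norm_num)).trans hAs)
  have sA : sn 3 p ≤ A * sn 3 p := le_mul_of_one_le_left s0 A1
  refine ⟨hd, hq, by linarith, by linarith [mono (show 1 ≤ 3 by norm_num)], fun r => ?_, c1,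
    microA_fix hp hd hq (by linarith), fun j hj3 => ?_, fun r hr => ?_⟩
  · exact (l1 r).trans (mul_le_mul (by linarith [hF r]) (mono (le_max_left _ _))
      (sn_nonneg _ _) (add_nonneg (add_nonneg (hK r) hE) (hF r)))
  · refine le_trans ?_ (mul_le_mul_of_nonneg_right
      (show (32 + 3 * (B 2 + B 3)) * A ≤ _ by linarith [hF 3]) s0)
    have t0 : 0 ≤ A * sn 3 p := by linarith
    have u2 : 0 ≤ B 2 * (A * sn 3 p) := mul_nonneg (hB 2) t0
    have u3 : 0 ≤ B 3 * (A * sn 3 p) := mul_nonneg (hB 3) t0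
    have m3 : B 3 * md 3 (dp e) ≤ B 3 * (3 * (A * sn 3 p)) :=
      mul_le_mul_of_nonneg_left (by
        simpa using md_le_of_sn_le (f := dp e) (r := 3) t0 fun j _ h => hj j h.le) (hB 3)
    have d2 := c4 2 le_rfl
    have d3 := c4 3 (by norm_num)
    rw [md_two] at d2
    have := hj j hj3
    interval_cases j <;> linarith
  · have m : md r (dp e) ≤ (∑ j ∈ Finset.Ico 2 r, K j) * sn (r - 1) p := by
      rw [Finset.sum_mul]
      refine Finset.sum_le_sum fun j hj => (l1 j).trans ?_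
      have := (Finset.mem_Ico.1 hj).2
      exact mul_le_mul_of_nonneg_left (mono (by omega)) (hK j)
    have m' := mul_le_mul_of_nonneg_left m (hB r)
    have a : 4 * 2 ^ r * sn r (dp e) ≤ 4 * 2 ^ r * (sn r p + K r * sn (r - 1) p) :=
      mul_le_mul_of_nonneg_left (l2 r) (by positivity)
    have b : (4 : ℝ) * 2 ^ r ≤ 4 ^ r := by
      have : (2 : ℝ) ^ 2 ≤ 2 ^ r := pow_le_pow_right₀ one_le_two (by omega)
      rw [show (4 : ℝ) ^ r = 2 ^ r * 2 ^ r by rw [← mul_pow]; norm_num]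
      exact mul_le_mul_of_nonneg_right (by linarith) (by positivity)
    have b' := mul_le_mul_of_nonneg_right b (sn_nonneg r p)
    have z : 0 ≤ (K r + (32 + 3 * (B 2 + B 3)) * A) * sn (r - 1) p :=
      mul_nonneg (add_nonneg (hK r) hE) (sn_nonneg _ _)
    linarith [c4 r (by omega)]

end Pool.Agent.P.MP_7bb7e1_gt
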