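import Pool.Agent.P.MP_7bb7e1_gt.Many
import Pool.Agent.P.MP_7bb7e1_gt.PK
import Pool.Agent.P.MP_7bb7e1_gt.MicroAAux

/-! Unrolling a periodic diffeomorphism, dilating, and rolling up again: estimates. -/

namespace Pool.Agent.P.MP_7bb7e1_gt

open scoped commutatorElement

/-- the transition from the identity to `id + p` -/
noncomputable def kap (p : ℝ → ℝ) : Pm := mkp fun x => chi x * p x

noncomputable def aP (p : ℝ → ℝ) : Pm := ⁅kap p, tr 1⁆

noncomputable def bP (D : ℕ) (p : ℝ → ℝ) : Pm := aff D 0 * aP p * (aff D 0)⁻¹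

noncomputable def WP (D : ℕ) (p : ℝ → ℝ) : Pm := Wm (bP D p) 1 (2 * D + 4)

/-- Estimates for `kap p` and `aP p`. All of `sn 0 p, …, sn 3 p` are at most `sn 3 p`
(`poincare_one_zero`). Leibniz: `sn r (chi p) ≤ sn r p + C sn (r-1) p`. Write
`aP p = kap p * (tr 1 * (kap p)⁻¹ * (tr 1)⁻¹)` and use `inv_star`, `sn_conj_tr`, `dp_mul`, `t3`.
Support: `kap p` is the identity on `(-∞, 0]`, fixes `1`, is increasing, and commutes with
`tr 1` on `[1, ∞)`. -/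
theorem microA : ∃ (c e₁ : ℝ) (C : ℕ → ℝ), 1 ≤ c ∧ 0 < e₁ ∧ (∀ r, 0 ≤ C r) ∧
    ∀ p, Pn p → sn 3 p ≤ e₁ →
      dp (kap p) = (fun x => chi x * p x) ∧ Sm (dp (kap p)) ∧ sn 1 (dp (kap p)) ≤ 1 / 2 ∧
      sn 1 p ≤ 1 / 2 ∧ (∀ r, sn r (dp (kap p)) ≤ C r * sn (max r 3) p) ∧
      Sm (dp (aP p)) ∧ Fix 0 2 (aP p) ∧ (∀ j, j ≤ 3 → sn j (dp (aP p)) ≤ C 3 * sn 3 p) ∧
      ∀ r, 4 ≤ r → sn r (dp (aP p)) ≤ c ^ r * sn r p + C r * sn (r - 1) p := by
  obtain ⟨c, e₁, C, h1, h2, h3, h⟩ := microA_aux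
  exact ⟨c, e₁, C, h1, h2, h3, fun p hp hs => h p hp hs (kap p) rfl⟩

/-- the package of estimates used later -/
def MB (D : ℕ) (e₂ : ℝ) (C : ℕ → ℝ) : Prop := ∀ p, Pn p → sn 3 p ≤ e₂ →
  dp (kap p) = (fun x => chi x * p x) ∧ Sm (dp (kap p)) ∧ sn 1 (dp (kap p)) ≤ 1 / 2 ∧
  sn 1 p ≤ 1 / 2 ∧ (∀ r, sn r (dp (kap p)) ≤ C r * sn (max r 3) p) ∧
  Sm (dp (bP D p)) ∧ Fix 0 (0 + 2 * D) (bP D p) ∧ sn 1 (dp (bP D p)) ≤ 1 ∧
  Sm (dp (WP D p)) ∧ sn 0 (dp (WP D p)) ≤ 1 ∧ sn 1 (dp (WP D p)) ≤ 1 / 2 ∧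
  (∀ j, j ≤ 3 → sn j (dp (WP D p)) ≤ C 3 * sn 3 p) ∧ sn 3 (dp (WP D p)) ≤ sn 3 p / 32 ∧
  ∀ r, 4 ≤ r → sn r (dp (WP D p)) ≤ sn r p / (2 * 2 ^ r) + C r * sn (r - 1) p

theorem microB_aux1 {c D : ℝ} (hc : 1 ≤ c) (hD : 64 * c ^ 2 ≤ D) {r : ℕ} (hr : 4 ≤ r) :
    2 * 2 ^ r * (4 * D) * (D / D ^ r) * c ^ r ≤ 1 / (2 * 2 ^ r) := by
  obtain ⟨k, rfl⟩ : ∃ k, r = k + 4 := ⟨r - 4, by omega⟩
  have hc0 : 0 < c := by linarith
  have hD0 : 0 < D := by nlinarith
  have h4 : (1 : ℝ) ≤ 4 * c := by linarith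
  have h1 : (4 * (4 * c) ^ 2) ^ (k + 2) ≤ D ^ (k + 2) :=
    pow_le_pow_left₀ (by positivity) (by nlinarith) _
  have h2 : (16 : ℝ) * (4 * c) ^ (k + 4) ≤ (4 * (4 * c) ^ 2) ^ (k + 2) := by
    rw [mul_pow 4 ((4 * c) ^ 2), ← pow_mul]
    have a1 : (16 : ℝ) ≤ 4 ^ (k + 2) := by
      have : (4 : ℝ) ^ 2 ≤ 4 ^ (k + 2) := pow_le_pow_right₀ (by norm_num) (by omega)
      linarith
    have a2 : (4 * c) ^ (k + 4) ≤ (4 * c) ^ (2 * (k + 2)) := pow_le_pow_right₀ h4 (by omega)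
    exact mul_le_mul a1 a2 (by positivity) (by positivity)
  have h3 : (16 : ℝ) * (4 * c) ^ (k + 4) ≤ D ^ (k + 2) := h2.trans h1
  have e1 : (4 * c) ^ (k + 4) = 2 ^ (k + 4) * 2 ^ (k + 4) * c ^ (k + 4) := by
    rw [← mul_pow, ← mul_pow]; norm_num
  have e2 : D / D ^ (k + 4) = 1 / (D * D ^ (k + 2)) := by
    field_simp
    ring
  rw [e2, le_div_iff₀ (by positivity)]
  have e3 : 2 * 2 ^ (k + 4) * (4 * D) * (1 / (D * D ^ (k + 2))) * c ^ (k + 4) * (2 * 2 ^ (k + 4))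
      = 16 * (2 ^ (k + 4) * 2 ^ (k + 4) * c ^ (k + 4)) / D ^ (k + 2) := by
    field_simp
    ring
  rw [e3, div_le_one (by positivity), ← e1]
  exact h3

theorem microB_aux2 {D : ℝ} (hD : 1 ≤ D) {j : ℕ} (hj : 1 ≤ j) : D / D ^ j ≤ 1 := by
  rw [div_le_one (by positivity)]
  simpa using pow_le_pow_right₀ hD hj

/-- `sn_conj_aff` gives `sn r (dp (bP D p)) = D / D^r * sn r (dp (aP p))`, and `2 D + 4 ≤ 4 D`.
Choose `D` so large that `2 * 8 * 4 D * D / D^3 * C 3 ≤ 1 / 64` and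
`2 * 2^r * 4 D * D / D^r * c^r ≤ 1 / (2 * 2^r)` for all `r ≥ 4` (say `D ≥ 16 (4c)^4`), then `e₂` so
small that `δ = (2D+4) nm 2 (dp (bP D p))` is at most `1 / 16` and the second term of `many` for
`r = 3` is at most `sn 3 p / 64`. -/
theorem microB : ∃ (D : ℕ) (e₂ : ℝ) (C : ℕ → ℝ), 2 ≤ D ∧ 0 < e₂ ∧ (∀ r, 0 ≤ C r) ∧ MB D e₂ C := by
  obtain ⟨c, e₁, C, hc, he₁, hC, hA⟩ := microA
  obtain ⟨K, hK, hM⟩ := many
  obtain ⟨D, hD⟩ := exists_nat_ge (2 + 64 * c ^ 2 + 4096 * C 3)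
  have hC3 := hC 3
  have hK3 := hK 3
  have hc2 : 0 ≤ c ^ 2 := by positivity
  have hD2 : (2 : ℝ) ≤ D := by linarith
  have hD0 : (0 : ℝ) < D := by linarith
  have hDc : 64 * c ^ 2 ≤ (D : ℝ) := by linarith
  have hDC : 4096 * C 3 ≤ (D : ℝ) := by linarith
  have hN : ((2 * D + 4 : ℕ) : ℝ) ≤ 4 * D := by push_cast; linarith
  have hN0 : (0 : ℝ) ≤ ((2 * D + 4 : ℕ) : ℝ) := Nat.cast_nonneg _
  generalize hNe : ((2 * D + 4 : ℕ) : ℝ) = N at hN hN0
  obtain ⟨L, hL⟩ : ∃ L : ℝ, L = 12 * D ^ 2 * C 3 := ⟨_, rfl⟩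
  have hL0 : 0 ≤ L := by rw [hL]; positivity
  obtain ⟨T, hT⟩ : ∃ T : ℝ, T = 16 * L + 256 * (K 3 * L * C 3) + 1 := ⟨_, rfl⟩
  have hT1 : 0 ≤ K 3 * L * C 3 := by positivity
  have hT0 : 0 < T := by rw [hT]; positivity
  obtain ⟨M, hMd⟩ : ∃ M : ℕ → ℝ, ∀ r, M r = ∑ j ∈ Finset.Ico 2 r, (C 3 + c ^ j + C j) :=
    ⟨_, fun _ => rfl⟩
  have hM0 : ∀ r, 0 ≤ M r := fun r => by
    rw [hMd]
    refine Finset.sum_nonneg fun j _ => ?_
    have := hC j
    have : 0 ≤ c ^ j := by positivity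
    linarith
  obtain ⟨E, hE⟩ : ∃ E : ℕ → ℝ, ∀ r, E r =
      2 * 2 ^ r * (4 * D) * (D / D ^ r) * C r + K r * N * M r := ⟨_, fun _ => rfl⟩
  have hE0 : ∀ r, 0 ≤ E r := fun r => by
    have := hC r
    have := hK r
    have := hM0 r
    rw [hE]; positivity
  refine ⟨D, min e₁ (1 / T), fun r => C r + (L + 1) + E r, by exact_mod_cast hD2,
    lt_min he₁ (by positivity), fun r => by have := hC r; have := hE0 r; positivity, ?_⟩
  intro p hp hs
  obtain ⟨a1, a2, a3, a4, a5, a6, a7, a8, a9⟩ := hA p hp (hs.trans (min_le_left _ _))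
  have hsT : T * sn 3 p ≤ 1 := by
    have := hs.trans (min_le_right _ _)
    rwa [le_div_iff₀ hT0, mul_comm] at this
  have hs0 : 0 ≤ sn 3 p := sn_nonneg _ _
  generalize hse : sn 3 p = s at hs a8 hsT hs0
  have hLs : L * s ≤ 1 / 16 := by
    rw [hT] at hsT
    linarith only [hsT, mul_nonneg hT1 hs0, hs0]
  have hKs : K 3 * L * C 3 * s ≤ 1 / 256 := by
    rw [hT] at hsT
    linarith only [hsT, mul_nonneg hL0 hs0, hs0]
  have hCs : 0 ≤ C 3 * s := mul_nonneg hC3 hs0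
  have hb : ∀ r, sn r (dp (bP D p)) = D / D ^ r * sn r (dp (aP p)) := fun r =>
    sn_conj_aff a6 hD0 0 r
  have hbs : Sm (dp (bP D p)) := sm_conj_aff a6 _ _
  have b0 : sn 0 (dp (bP D p)) ≤ D * (C 3 * s) := by
    rw [hb, pow_zero, div_one]
    exact mul_le_mul_of_nonneg_left (a8 0 (by norm_num)) hD0.le
  have bj : ∀ j, 1 ≤ j → sn j (dp (bP D p)) ≤ sn j (dp (aP p)) := fun j hj => by
    rw [hb]
    exact mul_le_of_le_one_left (sn_nonneg _ _) (microB_aux2 (by linarith) hj)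
  have b1 : sn 1 (dp (bP D p)) ≤ C 3 * s := (bj 1 le_rfl).trans (a8 1 (by norm_num))
  have b2 : D * sn 2 (dp (bP D p)) ≤ C 3 * s := by
    rw [hb, ← mul_assoc, show (D : ℝ) * (D / D ^ 2) = 1 by field_simp, one_mul]
    exact a8 2 (by norm_num)
  have b3 : D ^ 2 * sn 3 (dp (bP D p)) ≤ C 3 * s := by
    rw [hb, ← mul_assoc, show (D : ℝ) ^ 2 * (D / D ^ 3) = 1 by field_simp, one_mul]
    exact a8 3 le_rfl
  have hDs : C 3 * s ≤ D * (C 3 * s) := le_mul_of_one_le_left hCs (by linarith)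
  have hLe : L * s = 12 * (D * (D * (C 3 * s))) := by rw [hL]; ring
  have hDDs : 2 * (D * (C 3 * s)) ≤ D * (D * (C 3 * s)) :=
    mul_le_mul_of_nonneg_right hD2 (by positivity)
  have hDs2 : 2 * (C 3 * s) ≤ D * (C 3 * s) := mul_le_mul_of_nonneg_right hD2 hCs
  have hnm : nm 2 (dp (bP D p)) ≤ 3 * (D * (C 3 * s)) := by
    have := nm_le_of_sn_le (f := dp (bP D p)) (r := 2) (A := D * (C 3 * s)) fun j hj => by
      rcases Nat.eq_zero_or_pos j with rfl | h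
      · exact b0
      · exact ((bj j h).trans (a8 j (by omega))).trans hDs
    norm_num at this ⊢
    linarith
  have hδ : ((2 * D + 4 : ℕ) : ℝ) * nm 2 (dp (bP D p)) ≤ L * s := by
    rw [hNe, hLe]
    have := mul_le_mul hN hnm (nm_nonneg _ _) (by positivity)
    linarith
  obtain ⟨w1, w2, w3, w4⟩ := hM (bP D p) 1 (L * s) (2 * D + 4) hbs hδ hLs
  rw [hNe] at w2 w3 w4
  have w2' : sn 0 (dp (WP D p)) ≤ L * s := by
    have := mul_le_mul hN b0 (sn_nonneg _ _) (by positivity)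
    have h0 : 0 ≤ (D : ℝ) * (D * (C 3 * s)) := by positivity
    refine w2.trans ?_
    rw [hLe]; linarith
  have w3' : sn 1 (dp (WP D p)) ≤ L * s := by
    have := mul_le_mul hN b1 (sn_nonneg _ _) (by positivity)
    have h0 : 0 ≤ (D : ℝ) * (C 3 * s) := by positivity
    refine w3.trans ?_
    rw [hLe]; linarith
  have w5 : sn 2 (dp (WP D p)) ≤ L * s := by
    have h := w4 2 le_rfl
    rw [md_two, mul_zero, add_zero] at h
    have := mul_le_mul_of_nonneg_right hN (sn_nonneg 2 (dp (bP D p)))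
    refine h.trans ?_
    rw [hLe]; linarith
  have w6 : sn 3 (dp (WP D p)) ≤ s / 32 := by
    have h := w4 3 (by norm_num)
    rw [md_succ (r := 2) le_rfl, md_two, zero_add] at h
    refine h.trans ?_
    have n3 := sn_nonneg 3 (dp (bP D p))
    have n2 := sn_nonneg 2 (dp (bP D p))
    have t1 : N * sn 3 (dp (bP D p)) ≤ 4 * D * sn 3 (dp (bP D p)) :=
      mul_le_mul_of_nonneg_right hN n3
    have t2 : D * sn 3 (dp (bP D p)) ≤ s / 4096 := by
      have u1 : 4096 * C 3 * s ≤ D * s := mul_le_mul_of_nonneg_right hDC hs0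
      have u2 : D * (D * sn 3 (dp (bP D p))) ≤ D * (s / 4096) := by linarith only [u1, b3]
      exact le_of_mul_le_mul_left u2 hD0
    have t3 : N * sn 2 (dp (bP D p)) ≤ 4 * (C 3 * s) := by
      have := mul_le_mul_of_nonneg_right hN n2
      linarith
    have t4 : K 3 * (L * s) * (N * sn 2 (dp (bP D p))) ≤ K 3 * (L * s) * (4 * (C 3 * s)) :=
      mul_le_mul_of_nonneg_left t3 (by positivity)
    have t5 : K 3 * L * C 3 * s * s ≤ 1 / 256 * s := mul_le_mul_of_nonneg_right hKs hs0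
    linarith only [t1, t2, t4, t5, hs0]
  refine ⟨a1, a2, a3, a4, fun r => (a5 r).trans ?_, hbs, ?_, ?_, w1, by linarith, by linarith,
    ?_, w6, ?_⟩
  · refine mul_le_mul_of_nonneg_right ?_ (sn_nonneg _ _)
    have := hE0 r
    linarith
  · have := a7.conj_aff hD0 0
    rw [show (D : ℝ) * 0 + 0 = 0 by ring, show (D : ℝ) * 2 + 0 = 0 + 2 * D by ring] at this
    exact this
  · linarith
  · intro j hj
    have hE3 := hE0 3
    have key : sn j (dp (WP D p)) ≤ (L + 1) * s := by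
      have hLs0 : 0 ≤ L * s := mul_nonneg hL0 hs0
      interval_cases j <;> linarith
    exact key.trans (mul_le_mul_of_nonneg_right (by linarith) hs0)
  · intro r hr
    have h := w4 r (by omega)
    refine h.trans ?_
    have hq : 0 ≤ sn (r - 1) p := sn_nonneg _ _
    have hmd : md r (dp (bP D p)) ≤ M r * sn (r - 1) p := by
      rw [hMd, Finset.sum_mul]
      refine Finset.sum_le_sum fun j hj => ?_
      rw [Finset.mem_Ico] at hj
      refine (bj j (by omega)).trans ?_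
      have hcj : 0 ≤ c ^ j := by positivity
      have hCj := hC j
      rcases le_or_gt j 3 with h3 | h3
      · have u : s ≤ sn (r - 1) p := by
          rw [← hse]; exact poincare_one hp.1 hp.2.1 (by norm_num) (by omega)
        have u2 := mul_le_mul_of_nonneg_left u hC3
        have u3 := a8 j h3
        linarith only [u2, u3, mul_nonneg hcj hq, mul_nonneg hCj hq]
      · have u1 : sn j p ≤ sn (r - 1) p := poincare_one hp.1 hp.2.1 (by omega) (by omega)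
        have u2 : sn (j - 1) p ≤ sn (r - 1) p := poincare_one hp.1 hp.2.1 (by omega) (by omega)
        have u3 := a9 j (by omega)
        have u4 := mul_le_mul_of_nonneg_left u1 hcj
        have u5 := mul_le_mul_of_nonneg_left u2 hCj
        linarith only [u3, u4, u5, mul_nonneg hC3 hq]
    have hKr := hK r
    have t1 : K r * (L * s) * N * md r (dp (bP D p)) ≤ K r * N * M r * sn (r - 1) p := by
      have u1 : K r * (L * s) * N ≤ K r * 1 * N :=
        mul_le_mul_of_nonneg_right (mul_le_mul_of_nonneg_left (by linarith) hKr) hN0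
      have u2 := mul_le_mul u1 hmd (md_nonneg _ _) (by positivity)
      linarith
    have hF : (0 : ℝ) ≤ 2 * 2 ^ r * (4 * D) * (D / D ^ r) := by positivity
    have t2 : 2 * 2 ^ r * N * sn r (dp (bP D p)) ≤
        2 * 2 ^ r * (4 * D) * (D / D ^ r) * (c ^ r * sn r p + C r * sn (r - 1) p) := by
      have u1 : 2 * 2 ^ r * N * sn r (dp (bP D p)) ≤ 2 * 2 ^ r * (4 * D) * sn r (dp (bP D p)) :=
        mul_le_mul_of_nonneg_right (mul_le_mul_of_nonneg_left hN (by positivity)) (sn_nonneg _ _)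
      refine u1.trans ?_
      rw [hb, ← mul_assoc]
      exact mul_le_mul_of_nonneg_left (a9 r hr) hF
    have t3 := mul_le_mul_of_nonneg_right (microB_aux1 hc hDc hr) (sn_nonneg r p)
    have t4 : 0 ≤ (C r + (L + 1)) * sn (r - 1) p := mul_nonneg (by have := hC r; linarith) hq
    have e : sn r p / (2 * 2 ^ r) = 1 / (2 * 2 ^ r) * sn r p := by ring
    simp only [hE]
    rw [e]
    linarith only [t1, t2, t3, t4]

end Pool.Agent.P.MP_7bb7e1_gt
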