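import Pool.Agent.P.MP_7bb7e1_gt.MicroA

/-! The fixed point map. -/

namespace Pool.Agent.P.MP_7bb7e1_gt

open scoped commutatorElement
open Set

/-- displacement of the rolled up dilated map -/
noncomputable def omb (D : ℕ) (p : ℝ → ℝ) : ℝ → ℝ := per (0 + 2 * D + 1) 1 (dp (WP D p))

noncomputable def TP (D : ℕ) (ω : ℝ → ℝ) (p : ℝ → ℝ) : ℝ → ℝ :=
  fun x => omb D p (x + ω x) + ω x - omb D p 0

theorem omb_spec {D : ℕ} {e₂ : ℝ} {C : ℕ → ℝ} (h : MB D e₂ C) {p : ℝ → ℝ} (hp : Pn p)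
    (h3 : sn 3 p ≤ e₂) : ∃ k Ω : Pm, Sm (dp k) ∧ dp Ω = omb D p ∧ Sm (omb D p) ∧
      (∀ x, omb D p (x + 1) = omb D p x) ∧ (∀ r, sn r (dp k) ≤ sn r (dp (WP D p))) ∧
      (∀ r, sn r (omb D p) ≤ sn r (dp (WP D p))) ∧ bP D p = ⁅k, tr 1⁆ ∧
      (∀ x, x ≤ 0 → k x = x) ∧ ∀ x, 2 * (D : ℝ) + 1 ≤ x → k x = Ω x := by
  obtain ⟨-, -, -, -, -, -, hf, -, hs, h0, h1, -⟩ := h p hp h3
  obtain ⟨k, Ω, a1, a2, a3, a4, a5, -, a7, a8, a9⟩ := roll (M := 2 * D + 4) (δ := 1) one_pos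
    (by positivity) hf (by push_cast; linarith) hs h0 h1
  have e : dp Ω = omb D p := a9
  exact ⟨k, Ω, a1, e, e ▸ a2, per_add one_pos _ _, a3, e ▸ a4, a5, a7,
    fun x hx => a8 x (by linarith)⟩

/-- the constants of the invariant set -/
noncomputable def microT_K (C C' : ℕ → ℝ) : ℕ → ℝ
  | 0 => 6
  | r + 1 => if r < 3 then 6 else 2 * (2 ^ (r + 1) * C (r + 1) * microT_K C C' r + 3 / 2 +
      C' (r + 1) * ((r + 1) * ((1 + C r) * microT_K C C' r) + (r + 1)))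

theorem microT_K_nonneg {C C' : ℕ → ℝ} (hC : ∀ r, 0 ≤ C r) (hC' : ∀ r, 0 ≤ C' r) :
    ∀ r, 0 ≤ microT_K C C' r
  | 0 => by norm_num [microT_K]
  | r + 1 => by
    have := microT_K_nonneg hC hC' r
    have := hC r
    have := hC (r + 1)
    have := hC' (r + 1)
    rw [microT_K]
    split_ifs <;> positivity

/-- `t3` with `f = omb D p`, `g = ω`; take `K 3 = 6` and `K r = 2 C'' r (K (r-1) + 1)`, and use
`poincare_one` for `omb D p` and `ω`. -/
theorem TP_mapsTo {D : ℕ} {e₂ : ℝ} {C : ℕ → ℝ} (he : 0 < e₂) (hC : ∀ r, 0 ≤ C r)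
    (h : MB D e₂ C) : ∃ (K : ℕ → ℝ) (e₀ : ℝ), (∀ r, 0 ≤ K r) ∧ 0 < e₀ ∧ K 3 * e₀ ≤ e₂ ∧
      ∀ ω, Pn ω → sn 3 ω ≤ e₀ →
        MapsTo (TP D ω) (PK fun r => K r * sn r ω) (PK fun r => K r * sn r ω) := by
  obtain ⟨C', hC', ht⟩ := t3
  have hK := microT_K_nonneg hC hC'
  have k3 : microT_K C C' 3 = 6 := by simp [microT_K]
  have c3 := hC' 3
  obtain ⟨e₀, e0, e1, e2⟩ : ∃ e₀ : ℝ, 0 < e₀ ∧ e₀ ≤ e₂ / 6 ∧ e₀ ≤ 1 / (C' 3 + 1) :=
    ⟨min (e₂ / 6) (1 / (C' 3 + 1)), by positivity, min_le_left _ _, min_le_right _ _⟩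
  rw [le_div_iff₀ (by positivity)] at e2
  refine ⟨microT_K C C', e₀, hK, e0, by rw [k3]; linarith, fun ω hω w3 p ⟨hp, hb⟩ => ?_⟩
  have p3 : sn 3 p ≤ 6 * sn 3 ω := k3 ▸ hb 3 le_rfl
  have h3 : sn 3 p ≤ e₂ := by linarith
  obtain ⟨-, -, -, -, hs, hper, -, hle, -⟩ := omb_spec h hp h3
  obtain ⟨-, -, -, -, -, -, -, -, -, -, b1, -, b3, b4⟩ := h p hp h3
  have hcomp : Sm fun x => omb D p (x + ω x) := hs.comp hω.1
  refine ⟨⟨(hcomp.add hω.1).sub (sm_const _), fun x => ?_, by simp [TP, hω.2.2]⟩, fun r hr => ?_⟩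
  · simp only [TP, hω.2.1, add_right_comm x 1, hper]
  have pw := fun j r => poincare_one (j := j) (r := r) hω.1 hω.2.1
  have pf := fun j r => poincare_one (j := j) (r := r) hs hper
  have w0 : e₀ ≤ 1 := by nlinarith
  have w1 : sn 1 ω ≤ 1 := by linarith [pw 1 3 le_rfl (by norm_num)]
  have w2 : sn 2 ω ≤ sn 3 ω := pw 2 3 (by norm_num) (by norm_num)
  have f1 : sn 1 (omb D p) ≤ 1 / 2 := (hle 1).trans b1
  have f3 : sn 3 (omb D p) ≤ sn 3 p / 32 := (hle 3).trans b3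
  have f2 : sn 2 (omb D p) ≤ 6 * sn 3 ω / 32 := by
    linarith [pf 2 3 (by norm_num) (by norm_num)]
  obtain ⟨r, rfl⟩ : ∃ r', r = r' + 1 := ⟨r - 1, by omega⟩
  have k := ht (r + 1) (by omega) _ _ hs hω.1 w1 (by linarith)
  have e : sn (r + 1) (TP D ω p) = sn (r + 1) fun x => omb D p (x + ω x) + ω x :=
    sn_add_const r (fun x => omb D p (x + ω x) + ω x) (-omb D p 0)
  rw [e]
  refine (sn_add_le hcomp hω.1 _).trans ((add_le_add k le_rfl).trans ?_)
  have n1 := sn_nonneg (r + 1) ω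
  have n2 := sn_nonneg 2 ω
  have n3 := sn_nonneg 2 (omb D p)
  have k1 : sn (r + 1) (omb D p) * (1 + sn 1 ω) ^ (r + 1) ≤ sn (r + 1) (omb D p) * 2 ^ (r + 1) :=
    mul_le_mul_of_nonneg_left (pow_le_pow_left₀ (by linarith [sn_nonneg 1 ω]) (by linarith) _)
      (sn_nonneg _ _)
  have k2 := mul_le_mul_of_nonneg_right f1 n1
  rcases (show r = 2 ∨ 3 ≤ r by omega) with rfl | h3r
  · rw [md_succ le_rfl, md_succ le_rfl, md_two, md_two, zero_add, zero_add]
    simp only [Nat.reduceAdd, k3] at k1 k2 n1 ⊢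
    have k4 : sn 2 (omb D p) * sn 2 ω ≤ 6 * sn 3 ω / 32 * e₀ :=
      mul_le_mul f2 (by linarith) n2 (by positivity)
    have k5 := mul_le_mul_of_nonneg_left k4 c3
    have k6 := mul_le_mul_of_nonneg_left (by linarith : C' 3 * e₀ ≤ 1) n1
    linarith
  · have wr : sn r ω ≤ sn (r + 1) ω := pw _ _ (by omega) (by omega)
    have pr : sn r p ≤ microT_K C C' r * sn (r + 1) ω :=
      (hb r h3r).trans (mul_le_mul_of_nonneg_left wr (hK r))
    have fr : sn r (omb D p) ≤ (1 + C r) * sn r p := by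
      have n4 := sn_nonneg r p
      have n5 := mul_nonneg (hC r) n4
      rcases h3r.eq_or_lt with rfl | h4
      · linarith
      · have k7 := mul_le_mul_of_nonneg_left
          (poincare_one hp.1 hp.2.1 (by omega : 1 ≤ r - 1) (Nat.sub_le r 1)) (hC r)
        have k8 : sn r p / (2 * 2 ^ r) ≤ sn r p :=
          div_le_self n4 (by linarith [one_le_pow₀ (n := r) (one_le_two (α := ℝ))])
        linarith [hle r, b4 r h4]
    have m1 : md (r + 1) (omb D p) ≤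
        ((r + 1 : ℕ) : ℝ) * ((1 + C r) * (microT_K C C' r * sn (r + 1) ω)) :=
      md_le_of_sn_le (mul_nonneg (by linarith [hC r]) (mul_nonneg (hK r) n1)) fun j h1 h2 =>
        (pf j r (by omega) (by omega)).trans (fr.trans
          (mul_le_mul_of_nonneg_left pr (by linarith [hC r])))
    have m2 : md (r + 1) ω ≤ ((r + 1 : ℕ) : ℝ) * sn (r + 1) ω :=
      md_le_of_sn_le n1 fun j h1 h2 => pw j _ (by omega) h2.le
    have m3 := mul_le_mul_of_nonneg_left (add_le_add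
      (mul_le_mul m1 (by linarith : sn 2 ω ≤ 1) n2 ((md_nonneg _ _).trans m1))
      (mul_le_mul (by linarith : sn 2 (omb D p) ≤ 1) m2 (md_nonneg _ _) zero_le_one)) (hC' (r + 1))
    have q : (0 : ℝ) < 2 ^ (r + 1) := by positivity
    have m4 : sn (r + 1) (omb D p) * 2 ^ (r + 1) ≤ microT_K C C' (r + 1) * sn (r + 1) ω / 2 +
        2 ^ (r + 1) * C (r + 1) * (microT_K C C' r * sn (r + 1) ω) := by
      have k7 := mul_le_mul_of_nonneg_right ((hle _).trans (b4 (r + 1) (by omega))) q.le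
      have k8 := mul_le_mul_of_nonneg_left pr (mul_nonneg q.le (hC (r + 1)))
      have k9 : sn (r + 1) p / (2 * 2 ^ (r + 1)) * 2 ^ (r + 1) = sn (r + 1) p / 2 := by field_simp
      rw [add_mul, k9, Nat.add_sub_cancel] at k7
      linarith [hb (r + 1) hr]
    have e' : microT_K C C' (r + 1) * sn (r + 1) ω = 2 * (2 ^ (r + 1) * C (r + 1) * microT_K C C' r +
        3 / 2 + C' (r + 1) * ((r + 1) * ((1 + C r) * microT_K C C' r) + (r + 1))) *
        sn (r + 1) ω := by rw [microT_K, if_neg h3r.not_gt]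
    push_cast at m3
    linarith

/-- uniform closeness -/
def Cl (d : ℝ) (e e' : Pm) : Prop := ∀ x, |e x - e' x| ≤ d

def Lip (L : ℝ) (e : Pm) : Prop := ∀ x y, |e x - e y| ≤ L * |x - y|

theorem Cl.mul {d d' L : ℝ} {e e' f f' : Pm} (h : Cl d e e') (h' : Cl d' f f') (hL : 0 ≤ L)
    (hl : Lip L e') : Cl (d + L * d') (e * f) (e' * f') := by
  intro x
  simp only [Equiv.Perm.mul_apply]
  have h1 := h (f x)
  have h2 := hl (f x) (f' x)
  have h3 := mul_le_mul_of_nonneg_left (h' x) hL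
  have h4 := abs_sub_le (e (f x)) (e' (f x)) (e' (f' x))
  linarith

theorem Cl.inv {d L : ℝ} {e e' : Pm} (h : Cl d e e') (hL : 0 ≤ L) (hl : Lip L e'⁻¹) :
    Cl (L * d) e⁻¹ e'⁻¹ := by
  intro x
  have h1 := hl (e' (e⁻¹ x)) (e (e⁻¹ x))
  have h2 := h (e⁻¹ x)
  rw [abs_sub_comm] at h2
  have e1 : e'⁻¹ (e' (e⁻¹ x)) = e⁻¹ x := e'.symm_apply_apply _
  have e2 : e'⁻¹ (e (e⁻¹ x)) = e'⁻¹ x := congrArg _ (e.apply_symm_apply x)
  rw [e1, e2] at h1
  exact h1.trans (mul_le_mul_of_nonneg_left h2 hL)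

theorem lip_of_sn {e : Pm} (he : Sm (dp e)) : Lip (1 + sn 1 (dp e)) e := by
  intro x y
  have h1 := abs_sub_le_sn he x y
  have h2 : e x - e y = (x - y) + (dp e x - dp e y) := by simp only [dp]; ring
  rw [h2, add_mul, one_mul]
  exact (abs_add_le _ _).trans (by linarith)

theorem microT_lip_mono {L L' : ℝ} {e : Pm} (h : Lip L e) (hL : L ≤ L') : Lip L' e :=
  fun x y => (h x y).trans (mul_le_mul_of_nonneg_right hL (abs_nonneg _))

theorem microT_lip_tr {L : ℝ} {e : Pm} (h : Lip L e) (c : ℝ) : Lip L (e * tr c) := by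
  intro x y
  have := h (x + c) (y + c)
  rwa [add_sub_add_right_eq_sub] at this

theorem microT_cl_right {d : ℝ} {e e' : Pm} (h : Cl d e e') (f : Pm) : Cl d (e * f) (e' * f) :=
  fun x => h (f x)

theorem microT_cl_left {d L : ℝ} {e f f' : Pm} (h : Cl d f f') (hL : 0 ≤ L) (hl : Lip L e) :
    Cl (L * d) (e * f) (e * f') :=
  fun x => (hl (f x) (f' x)).trans (mul_le_mul_of_nonneg_left (h x) hL)

theorem microT_cl_pow {d : ℝ} {g g' : Pm} (h : Cl d g g') (hl : Lip 2 g') (j : ℕ) :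
    Cl ((2 ^ j - 1) * d) (g ^ j) (g' ^ j) := by
  induction j with
  | zero => intro x; simp
  | succ j ih =>
    have := h.mul ih (by norm_num) hl
    rw [pow_succ' g, pow_succ' g', show ((2 : ℝ) ^ (j + 1) - 1) * d = d + 2 * ((2 ^ j - 1) * d) by
      ring]
    exact this

theorem microT_lip_aff {l : ℝ} (hl : 0 < l) : Lip l (aff l 0) := by
  intro x y
  rw [aff_apply hl.ne', aff_apply hl.ne', add_zero, add_zero, ← mul_sub, abs_mul, abs_of_pos hl]

theorem microT_cl_WP {D : ℕ} {e₂ : ℝ} {C : ℕ → ℝ} (hD : 2 ≤ D) (h : MB D e₂ C) {p p' : ℝ → ℝ}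
    (hp : Pn p) (h3 : sn 3 p ≤ e₂) (hp' : Pn p') (h3' : sn 3 p' ≤ e₂) {d : ℝ}
    (hd : ∀ x, |p x - p' x| ≤ d) :
    Cl ((2 ^ (2 * D + 4) - 1) * (D * (d + 3 / 2 * (2 * d)))) (WP D p) (WP D p') := by
  obtain ⟨k1, -⟩ := h p hp h3
  obtain ⟨k1', k2', k3', -, -, b1', -, b3', -⟩ := h p' hp' h3'
  have hk : Cl d (kap p) (kap p') := by
    intro x
    rw [apply_eq_add_dp (kap p), apply_eq_add_dp (kap p'), k1, k1', add_sub_add_left_eq_sub,
      ← mul_sub, abs_mul]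
    have h1 := abs_chi_le x
    have h2 := hd x
    have h4 := abs_nonneg (p x - p' x)
    nlinarith
  have l1 : Lip (3 / 2) (kap p') := microT_lip_mono (lip_of_sn k2') (by linarith)
  have l2 : Lip 2 (kap p')⁻¹ := by
    have := sn_inv_one k2' k3'
    exact microT_lip_mono (lip_of_sn (sm_inv_small k2' k3')) (by linarith)
  have ha : Cl (d + 3 / 2 * (2 * d)) (aP p) (aP p') := by
    unfold aP
    rw [commutatorElement_def, commutatorElement_def]
    exact microT_cl_right ((microT_cl_right hk (tr 1)).mul (hk.inv (by norm_num) l2)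
      (by norm_num) (microT_lip_tr l1 1)) _
  have hD' : (0 : ℝ) < D := by exact_mod_cast (by omega : 0 < D)
  have hb : Cl (D * (d + 3 / 2 * (2 * d))) (bP D p) (bP D p') :=
    microT_cl_right (microT_cl_left ha hD'.le (microT_lip_aff hD')) _
  have l3 : Lip 2 (bP D p') := microT_lip_mono (lip_of_sn b1') (by linarith)
  exact microT_cl_right (microT_cl_pow (microT_cl_right hb (tr 1)) (microT_lip_tr l3 1) _) _

theorem TP_lip {D : ℕ} {e₂ : ℝ} {C : ℕ → ℝ} (hD : 2 ≤ D) (h : MB D e₂ C) : ∃ L : ℝ, ∀ ω p p',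
    Pn p → sn 3 p ≤ e₂ → Pn p' → sn 3 p' ≤ e₂ → ∀ d : ℝ, (∀ x, |p x - p' x| ≤ d) →
      ∀ x, |TP D ω p x - TP D ω p' x| ≤ L * d := by
  refine ⟨2 * ((2 ^ (2 * D + 4) - 1) * (D * 4)), fun ω p p' hp h3 hp' h3' d hd x => ?_⟩
  have hW := microT_cl_WP hD h hp h3 hp' h3' hd
  have ho : ∀ y, |omb D p y - omb D p' y| ≤
      (2 ^ (2 * D + 4) - 1) * (D * (d + 3 / 2 * (2 * d))) := by
    intro y
    simp only [omb, per, dp]
    rw [sub_sub_sub_cancel_right]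
    exact hW _
  have h1 := ho (x + ω x)
  have h2 := ho 0
  have h4 : TP D ω p x - TP D ω p' x =
      (omb D p (x + ω x) - omb D p' (x + ω x)) - (omb D p 0 - omb D p' 0) := by
    simp only [TP]; ring
  rw [h4]
  refine (abs_sub _ _).trans ?_
  linarith

end Pool.Agent.P.MP_7bb7e1_gt
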