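import Pool.Agent.P.MP_7bb7e1_gt.Tri

/-! Extension of a local homomorphic section. -/

namespace Pool.Agent.P.MP_7bb7e1_gt

/-- a function that is constant at a uniform scale on `[0, 1]` has equal end values -/
theorem mono_const {G : Type*} (g : ℝ → G) {η : ℝ} (hη : 0 < η)
    (h : ∀ t t', 0 ≤ t → t ≤ 1 → 0 ≤ t' → t' ≤ 1 → |t - t'| < η → g t' = g t) : g 1 = g 0 := by
  obtain ⟨N, hN⟩ := exists_nat_one_div_lt hη
  have hp : (0 : ℝ) < (N : ℝ) + 1 := by positivity
  have key : ∀ k : ℕ, k ≤ N + 1 → g ((k : ℝ) / (N + 1)) = g 0 := by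
    intro k
    induction k with
    | zero => intro _; simp
    | succ k ih =>
      intro hk
      rw [← ih (by omega)]
      have hk' : ((k : ℝ) + 1) ≤ (N : ℝ) + 1 := by exact_mod_cast hk
      apply h
      · positivity
      · rw [div_le_one hp]; linarith
      · positivity
      · rw [div_le_one hp]; push_cast; linarith
      · have : (k : ℝ) / (N + 1) - ((k + 1 : ℕ) : ℝ) / (N + 1) = -(1 / ((N : ℝ) + 1)) := by
          push_cast; field_simp; ring
        rw [this, abs_neg, abs_of_pos (by positivity)]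
        exact hN
  have := key (N + 1) le_rfl
  rwa [Nat.cast_add, Nat.cast_one, div_self hp.ne'] at this

theorem mono_smul_mem {p : ℝ × ℝ} (hp : p ∈ Tri) {t : ℝ} (h0 : 0 ≤ t) (h1 : t ≤ 1) :
    t • p ∈ Tri := by
  obtain ⟨a, b, c⟩ := hp
  refine ⟨?_, ?_, ?_⟩
  · simp only [Prod.smul_snd, smul_eq_mul]; positivity
  · simp only [Prod.smul_snd, Prod.smul_fst, smul_eq_mul]
    exact mul_le_mul_of_nonneg_left b h0
  · simp only [Prod.smul_fst, smul_eq_mul]
    nlinarith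

theorem mono_norm_le {p : ℝ × ℝ} (hp : p ∈ Tri) : ‖p‖ ≤ 1 := by
  obtain ⟨a, b, c⟩ := hp
  rw [Prod.norm_def, max_le_iff, Real.norm_eq_abs, Real.norm_eq_abs, abs_le, abs_le]
  refine ⟨⟨?_, ?_⟩, ?_, ?_⟩ <;> linarith

/-- the product of the first `k` increments along the ray to `p` -/
noncomputable def monoH {E : Type*} [Group E] (τ : ℝ × ℝ → ℝ × ℝ → E) (d : ℝ) (p : ℝ × ℝ) :
    ℕ → E
  | 0 => 1
  | k + 1 => τ (((k : ℝ) * d) • p) ((((k + 1 : ℕ) : ℝ) * d) • p) * monoH τ d p k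

/-- a local multiplicative kernel on the triangle has a potential -/
theorem mono_lift {E : Type*} [Group E] (τ : ℝ × ℝ → ℝ × ℝ → E) {η : ℝ} (hη : 0 < η)
    (h : ∀ p ∈ Tri, ∀ p' ∈ Tri, ∀ p'' ∈ Tri, dist p p' < η → dist p' p'' < η → dist p p'' < η →
      τ p' p'' * τ p p' = τ p p'') :
    ∃ f : ℝ × ℝ → E, f 0 = 1 ∧
      ∀ p ∈ Tri, ∀ p' ∈ Tri, dist p p' < η / 2 → f p' * (f p)⁻¹ = τ p p' := by
  obtain ⟨N, hN⟩ := exists_nat_one_div_lt (half_pos hη)
  have hp : (0 : ℝ) < (N : ℝ) + 1 := by positivity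
  set d : ℝ := 1 / ((N : ℝ) + 1) with hd
  have hd0 : 0 < d := by positivity
  have z : (0 : ℝ × ℝ) ∈ Tri := ⟨le_rfl, le_rfl, zero_le_one⟩
  have t0 : τ 0 0 = 1 := by
    have := h 0 z 0 z 0 z (by simpa using hη) (by simpa using hη) (by simpa using hη)
    exact mul_eq_left.1 this
  have hk : ∀ k : ℕ, k ≤ N + 1 → 0 ≤ (k : ℝ) * d ∧ (k : ℝ) * d ≤ 1 := by
    intro k hk
    have hk' : (k : ℝ) ≤ (N : ℝ) + 1 := by exact_mod_cast hk
    refine ⟨by positivity, ?_⟩
    rw [hd, mul_one_div, div_le_one hp]; exact hk'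
  have step : ∀ p ∈ Tri, ∀ k : ℕ,
      dist (((k : ℝ) * d) • p) ((((k + 1 : ℕ) : ℝ) * d) • p) < η / 2 := by
    intro p hp' k
    rw [dist_eq_norm, ← sub_smul, norm_smul]
    have : (k : ℝ) * d - ((k + 1 : ℕ) : ℝ) * d = -d := by push_cast; ring
    rw [this, norm_neg, Real.norm_eq_abs, abs_of_pos hd0]
    have := mono_norm_le hp'
    nlinarith
  have side : ∀ p p' : ℝ × ℝ, dist p p' < η / 2 → ∀ t : ℝ, 0 ≤ t → t ≤ 1 →
      dist (t • p) (t • p') < η / 2 := by
    intro p p' hpp t h0 h1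
    rw [dist_smul₀, Real.norm_eq_abs, abs_of_nonneg h0]
    have := dist_nonneg (x := p) (y := p')
    nlinarith
  refine ⟨fun p => monoH τ d p (N + 1), ?_, fun p hp' p' hp'' hpp => ?_⟩
  · have : ∀ k, monoH τ d 0 k = 1 := by
      intro k
      induction k with
      | zero => rfl
      | succ k ih => simp [monoH, ih, t0]
    exact this _
  · have key : ∀ k : ℕ, k ≤ N + 1 →
        monoH τ d p' k * (monoH τ d p k)⁻¹ = τ (((k : ℝ) * d) • p) (((k : ℝ) * d) • p') := by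
      intro k
      induction k with
      | zero => intro _; simp [monoH, t0]
      | succ k ih =>
        intro hk1
        have ih' := ih (by omega)
        obtain ⟨a0, a1⟩ := hk k (by omega)
        obtain ⟨b0, b1⟩ := hk (k + 1) hk1
        have m1 := mono_smul_mem hp' a0 a1
        have m2 := mono_smul_mem hp'' a0 a1
        have m3 := mono_smul_mem hp' b0 b1
        have m4 := mono_smul_mem hp'' b0 b1
        have d1 := step p hp' k
        have d2 := step p' hp'' k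
        have d3 := side p p' hpp _ a0 a1
        have d4 := side p p' hpp _ b0 b1
        have d5 := dist_triangle (((k : ℝ) * d) • p) (((k : ℝ) * d) • p')
          ((((k + 1 : ℕ) : ℝ) * d) • p')
        have e1 := h _ m1 _ m2 _ m4 (by linarith) (by linarith) (by linarith)
        have e2 := h _ m1 _ m3 _ m4 (by linarith) (by linarith) (by linarith)
        simp only [monoH]
        rw [mul_inv_rev, ← mul_assoc, mul_assoc _ (monoH τ d p' k), ih', e1, ← e2]
        group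
    have := key (N + 1) le_rfl
    have e : ((N + 1 : ℕ) : ℝ) * d = 1 := by
      rw [hd]; push_cast; field_simp
    rwa [e, one_smul, one_smul] at this

/-- Call `f : X → E` a lift of `Γ : X → V` if `f p' * (f p)⁻¹ = σ (Γ p' * (Γ p)⁻¹)` for close
points. Lifts along a segment with the same initial value agree (subdivide). On the triangle a
lift with value `1` at the origin is obtained by subdividing the segment from the origin into `N`
equal parts (ladder argument). Define `s v` as the end point of the lift of `γ v`; the three edges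
of the triangle give `s (v * w) = s v * s w`. -/
theorem mono_ext {V E : Type*} [Group V] [Group E] (q : E →* V) (U : Set V) (σ : V → E)
    (hq : ∀ u ∈ U, q (σ u) = u)
    (hσ : ∀ u ∈ U, ∀ u' ∈ U, u * u' ∈ U → σ (u * u') = σ u * σ u')
    (γ : V → ℝ → V) (γ0 : ∀ v, γ v 0 = 1) (γ1 : ∀ v, γ v 1 = v)
    (tri : ∀ v w, ∃ Γ : ℝ × ℝ → V, (∀ s, 0 ≤ s → s ≤ 1 → Γ (s, 0) = γ w s) ∧
      (∀ s, 0 ≤ s → s ≤ 1 → Γ (1, s) = γ v s * w) ∧
      (∀ s, 0 ≤ s → s ≤ 1 → Γ (s, s) = γ (v * w) s) ∧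
      ∃ η : ℝ, 0 < η ∧ ∀ p ∈ Tri, ∀ p' ∈ Tri, dist p p' < η → Γ p' * (Γ p)⁻¹ ∈ U) :
    ∃ s : V →* E, ∀ v, q (s v) = v := by
  -- lifts on a triangle
  have lift : ∀ Γ : ℝ × ℝ → V, (∃ η : ℝ, 0 < η ∧ ∀ p ∈ Tri, ∀ p' ∈ Tri, dist p p' < η →
      Γ p' * (Γ p)⁻¹ ∈ U) → ∃ f : ℝ × ℝ → E, f 0 = 1 ∧ ∃ η : ℝ, 0 < η ∧
      ∀ p ∈ Tri, ∀ p' ∈ Tri, dist p p' < η →
        Γ p' * (Γ p)⁻¹ ∈ U ∧ f p' * (f p)⁻¹ = σ (Γ p' * (Γ p)⁻¹) := by
    rintro Γ ⟨η, hη, hU⟩
    obtain ⟨f, f0, hf⟩ := mono_lift (fun p p' => σ (Γ p' * (Γ p)⁻¹)) hη (by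
      intro p hp p' hp' p'' hp'' d1 d2 d3
      have e : Γ p'' * (Γ p')⁻¹ * (Γ p' * (Γ p)⁻¹) = Γ p'' * (Γ p)⁻¹ := by group
      have := hσ _ (hU p' hp' p'' hp'' d2) _ (hU p hp p' hp' d1) (e ▸ hU p hp p'' hp'' d3)
      rw [← this, e])
    exact ⟨f, f0, η / 2, half_pos hη, fun p hp p' hp' d =>
      ⟨hU p hp p' hp' (by linarith), hf p hp p' hp' d⟩⟩
  -- lifts of the chosen paths
  let L : V → (ℝ → E) → Prop := fun v g => g 0 = 1 ∧ ∃ η : ℝ, 0 < η ∧
    ∀ t t', 0 ≤ t → t ≤ 1 → 0 ≤ t' → t' ≤ 1 → |t - t'| < η →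
      γ v t' * (γ v t)⁻¹ ∈ U ∧ g t' * (g t)⁻¹ = σ (γ v t' * (γ v t)⁻¹)
  have uniq : ∀ v g g', L v g → L v g' → g 1 = g' 1 := by
    rintro v g g' ⟨g0, η, hη, hg⟩ ⟨g0', η', hη', hg'⟩
    have := mono_const (fun t => (g' t)⁻¹ * g t) (lt_min hη hη') (by
      intro t t' a b c d e
      have e1 := (hg t t' a b c d (e.trans_le (min_le_left _ _))).2
      have e2 := (hg' t t' a b c d (e.trans_le (min_le_right _ _))).2
      rw [← e2] at e1
      calc (g' t')⁻¹ * g t' = (g' t')⁻¹ * (g t' * (g t)⁻¹) * g t := by group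
        _ = (g' t)⁻¹ * g t := by rw [e1]; group)
    simp only [g0, g0', inv_one, mul_one] at this
    exact (inv_mul_eq_one.1 this).symm
  have three : ∀ v w, ∃ f : ℝ × ℝ → E, L w (fun t => f (t, 0)) ∧
      L v (fun t => f (1, t) * (f (1, 0))⁻¹) ∧ L (v * w) (fun t => f (t, t)) := by
    intro v w
    obtain ⟨Γ, e1, e2, e3, hU⟩ := tri v w
    obtain ⟨f, f0, η, hη, hf⟩ := lift Γ hU
    refine ⟨f, ⟨f0, η, hη, fun t t' a b c d e => ?_⟩, ⟨by simp, η, hη, fun t t' a b c d e => ?_⟩,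
      ⟨f0, η, hη, fun t t' a b c d e => ?_⟩⟩
    · have := hf (t, 0) ⟨le_rfl, a, b⟩ (t', 0) ⟨le_rfl, c, d⟩ (by
        simpa [Prod.dist_eq, Real.dist_eq] using e)
      rwa [e1 t a b, e1 t' c d] at this
    · have := hf (1, t) ⟨a, b, le_rfl⟩ (1, t') ⟨c, d, le_rfl⟩ (by
        simpa [Prod.dist_eq, Real.dist_eq] using e)
      rw [e2 t a b, e2 t' c d] at this
      have e4 : γ v t' * w * (γ v t * w)⁻¹ = γ v t' * (γ v t)⁻¹ := by group
      rw [e4] at this
      refine ⟨this.1, ?_⟩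
      rw [← this.2]; group
    · have := hf (t, t) ⟨a, le_rfl, b⟩ (t', t') ⟨c, le_rfl, d⟩ (by
        simpa [Prod.dist_eq, Real.dist_eq] using e)
      rwa [e3 t a b, e3 t' c d] at this
  have ex : ∀ v, ∃ g, L v g := fun v => by
    obtain ⟨f, h1, -, -⟩ := three 1 v
    exact ⟨fun t => f (t, 0), h1⟩
  choose g hg using ex
  refine ⟨MonoidHom.mk' (fun v => g v 1) fun v w => ?_, fun v => ?_⟩
  · obtain ⟨f, h1, h2, h3⟩ := three v w
    have a1 : g w 1 = f (1, 0) := uniq w (g w) (fun t => f (t, 0)) (hg w) h1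
    have a2 : g v 1 = f (1, 1) * (f (1, 0))⁻¹ :=
      uniq v (g v) (fun t => f (1, t) * (f (1, 0))⁻¹) (hg v) h2
    have a3 : g (v * w) 1 = f (1, 1) := uniq (v * w) (g (v * w)) (fun t => f (t, t)) (hg (v * w)) h3
    rw [a1, a2, a3]
    group
  · obtain ⟨g0, η, hη, h⟩ := hg v
    have := mono_const (fun t => (γ v t)⁻¹ * q (g v t)) hη (by
      intro t t' a b c d e
      obtain ⟨e1, e2⟩ := h t t' a b c d e
      have e3 := congrArg q e2
      rw [hq _ e1, map_mul, map_inv] at e3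
      calc (γ v t')⁻¹ * q (g v t') = (γ v t')⁻¹ * (q (g v t') * (q (g v t))⁻¹) * q (g v t) := by
            group
        _ = (γ v t)⁻¹ * q (g v t) := by rw [e3]; group)
    simp only [g0, γ0, γ1, map_one, inv_one, mul_one] at this
    exact (inv_mul_eq_one.1 this).symm

/-- a locally additive map on an interval extends: `φ t = N • a (t / N)` for large `N` -/
theorem exists_additive {A : Type*} [AddCommGroup A] (a : ℝ → A) {e : ℝ} (he : 0 < e)
    (h : ∀ t t', |t| ≤ e → |t'| ≤ e → |t + t'| ≤ e → a (t + t') = a t + a t') :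
    ∃ φ : ℝ →+ A, ∀ t, |t| ≤ e → φ t = a t := by
  have a0 : a 0 = 0 := by
    have := h 0 0 (by simpa using he.le) (by simpa using he.le) (by simpa using he.le)
    simpa using this
  have mul : ∀ (k : ℕ) (u : ℝ), |(k : ℝ) * u| ≤ e → a (k * u) = k • a u := by
    intro k u
    induction k with
    | zero => intro _; simp [a0]
    | succ k ih =>
      intro hk
      have hk' : ((k : ℝ) + 1) * |u| ≤ e := by
        rw [abs_mul, Nat.abs_cast] at hk; push_cast at hk; exact hk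
      have hu := abs_nonneg u
      have hk0 : (0 : ℝ) ≤ k := Nat.cast_nonneg k
      have h1 : |(k : ℝ) * u| ≤ e := by rw [abs_mul, Nat.abs_cast]; nlinarith
      have h2 : |u| ≤ e := by nlinarith
      have e1 : ((k + 1 : ℕ) : ℝ) * u = k * u + u := by push_cast; ring
      rw [e1] at hk ⊢
      rw [h _ _ h1 h2 hk, ih h1, succ_nsmul]
  have ind : ∀ (t : ℝ) (N M : ℕ), 0 < N → 0 < M → |t / N| ≤ e → |t / M| ≤ e →
      N • a (t / N) = M • a (t / M) := by
    intro t N M hN hM h1 h2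
    have hN' : (N : ℝ) ≠ 0 := by positivity
    have hM' : (M : ℝ) ≠ 0 := by positivity
    have e1 : t / N = M * (t / (N * M)) := by field_simp
    have e2 : t / M = N * (t / (N * M)) := by field_simp
    rw [e1] at h1 ⊢
    rw [e2] at h2
    rw [mul _ _ h1]
    conv_rhs => rw [e2, mul _ _ h2]
    rw [smul_comm]
  have big : ∀ (t : ℝ) (N : ℕ), ⌈|t| / e⌉₊ + 1 ≤ N → |t / N| ≤ e := by
    intro t N hN
    have hN0 : (0 : ℝ) < N := by exact_mod_cast (by omega : 0 < N)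
    have h1 : |t| / e ≤ N := (Nat.le_ceil _).trans (by exact_mod_cast (by omega))
    rw [abs_div, Nat.abs_cast, div_le_iff₀ hN0]
    rw [div_le_iff₀ he] at h1
    linarith
  let n : ℝ → ℕ := fun t => ⌈|t| / e⌉₊ + 1
  have val : ∀ (t : ℝ) (N : ℕ), n t ≤ N → n t • a (t / n t) = N • a (t / N) := fun t N hN =>
    ind t _ _ (Nat.succ_pos _) (lt_of_lt_of_le (Nat.succ_pos _) hN) (big t _ le_rfl) (big t _ hN)
  refine ⟨AddMonoidHom.mk' (fun t => n t • a (t / n t)) fun t t' => ?_, fun t ht => ?_⟩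
  · have h1 : n t ≤ n t + n t' + n (t + t') := by omega
    have h2 : n t' ≤ n t + n t' + n (t + t') := by omega
    have h3 : n (t + t') ≤ n t + n t' + n (t + t') := by omega
    rw [val _ _ h1, val _ _ h2, val _ _ h3, ← nsmul_add, ← h _ _ (big _ _ h1) (big _ _ h2)
      (by rw [← add_div]; exact big _ _ h3), add_div]
  · have := ind t (n t) 1 (Nat.succ_pos _) one_pos (big t _ le_rfl) (by simpa using ht)
    simpa using this

end Pool.Agent.P.MP_7bb7e1_gt
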