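import Pool.Agent.P.MP_7bb7e1_gt.Basic

/-! Sup norms of derivatives: elementary facts. -/

namespace Pool.Agent.P.MP_7bb7e1_gt

open scoped ContDiff Topology
open Filter Set

variable {f g : ℝ → ℝ} {a b : ℝ}

theorem Sm.contDiff (hf : Sm f) : ContDiff ℝ ∞ f := hf.1

theorem Sm.differentiable (hf : Sm f) : Differentiable ℝ f := hf.1.differentiable (by simp)

theorem Sm.continuous (hf : Sm f) : Continuous f := hf.1.continuous

theorem sn_nonneg (r : ℕ) (f : ℝ → ℝ) : 0 ≤ sn r f :=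
  Real.iSup_nonneg fun _ => abs_nonneg _

theorem le_sn (hf : Sm f) (r : ℕ) (x : ℝ) : |iteratedDeriv r f x| ≤ sn r f := by
  obtain ⟨C, hC⟩ := hf.2 r
  exact le_ciSup (f := fun x => |iteratedDeriv r f x|) ⟨C, by rintro _ ⟨y, rfl⟩; exact hC y⟩ x

theorem sn_le {r : ℕ} {A : ℝ} (h : ∀ x, |iteratedDeriv r f x| ≤ A) : sn r f ≤ A :=
  ciSup_le h

theorem abs_le_sn_zero (hf : Sm f) (x : ℝ) : |f x| ≤ sn 0 f := by
  simpa using le_sn hf 0 x

theorem abs_deriv_le_sn_one (hf : Sm f) (x : ℝ) : |deriv f x| ≤ sn 1 f := by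
  simpa using le_sn hf 1 x

theorem sn_deriv (r : ℕ) (f : ℝ → ℝ) : sn r (deriv f) = sn (r + 1) f := by
  rw [sn, sn, iteratedDeriv_succ']

theorem norm_aux_iter (r k : ℕ) (f : ℝ → ℝ) :
    iteratedDeriv r (iteratedDeriv k f) = iteratedDeriv (r + k) f := by
  rw [iteratedDeriv_eq_iterate, iteratedDeriv_eq_iterate, iteratedDeriv_eq_iterate,
    Function.iterate_add_apply]

theorem norm_aux_cd (hf : Sm f) (r : ℕ) : ContDiff ℝ r f := hf.1.of_le (by exact_mod_cast le_top)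

theorem norm_aux_cda (hf : Sm f) (r : ℕ) (x : ℝ) : ContDiffAt ℝ r f x :=
  (norm_aux_cd hf r).contDiffAt

theorem sn_iteratedDeriv (r k : ℕ) (f : ℝ → ℝ) : sn r (iteratedDeriv k f) = sn (r + k) f := by
  rw [sn, sn, norm_aux_iter]

theorem Sm.deriv (hf : Sm f) : Sm (deriv f) :=
  ⟨(contDiff_infty_iff_deriv.mp hf.1).2, fun r => by
    rw [← iteratedDeriv_succ']; exact hf.2 (r + 1)⟩

theorem Sm.iteratedDeriv (hf : Sm f) (k : ℕ) : Sm (iteratedDeriv k f) := by
  induction k with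
  | zero => rwa [iteratedDeriv_zero]
  | succ k ih => rw [iteratedDeriv_succ]; exact ih.deriv

theorem sm_of_deriv (hf : Differentiable ℝ f) (h0 : ∃ C, ∀ x, |f x| ≤ C) (hd : Sm (deriv f)) :
    Sm f := by
  refine ⟨contDiff_infty_iff_deriv.mpr ⟨hf, hd.1⟩, fun r => ?_⟩
  rcases r with _ | r
  · rwa [iteratedDeriv_zero]
  · rw [iteratedDeriv_succ']; exact hd.2 r

theorem sm_const (c : ℝ) : Sm fun _ => c :=
  ⟨contDiff_const, fun r => ⟨|c|, fun x => by
    rw [iteratedDeriv_const]; split_ifs <;> simp⟩⟩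

theorem sn_const_zero (c : ℝ) : sn 0 (fun _ => c) = |c| := by
  simp [sn]

theorem sn_const_succ (r : ℕ) (c : ℝ) : sn (r + 1) (fun _ => c) = 0 := by
  simp [sn, iteratedDeriv_const]

theorem sn_zero_fun (r : ℕ) : sn r (fun _ => 0) = 0 := by
  simp [sn]

theorem norm_aux_add (hf : Sm f) (hg : Sm g) (r : ℕ) (x : ℝ) :
    |iteratedDeriv r (fun x => f x + g x) x| ≤ sn r f + sn r g := by
  rw [iteratedDeriv_fun_add (norm_aux_cda hf r x) (norm_aux_cda hg r x)]
  exact (abs_add_le _ _).trans (add_le_add (le_sn hf r x) (le_sn hg r x))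

theorem Sm.add (hf : Sm f) (hg : Sm g) : Sm fun x => f x + g x :=
  ⟨hf.1.add hg.1, fun r => ⟨_, norm_aux_add hf hg r⟩⟩

theorem Sm.neg (hf : Sm f) : Sm fun x => -f x :=
  ⟨hf.1.neg, fun r => by simpa only [iteratedDeriv_fun_neg, abs_neg] using hf.2 r⟩

theorem Sm.sub (hf : Sm f) (hg : Sm g) : Sm fun x => f x - g x := by
  simpa only [sub_eq_add_neg] using hf.add hg.neg

theorem Sm.const_mul (hf : Sm f) (c : ℝ) : Sm fun x => c * f x :=
  ⟨contDiff_const.mul hf.1, fun r => ⟨|c| * sn r f, fun x => by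
    rw [iteratedDeriv_const_mul_field, abs_mul]
    exact mul_le_mul_of_nonneg_left (le_sn hf r x) (abs_nonneg c)⟩⟩

theorem sn_add_le (hf : Sm f) (hg : Sm g) (r : ℕ) :
    sn r (fun x => f x + g x) ≤ sn r f + sn r g := sn_le (norm_aux_add hf hg r)

theorem sn_neg (r : ℕ) (f : ℝ → ℝ) : sn r (fun x => -f x) = sn r f := by
  simp only [sn, iteratedDeriv_fun_neg, abs_neg]

theorem sn_sub_le (hf : Sm f) (hg : Sm g) (r : ℕ) :
    sn r (fun x => f x - g x) ≤ sn r f + sn r g := by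
  simpa only [sub_eq_add_neg, sn_neg] using sn_add_le hf hg.neg r

theorem sn_const_mul (hf : Sm f) (r : ℕ) (c : ℝ) : sn r (fun x => c * f x) = |c| * sn r f := by
  have _ := hf
  simp only [sn, iteratedDeriv_const_mul_field, abs_mul]
  exact (Real.mul_iSup_of_nonneg (abs_nonneg c) _).symm

theorem sn_add_const (r : ℕ) (f : ℝ → ℝ) (c : ℝ) :
    sn (r + 1) (fun x => f x + c) = sn (r + 1) f := by
  simp only [sn, add_comm _ c, iteratedDeriv_const_add (Nat.succ_pos r)]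

theorem norm_aux_mul (hf : Sm f) (hg : Sm g) (r : ℕ) (x : ℝ) :
    |iteratedDeriv r (fun x => f x * g x) x| ≤
      ∑ j ∈ Finset.range (r + 1), (r.choose j : ℝ) * (sn j f * sn (r - j) g) := by
  rw [iteratedDeriv_fun_mul (norm_aux_cda hf r x) (norm_aux_cda hg r x)]
  refine (Finset.abs_sum_le_sum_abs _ _).trans (Finset.sum_le_sum fun j _ => ?_)
  rw [abs_mul, abs_mul, Nat.abs_cast, mul_assoc]
  exact mul_le_mul_of_nonneg_left
    (mul_le_mul (le_sn hf j x) (le_sn hg _ x) (abs_nonneg _) (sn_nonneg _ _)) (Nat.cast_nonneg _)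

/-- Leibniz bound -/
theorem sn_mul_le (hf : Sm f) (hg : Sm g) (r : ℕ) : sn r (fun x => f x * g x) ≤
    ∑ j ∈ Finset.range (r + 1), (r.choose j : ℝ) * (sn j f * sn (r - j) g) :=
  sn_le (norm_aux_mul hf hg r)

theorem Sm.mul (hf : Sm f) (hg : Sm g) : Sm fun x => f x * g x :=
  ⟨hf.1.mul hg.1, fun r => ⟨_, norm_aux_mul hf hg r⟩⟩

theorem norm_aux_aff (hf : Sm f) (l m : ℝ) (r : ℕ) (x : ℝ) :
    iteratedDeriv r (fun x => f (l * x + m)) x = l ^ r * iteratedDeriv r f (l * x + m) := by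
  have h : ContDiff ℝ r fun z => f (z + m) :=
    (norm_aux_cd hf r).comp (contDiff_id.add contDiff_const)
  have := congrFun (iteratedDeriv_comp_const_mul h l) x
  rwa [iteratedDeriv_comp_add_const] at this

theorem Sm.comp_aff (hf : Sm f) (l m : ℝ) : Sm fun x => f (l * x + m) :=
  ⟨hf.1.comp ((contDiff_const.mul contDiff_id).add contDiff_const), fun r =>
    ⟨|l| ^ r * sn r f, fun x => by
      rw [norm_aux_aff hf, abs_mul, abs_pow]
      exact mul_le_mul_of_nonneg_left (le_sn hf r _) (by positivity)⟩⟩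

theorem sn_comp_aff (hf : Sm f) {l : ℝ} (hl : l ≠ 0) (m : ℝ) (r : ℕ) :
    sn r (fun x => f (l * x + m)) = |l| ^ r * sn r f := by
  simp only [sn, norm_aux_aff hf, abs_mul, abs_pow]
  rw [← Real.mul_iSup_of_nonneg (by positivity)]
  congr 1
  have hs : Function.Surjective fun x : ℝ => l * x + m := fun y =>
    ⟨(y - m) / l, by field_simp; ring⟩
  exact hs.iSup_comp fun y => |iteratedDeriv r f y|

theorem Sm.comp_add (hf : Sm f) (c : ℝ) : Sm fun x => f (x + c) := by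
  simpa only [one_mul] using hf.comp_aff 1 c

theorem sn_comp_add (f : ℝ → ℝ) (c : ℝ) (r : ℕ) : sn r (fun x => f (x + c)) = sn r f := by
  simp only [sn, iteratedDeriv_comp_add_const]
  exact (add_right_surjective c).iSup_comp fun y => |iteratedDeriv r f y|

theorem nm_nonneg (r : ℕ) (f : ℝ → ℝ) : 0 ≤ nm r f :=
  Finset.sum_nonneg fun j _ => sn_nonneg j f

theorem sn_le_nm {j r : ℕ} (h : j ≤ r) (f : ℝ → ℝ) : sn j f ≤ nm r f :=
  Finset.single_le_sum (f := fun j => sn j f) (fun j _ => sn_nonneg j f)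
    (Finset.mem_range.mpr (by omega))

theorem nm_mono {j r : ℕ} (h : j ≤ r) (f : ℝ → ℝ) : nm j f ≤ nm r f :=
  Finset.sum_le_sum_of_subset_of_nonneg (Finset.range_subset_range.mpr (by omega))
    fun j _ _ => sn_nonneg j f

theorem nm_le_of_sn_le {r : ℕ} {A : ℝ} (h : ∀ j, j ≤ r → sn j f ≤ A) : nm r f ≤ (r + 1) * A := by
  have := Finset.sum_le_card_nsmul (Finset.range (r + 1)) (fun j => sn j f) A
    fun j hj => h j (by simpa [Nat.lt_succ_iff] using hj)
  simpa [nm] using this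

theorem nm_zero_fun (r : ℕ) : nm r (fun _ => 0) = 0 := by
  simp [nm, sn_zero_fun]

theorem nm_succ (r : ℕ) (f : ℝ → ℝ) : nm (r + 1) f = sn 0 f + nm r (deriv f) := by
  rw [nm, Finset.sum_range_succ', add_comm, nm]
  simp only [sn_deriv]

theorem nm_add_le (hf : Sm f) (hg : Sm g) (r : ℕ) :
    nm r (fun x => f x + g x) ≤ nm r f + nm r g := by
  rw [nm, nm, nm, ← Finset.sum_add_distrib]
  exact Finset.sum_le_sum fun j _ => sn_add_le hf hg j

theorem nm_sub_le (hf : Sm f) (hg : Sm g) (r : ℕ) :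
    nm r (fun x => f x - g x) ≤ nm r f + nm r g := by
  rw [nm, nm, nm, ← Finset.sum_add_distrib]
  exact Finset.sum_le_sum fun j _ => sn_sub_le hf hg j

theorem nm_const_mul (hf : Sm f) (r : ℕ) (c : ℝ) : nm r (fun x => c * f x) = |c| * nm r f := by
  simp only [nm, sn_const_mul hf, Finset.mul_sum]

theorem sn_mul_le_nm (hf : Sm f) (hg : Sm g) (r : ℕ) :
    sn r (fun x => f x * g x) ≤ 2 ^ r * (nm r f * nm r g) := by
  refine (sn_mul_le hf hg r).trans ?_
  have e : (2 : ℝ) ^ r = ∑ j ∈ Finset.range (r + 1), (r.choose j : ℝ) := by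
    exact_mod_cast (Nat.sum_range_choose r).symm
  rw [e, Finset.sum_mul]
  refine Finset.sum_le_sum fun j hj => mul_le_mul_of_nonneg_left ?_ (Nat.cast_nonneg _)
  exact mul_le_mul (sn_le_nm (by simpa [Nat.lt_succ_iff] using hj) f) (sn_le_nm (Nat.sub_le _ _) g)
    (sn_nonneg _ _) (nm_nonneg _ _)

theorem nm_mul_le (hf : Sm f) (hg : Sm g) (r : ℕ) :
    nm r (fun x => f x * g x) ≤ (r + 1) * 2 ^ r * (nm r f * nm r g) := by
  rw [mul_assoc]
  refine nm_le_of_sn_le fun j hj => (sn_mul_le_nm hf hg j).trans ?_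
  exact mul_le_mul (pow_le_pow_right₀ one_le_two hj)
    (mul_le_mul (nm_mono hj f) (nm_mono hj g) (nm_nonneg _ _) (nm_nonneg _ _))
    (mul_nonneg (nm_nonneg _ _) (nm_nonneg _ _)) (by positivity)

theorem md_nonneg (r : ℕ) (f : ℝ → ℝ) : 0 ≤ md r f :=
  Finset.sum_nonneg fun j _ => sn_nonneg j f

theorem md_two (f : ℝ → ℝ) : md 2 f = 0 := by
  simp [md]

theorem md_succ {r : ℕ} (hr : 2 ≤ r) (f : ℝ → ℝ) : md (r + 1) f = md r f + sn r f :=
  Finset.sum_Ico_succ_top hr _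

theorem sn_le_md {j r : ℕ} (h2 : 2 ≤ j) (h : j < r) (f : ℝ → ℝ) : sn j f ≤ md r f :=
  Finset.single_le_sum (f := fun j => sn j f) (fun j _ => sn_nonneg j f)
    (Finset.mem_Ico.mpr ⟨h2, h⟩)

theorem md_le_nm (r : ℕ) (f : ℝ → ℝ) : md r f ≤ nm r f :=
  Finset.sum_le_sum_of_subset_of_nonneg
    (fun j hj => Finset.mem_range.mpr (by have := (Finset.mem_Ico.mp hj).2; omega))
    fun j _ _ => sn_nonneg j f

theorem md_le_of_sn_le {r : ℕ} {A : ℝ} (hA : 0 ≤ A) (h : ∀ j, 2 ≤ j → j < r → sn j f ≤ A) :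
    md r f ≤ r * A := by
  have := Finset.sum_le_card_nsmul (Finset.Ico 2 r) (fun j => sn j f) A
    fun j hj => h j (Finset.mem_Ico.mp hj).1 (Finset.mem_Ico.mp hj).2
  rw [Nat.card_Ico, nsmul_eq_mul] at this
  exact this.trans (mul_le_mul_of_nonneg_right (by exact_mod_cast Nat.sub_le r 2) hA)

/-- mean value inequality -/
theorem abs_sub_le_sn (hf : Sm f) (x y : ℝ) : |f x - f y| ≤ sn 1 f * |x - y| :=
  convex_univ.norm_image_sub_le_of_norm_deriv_le (fun z _ => hf.differentiable z)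
    (fun z _ => abs_deriv_le_sn_one hf z) (mem_univ y) (mem_univ x)

/-- second order Taylor bound -/
theorem taylor_two (hf : Sm f) (x t : ℝ) :
    |f (x + t) - f x - deriv f x * t| ≤ sn 2 f * t ^ 2 := by
  have hd : ∀ z, HasDerivAt (fun z => f z - deriv f x * z) (deriv f z - deriv f x) z := fun z => by
    simpa using (hf.differentiable z).hasDerivAt.fun_sub ((hasDerivAt_id' z).const_mul (deriv f x))
  have key := (convex_uIcc x (x + t)).norm_image_sub_le_of_norm_hasDerivWithin_le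
    (C := sn 2 f * |t|) (fun z _ => (hd z).hasDerivWithinAt) (fun z hz => by
      have h1 := abs_sub_le_sn hf.deriv z x
      rw [sn_deriv] at h1
      refine h1.trans (mul_le_mul_of_nonneg_left ?_ (sn_nonneg _ _))
      simpa using abs_sub_left_of_mem_uIcc hz) left_mem_uIcc right_mem_uIcc
  rw [add_sub_cancel_left, Real.norm_eq_abs, Real.norm_eq_abs, mul_assoc, abs_mul_abs_self] at key
  rw [sq]
  refine le_of_eq_of_le ?_ key
  congr 1
  ring

/-- a function that locally agrees with uniformly bounded smooth functions -/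
theorem sm_of_local {B : ℕ → ℝ}
    (h : ∀ x, ∃ g, Sm g ∧ (∀ r, sn r g ≤ B r) ∧ f =ᶠ[𝓝 x] g) :
    Sm f ∧ ∀ r, sn r f ≤ B r := by
  have hb : ∀ r x, |iteratedDeriv r f x| ≤ B r := fun r x => by
    obtain ⟨g, hg, hB, e⟩ := h x
    rw [e.iteratedDeriv_eq r]
    exact (le_sn hg r x).trans (hB r)
  refine ⟨⟨contDiff_iff_contDiffAt.mpr fun x => ?_, fun r => ⟨_, hb r⟩⟩, fun r => sn_le (hb r)⟩
  obtain ⟨g, hg, -, e⟩ := h x
  exact hg.1.contDiffAt.congr_of_eventuallyEq e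

end Pool.Agent.P.MP_7bb7e1_gt
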