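import Pool.Agent.P.MP_7bb7e1_gt.Tree3
import Pool.Agent.P.MP_7bb7e1_gt.Mono

/-! Every cocycle is a multiple of the Bott-Thurston cocycle up to a coboundary. -/

namespace Pool.Agent.P.MP_7bb7e1_gt

variable {A : Type*} [AddCommGroup A]

/-- `vs_pt`, `small_list` for `CE.pr c`, `vs_small`; `α v` is the second component of
`PhiL (CE.sec c)` of the chosen tuple for `v` -/
theorem local_section (c : Coc Gc A) : ∃ (R : ℕ) (e : ℝ) (α : Vir → A), 0 < e ∧ ∀ v w : Vir,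
    Fix (-1) 1 (v.g : Pm) → nm R (dp (v.g : Pm)) ≤ e → |v.a| ≤ e →
    Fix (-1) 1 (w.g : Pm) → nm R (dp (w.g : Pm)) ≤ e → |w.a| ≤ e →
    nm R (dp ((v * w).g : Pm)) ≤ e → |(v * w).a| ≤ e →
      α (v * w) = α v + α w + c.c v.g w.g := by
  classical
  obtain ⟨n₀, h⟩ := vs_pt
  obtain ⟨R, e, he, hs⟩ := small_list (π := CE.pr c) (s := CE.sec c) h CE.central fun _ => rfl
  obtain ⟨R', e', he', hv⟩ := vs_small h R he
  choose! X hX hP using hv
  refine ⟨R', e', fun v => (PhiL (CE.sec c) (List.ofFn (X v))).a, he',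
    fun v w v1 v2 v3 w1 w2 w3 u2 u3 => ?_⟩
  have u1 : Fix (-1) 1 ((v * w).g : Pm) := (FixS (-1) 1).mul_mem v1 w1
  have key := hs (List.ofFn (X v) ++ List.ofFn (X w) ++
    (List.ofFn (X (v * w))).reverse.map Prod.swap) (by simp; omega) (fun p hp => ?_) ?_
  · rw [PhiL_append, PhiL_append, PhiL_rev, mul_inv_eq_one] at key
    have g1 : (PhiL (CE.sec c) (List.ofFn (X v))).g = v.g := by
      rw [PhiL_g, ← PhiL_g (c := btc), hP v v1 v2 v3]
    have g2 : (PhiL (CE.sec c) (List.ofFn (X w))).g = w.g := by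
      rw [PhiL_g, ← PhiL_g (c := btc), hP w w1 w2 w3]
    beta_reduce
    rw [← key, CE.mul_a, g1, g2]
  · rcases List.mem_append.1 hp with hp | hp
    · rcases List.mem_append.1 hp with hp | hp
      · obtain ⟨k, rfl⟩ := (List.mem_ofFn' _ _).1 hp
        exact hX v v1 v2 v3 k
      · obtain ⟨k, rfl⟩ := (List.mem_ofFn' _ _).1 hp
        exact hX w w1 w2 w3 k
    · obtain ⟨p', hp', rfl⟩ := List.mem_map.1 hp
      obtain ⟨k, rfl⟩ := (List.mem_ofFn' _ _).1 (List.mem_reverse.1 hp')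
      exact (hX (v * w) u1 u2 u3 k).symm
  · rw [PhiL_append, PhiL_append, PhiL_rev, hP v v1 v2 v3, hP w w1 w2 w3, hP _ u1 u2 u3,
      mul_inv_cancel]

/-- `exists_additive` for `t ↦ α ⟨1, t⟩`, `abs_bt_le` -/
theorem local_cob (c : Coc Gc A) : ∃ (R : ℕ) (e : ℝ) (φ : ℝ →+ A) (α : Gc → A), 0 < e ∧
    ∀ g h : Gc, g ∈ GI (-1) 1 → nm R (dp (g : Pm)) ≤ e → h ∈ GI (-1) 1 →
      nm R (dp (h : Pm)) ≤ e → nm R (dp ((g * h : Gc) : Pm)) ≤ e →
        α (g * h) = α g + α h + (c.c g h - φ (bt g h)) := by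
  obtain ⟨R, e, α, he, hα⟩ := local_section c
  have f1 : Fix (-1) 1 ((1 : Gc) : Pm) := fun _ _ => rfl
  have n1 : nm R (dp ((1 : Gc) : Pm)) ≤ e := by
    rw [OneMemClass.coe_one, dp_one, nm_zero_fun]
    exact he.le
  have z0 : |(0 : ℝ)| ≤ e := by rw [abs_zero]; exact he.le
  obtain ⟨φ, hφ⟩ := exists_additive (fun t => α ⟨1, t⟩) he fun t t' h1 h2 h3 => by
    have e1 : (⟨1, t⟩ * ⟨1, t'⟩ : Vir) = ⟨1, t + t'⟩ := by
      ext1 <;> simp [bt_one_left]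
    have := hα ⟨1, t⟩ ⟨1, t'⟩ f1 n1 h1 f1 n1 h2 (by rw [e1]; exact n1) (by rw [e1]; exact h3)
    rw [e1] at this
    rw [this, c.one_one, add_zero]
  refine ⟨max R 2, min e (1 / 8), φ, fun g => α ⟨g, 0⟩, by positivity,
    fun g h g1 g2 h1 h2 u2 => ?_⟩
  have lo : ∀ k : Gc, nm (max R 2) (dp (k : Pm)) ≤ min e (1 / 8) → nm R (dp (k : Pm)) ≤ e :=
    fun k hk => (nm_mono (le_max_left _ _) _).trans (hk.trans (min_le_left _ _))
  have s1 : ∀ k : Gc, nm (max R 2) (dp (k : Pm)) ≤ min e (1 / 8) → sn 1 (dp (k : Pm)) ≤ 1 / 8 :=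
    fun k hk => (sn_le_nm (by omega) _).trans (hk.trans (min_le_right _ _))
  have s2 : sn 2 (dp (h : Pm)) ≤ e :=
    (sn_le_nm (le_max_right _ _) _).trans (h2.trans (min_le_left _ _))
  have hb : |bt g h| ≤ e := by
    refine (abs_bt_le (by norm_num) h1 (by linarith [s1 g g2]) (by linarith [s1 h h2])).trans ?_
    have := mul_le_mul (s1 g g2) s2 (sn_nonneg _ _) (by norm_num)
    linarith
  have u1 : Fix (-1) 1 ((g * h : Gc) : Pm) := (GI (-1) 1).mul_mem g1 h1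
  have e1 : (⟨g, 0⟩ * ⟨h, 0⟩ : Vir) = ⟨g * h, bt g h⟩ := by
    ext1 <;> simp
  have e2 : (⟨g * h, 0⟩ * ⟨1, bt g h⟩ : Vir) = ⟨g * h, bt g h⟩ := by
    ext1 <;> simp [bt_one_right]
  have a1 := hα ⟨g, 0⟩ ⟨h, 0⟩ g1 (lo g g2) z0 h1 (lo h h2) z0 (by rw [e1]; exact lo _ u2)
    (by rw [e1]; exact hb)
  have a2 := hα ⟨g * h, 0⟩ ⟨1, bt g h⟩ u1 (lo _ u2) z0 f1 n1 hb (by rw [e2]; exact lo _ u2)
    (by rw [e2]; exact hb)
  rw [e1] at a1
  rw [e2, c.one_right, add_zero, a1] at a2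
  beta_reduce
  rw [hφ _ hb, ← add_sub_assoc, a2, add_sub_cancel_right]

/-- `mono_ext` for the extension of the group `GI (-1) 1` by the cocycle `c - φ ∘ bt`, with
`rad` and `exists_tri` -/
theorem cob_on (c : Coc Gc A) : ∃ (φ : ℝ →+ A) (β : Gc → A), ∀ g ∈ GI (-1) 1, ∀ h ∈ GI (-1) 1,
    c.c g h = φ (bt g h) + (β g + β h - β (g * h)) := by
  classical
  obtain ⟨R, e, φ, α, he, hα⟩ := local_cob c
  let c' : Coc (GI (-1) 1) A :=
    { c := fun g h => c.c g h - φ (bt g h)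
      coc := fun g h k => by
        have h1 := c.coc g h k
        have h2 := congrArg φ (bt_coc g h k)
        rw [map_add, map_add] at h2
        simp only [Subgroup.coe_mul]
        linear_combination (norm := abel) h1 - h2
      one_one := by
        simp only [OneMemClass.coe_one, c.one_one, bt_one_left, map_zero, sub_zero] }
  obtain ⟨s, hs⟩ := mono_ext (CE.pr c') {g | nm R (dp ((g : Gc) : Pm)) ≤ e}
    (fun g => ⟨g, α g⟩) (fun _ _ => rfl)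
    (fun u hu u' hu' huu => CE.ext rfl (hα u u' u.2 hu u'.2 hu' huu))
    (fun v t => ⟨rad v t, rad_mem v.2 t⟩) (fun v => Subtype.ext (rad_zero v))
    (fun v => Subtype.ext (rad_one v)) fun v w => by
      obtain ⟨Γ, h0, h1, h2, h3, h4⟩ := exists_tri v.2 w.2
      exact ⟨fun p => ⟨Γ p, h0 p⟩, fun t a b => Subtype.ext (h1 t a b),
        fun t a b => Subtype.ext (h2 t a b), fun t a b => Subtype.ext (h3 t a b), h4 R e he⟩
  refine ⟨φ, fun g => if h : g ∈ GI (-1) 1 then -(s ⟨g, h⟩).a else 0, fun g hg h hh => ?_⟩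
  have hm := congrArg CE.a (map_mul s ⟨g, hg⟩ ⟨h, hh⟩)
  have g1 : (s ⟨g, hg⟩).g = ⟨g, hg⟩ := hs _
  have g2 : (s ⟨h, hh⟩).g = ⟨h, hh⟩ := hs _
  rw [CE.mul_a, g1, g2] at hm
  have hm' : (s ⟨g * h, mul_mem hg hh⟩).a =
      (s ⟨g, hg⟩).a + (s ⟨h, hh⟩).a + (c.c g h - φ (bt g h)) := hm
  beta_reduce
  rw [dif_pos hg, dif_pos hh, dif_pos (mul_mem hg hh), hm']
  abel

/-- pull the cocycle back by the dilation `cG M 0` -/
theorem cob_on' (c : Coc Gc A) {M : ℝ} (hM : 0 < M) : ∃ (φ : ℝ →+ A) (β : Gc → A),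
    ∀ g ∈ GI (-M) M, ∀ h ∈ GI (-M) M, c.c g h = φ (bt g h) + (β g + β h - β (g * h)) := by
  let c' : Coc Gc A :=
    { c := fun g h => c.c (cG M 0 g) (cG M 0 h)
      coc := fun g h k => by
        rw [map_mul, map_mul]
        exact c.coc _ _ _
      one_one := by rw [map_one, c.one_one] }
  obtain ⟨φ, β, H⟩ := cob_on c'
  have hi : 0 < M⁻¹ := inv_pos.2 hM
  have mem : ∀ g ∈ GI (-M) M, cG M⁻¹ 0 g ∈ GI (-1) 1 := fun g hg => by
    have := Fix.conj_aff (mem_GI.1 hg) hi 0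
    rw [mul_neg, inv_mul_cancel₀ hM.ne', add_zero, add_zero] at this
    exact this
  have back : ∀ g, cG M 0 (cG M⁻¹ 0 g) = g := fun g => by
    rw [cG_cG hM.ne' hi.ne', mul_inv_cancel₀ hM.ne', mul_zero, add_zero, cG_one]
  refine ⟨φ, fun g => β (cG M⁻¹ 0 g), fun g hg h hh => ?_⟩
  have := H _ (mem g hg) _ (mem h hh)
  rw [bt_cG hi, ← map_mul] at this
  beta_reduce
  rw [← this]
  exact (congrArg₂ c.c (back g) (back h)).symm

end Pool.Agent.P.MP_7bb7e1_gt
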