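import Pool.Agent.P.MP_7bb7e1_gt.ST0
import Pool.Agent.P.MP_7bb7e1_gt.BTSum

/-! Exact realisation of a central element. -/

namespace Pool.Agent.P.MP_7bb7e1_gt

open Filter

noncomputable def stL (j : ℕ) : ℝ := 1 / (12 * (((j : ℝ) + 1) * ((j : ℝ) + 2)))

noncomputable def stM (j : ℕ) : ℝ := (1 / ((j : ℝ) + 1) + 1 / ((j : ℝ) + 2)) / 2

noncomputable def stD (r j : ℕ) : ℝ :=
  4 * 12 ^ r * ((((j + 2 : ℕ) : ℝ)) ^ (2 * r) * (1 / 2) ^ (j + 2))

theorem stL_pos (j : ℕ) : 0 < stL j := by unfold stL; positivity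

theorem st_left (j : ℕ) : 1 / ((j : ℝ) + 2) < stL j * (-3) + stM j := by
  have h : stL j * (-3) + stM j - 1 / ((j : ℝ) + 2) = 3 * stL j := by
    unfold stL stM
    field_simp
    ring
  have := stL_pos j
  linarith

theorem st_right (j : ℕ) : stL j * 3 + stM j < 1 / ((j : ℝ) + 1) := by
  have h : 1 / ((j : ℝ) + 1) - (stL j * 3 + stM j) = 3 * stL j := by
    unfold stL stM
    field_simp
    ring
  have := stL_pos j
  linarith

theorem stD_summable (r : ℕ) : Summable (stD r) := by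
  have h := summable_pow_mul_geometric_of_norm_lt_one (R := ℝ) (2 * r) (r := 1 / 2)
    (by rw [Real.norm_eq_abs, abs_of_pos] <;> norm_num)
  exact ((summable_nat_add_iff 2).2 h).mul_left _

theorem st_coef {β : ℕ} (hβ : 1 ≤ β) (r j : ℕ) :
    stL j / stL j ^ r * (1 / 2 ^ j) ^ β ≤ stD r j := by
  have hj : (0 : ℝ) ≤ j := Nat.cast_nonneg j
  have h1 : stL j ≤ 1 := by
    unfold stL
    rw [div_le_one (by positivity)]
    nlinarith
  have h2 : (stL j ^ r)⁻¹ ≤ 12 ^ r * (((j + 2 : ℕ) : ℝ)) ^ (2 * r) := by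
    rw [← inv_pow, pow_mul, ← mul_pow]
    refine pow_le_pow_left₀ (inv_pos.2 (stL_pos j)).le ?_ r
    unfold stL
    rw [one_div, inv_inv]
    push_cast
    nlinarith
  have h3 : ((1 : ℝ) / 2 ^ j) ^ β ≤ 4 * (1 / 2) ^ (j + 2) := by
    have h4 : (1 : ℝ) / 2 ^ j ≤ 1 := by
      rw [div_le_one (by positivity)]
      exact one_le_pow₀ (by norm_num)
    calc ((1 : ℝ) / 2 ^ j) ^ β ≤ (1 / 2 ^ j) ^ 1 := pow_le_pow_of_le_one (by positivity) h4 hβ
      _ = 4 * (1 / 2) ^ (j + 2) := by rw [pow_one, pow_add, one_div_pow]; norm_num; ring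
  have h5 : stL j / stL j ^ r ≤ 12 ^ r * (((j + 2 : ℕ) : ℝ)) ^ (2 * r) := by
    rw [div_eq_mul_inv]
    have := mul_le_mul h1 h2 (inv_pos.2 (pow_pos (stL_pos j) r)).le zero_le_one
    rwa [one_mul] at this
  calc _ ≤ (12 ^ r * (((j + 2 : ℕ) : ℝ)) ^ (2 * r)) * (4 * (1 / 2) ^ (j + 2)) :=
        mul_le_mul h5 h3 (by positivity) (by positivity)
    _ = stD r j := by unfold stD; ring

theorem st_dp {β : ℕ} (hβ : 1 ≤ β) {C : ℕ → ℝ} (hC : ∀ r, 0 ≤ C r) {ε : ℝ} (hε : 0 < ε)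
    (u : ℕ → Gc) (hu : ∀ j, Sml (-3) 3 (fun r => C r * (ε / 2 ^ j) ^ β) (u j)) :
    ∃ U : Gc, IsDP (fun j => ((cG (stL j) (stM j) (u j) : Gc) : Pm)) U ∧
      Sml 0 1 (fun r => (C r * ∑' j, stD r j) * ε ^ β) U := by
  have hf : ∀ j, Fix (stL j * (-3) + stM j) (stL j * 3 + stM j)
      ((cG (stL j) (stM j) (u j) : Gc) : Pm) := fun j => (hu j).1.conj_aff (stL_pos j) _
  have h0 : ∀ j : ℕ, 0 ≤ stL j * (-3) + stM j := fun j =>
    le_trans (by positivity) (st_left j).le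
  have h1 : ∀ j : ℕ, stL j * 3 + stM j ≤ 1 := fun j => by
    refine (st_right j).le.trans ?_
    rw [div_le_one (by positivity)]
    have hj : (0 : ℝ) ≤ j := Nat.cast_nonneg j
    linarith
  have hb : ∀ r j, sn r (dp ((cG (stL j) (stM j) (u j) : Gc) : Pm)) ≤ C r * ε ^ β * stD r j := by
    intro r j
    rw [coe_cG, sn_conj_aff (Gc.sm (u j)) (stL_pos j)]
    have hp : 0 ≤ stL j / stL j ^ r := by have := stL_pos j; positivity
    have hc := hC r
    calc _ ≤ stL j / stL j ^ r * (C r * (ε / 2 ^ j) ^ β) :=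
          mul_le_mul_of_nonneg_left ((hu j).2 r) hp
      _ = C r * ε ^ β * (stL j / stL j ^ r * (1 / 2 ^ j) ^ β) := by
          rw [div_pow, div_pow, one_pow]; ring
      _ ≤ _ := mul_le_mul_of_nonneg_left (st_coef hβ r j) (by positivity)
  have hs : ∀ r, Summable fun j => sn r (dp ((cG (stL j) (stM j) (u j) : Gc) : Pm)) := fun r =>
    Summable.of_nonneg_of_le (fun j => sn_nonneg _ _) (hb r) ((stD_summable r).mul_left _)
  obtain ⟨U, hU, hU'⟩ := exists_DP (fun j => cG (stL j) (stM j) (u j))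
    (sep_of_harm st_left st_right) hf (R := 1)
    (fun j => ⟨by have := h0 j; linarith, h1 j⟩) hs
  refine ⟨U, hU, hU.fix fun j => (hf j).mono (h0 j) (h1 j), fun r => (hU' r).trans ?_⟩
  calc _ ≤ ∑' j, C r * ε ^ β * stD r j :=
        (hs r).tsum_le_tsum (hb r) ((stD_summable r).mul_left _)
    _ = _ := by rw [tsum_mul_left]; ring

/-- Iterate `st0_pt` with `ε / 2^j` on the successive errors `c j`; conjugate the `j`-th tuple by
the affine map of slope `1 / (12 (j+1) (j+2))` centred at the midpoint of `(1/(j+2), 1/(j+1))`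
(`cV_PhiL`, `sn_conj_aff`, `Fix.conj_aff`); `exists_DP`, `IsDP.phi`, `hasSum_PhiL`. -/
theorem st_pt {β : ℕ} (hβ : 1 ≤ β) : ∃ (n₁ : ℕ) (e₀ : ℝ) (C : ℕ → ℝ), 0 < e₀ ∧
    ∀ ε c : ℝ, 0 < ε → ε ≤ e₀ → |c| ≤ ε ^ (2 * β + 3) → ∃ x : Fin n₁ → Gc × Gc,
      (∀ k, Sml 0 1 (fun r => C r * ε ^ β) (x k).1 ∧ Sml 0 1 (fun r => C r * ε ^ β) (x k).2) ∧
        PhiL vl (List.ofFn x) = ⟨1, c⟩ := by
  obtain ⟨n₁, e₀, C, he, -, hC, h⟩ := st0_pt hβ
  refine ⟨n₁, e₀, fun r => C r * ∑' j, stD r j, he, fun ε c hε hεe hc => ?_⟩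
  choose! X hX using h
  let cs : ℕ → ℝ := fun n => Nat.rec c
    (fun j cj => cj - (PhiL vl (List.ofFn (X (ε / 2 ^ j) cj))).a) n
  have hp : ∀ j : ℕ, 0 < ε / 2 ^ j := fun j => by positivity
  have hle : ∀ j : ℕ, ε / 2 ^ j ≤ e₀ := fun j =>
    (div_le_self hε.le (one_le_pow₀ (by norm_num))).trans hεe
  have hcs : ∀ j, |cs j| ≤ (ε / 2 ^ j) ^ (2 * β + 3) := by
    intro j
    induction j with
    | zero => rw [pow_zero, div_one]; exact hc
    | succ j ih =>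
      have h1 := (hX _ _ (hp j) (hle j) ih).2.2
      rwa [div_div, ← pow_succ] at h1
  let x : ℕ → Fin n₁ → Gc × Gc := fun j => X (ε / 2 ^ j) (cs j)
  have hx := fun j => hX _ _ (hp j) (hle j) (hcs j)
  choose U hU hU' using fun k => st_dp hβ hC hε (fun j => (x j k).1) fun j => ((hx j).1 k).1
  choose V hV hV' using fun k => st_dp hβ hC hε (fun j => (x j k).2) fun j => ((hx j).1 k).2
  let y : ℕ → Fin n₁ → Gc × Gc := fun j k =>
    (cG (stL j) (stM j) (x j k).1, cG (stL j) (stM j) (x j k).2)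
  have hy : ∀ j, List.ofFn (y j) =
      (List.ofFn (x j)).map (Prod.map (cG (stL j) (stM j)) (cG (stL j) (stM j))) := fun j => by
    rw [List.map_ofFn]
    rfl
  have hf : ∀ j k, Fix (stL j * (-3) + stM j) (stL j * 3 + stM j) ((y j k).1 : Pm) ∧
      Fix (stL j * (-3) + stM j) (stL j * 3 + stM j) ((y j k).2 : Pm) := fun j k =>
    ⟨((hx j).1 k).1.1.conj_aff (stL_pos j) _, ((hx j).1 k).2.1.conj_aff (stL_pos j) _⟩
  refine ⟨fun k => (U k, V k), fun k => ⟨hU' k, hV' k⟩, ?_⟩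
  have h1 := IsDP.phi (sep_of_harm st_left st_right) y (fun k => (U k, V k)) hf
    fun k => ⟨hU k, hV k⟩
  have h2 := hasSum_PhiL st_left st_right y (fun k => (U k, V k)) hf fun k => ⟨hU k, hV k⟩
  have h3 : ∀ j, Phi (List.ofFn (y j)) = 1 := fun j => by
    rw [hy, ← map_Phi, (hx j).2.1, map_one]
  have h4 : ∀ j, (PhiL vl (List.ofFn (y j))).a = cs j - cs (j + 1) := fun j => by
    rw [hy, ← cV_PhiL (stL_pos j), cV_a]
    exact (sub_sub_cancel _ _).symm
  simp only [h3] at h1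
  simp only [h4] at h2
  ext1
  · rw [PhiL_g]
    exact Subtype.ext (h1.unique isDP_one)
  · have t1 := h2.tendsto_sum_nat
    simp only [Finset.sum_range_sub'] at t1
    have t2 : Tendsto cs atTop (nhds 0) := by
      have t3 : Tendsto (fun j : ℕ => (ε / 2 ^ j) ^ (2 * β + 3)) atTop (nhds 0) := by
        have t4 : Tendsto (fun j : ℕ => ε / 2 ^ j) atTop (nhds 0) :=
          (tendsto_pow_atTop_atTop_of_one_lt (by norm_num : (1 : ℝ) < 2)).const_div_atTop ε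
        simpa using t4.pow (2 * β + 3)
      exact squeeze_zero_norm (fun j => hcs j) t3
    have t5 : Tendsto (fun n => cs 0 - cs n) atTop (nhds (c - 0)) := tendsto_const_nhds.sub t2
    simpa using tendsto_nhds_unique t1 t5

end Pool.Agent.P.MP_7bb7e1_gt
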