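import Pool.Agent.P.MP_7bb7e1_gt.VirF

/-! The infinitesimal cycle and its first realisation. -/

namespace Pool.Agent.P.MP_7bb7e1_gt

open Filter
open scoped commutatorElement Topology

theorem st0a_int {ψ : ℝ → ℝ} {a b : ℝ} (hψ : Sm ψ) (hv : Van a b ψ) (h1 : ∫ x, ψ x = 1) :
    ∫ x, 3 * x ^ 2 * deriv (deriv ψ) x = 6 := by
  have hv' := hv.deriv hψ.1
  have s1 := (hψ.deriv.mul_pow hv' 2).const_mul 3
  have s2 := (hψ.mul_pow hv 1).const_mul 6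
  have hG := s1.sub s2
  have vG : Van a b fun x => 3 * (deriv ψ x * x ^ 2) - 6 * (ψ x * x ^ 1) := fun x hx => by
    simp only [hv x hx, hv' x hx, zero_mul, mul_zero, sub_zero]
  have h0 := integral_deriv_eq_zero vG hG.1
  have e : ∀ x, 3 * x ^ 2 * deriv (deriv ψ) x =
      deriv (fun x => 3 * (deriv ψ x * x ^ 2) - 6 * (ψ x * x ^ 1)) x + 6 * ψ x := fun x => by
    have d1 := (hψ.deriv.differentiable x).hasDerivAt
    have d0 := (hψ.differentiable x).hasDerivAt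
    rw [(((d1.fun_mul (hasDerivAt_pow 2 x)).const_mul 3).fun_sub
      ((d0.fun_mul (hasDerivAt_pow 1 x)).const_mul 6)).deriv]
    push_cast
    ring
  simp only [e]
  rw [MeasureTheory.integral_add ((vG.deriv hG.1).integrable hG.deriv.continuous)
    ((hv.integrable hψ.continuous).const_mul 6), h0, MeasureTheory.integral_const_mul, h1]
  ring

theorem st0a_lie : ∃ u₃ u₀ u₁ ψ Y Z : ℝ → ℝ,
    (Sm u₃ ∧ Sm u₀ ∧ Sm u₁ ∧ Sm ψ ∧ Sm Y ∧ Sm Z) ∧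
    (Van (-1) 1 u₃ ∧ Van (-1) 1 u₀ ∧ Van (-1) 1 u₁ ∧ Van (-1) 1 ψ ∧ Van (-1) 1 Y ∧ Van (-1) 1 Z) ∧
    (∀ x, br u₃ ψ x + br Y u₀ x + br Z u₁ x = 0) ∧
    (∫ x, deriv u₃ x * deriv (deriv ψ) x) + (∫ x, deriv Y x * deriv (deriv u₀) x) +
      (∫ x, deriv Z x * deriv (deriv u₁) x) = 6 := by
  obtain ⟨χ, hχ, -, vχ, h1⟩ := exists_bump (a := -1) (a' := -3 / 4) (b' := 3 / 4) (b := 1)
    (by norm_num) (by norm_num)
  obtain ⟨ψ, hψ, vψ, iψ⟩ := exists_mass (a := -1 / 2) (b := 1 / 2) (by norm_num)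
  have vψ' := vψ.deriv hψ.1
  have vψ'' := vψ'.deriv hψ.deriv.1
  obtain ⟨F, hFe⟩ : ∃ F : ℝ → ℝ, F = fun x => deriv ψ x * x ^ 3 - 3 * (ψ x * x ^ 2) := ⟨_, rfl⟩
  have hF : Sm F := hFe ▸ (hψ.deriv.mul_pow vψ' 3).sub ((hψ.mul_pow vψ 2).const_mul 3)
  have vF : Van (-1 / 2) (1 / 2) F := fun x hx => by
    simp only [hFe, vψ x hx, vψ' x hx, zero_mul, mul_zero, sub_zero]
  have vF' := vF.deriv hF.1
  have hloc : ∀ (k : ℕ) x, -3 / 4 < x → x < 3 / 4 →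
      (fun y => χ y * y ^ k) =ᶠ[𝓝 x] fun y => y ^ k := fun k x ha hb => by
    filter_upwards [Ioo_mem_nhds ha hb] with y hy
    rw [h1 y hy.1.le hy.2.le, one_mul]
  have hcase : ∀ x : ℝ, (-3 / 4 < x ∧ x < 3 / 4) ∨ x ≤ -1 / 2 ∨ 1 / 2 ≤ x := fun x => by
    by_contra hc
    push Not at hc
    have := hc.1 (by linarith [hc.2.1])
    linarith [hc.2.2]
  have dY : ∀ x, deriv (fun x => 1 / 2 * (F x * x ^ 1)) x = 1 / 2 * (deriv F x * x + F x) :=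
    fun x => by
      rw [(((hF.differentiable x).hasDerivAt.fun_mul (hasDerivAt_pow 1 x)).const_mul _).deriv]
      simp
  have dZ : ∀ x, deriv (fun x => -1 / 2 * F x) x = -1 / 2 * deriv F x := fun x =>
    deriv_const_mul_field _
  have vu : ∀ k : ℕ, Van (-1) 1 fun y => χ y * y ^ k := fun k x hx => by
    simp only [vχ x hx, zero_mul]
  refine ⟨fun y => χ y * y ^ 3, fun y => χ y * y ^ 0, fun y => χ y * y ^ 1, ψ,
    fun x => 1 / 2 * (F x * x ^ 1), fun x => -1 / 2 * F x,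
    ⟨hχ.mul_pow vχ 3, hχ.mul_pow vχ 0, hχ.mul_pow vχ 1, hψ, (hF.mul_pow vF 1).const_mul _,
      hF.const_mul _⟩,
    ⟨vu 3, vu 0, vu 1, vψ.mono (by norm_num) (by norm_num), fun x hx => ?_, fun x hx => ?_⟩,
    fun x => ?_, ?_⟩
  · simp only [(vF.mono (by norm_num) (by norm_num) : Van (-1) 1 F) x hx, zero_mul, mul_zero]
  · simp only [(vF.mono (by norm_num) (by norm_num) : Van (-1) 1 F) x hx, mul_zero]
  · simp only [br, dY, dZ]
    rcases hcase x with hx | hx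
    · rw [(hloc 3 x hx.1 hx.2).deriv_eq, (hloc 0 x hx.1 hx.2).deriv_eq,
        (hloc 1 x hx.1 hx.2).deriv_eq, h1 x hx.1.le hx.2.le]
      have : F x = deriv ψ x * x ^ 3 - 3 * (ψ x * x ^ 2) := by rw [hFe]
      simp only [deriv_pow_field]
      push_cast
      linear_combination -this
    · simp only [vψ x hx, vψ' x hx, vF x hx, vF' x hx]
      ring
  · have e3 : ∀ x, deriv (fun y => χ y * y ^ 3) x * deriv (deriv ψ) x =
        3 * x ^ 2 * deriv (deriv ψ) x := fun x => by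
      rcases hcase x with hx | hx
      · rw [(hloc 3 x hx.1 hx.2).deriv_eq, deriv_pow_field]
        norm_num
      · rw [vψ'' x hx, mul_zero, mul_zero]
    have e0 : ∀ x, deriv (fun x => 1 / 2 * (F x * x ^ 1)) x *
        deriv (deriv fun y => χ y * y ^ 0) x = 0 := fun x => by
      rcases hcase x with hx | hx
      · rw [(hloc 0 x hx.1 hx.2).deriv.deriv_eq]
        simp
      · rw [dY, vF x hx, vF' x hx]
        ring
    have e1 : ∀ x, deriv (fun x => -1 / 2 * F x) x *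
        deriv (deriv fun y => χ y * y ^ 1) x = 0 := fun x => by
      rcases hcase x with hx | hx
      · rw [(hloc 1 x hx.1 hx.2).deriv.deriv_eq]
        simp
      · rw [dZ, vF' x hx]
        ring
    simp only [e3, e0, e1, st0a_int hψ vψ iψ, MeasureTheory.integral_zero, add_zero]

namespace Scale

variable {S : Scale} {β m n : ℕ} {a b c : S.ι → ℝ} {φ ψ : ℝ → ℝ}

theorem st0a_fam (hn : 1 ≤ n) (ha : S.OdS n a) (hφ : Sm φ) (hv : Van (-1) 1 φ) :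
    ∃ v ∈ S.VG n (-3) 3, ∀ᶠ i in S.F, dp ((v i).g : Pm) = fun x => a i * φ x := by
  obtain ⟨g, hg, e⟩ := exists_GB hn (Tame.smul ha (tame_const hφ)) (Od.smul ha (od_const hφ))
  have hF : g ∈ S.GF n (-3) 3 := mem_GF_iff.2 ⟨hg, -1, 1, by norm_num, by norm_num,
    e.mono fun i hi => fix_iff_van.2 fun x hx => by rw [hi]; simp only [hv x hx, mul_zero]⟩
  obtain ⟨v, hv', -, e'⟩ := exists_Vir hF
  refine ⟨v, hv'.1, ?_⟩
  filter_upwards [e, e'] with i h1 h2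
  rw [h2, h1]

theorem st0a_pair (hm : 1 ≤ m) (hn : 1 ≤ n) (ha : S.OdS m a) (hb : S.OdS n b)
    (hab : ∀ i, a i * b i = c i / 12) (hφ : Sm φ) (vφ : Van (-1) 1 φ) (hψ : Sm ψ)
    (vψ : Van (-1) 1 ψ) : ∃ v ∈ S.VG m (-3) 3, ∃ w ∈ S.VG n (-3) 3,
      ⁅v, w⁆ ∈ S.VF (m + n) (-3) 3 ∧ (∀ᶠ i in S.F, ((⁅v, w⁆ i).g : Pm) ∈ FixS (-1) 1) ∧
      (S.Od (m + n + 1) fun i x => dp ((⁅v, w⁆ i).g : Pm) x + c i / 12 * br φ ψ x) ∧
      S.OdS (m + n + 1) fun i =>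
        (⁅v, w⁆ i).a - c i / 6 * ∫ x, deriv φ x * deriv (deriv ψ) x := by
  obtain ⟨v, hv, ev⟩ := st0a_fam hm ha hφ vφ
  obtain ⟨w, hw, ew⟩ := st0a_fam hn hb hψ vψ
  refine ⟨v, hv, w, hw, comm_mem_VF hm hn hv hw, ?_, ?_, ?_⟩
  · filter_upwards [ev, ew] with i h1 h2
    have f1 : ((v i).g : Pm) ∈ FixS (-1) 1 :=
      fix_iff_van.2 fun x hx => by rw [h1]; simp only [vφ x hx, mul_zero]
    have f2 : ((w i).g : Pm) ∈ FixS (-1) 1 :=
      fix_iff_van.2 fun x hx => by rw [h2]; simp only [vψ x hx, mul_zero]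
    exact mul_mem (mul_mem (mul_mem f1 f2) (inv_mem f1)) (inv_mem f2)
  · refine (L2 hm hn (mem_VG.1 hv).1 (mem_VG.1 hw).1).congr ?_
    filter_upwards [ev, ew] with i h1 h2
    ext x
    have e0 : ((⁅v, w⁆ i).g : Pm) = ⁅((v i).g : Pm), ((w i).g : Pm)⁆ := rfl
    rw [e0, gp_apply, gp_apply, h1, h2, ← hab]
    simp only [br, deriv_const_mul_field]
    ring
  · refine (L3 hm hn hv hw).congr ?_
    filter_upwards [ev, ew] with i h1 h2
    have e0 : ⁅v, w⁆ i = ⁅v i, w i⁆ := rfl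
    have e1 : c i / 6 = 2 * (a i * b i) := by rw [hab]; ring
    rw [e0, h1, h2, e1, mul_assoc, ← MeasureTheory.integral_const_mul (a i * b i)]
    simp only [deriv_const_mul_field, deriv_const_mul_field']
    congr 3
    ext x
    ring

theorem st0a_st00 (hβ : 1 ≤ β) (hc : S.OdS (2 * β + 1) c) :
    ∃ x : List ((S.ι → Vir) × (S.ι → Vir)),
      (∀ p ∈ x, p.1 ∈ S.VG β (-3) 3 ∧ p.2 ∈ S.VG β (-3) 3) ∧
      gp (Phi x) ∈ S.GB (2 * β + 2) ∧ (∀ᶠ i in S.F, Fix (-1) 1 ((Phi x i).g : Pm)) ∧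
      S.OdS (2 * β + 2) fun i => c i - (Phi x i).a := by
  obtain ⟨u₃, u₀, u₁, ψ, Y, Z, ⟨s3, s0, s1, sψ, sY, sZ⟩, ⟨v3, v0, v1, vψ, vY, vZ⟩, hbr, hint⟩ :=
    st0a_lie
  have hd : S.OdS (β + 1) fun i => 1 / 12 * (c i / S.ε i ^ β) :=
    (OdS.div_pow (by rwa [show β + 1 + β = 2 * β + 1 by ring])).const_mul _
  have he : ∀ i, S.ε i ^ β * (1 / 12 * (c i / S.ε i ^ β)) = c i / 12 := fun i => by
    have := (S.pos i).ne'
    field_simp
  have he' : ∀ i, 1 / 12 * (c i / S.ε i ^ β) * S.ε i ^ β = c i / 12 := fun i => by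
    rw [mul_comm, he]
  have hβ' : 1 ≤ β + 1 := by omega
  obtain ⟨p1, hp1, q1, hq1, k1, f1, o1, t1⟩ := st0a_pair hβ hβ' (odS_pow β) hd he s3 v3 sψ vψ
  obtain ⟨p2, hp2, q2, hq2, k2, f2, o2, t2⟩ := st0a_pair hβ' hβ hd (odS_pow β) he' sY vY s0 v0
  obtain ⟨p3, hp3, q3, hq3, k3, f3, o3, t3⟩ := st0a_pair hβ' hβ hd (odS_pow β) he' sZ vZ s1 v1
  rw [show β + (β + 1) = 2 * β + 1 by ring] at k1 o1 t1
  rw [show β + 1 + β = 2 * β + 1 by ring] at k2 o2 t2 k3 o3 t3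
  have e : Phi [(p1, q1), (p2, q2), (p3, q3)] = ⁅p1, q1⁆ * (⁅p2, q2⁆ * ⁅p3, q3⁆) := by simp
  have dn : S.VG (β + 1) (-3) 3 ≤ S.VG β (-3) 3 := VG_mono (Nat.le_succ β) le_rfl le_rfl
  refine ⟨[(p1, q1), (p2, q2), (p3, q3)], ?_, ?_⟩
  · simp only [List.mem_cons, List.not_mem_nil, or_false]
    rintro p (rfl | rfl | rfl)
    exacts [⟨hp1, dn hq1⟩, ⟨dn hp2, hq2⟩, ⟨dn hp3, hq3⟩]
  rw [e]
  generalize ⁅p1, q1⁆ = w1 at *
  generalize ⁅p2, q2⁆ = w2 at *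
  generalize ⁅p3, q3⁆ = w3 at *
  have k23 := mul_mem k2 k3
  have hle : 2 * β + 2 ≤ 2 * β + 1 + (2 * β + 1) := by omega
  refine ⟨mem_GB_of (by omega) (GB_tame (mem_VF.1 (mul_mem k1 k23)).1.1) ?_, ?_, ?_⟩
  · have l1 := (L1 (mem_VF.1 k1).1.1 (mem_VF.1 k23).1.1).mono hle
    have l2 := (L1 (mem_VF.1 k2).1.1 (mem_VF.1 k3).1.1).mono hle
    refine ((((l1.add l2).add o1).add o2).add o3).congr (Eventually.of_forall fun i => ?_)
    ext x
    simp only [dpF, gp_apply, Pi.mul_apply, CE.mul_g, Subgroup.coe_mul]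
    linear_combination c i / 12 * hbr x
  · filter_upwards [f1, f2, f3] with i h1 h2 h3
    exact mul_mem h1 (mul_mem h2 h3)
  · have b1 := (bt_od (g := fun i => (w1 i).g) (h := fun i => ((w2 * w3) i).g) (mem_VF.1 k1).1.1
      (mem_VF.1 k23).1).mono hle
    have b2 := (bt_od (g := fun i => (w2 i).g) (h := fun i => (w3 i).g) (mem_VF.1 k2).1.1
      (mem_VF.1 k3).1).mono hle
    refine ((((b1.add b2).add t1).add t2).add t3).neg.congr (Eventually.of_forall fun i => ?_)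
    simp only [Pi.mul_apply, CE.mul_a, CE.mul_g, btc_c]
    linear_combination c i / 6 * hint

end Scale

end Pool.Agent.P.MP_7bb7e1_gt
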