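import Pool.Agent.P.MP_7bb7e1_gt.Solver
import Pool.Agent.P.MP_7bb7e1_gt.Extract
import Pool.Agent.P.MP_7bb7e1_gt.ST0a

/-! Approximate realisation of a central element. -/

namespace Pool.Agent.P.MP_7bb7e1_gt

open Filter
open scoped commutatorElement

/-- Fixed functions: a bump `χ` vanishing off `[-1, 1]`, equal to one on `[-3/4, 3/4]`, `ψ` of mass
one vanishing off `[-1/2, 1/2]`, `F = x^3 ψ' - 3 x^2 ψ`, `Y = x F / 2`, `Z = - F / 2`. -/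
theorem exists_lie_cycle : ∃ u₃ u₀ u₁ ψ Y Z : ℝ → ℝ,
    (Sm u₃ ∧ Sm u₀ ∧ Sm u₁ ∧ Sm ψ ∧ Sm Y ∧ Sm Z) ∧
    (Van (-1) 1 u₃ ∧ Van (-1) 1 u₀ ∧ Van (-1) 1 u₁ ∧ Van (-1) 1 ψ ∧ Van (-1) 1 Y ∧ Van (-1) 1 Z) ∧
    (∀ x, br u₃ ψ x + br Y u₀ x + br Z u₁ x = 0) ∧
    (∫ x, deriv u₃ x * deriv (deriv ψ) x) + (∫ x, deriv Y x * deriv (deriv u₀) x) +
      (∫ x, deriv Z x * deriv (deriv u₁) x) = 6 := st0a_lie

namespace Scale

variable {S : Scale} {β : ℕ} {c : S.ι → ℝ}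

/-- Families with displacements `ε^β u_k` and `c / (12 ε^β)` times `ψ, Y, Z` (`exists_GB`,
`exists_Vir`); the list `[(u₃, ψ), (Y, u₀), (Z, u₁)]`; `L1`, `L2`, `L3`, `bt_od`. -/
theorem st00 (hβ : 1 ≤ β) (hc : S.OdS (2 * β + 1) c) :
    ∃ x : List ((S.ι → Vir) × (S.ι → Vir)),
      (∀ p ∈ x, p.1 ∈ S.VG β (-3) 3 ∧ p.2 ∈ S.VG β (-3) 3) ∧
      gp (Phi x) ∈ S.GB (2 * β + 2) ∧ (∀ᶠ i in S.F, Fix (-1) 1 ((Phi x i).g : Pm)) ∧
      S.OdS (2 * β + 2) fun i => c i - (Phi x i).a := st0a_st00 hβ hc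

/-- remove the diffeomorphism part by `solver_list` of order `β + 1` (`Phi_mem_VF`) -/
theorem st0 (hβ : 1 ≤ β) (hc : S.OdS (2 * β + 1) c) :
    ∃ x : List ((S.ι → Vir) × (S.ι → Vir)),
      (∀ p ∈ x, p.1 ∈ S.VG β (-3) 3 ∧ p.2 ∈ S.VG β (-3) 3) ∧
      (∀ᶠ i in S.F, (Phi x i).g = 1) ∧ S.OdS (2 * β + 2) fun i => c i - (Phi x i).a := by
  obtain ⟨x, hx, hg, hf, ha⟩ := st00 hβ hc
  obtain ⟨y, hy, hyg⟩ := solver_list (β := β + 1) (g := gp (Phi x)) (by omega)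
    (by rw [show 2 * (β + 1) = 2 * β + 2 by ring]; exact hg) hf
  have hya : S.OdS (2 * β + 2) fun i => (Phi y i).a := by
    have := (mem_VF.1 (Phi_mem_VF (by omega) hy)).2
    rwa [show β + 1 + (β + 1) = 2 * β + 2 by ring] at this
  have hyg' : ∀ᶠ i in S.F, (Phi y i).g = (Phi x i).g :=
    hyg.mono fun i h => Subtype.ext h
  refine ⟨x ++ y.reverse.map Prod.swap, fun p hp => ?_, ?_, ?_⟩
  · rcases List.mem_append.1 hp with h | h
    · exact hx p h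
    · obtain ⟨p', hp', rfl⟩ := List.mem_map.1 h
      have := hy p' (List.mem_reverse.1 hp')
      exact ⟨VG_mono (by omega) le_rfl le_rfl this.2, VG_mono (by omega) le_rfl le_rfl this.1⟩
  · filter_upwards [hyg'] with i h
    rw [Phi_append, Phi_rev, Pi.mul_apply, Pi.inv_apply, CE.mul_g, CE.inv_g, h, mul_inv_cancel]
  · refine (ha.add hya).congr ?_
    filter_upwards [hyg'] with i h
    rw [Phi_append, Phi_rev, Pi.mul_apply, Pi.inv_apply, CE.mul_a, CE.inv_a, CE.inv_g, h]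
    ring

end Scale

/-- Universal scale on pairs `(ε, c)` with `sz r (ε, c) = |c|` and `a = 2 β + 3`; `st0` with
`β + 1`, `exists_tuple`, `extract`, `interp`. -/
theorem st0_pt {β : ℕ} (hβ : 1 ≤ β) : ∃ (n₁ : ℕ) (e₀ : ℝ) (C : ℕ → ℝ), 0 < e₀ ∧ e₀ ≤ 1 / 2 ∧
    (∀ r, 0 ≤ C r) ∧ ∀ ε c : ℝ, 0 < ε → ε ≤ e₀ → |c| ≤ ε ^ (2 * β + 3) →
      ∃ x : Fin n₁ → Gc × Gc,
        (∀ k, Sml (-3) 3 (fun r => C r * ε ^ β) (x k).1 ∧
          Sml (-3) 3 (fun r => C r * ε ^ β) (x k).2) ∧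
        Phi (List.ofFn x) = 1 ∧ |c - (PhiL vl (List.ofFn x)).a| ≤ (ε / 2) ^ (2 * β + 3) := by
  let U : UData :=
    { ι := {p : ℝ × ℝ // 0 < p.1 ∧ p.1 ≤ 1 / 2}
      ε := fun p => p.1.1
      sz := fun _ p => |p.1.2|
      a := 2 * β + 3
      pos := fun p => p.2.1
      le_half := fun p => p.2.2
      nonneg := fun _ _ => abs_nonneg _
      mono := fun _ _ _ _ => le_rfl }
  have hc : U.scale.OdS (2 * (β + 1) + 1) fun p => p.1.2 :=
    U.tautS (c := fun p => p.1.2) fun _ => le_rfl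
  obtain ⟨x, hx, hg, ha⟩ := Scale.st0 (S := U.scale) (β := β + 1) (by omega) hc
  obtain ⟨y, hy, hyx⟩ := Scale.exists_tuple x hx
  obtain ⟨A, hA, K, C, hC, hctl⟩ := Scale.extract (a := fun _ => -3) (b := fun _ => 3) y hy
  have hsm : ∀ᶠ i in U.scale.F, |i.1.2 - (Phi x i).a| ≤
      (1 / 2) ^ (2 * β + 3) * U.scale.ε i ^ (2 * β + 3) :=
    Scale.OdS.small (n := 2 * β + 3) ha (by positivity)
  obtain ⟨e, he, r₀, hall⟩ := U.mem_filt.1 (inter_mem hA (inter_mem hg hsm))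
  choose R _ hR using fun r => interp r (β + 1) K
  choose C' hC' hint using fun r => hR r (C 0) (2 * C (R r))
  refine ⟨x.length, min e (1 / 2), C', lt_min he one_half_pos, min_le_right _ _, hC', ?_⟩
  intro ε c hε hεe hcε
  have h2 : ε ≤ 1 / 2 := hεe.trans (min_le_right _ _)
  let i : U.ι := ⟨(ε, c), hε, h2⟩
  obtain ⟨hiA, hig, his⟩ := hall i (hεe.trans (min_le_left _ _)) hcε
  have hc1 : |c| ≤ 1 := hcε.trans (pow_le_one₀ hε.le (by linarith))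
  have key : ∀ u : Gc, Ctl (-3) 3 (C 0 * ε ^ (β + 1)) (fun r => C r * (1 + |c|) / ε ^ K) u →
      Sml (-3) 3 (fun r => C' r * ε ^ β) u := by
    intro u hu
    refine ⟨hu.1, fun r => (sn_le_nm le_rfl _).trans ((hint r ε _ hε (by linarith) (Gc.sm u)
      hu.2.1 ((hu.2.2 _).trans ?_)).trans ?_)⟩
    · refine div_le_div_of_nonneg_right ?_ (by positivity)
      nlinarith [hC (R r)]
    · have hs : 0 < √ε := Real.sqrt_pos.2 hε
      have hs1 : ε ≤ √ε := by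
        refine Real.le_sqrt_of_sq_le ?_
        nlinarith
      rw [div_le_iff₀ hs, pow_succ, ← mul_assoc]
      exact mul_le_mul_of_nonneg_left hs1 (mul_nonneg (hC' r) (by positivity))
  refine ⟨evT y i, fun k => ⟨key _ (hctl i hiA k).1, key _ (hctl i hiA k).2⟩, ?_, ?_⟩
  · rw [← PhiL_g (c := btc), hyx i]
    exact hig
  · rw [hyx i, div_eq_mul_one_div ε 2, mul_pow, mul_comm]
    exact his

end Pool.Agent.P.MP_7bb7e1_gt
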