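import Pool.Agent.P.MP_7bb7e1_gt.Comp
import Pool.Agent.P.MP_7bb7e1_gt.Norm2

/-! Scales, orders of families of numbers and of functions. -/

namespace Pool.Agent.P.MP_7bb7e1_gt

open Filter Asymptotics
open scoped Topology

/-- an index set with a filter, a small parameter and weights -/
structure Scale where
  ι : Type
  F : Filter ι
  ε : ι → ℝ
  H : ℕ → ι → ℝ
  pos : ∀ i, 0 < ε i
  le_half : ∀ i, ε i ≤ 1 / 2
  tend : Tendsto ε F (𝓝 0)
  one_le : ∀ r i, 1 ≤ H r i
  mono : ∀ i, Monotone fun r => H r i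
  ev : ∀ r, ∀ᶠ i in F, H r i ≤ 2

namespace Scale

variable (S : Scale)

/-- scalar family of order `n` -/
def OdS (n : ℕ) (c : S.ι → ℝ) : Prop := c =O[S.F] fun i => S.ε i ^ n

/-- family of functions of order `n` -/
def Od (n : ℕ) (f : S.ι → ℝ → ℝ) : Prop :=
  (∀ᶠ i in S.F, Sm (f i)) ∧ ∀ r, S.OdS n fun i => sn r (f i)

/-- tame family of functions -/
def Tame (f : S.ι → ℝ → ℝ) : Prop :=
  ∃ K : ℕ, ∃ A ∈ S.F, (∀ i ∈ A, Sm (f i)) ∧
    ∀ r, ∃ C : ℝ, ∀ i ∈ A, sn r (f i) ≤ C * S.H r i / S.ε i ^ K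

variable {S} {m n k : ℕ} {c d : S.ι → ℝ} {f g : S.ι → ℝ → ℝ}

theorem odS_iff : S.OdS n c ↔ ∃ C : ℝ, 0 ≤ C ∧ ∀ᶠ i in S.F, |c i| ≤ C * S.ε i ^ n := by
  unfold OdS
  constructor
  · intro h
    obtain ⟨C, hC, h⟩ := h.exists_nonneg
    refine ⟨C, hC, h.bound.mono fun i hi => ?_⟩
    rwa [Real.norm_eq_abs, Real.norm_eq_abs, abs_of_pos (pow_pos (S.pos i) n)] at hi
  · rintro ⟨C, -, h⟩
    refine IsBigO.of_bound C (h.mono fun i hi => ?_)
    rwa [Real.norm_eq_abs, Real.norm_eq_abs, abs_of_pos (pow_pos (S.pos i) n)]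

theorem OdS.congr (h : S.OdS n c) (e : ∀ᶠ i in S.F, c i = d i) : S.OdS n d := 
  IsBigO.congr' h e (EventuallyEq.refl _ _)

theorem OdS.of_le (h : S.OdS n c) (C : ℝ) (e : ∀ᶠ i in S.F, |d i| ≤ C * |c i|) : S.OdS n d := 
  IsBigO.trans (IsBigO.of_bound C e) h

theorem OdS.mono (h : S.OdS n c) (hm : m ≤ n) : S.OdS m c := by
  obtain ⟨C, hC, h⟩ := odS_iff.1 h
  refine odS_iff.2 ⟨C, hC, h.mono fun i hi => hi.trans ?_⟩
  exact mul_le_mul_of_nonneg_left
    (pow_le_pow_of_le_one (S.pos i).le (by linarith [S.le_half i]) hm) hC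

theorem odS_zero : S.OdS n fun _ => 0 := isBigO_zero _ _

theorem odS_const (a : ℝ) : S.OdS 0 fun _ => a := 
  odS_iff.2 ⟨|a|, abs_nonneg a, Eventually.of_forall fun i => by simp⟩

theorem odS_pow (n : ℕ) : S.OdS n fun i => S.ε i ^ n := isBigO_refl _ _

theorem OdS.add (h : S.OdS n c) (h' : S.OdS n d) : S.OdS n fun i => c i + d i := 
  IsBigO.add h h'

theorem OdS.neg (h : S.OdS n c) : S.OdS n fun i => -c i := IsBigO.neg_left h

theorem OdS.sub (h : S.OdS n c) (h' : S.OdS n d) : S.OdS n fun i => c i - d i := 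
  IsBigO.sub h h'

theorem OdS.abs (h : S.OdS n c) : S.OdS n fun i => |c i| := IsBigO.abs_left h

theorem OdS.const_mul (h : S.OdS n c) (a : ℝ) : S.OdS n fun i => a * c i := 
  IsBigO.const_mul_left h a

theorem OdS.mul (h : S.OdS m c) (h' : S.OdS n d) : S.OdS (m + n) fun i => c i * d i := by
  unfold OdS
  simp only [pow_add]
  exact IsBigO.mul h h'

theorem OdS.div_pow (h : S.OdS (n + k) c) : S.OdS n fun i => c i / S.ε i ^ k := by
  obtain ⟨C, hC, h⟩ := odS_iff.1 h
  refine odS_iff.2 ⟨C, hC, h.mono fun i hi => ?_⟩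
  have hp := pow_pos (S.pos i) k
  rw [abs_div, abs_of_pos hp, div_le_iff₀ hp, mul_assoc, ← pow_add]
  exact hi

theorem OdS.of_pow_mul (h : S.OdS (n + k) fun i => S.ε i ^ k * c i) : S.OdS n c := 
  h.div_pow.congr (Eventually.of_forall fun i =>
    mul_div_cancel_left₀ _ (pow_pos (S.pos i) k).ne')

theorem OdS.small (h : S.OdS (n + 1) c) {δ : ℝ} (hδ : 0 < δ) :
    ∀ᶠ i in S.F, |c i| ≤ δ * S.ε i ^ n := by
  obtain ⟨C, hC, h⟩ := odS_iff.1 h
  have h1 : ∀ᶠ i in S.F, S.ε i ≤ δ / (C + 1) :=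
    S.tend.eventually (ge_mem_nhds (by positivity))
  filter_upwards [h, h1] with i hi hi'
  refine hi.trans ?_
  have hp := pow_pos (S.pos i) n
  rw [le_div_iff₀ (by positivity)] at hi'
  have h2 : C * S.ε i ≤ δ := by nlinarith [S.pos i]
  rw [pow_succ', ← mul_assoc]
  exact mul_le_mul_of_nonneg_right h2 hp.le

theorem eps_small (S : Scale) {δ : ℝ} (hδ : 0 < δ) : ∀ᶠ i in S.F, S.ε i ≤ δ := 
  S.tend.eventually (ge_mem_nhds hδ)

theorem Od.sm (h : S.Od n f) : ∀ᶠ i in S.F, Sm (f i) := h.1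

theorem Od.odS_sn (h : S.Od n f) (r : ℕ) : S.OdS n fun i => sn r (f i) := h.2 r

theorem Od.odS_nm (h : S.Od n f) (r : ℕ) : S.OdS n fun i => nm r (f i) := 
  IsBigO.fun_sum (A := fun j i => sn j (f i)) fun j _ => h.2 j

theorem Od.congr (h : S.Od n f) (e : ∀ᶠ i in S.F, f i = g i) : S.Od n g := 
  ⟨(h.1.and e).mono fun _ hi => hi.2 ▸ hi.1, fun r => (h.2 r).congr (e.mono fun _ hi => by rw [hi])⟩

theorem Od.mono (h : S.Od n f) (hm : m ≤ n) : S.Od m f := ⟨h.1, fun r => (h.2 r).mono hm⟩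

theorem Od.of_le (h : S.Od n f) (hs : ∀ᶠ i in S.F, Sm (g i))
    (e : ∀ r, ∃ r' : ℕ, ∃ C : ℝ, ∀ᶠ i in S.F, sn r (g i) ≤ C * nm r' (f i)) : S.Od n g := by
  refine ⟨hs, fun r => ?_⟩
  obtain ⟨r', C, e⟩ := e r
  refine (h.odS_nm r').of_le C (e.mono fun i hi => ?_)
  rwa [abs_of_nonneg (sn_nonneg _ _), abs_of_nonneg (nm_nonneg _ _)]

theorem Od.small (h : S.Od (n + 1) f) (r : ℕ) {δ : ℝ} (hδ : 0 < δ) :
    ∀ᶠ i in S.F, nm r (f i) ≤ δ * S.ε i ^ n := 
  ((h.odS_nm r).small hδ).mono fun _ hi => (le_abs_self _).trans hi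

/-- a nonnegative family bounded by a family of order `n` -/
theorem scale_aux1 {r : ℕ} (h : S.OdS n c) (e : ∀ᶠ i in S.F, sn r (f i) ≤ c i) :
    S.OdS n fun i => sn r (f i) :=
  h.of_le 1 (e.mono fun i hi => by
    rw [abs_of_nonneg (sn_nonneg _ _), one_mul]
    exact hi.trans (le_abs_self _))

theorem od_zero : S.Od n fun _ _ => 0 := 
  ⟨Eventually.of_forall fun _ => sm_const 0, fun r =>
    odS_zero.congr (Eventually.of_forall fun _ => (sn_zero_fun r).symm)⟩

theorem od_const {φ : ℝ → ℝ} (h : Sm φ) : S.Od 0 fun _ => φ := 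
  ⟨Eventually.of_forall fun _ => h, fun _ => odS_const _⟩

theorem OdS.od_cst (h : S.OdS n c) : S.Od n fun i _ => c i := by
  refine ⟨Eventually.of_forall fun i => sm_const _, fun r => ?_⟩
  cases r with
  | zero => exact h.abs.congr (Eventually.of_forall fun i => (sn_const_zero _).symm)
  | succ r => exact odS_zero.congr (Eventually.of_forall fun i => (sn_const_succ r _).symm)

theorem Od.add (h : S.Od n f) (h' : S.Od n g) : S.Od n fun i x => f i x + g i x := 
  ⟨(h.1.and h'.1).mono fun _ hi => hi.1.add hi.2, fun r => scale_aux1 ((h.2 r).add (h'.2 r))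
    ((h.1.and h'.1).mono fun _ hi => sn_add_le hi.1 hi.2 r)⟩

theorem Od.neg (h : S.Od n f) : S.Od n fun i x => -f i x := 
  ⟨h.1.mono fun _ hi => hi.neg, fun r =>
    (h.2 r).congr (Eventually.of_forall fun _ => (sn_neg r _).symm)⟩

theorem Od.sub (h : S.Od n f) (h' : S.Od n g) : S.Od n fun i x => f i x - g i x := 
  ⟨(h.1.and h'.1).mono fun _ hi => hi.1.sub hi.2, fun r => scale_aux1 ((h.2 r).add (h'.2 r))
    ((h.1.and h'.1).mono fun _ hi => sn_sub_le hi.1 hi.2 r)⟩

theorem Od.const_mul (h : S.Od n f) (a : ℝ) : S.Od n fun i x => a * f i x := 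
  ⟨h.1.mono fun _ hi => hi.const_mul a, fun r =>
    ((h.2 r).const_mul |a|).congr (h.1.mono fun _ hi => (sn_const_mul hi r a).symm)⟩

theorem Od.mul (h : S.Od m f) (h' : S.Od n g) : S.Od (m + n) fun i x => f i x * g i x := 
  ⟨(h.1.and h'.1).mono fun _ hi => hi.1.mul hi.2, fun r =>
    scale_aux1 (((h.odS_nm r).mul (h'.odS_nm r)).const_mul (2 ^ r))
      ((h.1.and h'.1).mono fun _ hi => sn_mul_le_nm hi.1 hi.2 r)⟩

theorem Od.smul (hc : S.OdS m c) (h : S.Od n f) : S.Od (m + n) fun i x => c i * f i x := 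
  hc.od_cst.mul h

theorem Od.fix_mul (h : S.Od n f) {φ : ℝ → ℝ} (hφ : Sm φ) : S.Od n fun i x => φ x * f i x := by
  have := (od_const (S := S) hφ).mul h
  rwa [zero_add] at this

theorem Od.pow_mul (h : S.Od n f) (k : ℕ) : S.Od (k + n) fun i x => S.ε i ^ k * f i x := 
  Od.smul (odS_pow k) h

theorem Od.div_pow (h : S.Od (n + k) f) : S.Od n fun i x => f i x / S.ε i ^ k := by
  have e : ∀ i, (fun x => f i x / S.ε i ^ k) = fun x => (S.ε i ^ k)⁻¹ * f i x := fun i =>
    funext fun x => by rw [div_eq_inv_mul]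
  refine ⟨h.1.mono fun i hi => by beta_reduce; rw [e]; exact hi.const_mul _, fun r =>
    (h.2 r).div_pow.congr (h.1.mono fun i hi => ?_)⟩
  beta_reduce
  rw [e, sn_const_mul hi, abs_of_pos (inv_pos.2 (pow_pos (S.pos i) k)), div_eq_inv_mul]

theorem Od.of_pow_mul (h : S.Od (n + k) fun i x => S.ε i ^ k * f i x) : S.Od n f := 
  h.div_pow.congr (Eventually.of_forall fun i => funext fun _ =>
    mul_div_cancel_left₀ _ (pow_pos (S.pos i) k).ne')

theorem Od.deriv (h : S.Od n f) : S.Od n fun i => deriv (f i) := 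
  ⟨h.1.mono fun _ hi => hi.deriv, fun r =>
    (h.2 (r + 1)).congr (Eventually.of_forall fun _ => (sn_deriv r _).symm)⟩

theorem Od.br (h : S.Od m f) (h' : S.Od n g) : S.Od (m + n) fun i => br (f i) (g i) := 
  (h.mul h'.deriv).sub (h.deriv.mul h')

theorem Od.comp_aff (h : S.Od n f) (l a : ℝ) : S.Od n fun i x => f i (l * x + a) := by
  rcases eq_or_ne l 0 with rfl | hl
  · have h1 : S.OdS n fun i => f i a := (h.2 0).of_le 1 (h.1.mono fun i hi => by
      rw [one_mul, abs_of_nonneg (sn_nonneg _ _)]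
      exact abs_le_sn_zero hi _)
    simpa only [zero_mul, zero_add] using h1.od_cst
  · exact ⟨h.1.mono fun _ hi => hi.comp_aff l a, fun r =>
      ((h.2 r).const_mul (|l| ^ r)).congr (h.1.mono fun _ hi => (sn_comp_aff hi hl a r).symm)⟩

theorem Od.comp_add (h : S.Od n f) (c : S.ι → ℝ) : S.Od n fun i x => f i (x + c i) := 
  ⟨h.1.mono fun _ hi => hi.comp_add _, fun r =>
    (h.2 r).congr (Eventually.of_forall fun _ => (sn_comp_add _ _ r).symm)⟩

theorem Od.apply (h : S.Od n f) (x : S.ι → ℝ) : S.OdS n fun i => f i (x i) := 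
  (h.2 0).of_le 1 (h.1.mono fun i hi => by
    rw [one_mul, abs_of_nonneg (sn_nonneg _ _)]
    exact abs_le_sn_zero hi _)

theorem Od.integral (h : S.Od n f) {a b : ℝ} (hv : ∀ᶠ i in S.F, Van a b (f i)) :
    S.OdS n fun i => ∫ x, f i x := by
  refine (h.2 0).of_le (max a b - a) ((h.1.and hv).mono fun i hi => ?_)
  rw [abs_of_nonneg (sn_nonneg _ _)]
  exact abs_integral_le (hi.2.mono le_rfl (le_max_right a b)) (le_max_left a b)
    (abs_le_sn_zero hi.1)

/-- use `nm_comp_le` -/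
theorem Od.comp (h : S.Od n f) (h' : S.Od 0 g) : S.Od n fun i x => f i (x + g i x) := by
  refine h.of_le ((h.1.and h'.1).mono fun _ hi => hi.1.comp hi.2) fun r => ?_
  obtain ⟨M, -, hM⟩ := odS_iff.1 (h'.odS_nm r)
  obtain ⟨C, -, hC⟩ := nm_comp_le r M
  refine ⟨r, C, ?_⟩
  filter_upwards [h.1, h'.1, hM] with i h1 h2 h3
  rw [pow_zero, mul_one] at h3
  exact (sn_le_nm le_rfl _).trans (hC _ _ h1 h2 ((le_abs_self _).trans h3))

/-- induction on the order of the derivative, for all `f` at once: the derivative of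
`f ∘ u - f` is `(f' ∘ u - f') + (f' ∘ u) g'` -/
theorem Od.comp_sub (h : S.Od m f) (h' : S.Od n g) :
    S.Od (m + n) fun i x => f i (x + g i x) - f i x := by
  have h0 : S.Od 0 g := h'.mono n.zero_le
  refine ⟨(h.1.and h'.1).mono fun _ hi => (hi.1.comp hi.2).sub hi.1, fun r => ?_⟩
  induction r generalizing f with
  | zero =>
    refine scale_aux1 ((h.2 1).mul (h'.2 0)) ?_
    filter_upwards [h.1, h'.1] with i h1 h2
    refine sn_le fun x => ?_
    rw [iteratedDeriv_zero]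
    refine (abs_sub_le_sn h1 _ _).trans (mul_le_mul_of_nonneg_left ?_ (sn_nonneg _ _))
    rw [add_sub_cancel_left]
    exact abs_le_sn_zero h2 x
  | succ r ih =>
    refine scale_aux1 ((ih h.deriv).add (((h.deriv.comp h0).mul h'.deriv).2 r)) ?_
    filter_upwards [h.1, h'.1] with i h1 h2
    have e : _root_.deriv (fun x => f i (x + g i x) - f i x) = fun x =>
        (_root_.deriv (f i) (x + g i x) - _root_.deriv (f i) x) +
          _root_.deriv (f i) (x + g i x) * _root_.deriv (g i) x := funext fun x => by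
      rw [((CompL.hasDerivAt_comp h1 h2 x).fun_sub (h1.differentiable x).hasDerivAt).deriv]
      ring
    rw [← sn_deriv, e]
    exact sn_add_le ((h1.deriv.comp h2).sub h1.deriv) ((h1.deriv.comp h2).mul h2.deriv) r

/-- the derivative is `(f' ∘ u - f' - f'' g) + (f' ∘ u - f') g'`; base case `taylor_two` -/
theorem Od.comp_sub_two (h : S.Od m f) (h' : S.Od n g) :
    S.Od (m + 2 * n) fun i x => f i (x + g i x) - f i x - _root_.deriv (f i) x * g i x := by
  refine ⟨(h.1.and h'.1).mono fun _ hi =>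
    ((hi.1.comp hi.2).sub hi.1).sub (hi.1.deriv.mul hi.2), fun r => ?_⟩
  induction r generalizing f with
  | zero =>
    rw [two_mul]
    refine scale_aux1 ((h.2 2).mul ((h'.2 0).mul (h'.2 0))) ?_
    filter_upwards [h.1, h'.1] with i h1 h2
    refine sn_le fun x => ?_
    rw [iteratedDeriv_zero]
    refine (taylor_two h1 _ _).trans (mul_le_mul_of_nonneg_left ?_ (sn_nonneg _ _))
    rw [← sq_abs, sq]
    exact mul_self_le_mul_self (abs_nonneg _) (abs_le_sn_zero h2 x)
  | succ r ih =>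
    have h3 := ((h.deriv.comp_sub h').mul h'.deriv).2 r
    rw [add_assoc, ← two_mul] at h3
    refine scale_aux1 ((ih h.deriv).add h3) ?_
    filter_upwards [h.1, h'.1] with i h1 h2
    have e : _root_.deriv (fun x => f i (x + g i x) - f i x - _root_.deriv (f i) x * g i x) =
        fun x => (_root_.deriv (f i) (x + g i x) - _root_.deriv (f i) x -
          _root_.deriv (_root_.deriv (f i)) x * g i x) +
          (_root_.deriv (f i) (x + g i x) - _root_.deriv (f i) x) * _root_.deriv (g i) x :=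
      funext fun x => by
        rw [(((CompL.hasDerivAt_comp h1 h2 x).fun_sub (h1.differentiable x).hasDerivAt).fun_sub
          ((h1.deriv.differentiable x).hasDerivAt.fun_mul (h2.differentiable x).hasDerivAt)).deriv]
        ring
    rw [← sn_deriv, e]
    exact sn_add_le (((h1.deriv.comp h2).sub h1.deriv).sub (h1.deriv.deriv.mul h2))
      (((h1.deriv.comp h2).sub h1.deriv).mul h2.deriv) r

end Scale

end Pool.Agent.P.MP_7bb7e1_gt
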