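import Pool.Agent.P.MP_3c7b76_co.Kak

/-! The Schauder fixed point theorem. -/

namespace Pool.Agent.P.MP_7bb7e1_gt

open Set

theorem schauder_approx {X : Type*} [NormedAddCommGroup X] [NormedSpace ℝ X] {K : Set X}
    (hc : Convex ℝ K) (hK : IsCompact K) (hne : K.Nonempty) {T : X → X} (hT : ContinuousOn T K)
    (hm : MapsTo T K K) {ε : ℝ} (hε : 0 < ε) : ∃ x ∈ K, dist (T x) x ≤ ε := by
  obtain ⟨s, hsK, hfin, hcov⟩ := hK.finite_cover_balls hε
  obtain ⟨n, y, hy⟩ := hfin.fin_param
  have hyK : ∀ i, y i ∈ K := fun i => hsK (hy.2 ▸ mem_range_self i)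
  have hnet : ∀ x ∈ K, ∃ i, dist x (y i) < ε := fun x hx => by
    obtain ⟨z, hz, hxz⟩ := mem_iUnion₂.1 (hcov hx)
    rw [← hy.2] at hz
    obtain ⟨i, rfl⟩ := hz
    exact ⟨i, hxz⟩
  have : Nonempty (Fin n) := by
    obtain ⟨x, hx⟩ := hne
    obtain ⟨i, -⟩ := hnet x hx
    exact ⟨i⟩
  obtain ⟨ρ, hρ, hρ1, hρ2⟩ := Pool.Agent.P.MP_3c7b76_co.exists_retr (Fin n)
  let g : (Fin n → ℝ) → X := fun t => ∑ i, ρ t i • y i
  have hg : Continuous g := continuous_finsetSum _ fun i _ =>
    ((continuous_apply i).comp hρ).smul continuous_const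
  have hgK : ∀ t, g t ∈ K := fun t =>
    hc.sum_mem (fun i _ => (hρ1 t).1 i) (hρ1 t).2 fun i _ => hyK i
  have hTg : Continuous fun t => T (g t) := hT.comp_continuous hg hgK
  let w : X → Fin n → ℝ := fun x i => max 0 (ε - dist x (y i))
  have hw0 : ∀ x i, 0 ≤ w x i := fun x i => le_max_left _ _
  have hS : ∀ x ∈ K, 0 < ∑ i, w x i := fun x hx => by
    obtain ⟨i, hi⟩ := hnet x hx
    exact Finset.sum_pos' (fun j _ => hw0 x j)
      ⟨i, Finset.mem_univ _, lt_max_of_lt_right (sub_pos.2 hi)⟩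
  have hwc : ∀ i, Continuous fun t => w (T (g t)) i := fun i =>
    continuous_const.max (continuous_const.sub (hTg.dist continuous_const))
  let F : (Fin n → ℝ) → Fin n → ℝ := fun t i => w (T (g t)) i / ∑ j, w (T (g t)) j
  have hF0 : ∀ t i, 0 ≤ F t i := fun t i => div_nonneg (hw0 _ _) (hS _ (hm (hgK t))).le
  have hF1 : ∀ t, ∑ i, F t i = 1 := fun t => by
    rw [← Finset.sum_div, div_self (hS _ (hm (hgK t))).ne']
  obtain ⟨t, ht⟩ := Pool.Agent.P.MP_3c7b76_co.brouwer (F := F)
    (continuous_pi fun i => (hwc i).div (continuous_finsetSum _ fun j _ => hwc j)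
      fun t => (hS _ (hm (hgK t))).ne')
    fun t => (pi_norm_le_iff_of_nonneg zero_le_one).2 fun i => by
      rw [Real.norm_of_nonneg (hF0 t i), ← hF1 t]
      exact Finset.single_le_sum (fun j _ => hF0 t j) (Finset.mem_univ i)
  have h1 : ρ t = F t := by
    rw [hρ2 t (ht ▸ hF0 t) (ht ▸ hF1 t), ht]
  refine ⟨g t, hgK t, ?_⟩
  have h2 : g t ∈ Metric.closedBall (T (g t)) ε := by
    have e : g t = ∑ i ∈ Finset.univ.filter (fun i => F t i ≠ 0), F t i • y i := by
      rw [Finset.sum_filter_of_ne fun i _ h => left_ne_zero_of_smul h, ← h1]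
    have : ∑ i ∈ Finset.univ.filter (fun i => F t i ≠ 0), F t i • y i ∈
        Metric.closedBall (T (g t)) ε := by
      refine (convex_closedBall _ _).sum_mem (fun i _ => hF0 t i)
        (by rw [Finset.sum_filter_ne_zero, hF1]) fun i hi => ?_
      have h3 : w (T (g t)) i ≠ 0 := fun h => (Finset.mem_filter.1 hi).2 (by simp only [F, h, zero_div])
      rw [Metric.mem_closedBall, dist_comm]
      by_contra h4
      exact h3 (max_eq_left (by linarith [not_le.1 h4]))
    rwa [← e] at this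
  rwa [Metric.mem_closedBall, dist_comm] at h2

/-- Finite net, partition of unity by distance functions, `brouwer` and `exists_retr` from the
imported file give approximate fixed points; compactness gives a fixed point. -/
theorem schauder {X : Type*} [NormedAddCommGroup X] [NormedSpace ℝ X] {K : Set X}
    (hc : Convex ℝ K) (hK : IsCompact K) (hne : K.Nonempty) {T : X → X} (hT : ContinuousOn T K)
    (hm : MapsTo T K K) : ∃ x ∈ K, T x = x := by
  have hd : ContinuousOn (fun x => dist (T x) x) K :=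
    continuous_dist.comp_continuousOn (hT.prodMk continuousOn_id)
  obtain ⟨x, hx, hmin⟩ := hK.exists_isMinOn hne hd
  refine ⟨x, hx, dist_le_zero.1 (le_of_forall_pos_le_add fun ε hε => ?_)⟩
  obtain ⟨z, hz, h⟩ := schauder_approx hc hK hne hT hm hε
  rw [zero_add]
  exact (hmin hz).trans h

end Pool.Agent.P.MP_7bb7e1_gt
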