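import Pool.Agent.P.MP_7bb7e1_gt.Grp2
import Pool.Agent.P.MP_7bb7e1_gt.BT

/-! Families in the Virasoro group; central extensions of the group of germs. -/

namespace Pool.Agent.P.MP_7bb7e1_gt

open Filter
open scoped commutatorElement

namespace Scale

variable {S : Scale} {m n : ℕ} {a b c d : ℝ} {v w : S.ι → Vir}

/-- the diffeomorphism part of a family -/
noncomputable def gp : (S.ι → Vir) →* (S.ι → Pm) where
  toFun v := fun i => (v i).g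
  map_one' := rfl
  map_mul' _ _ := rfl

@[simp] theorem gp_apply (v : S.ι → Vir) (i : S.ι) : gp v i = ((v i).g : Pm) := rfl

/-- `abs_bt_le` -/
theorem bt_od {g h : S.ι → Gc} (hg : cF g ∈ S.GB m) (hh : cF h ∈ S.GF n a b) :
    S.OdS (m + n) fun i => bt (g i) (h i) := by
  have h0 : (0 : ℝ) < 1 / 2 := by norm_num
  refine (((GB_od hg).odS_sn 1).mul ((GB_od hh.1).odS_sn 2)).of_le (4 * (max a b - a)) ?_
  filter_upwards [GB_small hg 1 h0, GB_small hh.1 1 h0, GF_fix hh] with i e1 e2 e3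
  refine (abs_bt_le (le_max_left a b) (Fix.mono e3 le_rfl (le_max_right a b))
    ((sn_le_nm le_rfl _).trans e1.2) ((sn_le_nm le_rfl _).trans e2.2)).trans ?_
  exact mul_le_mul_of_nonneg_left (le_abs_self _)
    (mul_nonneg (by norm_num) (sub_nonneg.2 (le_max_left a b)))

theorem virF1_sub {g h : S.ι → Gc} (hm : 1 ≤ m) (hn : 1 ≤ n) (hg : cF g ∈ S.GB m)
    (hh : cF h ∈ S.GF n a b) :
    S.OdS (m + n + 1) fun i => bt (g i) (h i) -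
      ∫ x, deriv (dp (g i : Pm)) x * deriv (deriv (dp (h i : Pm))) x := by
  have h0 : (0 : ℝ) < 1 / 2 := by norm_num
  have G := GB_od hg
  have H := GB_od hh.1
  have k1 := ((G.odS_sn 1).mul (G.odS_sn 1)).mono (m := m + 1) (by omega)
  have k2 := ((G.odS_sn 2).mul (H.odS_sn 0)).mono (m := m + 1) (by omega)
  have k3 := ((G.odS_sn 1).mul (H.odS_sn 1)).mono (m := m + 1) (by omega)
  have k4 := (((k1.add k2).add k3).mul (H.odS_sn 2)).mono (m := m + n + 1) (by omega)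
  refine k4.of_le (8 * (max a b - a)) ?_
  filter_upwards [GB_small hg 1 h0, GB_small hh.1 1 h0, GF_fix hh] with i e1 e2 e3
  refine (abs_bt_sub_le (le_max_left a b) (Fix.mono e3 le_rfl (le_max_right a b))
    ((sn_le_nm le_rfl _).trans e1.2) ((sn_le_nm le_rfl _).trans e2.2)).trans ?_
  exact mul_le_mul_of_nonneg_left (le_abs_self _)
    (mul_nonneg (by norm_num) (sub_nonneg.2 (le_max_left a b)))

variable (S) in
noncomputable def VG (n : ℕ) (a b : ℝ) : Subgroup (S.ι → Vir) := (S.GF n a b).comap gp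

theorem mem_VG : v ∈ S.VG n a b ↔ gp v ∈ S.GF n a b := Iff.rfl

theorem odS_mul_a (hv : v ∈ S.VG n a b) (hw : w ∈ S.VG n a b) (h1 : S.OdS n fun i => (v i).a)
    (h2 : S.OdS n fun i => (w i).a) : S.OdS n fun i => ((v * w) i).a := by
  have h3 := (bt_od (g := fun i => (v i).g) (h := fun i => (w i).g) hv.1 hw).mono
    (Nat.le_add_right n n)
  exact (h1.add h2).add h3

theorem odS_inv_a (hv : v ∈ S.VG n a b) (h1 : S.OdS n fun i => (v i).a) :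
    S.OdS n fun i => (v⁻¹ i).a := by
  have h3 := (bt_od (g := fun i => (v i).g) (h := fun i => (v i).g⁻¹) hv.1 (inv_mem hv)).mono
    (Nat.le_add_right n n)
  exact h1.neg.sub h3

variable (S) in
noncomputable def VF (n : ℕ) (a b : ℝ) : Subgroup (S.ι → Vir) where
  carrier := {v | v ∈ S.VG n a b ∧ S.OdS n fun i => (v i).a}
  one_mem' := ⟨one_mem _, odS_zero⟩
  mul_mem' := fun hv hw => ⟨mul_mem hv.1 hw.1, odS_mul_a hv.1 hw.1 hv.2 hw.2⟩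
  inv_mem' := fun hv => ⟨inv_mem hv.1, odS_inv_a hv.1 hv.2⟩

theorem mem_VF : v ∈ S.VF n a b ↔ gp v ∈ S.GF n a b ∧ S.OdS n fun i => (v i).a := Iff.rfl

theorem VG_congr (hv : v ∈ S.VG n a b) (e : ∀ᶠ i in S.F, v i = w i) : w ∈ S.VG n a b :=
  GF_congr (g := gp v) (h := gp w) hv (e.mono fun i hi => by rw [gp_apply, gp_apply, hi])

theorem VF_congr (hv : v ∈ S.VF n a b) (e : ∀ᶠ i in S.F, v i = w i) : w ∈ S.VF n a b :=
  ⟨VG_congr hv.1 e, hv.2.congr (e.mono fun i hi => by rw [hi])⟩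

theorem VG_mono {a' b' : ℝ} (hmn : m ≤ n) (ha : a' ≤ a) (hb : b ≤ b') :
    S.VG n a b ≤ S.VG m a' b' := fun _ hv => GF_mono hmn ha hb hv

theorem VF_mono {a' b' : ℝ} (hmn : m ≤ n) (ha : a' ≤ a) (hb : b ≤ b') :
    S.VF n a b ≤ S.VF m a' b' := fun _ hv => ⟨VG_mono hmn ha hb hv.1, hv.2.mono hmn⟩

theorem VF_inter {a' b' : ℝ} (h : v ∈ S.VF n a b) (h' : v ∈ S.VF n a' b') : v ∈ S.VF n a' b :=
  ⟨⟨h.1.1, h'.1.2.1, h.1.2.2⟩, h.2⟩

theorem virF1_third (hm : 1 ≤ m) (hn : 1 ≤ n) (hv : v ∈ S.VG m a b) (hw : w ∈ S.VG n a b) :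
    S.OdS (m + n + 1) fun i => bt ⁅(v i).g, (w i).g⁆ ((w i).g * (v i).g) :=
  bt_od (g := fun i => ⁅(v i).g, (w i).g⁆) (h := fun i => (w i).g * (v i).g)
    (comm_mem_GB (g := gp v) (h := gp w) hm hn hv.1 hw.1)
    (mul_mem (VG_mono hn le_rfl le_rfl hw) (VG_mono hm le_rfl le_rfl hv) : w * v ∈ S.VG 1 a b)

/-- `comm_a`, `abs_bt_sub_le`, `gf_skew`, `bt_od` -/
theorem L3 (hm : 1 ≤ m) (hn : 1 ≤ n) (hv : v ∈ S.VG m a b) (hw : w ∈ S.VG n a b) :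
    S.OdS (m + n + 1) fun i => (⁅v i, w i⁆ : Vir).a -
      2 * ∫ x, deriv (dp ((v i).g : Pm)) x * deriv (deriv (dp ((w i).g : Pm))) x := by
  have h1 := virF1_sub (g := fun i => (v i).g) (h := fun i => (w i).g) hm hn hv.1 hw
  have h2 := (virF1_sub (g := fun i => (w i).g) (h := fun i => (v i).g) hn hm hw.1 hv).mono
    (m := m + n + 1) (by omega)
  refine ((h1.sub h2).sub (virF1_third hm hn hv hw)).congr (Eventually.of_forall fun i => ?_)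
  rw [comm_a, gf_skew (v i).g (w i).g]
  ring

theorem comm_mem_VF (hm : 1 ≤ m) (hn : 1 ≤ n) (hv : v ∈ S.VG m a b) (hw : w ∈ S.VG n a b) :
    ⁅v, w⁆ ∈ S.VF (m + n) a b := by
  refine ⟨?_, ?_⟩
  · rw [mem_VG, map_commutatorElement]
    exact comm_mem_GF hm hn hv.1 hw
  · have h1 := bt_od (g := fun i => (v i).g) (h := fun i => (w i).g) hv.1 hw
    have h2 := (bt_od (g := fun i => (w i).g) (h := fun i => (v i).g) hw.1 hv).mono
      (m := m + n) (by omega)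
    refine ((h1.sub h2).sub ((virF1_third hm hn hv hw).mono (Nat.le_succ _))).congr
      (Eventually.of_forall fun i => ?_)
    exact (comm_a (v i) (w i)).symm

theorem Phi_mem_VF (hn : 1 ≤ n) {x : List ((S.ι → Vir) × (S.ι → Vir))}
    (hx : ∀ p ∈ x, p.1 ∈ S.VG n a b ∧ p.2 ∈ S.VG n a b) : Phi x ∈ S.VF (n + n) a b := by
  induction x with
  | nil => rw [Phi_nil]; exact one_mem _
  | cons p x ih =>
    rw [Phi_cons]
    exact mul_mem (comm_mem_VF hn hn (hx p (by simp)).1 (hx p (by simp)).2)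
      (ih fun p' hp' => hx p' (by simp [hp']))

theorem conj_VG (hw : w ∈ S.VG 1 a b) (hv : v ∈ S.VG n c d) : w * v * w⁻¹ ∈ S.VG n c d := by
  rw [mem_VG, map_mul, map_mul, map_inv]
  exact conj_GF hw.1 hv

/-- `w v w⁻¹ = ⁅w, v⁆ v` -/
theorem conj_VF (hn : 1 ≤ n) (ha : a ≤ c) (hb : d ≤ b) (hw : w ∈ S.VG 1 a b)
    (hv : v ∈ S.VF n c d) : w * v * w⁻¹ ∈ S.VF n c d := by
  have h1 : v ∈ S.VF n a b := VF_mono le_rfl ha hb hv
  have h2 : ⁅w, v⁆ * v ∈ S.VF n a b :=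
    mul_mem (VF_mono (Nat.le_add_left n 1) le_rfl le_rfl (comm_mem_VF le_rfl hn hw h1.1)) h1
  have e : ⁅w, v⁆ * v = w * v * w⁻¹ := by
    rw [commutatorElement_def]; group
  rw [e] at h2
  exact ⟨conj_VG hw hv.1, h2.2⟩

/-- a family of permutations with compact supports is represented in the Virasoro group -/
theorem exists_Vir {g : S.ι → Pm} (hg : g ∈ S.GF n a b) :
    ∃ v ∈ S.VF n a b, (∀ i, (v i).a = 0) ∧ ∀ᶠ i in S.F, ((v i).g : Pm) = g i := by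
  obtain ⟨g', hg'⟩ := exists_Gc hg
  refine ⟨fun i => vl (g' i), ⟨?_, odS_zero⟩, fun _ => rfl, hg'⟩
  exact GF_congr (h := gp fun i => vl (g' i)) hg (hg'.mono fun i hi => hi.symm)

/-- fragmentation, from `frag` -/
theorem frag_VF {a' b' : ℝ} (hn : 1 ≤ n) (h1 : a ≤ a') (h2 : a' < b) (h3 : b ≤ b')
    (hv : v ∈ S.VF n a b') : ∃ u ∈ S.VF n a b, ∃ u' ∈ S.VF n a' b', v = u * u' := by
  have _ := hn
  have _ := h3
  have hi : v⁻¹ ∈ S.VF n a b' := inv_mem hv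
  obtain ⟨k', hk', e⟩ := frag (k := gp v⁻¹) (a := (2 * a' + b) / 3) (b := (a' + 2 * b) / 3)
    hi.1.1 (by linarith)
  have hk : k' ∈ S.GF n a' b' := by
    refine ⟨hk', ⟨(2 * a' + b) / 3, by linarith, e.mono fun i hi => hi.1⟩, ?_⟩
    obtain ⟨b'', hb, e'⟩ := hi.1.2.2
    refine ⟨b'', hb, ?_⟩
    filter_upwards [e, e'] with i e1 e2 x hx
    exact e1.2.2 x (e2 x hx)
  obtain ⟨t, ht, -, et⟩ := exists_Vir hk
  have hu : v * t ∈ S.VF n a b' := mul_mem hv (VF_mono le_rfl h1 le_rfl ht)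
  refine ⟨v * t, ⟨⟨hu.1.1, hu.1.2.1, (a' + 2 * b) / 3, by linarith, ?_⟩, hu.2⟩, t⁻¹, inv_mem ht,
    by group⟩
  filter_upwards [e, et] with i e1 e2 x hx
  rw [map_mul, Pi.mul_apply, Equiv.Perm.mul_apply, gp_apply t, e2, e1.2.1 x hx, map_inv,
    Pi.inv_apply]
  exact Equiv.apply_symm_apply _ _

variable (S) in
/-- germ of a family -/
noncomputable def gm : (S.ι → Vir) →* Germ S.F Vir := Germ.coeMulHom S.F

theorem gm_eq : S.gm v = S.gm w ↔ ∀ᶠ i in S.F, v i = w i := Germ.coe_eq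

theorem gm_eq_one : S.gm v = 1 ↔ ∀ᶠ i in S.F, v i = 1 := by
  rw [← map_one S.gm, gm_eq]; rfl

theorem gm_surj (u : Germ S.F Vir) : ∃ v, S.gm v = u := Germ.inductionOn u fun v => ⟨v, rfl⟩

variable (S) in
/-- a group over the germs of Virasoro families, central over the diffeomorphism part -/
structure Ext (E : Type*) [Group E] where
  q : E →* Germ S.F Vir
  cen : ∀ e v, q e = S.gm v → (∀ᶠ i in S.F, (v i).g = 1) → e ∈ Subgroup.center E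
  sur : ∀ a b v, v ∈ S.VG 1 a b → ∃ e, q e = S.gm v

namespace Ext

variable {E : Type*} [Group E] (X : S.Ext E)

noncomputable def EE (n : ℕ) (a b : ℝ) : Subgroup E := ((S.VG n a b).map S.gm).comap X.q

noncomputable def EV (n : ℕ) (a b : ℝ) : Subgroup E := ((S.VF n a b).map S.gm).comap X.q

noncomputable def NN (q : ℕ) (a b : ℝ) : Subgroup E :=
  ⨆ (m : ℕ) (n : ℕ) (_ : 1 ≤ m ∧ 1 ≤ n ∧ q ≤ m + n), ⁅X.EE m a b, X.EE n a b⁆

def PP (q : ℕ) : Prop := ∀ e ∈ X.NN q (-q) q, X.q e = 1 → e = 1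

/-- short high order cycles die -/
def HH (g₀ : ℕ) : Prop := ∀ (c : ℝ) (x : List (E × E)), x.length ≤ g₀ →
  (∀ p ∈ x, p.1 ∈ X.EE 7 (c - 1 / 2) (c + 1 / 2) ∧ p.2 ∈ X.EE 7 (c - 1 / 2) (c + 1 / 2)) →
    X.q (Phi x) = 1 → Phi x = 1

variable {X} {e e' : E}

theorem mem_EE : e ∈ X.EE n a b ↔ ∃ v ∈ S.VG n a b, X.q e = S.gm v :=
  ⟨fun ⟨v, hv, h⟩ => ⟨v, hv, h.symm⟩, fun ⟨v, hv, h⟩ => ⟨v, hv, h.symm⟩⟩

theorem mem_EV : e ∈ X.EV n a b ↔ ∃ v ∈ S.VF n a b, X.q e = S.gm v :=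
  ⟨fun ⟨v, hv, h⟩ => ⟨v, hv, h.symm⟩, fun ⟨v, hv, h⟩ => ⟨v, hv, h.symm⟩⟩

theorem EE_rep (h : e ∈ X.EE n a b) (hq : X.q e = S.gm v) : v ∈ S.VG n a b := by
  obtain ⟨u, hu, hq'⟩ := mem_EE.1 h
  exact VG_congr hu (gm_eq.1 (hq'.symm.trans hq))

theorem EV_rep (h : e ∈ X.EV n a b) (hq : X.q e = S.gm v) : v ∈ S.VF n a b := by
  obtain ⟨u, hu, hq'⟩ := mem_EV.1 h
  exact VF_congr hu (gm_eq.1 (hq'.symm.trans hq))

theorem EV_le_EE : X.EV n a b ≤ X.EE n a b := fun _ h => by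
  obtain ⟨u, hu, hq⟩ := mem_EV.1 h
  exact mem_EE.2 ⟨u, hu.1, hq⟩

theorem EE_mono {a' b' : ℝ} (hmn : m ≤ n) (ha : a' ≤ a) (hb : b ≤ b') :
    X.EE n a b ≤ X.EE m a' b' := fun _ h => by
  obtain ⟨u, hu, hq⟩ := mem_EE.1 h
  exact mem_EE.2 ⟨u, VG_mono hmn ha hb hu, hq⟩

theorem virf_VG_le_one (hv : v ∈ S.VG n a b) : v ∈ S.VG 1 a b :=
  mem_VG.2 (mem_GF.2 ⟨GB_le_one (mem_GF.1 (mem_VG.1 hv)).1, (mem_GF.1 (mem_VG.1 hv)).2⟩)

theorem EE_le_one : X.EE n a b ≤ X.EE 1 a b := fun _ h => by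
  obtain ⟨u, hu, hq⟩ := mem_EE.1 h
  exact mem_EE.2 ⟨u, virf_VG_le_one hu, hq⟩

theorem EV_mono {a' b' : ℝ} (hmn : m ≤ n) (ha : a' ≤ a) (hb : b ≤ b') :
    X.EV n a b ≤ X.EV m a' b' := fun _ h => by
  obtain ⟨u, hu, hq⟩ := mem_EV.1 h
  exact mem_EV.2 ⟨u, VF_mono hmn ha hb hu, hq⟩

theorem EV_inter {a' b' : ℝ} (h : e ∈ X.EV n a b) (h' : e ∈ X.EV n a' b') :
    e ∈ X.EV n a' b := by
  obtain ⟨u, hu, hq⟩ := mem_EV.1 h
  exact mem_EV.2 ⟨u, VF_inter hu (EV_rep h' hq), hq⟩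

theorem EV_congr (h : e ∈ X.EV n a b) (hq : X.q e = X.q e') : e' ∈ X.EV n a b := by
  obtain ⟨u, hu, hq'⟩ := mem_EV.1 h
  exact mem_EV.2 ⟨u, hu, hq.symm.trans hq'⟩

theorem exists_lift (hv : v ∈ S.VG n a b) : ∃ e ∈ X.EE n a b, X.q e = S.gm v := by
  obtain ⟨e, he⟩ := X.sur a b v (virf_VG_le_one hv)
  exact ⟨e, mem_EE.2 ⟨v, hv, he⟩, he⟩

theorem conj_EE (hw : e ∈ X.EE 1 a b) (h : e' ∈ X.EE n c d) :
    e * e' * e⁻¹ ∈ X.EE n c d := by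
  obtain ⟨u, hu, hq⟩ := mem_EE.1 hw
  obtain ⟨u', hu', hq'⟩ := mem_EE.1 h
  refine mem_EE.2 ⟨u * u' * u⁻¹, conj_VG hu hu', ?_⟩
  rw [map_mul, map_mul, map_inv, map_mul, map_mul, map_inv, hq, hq']

theorem conj_EV (hn : 1 ≤ n) (ha : a ≤ c) (hb : d ≤ b) (hw : e ∈ X.EE 1 a b)
    (h : e' ∈ X.EV n c d) : e * e' * e⁻¹ ∈ X.EV n c d := by
  obtain ⟨u, hu, hq⟩ := mem_EE.1 hw
  obtain ⟨u', hu', hq'⟩ := mem_EV.1 h
  refine mem_EV.2 ⟨u * u' * u⁻¹, conj_VF hn ha hb hu hu', ?_⟩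
  rw [map_mul, map_mul, map_inv, map_mul, map_mul, map_inv, hq, hq']

theorem comm_mem_EV (hm : 1 ≤ m) (hn : 1 ≤ n) (h : e ∈ X.EE m a b) (h' : e' ∈ X.EE n a b) :
    ⁅e, e'⁆ ∈ X.EV (m + n) a b := by
  obtain ⟨u, hu, hq⟩ := mem_EE.1 h
  obtain ⟨u', hu', hq'⟩ := mem_EE.1 h'
  refine mem_EV.2 ⟨⁅u, u'⁆, comm_mem_VF hm hn hu hu', ?_⟩
  rw [map_commutatorElement, map_commutatorElement, hq, hq']

theorem virf_comm_le_NN {q : ℕ} (hm : 1 ≤ m) (hn : 1 ≤ n) (hq : q ≤ m + n) :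
    ⁅X.EE m a b, X.EE n a b⁆ ≤ X.NN q a b :=
  le_iSup_of_le m (le_iSup_of_le n (le_iSup_of_le ⟨hm, hn, hq⟩ le_rfl))

theorem comm_mem_NN {q : ℕ} (hm : 1 ≤ m) (hn : 1 ≤ n) (hq : q ≤ m + n) (h : e ∈ X.EE m a b)
    (h' : e' ∈ X.EE n a b) : ⁅e, e'⁆ ∈ X.NN q a b :=
  virf_comm_le_NN hm hn hq (Subgroup.commutator_mem_commutator h h')

theorem NN_le {q : ℕ} {H : Subgroup E} (h : ∀ m n, 1 ≤ m → 1 ≤ n → q ≤ m + n →
    ∀ e ∈ X.EE m a b, ∀ e' ∈ X.EE n a b, ⁅e, e'⁆ ∈ H) : X.NN q a b ≤ H :=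
  iSup_le fun m => iSup_le fun n => iSup_le fun hh =>
    Subgroup.commutator_le.2 (h m n hh.1 hh.2.1 hh.2.2)

theorem NN_le_EV {q : ℕ} : X.NN q a b ≤ X.EV q a b :=
  NN_le fun _ _ hm hn hq _ h _ h' => EV_mono hq le_rfl le_rfl (comm_mem_EV hm hn h h')

theorem NN_mono {q q' : ℕ} {a' b' : ℝ} (hq : q' ≤ q) (ha : a' ≤ a) (hb : b ≤ b') :
    X.NN q a b ≤ X.NN q' a' b' :=
  NN_le fun _ _ hm hn hq' _ h _ h' =>
    comm_mem_NN hm hn (hq.trans hq') (EE_mono le_rfl ha hb h) (EE_mono le_rfl ha hb h')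

theorem conj_NN {q : ℕ} (hw : e ∈ X.EE 1 c d) (h : e' ∈ X.NN q a b) :
    e * e' * e⁻¹ ∈ X.NN q a b := by
  have key : X.NN q a b ≤ (X.NN q a b).comap (MulAut.conj e).toMonoidHom := by
    refine NN_le fun m n hm hn hq u hu u' hu' => ?_
    rw [Subgroup.mem_comap, map_commutatorElement]
    exact comm_mem_NN hm hn hq (conj_EE hw hu) (conj_EE hw hu')
  exact key h

/-- two elements with the same diffeomorphism part differ by a central element -/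
theorem central_of_g (hq : X.q e = S.gm v) (hq' : X.q e' = S.gm w)
    (h : ∀ᶠ i in S.F, (v i).g = (w i).g) : e⁻¹ * e' ∈ Subgroup.center E := by
  refine X.cen _ (v⁻¹ * w) (by rw [map_mul, map_inv, map_mul, map_inv, hq, hq']) ?_
  filter_upwards [h] with i hi
  have : ((v⁻¹ * w) i).g = ((v i).g)⁻¹ * (w i).g := rfl
  rw [this, hi, inv_mul_cancel]

theorem frag_EV {a' b' : ℝ} (hn : 1 ≤ n) (h1 : a ≤ a') (h2 : a' < b) (h3 : b ≤ b')
    (h : e ∈ X.EV n a b') : ∃ u ∈ X.EV n a b, ∃ u' ∈ X.EV n a' b', X.q e = X.q (u * u') := by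
  obtain ⟨v, hv, hq⟩ := mem_EV.1 h
  obtain ⟨u, hu, u', hu', rfl⟩ := frag_VF hn h1 h2 h3 hv
  obtain ⟨f, -, hf⟩ := exists_lift (X := X) hu.1
  obtain ⟨f', -, hf'⟩ := exists_lift (X := X) hu'.1
  refine ⟨f, mem_EV.2 ⟨u, hu, hf⟩, f', mem_EV.2 ⟨u', hu', hf'⟩, ?_⟩
  rw [hq, map_mul, map_mul, hf, hf']

end Ext

end Scale

end Pool.Agent.P.MP_7bb7e1_gt
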