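import Pool.Agent.P.MP_7bb7e1_gt.Dil
import Pool.Agent.P.MP_7bb7e1_gt.Micro
import Pool.Agent.P.MP_7bb7e1_gt.VirF

/-! Rolling up and the fixed point theorem along a family. -/

namespace Pool.Agent.P.MP_7bb7e1_gt

open Filter
open scoped commutatorElement

namespace Scale

variable {S : Scale} {β : ℕ} {g Ω₀ : S.ι → Pm}

theorem solverAux_choice {α γ : Type*} [Nonempty γ] {F : Filter α} {r : α → γ → Prop}
    (h : ∀ᶠ x in F, ∃ y, r x y) : ∃ f : α → γ, ∀ᶠ x in F, r x (f x) := by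
  classical
  refine ⟨fun x => if hx : ∃ y, r x y then hx.choose else Classical.arbitrary γ,
    h.mono fun x hx => ?_⟩
  simp only [dif_pos hx]
  exact hx.choose_spec

theorem solverAux_mem (hβ : 1 ≤ β) {f : S.ι → ℝ → ℝ} (ht : S.Tame f) {j : ℕ} (ho : S.Od (β + j) f)
    {u : S.ι → Pm} (r₀ : ℕ) (C : ℕ → ℝ) (hC : ∀ r, 0 ≤ C r)
    (h : ∀ᶠ i in S.F, Sm (dp (u i)) ∧
      ∀ r, sn r (dp (u i)) ≤ C r * nm (max r r₀) (f i) / S.ε i ^ j) : u ∈ S.GB β := by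
  refine mem_GB_of hβ (ht.of_le j r₀ h (fun i hi => hi.1) fun r => ⟨C r, fun i hi => ?_⟩)
    ⟨h.mono fun i hi => hi.1, fun r => ?_⟩
  · refine (hi.2 r).trans ?_
    have := pow_pos (S.pos i) j
    have := hC r
    gcongr
    linarith
  · refine ((ho.odS_nm (max r r₀)).div_pow).of_le (C r) (h.mono fun i hi => ?_)
    have p := pow_pos (S.pos i) j
    rw [abs_of_nonneg (sn_nonneg _ _), abs_of_nonneg (div_nonneg (nm_nonneg _ _) p.le),
      ← mul_div_assoc]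
    exact hi.2 r

theorem roll_fam' (hβ : 1 ≤ β) (hg : g ∈ S.GB (2 * β)) (hf : ∀ᶠ i in S.F, Fix (-1) 1 (g i)) :
    ∃ k ∈ S.GB β, ∃ Ω ∈ S.GB β, ∀ᶠ i in S.F, g i = ⁅k i, tr (S.ε i ^ β)⁆ ∧
      Ω i * tr (S.ε i ^ β) = tr (S.ε i ^ β) * Ω i ∧ (∀ x, x ≤ -1 → k i x = x) ∧
      ∀ x, 2 ≤ x → k i x = Ω i x := by
  obtain ⟨C, hC, hm⟩ := many
  have ho : S.Od (β + β) (dpF g) := by rw [← two_mul]; exact GB_od hg
  obtain ⟨b, rfl⟩ : ∃ b, β = b + 1 := ⟨β - 1, by omega⟩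
  have hsm : ∀ᶠ i in S.F, nm 2 (dp (g i)) ≤ 1 / 96 * S.ε i ^ (b + 1) :=
    (ho.mono (by omega : b + 1 + 1 ≤ _)).small 2 (by norm_num)
  have key : ∀ᶠ i in S.F, ∃ k Ω : Pm, (Sm (dp k) ∧ ∀ r, sn r (dp k) ≤
      (12 * 2 ^ r + 6 * C r) * nm (max r 0) (dp (g i)) / S.ε i ^ (b + 1)) ∧ (Sm (dp Ω) ∧
      ∀ r, sn r (dp Ω) ≤ (12 * 2 ^ r + 6 * C r) * nm (max r 0) (dp (g i)) / S.ε i ^ (b + 1)) ∧
      (g i = ⁅k, tr (S.ε i ^ (b + 1))⁆ ∧
      Ω * tr (S.ε i ^ (b + 1)) = tr (S.ε i ^ (b + 1)) * Ω ∧ (∀ x, x ≤ -1 → k x = x) ∧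
      ∀ x, 2 ≤ x → k x = Ω x) := by
    filter_upwards [hf, hsm, ho.sm] with i hf h2 hs
    set η := S.ε i ^ (b + 1) with hη
    have hp : 0 < η := pow_pos (S.pos i) _
    have hle : η ≤ 1 / 2 := by
      rw [hη, pow_succ]
      exact (mul_le_of_le_one_left (S.pos i).le
        (pow_le_one₀ (S.pos i).le ((S.le_half i).trans (by norm_num)))).trans (S.le_half i)
    set M := ⌈5 / η⌉₊ with hM
    have hM1 : 5 ≤ M * η := by
      have := Nat.le_ceil (5 / η)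
      rwa [div_le_iff₀ hp] at this
    have hM2 : (M : ℝ) ≤ 6 / η := by
      have := (Nat.ceil_lt_add_one (by positivity : 0 ≤ 5 / η)).le
      rw [le_div_iff₀ hp]
      have h5 : 5 / η * η = 5 := by field_simp
      nlinarith
    have hN : (M : ℝ) * nm 2 (dp (g i)) ≤ 1 / 16 := by
      have := mul_le_mul hM2 h2 (nm_nonneg _ _) (by positivity)
      refine this.trans (le_of_eq ?_)
      field_simp
      norm_num
    obtain ⟨w1, w0, w2, wr⟩ := hm (g i) η (1 / 16) M hs hN le_rfl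
    have hMn : (0 : ℝ) ≤ M := Nat.cast_nonneg _
    have s0 := mul_le_mul_of_nonneg_left (sn_le_nm (by norm_num : 0 ≤ 2) (dp (g i))) hMn
    have s1 := mul_le_mul_of_nonneg_left (sn_le_nm (by norm_num : 1 ≤ 2) (dp (g i))) hMn
    obtain ⟨k, Ω, k1, Ω1, k2, Ω2, e1, e2, e3, e4, -⟩ := roll (g := g i) (a := -1) (l := 2) (δ := 1)
      (M := M) hp (by norm_num) (by norm_num; exact hf) (by linarith) w1 (by linarith) (by linarith)
    have hW : ∀ r, sn r (dp (Wm (g i) η M)) ≤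
        (12 * 2 ^ r + 6 * C r) * nm (max r 0) (dp (g i)) / η := by
      intro r
      rw [max_eq_left (Nat.zero_le r)]
      have a1 := sn_le_nm (le_refl r) (dp (g i))
      have a2 := md_le_nm r (dp (g i))
      have a3 := nm_nonneg r (dp (g i))
      have a4 : (M : ℝ) * nm r (dp (g i)) ≤ 6 / η * nm r (dp (g i)) :=
        mul_le_mul_of_nonneg_right hM2 a3
      have a5 := mul_le_mul_of_nonneg_left a1 hMn
      have a6 := mul_le_mul_of_nonneg_left a2 hMn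
      have a7 : (1 : ℝ) ≤ 2 ^ r := one_le_pow₀ (by norm_num)
      have a8 := hC r
      have a9 : 0 ≤ 6 / η * nm r (dp (g i)) := by positivity
      have e : (12 * 2 ^ r + 6 * C r) * nm r (dp (g i)) / η =
          (2 * 2 ^ r + C r) * (6 / η * nm r (dp (g i))) := by field_simp; ring
      rw [e]
      rcases Nat.lt_or_ge r 2 with h | h
      · interval_cases r
        · nlinarith
        · nlinarith
      · refine (wr r h).trans ?_
        have b1 : 2 * 2 ^ r * (M : ℝ) * sn r (dp (g i)) ≤ 2 * 2 ^ r * (6 / η * nm r (dp (g i))) := by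
          rw [mul_assoc]; exact mul_le_mul_of_nonneg_left (a5.trans a4) (by positivity)
        have b2 : C r * (1 / 16) * M * md r (dp (g i)) ≤ C r * (6 / η * nm r (dp (g i))) := by
          rw [mul_assoc, mul_assoc]
          refine mul_le_mul_of_nonneg_left ?_ a8
          have := mul_nonneg hMn (md_nonneg r (dp (g i)))
          linarith
        linarith
    exact ⟨k, Ω, ⟨k1, fun r => (k2 r).trans (hW r)⟩, ⟨Ω1, fun r => (Ω2 r).trans (hW r)⟩, e1, e2, e3,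
      fun x hx => e4 x (by linarith)⟩
  obtain ⟨k, key⟩ := solverAux_choice key
  obtain ⟨Ω, key⟩ := solverAux_choice key
  have hC' : ∀ r, 0 ≤ 12 * (2 : ℝ) ^ r + 6 * C r := fun r => by have := hC r; positivity
  exact ⟨k, solverAux_mem hβ (GB_tame hg) ho 0 _ hC' (key.mono fun i h => h.1), Ω,
    solverAux_mem hβ (GB_tame hg) ho 0 _ hC' (key.mono fun i h => h.2.1), key.mono fun i h => h.2.2⟩

theorem micro_fam' (hβ : 1 ≤ β) : ∃ D : ℕ, 2 ≤ D ∧ ∀ Ω₀ ∈ S.GB β,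
    (∀ᶠ i in S.F, Ω₀ i * tr (S.ε i ^ β) = tr (S.ε i ^ β) * Ω₀ i ∧ Ω₀ i 0 = 0) →
    ∃ κ ∈ S.GB β, ∃ k ∈ S.GB β, ∃ Ω₁ ∈ S.GB β, ∃ Ωb ∈ S.GB β, ∃ c : S.ι → ℝ, S.OdS β c ∧
      ∀ᶠ i in S.F, (∀ x, x ≤ 0 → κ i x = x) ∧ (∀ x, (1 / (8 * D) : ℝ) ≤ x → κ i x = Ω₁ i x) ∧
        (∀ x, x ≤ 0 → k i x = x) ∧ (∀ x, 1 ≤ x → k i x = Ωb i x) ∧
        Ω₁ i * tr (S.ε i ^ β) = tr (S.ε i ^ β) * Ω₁ i ∧
        Ωb i * tr (S.ε i ^ β) = tr (S.ε i ^ β) * Ωb i ∧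
        aff D 0 * ⁅κ i, tr (S.ε i ^ β)⁆ * (aff D 0)⁻¹ = ⁅k i, tr (S.ε i ^ β)⁆ ∧
        Ω₁ i = (tr (c i))⁻¹ * Ωb i * Ω₀ i := by
  obtain ⟨D, e₀, C, hD, he, hC, hm⟩ := micro
  refine ⟨D, hD, fun Ω₀ hΩ hc => ?_⟩
  have hD' : (2 : ℝ) ≤ D := by exact_mod_cast hD
  have hη : ∀ i, S.ε i ^ β ≤ S.ε i := fun i =>
    pow_le_of_le_one (S.pos i).le ((S.le_half i).trans (by norm_num)) (by omega)
  have key : ∀ᶠ i in S.F, MicroAt D C (S.ε i ^ β) (Ω₀ i) := by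
    filter_upwards [hc, GB_small hΩ 3 he] with i hc hs
    exact hm _ _ (pow_pos (S.pos i) _) ((hη i).trans ((S.le_half i).trans (by norm_num))) hs.1
      hc.1 hc.2 ((sn_le_nm le_rfl _).trans hs.2)
  obtain ⟨κ, key⟩ := solverAux_choice key
  obtain ⟨k, key⟩ := solverAux_choice key
  obtain ⟨Ω₁, key⟩ := solverAux_choice key
  obtain ⟨Ωb, key⟩ := solverAux_choice key
  obtain ⟨c, key⟩ := solverAux_choice key
  have ho : S.Od (β + 0) (dpF Ω₀) := GB_od hΩ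
  have mk : ∀ u : S.ι → Pm, (∀ᶠ i in S.F, Sm (dp (u i)) ∧
      ∀ r, sn r (dp (u i)) ≤ C r * sn (max r 3) (dp (Ω₀ i))) → u ∈ S.GB β := fun u hu =>
    solverAux_mem hβ (GB_tame hΩ) ho 3 C hC (hu.mono fun i h => ⟨h.1, fun r => by
      rw [pow_zero, div_one]
      exact (h.2 r).trans (mul_le_mul_of_nonneg_left (sn_le_nm le_rfl _) (hC r))⟩)
  refine ⟨κ, mk κ (key.mono fun i h => ⟨h.1, fun r => (h.2.2.2.2.2.2.2.2.2.2.2.2.2 r).1⟩),
    k, mk k (key.mono fun i h => ⟨h.2.1, fun r => (h.2.2.2.2.2.2.2.2.2.2.2.2.2 r).2.1⟩),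
    Ω₁, mk Ω₁ (key.mono fun i h => ⟨h.2.2.1, fun r => (h.2.2.2.2.2.2.2.2.2.2.2.2.2 r).2.2.1⟩),
    Ωb, mk Ωb (key.mono fun i h => ⟨h.2.2.2.1, fun r => (h.2.2.2.2.2.2.2.2.2.2.2.2.2 r).2.2.2⟩),
    c, ((GB_od hΩ).odS_sn 3).of_le (C 0) (key.mono fun i h => ?_), ?_⟩
  · rw [abs_of_nonneg (sn_nonneg _ _)]
    exact h.2.2.2.2.2.2.2.2.2.2.2.2.1
  · filter_upwards [key, S.eps_small (δ := 1 / (8 * D)) (by positivity)] with i h hs
    obtain ⟨-, -, -, -, h1, h2, h3, h4, h5, h6, h7, h8, -⟩ := h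
    have a1 := (hη i).trans hs
    refine ⟨h1, fun x hx => h2 x (a1.trans hx), h3, fun x hx => h4 x (le_trans ?_ hx), h5, h6, h7, h8⟩
    rw [le_div_iff₀ (by positivity)] at a1
    have := pow_pos (S.pos i) β
    nlinarith

end Scale

end Pool.Agent.P.MP_7bb7e1_gt
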