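import Pool.Agent.P.MP_7bb7e1_gt.Dil
import Pool.Agent.P.MP_7bb7e1_gt.Micro
import Pool.Agent.P.MP_7bb7e1_gt.VirF
import Pool.Agent.P.MP_7bb7e1_gt.SolverAux

/-! The solver without loss of derivatives. -/

namespace Pool.Agent.P.MP_7bb7e1_gt

open Filter
open scoped commutatorElement

namespace Scale

variable {S : Scale} {β : ℕ} {g Ω₀ : S.ι → Pm}

/-- `many` with `δ = 1 / 16` and `roll` with `a = -1`, `l = 2`, `η = ε ^ β`,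
`M = ⌈5 / η⌉₊ ≤ 6 / η`; `Tame.of_le`, and `Od` by `OdS.div_pow`. -/
theorem roll_fam (hβ : 1 ≤ β) (hg : g ∈ S.GB (2 * β)) (hf : ∀ᶠ i in S.F, Fix (-1) 1 (g i)) :
    ∃ k ∈ S.GB β, ∃ Ω ∈ S.GB β, ∀ᶠ i in S.F, g i = ⁅k i, tr (S.ε i ^ β)⁆ ∧
      Ω i * tr (S.ε i ^ β) = tr (S.ε i ^ β) * Ω i ∧ (∀ x, x ≤ -1 → k i x = x) ∧
      ∀ x, 2 ≤ x → k i x = Ω i x := roll_fam' hβ hg hf

/-- `micro` along the family -/
theorem micro_fam (hβ : 1 ≤ β) : ∃ D : ℕ, 2 ≤ D ∧ ∀ Ω₀ ∈ S.GB β,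
    (∀ᶠ i in S.F, Ω₀ i * tr (S.ε i ^ β) = tr (S.ε i ^ β) * Ω₀ i ∧ Ω₀ i 0 = 0) →
    ∃ κ ∈ S.GB β, ∃ k ∈ S.GB β, ∃ Ω₁ ∈ S.GB β, ∃ Ωb ∈ S.GB β, ∃ c : S.ι → ℝ, S.OdS β c ∧
      ∀ᶠ i in S.F, (∀ x, x ≤ 0 → κ i x = x) ∧ (∀ x, (1 / (8 * D) : ℝ) ≤ x → κ i x = Ω₁ i x) ∧
        (∀ x, x ≤ 0 → k i x = x) ∧ (∀ x, 1 ≤ x → k i x = Ωb i x) ∧
        Ω₁ i * tr (S.ε i ^ β) = tr (S.ε i ^ β) * Ω₁ i ∧
        Ωb i * tr (S.ε i ^ β) = tr (S.ε i ^ β) * Ωb i ∧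
        aff D 0 * ⁅κ i, tr (S.ε i ^ β)⁆ * (aff D 0)⁻¹ = ⁅k i, tr (S.ε i ^ β)⁆ ∧
        Ω₁ i = (tr (c i))⁻¹ * Ωb i * Ω₀ i := micro_fam' hβ

theorem solver_comm {a b : S.ι → Pm} (h : ∀ᶠ i in S.F, a i * b i = b i * a i) :
    S.gP a * S.gP b = S.gP b * S.gP a := by
  rw [← map_mul, ← map_mul, gP_eq]
  exact h

theorem solver_tr (c d : ℝ) : tr c * tr d = tr d * tr c := by
  rw [← tr_add, ← tr_add, add_comm]

/-- `roll_fam`; `Ω = tr (Ω 0) * Ω₀`; `micro_fam`, `dil`, `triv_tr`, `triv_main`,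
`Triv.comm_mem` -/
theorem solver (hβ : 1 ≤ β) (hg : g ∈ S.GB (2 * β)) (hf : ∀ᶠ i in S.F, Fix (-1) 1 (g i)) :
    S.gP g ∈ (S.AD β).N := by
  obtain ⟨k, hk, Ω, hΩ, he⟩ := roll_fam hβ hg hf
  have hσ : S.OdS β fun i => S.ε i ^ β := odS_pow β
  have hpos : ∀ i, 0 < S.ε i ^ β := fun i => pow_pos (S.pos i) β
  have hc' : S.OdS β fun i => Ω i 0 :=
    ((GB_od hΩ).apply fun _ => 0).congr (Eventually.of_forall fun i => by simp [dpF, dp])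
  have hT := tr_mem hβ hσ
  have ht' := tr_mem hβ hc'
  have h0 : (fun i => tr (Ω i 0))⁻¹ * Ω ∈ S.GB β := mul_mem (inv_mem ht') hΩ
  have c0 : ∀ᶠ i in S.F, ((fun i => tr (Ω i 0))⁻¹ * Ω) i * tr (S.ε i ^ β) =
      tr (S.ε i ^ β) * ((fun i => tr (Ω i 0))⁻¹ * Ω) i := by
    filter_upwards [he] with i hi
    rw [Pi.mul_apply, Pi.inv_apply, mul_assoc, hi.2.1, ← mul_assoc, ← mul_assoc, ← tr_neg,
      solver_tr]
  obtain ⟨D, hD, hm⟩ := micro_fam (S := S) hβ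
  obtain ⟨κ, hκ, kb, hkb, Ω₁, hΩ₁, Ωb, hΩb, c, hc, hev⟩ := hm _ h0 (by
    filter_upwards [c0] with i hi
    exact ⟨hi, (tr_inv_apply _ _).trans (sub_self _)⟩)
  have hD' : (2 : ℝ) ≤ D := by exact_mod_cast hD
  have hρ : (0 : ℝ) < 1 / (8 * D) := by positivity
  have hρ' : (1 / (8 * D) : ℝ) < 3 := by
    rw [div_lt_iff₀ (by positivity)]
    linarith
  have d1 := dil hβ (by omega : 1 ≤ D) hσ hpos hκ hΩ₁ (hev.mono fun i hi => hi.2.2.2.2.1)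
    (hev.mono fun i hi => ⟨fun x hx => hi.1 x (by linarith), hi.2.1⟩)
  have e1 : (S.gP fun i => aff D 0 * ⁅κ i, tr (S.ε i ^ β)⁆ * (aff D 0)⁻¹) =
      ⁅S.gP kb, S.gP fun i => tr (S.ε i ^ β)⁆ := by
    rw [← map_commutatorElement, gP_eq]
    exact hev.mono fun i hi => hi.2.2.2.2.2.2.1
  have e2 : (S.gP fun i => ⁅κ i, tr (S.ε i ^ β)⁆) = ⁅S.gP κ, S.gP fun i => tr (S.ε i ^ β)⁆ := by
    rw [← map_commutatorElement]
    rfl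
  rw [e1, e2] at d1
  have e3 : S.gP Ω₁ = (S.gP fun i => tr (c i))⁻¹ * S.gP Ωb *
      S.gP ((fun i => tr (Ω i 0))⁻¹ * Ω) := by
    rw [← map_inv, ← map_mul, ← map_mul, gP_eq]
    exact hev.mono fun i hi => hi.2.2.2.2.2.2.2
  have tv := AbsD.triv_main (mem_AD.2 hT) (mem_AD.2 h0) (triv_tr hβ hσ hpos hc)
    (triv_tr hβ hσ hpos hc') (solver_comm c0) (solver_comm (hev.mono fun i hi => hi.2.2.2.2.2.1))
    (solver_comm (Eventually.of_forall fun i => solver_tr _ _))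
    (solver_comm (Eventually.of_forall fun i => solver_tr _ _))
    (trs_of (a := 0) (by norm_num) hρ' hκ hΩ₁ (hev.mono fun i hi => ⟨hi.1, hi.2.1⟩))
    (trs_of (a := 0) (b := 1) (by norm_num) (by norm_num) hkb hΩb
      (hev.mono fun i hi => ⟨hi.2.2.1, hi.2.2.2.1⟩)) e3 d1
  rw [← map_mul, mul_inv_cancel_left] at tv
  have e4 : S.gP g = ⁅S.gP k, S.gP fun i => tr (S.ε i ^ β)⁆ := by
    rw [← map_commutatorElement, gP_eq]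
    exact he.mono fun i hi => hi.1
  rw [e4]
  exact tv.comm_mem (trs_of (a := -1) (b := 2) (by norm_num) (by norm_num) hk hΩ
    (he.mono fun i hi => hi.2.2)) (mem_AD.2 hT) (solver_comm (he.mono fun i hi => hi.2.1))

theorem solver_lift {u : Germ S.F Pm} (hu : u ∈ (S.GF β (-3) 3).map S.gP) :
    ∃ v ∈ S.VG β (-3) 3, S.gP (gp v) = u := by
  obtain ⟨a, ha, rfl⟩ := hu
  obtain ⟨v, hv, -, e⟩ := exists_Vir ha
  exact ⟨v, hv.1, gP_eq.2 e⟩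

theorem solver_lift_list (x : List (Germ S.F Pm × Germ S.F Pm))
    (hx : ∀ p ∈ x, p.1 ∈ (S.GF β (-3) 3).map S.gP ∧ p.2 ∈ (S.GF β (-3) 3).map S.gP) :
    ∃ y : List ((S.ι → Vir) × (S.ι → Vir)),
      (∀ p ∈ y, p.1 ∈ S.VG β (-3) 3 ∧ p.2 ∈ S.VG β (-3) 3) ∧ S.gP (gp (Phi y)) = Phi x := by
  induction x with
  | nil => exact ⟨[], by simp, by simp⟩
  | cons p x ih =>
    obtain ⟨y, hy, e⟩ := ih fun p' hp' => hx p' (List.mem_cons_of_mem _ hp')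
    obtain ⟨v, hv, ev⟩ := solver_lift (hx p List.mem_cons_self).1
    obtain ⟨w, hw, ew⟩ := solver_lift (hx p List.mem_cons_self).2
    refine ⟨(v, w) :: y, fun p' hp' => ?_, ?_⟩
    · rcases List.mem_cons.1 hp' with rfl | h
      exacts [⟨hv, hw⟩, hy p' h]
    · rw [Phi_cons, Phi_cons, map_mul, map_mul, e, map_commutatorElement, map_commutatorElement,
        ev, ew]

/-- `AD_N`, `exists_Phi_of_mem`, `exists_Vir` -/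
theorem solver_list (hβ : 1 ≤ β) (hg : g ∈ S.GB (2 * β)) (hf : ∀ᶠ i in S.F, Fix (-1) 1 (g i)) :
    ∃ x : List ((S.ι → Vir) × (S.ι → Vir)),
      (∀ p ∈ x, p.1 ∈ S.VG β (-3) 3 ∧ p.2 ∈ S.VG β (-3) 3) ∧
        ∀ᶠ i in S.F, ((Phi x i).g : Pm) = g i := by
  have h := solver hβ hg hf
  rw [AD_N] at h
  obtain ⟨x, hx, e⟩ := exists_Phi_of_mem h
  obtain ⟨y, hy, e'⟩ := solver_lift_list x hx
  exact ⟨y, hy, gP_eq.1 (e'.trans e)⟩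

end Scale

end Pool.Agent.P.MP_7bb7e1_gt
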