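import Pool.Agent.P.MP_7bb7e1_gt.Tame
import Pool.Agent.P.MP_7bb7e1_gt.Lie

/-! The algebra of bounded families that are approximable by tame families. -/

namespace Pool.Agent.P.MP_7bb7e1_gt

open Filter
open scoped ContDiff

namespace Scale

variable {S : Scale} {κ κ' : ℝ} {f g : S.ι → ℝ → ℝ}

variable (S) in
/-- approximable by a tame family -/
def AT (f : S.ι → ℝ → ℝ) : Prop := ∃ t, S.Tame t ∧ S.Od 1 fun i x => f i x - t i x

variable (S) in
def InW (κ : ℝ) (f : S.ι → ℝ → ℝ) : Prop :=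
  (∀ i, Sm (f i) ∧ Van (-κ) κ (f i)) ∧ S.Od 0 f ∧ S.AT f

theorem walg_od_zero {t : S.ι → ℝ → ℝ} (ho : S.Od 0 f) (h : S.Od 1 fun i x => f i x - t i x) :
    S.Od 0 t :=
  (ho.sub (h.mono zero_le_one)).congr (Eventually.of_forall fun i => by ext x; ring)

theorem walg_sn_le_deriv {φ : ℝ → ℝ} {a b : ℝ} (hf : Sm φ) (hv : Van a b φ) (r : ℕ) :
    sn r φ ≤ (|b - a| + 1) * nm r (deriv φ) := by
  have hn := nm_nonneg r (deriv φ)
  have hab := abs_nonneg (b - a)
  cases r with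
  | zero =>
    have h1 : sn 1 φ ≤ nm 0 (deriv φ) := by
      rw [← sn_deriv]; exact sn_le_nm le_rfl _
    have h2 := sn_nonneg 1 φ
    refine sn_le fun x => ?_
    rw [iteratedDeriv_zero]
    by_cases hx : x ≤ a ∨ b ≤ x
    · rw [hv x hx, abs_zero]; positivity
    · push Not at hx
      have h3 := abs_sub_le_sn hf x a
      rw [hv a (Or.inl le_rfl), sub_zero] at h3
      have h4 : |x - a| ≤ |b - a| + 1 := by
        rw [abs_of_pos (by linarith [hx.1]), abs_of_pos (by linarith [hx.1, hx.2])]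
        linarith [hx.2]
      calc |φ x| ≤ sn 1 φ * |x - a| := h3
        _ ≤ nm 0 (deriv φ) * (|b - a| + 1) := mul_le_mul h1 h4 (abs_nonneg _) hn
        _ = _ := mul_comm _ _
  | succ r =>
    rw [← sn_deriv]
    calc sn r (deriv φ) ≤ nm (r + 1) (deriv φ) := sn_le_nm (Nat.le_succ r) _
      _ ≤ (|b - a| + 1) * nm (r + 1) (deriv φ) := le_mul_of_one_le_left hn (by linarith)

theorem walg_od_of_deriv {n : ℕ} {a b : ℝ} (hs : ∀ᶠ i in S.F, Sm (f i) ∧ Van a b (f i))
    (h : S.Od n fun i => deriv (f i)) : S.Od n f :=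
  h.of_le (hs.mono fun _ h => h.1) fun r => ⟨r, |b - a| + 1,
    hs.mono fun _ h => walg_sn_le_deriv h.1 h.2 r⟩

theorem walg_tame_of_deriv {a b : ℝ} (hs : ∀ᶠ i in S.F, Sm (f i) ∧ Van a b (f i))
    (h : S.Tame fun i => deriv (f i)) : S.Tame f := by
  refine h.of_le 0 0 hs (fun _ h => h.1) fun r => ⟨|b - a| + 1, fun i hi => ?_⟩
  rw [pow_zero, div_one, max_eq_left (Nat.zero_le r)]
  refine (walg_sn_le_deriv hi.1 hi.2 r).trans ?_
  exact mul_le_mul_of_nonneg_left (by linarith) (by positivity)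

theorem walg_fix_mul (hf : S.InW κ f) {φ : ℝ → ℝ} (hφ : Sm φ) :
    S.InW κ fun i x => φ x * f i x := by
  obtain ⟨h1, h2, t, ht, h3⟩ := hf
  refine ⟨fun i => ⟨hφ.mul (h1 i).1, fun x hx => by simp only [(h1 i).2 x hx, mul_zero]⟩,
    h2.fix_mul hφ, fun i x => φ x * t i x, ht.fix_mul hφ, ?_⟩
  exact (h3.fix_mul hφ).congr (Eventually.of_forall fun i => by ext x; ring)

theorem walg_exists_x (κ : ℝ) : ∃ φ : ℝ → ℝ, Sm φ ∧
    ∀ u : ℝ → ℝ, Van (-κ) κ u → (fun x => φ x * u x) = fun x => x * u x := by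
  obtain ⟨χ, h1, -, h2, h3⟩ := exists_bump (a := -κ - 1) (b := κ + 1) (a' := -κ) (b' := κ)
    (by linarith) (by linarith)
  refine ⟨fun x => χ x * x ^ 1, h1.mul_pow h2 1, fun u hu => ?_⟩
  ext x
  by_cases hx : x ≤ -κ ∨ κ ≤ x
  · simp only [hu x hx, mul_zero]
  · push Not at hx
    simp only [h3 x hx.1.le hx.2.le, one_mul, pow_one]

theorem inW_zero : S.InW κ 0 :=
  ⟨fun _ => ⟨sm_const 0, fun _ _ => rfl⟩, od_zero, fun _ _ => 0, tame_zero,
    (od_zero (n := 1)).congr (Eventually.of_forall fun i => by ext x; simp)⟩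

theorem InW.add (hf : S.InW κ f) (hg : S.InW κ g) : S.InW κ (f + g) := by
  obtain ⟨h1, h2, t, ht, h3⟩ := hf
  obtain ⟨h1', h2', t', ht', h3'⟩ := hg
  refine ⟨fun i => ⟨(h1 i).1.add (h1' i).1, fun x hx => ?_⟩, h2.add h2',
    fun i x => t i x + t' i x, ht.add ht', ?_⟩
  · simp only [Pi.add_apply, (h1 i).2 x hx, (h1' i).2 x hx, add_zero]
  · exact (h3.add h3').congr (Eventually.of_forall fun i => by
      ext x; simp only [Pi.add_apply]; ring)

theorem InW.smul (hf : S.InW κ f) (c : ℝ) : S.InW κ (c • f) :=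
  walg_fix_mul hf (sm_const c)

theorem InW.mul (hf : S.InW κ f) (hg : S.InW κ g) : S.InW κ (f * g) := by
  obtain ⟨h1, h2, t, ht, h3⟩ := hf
  obtain ⟨h1', h2', t', ht', h3'⟩ := hg
  refine ⟨fun i => ⟨(h1 i).1.mul (h1' i).1, fun x hx => ?_⟩, h2.mul h2',
    fun i x => t i x * t' i x, ht.mul ht', ?_⟩
  · simp only [Pi.mul_apply, (h1 i).2 x hx, zero_mul]
  · have e1 : S.Od 1 _ := h3.mul h2'
    have e2 : S.Od 1 _ := (walg_od_zero h2 h3).mul h3'
    exact (e1.add e2).congr (Eventually.of_forall fun i => by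
      ext x; simp only [Pi.mul_apply]; ring)

/-- the tame approximant of `f'` is the difference quotient `(t (x + ε) - t x) / ε`
(`Od.comp_sub_two` with the constant displacement `ε`) -/
theorem InW.deriv (hf : S.InW κ f) : S.InW κ fun i => deriv (f i) := by
  obtain ⟨h1, h2, t, ht, h3⟩ := hf
  refine ⟨fun i => ⟨(h1 i).1.deriv, (h1 i).2.deriv (h1 i).1.contDiff⟩, h2.deriv,
    fun i x => (t i (x + S.ε i ^ 1) - t i x) / S.ε i ^ 1,
    ((ht.comp_add fun i => S.ε i ^ 1).sub ht).div_pow 1, ?_⟩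
  have e1 : S.Od (1 + 1) _ := (walg_od_zero h2 h3).comp_sub_two (odS_pow (S := S) 1).od_cst
  refine (h3.deriv.sub e1.div_pow).congr ?_
  filter_upwards [ht.sm] with i hi
  ext x
  have hε := (S.pos i).ne'
  rw [deriv_fun_sub ((h1 i).1.differentiable x) (hi.differentiable x)]
  field_simp
  ring

/-- multiply by a fixed bump times `x` -/
theorem InW.xmul (hf : S.InW κ f) : S.InW κ fun i x => x * f i x := by
  obtain ⟨φ, h1, h2⟩ := walg_exists_x κ
  have h := walg_fix_mul hf h1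
  have e : (fun i x => φ x * f i x) = fun i x => x * f i x := funext fun i => h2 _ (hf.1 i).2
  rwa [e] at h

theorem InW.mono (hf : S.InW κ f) (h : κ ≤ κ') : S.InW κ' f :=
  ⟨fun i => ⟨(hf.1 i).1, (hf.1 i).2.mono (neg_le_neg h) h⟩, hf.2⟩

theorem inW_const {φ : ℝ → ℝ} (h : Sm φ) (hv : Van (-κ) κ φ) : S.InW κ fun _ => φ :=
  ⟨fun _ => ⟨h, hv⟩, od_const h, fun _ => φ, tame_const h,
    (od_zero (n := 1)).congr (Eventually.of_forall fun i => by ext x; simp)⟩

theorem inW_smul_const {c : S.ι → ℝ} (hc : S.OdS 0 c) {φ : ℝ → ℝ} (h : Sm φ) (hv : Van (-κ) κ φ) :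
    S.InW κ fun i x => c i * φ x :=
  ⟨fun i => ⟨h.const_mul (c i), fun x hx => by simp only [hv x hx, mul_zero]⟩,
    Od.smul hc (od_const h), fun i x => c i * φ x, Tame.smul hc (tame_const h),
    (od_zero (n := 1)).congr (Eventually.of_forall fun i => by ext x; simp)⟩

/-- With a fixed `ψ` of mass one: the primitive of `f`, approximated by the primitive of
`χ t - (∫ χ t) ψ` where `χ` is a bump equal to one on `[-κ, κ]` (`prim_spec`). -/
theorem InW.prim (hκ : 0 < κ) (hf : S.InW κ f) (h0 : ∀ i, ∫ x, f i x = 0) :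
    ∃ Y, S.InW κ Y ∧ ∀ i, _root_.deriv (Y i) = f i := by
  obtain ⟨h1, h2, t, ht, h3⟩ := hf
  have hY := fun i => prim_spec (h1 i).2 (by linarith) (h1 i).1.contDiff (h0 i)
  set Y : S.ι → ℝ → ℝ := fun i x => ∫ s in (-κ)..x, f i s with hYd
  have hYs : ∀ i, Sm (Y i) ∧ Van (-κ) κ (Y i) := fun i =>
    ⟨sm_of_van (hY i).1 (hY i).2.1, (hY i).2.1⟩
  have hYd' : ∀ i, _root_.deriv (Y i) = f i := fun i => (hY i).2.2.1
  refine ⟨Y, ⟨hYs, walg_od_of_deriv (Eventually.of_forall hYs)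
    (h2.congr (Eventually.of_forall fun i => (hYd' i).symm)), ?_⟩, hYd'⟩
  obtain ⟨χ, c1, -, c2, c3⟩ := exists_bump (a := -κ - 1) (b := κ + 1) (a' := -κ) (b' := κ)
    (by linarith) (by linarith)
  obtain ⟨ψ, p1, p2, p3⟩ := exists_mass (a := -κ - 1) (b := κ + 1) (by linarith)
  have hχf : ∀ i x, χ x * f i x = f i x := by
    intro i x
    by_cases hx : x ≤ -κ ∨ κ ≤ x
    · rw [(h1 i).2 x hx, mul_zero]
    · push Not at hx
      rw [c3 x hx.1.le hx.2.le, one_mul]
  have hvan : ∀ u : ℝ → ℝ, Van (-κ - 1) (κ + 1) fun x => χ x * u x := fun u x hx => by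
    simp only [c2 x hx, zero_mul]
  set c : S.ι → ℝ := fun i => ∫ x, χ x * (f i x - t i x) with hcd
  have hc : S.OdS 1 c := (h3.fix_mul c1).integral (Eventually.of_forall fun i => hvan _)
  set u : S.ι → ℝ → ℝ := fun i x => χ x * t i x + c i * ψ x with hud
  have hut : S.Tame u := (ht.fix_mul c1).add (Tame.smul hc (tame_const p1))
  have huv : ∀ i, Van (-κ - 1) (κ + 1) (u i) := fun i x hx => by
    simp only [hud, c2 x hx, p2 x hx, zero_mul, mul_zero, add_zero]
  have hu0 : ∀ᶠ i in S.F, Sm (u i) ∧ ∫ x, u i x = 0 := by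
    filter_upwards [ht.sm] with i hi
    have s1 := c1.mul hi
    have i1 := (hvan (t i)).integrable s1.continuous
    have i2 := p2.integrable p1.continuous
    have i3 := (h1 i).2.integrable (h1 i).1.continuous
    refine ⟨s1.add (p1.const_mul _), ?_⟩
    have e : c i = -∫ x, χ x * t i x := by
      simp only [hcd, mul_sub, hχf]
      rw [MeasureTheory.integral_sub i3 i1, h0, zero_sub]
    simp only [hud]
    rw [MeasureTheory.integral_add i1 (i2.const_mul _), MeasureTheory.integral_const_mul, p3, e]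
    ring
  set T : S.ι → ℝ → ℝ := fun i x => ∫ s in (-κ - 1)..x, u i s with hTd
  have hT : ∀ᶠ i in S.F, (Sm (T i) ∧ Van (-κ - 1) (κ + 1) (T i)) ∧ _root_.deriv (T i) = u i := by
    filter_upwards [hu0] with i hi
    have := prim_spec (huv i) (by linarith) hi.1.contDiff hi.2
    exact ⟨⟨sm_of_van this.1 this.2.1, this.2.1⟩, this.2.2.1⟩
  refine ⟨T, walg_tame_of_deriv (hT.mono fun _ h => h.1)
    (hut.congr (hT.mono fun _ h => h.2.symm)), ?_⟩
  refine walg_od_of_deriv (a := -κ - 1) (b := κ + 1) ?_ ?_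
  · filter_upwards [hT] with i hi
    refine ⟨(hYs i).1.sub hi.1.1, fun x hx => ?_⟩
    simp only [hi.1.2 x hx, ((hYs i).2.mono (by linarith) (by linarith)) x hx, sub_zero]
  · have e2 : S.Od 1 _ := Od.smul hc (od_const p1)
    refine ((h3.fix_mul c1).sub e2).congr ?_
    filter_upwards [hT] with i hi
    ext x
    rw [deriv_fun_sub ((hYs i).1.differentiable x) (hi.1.1.differentiable x), hYd', hi.2]
    simp only [hud, mul_sub, hχf]
    ring

/-- a tame bounded family with eventual support condition has a modification in `W` -/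
theorem exists_inW (ht : S.Tame f) (ho : S.Od 0 f) (hv : ∀ᶠ i in S.F, Van (-κ) κ (f i)) :
    ∃ f', S.InW κ f' ∧ ∀ᶠ i in S.F, f' i = f i := by
  classical
  have e : ∀ᶠ i in S.F,
      f i = (fun i => if Sm (f i) ∧ Van (-κ) κ (f i) then f i else fun _ => 0) i := by
    filter_upwards [ho.sm, hv] with i h1 h2
    simp only [h1, h2, and_self, if_true]
  refine ⟨fun i => if Sm (f i) ∧ Van (-κ) κ (f i) then f i else fun _ => 0,
    ⟨fun i => ?_, ho.congr e, f, ht, (od_zero (n := 1)).congr ?_⟩, e.mono fun _ h => h.symm⟩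
  · by_cases h : Sm (f i) ∧ Van (-κ) κ (f i)
    · simp only [h, and_self, if_true]
    · simp only [h, if_false]
      exact ⟨sm_const 0, fun _ _ => rfl⟩
  · filter_upwards [e] with i hi
    ext x
    rw [← hi, sub_self]

variable (S) in
/-- the algebra `W κ` -/
def WA (κ : ℝ) : NonUnitalSubalgebra ℝ (S.ι → ℝ → ℝ) where
  carrier := {f | S.InW κ f}
  add_mem' := InW.add
  zero_mem' := inW_zero
  mul_mem' := InW.mul
  smul_mem' := fun c _ hf => InW.smul hf c

theorem WA.prop (f : S.WA κ) : S.InW κ f.1 := f.2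

theorem WD_add (f g : S.WA κ) : (fun i => deriv ((f + g).1 i)) =
    (fun i => deriv (f.1 i)) + fun i => deriv (g.1 i) := by
  ext i x
  exact deriv_add ((f.2.1 i).1.differentiable x) ((g.2.1 i).1.differentiable x)

theorem WD_smul (c : ℝ) (f : S.WA κ) : (fun i => deriv ((c • f).1 i)) =
    c • fun i => deriv (f.1 i) := by
  ext i x
  exact deriv_const_smul c ((f.2.1 i).1.differentiable x)

variable (S κ) in
noncomputable def WD : S.WA κ →ₗ[ℝ] S.WA κ where
  toFun f := ⟨fun i => deriv (f.1 i), InW.deriv f.2⟩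
  map_add' f g := Subtype.ext (WD_add f g)
  map_smul' c f := Subtype.ext (WD_smul c f)

variable (S κ) in
def WX : S.WA κ →ₗ[ℝ] S.WA κ where
  toFun f := ⟨fun i x => x * f.1 i x, InW.xmul f.2⟩
  map_add' f g := by ext i x; simp [mul_add]
  map_smul' c f := by ext i x; simp; ring

theorem WD_val (f : S.WA κ) (i : S.ι) : (S.WD κ f).1 i = deriv (f.1 i) := rfl

theorem WX_val (f : S.WA κ) (i : S.ι) (x : ℝ) : (S.WX κ f).1 i x = x * f.1 i x := rfl

theorem WD_mul (f h : S.WA κ) : S.WD κ (f * h) = S.WD κ f * h + f * S.WD κ h := by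
  ext i x
  exact deriv_mul ((f.2.1 i).1.differentiable x) ((h.2.1 i).1.differentiable x)

theorem WX_mul (f h : S.WA κ) : S.WX κ (f * h) = S.WX κ f * h := by
  ext i x
  exact (mul_assoc x (f.1 i x) (h.1 i x)).symm

theorem WD_WX (f : S.WA κ) : S.WD κ (S.WX κ f) = S.WX κ (S.WD κ f) + f := by
  ext i x
  change deriv (fun y => y * f.1 i y) x = x * deriv (f.1 i) x + f.1 i x
  rw [deriv_fun_mul differentiableAt_fun_id ((f.2.1 i).1.differentiable x)]
  simp only [deriv_id'', one_mul]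
  ring

theorem brW_val (f h : S.WA κ) (i : S.ι) : (brW (S.WD κ) f h).1 i = br (f.1 i) (h.1 i) := rfl

theorem walg_pow_val (k : ℕ) (f : S.WA κ) (i : S.ι) (x : ℝ) :
    ((S.WX κ ^ k) f).1 i x = x ^ k * f.1 i x := by
  induction k with
  | zero => simp
  | succ k ih => rw [pow_succ', Module.End.mul_apply, WX_val, ih]; ring

theorem Lop_val (k : ℕ) (f : S.WA κ) (i : S.ι) (x : ℝ) :
    (Lop (S.WD κ) (S.WX κ) k f).1 i x =
      x ^ k * deriv (f.1 i) x - k * x ^ (k - 1) * f.1 i x := by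
  change ((S.WX κ ^ k) (S.WD κ f)).1 i x - (k : ℝ) * ((S.WX κ ^ (k - 1)) f).1 i x = _
  rw [walg_pow_val, walg_pow_val, WD_val, mul_assoc]

/-- inclusion -/
def Winc (h : κ ≤ κ') : S.WA κ →+ S.WA κ' where
  toFun f := ⟨f.1, InW.mono f.2 h⟩
  map_zero' := rfl
  map_add' _ _ := rfl

theorem Winc_val (h : κ ≤ κ') (f : S.WA κ) : (Winc h f).1 = f.1 := rfl

variable (S κ) in
/-- the elements of order one -/
def W1 : Submodule ℝ (S.WA κ) where
  carrier := {f | S.Od 1 f.1}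
  add_mem' := fun hf hg => hf.add hg
  zero_mem' := od_zero
  smul_mem' := fun c _ hf => hf.const_mul c

theorem mem_W1 {f : S.WA κ} : f ∈ S.W1 κ ↔ S.Od 1 f.1 := Iff.rfl

theorem WD_W1 {f : S.WA κ} (h : f ∈ S.W1 κ) : S.WD κ f ∈ S.W1 κ := Od.deriv h

theorem WX_W1 {f : S.WA κ} (h : f ∈ S.W1 κ) : S.WX κ f ∈ S.W1 κ := by
  obtain ⟨φ, h1, h2⟩ := walg_exists_x κ
  exact (Od.fix_mul h h1).congr (Eventually.of_forall fun i => h2 _ (f.2.1 i).2)

/-- an element whose integral has order one is a derivative up to order one -/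
theorem exists_prim_add (hκ : 0 < κ) (F : S.WA κ) (h : S.OdS 1 fun i => ∫ x, F.1 i x) :
    ∃ Y : S.WA κ, ∃ Z ∈ S.W1 κ, F = S.WD κ Y + Z := by
  obtain ⟨ψ, p1, p2, p3⟩ := exists_mass (a := -κ) (b := κ) (by linarith)
  let Z : S.WA κ := ⟨fun i x => (∫ y, F.1 i y) * ψ x, inW_smul_const (h.mono zero_le_one) p1 p2⟩
  have hZ : Z ∈ S.W1 κ := Od.smul h (od_const p1)
  obtain ⟨Y, hY, e⟩ := InW.prim hκ (F - Z).2 fun i => by
    change ∫ x, (F.1 i x - (∫ y, F.1 i y) * ψ x) = 0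
    rw [MeasureTheory.integral_sub ((F.2.1 i).2.integrable (F.2.1 i).1.continuous)
      ((p2.integrable p1.continuous).const_mul _), MeasureTheory.integral_const_mul, p3]
    ring
  refine ⟨⟨Y, hY⟩, Z, hZ, ?_⟩
  have : S.WD κ ⟨Y, hY⟩ = F - Z := Subtype.ext (funext e)
  rw [this, sub_add_cancel]

end Scale

end Pool.Agent.P.MP_7bb7e1_gt
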