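import Pool.Agent.P.MP_7bb7e1_gt.VirF
import Pool.Agent.P.MP_7bb7e1_gt.WAlg
import Pool.Agent.P.MP_7bb7e1_gt.Filt

/-! The nilpotent quotient and its top weight pairing. -/

namespace Pool.Agent.P.MP_7bb7e1_gt

open Filter
open scoped commutatorElement

namespace Scale

variable {S : Scale}

namespace Ext

variable {E : Type*} [Group E] (X : S.Ext E)

/-- `e` has leading term `ε ^ l f` -/
def Rp (c : ℝ) (l : ℕ) (f : S.ι → ℝ → ℝ) (e : E) : Prop :=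
  ∃ v ∈ S.VG l (-c) c, X.q e = S.gm v ∧
    S.Od (l + 1) fun i x => dp ((v i).g : Pm) x - S.ε i ^ l * f i x

variable {X} {c κ : ℝ} {l m : ℕ} {f h : S.ι → ℝ → ℝ} {e e' : E}

theorem Rp.mem (H : X.Rp c l f e) : e ∈ X.EE l (-c) c := by
  obtain ⟨v, hv, hq, -⟩ := H
  exact mem_EE.2 ⟨v, hv, hq⟩

/-- cut a tame approximant by a bump, multiply by `ε ^ l`; `exists_GB`, `exists_Vir` -/
theorem exists_Rp (hl : 1 ≤ l) (hκ : κ < c) (hf : S.InW κ f) : ∃ e, X.Rp c l f e := by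
  obtain ⟨hsv, h0, t, ht, h1⟩ := hf
  obtain ⟨χ, hχ, -, hχv, hχ1⟩ := exists_bump (a := -((κ + c) / 2)) (a' := -κ) (b' := κ)
    (b := (κ + c) / 2) (by linarith) (by linarith)
  have ht0 : S.Od 0 t := (h0.sub (h1.mono (Nat.zero_le 1))).congr
    (Eventually.of_forall fun i => by ext x; ring)
  have hT : S.Tame fun i x => S.ε i ^ l * (χ x * t i x) := (ht.fix_mul hχ).smul (odS_pow l)
  have hO : S.Od l fun i x => S.ε i ^ l * (χ x * t i x) := (ht0.fix_mul hχ).pow_mul l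
  obtain ⟨g, hg, hge⟩ := exists_GB hl hT hO
  have hgF : g ∈ S.GF l (-c) c := by
    refine mem_GF_iff.2 ⟨hg, -((κ + c) / 2), (κ + c) / 2, by linarith, by linarith, ?_⟩
    filter_upwards [hge] with i hi
    rw [fix_iff_van, hi]
    intro x hx
    simp [hχv x hx]
  obtain ⟨v, hv, -, hve⟩ := exists_Vir hgF
  obtain ⟨e, -, he⟩ := X.exists_lift hv.1
  refine ⟨e, v, hv.1, he, ((((h1.fix_mul hχ).neg).pow_mul l).congr ?_)⟩
  filter_upwards [hge, hve] with i hi hi'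
  ext x
  rw [hi', hi]
  have : χ x * f i x = f i x := by
    by_cases hx : -κ ≤ x ∧ x ≤ κ
    · rw [hχ1 x hx.1 hx.2, one_mul]
    · rw [(hsv i).2 x (by by_contra hc; push Not at hc; exact hx ⟨hc.1.le, hc.2.le⟩), mul_zero]
  linear_combination (-S.ε i ^ l) * this

theorem Rp.uniq (hl : 1 ≤ l) (H : X.Rp c l f e) (H' : X.Rp c l f e') :
    e' * e⁻¹ ∈ X.EE (l + 1) (-c) c := by
  obtain ⟨v, hv, hq, ho⟩ := H
  obtain ⟨v', hv', hq', ho'⟩ := H'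
  refine mem_EE.2 ⟨v' * v⁻¹, ?_, by rw [map_mul, map_inv, map_mul, map_inv, hq, hq']⟩
  rw [mem_VG, map_mul, map_inv]
  rw [mem_VG] at hv hv'
  refine ⟨L1' (GB_le_one hv.1) (GB_le_one hv'.1) ((ho'.sub ho).congr ?_),
    (S.GLe (-c) ⊓ S.GRi c).mul_mem hv'.2 ((S.GLe (-c) ⊓ S.GRi c).inv_mem hv.2)⟩
  exact Eventually.of_forall fun i => by ext x; simp

theorem Rp.add (hl : 1 ≤ l) (H : X.Rp c l f e) (H' : X.Rp c l h e') :
    X.Rp c l (f + h) (e * e') := by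
  obtain ⟨v, hv, hq, ho⟩ := H
  obtain ⟨v', hv', hq', ho'⟩ := H'
  refine ⟨v * v', mul_mem hv hv', by rw [map_mul, map_mul, hq, hq'], ?_⟩
  have h1 := (L1 (mem_VG.1 hv).1 (mem_VG.1 hv').1).mono (show l + 1 ≤ l + l by omega)
  refine ((h1.add ho).add ho').congr (Eventually.of_forall fun i => ?_)
  ext x
  simp only [gp_apply, Pi.mul_apply, CE.mul_g, Subgroup.coe_mul, Pi.add_apply]
  ring

theorem Rp.brk (hl : 1 ≤ l) (hm : 1 ≤ m) (hf : S.Od 0 f) (hh : S.Od 0 h) (H : X.Rp c l f e)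
    (H' : X.Rp c m h e') : X.Rp c (l + m) (fun i => br (h i) (f i)) ⁅e, e'⁆ := by
  obtain ⟨v, hv, hq, ho⟩ := H
  obtain ⟨w, hw, hq', ho'⟩ := H'
  refine ⟨⁅v, w⁆, (comm_mem_VF hl hm hv hw).1,
    by rw [map_commutatorElement, map_commutatorElement, hq, hq'], ?_⟩
  have hvB := (mem_VG.1 hv).1
  have hwB := (mem_VG.1 hw).1
  have h1 := L2 hl hm hvB hwB
  have h2 := (ho.br (GB_od hwB)).mono (show l + m + 1 ≤ l + 1 + m by omega)
  have h3 := ((hf.pow_mul l).br ho').mono (show l + m + 1 ≤ l + 0 + (m + 1) by omega)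
  refine ((h1.sub h2).sub h3).congr ?_
  filter_upwards [hf.sm, hh.sm, (GB_od hvB).sm, (GB_od hwB).sm] with i s1 s2 s3 s4
  ext x
  have e0 : ((⁅v, w⁆ i).g : Pm) = ⁅((v i).g : Pm), ((w i).g : Pm)⁆ := rfl
  have d1 := s1.differentiable x
  have d2 := s2.differentiable x
  have d3 : DifferentiableAt ℝ (dp ((v i).g : Pm)) x := s3.differentiable x
  have d4 : DifferentiableAt ℝ (dp ((w i).g : Pm)) x := s4.differentiable x
  simp only [br, gp_apply, dpF, e0]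
  rw [deriv_fun_sub d3 (d1.const_mul _), deriv_fun_sub d4 (d2.const_mul _),
    deriv_const_mul _ d1, deriv_const_mul _ d2]
  ring

theorem Rp.one (hf : S.Od 1 f) : X.Rp c l f 1 := by
  refine ⟨1, one_mem _, by rw [map_one, map_one], (hf.pow_mul l).neg.congr ?_⟩
  refine Eventually.of_forall fun i => ?_
  ext x
  simp [dp]

end Ext

/-- Apply `filt_pairing` to `Γ = E₁ ⧸ N` with `E₁ = X.EE 1 (-(q+1)) (q+1)`,
`N = (X.NN (q+1) _ _).subgroupOf E₁` (normal by `conj_NN`), `G n` the image of `X.EE n`,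
`Rep l f x` meaning that `x` is the class of some `e` with `X.Rp (q+1) l f e`, and
`Val e a` meaning that `e ∈ E₁` has class `val a`. -/
theorem step1.{u} {E : Type u} [Group E] (X : S.Ext E) (q : ℕ) (hq : 2 ≤ q) :
    ∃ (A : Type u) (_ : AddCommGroup A) (Val : E → A → Prop)
      (Ω : ℕ → S.WA (q + 3 / 4) →+ S.WA (q + 3 / 4) →+ A),
      (∀ e a e' a', Val e a → Val e' a' → Val (e * e') (a + a')) ∧
      (∀ e a, Val e a → Val e⁻¹ (-a)) ∧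
      (∀ e, Val e 0 ↔ e ∈ X.NN (q + 1) (-(q + 1 : ℕ)) (q + 1 : ℕ)) ∧
      (∀ l n f h e e', 1 ≤ l → 1 ≤ n → l + n = q → X.Rp (q + 1 : ℕ) l f.1 e →
        X.Rp (q + 1 : ℕ) n h.1 e' → Val ⁅e, e'⁆ (Ω l f h)) ∧
      (∀ l f h, 1 ≤ l → l + 1 ≤ q → S.Od 1 h.1 → Ω l f h = 0) ∧
      ∀ l m u v w, 1 ≤ l → 1 ≤ m → l + m + 1 ≤ q →
        Ω (l + m) (brW (S.WD _) u v) w = Ω l u (brW (S.WD _) v w) - Ω m v (brW (S.WD _) u w) := by
  set c : ℝ := ((q + 1 : ℕ) : ℝ) with hc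
  let E₁ : Subgroup E := X.EE 1 (-c) c
  let N : Subgroup E₁ := (X.NN (q + 1) (-c) c).subgroupOf E₁
  have hN : N.Normal := ⟨fun n hn g => Ext.conj_NN g.2 hn⟩
  let π : E₁ →* E₁ ⧸ N := QuotientGroup.mk' N
  let G : ℕ → Subgroup (E₁ ⧸ N) := fun n => ((X.EE n (-c) c).subgroupOf E₁).map π
  let Rep : ℕ → S.WA (q + 3 / 4) → E₁ ⧸ N → Prop := fun l f x =>
    ∃ e : E₁, π e = x ∧ X.Rp c l f.1 e.1
  have hκ : (q : ℝ) + 3 / 4 < c := by rw [hc]; push_cast; linarith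
  obtain ⟨A, iA, val, Ω, v0, vadd, vinj, hΩ, jac⟩ := filt_pairing G q
    (fun x => by
      obtain ⟨e, rfl⟩ := QuotientGroup.mk'_surjective N x
      exact ⟨e, e.2, rfl⟩)
    (fun m n hmn => Subgroup.map_mono fun e he => Ext.EE_mono hmn le_rfl le_rfl he)
    (by
      rintro m n hm hn _ ⟨e, he, rfl⟩ _ ⟨e', he', rfl⟩
      exact ⟨⁅e, e'⁆, Ext.EV_le_EE (Ext.comm_mem_EV hm hn he he'), map_commutatorElement π e e'⟩)
    (by
      rintro m n hm hn hq' _ ⟨e, he, rfl⟩ _ ⟨e', he', rfl⟩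
      rw [← map_commutatorElement]
      exact (QuotientGroup.eq_one_iff _).2 (Ext.comm_mem_NN hm hn hq' he he'))
    (brW (S.WD _)) Rep
    (fun l hl f => by
      obtain ⟨e, he⟩ := X.exists_Rp hl hκ f.2
      exact ⟨π ⟨e, Ext.EE_le_one he.mem⟩, _, rfl, he⟩)
    (by
      rintro l f _ hl ⟨e, rfl, he⟩
      exact ⟨e, he.mem, rfl⟩)
    (by
      rintro l f _ _ hl ⟨e, rfl, he⟩ ⟨e', rfl, he'⟩
      exact ⟨e' * e⁻¹, he.uniq hl he', by rw [map_mul, map_inv]⟩)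
    (by
      rintro l f f' _ _ hl ⟨e, rfl, he⟩ ⟨e', rfl, he'⟩
      exact ⟨e * e', map_mul π e e', he.add hl he'⟩)
    (fun f h => by simp only [brW, neg_sub]; rw [mul_comm f, mul_comm h])
    (by
      rintro l m f h _ _ hl hm ⟨e, rfl, he⟩ ⟨e', rfl, he'⟩
      refine ⟨⁅e, e'⁆, map_commutatorElement π e e', ?_⟩
      have := he.brk hl hm f.2.2.1 h.2.2.1 he'
      rwa [show (fun i => br (h.1 i) (f.1 i)) = (brW (S.WD _) h f).1 from
        funext fun i => (brW_val h f i).symm] at this)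
  have vneg : ∀ a, val (-a) = (val a)⁻¹ := fun a =>
    eq_inv_of_mul_eq_one_left (by rw [← vadd, neg_add_cancel, v0])
  refine ⟨A, iA, fun e a => ∃ he : e ∈ E₁, π ⟨e, he⟩ = val a, Ω, ?_, ?_, ?_, ?_, ?_, jac⟩
  · rintro e a e' a' ⟨he, h⟩ ⟨he', h'⟩
    exact ⟨mul_mem he he', by rw [vadd, ← h, ← h', ← map_mul]; rfl⟩
  · rintro e a ⟨he, h⟩
    exact ⟨inv_mem he, by rw [vneg, ← h, ← map_inv]; rfl⟩
  · intro e
    beta_reduce
    rw [v0]
    constructor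
    · rintro ⟨he, h⟩
      exact (QuotientGroup.eq_one_iff (⟨e, he⟩ : E₁)).1 h
    · intro h
      exact ⟨Ext.EE_le_one (Ext.EV_le_EE (Ext.NN_le_EV h)), (QuotientGroup.eq_one_iff _).2 h⟩
  · intro l n f h e e' hl hn hq' he he'
    have m1 : e ∈ E₁ := Ext.EE_le_one he.mem
    have m2 : e' ∈ E₁ := Ext.EE_le_one he'.mem
    refine ⟨(⁅(⟨e, m1⟩ : E₁), (⟨e', m2⟩ : E₁)⁆ : E₁).2, ?_⟩
    rw [hΩ l n f h _ _ hl hn hq' ⟨⟨e, m1⟩, rfl, he⟩ ⟨⟨e', m2⟩, rfl, he'⟩, ← map_commutatorElement]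
    rfl
  · intro l f h hl hlq ho
    obtain ⟨e, he⟩ := X.exists_Rp hl hκ f.2
    apply vinj
    rw [hΩ l (q - l) f h _ _ hl (by omega) (by omega) ⟨⟨e, Ext.EE_le_one he.mem⟩, rfl, he⟩
      ⟨1, rfl, Ext.Rp.one ho⟩, map_one, commutatorElement_one_right, v0]

end Scale

end Pool.Agent.P.MP_7bb7e1_gt
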