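import Mathlib

/-! The group of compactly supported smooth diffeomorphisms of the line and the
Bott-Thurston cocycle. -/

namespace Pool.Agent.P.MP_7bb7e1_gt

open scoped ContDiff

/-- The group of smooth diffeomorphisms of the real line with compact support. -/
def Gc : Subgroup (Equiv.Perm ℝ) where
  carrier := {e | ContDiff ℝ ∞ (fun x => e x) ∧ ContDiff ℝ ∞ (fun x => e⁻¹ x) ∧
    ∃ M : ℝ, ∀ x, M ≤ |x| → e x = x}
  one_mem' := ⟨contDiff_id, contDiff_id, 0, fun _ _ => rfl⟩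
  mul_mem' := by
    rintro e e' ⟨h1, h2, M, h3⟩ ⟨h1', h2', M', h3'⟩
    refine ⟨h1.comp h1', ?_, max M M', fun x hx => ?_⟩
    · rw [mul_inv_rev]
      exact h2'.comp h2
    · rw [Equiv.Perm.mul_apply, h3' x (le_trans (le_max_right _ _) hx),
        h3 x (le_trans (le_max_left _ _) hx)]
  inv_mem' := by
    rintro e ⟨h1, h2, M, h3⟩
    refine ⟨h2, by simpa using h1, M, fun x hx => ?_⟩
    rw [Equiv.Perm.inv_eq_iff_eq, h3 x hx]

/-- The Bott-Thurston cocycle, the integral of `log g'(h x) * h''(x) / h'(x)`. -/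
noncomputable def bt (g h : Gc) : ℝ :=
  ∫ x : ℝ, Real.log (deriv (fun y => (g : Equiv.Perm ℝ) y) ((h : Equiv.Perm ℝ) x)) *
    (deriv (deriv fun y => (h : Equiv.Perm ℝ) y) x / deriv (fun y => (h : Equiv.Perm ℝ) y) x)

/-- Evaluation of the Bott-Thurston cocycle on an inhomogeneous integral 2-chain. -/
noncomputable def gv (z : Gc × Gc →₀ ℤ) : ℝ :=
  z.sum fun p n => (n : ℝ) * bt p.1 p.2

end Pool.Agent.P.MP_7bb7e1_gt
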