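import Pool.Agent.P.MP_7bb7e1_gt.Scale

/-! Tame families; universal scales. -/

namespace Pool.Agent.P.MP_7bb7e1_gt

open Filter Asymptotics
open scoped Topology

namespace Scale

variable {S : Scale} {m n k : ℕ} {c d : S.ι → ℝ} {f g : S.ι → ℝ → ℝ}

theorem tame_aux_pow (i : S.ι) (K : ℕ) : S.ε i ^ K ≤ 1 :=
  pow_le_one₀ (S.pos i).le (by linarith [S.le_half i])

theorem tame_aux_one (K r : ℕ) (i : S.ι) : 1 ≤ S.H r i / S.ε i ^ K := by
  rw [le_div_iff₀ (pow_pos (S.pos i) K), one_mul]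
  exact (tame_aux_pow i K).trans (S.one_le r i)

theorem tame_aux_mono {K K' r r' : ℕ} (hK : K ≤ K') (hr : r ≤ r') (i : S.ι) :
    S.H r i / S.ε i ^ K ≤ S.H r' i / S.ε i ^ K' :=
  div_le_div₀ (zero_le_one.trans (S.one_le r' i)) (S.mono i hr) (pow_pos (S.pos i) K')
    (pow_le_pow_of_le_one (S.pos i).le (by linarith [S.le_half i]) hK)

theorem tame_aux_prod {K r r' : ℕ} {i : S.ι} (h : S.H r' i ≤ 2) :
    S.H r' i / S.ε i ^ K * (S.H r i / S.ε i ^ K) ≤ 2 * (S.H r i / S.ε i ^ (K + K)) := by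
  have hp := pow_pos (S.pos i) K
  rw [div_mul_div_comm, pow_add, ← mul_div_assoc]
  exact div_le_div_of_nonneg_right
    (mul_le_mul_of_nonneg_right h (zero_le_one.trans (S.one_le r i))) (mul_pos hp hp).le

theorem Tame.sm (h : S.Tame f) : ∀ᶠ i in S.F, Sm (f i) := by
  obtain ⟨-, A, hA, hs, -⟩ := h
  exact mem_of_superset hA hs

theorem Tame.nm_le (h : S.Tame f) : ∃ K : ℕ, ∃ A ∈ S.F, (∀ i ∈ A, Sm (f i)) ∧
    ∀ r, ∃ C : ℝ, 0 ≤ C ∧ ∀ i ∈ A, nm r (f i) ≤ C * S.H r i / S.ε i ^ K := by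
  obtain ⟨K, A, hA, hs, h⟩ := h
  choose C hC using h
  refine ⟨K, A, hA, hs, fun r => ⟨∑ j ∈ Finset.range (r + 1), |C j|,
    Finset.sum_nonneg fun j _ => abs_nonneg _, fun i hi => ?_⟩⟩
  rw [mul_div_assoc, Finset.sum_mul]
  refine Finset.sum_le_sum fun j hj => (hC j i hi).trans ?_
  rw [mul_div_assoc]
  exact mul_le_mul (le_abs_self _)
    (tame_aux_mono le_rfl (Nat.lt_succ_iff.1 (Finset.mem_range.1 hj)) i)
    (zero_le_one.trans (tame_aux_one K j i)) (abs_nonneg _)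

/-- common bounds for two tame families -/
theorem tame_aux_two (h : S.Tame f) (h' : S.Tame g) : ∃ K : ℕ, ∃ A ∈ S.F,
    (∀ i ∈ A, Sm (f i) ∧ Sm (g i)) ∧ ∀ r, ∃ C : ℝ, 0 ≤ C ∧ ∀ i ∈ A,
      nm r (f i) ≤ C * (S.H r i / S.ε i ^ K) ∧ nm r (g i) ≤ C * (S.H r i / S.ε i ^ K) := by
  obtain ⟨K, A, hA, hs, h⟩ := h.nm_le
  obtain ⟨K', A', hA', hs', h'⟩ := h'.nm_le
  refine ⟨max K K', A ∩ A', inter_mem hA hA', fun i hi => ⟨hs i hi.1, hs' i hi.2⟩, fun r => ?_⟩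
  obtain ⟨C, h0, hC⟩ := h r
  obtain ⟨C', h0', hC'⟩ := h' r
  refine ⟨max C C', le_max_of_le_left h0, fun i hi =>
    ⟨(hC i hi.1).trans ?_, (hC' i hi.2).trans ?_⟩⟩
  · rw [mul_div_assoc]
    exact mul_le_mul (le_max_left _ _) (tame_aux_mono (le_max_left _ _) le_rfl i)
      (zero_le_one.trans (tame_aux_one K r i)) (le_max_of_le_left h0)
  · rw [mul_div_assoc]
    exact mul_le_mul (le_max_right _ _) (tame_aux_mono (le_max_right _ _) le_rfl i)
      (zero_le_one.trans (tame_aux_one K' r i)) (le_max_of_le_left h0)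

theorem Tame.congr (h : S.Tame f) (e : ∀ᶠ i in S.F, f i = g i) : S.Tame g := by
  obtain ⟨K, A, hA, hs, h⟩ := h
  refine ⟨K, A ∩ {i | f i = g i}, inter_mem hA e, fun i hi => ?_, fun r => ?_⟩
  · have e' : f i = g i := hi.2
    exact e' ▸ hs i hi.1
  · obtain ⟨C, hC⟩ := h r
    refine ⟨C, fun i hi => ?_⟩
    have e' : f i = g i := hi.2
    exact e' ▸ hC i hi.1

/-- comparison without loss of derivatives above a fixed order `r₀`
(shrink the set so that `H r₀ ≤ 2` on it) -/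
theorem Tame.of_le (h : S.Tame f) (K r₀ : ℕ) {A : Set S.ι} (hA : A ∈ S.F) (hs : ∀ i ∈ A, Sm (g i))
    (e : ∀ r, ∃ C : ℝ, ∀ i ∈ A, sn r (g i) ≤ C * (1 + nm (max r r₀) (f i)) / S.ε i ^ K) :
    S.Tame g := by
  obtain ⟨K', A', hA', -, h⟩ := h.nm_le
  refine ⟨K' + K, A ∩ (A' ∩ {i | S.H r₀ i ≤ 2}), inter_mem hA (inter_mem hA' (S.ev r₀)),
    fun i hi => hs i hi.1, fun r => ?_⟩
  obtain ⟨C, hC⟩ := e r
  obtain ⟨C', h0, hC'⟩ := h (max r r₀)
  refine ⟨|C| * (1 + C' * 2), fun i hi => (hC i hi.1).trans ?_⟩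
  have h1 : S.H (max r r₀) i ≤ 2 * S.H r i := by
    have h2 : S.H r₀ i ≤ 2 := hi.2.2
    have h3 := S.one_le r i
    rcases le_total r r₀ with h4 | h4
    · rw [max_eq_right h4]; linarith
    · rw [max_eq_left h4]; linarith
  have hp := pow_pos (S.pos i) K'
  have h2 : nm (max r r₀) (f i) ≤ C' * 2 * (S.H r i / S.ε i ^ K') := by
    refine (hC' i hi.2.1).trans ?_
    rw [← mul_div_assoc, mul_assoc]
    exact div_le_div_of_nonneg_right (mul_le_mul_of_nonneg_left h1 h0) hp.le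
  have h3 := tame_aux_one (S := S) K' r i
  have h4 : 1 + nm (max r r₀) (f i) ≤ (1 + C' * 2) * (S.H r i / S.ε i ^ K') := by linarith
  rw [pow_add, ← div_div]
  refine div_le_div_of_nonneg_right ?_ (pow_pos (S.pos i) K).le
  rw [mul_div_assoc, mul_assoc]
  exact mul_le_mul (le_abs_self _) h4 (add_nonneg zero_le_one (nm_nonneg _ _)) (abs_nonneg _)

/-- comparison with a constant, order by order -/
theorem tame_aux_le (h : S.Tame f) {A : Set S.ι} (hA : A ∈ S.F) (hs : ∀ i ∈ A, Sm (g i))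
    (e : ∀ r, ∃ C : ℝ, 0 ≤ C ∧ ∀ i ∈ A, sn r (g i) ≤ C * nm r (f i)) : S.Tame g := by
  refine h.of_le 0 0 hA hs fun r => ?_
  obtain ⟨C, h0, hC⟩ := e r
  refine ⟨C, fun i hi => (hC i hi).trans ?_⟩
  rw [pow_zero, div_one, Nat.max_zero]
  exact mul_le_mul_of_nonneg_left (le_add_of_nonneg_left zero_le_one) h0

theorem tame_zero : S.Tame fun _ _ => 0 :=
  ⟨0, Set.univ, univ_mem, fun _ _ => sm_const 0, fun r => ⟨0, fun _ _ => by
    rw [sn_zero_fun, zero_mul, zero_div]⟩⟩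

theorem tame_const {φ : ℝ → ℝ} (h : Sm φ) : S.Tame fun _ => φ :=
  ⟨0, Set.univ, univ_mem, fun _ _ => h, fun r => ⟨sn r φ, fun i _ => by
    rw [mul_div_assoc]
    exact le_mul_of_one_le_right (sn_nonneg _ _) (tame_aux_one 0 r i)⟩⟩

theorem tame_aux_bdd (h : S.OdS n c) : ∃ C : ℝ, 0 ≤ C ∧ ∀ᶠ i in S.F, |c i| ≤ C := by
  obtain ⟨C, h0, hC⟩ := odS_iff.1 (h.mono n.zero_le)
  exact ⟨C, h0, hC.mono fun i hi => by rwa [pow_zero, mul_one] at hi⟩

theorem OdS.tame_cst (h : S.OdS n c) : S.Tame fun i _ => c i := by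
  obtain ⟨C, h0, hC⟩ := tame_aux_bdd h
  refine ⟨0, _, hC, fun i _ => sm_const _, fun r => ⟨C, fun i hi => ?_⟩⟩
  rw [mul_div_assoc]
  refine le_trans ?_ (le_mul_of_one_le_right h0 (tame_aux_one 0 r i))
  cases r with
  | zero => rw [sn_const_zero]; exact hi
  | succ r => rw [sn_const_succ]; exact h0

theorem Tame.add (h : S.Tame f) (h' : S.Tame g) : S.Tame fun i x => f i x + g i x := by
  obtain ⟨K, A, hA, hs, h⟩ := tame_aux_two h h'
  refine ⟨K, A, hA, fun i hi => (hs i hi).1.add (hs i hi).2, fun r => ?_⟩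
  obtain ⟨C, -, hC⟩ := h r
  refine ⟨2 * C, fun i hi => (sn_add_le (hs i hi).1 (hs i hi).2 r).trans ?_⟩
  have h1 := (sn_le_nm le_rfl _).trans (hC i hi).1
  have h2 := (sn_le_nm le_rfl _).trans (hC i hi).2
  rw [mul_div_assoc]
  linarith

theorem Tame.neg (h : S.Tame f) : S.Tame fun i x => -f i x := by
  obtain ⟨K, A, hA, hs, h⟩ := h
  refine ⟨K, A, hA, fun i hi => (hs i hi).neg, fun r => ?_⟩
  obtain ⟨C, hC⟩ := h r
  exact ⟨C, fun i hi => (sn_neg r _).trans_le (hC i hi)⟩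

theorem Tame.sub (h : S.Tame f) (h' : S.Tame g) : S.Tame fun i x => f i x - g i x := by
  simpa only [sub_eq_add_neg] using h.add h'.neg

theorem Tame.const_mul (h : S.Tame f) (a : ℝ) : S.Tame fun i x => a * f i x :=
  tame_aux_le h h.sm (fun _ hi => Sm.const_mul hi a) fun r => ⟨|a|, abs_nonneg a, fun _ hi =>
    (sn_const_mul hi r a).trans_le
      (mul_le_mul_of_nonneg_left (sn_le_nm le_rfl _) (abs_nonneg a))⟩

theorem Tame.smul (hc : S.OdS m c) (h : S.Tame f) : S.Tame fun i x => c i * f i x := by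
  obtain ⟨C, h0, hC⟩ := tame_aux_bdd hc
  exact tame_aux_le h (h.sm.and hC) (fun _ hi => Sm.const_mul hi.1 _) fun r =>
    ⟨C, h0, fun _ hi => (sn_const_mul hi.1 r _).trans_le
      (mul_le_mul hi.2 (sn_le_nm le_rfl _) (sn_nonneg _ _) h0)⟩

theorem Tame.div_pow (h : S.Tame f) (k : ℕ) : S.Tame fun i x => f i x / S.ε i ^ k := by
  have e : ∀ i, (fun x => f i x / S.ε i ^ k) = fun x => (S.ε i ^ k)⁻¹ * f i x := fun i =>
    funext fun x => by rw [div_eq_inv_mul]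
  refine h.of_le k 0 h.sm (fun i hi => by rw [e]; exact Sm.const_mul hi _) fun r =>
    ⟨1, fun i hi => ?_⟩
  have hp := pow_pos (S.pos i) k
  rw [e, sn_const_mul hi, abs_of_pos (inv_pos.2 hp), ← div_eq_inv_mul, one_mul, Nat.max_zero]
  exact div_le_div_of_nonneg_right
    ((sn_le_nm le_rfl _).trans (le_add_of_nonneg_left zero_le_one)) hp.le

/-- `sn_mul_tame`, with `H 0 ≤ 2` on a smaller set -/
theorem Tame.mul (h : S.Tame f) (h' : S.Tame g) : S.Tame fun i x => f i x * g i x := by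
  obtain ⟨K, A, hA, hs, h⟩ := tame_aux_two h h'
  refine ⟨K + K, A ∩ {i | S.H 0 i ≤ 2}, inter_mem hA (S.ev 0),
    fun i hi => (hs i hi.1).1.mul (hs i hi.1).2, fun r => ?_⟩
  obtain ⟨C, h0, hC⟩ := h r
  obtain ⟨C', h0', hC'⟩ := h 0
  obtain ⟨D, hD, hm⟩ := sn_mul_tame r
  refine ⟨D * (4 * (C' * C)), fun i hi => (hm _ _ (hs i hi.1).1 (hs i hi.1).2).trans ?_⟩
  rw [mul_div_assoc, mul_assoc]
  refine mul_le_mul_of_nonneg_left ?_ hD
  have w0 := zero_le_one.trans (tame_aux_one (S := S) K 0 i)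
  have h1 := mul_le_mul ((sn_le_nm le_rfl _).trans (hC' i hi.1).2)
    ((sn_le_nm le_rfl _).trans (hC i hi.1).1) (sn_nonneg _ _) (mul_nonneg h0' w0)
  have h2 := mul_le_mul ((sn_le_nm le_rfl _).trans (hC' i hi.1).1)
    ((sn_le_nm le_rfl _).trans (hC i hi.1).2) (sn_nonneg _ _) (mul_nonneg h0' w0)
  have h3 := mul_le_mul_of_nonneg_left (tame_aux_prod (K := K) (r := r) hi.2) (mul_nonneg h0' h0)
  linarith

theorem Tame.fix_mul (h : S.Tame f) {φ : ℝ → ℝ} (hφ : Sm φ) :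
    S.Tame fun i x => φ x * f i x := (tame_const hφ).mul h

/-- `t3_crude`, with `H 2 ≤ 2` on a smaller set -/
theorem Tame.comp (h : S.Tame f) (h' : S.Tame g) (h1 : S.Od 1 g) :
    S.Tame fun i x => f i (x + g i x) := by
  obtain ⟨K, A, hA, hs, h⟩ := tame_aux_two h h'
  have h2 : ∀ᶠ i in S.F, nm 2 (g i) ≤ 1 * S.ε i ^ 0 := Od.small (n := 0) h1 2 one_pos
  refine ⟨K + K, A ∩ ({i | S.H 2 i ≤ 2} ∩ {i | nm 2 (g i) ≤ 1 * S.ε i ^ 0}),
    inter_mem hA (inter_mem (S.ev 2) h2), fun i hi => (hs i hi.1).1.comp (hs i hi.1).2,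
    fun r => ?_⟩
  obtain ⟨C, h0, hC⟩ := h r
  obtain ⟨C', h0', hC'⟩ := h 2
  obtain ⟨D, hD, hm⟩ := t3_crude r
  refine ⟨D * (C + 2 * (C' * C)), fun i hi => ?_⟩
  have h3 : nm 2 (g i) ≤ 1 * S.ε i ^ 0 := hi.2.2
  rw [pow_zero, mul_one] at h3
  refine (hm _ _ (hs i hi.1).1 (hs i hi.1).2 ((sn_le_nm one_le_two _).trans h3)
    ((sn_le_nm le_rfl _).trans h3)).trans ?_
  rw [mul_div_assoc, mul_assoc]
  refine mul_le_mul_of_nonneg_left ?_ hD
  have w0 := zero_le_one.trans (tame_aux_one (S := S) K 2 i)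
  have h4 := mul_le_mul (hC' i hi.1).1 (hC i hi.1).2 (nm_nonneg _ _) (mul_nonneg h0' w0)
  have h5 := mul_le_mul_of_nonneg_left (tame_aux_prod (K := K) (r := r) hi.2.1)
    (mul_nonneg h0' h0)
  have h6 := (hC i hi.1).1.trans (mul_le_mul_of_nonneg_left
    (tame_aux_mono (Nat.le_add_right K K) le_rfl i) h0)
  linarith

/-- `nm_comp_le` -/
theorem Tame.comp_fix (h : S.Tame f) {φ : ℝ → ℝ} (hφ : Sm φ) :
    S.Tame fun i x => f i (x + φ x) := by
  refine tame_aux_le h h.sm (fun _ hi => Sm.comp hi hφ) fun r => ?_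
  obtain ⟨C, h0, hC⟩ := nm_comp_le r (nm r φ)
  exact ⟨C, h0, fun _ hi => (sn_le_nm le_rfl _).trans (hC _ _ hi hφ le_rfl)⟩

theorem Tame.comp_aff (h : S.Tame f) (l a : ℝ) : S.Tame fun i x => f i (l * x + a) := by
  refine tame_aux_le h h.sm (fun _ hi => Sm.comp_aff hi l a) fun r =>
    ⟨|l| ^ r, by positivity, fun i hi => sn_le fun x => ?_⟩
  rw [norm_aux_aff hi, abs_mul, abs_pow]
  exact mul_le_mul_of_nonneg_left ((le_sn hi r _).trans (sn_le_nm le_rfl _)) (by positivity)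

theorem Tame.comp_add (h : S.Tame f) (c : S.ι → ℝ) : S.Tame fun i x => f i (x + c i) := by
  obtain ⟨K, A, hA, hs, h⟩ := h
  refine ⟨K, A, hA, fun i hi => (hs i hi).comp_add _, fun r => ?_⟩
  obtain ⟨C, hC⟩ := h r
  exact ⟨C, fun i hi => (sn_comp_add _ _ r).trans_le (hC i hi)⟩

/-- `interp`, with `H R ≤ 2` eventually and `ε ≤ √ε` -/
theorem Tame.od (h : S.Tame f) (h0 : S.OdS (n + 1) fun i => sn 0 (f i)) : S.Od n f := by
  refine ⟨h.sm, fun r => ?_⟩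
  obtain ⟨K, A, hA, hs, h⟩ := h.nm_le
  obtain ⟨R, -, hR⟩ := interp r (n + 1) K
  obtain ⟨C₀, -, h0⟩ := odS_iff.1 h0
  obtain ⟨C₁, h1, hC⟩ := h R
  obtain ⟨C, h2, hR⟩ := hR C₀ (C₁ * 2)
  refine scale_aux1 ((odS_pow n).const_mul C) ?_
  filter_upwards [hA, h0, S.ev R] with i hi h3 h4
  have hp := S.pos i
  have h5 : S.ε i ≤ 1 := by linarith [S.le_half i]
  refine (sn_le_nm le_rfl _).trans ((hR _ _ hp h5 (hs i hi) ((le_abs_self _).trans h3)
    ((sn_le_nm le_rfl _).trans ((hC i hi).trans (div_le_div_of_nonneg_right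
      (mul_le_mul_of_nonneg_left h4 h1) (pow_pos hp K).le)))).trans ?_)
  rw [div_le_iff₀ (Real.sqrt_pos.2 hp), pow_succ, ← mul_assoc]
  refine mul_le_mul_of_nonneg_left ?_ (mul_nonneg h2 (pow_pos hp n).le)
  exact Real.le_sqrt_of_sq_le (by nlinarith)

end Scale

/-- data for a universal scale -/
structure UData where
  ι : Type
  ε : ι → ℝ
  sz : ℕ → ι → ℝ
  a : ℕ
  pos : ∀ i, 0 < ε i
  le_half : ∀ i, ε i ≤ 1 / 2
  nonneg : ∀ r i, 0 ≤ sz r i
  mono : ∀ i, Monotone fun r => sz r i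

namespace UData

variable (U : UData)

def filt : Filter U.ι where
  sets := {A | ∃ e : ℝ, 0 < e ∧ ∃ r : ℕ, ∀ i, U.ε i ≤ e → U.sz r i ≤ U.ε i ^ U.a → i ∈ A}
  univ_sets := ⟨1, one_pos, 0, fun _ _ _ => trivial⟩
  sets_of_superset := by
    rintro A B ⟨e, he, r, h⟩ hAB
    exact ⟨e, he, r, fun i h1 h2 => hAB (h i h1 h2)⟩
  inter_sets := by
    rintro A B ⟨e, he, r, h⟩ ⟨e', he', r', h'⟩
    exact ⟨min e e', lt_min he he', max r r', fun i h1 h2 =>
      ⟨h i (h1.trans (min_le_left _ _)) ((U.mono i (le_max_left _ _)).trans h2),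
        h' i (h1.trans (min_le_right _ _)) ((U.mono i (le_max_right _ _)).trans h2)⟩⟩

theorem mem_filt {A : Set U.ι} : A ∈ U.filt ↔
    ∃ e : ℝ, 0 < e ∧ ∃ r : ℕ, ∀ i, U.ε i ≤ e → U.sz r i ≤ U.ε i ^ U.a → i ∈ A := Iff.rfl

theorem tend : Tendsto U.ε U.filt (𝓝 0) := by
  refine Metric.tendsto_nhds.2 fun δ hδ => ⟨δ / 2, half_pos hδ, 0, fun i h _ => ?_⟩
  show dist (U.ε i) 0 < δ
  rw [Real.dist_eq, sub_zero, abs_of_pos (U.pos i)]
  linarith

theorem ev_le (r : ℕ) : ∀ᶠ i in U.filt, U.sz r i ≤ U.ε i ^ U.a := ⟨1, one_pos, r, fun _ _ h => h⟩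

theorem ev (r : ℕ) : ∀ᶠ i in U.filt, 1 + U.sz r i ≤ 2 := by
  refine (U.ev_le r).mono fun i hi => ?_
  have : U.ε i ^ U.a ≤ 1 := pow_le_one₀ (U.pos i).le (by linarith [U.le_half i])
  linarith

/-- the universal scale -/
def scale : Scale where
  ι := U.ι
  F := U.filt
  ε := U.ε
  H := fun r i => 1 + U.sz r i
  pos := U.pos
  le_half := U.le_half
  tend := U.tend
  one_le := fun r i => le_add_of_nonneg_right (U.nonneg r i)
  mono := fun i _ _ h => add_le_add_right (U.mono i h) 1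
  ev := U.ev

/-- a family dominated by the size function is tame of order `a` -/
theorem taut {f : U.ι → ℝ → ℝ} (hs : ∀ i, Sm (f i)) (h : ∀ r i, sn r (f i) ≤ U.sz r i) :
    U.scale.Tame f ∧ U.scale.Od U.a f := by
  refine ⟨⟨0, Set.univ, univ_mem, fun i _ => hs i, fun r => ⟨1, fun i _ => ?_⟩⟩,
    Eventually.of_forall hs, fun r => Scale.scale_aux1 (Scale.odS_pow U.a)
      ((U.ev_le r).mono fun i hi => (h r i).trans hi)⟩
  rw [pow_zero, div_one, one_mul]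
  exact (h r i).trans (le_add_of_nonneg_left zero_le_one)

theorem tautS {c : U.ι → ℝ} (h : ∀ i, |c i| ≤ U.sz 0 i) : U.scale.OdS U.a c :=
  Scale.odS_iff.2 ⟨1, zero_le_one, (U.ev_le 0).mono fun i hi => by
    rw [one_mul]
    exact (h i).trans hi⟩

end UData

end Pool.Agent.P.MP_7bb7e1_gt
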