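import Pool.Agent.P.MP_7bb7e1_gt.Extract

/-! The universal scale of cycles and the tree of descendants. -/

namespace Pool.Agent.P.MP_7bb7e1_gt

open Filter

/-- total size of a tuple -/
noncomputable def szT (r : ℕ) {n : ℕ} (x : Fin n → Gc × Gc) : ℝ :=
  ∑ k, (nm r (dp ((x k).1 : Pm)) + nm r (dp ((x k).2 : Pm)))

/-- Virasoro cycles supported in `[-3, 3]` -/
def Cyc (n : ℕ) : Type := {x : Fin n → Gc × Gc //
  (∀ k, Fix (-3) 3 ((x k).1 : Pm) ∧ Fix (-3) 3 ((x k).2 : Pm)) ∧ PhiL vl (List.ofFn x) = 1}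

theorem szT_nonneg (r : ℕ) {n : ℕ} (x : Fin n → Gc × Gc) : 0 ≤ szT r x :=
  Finset.sum_nonneg fun _ _ => add_nonneg (nm_nonneg _ _) (nm_nonneg _ _)

theorem szT_mono {n : ℕ} (x : Fin n → Gc × Gc) : Monotone fun r => szT r x :=
  fun _ _ h => Finset.sum_le_sum fun _ _ => add_le_add (nm_mono h _) (nm_mono h _)

theorem epsT_le (m : ℕ) : ((1 : ℝ) / 2) ^ 2 ^ m ≤ 1 / 2 := by
  have h := pow_le_pow_of_le_one (a := (1 : ℝ) / 2) (by norm_num) (by norm_num)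
    (Nat.one_le_two_pow (n := m))
  rwa [pow_one] at h

noncomputable def UT (n : ℕ) : UData where
  ι := ℕ × Cyc n
  ε := fun i => (1 / 2) ^ 2 ^ i.1
  sz := fun r i => szT r i.2.1
  a := 3
  pos := fun _ => by positivity
  le_half := fun i => epsT_le i.1
  nonneg := fun r i => szT_nonneg r i.2.1
  mono := fun i => szT_mono i.2.1

/-- the tautological tuple of families -/
def taut (n : ℕ) : Fin n → ((UT n).scale.ι → Gc) × ((UT n).scale.ι → Gc) :=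
  fun k => (fun i => (i.2.1 k).1, fun i => (i.2.1 k).2)

theorem tree1_nm_le (r : ℕ) {n : ℕ} (x : Fin n → Gc × Gc) (k : Fin n) :
    nm r (dp ((x k).1 : Pm)) + nm r (dp ((x k).2 : Pm)) ≤ szT r x :=
  Finset.single_le_sum (f := fun k => nm r (dp ((x k).1 : Pm)) + nm r (dp ((x k).2 : Pm)))
    (fun _ _ => add_nonneg (nm_nonneg _ _) (nm_nonneg _ _)) (Finset.mem_univ k)

theorem tree1_mem {n : ℕ} (t : (UT n).scale.ι → Gc) (hf : ∀ i, Fix (-3) 3 (t i : Pm))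
    (hs : ∀ r i, nm r (dp (t i : Pm)) ≤ szT r i.2.1) : Scale.cF t ∈ (UT n).scale.GF 3 (-6) 6 := by
  refine Scale.mem_GF_iff.2 ⟨Scale.mem_GB_of (by norm_num)
    ⟨0, Set.univ, univ_mem, fun i _ => Gc.sm (t i), fun r => ⟨1, fun i _ => ?_⟩⟩
    ⟨Eventually.of_forall fun i => Gc.sm (t i), fun r => Scale.odS_iff.2 ⟨1, zero_le_one, ?_⟩⟩,
    -3, 3, by norm_num, by norm_num, Eventually.of_forall hf⟩
  · rw [pow_zero, div_one, one_mul]
    exact ((sn_le_nm le_rfl _).trans (hs r i)).trans (le_add_of_nonneg_left zero_le_one)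
  · filter_upwards [(UT n).ev_le r] with i hi
    rw [abs_of_nonneg (sn_nonneg _ _), one_mul]
    exact ((sn_le_nm le_rfl _).trans (hs r i)).trans hi

theorem taut_mem (n : ℕ) (k : Fin n) : Scale.cF (taut n k).1 ∈ (UT n).scale.GF 3 (-6) 6 ∧
    Scale.cF (taut n k).2 ∈ (UT n).scale.GF 3 (-6) 6 :=
  ⟨tree1_mem _ (fun i => (i.2.2.1 k).1) fun r i =>
      (le_add_of_nonneg_right (nm_nonneg _ _)).trans (tree1_nm_le r i.2.1 k),
    tree1_mem _ (fun i => (i.2.2.1 k).2) fun r i =>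
      (le_add_of_nonneg_left (nm_nonneg _ _)).trans (tree1_nm_le r i.2.1 k)⟩

theorem taut_cyc (n : ℕ) (i : (UT n).scale.ι) : PhiL vl (List.ofFn (evT (taut n) i)) = 1 := i.2.2.2

theorem tree1_nm_cG (r : ℕ) (m : ℝ) (g : Gc) :
    nm r (dp (cG 2 m g : Pm)) ≤ 2 * nm r (dp (g : Pm)) := by
  rw [nm, nm, Finset.mul_sum]
  refine Finset.sum_le_sum fun j _ => ?_
  rw [coe_cG, sn_conj_aff (Gc.sm g) two_pos]
  exact mul_le_mul_of_nonneg_right (div_le_self two_pos.le (one_le_pow₀ one_le_two))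
    (sn_nonneg _ _)

theorem tree1_sz {n : ℕ} (r : ℕ) (m : ℝ) (x : Fin n → Gc × Gc) {M : ℝ}
    (h : ∀ k, nm r (dp ((x k).1 : Pm)) ≤ M ∧ nm r (dp ((x k).2 : Pm)) ≤ M) :
    szT r (fun k => (cG 2 m (x k).1, cG 2 m (x k).2)) ≤ 4 * n * M := by
  have h1 := Finset.sum_le_card_nsmul Finset.univ
    (fun k => nm r (dp (cG 2 m (x k).1 : Pm)) + nm r (dp (cG 2 m (x k).2 : Pm))) (4 * M)
    fun k _ => by
      linarith [tree1_nm_cG r m (x k).1, tree1_nm_cG r m (x k).2, (h k).1, (h k).2]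
  rw [Finset.card_univ, Fintype.card_fin, nsmul_eq_mul] at h1
  exact h1.trans (le_of_eq (by ring))

theorem tree1_fix {c : ℝ} {g : Gc} (h : Fix (c - 1 / 2) (c + 1 / 2) (g : Pm)) :
    Fix (-3) 3 (cG 2 (-2 * c) g : Pm) :=
  (h.conj_aff two_pos (-2 * c)).mono (by linarith) (by linarith)

theorem tree1_cyc {n : ℕ} (m : ℝ) {x : Fin n → Gc × Gc} (h : PhiL vl (List.ofFn x) = 1) :
    PhiL vl (List.ofFn fun k => (cG 2 m (x k).1, cG 2 m (x k).2)) = 1 := by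
  have h1 := cV_PhiL two_pos m (List.ofFn x)
  rw [h, map_one, List.map_ofFn] at h1
  exact h1.symm

theorem tree1_fact (l : ℕ) : l.factorial ≤ 2 ^ 2 ^ l := by
  induction l with
  | zero => simp
  | succ l ih =>
    rw [Nat.factorial_succ, pow_succ 2 l, mul_two, pow_add]
    exact Nat.mul_le_mul ((Nat.lt_two_pow_self (n := l)).trans Nat.lt_two_pow_self) ih

theorem tree1_bdd {E : ℝ} (hE : 0 ≤ E) (m l : ℕ) :
    E ^ l * ((1 : ℝ) / 2) ^ 2 ^ (m + l) ≤ Real.exp E := by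
  have h1 := Real.pow_div_factorial_le_exp E hE l
  have h2 : ((l.factorial : ℕ) : ℝ) ≤ 2 ^ 2 ^ (m + l) := by
    exact_mod_cast (tree1_fact l).trans
      (Nat.pow_le_pow_right two_pos (Nat.pow_le_pow_right two_pos (Nat.le_add_left l m)))
  refine le_trans ?_ h1
  rw [one_div, inv_pow, ← div_eq_mul_inv]
  exact div_le_div_of_nonneg_left (pow_nonneg hE l) (by exact_mod_cast l.factorial_pos) h2

theorem tree1_small {δ : ℝ} (hδ : 0 < δ) :
    ∃ m₁ : ℕ, ∀ m, m₁ ≤ m → ((1 : ℝ) / 2) ^ 2 ^ m ≤ δ := by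
  obtain ⟨m₁, h⟩ := exists_pow_lt_of_lt_one hδ (show (1 : ℝ) / 2 < 1 by norm_num)
  exact ⟨m₁, fun m hm => (pow_le_pow_of_le_one (by norm_num) (by norm_num)
    (hm.trans Nat.lt_two_pow_self.le)).trans h.le⟩

theorem tree1_ctl {a b A₀ H ε : ℝ} {C : ℕ → ℝ} {G : ℕ → ℝ} {K r : ℕ} {u : Gc} (hε : 0 < ε)
    (hC : ∀ r, 0 ≤ C r) (hG : ∀ j, j ≤ r → G j ≤ H)
    (h : Ctl a b A₀ (fun r => C r * G r / ε ^ K) u) :
    nm r (dp (u : Pm)) ≤ (∑ j ∈ Finset.range (r + 1), C j) * H / ε ^ K := by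
  rw [nm, Finset.sum_mul, Finset.sum_div]
  refine Finset.sum_le_sum fun j hj => (h.2.2 j).trans ?_
  exact div_le_div_of_nonneg_right (mul_le_mul_of_nonneg_left
    (hG j (Nat.lt_succ_iff.1 (Finset.mem_range.1 hj))) (hC j)) (pow_pos hε K).le

theorem tree1_root {ε D : ℝ} (hε : 0 < ε) (hD : 0 ≤ D) (h : ε ≤ 1 / (D + 1) ^ 2) :
    D * ε ^ 7 / √ε ≤ (ε ^ 2) ^ 3 := by
  have h1 : 0 < √ε := Real.sqrt_pos.2 hε
  have h2 : √ε ≤ 1 / (D + 1) := by
    rw [Real.sqrt_le_left (by positivity), div_pow, one_pow]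
    exact h
  rw [le_div_iff₀ (by positivity)] at h2
  have h3 : √ε * √ε = ε := Real.mul_self_sqrt hε.le
  rw [div_le_iff₀ h1]
  have h4 : D * ε ≤ √ε := by nlinarith
  calc D * ε ^ 7 = ε ^ 6 * (D * ε) := by ring
    _ ≤ ε ^ 6 * √ε := mul_le_mul_of_nonneg_left h4 (by positivity)
    _ = (ε ^ 2) ^ 3 * √ε := by ring

/-- Intersect `A` with the set from `extract` and the sets where the `y j` are cycles; it contains
`{ε ≤ e₀, szT r₀ ≤ ε^3}`. Take `R` from `interp r₀ 7 (2K+1)`. The set of `(m, x)` with `m ≥ m₁`,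
`szT r₀ x ≤ ε^3`, `1 + szT R x ≤ 1 / ε^(K+1)` is stable under taking children when `m₁` is large
(`ε (m+1) = ε m ^ 2`, `sn_conj_aff`, `cV_PhiL`, `Fix.conj_aff`). For every `r`,
`H r (nd w) ≤ B r ^ w.length * H r (nd []) / ε (nd w) ^ K`, and `B ^ n * (1/2)^(2^n)` is bounded. -/
theorem tree_nodes {n L : ℕ}
    (y : Fin L → Fin n → ((UT n).scale.ι → Gc) × ((UT n).scale.ι → Gc)) (c : Fin L → ℝ)
    (hy : ∀ j k, Scale.cF (y j k).1 ∈ (UT n).scale.GF 7 (c j - 1 / 2) (c j + 1 / 2) ∧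
      Scale.cF (y j k).2 ∈ (UT n).scale.GF 7 (c j - 1 / 2) (c j + 1 / 2))
    (hcyc : ∀ j, ∀ᶠ i in (UT n).scale.F, PhiL vl (List.ofFn (evT (y j) i)) = 1)
    {A : Set (UT n).scale.ι} (hA : A ∈ (UT n).scale.F) :
    ∃ (R m₁ : ℕ) (e : ℝ), 0 < e ∧ ∀ x : Cyc n, szT R x.1 ≤ e →
      ∃ nd : List (Fin L) → ℕ × Cyc n, (nd []).2 = x ∧ (∀ w, (nd w).1 = m₁ + w.length) ∧
        (∀ w, nd w ∈ A) ∧
        (∀ j w k, (nd (j :: w)).2.1 k =
          (cG 2 (-2 * c j) ((y j k).1 (nd w)), cG 2 (-2 * c j) ((y j k).2 (nd w)))) ∧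
        ∃ K : ℕ, ∀ r, ∃ B : ℝ, ∀ w,
          (UT n).scale.H r (nd w) ≤ B / (UT n).scale.ε (nd w) ^ K := by
  obtain ⟨A₁, hA₁, K, C, hC, hctl⟩ := Scale.extract (N := Fin L × Fin n)
    (a := fun p => c p.1 - 1 / 2) (b := fun p => c p.1 + 1 / 2) (fun p => y p.1 p.2)
    fun p => hy p.1 p.2
  obtain ⟨e₀, he₀, r₀, hmem⟩ := (UT n).mem_filt.1
    (inter_mem hA (inter_mem hA₁ (eventually_all.2 hcyc)))
  obtain ⟨R, hR, hint⟩ := interp r₀ 7 (K + (K + 1))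
  obtain ⟨C', hC', hint⟩ := hint (C 0) (C R)
  obtain ⟨E, hE⟩ : ∃ E : ℕ → ℝ, ∀ r, E r = 1 + 4 * n * ∑ j ∈ Finset.range (r + 1), C j :=
    ⟨_, fun _ => rfl⟩
  have hE1 : ∀ r, 1 ≤ E r := fun r => by
    rw [hE]
    exact le_add_of_nonneg_right (mul_nonneg (by positivity) (Finset.sum_nonneg fun j _ => hC j))
  have hER : 0 < E R := one_pos.trans_le (hE1 R)
  obtain ⟨m₁, hm₁⟩ := tree1_small (δ := min e₀ (min (1 / E R) (1 / (4 * n * C' + 1) ^ 2)))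
    (by positivity)
  obtain ⟨P, hP⟩ : ∃ P : ℕ × Cyc n → Prop, ∀ i, P i ↔ m₁ ≤ i.1 ∧
      szT r₀ i.2.1 ≤ (UT n).ε i ^ 3 ∧ 1 + szT R i.2.1 ≤ 1 / (UT n).ε i ^ (K + 1) :=
    ⟨_, fun _ => Iff.rfl⟩
  have hin : ∀ i, P i → i ∈ A ∧ i ∈ A₁ ∧ ∀ j, PhiL vl (List.ofFn (evT (y j) i)) = 1 :=
    fun i hi => hmem i ((hm₁ i.1 ((hP i).1 hi).1).trans (min_le_left _ _)) ((hP i).1 hi).2.1
  have step : ∀ (i : {i // P i}) (j : Fin L), ∃ i' : {i // P i}, i'.1.1 = i.1.1 + 1 ∧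
      (∀ k, i'.1.2.1 k = (cG 2 (-2 * c j) ((y j k).1 i.1), cG 2 (-2 * c j) ((y j k).2 i.1))) ∧
      ∀ r, 1 + szT r i'.1.2.1 ≤ E r * (1 + szT r i.1.2.1) / (UT n).ε i.1 ^ K := by
    rintro ⟨i, hi⟩ j
    obtain ⟨-, h1, h2⟩ := hin i hi
    obtain ⟨p1, p2, p3⟩ := (hP i).1 hi
    have hε : 0 < (UT n).ε i := (UT n).pos i
    have hε1 : (UT n).ε i ≤ 1 := ((UT n).le_half i).trans (by norm_num)
    have hsm : (UT n).ε i ≤ min (1 / E R) (1 / (4 * n * C' + 1) ^ 2) :=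
      (hm₁ i.1 p1).trans (min_le_right _ _)
    have hc := fun k => hctl i h1 (j, k)
    have hsz : ∀ r, 1 + szT r (fun k => (cG 2 (-2 * c j) ((y j k).1 i),
        cG 2 (-2 * c j) ((y j k).2 i))) ≤ E r * (1 + szT r i.2.1) / (UT n).ε i ^ K := by
      intro r
      have hG : ∀ s, s ≤ r → (UT n).scale.H s i ≤ 1 + szT r i.2.1 := fun s hs =>
        (UT n).scale.mono i hs
      have q1 := tree1_sz r (-2 * c j) (evT (y j) i) fun k =>
        ⟨tree1_ctl hε hC hG (hc k).1, tree1_ctl hε hC hG (hc k).2⟩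
      have q2 : 1 ≤ (1 + szT r i.2.1) / (UT n).ε i ^ K := by
        rw [le_div_iff₀ (pow_pos hε K), one_mul]
        exact (pow_le_one₀ hε.le hε1).trans (le_add_of_nonneg_right (szT_nonneg _ _))
      rw [hE, mul_div_assoc, add_mul, one_mul, mul_assoc (4 * (n : ℝ)), ← mul_div_assoc]
      exact add_le_add q2 q1
    have hsq : ((1 : ℝ) / 2) ^ 2 ^ (i.1 + 1) = (UT n).ε i ^ 2 := by
      rw [pow_succ 2 i.1, pow_mul]
      rfl
    refine ⟨⟨(i.1 + 1, ⟨fun k => (cG 2 (-2 * c j) ((y j k).1 i), cG 2 (-2 * c j) ((y j k).2 i)),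
      fun k => ⟨tree1_fix (hc k).1.1, tree1_fix (hc k).2.1⟩, tree1_cyc _ (h2 j)⟩),
      (hP _).2 ⟨p1.trans (Nat.le_succ _), ?_, ?_⟩⟩, rfl, fun k => rfl, hsz⟩
    · have hb : C R * (UT n).scale.H R i / (UT n).scale.ε i ^ K ≤
          C R / (UT n).ε i ^ (K + (K + 1)) := by
        rw [pow_add, mul_comm ((UT n).ε i ^ K), ← div_div, div_eq_mul_one_div (C R)]
        exact div_le_div_of_nonneg_right (mul_le_mul_of_nonneg_left p3 (hC R)) (pow_pos hε K).le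
      have q1 := tree1_sz r₀ (-2 * c j) (evT (y j) i) fun k =>
        ⟨hint _ _ hε hε1 (Gc.sm _) (hc k).1.2.1 (((hc k).1.2.2 R).trans hb),
          hint _ _ hε hε1 (Gc.sm _) (hc k).2.2.1 (((hc k).2.2.2 R).trans hb)⟩
      have q2 := tree1_root hε (D := 4 * n * C') (by positivity) (hsm.trans (min_le_right _ _))
      change _ ≤ (((1 : ℝ) / 2) ^ 2 ^ (i.1 + 1)) ^ 3
      rw [hsq]
      refine q1.trans (le_trans (le_of_eq ?_) q2)
      ring
    · change _ ≤ 1 / (((1 : ℝ) / 2) ^ 2 ^ (i.1 + 1)) ^ (K + 1)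
      rw [hsq]
      refine (hsz R).trans ?_
      have q1 : E R ≤ 1 / (UT n).ε i := by
        have := hsm.trans (min_le_left _ _)
        rw [le_div_iff₀ hER] at this
        rw [le_div_iff₀ hε, mul_comm]
        exact this
      have q2 := mul_le_mul q1 p3 (add_nonneg zero_le_one (szT_nonneg _ _)) (by positivity)
      refine (div_le_div_of_nonneg_right q2 (pow_pos hε K).le).trans (le_of_eq ?_)
      field_simp
      ring
  choose f f1 f2 f3 using step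
  refine ⟨R, m₁, (((1 : ℝ) / 2) ^ 2 ^ m₁) ^ 3, by positivity, fun x hx => ?_⟩
  have hroot : P (m₁, x) := by
    refine (hP _).2 ⟨le_rfl, (szT_mono x.1 hR).trans hx, ?_⟩
    have hε : 0 < (UT n).ε (m₁, x) := (UT n).pos _
    have hh := (UT n).le_half (m₁, x)
    have hε1 : (UT n).ε (m₁, x) ≤ 1 := hh.trans (by norm_num)
    have q1 : szT R x.1 ≤ 1 := hx.trans (pow_le_one₀ hε.le hε1)
    have q2 : (UT n).ε (m₁, x) ^ (K + 1) ≤ 1 / 2 := by
      rw [pow_succ]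
      exact (mul_le_of_le_one_left hε.le (pow_le_one₀ hε.le hε1)).trans hh
    rw [le_div_iff₀ (pow_pos hε _)]
    have q3 := mul_le_mul (add_le_add (le_refl (1 : ℝ)) q1) q2 (pow_pos hε _).le (by norm_num)
    exact q3.trans (by norm_num)
  obtain ⟨T, T0, T1⟩ : ∃ T : List (Fin L) → {i // P i}, T [] = ⟨(m₁, x), hroot⟩ ∧
      ∀ j w, T (j :: w) = f (T w) j :=
    ⟨fun w => w.foldr (fun j t => f t j) ⟨(m₁, x), hroot⟩, rfl, fun _ _ => rfl⟩
  have hlen : ∀ w, (T w).1.1 = m₁ + w.length := fun w => by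
    induction w with
    | nil => rw [T0]; rfl
    | cons j w ih => rw [T1, f1, ih, List.length_cons, add_assoc]
  refine ⟨fun w => (T w).1, by beta_reduce; rw [T0], hlen, fun w => (hin _ (T w).2).1,
    fun j w k => by beta_reduce; rw [T1]; exact f2 _ _ _, K + 1,
    fun r => ⟨Real.exp (E r) * (1 + szT r x.1), fun w => ?_⟩⟩
  have hx0 : 0 ≤ 1 + szT r x.1 := add_nonneg zero_le_one (szT_nonneg _ _)
  have hE0 : 0 ≤ E r := zero_le_one.trans (hE1 r)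
  have hw : 1 + szT r (T w).1.2.1 ≤
      E r ^ w.length * (1 + szT r x.1) / (UT n).ε (T w).1 ^ K := by
    induction w with
    | nil =>
      have hε : 0 < (UT n).ε (T []).1 := (UT n).pos _
      rw [le_div_iff₀ (pow_pos hε K), List.length_nil, pow_zero, one_mul]
      refine (mul_le_of_le_one_right (add_nonneg zero_le_one (szT_nonneg _ _))
        (pow_le_one₀ hε.le (((UT n).le_half _).trans (by norm_num)))).trans ?_
      rw [T0]
    | cons j w ih =>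
      have hε : 0 < (UT n).ε (T w).1 := (UT n).pos _
      have hsq : (UT n).ε (T (j :: w)).1 = (UT n).ε (T w).1 ^ 2 := by
        change ((1 : ℝ) / 2) ^ 2 ^ (T (j :: w)).1.1 = (((1 : ℝ) / 2) ^ 2 ^ (T w).1.1) ^ 2
        rw [T1, f1, pow_succ 2, pow_mul]
      rw [hsq, T1]
      refine (f3 (T w) j r).trans ((div_le_div_of_nonneg_right
        (mul_le_mul_of_nonneg_left ih hE0) (pow_pos hε K).le).trans (le_of_eq ?_))
      rw [List.length_cons]
      field_simp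
      ring
  have hε : 0 < (UT n).ε (T w).1 := (UT n).pos _
  have hb : E r ^ w.length * (UT n).ε (T w).1 ≤ Real.exp (E r) := by
    have := tree1_bdd hE0 m₁ w.length
    rwa [← hlen w] at this
  refine hw.trans ?_
  change _ ≤ _ / (UT n).ε (T w).1 ^ (K + 1)
  rw [pow_succ, mul_comm ((UT n).ε (T w).1 ^ K), ← div_div]
  refine div_le_div_of_nonneg_right ?_ (pow_pos hε K).le
  rw [le_div_iff₀ hε, mul_right_comm]
  exact mul_le_mul_of_nonneg_right hb hx0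

end Pool.Agent.P.MP_7bb7e1_gt
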