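import Pool.Agent.P.MP_7bb7e1_gt.Aff
import Pool.Agent.P.MP_7bb7e1_gt.Disj

/-! Placement of the nodes of a tree in the gaps of a Cantor set. -/

namespace Pool.Agent.P.MP_7bb7e1_gt

/-- centres of the placed intervals -/
noncomputable def tree2_ct {L : ℕ} (M μ : ℝ) (c : Fin L → ℝ) : List (Fin L) → ℝ
  | [] => μ / 2
  | j :: w => μ * (μ / (2 * M) * (μ / 2) ^ w.length * c j + tree2_ct M μ c w) + (2 * j + 2) * μ

/-- With `μ = 1 / (2L+2)`: `sl [] = μ / (2M)`, `ct [] = μ / 2`, `sl (j :: w) = μ * sl w / 2`,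
`ct (j :: w) = μ * (sl w * c j + ct w) + (2j+2) μ`. For disjointness define intervals `J [] = [0, μ]`,
`J (j :: w) = μ J w + (2j+2) μ`; they are pairwise disjoint, lie in `[0, 1]`, and contain the
placed intervals. -/
theorem tree_place (L : ℕ) {M μ : ℝ} (hμ : μ = 1 / (2 * L + 2)) (hM : 1 ≤ M) (c : Fin L → ℝ)
    (hc : ∀ j, |c j| ≤ M / 2) : ∃ sl ct : List (Fin L) → ℝ,
      (∀ w, sl w = μ / (2 * M) * (μ / 2) ^ w.length) ∧
      (∀ (j : Fin L) w, aff (sl (j :: w)) (ct (j :: w)) * aff 2 (-2 * c j) =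
        aff μ ((2 * j + 2) * μ) * aff (sl w) (ct w)) ∧
      Sep (fun w => sl w * -M + ct w) (fun w => sl w * M + ct w) ∧
      (∀ w, 0 ≤ sl w * -M + ct w ∧ sl w * M + ct w ≤ 1) ∧ sl [] * M + ct [] ≤ μ ∧
      ∀ (j : Fin L) w, (2 * j + 2) * μ ≤ sl (j :: w) * -M + ct (j :: w) ∧
        sl (j :: w) * M + ct (j :: w) ≤ (2 * j + 3) * μ := by
  have hL : (0 : ℝ) ≤ L := Nat.cast_nonneg L
  have hμ0 : 0 < μ := by rw [hμ]; positivity
  have hμ1 : (2 * L + 2) * μ = 1 := by rw [hμ]; field_simp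
  have hM0 : 0 < M := by linarith
  set sl : List (Fin L) → ℝ := fun w => μ / (2 * M) * (μ / 2) ^ w.length with hsl
  set ct : List (Fin L) → ℝ := tree2_ct M μ c with hct
  have slpos : ∀ w, 0 < sl w := fun w => by simp only [hsl]; positivity
  have slc : ∀ (j : Fin L) w, sl (j :: w) = μ / 2 * sl w := fun j w => by
    simp only [hsl, List.length_cons, pow_succ]; ring
  have ctc : ∀ (j : Fin L) w, ct (j :: w) = μ * (sl w * c j + ct w) + (2 * j + 2) * μ :=
    fun j w => rfl
  have sl0 : sl [] * M = μ / 2 := by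
    simp only [hsl, List.length_nil, pow_zero]; field_simp
  have ct0 : ct [] = μ / 2 := rfl
  have hlo : ∀ (j : Fin L) w,
      μ * (sl w * -M + ct w) + (2 * j + 2) * μ ≤ sl (j :: w) * -M + ct (j :: w) := fun j w => by
    rw [slc, ctc]
    have h1 : 0 ≤ μ * sl w * (c j + M / 2) :=
      mul_nonneg (mul_pos hμ0 (slpos w)).le (by linarith [(abs_le.1 (hc j)).1])
    nlinarith [h1]
  have hhi : ∀ (j : Fin L) w,
      sl (j :: w) * M + ct (j :: w) ≤ μ * (sl w * M + ct w) + (2 * j + 2) * μ := fun j w => by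
    rw [slc, ctc]
    have h1 : 0 ≤ μ * sl w * (M / 2 - c j) :=
      mul_nonneg (mul_pos hμ0 (slpos w)).le (by linarith [(abs_le.1 (hc j)).2])
    nlinarith [h1]
  have hj : ∀ j : Fin L, (0 : ℝ) ≤ (j : ℕ) ∧ ((j : ℕ) : ℝ) + 1 ≤ L := fun j =>
    ⟨Nat.cast_nonneg _, by exact_mod_cast j.2⟩
  have h01 : ∀ w, 0 ≤ sl w * -M + ct w ∧ sl w * M + ct w ≤ 1 := fun w => by
    induction w with
    | nil =>
      constructor
      · rw [mul_neg, sl0, ct0]; linarith
      · rw [sl0, ct0]; nlinarith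
    | cons j w ih =>
      have h1 := hlo j w
      have h2 := hhi j w
      have h3 := mul_le_mul_of_nonneg_left ih.1 hμ0.le
      have h4 := mul_le_mul_of_nonneg_left ih.2 hμ0.le
      have h5 := mul_le_mul_of_nonneg_right (hj j).1 hμ0.le
      have h6 := mul_le_mul_of_nonneg_right (hj j).2 hμ0.le
      constructor <;> nlinarith
  have hch : ∀ (j : Fin L) w, (2 * j + 2) * μ ≤ sl (j :: w) * -M + ct (j :: w) ∧
      sl (j :: w) * M + ct (j :: w) ≤ (2 * j + 3) * μ := fun j w => by
    have h1 := hlo j w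
    have h2 := hhi j w
    have h3 := mul_le_mul_of_nonneg_left (h01 w).1 hμ0.le
    have h4 := mul_le_mul_of_nonneg_left (h01 w).2 hμ0.le
    constructor <;> nlinarith
  have hroot : sl [] * M + ct [] ≤ μ := by rw [sl0, ct0]; linarith
  have hsep : ∀ w w' : List (Fin L), w ≠ w' →
      sl w * M + ct w < sl w' * -M + ct w' ∨ sl w' * M + ct w' < sl w * -M + ct w := by
    have hr : ∀ (j : Fin L) w, sl [] * M + ct [] < sl (j :: w) * -M + ct (j :: w) := fun j w => by
      have h1 := (hch j w).1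
      have h5 := mul_le_mul_of_nonneg_right (hj j).1 hμ0.le
      nlinarith
    have hlt : ∀ (j j' : Fin L) w w', j < j' →
        sl (j :: w) * M + ct (j :: w) < sl (j' :: w') * -M + ct (j' :: w') := fun j j' w w' h => by
      have h1 := (hch j w).2
      have h2 := (hch j' w').1
      have h3 : ((j : ℕ) : ℝ) + 1 ≤ (j' : ℕ) := by exact_mod_cast h
      have h4 := mul_le_mul_of_nonneg_right h3 hμ0.le
      nlinarith
    have heq : ∀ (j : Fin L) w w', sl w * M + ct w < sl w' * -M + ct w' →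
        sl (j :: w) * M + ct (j :: w) < sl (j :: w') * -M + ct (j :: w') := fun j w w' h => by
      have h1 := hhi j w
      have h2 := hlo j w'
      have h3 := mul_lt_mul_of_pos_left h hμ0
      linarith
    intro w
    induction w with
    | nil =>
      intro w' h
      cases w' with
      | nil => exact absurd rfl h
      | cons j w' => exact Or.inl (hr j w')
    | cons j w ih =>
      intro w' h
      cases w' with
      | nil => exact Or.inr (hr j w)
      | cons j' w' =>
        rcases lt_trichotomy j j' with hjj | rfl | hjj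
        · exact Or.inl (hlt j j' w w' hjj)
        · exact (ih w' fun e => h (by rw [e])).imp (heq j w w') (heq j w' w)
        · exact Or.inr (hlt j' j w' w hjj)
  refine ⟨sl, ct, fun w => rfl, fun j w => ?_, fun w w' h => ?_, h01, hroot, hch⟩
  · rw [aff_mul (slpos _).ne' two_ne_zero, aff_mul hμ0.ne' (slpos _).ne', slc, ctc]
    congr 1 <;> ring
  · refine Set.disjoint_left.2 fun x hx hx' => ?_
    rcases hsep w w' h with h | h
    · exact absurd (hx'.1.trans hx.2) (not_le.2 h)
    · exact absurd (hx.1.trans hx'.2) (not_le.2 h)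

theorem tree2_summable (m₁ : ℕ) {B : ℝ} (hB : 0 ≤ B) :
    Summable fun n : ℕ => B ^ n * √(((1 : ℝ) / 2) ^ 2 ^ (m₁ + n)) := by
  set a : ℕ → ℝ := fun n => √(((1 : ℝ) / 2) ^ 2 ^ (m₁ + n)) with ha
  have ha0 : ∀ n, 0 ≤ a n := fun n => Real.sqrt_nonneg _
  have hs : ∀ n, a (n + 1) = a n * a n := fun n => by
    simp only [ha]
    rw [← Real.sqrt_mul (by positivity), ← pow_add, ← add_assoc, pow_succ, mul_two]
  have ht : Filter.Tendsto a Filter.atTop (nhds 0) := by
    have h1 : Filter.Tendsto (fun n : ℕ => 2 ^ (m₁ + n)) Filter.atTop Filter.atTop :=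
      Filter.tendsto_atTop_mono (fun n => by
        show n ≤ 2 ^ (m₁ + n)
        exact (Nat.le_add_left n m₁).trans Nat.lt_two_pow_self.le) Filter.tendsto_id
    have h2 := (tendsto_pow_atTop_nhds_zero_of_lt_one (r := (1 : ℝ) / 2) (by norm_num)
      (by norm_num)).comp h1
    have h3 := (Real.continuous_sqrt.tendsto 0).comp h2
    rw [Real.sqrt_zero] at h3
    exact h3
  have ht2 : Filter.Tendsto (fun n => B * a n) Filter.atTop (nhds 0) := by
    simpa using ht.const_mul B
  refine summable_of_ratio_norm_eventually_le (r := 1 / 2) (by norm_num) ?_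
  filter_upwards [ht2.eventually (ge_mem_nhds (show (0 : ℝ) < 1 / 2 by norm_num))] with n hn
  show ‖B ^ (n + 1) * a (n + 1)‖ ≤ 1 / 2 * ‖B ^ n * a n‖
  have h0 : 0 ≤ B ^ n * a n := mul_nonneg (pow_nonneg hB n) (ha0 n)
  rw [Real.norm_of_nonneg (mul_nonneg (pow_nonneg hB _) (ha0 _)), Real.norm_of_nonneg h0, hs]
  calc B ^ (n + 1) * (a n * a n) = B * a n * (B ^ n * a n) := by ring
    _ ≤ _ := mul_le_mul_of_nonneg_right hn h0

/-- `List.equivSigmaTuple`, `summable_sigma_of_nonneg`, and comparison with a geometric series -/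
theorem tree_summable (L m₁ r : ℕ) {s₀ t : ℝ} (hs : 0 < s₀) (ht : 0 < t) :
    Summable fun w : List (Fin L) =>
      √(((1 : ℝ) / 2) ^ 2 ^ (m₁ + w.length)) / (s₀ * t ^ w.length) ^ r := by
  rw [← (List.equivSigmaTuple (α := Fin L)).symm.summable_iff]
  have he : ((fun w : List (Fin L) =>
      √(((1 : ℝ) / 2) ^ 2 ^ (m₁ + w.length)) / (s₀ * t ^ w.length) ^ r) ∘
        (List.equivSigmaTuple (α := Fin L)).symm) =
      fun p => √(((1 : ℝ) / 2) ^ 2 ^ (m₁ + p.1)) / (s₀ * t ^ p.1) ^ r := by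
    ext p
    simp [List.equivSigmaTuple]
  rw [he, summable_sigma_of_nonneg fun p => by positivity]
  refine ⟨fun n => Summable.of_finite, ?_⟩
  refine ((tree2_summable m₁ (B := L / t ^ r) (by positivity)).mul_left (1 / s₀ ^ r)).congr
    fun n => ?_
  rw [tsum_fintype]
  simp only [Finset.sum_const, Finset.card_univ, Fintype.card_fun, Fintype.card_fin, nsmul_eq_mul,
    Nat.cast_pow, div_pow, mul_pow, ← pow_mul, mul_comm r n]
  field_simp

end Pool.Agent.P.MP_7bb7e1_gt
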