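import Pool.Agent.P.MP_7bb7e1_gt.Univ
import Pool.Agent.P.MP_7bb7e1_gt.Tree1
import Pool.Agent.P.MP_7bb7e1_gt.Tree2
import Pool.Agent.P.MP_7bb7e1_gt.Comm

/-! The swindle: small cycles die in every central extension. -/

namespace Pool.Agent.P.MP_7bb7e1_gt

open Filter Set

variable {n₀ : ℕ} {E : Type*} [Group E] {π : E →* Gc} {s : Gc → E}

theorem tree3_ofFn_map {α β : Type*} {n : ℕ} (f : α → β) (x : Fin n → α × α) :
    (List.ofFn fun k => (f (x k).1, f (x k).2)) = (List.ofFn x).map (Prod.map f f) := by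
  rw [List.map_ofFn]
  rfl

/-- a cycle supported in `[0, 1]` and its placed copy have the same lifted product -/
theorem tree3a_place (hc : ∀ e, π e = 1 → e ∈ Subgroup.center E) (hs : ∀ g, π (s g) = g)
    {n : ℕ} {l : ℝ} (hl : 0 < l) (m : ℝ) (x : Fin n → Gc × Gc)
    (hx : ∀ k, Fix 0 1 ((x k).1 : Pm) ∧ Fix 0 1 ((x k).2 : Pm)) (h1 : Phi (List.ofFn x) = 1) :
    PhiL s (List.ofFn fun k => (cG l m (x k).1, cG l m (x k).2)) = PhiL s (List.ofFn x) := by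
  obtain ⟨g, -, hg⟩ := exists_aff (a := 0) (b := 1) (l := l) (m := m)
    (α := min 0 (l * 0 + m) - 1) (β := max 1 (l * 1 + m) + 1) hl (by norm_num)
    (by linarith [min_le_left (0 : ℝ) (l * 0 + m)]) (by linarith [le_max_left (1 : ℝ) (l * 1 + m)])
    (by linarith [min_le_right (0 : ℝ) (l * 0 + m)])
    (by linarith [le_max_right (1 : ℝ) (l * 1 + m)])
  have key : ∀ u : Gc, Fix 0 1 (u : Pm) → cG l m u = g * u * g⁻¹ := fun u hu => by
    apply Subtype.ext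
    rw [coe_cG]
    exact conj_eq_of_agree hu fun x h1 h2 => by rw [aff_apply hl.ne', hg x h1 h2]
  have e : (List.ofFn fun k => (cG l m (x k).1, cG l m (x k).2)) =
      (List.ofFn x).map (Prod.map (fun u => g * u * g⁻¹) fun u => g * u * g⁻¹) := by
    rw [← tree3_ofFn_map]
    congr 1
    funext k
    rw [key _ (hx k).1, key _ (hx k).2]
  have h2 := Subgroup.mem_center_iff.1 (hc (PhiL s (List.ofFn x)) (by rw [map_PhiL π hs, h1])) (s g)
  rw [e, PhiL_conj π hc hs, h2, mul_inv_cancel_right]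

/-- the product over the tree, read on the root interval and on the child intervals -/
theorem tree3a_on {L : ℕ} {μ : ℝ} (hμ : 0 < μ) {lo hi : List (Fin L) → ℝ} (h0 : 0 ≤ lo [])
    (hroot : hi [] ≤ μ)
    (hch : ∀ (j : Fin L) w, (2 * j + 2) * μ ≤ lo (j :: w) ∧ hi (j :: w) ≤ (2 * j + 3) * μ)
    {x : List (Fin L) → Pm} (hx : ∀ w, Fix (lo w) (hi w) (x w)) {X : Pm} (hX : IsDP x X) :
    (∀ t, t ≤ μ → X t = x [] t) ∧
    (∀ (j : Fin L) (Z : Pm), IsDP (fun w => x (j :: w)) Z →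
      ∀ t ∈ Icc ((2 * j + 2) * μ) ((2 * j + 3) * μ), X t = Z t) ∧
    ∀ t, t ∉ Icc 0 μ → (∀ j : Fin L, t ∉ Icc ((2 * j + 2) * μ) ((2 * j + 3) * μ)) → X t = t := by
  have hj : ∀ j : Fin L, (0 : ℝ) ≤ (j : ℕ) * μ := fun j => by positivity
  refine ⟨fun t ht => ?_, fun j Z hZ t ht => ?_, fun t h1 h2 => hX.2 t fun w => ?_⟩
  · by_cases h1 : x [] t = t
    · rw [h1]
      refine hX.2 t fun w => ?_
      cases w with
      | nil => exact h1
      | cons j w => exact hx _ t (Or.inl (by linarith [(hch j w).1, hj j]))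
    · exact hX.1 [] t h1
  · by_cases h1 : ∀ w, x (j :: w) t = t
    · rw [hZ.2 t h1]
      refine hX.2 t fun w => ?_
      cases w with
      | nil => exact hx _ t (Or.inr (by linarith [ht.1, hj j]))
      | cons i w =>
        rcases lt_trichotomy i j with h2 | h2 | h2
        · have h3 : ((i : ℕ) : ℝ) + 1 ≤ (j : ℕ) := by exact_mod_cast h2
          have h4 := mul_le_mul_of_nonneg_right h3 hμ.le
          exact hx _ t (Or.inr (by linarith [ht.1, (hch i w).2]))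
        · rw [h2]
          exact h1 w
        · have h3 : ((j : ℕ) : ℝ) + 1 ≤ (i : ℕ) := by exact_mod_cast h2
          have h4 := mul_le_mul_of_nonneg_right h3 hμ.le
          exact hx _ t (Or.inl (by linarith [ht.2, (hch i w).1]))
    · push Not at h1
      obtain ⟨w, hw⟩ := h1
      rw [hZ.1 w t hw]
      exact hX.1 (j :: w) t hw
  · cases w with
    | nil => exact disj_off ((hx _).mono h0 hroot) h1
    | cons j w => exact disj_off ((hx _).mono (hch j w).1 (hch j w).2) (h2 j)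

/-- The swindle in pointwise form. Realise `h j = aff μ ((2j+2) μ)` on `[0, 1]` by an element of
`Gc` (`exists_aff`, `conj_eq_of_agree`, `IsDP.fix`, `IsDP.conj`); apply `pieces` with
`a j = 2 j μ`, `b j = (2 j + 1) μ` to the root and the conjugates of the `Y j`; `PhiL s (Y j)` is
central since `Phi (Y j) = 1` (`IsDP.phi`), and `PhiL_conj` applies. -/
theorem swindle (h : VSpt n₀) (hc : ∀ e, π e = 1 → e ∈ Subgroup.center E) (hs : ∀ g, π (s g) = g)
    {n L : ℕ} {μ : ℝ} (hμ : μ = 1 / (2 * L + 2)) (lo hi : List (Fin L) → ℝ) (hsep : Sep lo hi)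
    (h01 : ∀ w, 0 ≤ lo w ∧ hi w ≤ 1) (hroot : hi [] ≤ μ)
    (hch : ∀ (j : Fin L) w, (2 * j + 2) * μ ≤ lo (j :: w) ∧ hi (j :: w) ≤ (2 * j + 3) * μ)
    (x : List (Fin L) → Fin n → Gc × Gc) (y : Fin L → List (Fin L) → Fin n → Gc × Gc)
    (hx : ∀ w k, Fix (lo w) (hi w) ((x w k).1 : Pm) ∧ Fix (lo w) (hi w) ((x w k).2 : Pm))
    (hy : ∀ j w k, Fix (lo w) (hi w) ((y j w k).1 : Pm) ∧ Fix (lo w) (hi w) ((y j w k).2 : Pm))
    (hcyc : ∀ j w, Phi (List.ofFn (y j w)) = 1)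
    (hxy : ∀ (j : Fin L) w k, x (j :: w) k =
      (cG μ ((2 * j + 2) * μ) (y j w k).1, cG μ ((2 * j + 2) * μ) (y j w k).2))
    (X : Fin n → Gc × Gc) (Y : Fin L → Fin n → Gc × Gc)
    (hX : ∀ k, IsDP (fun w => ((x w k).1 : Pm)) (X k).1 ∧ IsDP (fun w => ((x w k).2 : Pm)) (X k).2)
    (hY : ∀ j k, IsDP (fun w => ((y j w k).1 : Pm)) (Y j k).1 ∧
      IsDP (fun w => ((y j w k).2 : Pm)) (Y j k).2)
    (rel : PhiL s (List.ofFn X) = (List.ofFn fun j => PhiL s (List.ofFn (Y j))).prod) :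
    PhiL s (List.ofFn (x [])) = 1 := by
  have hμ0 : 0 < μ := by rw [hμ]; positivity
  have hY01 : ∀ j k, Fix 0 1 ((Y j k).1 : Pm) ∧ Fix 0 1 ((Y j k).2 : Pm) := fun j k =>
    ⟨(hY j k).1.fix fun w => (hy j w k).1.mono (h01 w).1 (h01 w).2,
      (hY j k).2.fix fun w => (hy j w k).2.mono (h01 w).1 (h01 w).2⟩
  have hPhi : ∀ j, Phi (List.ofFn (Y j)) = 1 := fun j => by
    have h1 := IsDP.phi hsep (y j) (Y j) (hy j) (hY j)
    simp only [hcyc j, OneMemClass.coe_one] at h1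
    exact Subtype.ext (h1.unique isDP_one)
  have hZ : ∀ (j : Fin L) k,
      IsDP (fun w => ((x (j :: w) k).1 : Pm)) (cG μ ((2 * j + 2) * μ) (Y j k).1) ∧
      IsDP (fun w => ((x (j :: w) k).2 : Pm)) (cG μ ((2 * j + 2) * μ) (Y j k).2) := fun j k => by
    simp only [hxy, coe_cG]
    exact ⟨(hY j k).1.conj _, (hY j k).2.conj _⟩
  have k1 := fun k => tree3a_on hμ0 (h01 []).1 hroot hch (fun w => (hx w k).1) (hX k).1
  have k2 := fun k => tree3a_on hμ0 (h01 []).1 hroot hch (fun w => (hx w k).2) (hX k).2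
  have ea : ∀ j : Fin L, (2 * ((j.succ : ℕ) : ℝ)) * μ = (2 * j + 2) * μ := fun j => by
    rw [Fin.val_succ]; push_cast; ring
  have eb : ∀ j : Fin L, (2 * ((j.succ : ℕ) : ℝ) + 1) * μ = (2 * j + 3) * μ := fun j => by
    rw [Fin.val_succ]; push_cast; ring
  have ea0 : (2 * (((0 : Fin (L + 1)) : ℕ) : ℝ)) * μ = 0 := by simp
  have eb0 : (2 * (((0 : Fin (L + 1)) : ℕ) : ℝ) + 1) * μ = μ := by simp
  have hp := pieces h hc hs (a := fun i => (2 * (i : ℝ)) * μ) (b := fun i => (2 * (i : ℝ) + 1) * μ)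
    (fun i => by linarith) (fun i => by push_cast; linarith) X
    (Fin.cons (α := fun _ => Fin n → Gc × Gc) (x []) fun j k =>
      (cG μ ((2 * j + 2) * μ) (Y j k).1, cG μ ((2 * j + 2) * μ) (Y j k).2))
    (fun i k => by
      refine Fin.cases ?_ (fun j => ?_) i
      · rw [Fin.cons_zero, ea0, eb0]
        exact ⟨(hx [] k).1.mono (h01 []).1 hroot, (hx [] k).2.mono (h01 []).1 hroot⟩
      · rw [Fin.cons_succ, ea, eb]
        exact ⟨((hY01 j k).1.conj_aff hμ0 _).mono (by linarith) (by linarith),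
          ((hY01 j k).2.conj_aff hμ0 _).mono (by linarith) (by linarith)⟩)
    (fun i k => by
      refine Fin.cases ?_ (fun j => ?_) i
      · rw [Fin.cons_zero, ea0, eb0]
        exact fun t ht => ⟨(k1 k).1 t ht.2, (k2 k).1 t ht.2⟩
      · rw [Fin.cons_succ, ea, eb]
        exact fun t ht => ⟨(k1 k).2.1 j _ (hZ j k).1 t ht, (k2 k).2.1 j _ (hZ j k).2 t ht⟩)
    (fun k t ht => by
      have h1 := ht 0
      have h2 := fun j : Fin L => ht j.succ
      simp only [ea0, eb0] at h1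
      simp only [ea, eb] at h2
      exact ⟨(k1 k).2.2 t h1 h2, (k2 k).2.2 t h1 h2⟩)
  rw [List.ofFn_succ, List.prod_cons, rel] at hp
  simp only [Fin.cons_zero, Fin.cons_succ,
    fun j : Fin L => tree3a_place hc hs hμ0 ((2 * j + 2) * μ) (Y j) (hY01 j) (hPhi j)] at hp
  exact (right_eq_mul.1 hp)

/-- the specification of `PC` for finitely many families at once -/
theorem tree3_spec {S : Scale} {N : Type} [Finite N] {a b : N → ℝ} (t : N → S.ι → Gc)
    (ht : ∀ k, Scale.cF (t k) ∈ S.GF 1 (a k) (b k)) : ∃ M : ℝ, ∀ᶠ C in S.KF, ∀ k,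
      (∀ w, Fix (C.lo M w) (C.hi M w) (C.place (t k) w : Pm)) ∧
        IsDP (fun w => (C.place (t k) w : Pm)) (C.PC (t k)) := by
  choose M₀ hM₀ using fun k => Scale.PC_spec (ht k)
  obtain ⟨M, hM⟩ := (Set.finite_range M₀).bddAbove
  refine ⟨M, Filter.eventually_all.2 fun k => ?_⟩
  exact (hM₀ k M (hM ⟨k, rfl⟩)).mono fun C hC => hC.2

/-- a placed cycle supported in `[-3, 3]` is conjugate to the cycle -/
theorem tree3_root (hc : ∀ e, π e = 1 → e ∈ Subgroup.center E) (hs : ∀ g, π (s g) = g)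
    {n : ℕ} {l : ℝ} (hl : 0 < l) (m : ℝ) (x : Fin n → Gc × Gc)
    (hx : ∀ k, Fix (-3) 3 ((x k).1 : Pm) ∧ Fix (-3) 3 ((x k).2 : Pm))
    (h1 : PhiL s (List.ofFn fun k => (cG l m (x k).1, cG l m (x k).2)) = 1) :
    PhiL s (List.ofFn x) = 1 := by
  obtain ⟨g, -, hg⟩ := exists_aff (a := -3) (b := 3) (l := l) (m := m)
    (α := min (-3) (l * -3 + m) - 1) (β := max 3 (l * 3 + m) + 1) hl (by norm_num)
    (by linarith [min_le_left (-3 : ℝ) (l * -3 + m)]) (by linarith [le_max_left (3 : ℝ) (l * 3 + m)])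
    (by linarith [min_le_right (-3 : ℝ) (l * -3 + m)])
    (by linarith [le_max_right (3 : ℝ) (l * 3 + m)])
  have key : ∀ u : Gc, Fix (-3) 3 (u : Pm) → cG l m u = g * u * g⁻¹ := fun u hu => by
    apply Subtype.ext
    rw [coe_cG]
    exact conj_eq_of_agree hu fun x h1 h2 => by rw [aff_apply hl.ne', hg x h1 h2]
  have e : (List.ofFn fun k => (cG l m (x k).1, cG l m (x k).2)) =
      (List.ofFn x).map (Prod.map (fun u => g * u * g⁻¹) fun u => g * u * g⁻¹) := by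
    rw [← tree3_ofFn_map]
    congr 1
    funext k
    rw [key _ (hx k).1, key _ (hx k).2]
  rw [e, PhiL_conj π hc hs] at h1
  calc PhiL s (List.ofFn x) = (s g)⁻¹ * (s g * PhiL s (List.ofFn x) * (s g)⁻¹) * s g := by group
    _ = 1 := by rw [h1]; group

theorem tree3_cG {a b c d a' b' c' d' : ℝ} (h : aff a b * aff c d = aff a' b' * aff c' d') (g : Gc) :
    cG a b (cG c d g) = cG a' b' (cG c' d' g) := by
  apply Subtype.ext
  simp only [coe_cG]
  calc aff a b * (aff c d * g * (aff c d)⁻¹) * (aff a b)⁻¹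
      = (aff a b * aff c d) * g * (aff a b * aff c d)⁻¹ := by group
    _ = (aff a' b' * aff c' d') * g * (aff a' b' * aff c' d')⁻¹ := by rw [h]
    _ = _ := by group

/-- `univ` for `taut`, `PC_spec` for all entries, `tree_nodes`, `tree_place` with `M` at least
`3`, `2 |c j| + 1` and the bound from the filter, `tree_summable`, `swindle`; finally realise the
root placement on `[-3, 3]` by an element of `Gc`. -/
theorem small (h : VSpt n₀) (hc : ∀ e, π e = 1 → e ∈ Subgroup.center E) (hs : ∀ g, π (s g) = g) :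
    ∃ (R : ℕ) (e : ℝ), 0 < e ∧ ∀ x : Cyc (3 * n₀), szT R x.1 ≤ e → PhiL s (List.ofFn x.1) = 1 := by
  obtain ⟨L, y, c, hy, hcyc, hrel⟩ := Scale.univ π h hc hs (taut (3 * n₀)) (taut_mem _)
    (Eventually.of_forall (taut_cyc _))
  have le13 : (1 : ℕ) ≤ 3 := by norm_num
  have le17 : (1 : ℕ) ≤ 7 := by norm_num
  obtain ⟨M₁, h₁⟩ := tree3_spec (fun k => (taut (3 * n₀) k).1)
    (fun k => Scale.GF_mono le13 le_rfl le_rfl (taut_mem _ k).1)
  obtain ⟨M₂, h₂⟩ := tree3_spec (fun k => (taut (3 * n₀) k).2)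
    (fun k => Scale.GF_mono le13 le_rfl le_rfl (taut_mem _ k).2)
  obtain ⟨M₃, h₃⟩ := tree3_spec (fun p : Fin L × Fin (3 * n₀) => (y p.1 p.2).1)
    (fun p => Scale.GF_mono le17 le_rfl le_rfl (hy p.1 p.2).1)
  obtain ⟨M₄, h₄⟩ := tree3_spec (fun p : Fin L × Fin (3 * n₀) => (y p.1 p.2).2)
    (fun p => Scale.GF_mono le17 le_rfl le_rfl (hy p.1 p.2).2)
  obtain ⟨A, hA, M₅, hAll⟩ := Scale.eventually_KF.1 (hrel.and (h₁.and (h₂.and (h₃.and h₄))))
  obtain ⟨M₆, hM₆⟩ := (Set.finite_range fun j => 2 * |c j|).bddAbove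
  obtain ⟨M, hM1, hM₁, hM₂, hM₃, hM₄, hM₅, hM₆'⟩ : ∃ M : ℝ, 1 ≤ M ∧ M₁ ≤ M ∧ M₂ ≤ M ∧ M₃ ≤ M ∧
      M₄ ≤ M ∧ M₅ ≤ M ∧ M₆ ≤ M :=
    ⟨max 1 (max M₁ (max M₂ (max M₃ (max M₄ (max M₅ M₆))))), by simp, by simp, by simp, by simp,
      by simp, by simp, by simp⟩
  have hcM : ∀ j, |c j| ≤ M / 2 := fun j => by
    have : 2 * |c j| ≤ M₆ := hM₆ ⟨j, rfl⟩
    linarith
  have hA' := inter_mem hA (Filter.eventually_all.2 hcyc)
  obtain ⟨R, m₁, e, he, hnd⟩ := tree_nodes y c hy hcyc hA'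
  refine ⟨R, e, he, fun x hx => ?_⟩
  obtain ⟨nd, hnd0, hlev, hndA, hch, hK⟩ := hnd x hx
  obtain ⟨μ, hμ⟩ : ∃ μ : ℝ, μ = 1 / (2 * L + 2) := ⟨_, rfl⟩
  have hL : (0 : ℝ) ≤ L := Nat.cast_nonneg L
  have hμ0 : 0 < μ := by rw [hμ]; positivity
  have hμ1 : μ ≤ 1 := by
    rw [hμ, div_le_one (by positivity)]
    linarith
  obtain ⟨sl, ct, hsl, haff, hsep, h01, hroot, hchi⟩ := tree_place L hμ hM1 c hcM
  have hs0 : 0 < μ / (2 * M) := by positivity
  have hsl0 : ∀ w, 0 < sl w := fun w => by rw [hsl]; positivity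
  have hsl1 : ∀ w, sl w ≤ 1 := fun w => by
    rw [hsl]
    refine mul_le_one₀ ?_ (by positivity) (pow_le_one₀ (by positivity) (by linarith))
    rw [div_le_one (by positivity)]
    linarith
  let C : Config (UT (3 * n₀)).scale := ⟨List (Fin L), nd, sl, ct⟩
  have hAdm : C.Adm := by
    refine ⟨fun w => ⟨hsl0 w, hsl1 w⟩, ⟨1, fun w => ?_⟩, hK, fun r => ?_⟩
    · have h1 := h01 w
      have h2 : 0 ≤ sl w * M := mul_nonneg (hsl0 w).le (by linarith)
      change |ct w| ≤ 1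
      rw [abs_le]
      constructor <;> nlinarith [h1.1, h1.2]
    · refine (tree_summable L m₁ r hs0 (half_pos hμ0)).congr fun w => ?_
      change _ = √(((1 : ℝ) / 2) ^ 2 ^ (nd w).1) / sl w ^ r
      rw [hlev, hsl]
  have hIn : C.In A M := ⟨hAdm, fun w => (hndA w).1, hsep⟩
  obtain ⟨rel, s₁, s₂, s₃, s₄⟩ := hAll C (hIn.mono subset_rfl hM₅)
  have hfix : ∀ {M' : ℝ} (_ : M' ≤ M) (w : List (Fin L)) {u : Pm},
      Fix (C.lo M' w) (C.hi M' w) u → Fix (C.lo M w) (C.hi M w) u := fun hM' w u hu => by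
    refine hu.mono ?_ ?_
    · change sl w * -M + ct w ≤ sl w * -_ + ct w
      nlinarith [hsl0 w]
    · change sl w * _ + ct w ≤ sl w * M + ct w
      nlinarith [hsl0 w]
  have hsw := swindle h hc hs hμ (C.lo M) (C.hi M) hsep h01 hroot hchi
    (fun w k => (C.place (taut (3 * n₀) k).1 w, C.place (taut (3 * n₀) k).2 w))
    (fun j w k => (C.place (y j k).1 w, C.place (y j k).2 w))
    (fun w k => ⟨hfix hM₁ w ((s₁ k).1 w), hfix hM₂ w ((s₂ k).1 w)⟩)
    (fun j w k => ⟨hfix hM₃ w ((s₃ (j, k)).1 w), hfix hM₄ w ((s₄ (j, k)).1 w)⟩)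
    (fun j w => by
      have h1 : PhiL vl (List.ofFn (evT (y j) (nd w))) = 1 := (hndA w).2 j
      have h2 : Phi (List.ofFn (evT (y j) (nd w))) = 1 := by
        rw [← PhiL_g (c := btc), h1]
        rfl
      have h3 := map_Phi (cG (sl w) (ct w)) (List.ofFn (evT (y j) (nd w)))
      rw [h2, map_one, ← tree3_ofFn_map] at h3
      exact h3.symm)
    (fun j w k => by
      have h1 := hch j w k
      change (cG (sl (j :: w)) (ct (j :: w)) ((nd (j :: w)).2.1 k).1,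
        cG (sl (j :: w)) (ct (j :: w)) ((nd (j :: w)).2.1 k).2) =
        (cG μ ((2 * j + 2) * μ) (cG (sl w) (ct w) ((y j k).1 (nd w))),
          cG μ ((2 * j + 2) * μ) (cG (sl w) (ct w) ((y j k).2 (nd w))))
      rw [h1, tree3_cG (haff j w), tree3_cG (haff j w)])
    (C.PT (taut (3 * n₀))) (fun j => C.PT (y j))
    (fun k => ⟨(s₁ k).2, (s₂ k).2⟩) (fun j k => ⟨(s₃ (j, k)).2, (s₄ (j, k)).2⟩) rel
  refine tree3_root hc hs (hsl0 []) (ct []) x.1 x.2.1 ?_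
  rw [← hnd0]
  exact hsw

/-- `exists_tuple_of_length_le`, `PhiL_append`, `PhiL_replicate` -/
theorem small_list (h : VSpt n₀) (hc : ∀ e, π e = 1 → e ∈ Subgroup.center E)
    (hs : ∀ g, π (s g) = g) : ∃ (R : ℕ) (e : ℝ), 0 < e ∧ ∀ x : List (Gc × Gc), x.length ≤ 3 * n₀ →
      (∀ p ∈ x, (Fix (-3) 3 (p.1 : Pm) ∧ nm R (dp (p.1 : Pm)) ≤ e) ∧
        (Fix (-3) 3 (p.2 : Pm) ∧ nm R (dp (p.2 : Pm)) ≤ e)) →
      PhiL vl x = 1 → PhiL s x = 1 := by
  obtain ⟨R, e, he, hsm⟩ := small h hc hs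
  have hn : (0 : ℝ) ≤ ((3 * n₀ : ℕ) : ℝ) := Nat.cast_nonneg _
  have he' : 0 < e / (2 * ((3 * n₀ : ℕ) : ℝ) + 1) := by positivity
  refine ⟨R, _, he', fun x hl hx h1 => ?_⟩
  have ho : Fix (-3) 3 ((1 : Gc) : Pm) ∧
      nm R (dp ((1 : Gc) : Pm)) ≤ e / (2 * ((3 * n₀ : ℕ) : ℝ) + 1) := by
    refine ⟨fun _ _ => rfl, ?_⟩
    rw [OneMemClass.coe_one, dp_one, nm_zero_fun]
    exact he'.le
  obtain ⟨y, hy, hyx⟩ := exists_tuple_of_length_le
    (fun p : Gc × Gc => (Fix (-3) 3 (p.1 : Pm) ∧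
        nm R (dp (p.1 : Pm)) ≤ e / (2 * ((3 * n₀ : ℕ) : ℝ) + 1)) ∧
      (Fix (-3) 3 (p.2 : Pm) ∧ nm R (dp (p.2 : Pm)) ≤ e / (2 * ((3 * n₀ : ℕ) : ℝ) + 1)))
    (1, 1) ⟨ho, ho⟩ x hl hx
  have h2 : PhiL vl (List.ofFn y) = 1 := by
    rw [hyx, PhiL_append, PhiL_replicate, h1, one_mul]
  have h3 := hsm ⟨y, fun k => ⟨(hy k).1.1, (hy k).2.1⟩, h2⟩ (by
    change ∑ k, (nm R (dp ((y k).1 : Pm)) + nm R (dp ((y k).2 : Pm))) ≤ e
    refine (Finset.sum_le_sum fun k _ => add_le_add (hy k).1.2 (hy k).2.2).trans ?_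
    rw [Finset.sum_const, Finset.card_univ, Fintype.card_fin, nsmul_eq_mul, ← add_div,
      ← mul_div_assoc, div_le_iff₀ (by positivity)]
    nlinarith)
  change PhiL s (List.ofFn y) = 1 at h3
  rwa [hyx, PhiL_append, PhiL_replicate, mul_one] at h3

end Pool.Agent.P.MP_7bb7e1_gt
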