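import Pool.Agent.P.MP_7bb7e1_gt.Config
import Pool.Agent.P.MP_7bb7e1_gt.Base

/-! The universal relation. -/

namespace Pool.Agent.P.MP_7bb7e1_gt

open Filter
open scoped commutatorElement

namespace Scale

variable {S : Scale}

section

variable {E : Type*} [Group E] (X : S.Ext E)

/-- the short cycles of high order -/
def Ext.univ1Gen (g₀ : ℕ) : Set E :=
  {e | ∃ (c : ℝ) (y : List (E × E)), y.length ≤ g₀ ∧
    (∀ p ∈ y, p.1 ∈ X.EE 7 (c - 1 / 2) (c + 1 / 2) ∧ p.2 ∈ X.EE 7 (c - 1 / 2) (c + 1 / 2)) ∧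
      X.q (Phi y) = 1 ∧ Phi y = e}

theorem Ext.univ1_inv {g₀ : ℕ} {e : E} (he : e ∈ X.univ1Gen g₀) : e⁻¹ ∈ X.univ1Gen g₀ := by
  obtain ⟨c, y, h1, h2, h3, rfl⟩ := he
  refine ⟨c, y.reverse.map Prod.swap, by simpa using h1, fun p hp => ?_, ?_, Phi_rev y⟩
  · obtain ⟨p', hp', rfl⟩ := List.mem_map.1 hp
    exact (h2 p' (List.mem_reverse.1 hp')).symm
  · rw [Phi_rev, map_inv, h3, inv_one]

theorem Ext.univ1_list {g₀ : ℕ} {e : E} (he : e ∈ Subgroup.closure (X.univ1Gen g₀)) :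
    ∃ l : List E, (∀ z ∈ l, z ∈ X.univ1Gen g₀) ∧ l.prod = e := by
  induction he using Subgroup.closure_induction with
  | mem g hg => exact ⟨[g], by simpa using hg, by simp⟩
  | one => exact ⟨[], by simp, rfl⟩
  | mul g g' _ _ ih ih' =>
    obtain ⟨l, hl, rfl⟩ := ih
    obtain ⟨l', hl', rfl⟩ := ih'
    refine ⟨l ++ l', fun z hz => ?_, List.prod_append⟩
    rcases List.mem_append.1 hz with h | h
    exacts [hl z h, hl' z h]
  | inv g _ ih =>
    obtain ⟨l, hl, rfl⟩ := ih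
    refine ⟨(l.map fun z => z⁻¹).reverse, fun z hz => ?_, (List.prod_inv_reverse l).symm⟩
    obtain ⟨z', hz', rfl⟩ := List.mem_map.1 (List.mem_reverse.1 hz)
    exact X.univ1_inv (hl z' hz')

theorem Ext.univ1_ker {g₀ : ℕ} : Subgroup.closure (X.univ1Gen g₀) ≤ X.q.ker := by
  rw [Subgroup.closure_le]
  rintro e ⟨c, y, -, -, h3, rfl⟩
  exact h3

theorem Ext.univ1_normal (g₀ : ℕ) : (Subgroup.closure (X.univ1Gen g₀)).Normal := by
  refine ⟨fun e he g => ?_⟩
  have h1 : e ∈ Subgroup.center E :=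
    X.cen e 1 ((X.univ1_ker he).trans (map_one S.gm).symm) (Eventually.of_forall fun _ => rfl)
  rwa [Subgroup.mem_center_iff.1 h1 g, mul_inv_cancel_right]

theorem Ext.univ1_mem {n₀ : ℕ} (h : VSpt n₀) (x : List (E × E))
    (hx : ∀ p ∈ x, p.1 ∈ X.EE 3 (-6) 6 ∧ p.2 ∈ X.EE 3 (-6) 6) (hq : X.q (Phi x) = 1) :
    Phi x ∈ Subgroup.closure (X.univ1Gen (3 * n₀)) := by
  have := X.univ1_normal (3 * n₀)
  set Z := Subgroup.closure (X.univ1Gen (3 * n₀)) with hZ
  let X' : S.Ext (E ⧸ Z) :=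
    { q := QuotientGroup.lift Z X.q X.univ1_ker
      cen := fun e v he hv => by
        obtain ⟨e, rfl⟩ := QuotientGroup.mk'_surjective Z e
        have h1 := X.cen e v he hv
        rw [Subgroup.mem_center_iff] at h1 ⊢
        intro g
        obtain ⟨g, rfl⟩ := QuotientGroup.mk'_surjective Z g
        rw [← map_mul, ← map_mul, h1]
      sur := fun a b v hv => by
        obtain ⟨e, he⟩ := X.sur a b v hv
        exact ⟨QuotientGroup.mk' Z e, he⟩ }
  have hq' : ∀ e, X'.q (QuotientGroup.mk' Z e) = X.q e := fun _ => rfl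
  have hE : ∀ n a b e, QuotientGroup.mk' Z e ∈ X'.EE n a b ↔ e ∈ X.EE n a b :=
    fun _ _ _ _ => Iff.rfl
  have H : X'.HH (3 * n₀) := by
    intro c y' hl hy hy1
    obtain ⟨y, rfl⟩ : ∃ y : List (E × E),
        y.map (Prod.map (QuotientGroup.mk' Z) (QuotientGroup.mk' Z)) = y' :=
      ((QuotientGroup.mk'_surjective Z).prodMap
        (QuotientGroup.mk'_surjective Z)).list_map y'
    rw [← map_Phi] at hy1 ⊢
    rw [QuotientGroup.mk'_apply, QuotientGroup.eq_one_iff]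
    refine Subgroup.subset_closure ⟨c, y, by simpa using hl, fun p hp => ?_, hy1, rfl⟩
    exact hy _ (List.mem_map_of_mem hp)
  have key := Ext.main h H (x.map (Prod.map (QuotientGroup.mk' Z) (QuotientGroup.mk' Z)))
    (fun p hp => by
      obtain ⟨p', hp', rfl⟩ := List.mem_map.1 hp
      exact hx p' hp')
    (by rw [← map_Phi, hq', hq])
  rwa [← map_Phi, QuotientGroup.mk'_apply, QuotientGroup.eq_one_iff] at key

/-- If the hypothesis `HH` is not known, pass to the quotient by the (central) subgroup generated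
by the products `Phi y` with `y` as in `HH`, which is an `Ext` satisfying `HH`, and apply `main`.
The generating set is stable under inversion (`Phi_rev`). -/
theorem Ext.main_rel {n₀ : ℕ} (h : VSpt n₀) (x : List (E × E))
    (hx : ∀ p ∈ x, p.1 ∈ X.EE 3 (-6) 6 ∧ p.2 ∈ X.EE 3 (-6) 6) (hq : X.q (Phi x) = 1) :
    ∃ (L : ℕ) (y : Fin L → Fin (3 * n₀) → E × E) (c : Fin L → ℝ),
      (∀ j k, (y j k).1 ∈ X.EE 7 (c j - 1 / 2) (c j + 1 / 2) ∧
        (y j k).2 ∈ X.EE 7 (c j - 1 / 2) (c j + 1 / 2)) ∧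
      (∀ j, X.q (Phi (List.ofFn (y j))) = 1) ∧
      Phi x = (List.ofFn fun j => Phi (List.ofFn (y j))).prod := by
  obtain ⟨l, hl, e⟩ := X.univ1_list (X.univ1_mem h x hx hq)
  have key : ∀ j : Fin l.length, ∃ (y : Fin (3 * n₀) → E × E) (c : ℝ),
      (∀ k, (y k).1 ∈ X.EE 7 (c - 1 / 2) (c + 1 / 2) ∧ (y k).2 ∈ X.EE 7 (c - 1 / 2) (c + 1 / 2)) ∧
        X.q (Phi (List.ofFn y)) = 1 ∧ Phi (List.ofFn y) = l.get j := by
    intro j
    obtain ⟨c, y, h1, h2, h3, h4⟩ := hl _ (List.get_mem l j)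
    obtain ⟨y', h5, h6⟩ := exists_tuple_of_length_le (fun p : E × E =>
      p.1 ∈ X.EE 7 (c - 1 / 2) (c + 1 / 2) ∧ p.2 ∈ X.EE 7 (c - 1 / 2) (c + 1 / 2)) (1, 1)
      ⟨one_mem _, one_mem _⟩ y h1 h2
    have h7 : Phi (List.ofFn y') = Phi y := by
      rw [h6, Phi_append, Phi_replicate_one, mul_one]
    exact ⟨y', c, h5, h7 ▸ h3, h7.trans h4⟩
  choose y c h1 h2 h3 using key
  refine ⟨l.length, y, c, h1, h2, ?_⟩
  simp only [h3, List.ofFn_get, e]

end

variable {E : Type*} [Group E] (π : E →* Gc)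

variable (S) in
/-- pairs of a Virasoro germ and a germ of lifts of the placed products -/
noncomputable def UE : Subgroup (Germ S.F Vir × Germ S.KF E) where
  carrier := {z | ∃ (v : S.ι → Vir) (e : Config S → E) (a b : ℝ), v ∈ S.VG 1 a b ∧
    z.1 = S.gm v ∧ z.2 = (e : Germ S.KF E) ∧ ∀ᶠ C in S.KF, π (e C) = C.PC fun i => (v i).g}
  one_mem' := ⟨1, 1, 0, 0, one_mem _, (map_one S.gm).symm, rfl,
    Eventually.of_forall fun C => (map_one π).trans (PC_one C).symm⟩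
  mul_mem' := by
    rintro z z' ⟨v, e, a, b, hv, h1, h2, h3⟩ ⟨v', e', a', b', hv', h1', h2', h3'⟩
    refine ⟨v * v', e * e', min a a', max b b',
      mul_mem (VG_mono le_rfl (min_le_left _ _) (le_max_left _ _) hv)
        (VG_mono le_rfl (min_le_right _ _) (le_max_right _ _) hv'), ?_, ?_, ?_⟩
    · rw [Prod.fst_mul, h1, h1', map_mul]
    · rw [Prod.snd_mul, h2, h2', Germ.coe_mul]
    · filter_upwards [h3, h3', PC_mul (t := fun i => (v i).g) (t' := fun i => (v' i).g) hv hv']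
        with C e1 e2 e3
      rw [Pi.mul_apply, map_mul, e1, e2, ← e3]
      rfl
  inv_mem' := by
    rintro z ⟨v, e, a, b, hv, h1, h2, h3⟩
    refine ⟨v⁻¹, e⁻¹, a, b, inv_mem hv, ?_, ?_, ?_⟩
    · rw [Prod.fst_inv, h1, map_inv]
    · rw [Prod.snd_inv, h2, Germ.coe_inv]
    · filter_upwards [h3, PC_inv (t := fun i => (v i).g) hv] with C e1 e2
      rw [Pi.inv_apply, map_inv, e1, ← e2]
      rfl

theorem univ2_rep (z : S.UE π) {v : S.ι → Vir} (hv : z.1.1 = S.gm v) :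
    ∃ e : Config S → E, z.1.2 = (e : Germ S.KF E) ∧
      ∀ᶠ C in S.KF, π (e C) = C.PC fun i => (v i).g := by
  obtain ⟨v', e, a, b, -, h1, h2, h3⟩ := z.2
  refine ⟨e, h2, ?_⟩
  have h4 : ∀ᶠ i in S.F, (fun i => (v' i).g) i = (fun i => (v i).g) i :=
    (gm_eq.1 (h1.symm.trans hv)).mono fun i hi => by simp only [hi]
  filter_upwards [h3, PC_congr h4] with C e1 e2
  exact e1.trans e2

/-- the projection to the second factor -/
noncomputable def univ2_snd : S.UE π →* Germ S.KF E :=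
  (MonoidHom.snd _ _).comp (S.UE π).subtype

/-- the diffeomorphism parts of a tuple -/
def univ2_g {m : ℕ} (t : Fin m → (S.ι → Vir) × (S.ι → Vir)) :
    Fin m → (S.ι → Gc) × (S.ι → Gc) :=
  fun k => (fun i => ((t k).1 i).g, fun i => ((t k).2 i).g)

theorem univ2_Phi (hc : ∀ e, π e = 1 → e ∈ Subgroup.center E) {s : Gc → E}
    (hs : ∀ g, π (s g) = g) {m : ℕ} (z : Fin m → S.UE π × S.UE π)
    (t : Fin m → (S.ι → Vir) × (S.ι → Vir))
    (h : ∀ k, (z k).1.1.1 = S.gm (t k).1 ∧ (z k).2.1.1 = S.gm (t k).2) :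
    univ2_snd π (Phi (List.ofFn z)) =
      Germ.coeMulHom S.KF fun C => PhiL s (List.ofFn (C.PT (univ2_g t))) := by
  choose e he he' using fun k => univ2_rep π (z k).1 (h k).1
  choose f hf hf' using fun k => univ2_rep π (z k).2 (h k).2
  have h1 : univ2_snd π (Phi (List.ofFn z)) =
      Germ.coeMulHom S.KF (Phi (List.ofFn fun k => (e k, f k))) := by
    rw [map_Phi, map_Phi, List.map_ofFn, List.map_ofFn]
    congr 2
    funext k
    exact Prod.ext (he k) (hf k)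
  rw [h1]
  refine Germ.coe_eq.2 ?_
  filter_upwards [eventually_all.2 he', eventually_all.2 hf'] with C e1 e2
  have h2 := map_Phi (Pi.evalMonoidHom (fun _ : Config S => E) C) (List.ofFn fun k => (e k, f k))
  rw [Pi.evalMonoidHom_apply] at h2
  rw [h2, PhiL]
  refine Phi_congr_of_ker π hc ?_
  simp only [List.map_ofFn]
  congr 1
  funext k
  exact Prod.ext ((e1 k).trans (hs _).symm) ((e2 k).trans (hs _).symm)

theorem univ2_q {E' : Type*} [Group E'] (X : S.Ext E') {m : ℕ} (z : Fin m → E' × E')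
    (t : Fin m → (S.ι → Vir) × (S.ι → Vir))
    (h : ∀ k, X.q (z k).1 = S.gm (t k).1 ∧ X.q (z k).2 = S.gm (t k).2) :
    X.q (Phi (List.ofFn z)) = 1 ↔
      ∀ᶠ i in S.F, PhiL vl (List.ofFn (evT (univ2_g t) i)) = 1 := by
  have h1 : X.q (Phi (List.ofFn z)) = S.gm (Phi (List.ofFn t)) := by
    rw [map_Phi, map_Phi, List.map_ofFn, List.map_ofFn]
    congr 2
    funext k
    exact Prod.ext (h k).1 (h k).2
  have h2 : ∀ i, Phi (List.ofFn t) i = PhiL vl (List.ofFn (evT (univ2_g t) i)) := by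
    intro i
    have h3 := map_Phi (Pi.evalMonoidHom (fun _ : S.ι => Vir) i) (List.ofFn t)
    rw [Pi.evalMonoidHom_apply] at h3
    rw [h3, Phi_eq_PhiL, List.map_ofFn, List.map_ofFn]
    rfl
  rw [h1, gm_eq_one]
  simp only [h2]

/-- the universal extension -/
theorem exists_UExt (hc : ∀ e, π e = 1 → e ∈ Subgroup.center E) {s : Gc → E}
    (hs : ∀ g, π (s g) = g) : ∃ X : S.Ext (S.UE π), ∀ z, X.q z = z.1.1 := by
  refine ⟨⟨(MonoidHom.fst _ _).comp (S.UE π).subtype, fun z v hz hv => ?_, fun a b v hv => ?_⟩,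
    fun _ => rfl⟩
  · have hz' : z.1.1 = S.gm v := hz
    obtain ⟨e, he, he'⟩ := univ2_rep π z hz'
    rw [Subgroup.mem_center_iff]
    intro w
    obtain ⟨v', e', a, b, -, h1, h2, -⟩ := w.2
    refine Subtype.ext (Prod.ext ?_ ?_)
    · change w.1.1 * z.1.1 = z.1.1 * w.1.1
      rw [hz', h1, ← map_mul, ← map_mul, gm_eq]
      filter_upwards [hv] with i hi
      exact Subgroup.mem_center_iff.1 (CE.central (v i) hi) (v' i)
    · change w.1.2 * z.1.2 = z.1.2 * w.1.2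
      rw [he, h2, ← Germ.coe_mul, ← Germ.coe_mul]
      refine Germ.coe_eq.2 ?_
      filter_upwards [he', PC_congr (t := fun i => (v i).g) (t' := 1) hv] with C e1 e2
      exact Subgroup.mem_center_iff.1 (hc (e C) (e1.trans (e2.trans (PC_one C)))) (e' C)
  · exact ⟨⟨(S.gm v, ((fun C : Config S => s (C.PC fun i => (v i).g) : Config S → E) :
      Germ S.KF E)), v, _, a, b, hv, rfl, rfl, Eventually.of_forall fun C => hs _⟩, rfl⟩

/-- `exists_UExt`, `Ext.main_rel` applied to the lifts of the entries of `x`; project to the second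
factor (`map_Phi`, `Germ.coe_eq`, `Phi_congr_of_ker`, `PC_congr`). -/
theorem univ {n₀ : ℕ} (h : VSpt n₀) (hc : ∀ e, π e = 1 → e ∈ Subgroup.center E) {s : Gc → E}
    (hs : ∀ g, π (s g) = g) {n : ℕ} (x : Fin n → (S.ι → Gc) × (S.ι → Gc))
    (hx : ∀ k, cF (x k).1 ∈ S.GF 3 (-6) 6 ∧ cF (x k).2 ∈ S.GF 3 (-6) 6)
    (hcyc : ∀ᶠ i in S.F, PhiL vl (List.ofFn (evT x i)) = 1) :
    ∃ (L : ℕ) (y : Fin L → Fin (3 * n₀) → (S.ι → Gc) × (S.ι → Gc)) (c : Fin L → ℝ),
      (∀ j k, cF (y j k).1 ∈ S.GF 7 (c j - 1 / 2) (c j + 1 / 2) ∧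
        cF (y j k).2 ∈ S.GF 7 (c j - 1 / 2) (c j + 1 / 2)) ∧
      (∀ j, ∀ᶠ i in S.F, PhiL vl (List.ofFn (evT (y j) i)) = 1) ∧
      ∀ᶠ C in S.KF, PhiL s (List.ofFn (C.PT x)) =
        (List.ofFn fun j => PhiL s (List.ofFn (C.PT (y j)))).prod := by
  obtain ⟨X, hX⟩ := exists_UExt (S := S) π hc hs
  let u : Fin n → (S.ι → Vir) × (S.ι → Vir) :=
    fun k => (fun i => vl ((x k).1 i), fun i => vl ((x k).2 i))
  have hu : univ2_g u = x := rfl
  choose z hz hz' using fun k => Ext.exists_lift (X := X) (v := (u k).1) (hx k).1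
  choose w hw hw' using fun k => Ext.exists_lift (X := X) (v := (u k).2) (hx k).2
  obtain ⟨L, y, c, h1, h2, h3⟩ := X.main_rel h (List.ofFn fun k => (z k, w k))
    (fun p hp => by
      obtain ⟨k, rfl⟩ := (List.mem_ofFn' _ _).1 hp
      exact ⟨hz k, hw k⟩)
    ((univ2_q X _ u fun k => ⟨hz' k, hw' k⟩).2 hcyc)
  choose v hv hv' using fun j k => Ext.mem_EE.1 (h1 j k).1
  choose v' hu' hu'' using fun j k => Ext.mem_EE.1 (h1 j k).2
  refine ⟨L, fun j => univ2_g fun k => (v j k, v' j k), c, fun j k => ⟨hv j k, hu' j k⟩,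
    fun j => (univ2_q X (y j) _ fun k => ⟨hv' j k, hu'' j k⟩).1 (h2 j), ?_⟩
  have h4 := congrArg (univ2_snd π) h3
  rw [univ2_Phi π hc hs _ u fun k => ⟨(hX _).symm.trans (hz' k), (hX _).symm.trans (hw' k)⟩,
    map_list_prod, List.map_ofFn] at h4
  have h5 : (univ2_snd π) ∘ (fun j => Phi (List.ofFn (y j))) =
      (Germ.coeMulHom S.KF) ∘ fun j C =>
        PhiL s (List.ofFn (C.PT (univ2_g fun k => (v j k, v' j k)))) := by
    funext j
    exact univ2_Phi π hc hs (y j) _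
      fun k => ⟨(hX _).symm.trans (hv' j k), (hX _).symm.trans (hu'' j k)⟩
  rw [h5, ← List.map_ofFn, ← map_list_prod] at h4
  filter_upwards [Germ.coe_eq.1 h4] with C hC
  rw [hu] at hC
  rw [hC]
  have h6 := map_list_prod (Pi.evalMonoidHom (fun _ : Config S => E) C) (List.ofFn fun j C =>
    PhiL s (List.ofFn (Config.PT C (univ2_g fun k => (v j k, v' j k)))))
  rw [Pi.evalMonoidHom_apply, List.map_ofFn] at h6
  exact h6

end Scale

end Pool.Agent.P.MP_7bb7e1_gt
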