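import Pool.Agent.P.MP_7bb7e1_gt.ST

/-! The solver in the Virasoro group, with a uniform number of commutators. -/

namespace Pool.Agent.P.MP_7bb7e1_gt

open Filter

namespace Scale

variable {S : Scale} {β : ℕ}

/-- `st_pt`, `mem_GF_of_sml`, `Phi_lfT` -/
theorem st_fam (hβ : 1 ≤ β) {c : S.ι → ℝ} (hc : S.OdS (2 * β + 4) c) :
    ∃ x : List ((S.ι → Vir) × (S.ι → Vir)),
      (∀ p ∈ x, p.1 ∈ S.VG β (-3) 3 ∧ p.2 ∈ S.VG β (-3) 3) ∧
        ∀ᶠ i in S.F, Phi x i = ⟨1, c i⟩ := by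
  obtain ⟨n₁, e₀, C, he, h⟩ := st_pt hβ
  have h' : ∀ i : S.ι, ∃ x : Fin n₁ → Gc × Gc, S.ε i ≤ e₀ → |c i| ≤ S.ε i ^ (2 * β + 3) →
      (∀ k, Sml 0 1 (fun r => C r * S.ε i ^ β) (x k).1 ∧
        Sml 0 1 (fun r => C r * S.ε i ^ β) (x k).2) ∧ PhiL vl (List.ofFn x) = ⟨1, c i⟩ := by
    intro i
    by_cases hi : S.ε i ≤ e₀ ∧ |c i| ≤ S.ε i ^ (2 * β + 3)
    · obtain ⟨x, hx⟩ := h (S.ε i) (c i) (S.pos i) hi.1 hi.2
      exact ⟨x, fun _ _ => hx⟩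
    · exact ⟨fun _ => (1, 1), fun h1 h2 => absurd ⟨h1, h2⟩ hi⟩
  choose x hx using h'
  have ev : ∀ᶠ i in S.F, (∀ k, Sml 0 1 (fun r => C r * S.ε i ^ β) (x i k).1 ∧
      Sml 0 1 (fun r => C r * S.ε i ^ β) (x i k).2) ∧ PhiL vl (List.ofFn (x i)) = ⟨1, c i⟩ := by
    filter_upwards [S.eps_small he, OdS.small (n := 2 * β + 3) hc one_pos] with i h1 h2
    exact hx i h1 (by rwa [one_mul] at h2)
  refine ⟨List.ofFn (lfT x), fun p hp => ?_, ?_⟩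
  · obtain ⟨k, rfl⟩ := List.mem_ofFn.1 hp
    exact ⟨mem_GF_of_sml (t := fun i => (x i k).1) hβ (by norm_num) (by norm_num)
        (ev.mono fun i hi => (hi.1 k).1),
      mem_GF_of_sml (t := fun i => (x i k).2) hβ (by norm_num) (by norm_num)
        (ev.mono fun i hi => (hi.1 k).2)⟩
  · filter_upwards [ev] with i hi
    rw [Phi_lfT, hi.2]

/-- `solver_list` of order `β + 2`, `Phi_mem_VF`, `st_fam` -/
theorem vs_fam (hβ : 1 ≤ β) {v : S.ι → Vir} (hg : gp v ∈ S.GB (2 * β + 4))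
    (ha : S.OdS (2 * β + 4) fun i => (v i).a) (hf : ∀ᶠ i in S.F, Fix (-1) 1 ((v i).g : Pm)) :
    ∃ x : List ((S.ι → Vir) × (S.ι → Vir)),
      (∀ p ∈ x, p.1 ∈ S.VG β (-3) 3 ∧ p.2 ∈ S.VG β (-3) 3) ∧ ∀ᶠ i in S.F, Phi x i = v i := by
  have hg' : gp v ∈ S.GB (2 * (β + 2)) := GB_anti (by omega) hg
  obtain ⟨x, hx, ex⟩ := solver_list (β := β + 2) (by omega) hg' hf
  have h1 : Phi x ∈ S.VF (2 * β + 4) (-3) 3 :=
    VF_mono (by omega) le_rfl le_rfl (Phi_mem_VF (by omega) hx)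
  have h2 : v ∈ S.VF (2 * β + 4) (-3) 3 :=
    mem_VF.2 ⟨mem_GF_iff.2 ⟨hg, -1, 1, by norm_num, by norm_num, hf⟩, ha⟩
  have h3 : (Phi x)⁻¹ * v ∈ S.VF (2 * β + 4) (-3) 3 := mul_mem (inv_mem h1) h2
  obtain ⟨y, hy, ey⟩ := st_fam hβ (mem_VF.1 h3).2
  refine ⟨x ++ y, fun p hp => ?_, ?_⟩
  · rcases List.mem_append.1 hp with h | h
    · exact ⟨VG_mono (by omega) le_rfl le_rfl (hx p h).1,
        VG_mono (by omega) le_rfl le_rfl (hx p h).2⟩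
    · exact hy p h
  · filter_upwards [ex, ey] with i e1 e2
    have e3 : (Phi x i).g = (v i).g := Subtype.ext e1
    have e4 : Phi y i = ((Phi x)⁻¹ * v) i := by
      rw [e2]
      refine CE.ext ?_ rfl
      show (1 : Gc) = (Phi x i).g⁻¹ * (v i).g
      rw [e3, inv_mul_cancel]
    rw [Phi_append, Pi.mul_apply, e4, Pi.mul_apply, Pi.inv_apply, mul_inv_cancel_left]

end Scale

/-- pointwise solver with `n₀` commutators -/
def VSpt (n₀ : ℕ) : Prop := ∃ (r₀ K : ℕ) (e₀ : ℝ) (C : ℕ → ℝ), 0 < e₀ ∧ (∀ r, 0 ≤ C r) ∧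
  ∀ (ε : ℝ) (v : Vir), 0 < ε → ε ≤ e₀ → Fix (-1) 1 (v.g : Pm) → nm r₀ (dp (v.g : Pm)) ≤ ε ^ 20 →
    |v.a| ≤ ε ^ 20 → ∃ x : Fin n₀ → Gc × Gc,
      (∀ k, Ctl (-3) 3 (C 0 * ε ^ 8) (fun r => C r * (1 + nm r (dp (v.g : Pm))) / ε ^ K) (x k).1 ∧
        Ctl (-3) 3 (C 0 * ε ^ 8) (fun r => C r * (1 + nm r (dp (v.g : Pm))) / ε ^ K) (x k).2) ∧
      PhiL vl (List.ofFn x) = v

/-- the universal data used in `vs_pt` -/
noncomputable def vs_data : UData where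
  ι := {p : ℝ × Vir // 0 < p.1 ∧ p.1 ≤ 1 / 2 ∧ Fix (-1) 1 (p.2.g : Pm)}
  ε := fun i => i.1.1
  sz := fun r i => max (nm r (dp (i.1.2.g : Pm))) |i.1.2.a|
  a := 20
  pos := fun i => i.2.1
  le_half := fun i => i.2.2.1
  nonneg := fun _ _ => (abs_nonneg _).trans (le_max_right _ _)
  mono := fun _ _ _ h => max_le_max (nm_mono h _) le_rfl

/-- Universal scale on pairs `(ε, v)` with `Fix (-1) 1 v.g`, size `max (nm r (dp v.g)) |v.a|` and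
`a = 20`; `vs_fam` with `β = 8`, `exists_tuple`, `extract`. -/
theorem vs_pt : ∃ n₀, VSpt n₀ := by
  let v : vs_data.scale.ι → Vir := fun i => i.1.2
  have ht := vs_data.taut (f := Scale.dpF (S := vs_data.scale) (Scale.gp v))
    (fun i => Gc.sm i.1.2.g) fun r i => (sn_le_nm le_rfl _).trans (le_max_left _ _)
  have hg : Scale.gp v ∈ vs_data.scale.GB (2 * 8 + 4) :=
    Scale.mem_GB_of (by norm_num) ht.1 ht.2
  have ha : vs_data.scale.OdS (2 * 8 + 4) fun i => (v i).a :=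
    vs_data.tautS fun i => le_max_right _ _
  obtain ⟨x, hx, ex⟩ := Scale.vs_fam (β := 8) (by norm_num) hg ha
    (Eventually.of_forall fun i => i.2.2.2)
  obtain ⟨y, hy, ey⟩ := Scale.exists_tuple x hx
  obtain ⟨A, hA, K, C, hC, h⟩ := Scale.extract (a := fun _ => -3) (b := fun _ => 3) y hy
  obtain ⟨e, he, r₀, hm⟩ := vs_data.mem_filt.1 (inter_mem hA ex)
  refine ⟨x.length, r₀, K, min e (1 / 2), fun r => 2 * C r, lt_min he (by norm_num),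
    fun r => mul_nonneg (by norm_num) (hC r), fun ε w hε hε' hf h1 h2 => ?_⟩
  have hh : ε ≤ 1 / 2 := hε'.trans (min_le_right _ _)
  let i : vs_data.scale.ι := ⟨(ε, w), hε, hh, hf⟩
  have hi := hm i (hε'.trans (min_le_left _ _)) (max_le h1 h2)
  have hw : |w.a| ≤ 1 := h2.trans (pow_le_one₀ hε.le (by linarith))
  have up : ∀ u : Gc, Ctl (-3) 3 (C 0 * ε ^ 8)
      (fun r => C r * (1 + max (nm r (dp (w.g : Pm))) |w.a|) / ε ^ K) u →
      Ctl (-3) 3 (2 * C 0 * ε ^ 8) (fun r => 2 * C r * (1 + nm r (dp (w.g : Pm))) / ε ^ K) u := by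
    intro u hu
    refine extract_mono hu (mul_le_mul_of_nonneg_right (by linarith [hC 0]) (by positivity))
      fun r => div_le_div_of_nonneg_right ?_ (by positivity)
    have h3 := nm_nonneg r (dp (w.g : Pm))
    have h4 : max (nm r (dp (w.g : Pm))) |w.a| ≤ 1 + 2 * nm r (dp (w.g : Pm)) :=
      max_le (by linarith) (by linarith)
    calc C r * (1 + max (nm r (dp (w.g : Pm))) |w.a|)
        ≤ C r * (1 + (1 + 2 * nm r (dp (w.g : Pm)))) :=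
          mul_le_mul_of_nonneg_left (by linarith) (hC r)
      _ = 2 * C r * (1 + nm r (dp (w.g : Pm))) := by ring
  exact ⟨evT y i, fun k => ⟨up _ (h i hi.1 k).1, up _ (h i hi.1 k).2⟩, (ey i).trans hi.2⟩

/-- fix a small `ε`, ask in addition `nm R'' ≤ 1`, and use `interp` -/
theorem vs_small {n₀ : ℕ} (h : VSpt n₀) (R : ℕ) {e : ℝ} (he : 0 < e) :
    ∃ (R' : ℕ) (e' : ℝ), 0 < e' ∧ ∀ v : Vir, Fix (-1) 1 (v.g : Pm) →
      nm R' (dp (v.g : Pm)) ≤ e' → |v.a| ≤ e' → ∃ x : Fin n₀ → Gc × Gc,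
        (∀ k, (Fix (-3) 3 ((x k).1 : Pm) ∧ nm R (dp ((x k).1 : Pm)) ≤ e) ∧
          (Fix (-3) 3 ((x k).2 : Pm) ∧ nm R (dp ((x k).2 : Pm)) ≤ e)) ∧
        PhiL vl (List.ofFn x) = v := by
  obtain ⟨r₀, K, e₀, C, h0, hC, h⟩ := h
  obtain ⟨R₁, -, hi⟩ := interp R 8 K
  obtain ⟨D, hD, hi⟩ := hi (C 0) (C R₁ * 2)
  obtain ⟨ε, ε0, ε1, ε2, ε3⟩ : ∃ ε : ℝ, 0 < ε ∧ ε ≤ 1 ∧ ε ≤ e₀ ∧ ε * (D + 1) ≤ e :=
    ⟨min (min 1 e₀) (e / (D + 1)), by positivity, (min_le_left _ _).trans (min_le_left _ _),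
      (min_le_left _ _).trans (min_le_right _ _),
      (le_div_iff₀ (by positivity)).1 (min_le_right _ _)⟩
  refine ⟨max r₀ R₁, ε ^ 20, by positivity, fun v hv h1 h2 => ?_⟩
  obtain ⟨x, hx, hv⟩ := h ε v ε0 ε2 hv ((nm_mono (le_max_left _ _) _).trans h1) h2
  have h3 : nm R₁ (dp (v.g : Pm)) ≤ 1 :=
    ((nm_mono (le_max_right _ _) _).trans h1).trans (pow_le_one₀ ε0.le ε1)
  have key : ∀ u : Gc, Ctl (-3) 3 (C 0 * ε ^ 8)
      (fun r => C r * (1 + nm r (dp (v.g : Pm))) / ε ^ K) u →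
      Fix (-3) 3 (u : Pm) ∧ nm R (dp (u : Pm)) ≤ e := fun u hu => by
    refine ⟨hu.1, (hi ε _ ε0 ε1 (Gc.sm u) hu.2.1 ((hu.2.2 R₁).trans ?_)).trans ?_⟩
    · exact div_le_div_of_nonneg_right (mul_le_mul_of_nonneg_left (by linarith) (hC _))
        (by positivity)
    · have s1 : ε ≤ √ε := Real.le_sqrt_of_sq_le (by nlinarith)
      have s2 : ε ^ 8 ≤ ε ^ 2 := pow_le_pow_of_le_one ε0.le ε1 (by norm_num)
      rw [div_le_iff₀ (by linarith)]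
      nlinarith [mul_le_mul_of_nonneg_left s2 hD, mul_le_mul_of_nonneg_left s1 he.le,
        mul_le_mul_of_nonneg_right ε3 ε0.le, sq_nonneg ε]
  exact ⟨x, fun k => ⟨key _ (hx k).1, key _ (hx k).2⟩, hv⟩

theorem vs2_choice {ι β : Type*} {F : Filter ι} {r : ι → β → Prop} (o : β)
    (h : ∀ᶠ i in F, ∃ y, r i y) : ∃ f : ι → β, ∀ᶠ i in F, r i (f i) :=
  haveI : Nonempty β := ⟨o⟩
  ⟨fun i => Classical.epsilon (r i), h.mono fun _ hi => Classical.epsilon_spec hi⟩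

/-- conjugate by `cV` with the inverse affine map, solve pointwise, `mem_GF_of_ctl`, and conjugate
back (`conj_aff_GF`, `cV_PhiL`, `cG_cG`) -/
theorem Scale.vs_unif {n₀ : ℕ} (h : VSpt n₀) {S : Scale} {l : ℝ} (hl : 0 < l) (m : ℝ)
    {v : S.ι → Vir} (hv : v ∈ S.VF 21 (m - l) (m + l)) :
    ∃ x : Fin n₀ → (S.ι → Vir) × (S.ι → Vir),
      (∀ k, (x k).1 ∈ S.VG 7 (m - 4 * l) (m + 4 * l) ∧ (x k).2 ∈ S.VG 7 (m - 4 * l) (m + 4 * l)) ∧
        ∀ᶠ i in S.F, Phi (List.ofFn x) i = v i := by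
  obtain ⟨r₀, K, e₀, C, h0, hC, h⟩ := h
  have hl' := inv_pos.2 hl
  have hw : gp (fun i => cV hl' (-m / l) (v i)) ∈ S.GF 21 (-1) 1 := by
    have := conj_aff_GF hv.1 hl' (-m / l)
    rwa [show l⁻¹ * (m - l) + -m / l = -1 by field_simp; ring,
      show l⁻¹ * (m + l) + -m / l = 1 by field_simp; ring] at this
  have hx : ∀ᶠ i in S.F, ∃ x : Fin n₀ → Gc × Gc,
      (∀ k, Ctl (-3) 3 (C 0 * S.ε i ^ 8)
        (fun r => C r * (1 + nm r (dp ((cV hl' (-m / l) (v i)).g : Pm))) / S.ε i ^ K) (x k).1 ∧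
        Ctl (-3) 3 (C 0 * S.ε i ^ 8)
        (fun r => C r * (1 + nm r (dp ((cV hl' (-m / l) (v i)).g : Pm))) / S.ε i ^ K) (x k).2) ∧
      PhiL vl (List.ofFn x) = cV hl' (-m / l) (v i) := by
    filter_upwards [S.eps_small h0, GF_fix hw, (GB_od hw.1).small r₀ one_pos,
      OdS.small hv.2 one_pos] with i e1 e2 e3 e4
    rw [one_mul] at e3 e4
    exact h _ _ (S.pos i) e1 e2 e3 e4
  obtain ⟨x, hx⟩ := vs2_choice (fun _ => (1, 1)) hx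
  have key : ∀ t : S.ι → Gc, (∀ᶠ i in S.F, Ctl (-3) 3 (C 0 * S.ε i ^ 8)
      (fun r => C r * (1 + nm r (dp ((cV hl' (-m / l) (v i)).g : Pm))) / S.ε i ^ K) (t i)) →
      (fun i => vl (cG l m (t i))) ∈ S.VG 7 (m - 4 * l) (m + 4 * l) := fun t ht => by
    have := conj_aff_GF (mem_GF_of_ctl (n := 7) (a' := -4) (b' := 4) (by norm_num) (by norm_num)
      (by norm_num) (GB_tame hw.1) ht) hl m
    rwa [show l * -4 + m = m - 4 * l by ring, show l * 4 + m = m + 4 * l by ring] at this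
  refine ⟨lfT fun i k => Prod.map (cG l m) (cG l m) (x i k), fun k =>
    ⟨key _ (hx.mono fun i hi => (hi.1 k).1), key _ (hx.mono fun i hi => (hi.1 k).2)⟩,
    hx.mono fun i hi => ?_⟩
  have e := cV_PhiL hl m (List.ofFn (x i))
  rw [hi.2, List.map_ofFn] at e
  rw [Phi_lfT]
  refine e.symm.trans (CE.ext ?_ rfl)
  rw [cV_g, cV_g, cG_cG hl.ne' hl'.ne', mul_inv_cancel₀ hl.ne',
    show l * (-m / l) + m = 0 by field_simp; ring, cG_one]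

end Pool.Agent.P.MP_7bb7e1_gt
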